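import Pool.Agent.Lib.MP_3bda03_nt.H.Layer

-- part Pool.Agent.Lib.MP_3bda03_nt.P.Defs
section

/-!
Double sieve for random lattices: definitions. The letter `v` is half the dimension.
-/

set_option autoImplicit false

noncomputable section

open MeasureTheory Matrix
open scoped ENNReal

namespace Pool.Agent.Eps.P

open Pool.Agent.Eps.H

/-! ### numbers -/

/-- half the volume of the hole -/
def lb (v : ℝ) : ℝ := max (v / 20 - 13 / 10) (3 * v / 50 - 33 / 10)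

/-- the Stirling factor -/
def sg (v : ℝ) : ℝ := Real.Gamma (v + 1) * Real.exp v / v ^ v

/-- the volume of the hole -/
def VV (v : ℝ) : ℝ := 2 * lb v

/-- the squared radius of the hole -/
def rr (v : ℝ) : ℝ := (VV v * Real.Gamma (v + 1)) ^ (1 / v) / Real.pi

def th (v : ℝ) : ℝ := Real.pi * rr v / v

/-- the unit of the error terms -/
def vp (v : ℝ) : ℝ := sg v * VV v * Real.exp (-(2 * Real.pi * rr v))

def FF (v s : ℝ) : ℝ := Real.exp (-(s * v)) / (1 - s)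

def En (v s : ℝ) : ℝ := Real.exp (-(v * (s - (max (s - 1 / 5) 0) ^ 2 / 2))) / (1 - s)

def eL (v x : ℝ) : ℝ := Real.exp (v * (Real.log (1 - x / 4) + x / (4 - x)))

def dec (v : ℝ) : ℝ := Real.exp (-((v - 97 / 2) / 1000))

def t0 (v : ℝ) : ℝ := 0.0979 + 0.43 / v

def tx (v : ℝ) : ℝ := 0.1305 + 0.388 / v

def tC (v : ℝ) : ℝ := 0.3678 + 1.35 / v

def dl (v : ℝ) : ℝ := 4.14 * Real.exp (-(0.5794 * v))

def dx (v : ℝ) : ℝ := 1.71 * Real.exp (-(0.4 * v))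

def om1 (v : ℝ) : ℝ := 0.726 * Real.exp (-(0.0783 * v))

def om2 (v : ℝ) : ℝ := 0.26 * Real.exp (-(0.3132 * v))

def g1 (v : ℝ) : ℝ := 1.46 * Real.exp (-(0.0783 * v))

def al0 (v : ℝ) : ℝ := 1.51 * lb v * Real.exp (-(0.1044 * v))

def xi2 (v : ℝ) : ℝ := 0.4825 / lb v

def Cf (v y : ℝ) : ℝ := sg v / (2 * Real.pi) * Real.sqrt (Real.pi / (v / 2 - 1 - y))

/-- envelope of the Fourier transform of the uniform measure on a sphere -/
def Env (v y : ℝ) : ℝ :=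
  if y ≤ 0.45 * v then Cf v y * Real.exp (-y)
  else Cf v (0.45 * v) * (0.45 * v / (Real.exp 1 * y)) ^ (0.45 * v)

/-- bound for the share of independent tuples that are not primitive -/
def imp (a d : ℕ) : ℝ := 2 * 2 ^ a / 2 ^ d

/-- falling factorial -/
def ff (j a : ℕ) : ℝ := (a.descFactorial j : ℝ)

/-- weight of an ordered tuple with signs -/
def cw (a : ℕ) : ℝ := 1 / (2 ^ a * (a.factorial : ℝ))

/-- truncated exponential series -/
def TK (K : ℕ) (x : ℝ) : ℝ := ∑ a ∈ Finset.range (K + 1), (-x) ^ a / (a.factorial : ℝ)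

/-- the quadratic weight that bounds the mean of the main term -/
def Yb (v m : ℝ) (b : ℕ) : ℝ :=
  6.9 * m ^ 2 + 1.38 * (1.0112 * VV v + 2 * b) ^ 2 * vp v / VV v

/-! ### coefficient vectors -/

section
variable {τ : Type} [Fintype τ] [DecidableEq τ]

/-- size of the support -/
def spt (κ : τ → ℤ) : ℕ := (Finset.univ.filter fun i => κ i ≠ 0).card

/-- largest entry -/
def mx (κ : τ → ℤ) : ℕ := Finset.univ.sup fun i => (κ i).natAbs

variable (τ)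

/-- entries in `{-1, 0, 1}`, support of size `j` -/
def CU (j : ℕ) : Set (τ → ℤ) := {κ | mx κ ≤ 1 ∧ spt κ = j}

/-- entries in `{-1, 0, 1}`, support of size at least `j` -/
def CG (j : ℕ) : Set (τ → ℤ) := {κ | mx κ ≤ 1 ∧ j ≤ spt κ}

/-- some entry of size at least `g` -/
def CN (g : ℕ) : Set (τ → ℤ) := {κ | g ≤ mx κ}

/-- largest entry two, support of size at least two -/
def CM : Set (τ → ℤ) := {κ | mx κ = 2 ∧ 2 ≤ spt κ}

/-- support of size at least two -/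
def CS : Set (τ → ℤ) := {κ | 2 ≤ spt κ}

/-- neither zero nor a signed basis vector -/
def NE : Set (τ → ℤ) := {κ | κ ≠ 0 ∧ κ ∉ CU τ 1}

end

/-- sum over a set -/
def cs {α : Type} (S : Set α) (f : α → ℝ≥0∞) : ℝ≥0∞ := ∑' x : S, f x.1

/-- indicator of a statement -/
def ind (p : Prop) : ℝ≥0∞ := by classical exact if p then 1 else 0

/-! ### vectors and frames -/

section
variable (ι : Type) [Fintype ι]

/-- half the dimension -/
def hd : ℝ := (Fintype.card ι : ℝ) / 2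

/-- the largest size of a frame -/
def KK : ℕ := Fintype.card ι / 6

/-- the ball -/
def BB : Set (ι → ℝ) := {y | nsq y < rr (hd ι)}

/-- the annulus -/
def AA : Set (ι → ℝ) := {y | 0.8 * rr (hd ι) ≤ nsq y ∧ nsq y < rr (hd ι)}

variable {ι}

/-- normalised squared length -/
def nx (y : ι → ℝ) : ℝ := hd ι * nsq y / rr (hd ι)

def gs (t : ℝ) (y : ι → ℝ) : ℝ := Real.exp (-(t * nx y))

def Gs (t : ℝ) (y : ι → ℝ) : ℝ≥0∞ := ENNReal.ofReal (gs t y)

def iA (y : ι → ℝ) : ℝ≥0∞ := (AA ι).indicator 1 y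

def iB (y : ι → ℝ) : ℝ≥0∞ := (BB ι).indicator 1 y

def Ev (u : ℝ) (w : ι → ℝ) : ℝ := Env (hd ι) (th (hd ι) ^ 2 * u * nx w)

def Gx (w : ι → ℝ) : ℝ := 1.024 * gs (tx (hd ι)) w + dx (hd ι)

/-- Fourier transform of the annulus -/
def al (w : ι → ℝ) : ℝ := ftr ((AA ι).indicator 1) w

/-- the weight on the annulus -/
def wA (w : ι → ℝ) : ℝ := Real.exp (-al w)

/-- admissible functions: even, between zero and the standard Gaussian -/
structure Hf (h : (ι → ℝ) → ℝ) : Prop where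
  meas : Measurable h
  nonneg : ∀ y, 0 ≤ h y
  even : ∀ y, h (-y) = h y
  le : ∀ y, h y ≤ gs (th (hd ι)) y

/-- admissible profiles -/
structure Tst (ι : Type) [Fintype ι] (φ : ℝ → ℝ) : Prop where
  prof : Prof φ
  nonneg : ∀ ρ, 0 ≤ φ ρ
  le : ∀ ρ, 0 ≤ ρ → φ ρ ≤ Real.exp (-(Real.pi * ρ))
  zero : ∀ ρ, ρ < rr (hd ι) → φ ρ = 0

/-- the radial function of a profile -/
def rad (φ : ℝ → ℝ) (y : ι → ℝ) : ℝ := φ (nsq y)

/-- the sum over the nonzero vectors -/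
def XX (h : (ι → ℝ) → ℝ) (g : Matrix ι ι ℝ) : ℝ := ∑' k : {k : ι → ℤ // k ≠ 0}, h (lv k.1 g)

/-- squared deviation -/
def YY (h : (ι → ℝ) → ℝ) (c : ℝ) (g : Matrix ι ι ℝ) : ℝ≥0∞ := ENNReal.ofReal ((XX h g - c) ^ 2)

/-- no vector in the annulus -/
def hole (g : Matrix ι ι ℝ) : ℝ≥0∞ := ind (∀ k : ι → ℤ, lv k g ∉ AA ι)

/-- first moment -/
def m1 (Λ : Measure (ι → ℝ)) (h : (ι → ℝ) → ℝ) : ℝ≥0∞ := ∫⁻ y, ENNReal.ofReal (h y) ∂Λ

/-- the diagonal term of the second moment -/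
def NN (Λ : Measure (ι → ℝ)) (h : (ι → ℝ) → ℝ) : ℝ≥0∞ :=
  2 * ∫⁻ y, ENNReal.ofReal (h y) * ENNReal.ofReal (h y) ∂Λ

def PP (h : (ι → ℝ) → ℝ) : ℝ := ∫ y in AA ι, wA y * ftr h y

def QQ (h : (ι → ℝ) → ℝ) : ℝ := ∫ y in AA ι, wA y * ftr h y ^ 2

def PP2 (h : (ι → ℝ) → ℝ) : ℝ := ∫ y in AA ι, wA y * ftr (fun x => h x ^ 2) y

/-- the centre -/
def ctr (h : (ι → ℝ) → ℝ) : ℝ := (∫ y, h y) - PP h

/-- the noise -/
def Nz (h : (ι → ℝ) → ℝ) : ℝ := 2 * ∫ y, h y ^ 2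

variable (ι)

def LL : ℝ := ∫ y in AA ι, wA y

def lA : ℝ := (volume (AA ι)).toReal / 2

/-- the main term of the probability of the two holes -/
def DD : ℝ := Real.exp (-(lA ι + LL ι / 2))

variable {ι}

/-- a density with Gaussian moments bounded in terms of the mass `m` -/
structure End (ρ : (ι → ℝ) → ℝ≥0∞) (m : ℝ) : Prop where
  meas : Measurable ρ
  nonneg : 0 ≤ m
  e1 : ∀ s, 0 ≤ s → s < 1 → ∀ z, ∫⁻ y, ρ y * Gs s (y + z) ≤ ENNReal.ofReal (m * En (hd ι) s)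
  e2 : ∀ s, 0 ≤ s → ∀ z, ∫⁻ y, ρ y * Gs s (y + z) ≤
    ENNReal.ofReal (m * (sg (hd ι) * Real.exp (-(hd ι / 5)) * (4 / 5 + s) ^ (-hd ι)))

/-- the bounds on the intensity measure that the sieve needs -/
structure Good (Λ : Measure (ι → ℝ)) (ξ : ℝ) : Prop where
  nonneg : 0 ≤ ξ
  gauss : ∀ t, 0 < t → ∀ z, ∫⁻ y, Gs t (y + z) ∂Λ ≤ ENNReal.ofReal
    ((1 + ξ) * (th (hd ι) / t) ^ hd ι * (max 1 (3 * t / 4)) ^ (hd ι / 6))
  rad : ∀ s, 0 ≤ s → s < 1 → ∫⁻ y, iA y * Gs s y ∂Λ ≤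
    ENNReal.ofReal ((1 + ξ) * VV (hd ι) * FF (hd ι) s)
  lens : ∀ u ∈ AA ι, ∫⁻ y, iB y * iB (y + u) ∂Λ ≤
    ENNReal.ofReal ((1 + ξ) ^ 2 * VV (hd ι) * eL (hd ι) 1) * Gs (1 / 3) u
  lo : ENNReal.ofReal (1 - ξ) * volume (AA ι) ≤ Λ (AA ι)

variable {τ : Type} [Fintype τ]

/-- product measure on tuples -/
def pw (τ : Type) [Fintype τ] (Λ : Measure (ι → ℝ)) : Measure (Matrix τ ι ℝ) :=
  (Measure.pi fun _ : τ => Λ : Measure (τ → ι → ℝ))

/-- all rows in the annulus -/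
def IA (U : Matrix τ ι ℝ) : ℝ≥0∞ := ∏ i, iA (U i)

/-- sum of a function over the combinations of the rows with coefficients in `S` -/
def fs' (S : Set (τ → ℤ)) (f : (ι → ℝ) → ℝ≥0∞) (U : Matrix τ ι ℝ) : ℝ≥0∞ :=
  cs S fun κ => f (lv κ U)

/-- theta series of a frame -/
def vth (t : ℝ) (U : Matrix τ ι ℝ) : ℝ≥0∞ := ∑' κ : τ → ℤ, Gs t (lv κ U)

/-- the part of the sum inside the span of the frame -/
def Hs (S : Set (τ → ℤ)) (h : (ι → ℝ) → ℝ) (U : Matrix τ ι ℝ) : ℝ≥0∞ :=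
  fs' S (fun y => ENNReal.ofReal (h y)) U

/-- correlation at the shift `z` -/
def cor (Λ : Measure (ι → ℝ)) (h : (ι → ℝ) → ℝ) (z : ι → ℝ) : ℝ≥0∞ :=
  ∫⁻ w, ENNReal.ofReal (h w) * ENNReal.ofReal (h (w + z)) ∂Λ

/-- pairs that differ by a combination of the frame -/
def Esh (S : Set (τ → ℤ)) (Λ : Measure (ι → ℝ)) (h : (ι → ℝ) → ℝ) (U : Matrix τ ι ℝ) : ℝ≥0∞ :=
  2 * fs' S (cor Λ h) U

/-- residues as integers -/
def zr {q : ℕ} (κ : τ → Fin q) : τ → ℤ := fun i => ((κ i : ℕ) : ℤ)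

/-- one term of the dependent pairs -/
def Dterm (Λ : Measure (ι → ℝ)) (h : (ι → ℝ) → ℝ) (U : Matrix τ ι ℝ) (p : ℕ) (p' : ℤ) : ℝ≥0∞ :=
  ∑' κ : τ → Fin (p + 1), ∑' κ' : τ → ℤ, ∫⁻ w,
    ENNReal.ofReal (h (((p + 1 : ℕ) : ℝ) • w + lv (zr κ) U)) *
      ENNReal.ofReal (h ((p' : ℝ) • w + lv κ' U)) ∂Λ

/-- all dependent pairs -/
def Dfun (Λ : Measure (ι → ℝ)) (h : (ι → ℝ) → ℝ) (U : Matrix τ ι ℝ) : ℝ≥0∞ :=
  ∑' p : ℕ, ∑' p' : {p' : ℤ // p' ≠ 0}, Dterm Λ h U p p'.1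

/-- dependent pairs with a multiplier of size at least two -/
def Efr (Λ : Measure (ι → ℝ)) (h : (ι → ℝ) → ℝ) (U : Matrix τ ι ℝ) : ℝ≥0∞ :=
  ∑' x : {x : ℕ × ℤ // x.2 ≠ 0 ∧ ¬ (x.1 = 0 ∧ x.2.natAbs = 1)}, Dterm Λ h U x.1.1 x.1.2

/-- a tuple with one more row -/
def snc {R : Type} (U : Matrix τ ι R) (w : ι → R) : Matrix (τ ⊕ Unit) ι R :=
  Matrix.fromRows U (Matrix.of fun (_ : Unit) => w)

/-- a tuple with two more rows -/
def snc2 {R : Type} (U : Matrix τ ι R) (w w' : ι → R) : Matrix (τ ⊕ Fin 2) ι R :=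
  Matrix.fromRows U (Matrix.of ![w, w'])

/-- the frame is in the annulus, and so is a combination with last coefficient `q + 2` -/
def Fq (q : ℕ) (κ : τ → Fin (q + 2)) (U : Matrix (τ ⊕ Unit) ι ℝ) : ℝ≥0∞ :=
  IA U.toRows₁ * iA (((q + 2 : ℕ) : ℝ) • U (Sum.inr ()) + lv (zr κ) U.toRows₁)

variable [DecidableEq τ]

/-- a further combination lies in the annulus -/
def rel (U : Matrix τ ι ℝ) : Prop := ∃ κ ∈ NE τ, lv κ U ∈ AA ι

def Gam (U : Matrix τ ι ℝ) : ℝ≥0∞ :=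
  fs' {κ | κ ≠ 0} (fun w => ENNReal.ofReal (Ev (3 / 4) w)) U

def Gam2 (U : Matrix τ ι ℝ) : ℝ≥0∞ := fs' (CS τ) (fun w => ENNReal.ofReal (Ev (3 / 4) w)) U

def nice (U : Matrix τ ι ℝ) : Prop := Gam2 U ≤ ENNReal.ofReal (xi2 (hd ι))

def XG (U : Matrix τ ι ℝ) : ℝ≥0∞ :=
  fs' (CU τ 2) (fun w => ENNReal.ofReal (Gx w)) U +
    fs' (CS τ \ CU τ 2) (fun w => ENNReal.ofReal (Ev (3 / 4) w)) U +
    ENNReal.ofReal (2 * Fintype.card τ * om2 (hd ι))

/-- absolute sum of the Fourier transform over the further combinations -/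
def S2a (h : (ι → ℝ) → ℝ) (U : Matrix τ ι ℝ) : ℝ≥0∞ :=
  fs' (NE τ) (fun w => ENNReal.ofReal |ftr h w|) U

/-- the mean given the frame, signed basis vectors only -/
def s1 (h : (ι → ℝ) → ℝ) (m : ℝ) (U : Matrix τ ι ℝ) : ℝ := m + PP h + 2 * ∑ i, ftr h (U i)

def N1 (h : (ι → ℝ) → ℝ) (U : Matrix τ ι ℝ) : ℝ :=
  Nz h + 4 * ∑ i, ftr (fun x => h x ^ 2) (U i)

def Phi1 (h : (ι → ℝ) → ℝ) (m : ℝ) (U : Matrix τ ι ℝ) : ℝ :=
  Real.exp (-lA ι) * (∏ i, wA (U i)) * (s1 h m U ^ 2 + N1 h U)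

/-- bounds for the mean of `F`, plain and with one row weighted by a density -/
def Joint (F : Matrix τ ι ℝ → ℝ≥0∞) (bd : ℝ) : Prop :=
  0 ≤ bd ∧ ∫⁻ U, IA U * F U ≤ ENNReal.ofReal (VV (hd ι) ^ Fintype.card τ * bd) ∧
  ∀ (ρ : (ι → ℝ) → ℝ≥0∞) (m : ℝ), End ρ m → ∀ i : τ,
    ∫⁻ U : Matrix τ ι ℝ, (∏ j ∈ Finset.univ.erase i, iA (U j)) * ρ (U i) * F U ≤
      ENNReal.ofReal (VV (hd ι) ^ (Fintype.card τ - 1) * m * bd)

end

/-- closed form of the mean of the main term over frames of size `b` -/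
def Mb {ι : Type} [Fintype ι] (h : (ι → ℝ) → ℝ) (m : ℝ) (b : ℕ) : ℝ :=
  Real.exp (-lA ι) * (((m + PP h) ^ 2 + Nz h) * LL ι ^ b +
    4 * b * ((m + PP h) * PP h + QQ h + PP2 h) * LL ι ^ (b - 1) +
    4 * b * (b - 1) * PP h ^ 2 * LL ι ^ (b - 2))

/-! ### random lattices -/

section
variable {ι : Type} [Fintype ι] [DecidableEq ι] {Ω : Type} [MeasurableSpace Ω]

/-- a random lattice whose independent tuples of size less than `d` have product intensity -/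
structure RL (P : Measure Ω) (g : Ω → Matrix ι ι ℝ) (Λ : Measure (ι → ℝ)) (d : ℕ) : Prop where
  prob : IsProbabilityMeasure P
  meas : Measurable g
  det : ∀ᵐ ω ∂P, (g ω).det ≠ 0
  sf : SigmaFinite Λ
  rog : ∀ (τ : Type) [Fintype τ], Fintype.card τ < d → ∀ F : Matrix τ ι ℝ → ℝ≥0∞, Measurable F →
    ∫⁻ ω, ∑' Y : {Y : Matrix τ ι ℤ // Ind Y}, F (cz Y.1 * g ω) ∂P = ∫⁻ U, F U ∂pw τ Λ
  dil : ∀ q : ℕ, 1 ≤ q → ∀ f : (ι → ℝ) → ℝ≥0∞, Measurable f →
    ∫⁻ y, f ((q : ℝ) • y) ∂Λ ≤ ((q : ℝ≥0∞) ^ d)⁻¹ * ∫⁻ y, f y ∂Λ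

/-- mean of a sum over primitive frames against a weight -/
def TT (P : Measure Ω) (g : Ω → Matrix ι ι ℝ) (W : Ω → ℝ≥0∞) {τ : Type} [DecidableEq τ]
    (F : Matrix τ ι ℝ → ℝ≥0∞) : ℝ≥0∞ :=
  ∫⁻ ω, (∑' Y : {Y : Matrix τ ι ℤ // Prim Y}, F (cz Y.1 * g ω)) * W ω ∂P

/-- the same for the frames that witness a tuple that is not primitive -/
def TI (P : Measure Ω) (g : Ω → Matrix ι ι ℝ) (W : Ω → ℝ≥0∞) (τ : Type) [Fintype τ]
    [DecidableEq τ] : ℝ≥0∞ :=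
  ∑' q : ℕ, ∑' κ : τ → Fin (q + 2), TT P g W (Fq q κ)

/-- a family of conditions on tuples that passes to signed sub-tuples -/
structure Her (ok : ∀ a : ℕ, Matrix (Fin a) ι ℝ → Prop) : Prop where
  zero : ∀ U, ok 0 U
  sub : ∀ (a b : ℕ) (f : Fin b → Fin a) (ε : Fin b → ℤˣ) (U : Matrix (Fin a) ι ℝ),
    Function.Injective f → ok a U → ok b (Matrix.of fun i => (((ε i : ℤˣ) : ℤ) : ℝ) • U (f i))
  meas : ∀ a, MeasurableSet {U | ok a U}

/-- the frames kept by the sieve -/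
def goodF (ok : ∀ a : ℕ, Matrix (Fin a) ι ℝ → Prop) (a : ℕ) (U : Matrix (Fin a) ι ℝ) : ℝ≥0∞ :=
  IA U * ind (ok a U)

/-- the frames that carry the error of the sieve -/
def badF (ok : ∀ a : ℕ, Matrix (Fin a) ι ℝ → Prop) (K a : ℕ) (U : Matrix (Fin a) ι ℝ) : ℝ≥0∞ :=
  IA U * ind (a = K ∨ rel U ∨ ¬ ok a U)

end

section
variable {α β ι : Type} [Fintype α] [DecidableEq α] [Fintype β] [DecidableEq β] [Fintype ι]
  [DecidableEq ι] (e : α ⊕ β ≃ ι)

/-- the measure carried by the integer layers of a frame -/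
def Lam (X : Matrix α ι ℝ) : Measure (ι → ℝ) :=
  Measure.sum fun m : α → ℤ => Measure.map (layer e X (cv m)) volume

/-- the parameters of a lattice that contains the frame -/
def PX (α β : Type) [Fintype α] [Fintype β] [DecidableEq β] :
    Measure (Matrix β β ℝ × Matrix β α ℝ) := (mu β).prod (volume.restrict (cube β α))

/-- the dual of that lattice -/
def gX (X : Matrix α ι ℝ) (ω : Matrix β β ℝ × Matrix β α ℝ) : Matrix ι ι ℝ :=
  dual (lift e X ω.2 ω.1)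

end

end Pool.Agent.Eps.P
end
end

-- part Pool.Agent.Lib.MP_3bda03_nt.P.Lists
section

/-!
The error terms as lists of monomials `A lb ^ p sg ^ q exp (ga + al lb - be v)`.
-/

set_option autoImplicit false

namespace Pool.Agent.Eps.P

structure Mono where
  A : ℚ
  p : ℤ
  q : ℕ
  ga : ℚ
  al : ℚ
  be : ℚ

def Mono.mul (a b : Mono) : Mono :=
  ⟨a.A * b.A, a.p + b.p, a.q + b.q, a.ga + b.ga, a.al + b.al, a.be + b.be⟩

/-- a constant -/
def cM (A : ℚ) : Mono := ⟨A, 0, 0, 0, 0, 0⟩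

/-- a term for frames of size `a` on the side of the test vectors -/
structure At where
  m : Mono
  j : ℕ
  y : ℕ
  q : ℕ

/-- a term after the sum over the size of these frames -/
structure Tm where
  m : Mono
  q : ℕ
  a : ℕ

/-- a term for frames of size `b` on the dual side -/
structure Dt where
  m : Mono
  j : ℕ
  y : ℕ
  c : ℚ

noncomputable section

def Mono.ev (v : ℝ) (m : Mono) : ℝ :=
  ((|m.A| : ℚ) : ℝ) * lb v ^ m.p * sg v ^ m.q *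
    Real.exp ((m.ga : ℝ) + (m.al : ℝ) * lb v - (m.be : ℝ) * v)

def At.ev (v ξ : ℝ) (a : ℕ) (t : At) : ℝ := t.m.ev v * ff t.j a * (t.y : ℝ) ^ a * (1 + ξ) ^ t.q

def Tm.ev (v ξ : ℝ) (t : Tm) : ℝ := t.m.ev v * Real.exp (((t.q : ℝ) + (t.a : ℝ) * lb v) * ξ)

def Dt.ev (v : ℝ) (b : ℕ) (t : Dt) : ℝ :=
  t.m.ev v * ff t.j b * ((t.y : ℝ) * (1 + ((|t.c| : ℚ) : ℝ) / lb v)) ^ b

def evL (v : ℝ) (L : List Mono) : ℝ := (L.map (Mono.ev v)).sum

def evA (v ξ : ℝ) (a : ℕ) (L : List At) : ℝ := (L.map (At.ev v ξ a)).sum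

def evT (v ξ : ℝ) (L : List Tm) : ℝ := (L.map (Tm.ev v ξ)).sum

def evD (v : ℝ) (b : ℕ) (L : List Dt) : ℝ := (L.map (Dt.ev v b)).sum

end

def At.toT (t : At) : Tm := ⟨t.m.mul ⟨(t.y : ℚ) ^ t.j, t.j, 0, 0, t.y, 0⟩, t.j + t.q, t.y⟩

def toT (L : List At) : List Tm := L.map At.toT

/-- multiply by a monomial and by `q` more factors `exp ξ` -/
def scT (c : Mono) (q : ℕ) (L : List Tm) : List Tm := L.map fun t => ⟨c.mul t.m, t.q + q, t.a⟩

/-- multiply by a monomial and set the tilt -/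
def scD (c : Mono) (u : ℚ) (L : List Dt) : List Dt := L.map fun t => ⟨c.mul t.m, t.j, t.y, u⟩

def scL (c : Mono) (L : List Mono) : List Mono := L.map fun m => c.mul m

/-! ### frames on the side of the test vectors -/

def LPS : List At :=
  [⟨⟨1.5, 0, 0, 0, 0, 0.2876⟩, 2, 1, 1⟩, ⟨⟨0.867, 0, 2, 0, 0, 0.5112⟩, 3, 1, 0⟩,
   ⟨⟨0.5, 0, 4, 0, 0, 0.6693⟩, 0, 3, 0⟩, ⟨⟨1, 0, 1, 0, 0, 1.155⟩, 0, 5, 0⟩,
   ⟨⟨5, 0, 0, 0, 0, 0.5364⟩, 0, 5, 0⟩]

def LRH : List At :=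
  [⟨⟨0.264, 0, 2, 0, 0, 0.4296⟩, 3, 1, 0⟩, ⟨⟨0.1596, 0, 4, 0, 0, 0.5869⟩, 0, 3, 0⟩,
   ⟨⟨0.587, 0, 0, 0, 0, 0.787⟩, 0, 5, 0⟩]

def mC2 : Mono := ⟨0.1413, 0, 1, 0, 0, 0.2402⟩

def mT : Mono := ⟨0.554, 1, 0, 0, 0, 0.1412⟩

def mSup : Mono := ⟨0.0541, 0, 2, 0, 0, 0.1044⟩

/-- bound for the inverse of the unit -/
def mIv : Mono := ⟨0.4361, 0, 0, 0, 0, -0.7359⟩

def c22 : List (ℚ × ℕ) := [(1, 4), (4, 3), (2, 2)]

def c33 : List (ℚ × ℕ) := [(1, 6), (9, 5), (18, 4), (6, 3)]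

def c44 : List (ℚ × ℕ) := [(1, 8), (16, 7), (72, 6), (96, 5), (24, 4)]

def c222 : List (ℚ × ℕ) := [(1, 6), (12, 5), (38, 4), (32, 3), (4, 2)]

def polA (m : Mono) (c : List (ℚ × ℕ)) : List At := c.map fun x => ⟨(cM x.1).mul m, x.2, 1, 0⟩

def polD (m : Mono) (c : List (ℚ × ℕ)) : List Dt := c.map fun x => ⟨(cM x.1).mul m, x.2, 1, 0⟩

def LSS : List At :=
  polA ⟨3.75, -1, 0, 0, 0, 0.2876⟩ c22 ++ polA ⟨23.2, -1, 1, 0, 0, 0.5112⟩ c33 ++
    polA ⟨4.45, -1, 3, 0, 0, 0.6693⟩ c44 ++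
    [⟨⟨8.9, 0, 4, 0, 0, 0.7075⟩, 0, 7, 0⟩, ⟨⟨15.6, 0, 0, 0, 0, 0.576⟩, 0, 5, 0⟩]

def LE : List At :=
  [⟨⟨0.698, 0, 1, 0, 0, 0.2917⟩, 2, 1, 1⟩, ⟨⟨0.338, 0, 2, 0, 0, 0.4206⟩, 3, 1, 1⟩,
   ⟨⟨0.184, 0, 4, 0, 0, 0.5335⟩, 0, 3, 1⟩, ⟨⟨0.776, 0, 0, 0, 0, 0.6504⟩, 0, 5, 1⟩]

def Lfr : List At := [⟨⟨187, 0, 0, 0, 0, 0.4984⟩, 0, 1, 1⟩]

def TR : List Tm := [⟨⟨1, 0, 0, 0, 5, 0.5364⟩, 0, 5⟩]

def E1 : List Tm := [⟨⟨1.0001, 0, 0, 0, -1, 0⟩, 0, 1⟩, ⟨⟨25, 0, 0, 0, 5, 0.5364⟩, 0, 5⟩]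

def RC : List Tm := scT (mC2.mul ⟨4, 2, 0, 0, 0, 0⟩) 2 E1 ++ scT (cM 2) 0 (toT LRH)

def I0 : List Tm := [⟨⟨8, 0, 0, 0, 2, 1.155⟩, 0, 2⟩]

def I1 : List Tm := [⟨⟨16, 1, 0, 0, 2, 1.155⟩, 1, 2⟩]

def L1 : List Tm :=
  scT (cM 2) 0 (toT LPS) ++ TR ++ scT (cM 0.1) 0 RC ++ scT (cM 6) 0 I0 ++ scT (cM 6) 0 I1

def L2 : List Tm := toT LPS ++ TR ++ scT (cM 2) 0 I0 ++ scT (cM 2) 0 I1

def L3 : List Tm :=
  scT (mT.mul (cM 2)) 2 E1 ++ scT (cM 2.5) 0 RC ++ scT (cM 3.01) 0 (toT LSS) ++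
    scT (cM 2.01) 0 (toT (LE ++ Lfr)) ++ scT mSup 1 (toT LPS) ++ scT (mIv.mul (cM 26)) 2 I0 ++
    scT (mIv.mul (cM 40)) 2 I1 ++ [⟨⟨2010, 1, 0, 0, 6, 0.746⟩, 2, 6⟩]

/-! ### frames on the dual side -/

def G2 : Dt := ⟨⟨1.2, 0, 0, 0, 0, 0.1862⟩, 2, 1, 0⟩

def G3 : Dt := ⟨⟨0.667, 0, 0, 0, 0, 0.2667⟩, 3, 1, 0⟩

def G4 : Dt := ⟨⟨0.287, 0, 0, 0, 0, 0.3407⟩, 4, 1, 0⟩

def G5 : Dt := ⟨⟨0.38, 0, 0, 0, 0, 0.4093⟩, 0, 3, 0⟩

def GM : Dt := ⟨⟨0.41, 0, 0, 0, 0, 0.4394⟩, 0, 5, 0⟩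

def GN : Dt := ⟨⟨11.3, 0, 1, 0, 0, 0.7244⟩, 0, 7, 0⟩

def GX : Dt := ⟨⟨1.42, 0, 0, 0, 0, 0.2439⟩, 2, 1, 0⟩

def GO : Dt := ⟨⟨0.52, 0, 0, 0, 0, 0.3132⟩, 1, 1, 0⟩

def GAM : List Dt := [G2, G3, G4, G5, GM, GN]

def XGL : List Dt := [GX, G3, G4, G5, GM, GN, GO]

def REL : List Dt :=
  [⟨⟨1.5, 0, 0, 0, 0, 0.2787⟩, 2, 1, 0⟩, ⟨⟨1.642, 0, 0, 0, 0, 0.4375⟩, 0, 3, 0⟩,
   ⟨⟨1, 0, 1, 0, 0, 0.5862⟩, 0, 5, 0⟩]

def SZ : List Dt := [⟨⟨6, 0, 0, 0, 0, 0.5972⟩, 0, 6, 0⟩]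

def FAIL : List Dt :=
  polD ⟨131.3, 3, 0, 0, 0, 0.5011⟩ c222 ++ polD ⟨76.9, 2, 0, 0, 0, 0.4859⟩ c33 ++
    scD ⟨8.89, 1, 0, 0, 0, 0⟩ 0 [G4, G5, GM, GN]

def IMP : List Dt := [⟨⟨2, 0, 0, 0, 0, 1.155⟩, 0, 2, 0⟩]

def S2L : List Dt :=
  polD ⟨2.2, -1, 0, 0, 0, 0.28⟩ c22 ++ polD ⟨46.7, -1, 0, 0, 0, 0.5145⟩ c33 ++
    [⟨⟨32.3, 0, 0, 0, 0, 0.5536⟩, 0, 6, 0⟩, ⟨⟨25.6, 0, 0, 0, 0, 0.807⟩, 0, 5, 0⟩]

def CA : List Dt :=
  [⟨⟨11.2, -1, 0, 0, 0, 0.2294⟩, 2, 1, 0⟩, ⟨⟨8.9, -1, 0, 0, 0, 0.2572⟩, 3, 1, 0⟩,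
   ⟨⟨7, 0, 0, 0, 0, 0.3444⟩, 0, 3, 0⟩, ⟨⟨0.39, 0, 0, 0, 0, 0.6504⟩, 0, 5, 0⟩]

def CB : List Dt :=
  [⟨⟨0.202, 0, 0, 0, 0, 0.2294⟩, 2, 1, 0⟩, ⟨⟨0.161, 0, 0, 0, 0, 0.2572⟩, 3, 1, 0⟩,
   ⟨⟨0.142, 0, 0, 0, 0, 0.3444⟩, 0, 3, 0⟩, ⟨⟨2, 0, 0, 0, 0, 0.6931⟩, 0, 5, 0⟩]

def tilt (q a : ℕ) : ℚ := (0.0369 * q + 0.0422 * a) / (1 - (0.0328 * q + 0.0369 * a) / 2)

def Tm.lift (t : Tm) : List Dt :=
  ⟨t.m, 0, 1, tilt t.q t.a⟩ ::
    scD (t.m.mul ⟨2.073, 1, 0, 0.4825 * (t.q / 1.125 + t.a), 0, 0⟩) (tilt t.q t.a) GAM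

def liftT (L : List Tm) : List Dt := L.flatMap Tm.lift

/-- the terms at the largest admissible level, without the tilt -/
def L1u : List Mono := L1.map fun t => t.m.mul ⟨1, 0, 0, 0.4825 * (t.q / 1.125 + t.a), 0, 0⟩

def mE : Mono := ⟨1.0001, 0, 0, 0, -1, 0⟩

def BAD : List Dt := REL ++ SZ ++ FAIL

/-- errors of the dual sieve: coefficients of `Yb`, of the noise and of the unit -/
def ZY : List Dt := scD (cM 1) 0 BAD ++ [⟨⟨4700, 1, 0, 0, 0, 1.1157⟩, 0, 2, 0⟩]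

def ZN : List Dt := scD (cM 1.0001) 0.038 BAD ++ scD (cM 1.0001) 0 XGL

def ZP : List Dt :=
  scD (cM 7.67) 0 S2L ++
    [⟨mIv.mul ⟨10400, 1, 0, 0, 0, 1.155⟩, 0, 2, 0⟩, ⟨⟨28200, 1, 0, 0, 0, 0.746⟩, 0, 6, 0⟩]

/-- errors of the conditional moments -/
def AY : List Dt := liftT L1

def AN : List Dt := liftT (scT (cM 1) 1 L2)

def AP : List Dt := liftT L3 ++ scD (cM 0.00767) (tilt 3 5) S2L

/-- errors of the passage to the product form -/
def BY : List Dt := scD (mE.mul ⟨1, 1, 0, 0.4826, 0, 0⟩) 0.0125 XGL ++ scD mE 0.0125 CB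

def BN : List Dt := scD (mE.mul ⟨1.43, 1, 0, 0.4826, 0, 0⟩) 0.052 XGL ++ scD mE 0.0125 XGL

def BP : List Dt := scD (mE.mul (cM 7)) 0.0125 S2L ++ scD mE 0.0125 CA

/-- errors of the completion of the sum -/
def CY : List Dt := scD mE 0.0125 (FAIL ++ IMP)

def CNz : List Dt := scD mE 0.052 (FAIL ++ IMP)

def TY : List Dt := scD mE 0.0125 SZ

def TN : List Dt := scD mE 0.052 SZ

def LY : List Dt := ZY ++ AY ++ BY ++ CY ++ TY

def LN : List Dt := ZN ++ AN ++ BN ++ CNz ++ TN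

def LP : List Dt := ZP ++ AP ++ BP

def Dt.yb (t : Dt) : ℚ := t.y * (1 + |t.c| / 1.125)

def Dt.s0 (t : Dt) : Mono := t.m.mul ⟨t.yb ^ t.j, t.j, 0, t.y * |t.c|, t.y, 0⟩

def Dt.sW (t : Dt) : List Mono :=
  [t.s0.mul ⟨2 * (1.0112 + t.yb) ^ 2, 1, 0, 0, 0, 0⟩,
   t.s0.mul (cM (4 * t.j * (1.0112 + t.yb) + 2 * t.yb)),
   t.s0.mul ⟨2 * t.j ^ 2, -1, 0, 0, 0, 0⟩]

def s0L (L : List Dt) : List Mono := L.map Dt.s0

def sWL (L : List Dt) : List Mono := L.flatMap Dt.sW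

def amp : Mono := ⟨1, 0, 0, 0.0125, 2, 0⟩

def mUnit : Mono := ⟨1.376, 1, 0, 0, 0, 0.1305⟩

def etaL : List Mono := scL (amp.mul (cM 6.9)) (s0L LY)

def etaNL : List Mono := scL amp (s0L LN) ++ [mUnit]

def epsL : List Mono := scL (amp.mul (cM 1.38)) (sWL LY) ++ scL amp (s0L LP)

def shortL : List Mono := [amp.mul ⟨4, 1, 0, 0, 0, 0.2231⟩]

end Pool.Agent.Eps.P
end

-- part Pool.Agent.Lib.MP_3bda03_nt.P.Stir
section

/-!
Stirling bounds for real arguments.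
-/

set_option autoImplicit false

noncomputable section

open MeasureTheory Matrix
open scoped ENNReal

namespace Pool.Agent.Eps.P

open Pool.Agent.Eps.H

/-- the logarithmic Stirling error -/
def stirF (x : ℝ) : ℝ :=
  Real.log (Real.Gamma (x + 1)) + x - x * Real.log x - Real.log (2 * Real.pi * x) / 2

theorem stir_sg {x : ℝ} (hx : 0 < x) :
    sg x = Real.sqrt (2 * Real.pi * x) * Real.exp (stirF x) := by
  have h1 : 0 < Real.Gamma (x + 1) := Real.Gamma_pos_of_pos (by linarith)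
  have h2 : 0 < 2 * Real.pi * x := by positivity
  rw [stirF, Real.exp_sub, Real.exp_sub, Real.exp_add, Real.exp_log h1, sg,
    Real.rpow_def_of_pos hx, Real.sqrt_eq_rpow, Real.rpow_def_of_pos h2, mul_comm x (Real.log x),
    mul_one_div]
  field_simp

theorem stir_diff {x : ℝ} (hx : 0 < x) :
    stirF x - stirF (x + 1) = (x + 1 / 2) * Real.log (1 + x⁻¹) - 1 := by
  have h1 : 0 < Real.Gamma (x + 1) := Real.Gamma_pos_of_pos (by linarith)
  have h3 : 0 < x + 1 := by linarith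
  have e : 1 + x⁻¹ = (x + 1) / x := by field_simp
  rw [stirF, stirF, Real.Gamma_add_one h3.ne', Real.log_mul h3.ne' h1.ne', e,
    Real.log_div h3.ne' hx.ne', Real.log_mul (by positivity) hx.ne',
    Real.log_mul (by positivity) h3.ne']
  ring

theorem stir_step {x : ℝ} (hx : 0 < x) :
    0 ≤ stirF x - stirF (x + 1) ∧ stirF x - stirF (x + 1) ≤ 1 / (12 * x) - 1 / (12 * (x + 1)) := by
  rw [stir_diff hx]
  set u : ℝ := 1 / (2 * x + 1) with hu
  have hu0 : 0 < u := by positivity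
  have hu1 : u ^ 2 < 1 := by
    have : u < 1 := by rw [hu, div_lt_one (by linarith)]; linarith
    nlinarith
  have h1 := (Real.hasSum_log_one_add_inv hx).mul_left (x + 1 / 2)
  have h2 : HasSum (fun k : ℕ => (1 / (2 * (k : ℝ) + 1)) * (u ^ 2) ^ k)
      ((x + 1 / 2) * Real.log (1 + x⁻¹)) := by
    have e : (fun k : ℕ => (1 / (2 * (k : ℝ) + 1)) * (u ^ 2) ^ k) = fun i : ℕ =>
        (x + 1 / 2) * (2 * (1 / (2 * (i : ℝ) + 1)) * (1 / (2 * x + 1)) ^ (2 * i + 1)) := by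
      funext k
      rw [← hu, pow_succ u (2 * k), pow_mul]
      have : (x + 1 / 2) * 2 * u = 1 := by rw [hu]; field_simp
      linear_combination (-(1 / (2 * (k : ℝ) + 1)) * (u ^ 2) ^ k) * this
    rw [e]
    exact h1
  have h3 := (hasSum_nat_add_iff' 1).2 h2
  simp only [Finset.range_one, Finset.sum_singleton, Nat.cast_zero, mul_zero, zero_add, div_one,
    pow_zero, mul_one] at h3
  have h4 := (hasSum_geometric_of_lt_one (sq_nonneg u) hu1).mul_left (u ^ 2 / 3)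
  refine ⟨h3.nonneg fun k => by positivity, (hasSum_le (fun k => ?_) h3 h4).trans (le_of_eq ?_)⟩
  · have : (1 : ℝ) / (2 * ((k + 1 : ℕ) : ℝ) + 1) ≤ 1 / 3 :=
      one_div_le_one_div_of_le (by norm_num) (by
        push_cast; linarith [(Nat.cast_nonneg k : (0 : ℝ) ≤ k)])
    calc _ ≤ 1 / 3 * (u ^ 2) ^ (k + 1) := by gcongr
      _ = _ := by ring
  · have h5 : 1 - u ^ 2 = 4 * x * (x + 1) / (2 * x + 1) ^ 2 := by rw [hu]; field_simp; ring
    rw [h5, hu]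
    field_simp
    ring

theorem stir_logGamma {x : ℝ} (hx : 0 < x) (n : ℕ) : Real.log (Real.Gamma (x + n + 1)) =
    Real.log (Real.Gamma x) + ∑ m ∈ Finset.range (n + 1), Real.log (x + m) := by
  induction n with
  | zero =>
    simp [Real.Gamma_add_one hx.ne', Real.log_mul hx.ne' (Real.Gamma_pos_of_pos hx).ne', add_comm]
  | succ n ih =>
    have h : 0 < x + n + 1 := by positivity
    rw [Finset.sum_range_succ, ← add_assoc, ← ih]
    push_cast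
    rw [← add_assoc, Real.Gamma_add_one h.ne',
      Real.log_mul h.ne' (Real.Gamma_pos_of_pos h).ne', add_comm]

open Filter Topology in
theorem stir_lim {x : ℝ} (hx : 0 < x) : Tendsto (fun n : ℕ => stirF (x + n)) atTop (𝓝 0) := by
  have h1 := Real.BohrMollerup.tendsto_log_gamma hx
  have h2 := Stirling.tendsto_stirlingSeq_sqrt_pi.log (by positivity)
  have h3 : Tendsto (fun n : ℕ => (n : ℝ) * Real.log (1 + x / n)) atTop (𝓝 x) :=
    (Real.tendsto_mul_log_one_add_div_atTop x).comp tendsto_natCast_atTop_atTop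
  have h4 : Tendsto (fun n : ℕ => Real.log (1 + x / n)) atTop (𝓝 (Real.log (1 + 0))) :=
    ((tendsto_const_div_atTop_nhds_zero_nat x).const_add 1).log (by norm_num)
  have h5 := ((((h1.const_sub (Real.log (Real.Gamma x))).add h2).sub_const
    (Real.log (Real.sqrt Real.pi))).add_const x).sub (h3.add (h4.const_mul (x + 1 / 2)))
  simp only [add_zero, Real.log_one, mul_zero, sub_self, zero_add] at h5
  refine h5.congr' ?_
  filter_upwards [eventually_gt_atTop 0] with n hn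
  have hn' : (0 : ℝ) < n := Nat.cast_pos.2 hn
  have e : 1 + x / n = (x + n) / n := by field_simp; ring
  have hxn : 0 < x + n := by positivity
  rw [stirF, stir_logGamma hx, Real.BohrMollerup.logGammaSeq, Stirling.log_stirlingSeq_formula, e,
    Real.log_div hxn.ne' hn'.ne', Real.log_sqrt Real.pi_pos.le,
    Real.log_div hn'.ne' (Real.exp_pos 1).ne', Real.log_exp,
    Real.log_mul (by positivity) hxn.ne', Real.log_mul two_ne_zero hn'.ne',
    Real.log_mul two_ne_zero Real.pi_pos.ne']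
  ring

theorem stir_bounds {x : ℝ} (hx : 0 < x) : 0 ≤ stirF x ∧ stirF x ≤ 1 / (12 * x) := by
  have key : ∀ n : ℕ, stirF (x + n) ≤ stirF x ∧
      stirF x - 1 / (12 * x) ≤ stirF (x + n) - 1 / (12 * (x + n)) := by
    intro n
    induction n with
    | zero => simp
    | succ n ih =>
      have h := stir_step (x := x + n) (by positivity)
      push_cast
      rw [← add_assoc]
      constructor <;> linarith [h.1, h.2, ih.1, ih.2]
  refine ⟨le_of_tendsto' (stir_lim hx) fun n => (key n).1, ?_⟩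
  have : stirF x - 1 / (12 * x) ≤ 0 := ge_of_tendsto' (stir_lim hx) fun n => by
    have : (0 : ℝ) ≤ 1 / (12 * (x + n)) := by positivity
    linarith [(key n).2]
  linarith

theorem sg_lower {x : ℝ} (hx : 0 < x) : Real.sqrt (2 * Real.pi * x) ≤ sg x := by
  rw [stir_sg hx]
  exact le_mul_of_one_le_right (Real.sqrt_nonneg _) (Real.one_le_exp (stir_bounds hx).1)

theorem sg_upper {x : ℝ} (hx : 0 < x) :
    sg x ≤ Real.sqrt (2 * Real.pi * x) * Real.exp (1 / (12 * x)) := by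
  rw [stir_sg hx]
  gcongr
  exact (stir_bounds hx).2

theorem stir_gamma {x : ℝ} (hx : 0 < x) :
    Real.Gamma x = sg x * x ^ x / (x * Real.exp x) := by
  have : 0 < x ^ x := Real.rpow_pos_of_pos hx x
  rw [sg, Real.Gamma_add_one hx.ne']
  field_simp

theorem gamma_ratio {v : ℝ} (hv : 97 / 2 ≤ v) :
    Real.Gamma (0.55 * v) / Real.Gamma v ≤
      1.36 * (0.55 : ℝ) ^ (0.55 * v) * v ^ (-(0.45 * v)) * Real.exp (0.45 * v) := by
  have h0 : 0 < v := by linarith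
  have h1 : 0 < 0.55 * v := by linarith
  have hs : 0 < Real.sqrt (2 * Real.pi * v) := Real.sqrt_pos.2 (by positivity)
  have hsg : 0 < sg v := hs.trans_le (sg_lower h0)
  have he : Real.exp (1 / (12 * (0.55 * v))) ≤ 1.0032 := by
    have a1 : 1 / (12 * (0.55 * v)) ≤ 0.00315 := by
      rw [div_le_iff₀ (by positivity)]; linarith
    have a2 : Real.exp 0.00315 ≤ 1.0032 := by
      have := Real.add_one_le_exp (-0.00315)
      have e : Real.exp 0.00315 * Real.exp (-0.00315) = 1 := by rw [← Real.exp_add]; simp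
      nlinarith [Real.exp_pos 0.00315]
    exact (Real.exp_le_exp.2 a1).trans a2
  have hq : Real.sqrt (2 * Real.pi * (0.55 * v)) ≤ 0.7417 * Real.sqrt (2 * Real.pi * v) := by
    rw [show 2 * Real.pi * (0.55 * v) = 0.55 * (2 * Real.pi * v) by ring,
      Real.sqrt_mul (by norm_num)]
    gcongr
    exact Real.sqrt_le_iff.2 ⟨by norm_num, by norm_num⟩
  have hr : sg (0.55 * v) ≤ 1.36 * 0.55 * sg v := by
    calc sg (0.55 * v) ≤ _ := sg_upper h1
      _ ≤ 0.7417 * Real.sqrt (2 * Real.pi * v) * 1.0032 := by gcongr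
      _ ≤ 1.36 * 0.55 * Real.sqrt (2 * Real.pi * v) := by nlinarith
      _ ≤ _ := by gcongr; exact sg_lower h0
  have e1 : (0.55 * v) ^ (0.55 * v) = (0.55 : ℝ) ^ (0.55 * v) * v ^ (-(0.45 * v)) * v ^ v := by
    rw [Real.mul_rpow (by norm_num) h0.le, mul_assoc, ← Real.rpow_add h0]
    congr 2; ring
  have e2 : Real.exp v = Real.exp (0.45 * v) * Real.exp (0.55 * v) := by
    rw [← Real.exp_add]; congr 1; ring
  have p1 : 0 < (0.55 : ℝ) ^ (0.55 * v) := by positivity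
  have p2 : 0 < v ^ (-(0.45 * v)) := Real.rpow_pos_of_pos h0 _
  have p3 : 0 < v ^ v := Real.rpow_pos_of_pos h0 _
  have e3 : Real.Gamma (0.55 * v) / Real.Gamma v = sg (0.55 * v) / (0.55 * sg v) *
      (0.55 : ℝ) ^ (0.55 * v) * v ^ (-(0.45 * v)) * Real.exp (0.45 * v) := by
    rw [stir_gamma h1, stir_gamma h0, e1, e2]
    field_simp
  rw [e3]
  gcongr
  rw [div_le_iff₀ (by positivity)]
  linarith

end Pool.Agent.Eps.P
end
end

-- part Pool.Agent.Lib.MP_3bda03_nt.P.Basic1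
section

/-!
Numerical facts about the parameters.
-/

set_option autoImplicit false

noncomputable section

open MeasureTheory Matrix
open scoped ENNReal

namespace Pool.Agent.Eps.P

open Pool.Agent.Eps.H

variable {v : ℝ}

theorem lb_ge (hv : 97 / 2 ≤ v) : 9 / 8 ≤ lb v := by
  refine le_trans ?_ (le_max_left _ _)
  linarith

theorem lb_le (hv : 97 / 2 ≤ v) : lb v ≤ 3 * v / 50 := by
  refine max_le ?_ ?_ <;> linarith

theorem sg_ge (hv : 97 / 2 ≤ v) : 17.45 ≤ sg v := by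
  refine le_trans (Real.le_sqrt_of_sq_le ?_) (sg_lower (by linarith))
  nlinarith [Real.pi_gt_d2]

theorem sg_sq_le (hv : 97 / 2 ≤ v) : sg v ^ 2 ≤ 6.31 * v := by
  have h0 : 0 < v := by linarith
  have h1 : Real.exp (1 / (12 * v)) ^ 2 ≤ 1.004 := by
    have h2 : 1 / (12 * v) ≤ 1 / 582 := one_div_le_one_div_of_le (by norm_num) (by linarith)
    have h3 := Real.exp_bound_div_one_sub_of_interval (x := 1 / 582) (by norm_num) (by norm_num)
    calc _ ≤ (1 / (1 - 1 / 582)) ^ 2 :=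
          pow_le_pow_left₀ (Real.exp_pos _).le ((Real.exp_le_exp.2 h2).trans h3) 2
      _ ≤ _ := by norm_num
  calc _ ≤ (Real.sqrt (2 * Real.pi * v) * Real.exp (1 / (12 * v))) ^ 2 :=
        pow_le_pow_left₀ (le_trans (by norm_num) (sg_ge hv)) (sg_upper h0) 2
    _ = 2 * Real.pi * v * Real.exp (1 / (12 * v)) ^ 2 := by
        rw [mul_pow, Real.sq_sqrt (by positivity)]
    _ ≤ 2 * 3.1416 * v * 1.004 := by
        gcongr
        exact Real.pi_lt_d4.le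
    _ ≤ _ := by linarith

theorem third_le (hv : 97 / 2 ≤ v) : v / 3 ≤ 0.0531 * sg v ^ 2 := by
  have h0 : 0 < v := by linarith
  have h1 := pow_le_pow_left₀ (Real.sqrt_nonneg _) (sg_lower h0) 2
  rw [Real.sq_sqrt (by positivity)] at h1
  nlinarith [Real.pi_gt_d2]

theorem basic1_V (hv : 97 / 2 ≤ v) : 0 < VV v := by
  have := lb_ge hv
  unfold VV
  linarith

theorem basic1_W (hv : 97 / 2 ≤ v) : 39.2625 ≤ sg v * VV v := by
  have h1 := lb_ge hv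
  have h2 := sg_ge hv
  unfold VV
  nlinarith

theorem basic1_u (hv : 97 / 2 ≤ v) : 0 < 1 / v ∧ 1 / v ≤ 2 / 97 :=
  ⟨one_div_pos.2 (by linarith), (one_div_le_one_div_of_le (by norm_num) hv).trans (by norm_num)⟩

theorem rr_pos (hv : 97 / 2 ≤ v) : 0 < rr v := by
  have := basic1_V hv
  have := Real.Gamma_pos_of_pos (show 0 < v + 1 by linarith)
  unfold rr
  positivity

theorem rr_pow (hv : 97 / 2 ≤ v) : (Real.pi * rr v) ^ v / Real.Gamma (v + 1) = VV v := by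
  have := basic1_V hv
  have := Real.Gamma_pos_of_pos (show 0 < v + 1 by linarith)
  rw [rr, mul_div_cancel₀ _ Real.pi_ne_zero, one_div,
    Real.rpow_inv_rpow (by positivity) (by linarith), mul_div_cancel_right₀ _ this.ne']

theorem th_pow (hv : 97 / 2 ≤ v) : th v ^ v = sg v * VV v * Real.exp (-v) := by
  have h0 : 0 < v := by linarith
  have h1 := rr_pos hv
  have h2 := Real.Gamma_pos_of_pos (show 0 < v + 1 by linarith)
  rw [th, Real.div_rpow (by positivity) h0.le, ← rr_pow hv, sg, Real.exp_neg]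
  field_simp

theorem basic1_pos (hv : 97 / 2 ≤ v) : 0 < th v :=
  div_pos (mul_pos Real.pi_pos (rr_pos hv)) (by linarith)

theorem basic1_th (hv : 97 / 2 ≤ v) : th v = Real.exp (Real.log (sg v * VV v) / v - 1) := by
  have h0 : 0 < v := by linarith
  have h1 := congrArg Real.log (th_pow hv)
  rw [Real.log_rpow (basic1_pos hv), Real.log_mul (by linarith [basic1_W hv]) (Real.exp_pos _).ne',
    Real.log_exp] at h1
  rw [← Real.exp_log (basic1_pos hv)]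
  congr 1
  field_simp
  linarith

theorem tC_le (hv : 97 / 2 ≤ v) : tC v ≤ th v := by
  have h0 : 0 < v := by linarith
  have h1 : 3.67 ≤ Real.log (sg v * VV v) := by
    refine (Real.le_log_iff_exp_le (by linarith [basic1_W hv])).2 (le_trans ?_ (basic1_W hv))
    have h2 := Real.sum_le_exp_of_nonneg (x := 0.33) (by norm_num) 5
    have h3 : Real.exp 3.67 * Real.exp 0.33 = Real.exp 1 ^ 4 := by
      rw [← Real.exp_add, ← Real.exp_nat_mul]
      norm_num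
    have h4 := pow_le_pow_left₀ (Real.exp_pos 1).le Real.exp_one_lt_d9.le 4
    simp only [Finset.sum_range_succ, Finset.sum_range_zero, Nat.factorial] at h2
    nlinarith [Real.exp_pos 3.67]
  have h2 := Real.add_one_le_exp (Real.log (sg v * VV v) / v)
  have h3 : 3.67 / v ≤ Real.log (sg v * VV v) / v := by gcongr
  have h4 : 0 < 1 / v := by positivity
  rw [basic1_th hv, sub_eq_add_neg, Real.exp_add, tC]
  calc _ ≤ (3.67 / v + 1) * 0.36787944116 := by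
        rw [div_eq_mul_one_div _ v, div_eq_mul_one_div 3.67 v]
        linarith
    _ ≤ _ := mul_le_mul (by linarith) Real.exp_neg_one_gt_d9.le (by norm_num) (Real.exp_pos _).le

theorem th_ge (hv : 97 / 2 ≤ v) : 0.3678 ≤ th v := by
  have h0 : 0 < v := by linarith
  have : 0 ≤ 1.35 / v := by positivity
  have := tC_le hv
  unfold tC at this
  linarith

theorem th_le (hv : 97 / 2 ≤ v) : th v ≤ 0.4 := by
  have h0 : 0 < v := by linarith
  have h1 : VV v ≤ 2.25 * Real.exp (0.0534 * (v - 97 / 2)) := by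
    have := Real.add_one_le_exp (0.0534 * (v - 97 / 2))
    have : lb v ≤ 0.06 * v - 1.785 := max_le (by linarith) (by linarith)
    unfold VV
    linarith
  have h2 : sg v ≤ 17.5 * Real.exp (0.0104 * (v - 97 / 2)) := by
    refine (abs_le_of_sq_le_sq' ((sg_sq_le hv).trans ?_) (by positivity)).2
    have := Real.add_one_le_exp (2 * (0.0104 * (v - 97 / 2)))
    rw [mul_pow, ← Real.exp_nat_mul]
    push_cast
    linarith
  have h3 : Real.log (sg v * VV v) ≤ 0.083 * v := by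
    refine (Real.log_le_iff_le_exp (by linarith [basic1_W hv])).2 ?_
    have h4 := pow_le_pow_left₀ (by norm_num) Real.exp_one_gt_d9.le 4
    rw [← Real.exp_nat_mul] at h4
    calc _ ≤ 17.5 * Real.exp (0.0104 * (v - 97 / 2)) * (2.25 * Real.exp (0.0534 * (v - 97 / 2))) :=
          mul_le_mul h2 h1 (basic1_V hv).le (by positivity)
      _ = 39.375 * Real.exp (0.0638 * (v - 97 / 2)) := by
          rw [mul_mul_mul_comm, ← Real.exp_add]
          congr 1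
          · norm_num
          · congr 1
            ring
      _ ≤ Real.exp ((4 : ℕ) * 1) * Real.exp (0.0638 * (v - 97 / 2)) := by
          gcongr
          exact le_trans (by norm_num) h4
      _ ≤ _ := by
          rw [← Real.exp_add]
          refine Real.exp_le_exp.2 ?_
          push_cast
          linarith
  have h4 := Real.sum_le_exp_of_nonneg (x := 0.917) (by norm_num) 7
  simp only [Finset.sum_range_succ, Finset.sum_range_zero, Nat.factorial] at h4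
  rw [basic1_th hv]
  calc _ ≤ Real.exp (-0.917) := Real.exp_le_exp.2 (by
        rw [sub_le_iff_le_add, div_le_iff₀ h0]
        linarith)
    _ ≤ _ := by
        rw [Real.exp_neg, inv_le_comm₀ (Real.exp_pos _) (by norm_num)]
        exact le_trans (by norm_num) h4

theorem t0_le (hv : 97 / 2 ≤ v) : t0 v ≤ 3 / 4 * th v ^ 2 * (0.965 - 2.33 / v) := by
  obtain ⟨h1, h2⟩ := basic1_u hv
  have h3 := tC_le hv
  unfold tC at h3
  unfold t0
  rw [div_eq_mul_one_div _ v] at h3 ⊢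
  rw [div_eq_mul_one_div 2.33 v]
  generalize 1 / v = u at *
  calc _ ≤ 3 / 4 * (0.3678 + 1.35 * u) ^ 2 * (0.965 - 2.33 * u) := by
        nlinarith [mul_nonneg h1.le (sub_nonneg.2 h2), mul_nonneg (mul_nonneg h1.le h1.le)
          (sub_nonneg.2 h2)]
    _ ≤ _ := by
        gcongr
        linarith

theorem tx_le (hv : 97 / 2 ≤ v) : tx v ≤ 4 / 3 * t0 v * (1 - 1.3 / v) := by
  obtain ⟨h1, h2⟩ := basic1_u hv
  unfold tx t0
  rw [div_eq_mul_one_div _ v, div_eq_mul_one_div 0.43 v, div_eq_mul_one_div 1.3 v]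
  generalize 1 / v = u at *
  nlinarith [mul_nonneg h1.le (sub_nonneg.2 h2)]

theorem vp_pos (hv : 97 / 2 ≤ v) : 0 < vp v := by
  have := basic1_W hv
  exact mul_pos (by linarith) (Real.exp_pos _)

theorem basic1_mul (hv : 97 / 2 ≤ v) : 2 * th v * v = 2 * Real.pi * rr v := by
  rw [th, mul_assoc, div_mul_cancel₀ _ (by linarith), mul_assoc]

theorem vp_eq (hv : 97 / 2 ≤ v) : vp v = th v ^ v * Real.exp (v * (1 - 2 * th v)) := by
  rw [th_pow hv, mul_assoc, ← Real.exp_add, vp, ← basic1_mul hv]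
  congr 2
  ring

theorem hmax_sq (hv : 97 / 2 ≤ v) : Real.exp (-(2 * th v * v)) = vp v / (sg v * VV v) := by
  have := basic1_W hv
  rw [vp, mul_div_cancel_left₀ _ (by linarith), ← basic1_mul hv]

theorem hmax_le (hv : 97 / 2 ≤ v) : Real.exp (-(th v * v)) ≤ 0.1596 * Real.sqrt (vp v) := by
  have h1 := basic1_W hv
  have h2 := vp_pos hv
  refine (abs_le_of_sq_le_sq' ?_ (by positivity)).2
  rw [mul_pow, Real.sq_sqrt h2.le, ← Real.exp_nat_mul,
    show ((2 : ℕ) : ℝ) * -(th v * v) = -(2 * th v * v) by push_cast; ring, hmax_sq hv,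
    div_le_iff₀ (by linarith)]
  nlinarith

theorem basic1_vp (hv : 97 / 2 ≤ v) :
    vp v * Real.exp (v * (2 * th v - 1 - Real.log (2 * th v))) = (2 : ℝ) ^ (-v) := by
  rw [vp_eq hv, Real.rpow_def_of_pos (basic1_pos hv), Real.rpow_def_of_pos two_pos,
    Real.log_mul two_ne_zero (basic1_pos hv).ne', ← Real.exp_add, ← Real.exp_add]
  congr 1
  ring

theorem basic1_le (hv : 97 / 2 ≤ v) : vp v ≤ Real.exp (-(0.69 * v)) := by
  have h0 : 0 < v := by linarith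
  have h1 := Real.log_le_sub_one_of_pos (mul_pos two_pos (basic1_pos hv))
  calc _ ≤ _ := le_mul_of_one_le_right (vp_pos hv).le
        (Real.one_le_exp (mul_nonneg h0.le (sub_nonneg.2 h1)))
    _ = _ := basic1_vp hv
    _ ≤ _ := by
        rw [Real.rpow_def_of_pos two_pos]
        exact Real.exp_le_exp.2 (by nlinarith [Real.log_two_gt_d9])

theorem cc1_le (hv : 97 / 2 ≤ v) :
    (2 : ℝ) ^ (-v) ≤ 0.4361 * Real.exp (0.0427 * v) * vp v := by
  have h0 : 0 < v := by linarith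
  obtain ⟨h1, h2⟩ := basic1_u hv
  have h3 := tC_le hv
  have h4 := th_le hv
  rw [tC, div_eq_mul_one_div _ v] at h3
  obtain ⟨w, hw⟩ : ∃ w, 2 * th v = 0.7356 * (1 + w) := ⟨2 * th v / 0.7356 - 1, by ring⟩
  have w0 : 0 ≤ w := by linarith
  have h5 : w - w ^ 2 / 2 ≤ Real.log (1 + w) := by
    refine le_trans ?_ (Real.le_log_one_add_of_nonneg w0)
    rw [le_div_iff₀ (by linarith)]
    nlinarith [pow_nonneg w0 3]
  have h6 : -0.3071 ≤ Real.log 0.7356 := by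
    have h := Real.sum_le_exp_of_nonneg (x := 0.3071) (by norm_num) 5
    simp only [Finset.sum_range_succ, Finset.sum_range_zero, Nat.factorial] at h
    rw [Real.le_log_iff_exp_le (by norm_num), Real.exp_neg,
      inv_le_comm₀ (Real.exp_pos _) (by norm_num)]
    exact le_trans (by norm_num) h
  have h7 : Real.exp (-0.83) ≤ 0.4361 := by
    have h := Real.sum_le_exp_of_nonneg (x := 0.83) (by norm_num) 7
    simp only [Finset.sum_range_succ, Finset.sum_range_zero, Nat.factorial] at h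
    rw [Real.exp_neg, inv_le_comm₀ (Real.exp_pos _) (by norm_num)]
    exact le_trans (by norm_num) h
  have h8 : 2 * th v - 1 - Real.log (2 * th v) ≤ 0.0427 - 0.83 * (1 / v) := by
    rw [hw, Real.log_mul (by norm_num) (by linarith)]
    generalize 1 / v = u at *
    have a1 : 3.6704 * u ≤ w := by linarith
    nlinarith [mul_nonneg (sub_nonneg.2 a1) (show 0 ≤ 0.5288 - w - 3.6704 * u by linarith),
      mul_nonneg h1.le (sub_nonneg.2 h2)]
  have h9 := mul_le_mul_of_nonneg_left h8 h0.le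
  rw [mul_sub v 0.0427, mul_left_comm v, mul_one_div_cancel h0.ne'] at h9
  rw [← basic1_vp hv, mul_comm _ (vp v)]
  refine mul_le_mul_of_nonneg_left ?_ (vp_pos hv).le
  calc _ ≤ Real.exp (-0.83 + 0.0427 * v) := Real.exp_le_exp.2 (by linarith)
    _ ≤ _ := by
        rw [Real.exp_add]
        gcongr

theorem inv_vp (hv : 97 / 2 ≤ v) : 1 ≤ 0.4361 * Real.exp (0.7359 * v) * vp v := by
  have h0 : 0 < v := by linarith
  have h1 := cc1_le hv
  have h2 := vp_pos hv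
  rw [Real.rpow_def_of_pos two_pos] at h1
  calc (1 : ℝ) = Real.exp 0 := Real.exp_zero.symm
    _ ≤ Real.exp (0.6932 * v) * Real.exp (Real.log 2 * -v) := by
        rw [← Real.exp_add]
        exact Real.exp_le_exp.2 (by nlinarith [Real.log_two_lt_d9])
    _ ≤ Real.exp (0.6932 * v) * (0.4361 * Real.exp (0.0427 * v) * vp v) := by gcongr
    _ = _ := by
        rw [show 0.7359 * v = 0.6932 * v + 0.0427 * v by ring, Real.exp_add]
        ring

theorem inv_sqrt_vp (hv : 97 / 2 ≤ v) :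
    1 ≤ 0.6604 * Real.exp (0.36795 * v) * Real.sqrt (vp v) := by
  have h1 := inv_vp hv
  have h2 := vp_pos hv
  refine (abs_le_of_sq_le_sq' ?_ (by positivity)).2
  rw [mul_pow, mul_pow, Real.sq_sqrt h2.le, ← Real.exp_nat_mul,
    show ((2 : ℕ) : ℝ) * (0.36795 * v) = 0.7359 * v by push_cast; ring]
  nlinarith [mul_pos (Real.exp_pos (0.7359 * v)) h2]

theorem vp_small (hv : 97 / 2 ≤ v) : vp v ≤ 0.001 * dec v := by
  have h1 := pow_le_pow_left₀ (by norm_num) Real.exp_one_gt_d9.le 7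
  rw [← Real.exp_nat_mul] at h1
  have h2 : Real.exp (-((7 : ℕ) * 1)) ≤ 0.001 := by
    rw [Real.exp_neg, inv_le_comm₀ (Real.exp_pos _) (by norm_num)]
    exact le_trans (by norm_num) h1
  calc _ ≤ Real.exp (-((7 : ℕ) * 1) + -((v - 97 / 2) / 1000)) :=
        (basic1_le hv).trans (Real.exp_le_exp.2 (by push_cast; linarith))
    _ ≤ _ := by
        rw [Real.exp_add, dec]
        gcongr

theorem PP_size (hv : 97 / 2 ≤ v) : (1.0112 * VV v) ^ 2 * vp v / VV v ≤ 1 := by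
  have h1 := basic1_V hv
  have h2 := lb_le hv
  have h3 := basic1_le hv
  have h4 := Real.add_one_le_exp (0.69 * v)
  have h5 := vp_pos hv
  rw [Real.exp_neg, ← one_div, le_div_iff₀ (Real.exp_pos _)] at h3
  have h6 : vp v * VV v ≤ vp v * (0.2 * Real.exp (0.69 * v)) := by
    gcongr
    unfold VV
    linarith
  rw [div_le_one h1]
  nlinarith

end Pool.Agent.Eps.P
end
end
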