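import Pool.Agent.Lib.MP_3bda03_nt.P.Mom

/-!
A checker for sums of monomials.
-/

set_option autoImplicit false

namespace Pool.Agent.Eps.P

/-- repeated squaring in fixed point, rounded down -/
def sqn : ℕ → ℕ → ℕ
  | 0, z => z
  | k + 1, z => sqn k (z * z / 2 ^ 64)

/-- a monomial with rounded integer data -/
structure IM where
  A : ℕ
  p : ℕ
  p' : ℕ
  q : ℕ
  g : ℤ
  a : ℤ
  b : ℤ

def rnd (m : Mono) : IM :=
  ⟨⌈|m.A| * 2 ^ 40⌉.toNat, m.p.toNat, (-m.p).toNat, m.q, ⌈m.ga * 2 ^ 40⌉, ⌈m.al * 2 ^ 40⌉,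
    ⌊m.be * 2 ^ 40⌋⟩

/-- an interval: twice the left end, 200 times `lb` there, 100 times a bound for `sg`, 200 times
the slope of `lb`, twice the width -/
structure Iv where
  V : ℕ
  L : ℕ
  s : ℕ
  sl : ℕ
  W : ℕ

def slp (I : Iv) (m : IM) : ℤ :=
  ((m.p * (2000 * 2 ^ 40 * I.sl / I.L + 1) + m.q * (2000 * 2 ^ 40 / I.V + 1) + 2 * 2 ^ 40 : ℕ) : ℤ) +
    10 * m.a * I.sl - 2000 * m.b

def expo (I : Iv) (m : IM) : ℤ :=
  2 * (2000 * m.g + 10 * m.a * I.L - 1000 * m.b * I.V + ((I.V : ℤ) - 97) * 2 ^ 40) +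
    (((slp I m).toNat * I.W : ℕ) : ℤ)

def upN (X : ℤ) : ℕ := (X / (4000 * 2 ^ 40) + 1).toNat

def loN (X : ℤ) : ℕ :=
  sqn 14 (2 ^ 64 + ((upN X : ℤ) * (4000 * 2 ^ 40) - X).toNat * 1024 / 4000)

def val (I : Iv) (m : IM) : ℕ :=
  m.A * I.L ^ m.p * 200 ^ m.p' * I.s ^ m.q * 27182818286 ^ upN (expo I m) * 2 ^ 74 /
    (200 ^ m.p * I.L ^ m.p' * 100 ^ m.q * 10000000000 ^ upN (expo I m) * loN (expo I m)) + 1

def tot (I : Iv) : List IM → ℕ
  | [] => 0
  | m :: L => val I m + tot I L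

def iv1 : Iv := ⟨97, 225, 1750, 10, 23⟩

def iv2 : Iv := ⟨120, 340, 1946, 10, 280⟩

def iv3 : Iv := ⟨400, 1740, 3553, 12, 0⟩

/-- the sum of the list is at most `c / 2 ^ 50` times `dec v` -/
def chk (L : List Mono) (c : ℕ) : Bool :=
  decide (tot iv1 (L.map rnd) ≤ c) && decide (tot iv2 (L.map rnd) ≤ c) &&
    decide (tot iv3 (L.map rnd) ≤ c) && (L.map rnd).all fun m => decide (slp iv3 m ≤ 0)

noncomputable section

theorem sqn_ge (k : ℕ) : ∀ z : ℕ, 2 ^ 64 ≤ z → 2 ^ 64 ≤ sqn k z := by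
  induction k with
  | zero => intro z h; exact h
  | succ k ih =>
    intro z h
    refine ih _ ?_
    rw [Nat.le_div_iff_mul_le (by positivity)]
    exact Nat.mul_le_mul h h

theorem sqn_le (k : ℕ) : ∀ (z : ℕ) (e : ℝ), (z : ℝ) ≤ 2 ^ 64 * e →
    (sqn k z : ℝ) ≤ 2 ^ 64 * e ^ (2 ^ k) := by
  induction k with
  | zero => intro z e h; simpa [sqn] using h
  | succ k ih =>
    intro z e h
    have h1 : ((z * z / 2 ^ 64 : ℕ) : ℝ) ≤ 2 ^ 64 * e ^ 2 := by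
      refine Nat.cast_div_le.trans ?_
      have hz : (0 : ℝ) ≤ z := Nat.cast_nonneg z
      have h2 : (z : ℝ) * z ≤ (2 ^ 64 * e) * (2 ^ 64 * e) := mul_self_le_mul_self hz h
      push_cast
      rw [div_le_iff₀ (by positivity)]
      nlinarith
    have := ih _ _ h1
    rw [← pow_mul, ← pow_succ'] at this
    exact this

theorem upN_ge (X : ℤ) : X ≤ (upN X : ℤ) * (4000 * 2 ^ 40) := by
  have h1 : X / (4000 * 2 ^ 40) + 1 ≤ (upN X : ℤ) := Int.self_le_toNat _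
  have h2 : X < (X / (4000 * 2 ^ 40) + 1) * (4000 * 2 ^ 40) :=
    Int.lt_ediv_add_one_mul_self X (by norm_num)
  nlinarith

theorem loN_pos (X : ℤ) : (0 : ℝ) < loN X := by
  have := sqn_ge 14 (2 ^ 64 + ((upN X : ℤ) * (4000 * 2 ^ 40) - X).toNat * 1024 / 4000)
    (Nat.le_add_right _ _)
  have h2 : 0 < loN X := lt_of_lt_of_le (by positivity) this
  exact_mod_cast h2

theorem exp_le_upN (X : ℤ) : Real.exp ((X : ℝ) / (4000 * 2 ^ 40)) ≤
    (27182818286 : ℝ) ^ upN X / 10000000000 ^ upN X * 2 ^ 64 / loN X := by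
  set c := upN X with hc
  set y : ℝ := c - (X : ℝ) / (4000 * 2 ^ 40) with hy
  have hY : ((((c : ℤ) * (4000 * 2 ^ 40) - X).toNat : ℕ) : ℝ) = y * (4000 * 2 ^ 40) := by
    have h0 : 0 ≤ (c : ℤ) * (4000 * 2 ^ 40) - X := sub_nonneg.2 (upN_ge X)
    have h1 : ((((c : ℤ) * (4000 * 2 ^ 40) - X).toNat : ℕ) : ℤ) = (c : ℤ) * (4000 * 2 ^ 40) - X :=
      Int.toNat_of_nonneg h0
    generalize ((c : ℤ) * (4000 * 2 ^ 40) - X).toNat = N at h1 ⊢
    have h2 := congrArg (Int.cast : ℤ → ℝ) h1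
    push_cast at h2
    rw [h2, hy]
    field_simp
    ring
  have h3 : ((2 ^ 64 + ((c : ℤ) * (4000 * 2 ^ 40) - X).toNat * 1024 / 4000 : ℕ) : ℝ) ≤
      2 ^ 64 * Real.exp (y / 2 ^ 14) := by
    have h4 : (((((c : ℤ) * (4000 * 2 ^ 40) - X).toNat * 1024 / 4000 : ℕ)) : ℝ) ≤
        2 ^ 64 * (y / 2 ^ 14) := by
      refine Nat.cast_div_le.trans ?_
      rw [Nat.cast_mul, hY]
      apply le_of_eq
      push_cast
      ring
    have h5 := Real.add_one_le_exp (y / 2 ^ 14)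
    rw [Nat.cast_add]
    have h6 : ((2 ^ 64 : ℕ) : ℝ) = 2 ^ 64 := by norm_num
    rw [h6]
    nlinarith
  have h7 := sqn_le 14 _ _ h3
  rw [← Real.exp_nat_mul] at h7
  have h8 : (((2 ^ 14 : ℕ) : ℝ)) * (y / 2 ^ 14) = y := by
    push_cast
    ring
  rw [h8] at h7
  have h9 : (loN X : ℝ) ≤ 2 ^ 64 * Real.exp y := h7
  have h10 : Real.exp c ≤ (27182818286 : ℝ) ^ c / 10000000000 ^ c := by
    rw [← div_pow, ← Real.exp_one_pow]
    refine pow_le_pow_left₀ (Real.exp_pos 1).le ?_ c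
    have := Real.exp_one_lt_d9
    norm_num at this ⊢
    linarith
  rw [le_div_iff₀ (loN_pos X)]
  have h11 : Real.exp ((X : ℝ) / (4000 * 2 ^ 40)) * Real.exp y = Real.exp c := by
    rw [← Real.exp_add, hy]
    congr 1
    ring
  calc Real.exp ((X : ℝ) / (4000 * 2 ^ 40)) * loN X
      ≤ Real.exp ((X : ℝ) / (4000 * 2 ^ 40)) * (2 ^ 64 * Real.exp y) := by gcongr
    _ = Real.exp c * 2 ^ 64 := by rw [← h11]; ring
    _ ≤ _ := by gcongr

/-- the point lies to the right of the left end, on the same branch of `lb` -/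
structure Iv.Ok (I : Iv) (v : ℝ) : Prop where
  hv : 97 / 2 ≤ v
  hV : 0 < I.V
  hL : 0 < I.L
  le : (I.V : ℝ) / 2 ≤ v
  lb : lb v = ((I.L : ℝ) + I.sl * (v - I.V / 2)) / 200
  sg : 6.31 * ((I.V : ℝ) / 2) ≤ ((I.s : ℝ) / 100) ^ 2

theorem chk_lb {I : Iv} {v : ℝ} (h : I.Ok v) (p : ℤ) :
    lb v ^ p ≤ ((I.L : ℝ) / 200) ^ p.toNat / ((I.L : ℝ) / 200) ^ (-p).toNat *
      Real.exp (p.toNat * (I.sl / I.L * (v - I.V / 2))) := by
  have hL : (0 : ℝ) < I.L := by exact_mod_cast h.hL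
  have hd : 0 ≤ (I.sl : ℝ) * (v - I.V / 2) := mul_nonneg (Nat.cast_nonneg _) (sub_nonneg.2 h.le)
  have h1 : (I.L : ℝ) / 200 ≤ lb v := by rw [h.lb]; linarith
  have h0 : (0 : ℝ) < (I.L : ℝ) / 200 := by positivity
  have hl : 0 < lb v := h0.trans_le h1
  have h2 : lb v ≤ (I.L : ℝ) / 200 * Real.exp (I.sl / I.L * (v - I.V / 2)) := by
    have h3 := Real.add_one_le_exp (I.sl / I.L * (v - I.V / 2))
    have h4 : lb v = (I.L : ℝ) / 200 * (I.sl / I.L * (v - I.V / 2) + 1) := by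
      rw [h.lb]; field_simp; ring
    rw [h4]
    gcongr
  have h5 : lb v ^ p = lb v ^ p.toNat / lb v ^ (-p).toNat := by
    rw [← zpow_natCast, ← zpow_natCast, ← zpow_sub₀ hl.ne', Int.toNat_sub_toNat_neg]
  rw [h5, Real.exp_nat_mul, div_mul_eq_mul_div, ← mul_pow]
  gcongr

theorem chk_sg {I : Iv} {v : ℝ} (h : I.Ok v) (q : ℕ) :
    sg v ^ q ≤ ((I.s : ℝ) / 100) ^ q * Real.exp (q * (1 / I.V * (v - I.V / 2))) := by
  have hV : (0 : ℝ) < I.V := by exact_mod_cast h.hV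
  have h0 : 0 ≤ sg v := le_trans (by norm_num) (sg_ge h.hv)
  have h1 : sg v ≤ (I.s : ℝ) / 100 * Real.exp (1 / I.V * (v - I.V / 2)) := by
    refine le_of_sq_le_sq ?_ (by positivity)
    have h2 := sg_sq_le h.hv
    have h3 := Real.add_one_le_exp (2 * (1 / I.V * (v - I.V / 2)))
    have h4 : v = (I.V : ℝ) / 2 * (2 * (1 / I.V * (v - I.V / 2)) + 1) := by
      field_simp; ring
    have h5 : Real.exp (1 / I.V * (v - I.V / 2)) ^ 2 =
        Real.exp (2 * (1 / I.V * (v - I.V / 2))) := by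
      rw [← Real.exp_nat_mul]; norm_num
    rw [mul_pow, h5]
    calc sg v ^ 2 ≤ 6.31 * v := h2
      _ = 6.31 * ((I.V : ℝ) / 2) * (2 * (1 / I.V * (v - I.V / 2)) + 1) := by
        rw [mul_assoc, ← h4]
      _ ≤ 6.31 * ((I.V : ℝ) / 2) * Real.exp (2 * (1 / I.V * (v - I.V / 2))) := by gcongr
      _ ≤ _ := by gcongr; exact h.sg
  rw [Real.exp_nat_mul, ← mul_pow]
  gcongr

theorem chk_div (a b : ℕ) (hb : 0 < b) : (a : ℝ) / b ≤ ((a / b + 1 : ℕ) : ℝ) := by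
  have hb' : (0 : ℝ) < b := by exact_mod_cast hb
  rw [div_le_iff₀ hb']
  have := Nat.lt_div_mul_add (a := a) hb
  have h2 : a ≤ (a / b + 1) * b := by nlinarith
  exact_mod_cast h2

theorem chk_slp {I : Iv} {v : ℝ} (h : I.Ok v) (m : IM) :
    (m.p * (I.sl / I.L) + m.q * (1 / I.V) + 1 / 1000 +
      (m.a * (I.sl / 200) - m.b) / 2 ^ 40 : ℝ) ≤ (slp I m : ℝ) / (2000 * 2 ^ 40) := by
  have h1 := chk_div (2000 * 2 ^ 40 * I.sl) I.L h.hL
  have h2 := chk_div (2000 * 2 ^ 40) I.V h.hV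
  unfold slp
  generalize 2000 * 2 ^ 40 * I.sl / I.L + 1 = c1 at h1 ⊢
  generalize 2000 * 2 ^ 40 / I.V + 1 = c2 at h2 ⊢
  rw [le_div_iff₀ (by positivity)]
  push_cast at h1 h2 ⊢
  have h3 := mul_le_mul_of_nonneg_left h1 (Nat.cast_nonneg m.p : (0 : ℝ) ≤ m.p)
  have h4 := mul_le_mul_of_nonneg_left h2 (Nat.cast_nonneg m.q : (0 : ℝ) ≤ m.q)
  have e1 : (m.p : ℝ) * (2199023255552000 * I.sl / I.L) =
      m.p * (I.sl / I.L) * 2199023255552000 := by ring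
  have e2 : (m.q : ℝ) * (2199023255552000 / I.V) = m.q * (1 / I.V) * 2199023255552000 := by ring
  rw [e1] at h3
  rw [e2] at h4
  linarith

theorem chk_expo {I : Iv} {v : ℝ} (h : I.Ok v) (m : Mono)
    (hw : 2 * v - I.V ≤ I.W ∨ slp I (rnd m) ≤ 0) :
    (m.ga + m.al * lb v - m.be * v + (v - 97 / 2) / 1000 +
      m.p.toNat * (I.sl / I.L * (v - I.V / 2)) + m.q * (1 / I.V * (v - I.V / 2)) : ℝ) ≤
      (expo I (rnd m) : ℝ) / (4000 * 2 ^ 40) := by
  have hg : (m.ga : ℝ) * 2 ^ 40 ≤ (rnd m).g := by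
    have := Int.le_ceil (m.ga * 2 ^ 40)
    exact_mod_cast this
  have ha : (m.al : ℝ) * 2 ^ 40 ≤ (rnd m).a := by
    have := Int.le_ceil (m.al * 2 ^ 40)
    exact_mod_cast this
  have hb : ((rnd m).b : ℝ) ≤ (m.be : ℝ) * 2 ^ 40 := by
    have := Int.floor_le (m.be * 2 ^ 40)
    exact_mod_cast this
  have hl : 0 ≤ lb v := le_trans (by norm_num) (lb_ge h.hv)
  have hv0 : 0 ≤ v := le_trans (by norm_num) h.hv
  have hd : 0 ≤ v - I.V / 2 := sub_nonneg.2 h.le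
  have hs := mul_le_mul_of_nonneg_right (chk_slp h (rnd m)) hd
  have hp : (rnd m).p = m.p.toNat := rfl
  have hq : (rnd m).q = m.q := rfl
  rw [hp, hq] at hs
  have h1 := mul_le_mul_of_nonneg_right ha hl
  have h2 := mul_le_mul_of_nonneg_right hb hv0
  have h3 : (slp I (rnd m) : ℝ) * (2 * (v - I.V / 2)) ≤
      (((slp I (rnd m)).toNat * I.W : ℕ) : ℝ) := by
    rcases hw with hw | hw
    · have h4 : (slp I (rnd m) : ℝ) ≤ ((slp I (rnd m)).toNat : ℝ) := by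
        have := Int.self_le_toNat (slp I (rnd m))
        exact_mod_cast this
      rw [Nat.cast_mul]
      exact mul_le_mul h4 (by linarith) (by linarith) (Nat.cast_nonneg _)
    · have h4 : (slp I (rnd m) : ℝ) ≤ 0 := by exact_mod_cast hw
      exact (mul_nonpos_of_nonpos_of_nonneg h4 (by linarith)).trans (Nat.cast_nonneg _)
  unfold expo
  generalize (slp I (rnd m)).toNat * I.W = N at h3 ⊢
  generalize slp I (rnd m) = σ at hs h3
  rw [le_div_iff₀ (by positivity)]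
  push_cast
  rw [h.lb] at h1 ⊢
  generalize (I.sl : ℝ) / I.L = x at hs ⊢
  generalize 1 / (I.V : ℝ) = y at hs ⊢
  norm_num at hs h1 h2 hg ⊢
  nlinarith

theorem val_sound {I : Iv} {v : ℝ} (h : I.Ok v) (m : Mono)
    (hw : 2 * v - I.V ≤ I.W ∨ slp I (rnd m) ≤ 0) :
    m.ev v ≤ (val I (rnd m) : ℝ) / 2 ^ 50 * dec v := by
  have hL : (0 : ℝ) < I.L := by exact_mod_cast h.hL
  have hA : ((|m.A| : ℚ) : ℝ) ≤ ((rnd m).A : ℝ) / 2 ^ 40 := by
    rw [le_div_iff₀ (by positivity)]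
    have h1 := (Int.le_ceil (|m.A| * 2 ^ 40)).trans
      (Int.cast_le.2 (Int.self_le_toNat ⌈|m.A| * 2 ^ 40⌉))
    have h2 : ((|m.A| * 2 ^ 40 : ℚ) : ℝ) ≤ (((((rnd m).A : ℕ) : ℤ) : ℚ) : ℝ) := Rat.cast_le.2 h1
    push_cast at h2 ⊢
    exact h2
  have hl : 0 ≤ lb v := le_trans (by norm_num) (lb_ge h.hv)
  have h0 : 0 ≤ sg v := le_trans (by norm_num) (sg_ge h.hv)
  have h1 := chk_lb h m.p
  have h2 := chk_sg h m.q
  have h3 := (Real.exp_le_exp.2 (chk_expo h m hw)).trans (exp_le_upN _)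
  have hlo := loN_pos (expo I (rnd m))
  have h4 := chk_div ((rnd m).A * I.L ^ (rnd m).p * 200 ^ (rnd m).p' * I.s ^ (rnd m).q *
      27182818286 ^ upN (expo I (rnd m)) * 2 ^ 74)
    (200 ^ (rnd m).p * I.L ^ (rnd m).p' * 100 ^ (rnd m).q * 10000000000 ^ upN (expo I (rnd m)) *
      loN (expo I (rnd m))) (by
      have h5 : 0 < loN (expo I (rnd m)) := by exact_mod_cast hlo
      have := h.hL
      positivity)
  change _ ≤ (val I (rnd m) : ℝ) at h4
  have hp : (rnd m).p = m.p.toNat := rfl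
  have hp' : (rnd m).p' = (-m.p).toNat := rfl
  have hq : (rnd m).q = m.q := rfl
  rw [hp, hp', hq] at h4
  generalize val I (rnd m) = w at h4
  generalize upN (expo I (rnd m)) = c at h3 h4
  generalize loN (expo I (rnd m)) = z at h3 h4 hlo
  generalize (rnd m).A = A at hA h4
  have hd : 0 < dec v := Real.exp_pos _
  set E1 := Real.exp (m.p.toNat * (I.sl / I.L * (v - I.V / 2))) with hE1
  set E2 := Real.exp (m.q * (1 / I.V * (v - I.V / 2))) with hE2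
  set E0 := Real.exp ((m.ga : ℝ) + (m.al : ℝ) * lb v - (m.be : ℝ) * v) with hE0
  have h6 : E0 * E1 * E2 = Real.exp (m.ga + m.al * lb v - m.be * v + (v - 97 / 2) / 1000 +
      m.p.toNat * (I.sl / I.L * (v - I.V / 2)) + m.q * (1 / I.V * (v - I.V / 2))) * dec v := by
    rw [hE0, hE1, hE2, dec, ← Real.exp_add, ← Real.exp_add, ← Real.exp_add]
    congr 1
    ring
  have hE0' : 0 < E0 := Real.exp_pos _
  have hE1' : 0 < E1 := Real.exp_pos _
  have hE2' : 0 < E2 := Real.exp_pos _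
  calc m.ev v = ((|m.A| : ℚ) : ℝ) * lb v ^ m.p * sg v ^ m.q * E0 := rfl
    _ ≤ (A : ℝ) / 2 ^ 40 * (((I.L : ℝ) / 200) ^ m.p.toNat / ((I.L : ℝ) / 200) ^ (-m.p).toNat *
        E1) * (((I.s : ℝ) / 100) ^ m.q * E2) * E0 := by gcongr
    _ = (A : ℝ) / 2 ^ 40 * (((I.L : ℝ) / 200) ^ m.p.toNat / ((I.L : ℝ) / 200) ^ (-m.p).toNat) *
        ((I.s : ℝ) / 100) ^ m.q * (E0 * E1 * E2) := by ring
    _ ≤ (A : ℝ) / 2 ^ 40 * (((I.L : ℝ) / 200) ^ m.p.toNat / ((I.L : ℝ) / 200) ^ (-m.p).toNat) *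
        ((I.s : ℝ) / 100) ^ m.q *
        ((27182818286 : ℝ) ^ c / 10000000000 ^ c * 2 ^ 64 / z * dec v) := by
      rw [h6]; gcongr
    _ = (((A * I.L ^ m.p.toNat * 200 ^ (-m.p).toNat * I.s ^ m.q * 27182818286 ^ c * 2 ^ 74 : ℕ) :
          ℝ) / ((200 ^ m.p.toNat * I.L ^ (-m.p).toNat * 100 ^ m.q * 10000000000 ^ c * z : ℕ) :
          ℝ)) / 2 ^ 50 * dec v := by
      push_cast
      simp only [div_pow]
      field_simp
      ring
    _ ≤ _ := by gcongr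

theorem tot_sound {I : Iv} {v : ℝ} (h : I.Ok v) (L : List Mono)
    (hw : 2 * v - I.V ≤ I.W ∨ ∀ m ∈ L.map rnd, slp I m ≤ 0) :
    evL v L ≤ (tot I (L.map rnd) : ℝ) / 2 ^ 50 * dec v := by
  induction L with
  | nil => simp [evL, tot]
  | cons m L ih =>
    have h1 := val_sound h m (hw.imp id fun hw => hw _ (by simp))
    have h2 := ih (hw.imp id fun hw x hx => hw x (by
      rw [List.map_cons]; exact List.mem_cons_of_mem _ hx))
    have h3 : evL v (m :: L) = m.ev v + evL v L := by simp [evL]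
    rw [h3, List.map_cons, tot]
    push_cast
    linarith

theorem chk_sound {L : List Mono} {c : ℕ} (h : chk L c = true) {v : ℝ} (hv : 97 / 2 ≤ v) :
    evL v L ≤ (c : ℝ) / 2 ^ 50 * dec v := by
  simp only [chk, Bool.and_eq_true, decide_eq_true_eq, List.all_eq_true] at h
  obtain ⟨⟨⟨h1, h2⟩, h3⟩, h4⟩ := h
  have hd : 0 < dec v := Real.exp_pos _
  have key : ∀ I : Iv, I.Ok v → tot I (L.map rnd) ≤ c →
      (2 * v - I.V ≤ I.W ∨ ∀ m ∈ L.map rnd, slp I m ≤ 0) → evL v L ≤ (c : ℝ) / 2 ^ 50 * dec v := by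
    intro I hI ht hw
    refine (tot_sound hI L hw).trans ?_
    gcongr
  by_cases ha : v ≤ 60
  · refine key iv1 ⟨hv, by decide, by decide, ?_, ?_, ?_⟩ h1 (Or.inl ?_)
    · simpa [iv1] using hv
    · rw [lb, max_eq_left (by linarith)]; simp only [iv1]; push_cast; ring
    · simp only [iv1]; norm_num
    · simp only [iv1]; push_cast; linarith
  by_cases hb : v ≤ 200
  · refine key iv2 ⟨hv, by decide, by decide, ?_, ?_, ?_⟩ h2 (Or.inl ?_)
    · simp only [iv2]; push_cast; linarith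
    · rw [lb, max_eq_left (by linarith)]; simp only [iv2]; push_cast; ring
    · simp only [iv2]; norm_num
    · simp only [iv2]; push_cast; linarith
  · refine key iv3 ⟨hv, by decide, by decide, ?_, ?_, ?_⟩ h3 (Or.inr h4)
    · simp only [iv3]; push_cast; linarith
    · rw [lb, max_eq_right (by linarith)]; simp only [iv3]; push_cast; ring
    · simp only [iv3]; norm_num

end

end Pool.Agent.Eps.P
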