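import Pool.Agent.Lib.MP_3bda03_nt.P.Basic1

-- part Pool.Agent.Lib.MP_3bda03_nt.P.Count1
section

/-!
Counting coefficient vectors.
-/

set_option autoImplicit false

noncomputable section

open MeasureTheory Matrix
open scoped ENNReal

namespace Pool.Agent.Eps.P

open Pool.Agent.Eps.H

variable {τ : Type} [Fintype τ] [DecidableEq τ]

theorem cs_mono {α : Type} {S T : Set α} (h : S ⊆ T) (f : α → ℝ≥0∞) : cs S f ≤ cs T f := by
  exact ENNReal.tsum_mono_subtype f h

theorem cs_le_cs {α : Type} {S : Set α} {f g : α → ℝ≥0∞} (h : ∀ x ∈ S, f x ≤ g x) :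
    cs S f ≤ cs S g := by
  exact ENNReal.tsum_le_tsum fun x => h x.1 x.2

theorem cs_union_le {α : Type} (S T : Set α) (f : α → ℝ≥0∞) :
    cs (S ∪ T) f ≤ cs S f + cs T f := by
  exact ENNReal.tsum_union_le f S T

theorem cs_union {α : Type} {S T : Set α} (h : Disjoint S T) (f : α → ℝ≥0∞) :
    cs (S ∪ T) f = cs S f + cs T f := by
  exact Summable.tsum_union_disjoint h ENNReal.summable ENNReal.summable

omit [DecidableEq τ] in
private theorem count1_mx_le {κ : τ → ℤ} {n : ℕ} : mx κ ≤ n ↔ ∀ i, (κ i).natAbs ≤ n := by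
  unfold mx
  rw [Finset.sup_le_iff]
  exact ⟨fun h i => h i (Finset.mem_univ i), fun h i _ => h i⟩

omit [DecidableEq τ] in
private theorem count1_le_mx (κ : τ → ℤ) (i : τ) : (κ i).natAbs ≤ mx κ :=
  count1_mx_le.1 le_rfl i

omit [DecidableEq τ] in
private theorem count1_mx_neg (κ : τ → ℤ) : mx (-κ) = mx κ := by
  unfold mx
  simp only [Pi.neg_apply, Int.natAbs_neg]

omit [DecidableEq τ] in
private theorem count1_spt_neg (κ : τ → ℤ) : spt (-κ) = spt κ := by
  unfold spt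
  refine congrArg Finset.card (Finset.ext fun i => ?_)
  simp only [Finset.mem_filter, Pi.neg_apply, ne_eq, neg_eq_zero]

omit [DecidableEq τ] in
private theorem count1_spt_zero {κ : τ → ℤ} : spt κ = 0 ↔ κ = 0 := by
  unfold spt
  rw [Finset.card_eq_zero, Finset.filter_eq_empty_iff]
  constructor
  · intro h
    funext i
    exact not_not.1 (h (Finset.mem_univ i))
  · intro h i _
    rw [h]
    exact not_not.2 rfl

private theorem count1_spt_one {κ : τ → ℤ} (h : spt κ = 1) :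
    ∃ i, κ i ≠ 0 ∧ κ = Pi.single i (κ i) := by
  unfold spt at h
  obtain ⟨i, hi⟩ := Finset.card_eq_one.1 h
  have hmem : ∀ j, κ j ≠ 0 ↔ j = i := by
    intro j
    rw [← Finset.mem_singleton, ← hi, Finset.mem_filter]
    exact ⟨fun h => ⟨Finset.mem_univ j, h⟩, fun h => h.2⟩
  refine ⟨i, (hmem i).2 rfl, funext fun j => ?_⟩
  by_cases hj : j = i
  · rw [hj, Pi.single_eq_same]
  · rw [Pi.single_eq_of_ne hj]
    by_contra h0
    exact hj ((hmem j).1 h0)

private theorem count1_spt_single (i : τ) {a : ℤ} (ha : a ≠ 0) :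
    spt (Pi.single i a : τ → ℤ) = 1 := by
  unfold spt
  rw [Finset.card_eq_one]
  refine ⟨i, Finset.ext fun j => ?_⟩
  rw [Finset.mem_filter, Finset.mem_singleton]
  constructor
  · rintro ⟨_, h⟩
    by_contra hj
    rw [Pi.single_eq_of_ne hj] at h
    exact h rfl
  · intro hj
    refine ⟨Finset.mem_univ j, ?_⟩
    rw [hj, Pi.single_eq_same]
    exact ha

private theorem count1_mx_single (i : τ) (a : ℤ) :
    mx (Pi.single i a : τ → ℤ) ≤ a.natAbs := by
  refine count1_mx_le.2 fun j => ?_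
  by_cases hj : j = i
  · rw [hj, Pi.single_eq_same]
  · rw [Pi.single_eq_of_ne hj]
    exact Nat.zero_le _

private theorem count1_neg_single (i : τ) (a : ℤ) :
    -(Pi.single i a : τ → ℤ) = Pi.single i (-a) := by
  funext j
  by_cases hj : j = i
  · rw [hj, Pi.neg_apply, Pi.single_eq_same, Pi.single_eq_same]
  · rw [Pi.neg_apply, Pi.single_eq_of_ne hj, Pi.single_eq_of_ne hj, neg_zero]

theorem neg_mem_NE {κ : τ → ℤ} : -κ ∈ NE τ ↔ κ ∈ NE τ := by
  unfold NE CU
  simp only [Set.mem_ofPred_eq, count1_mx_neg, count1_spt_neg, ne_eq, neg_eq_zero]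

theorem mem_CU_one {κ : τ → ℤ} :
    κ ∈ CU τ 1 ↔ ∃ i, κ = Pi.single i 1 ∨ κ = -Pi.single i 1 := by
  constructor
  · rintro ⟨h1, h2⟩
    obtain ⟨i, hi, hk⟩ := count1_spt_one h2
    have h3 := count1_mx_le.1 h1 i
    refine ⟨i, ?_⟩
    have h4 : κ i = 1 ∨ κ i = -1 := by omega
    rcases h4 with h4 | h4
    · left
      rw [← h4]
      exact hk
    · right
      rw [count1_neg_single, ← h4]
      exact hk
  · rintro ⟨i, h | h⟩
    · rw [h]
      exact ⟨count1_mx_single i 1, count1_spt_single i one_ne_zero⟩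
    · rw [h]
      refine ⟨?_, ?_⟩
      · rw [count1_mx_neg]
        exact count1_mx_single i 1
      · rw [count1_spt_neg]
        exact count1_spt_single i one_ne_zero

theorem CU_two_subset : CU τ 2 ⊆ NE τ := by
  rintro κ ⟨_, h2⟩
  refine ⟨fun h => ?_, fun h => ?_⟩
  · have := count1_spt_zero.2 h
    omega
  · have := h.2
    omega

theorem CS_subset : CS τ ⊆ NE τ := by
  intro κ h2
  have h3 : 2 ≤ spt κ := h2
  refine ⟨fun h => ?_, fun h => ?_⟩
  · have := count1_spt_zero.2 h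
    omega
  · have := h.2
    omega

theorem NE_subset : NE τ ⊆ CG τ 2 ∪ CN τ 2 := by
  rintro κ ⟨h0, h1⟩
  by_cases hm : mx κ ≤ 1
  · left
    refine ⟨hm, ?_⟩
    have a0 : spt κ ≠ 0 := fun h => h0 (count1_spt_zero.1 h)
    have a1 : spt κ ≠ 1 := fun h => h1 ⟨hm, h⟩
    omega
  · right
    show 2 ≤ mx κ
    omega

theorem CG_succ (j : ℕ) : CG τ j = CU τ j ∪ CG τ (j + 1) := by
  ext κ
  show (mx κ ≤ 1 ∧ j ≤ spt κ) ↔ ((mx κ ≤ 1 ∧ spt κ = j) ∨ (mx κ ≤ 1 ∧ j + 1 ≤ spt κ))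
  omega

theorem CS_cover : CS τ ⊆ CG τ 2 ∪ CM τ ∪ CN τ 3 := by
  intro κ h2
  have h3 : 2 ≤ spt κ := h2
  show ((mx κ ≤ 1 ∧ 2 ≤ spt κ) ∨ (mx κ = 2 ∧ 2 ≤ spt κ)) ∨ 3 ≤ mx κ
  omega

theorem mem_NE_diff {κ : τ → ℤ} (h : κ ∈ NE τ \ CS τ) :
    ∃ (i : τ) (g : ℕ), κ = Pi.single i ((g + 2 : ℕ) : ℤ) ∨ κ = -Pi.single i ((g + 2 : ℕ) : ℤ) := by
  obtain ⟨⟨h0, h1⟩, h2⟩ := h
  have h3 : ¬ 2 ≤ spt κ := h2
  have a0 : spt κ ≠ 0 := fun h => h0 (count1_spt_zero.1 h)
  have a1 : spt κ = 1 := by omega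
  obtain ⟨i, hi, hk⟩ := count1_spt_one a1
  have hm : ¬ mx κ ≤ 1 := fun h => h1 ⟨h, a1⟩
  have hb : mx κ ≤ (κ i).natAbs := by
    have := count1_mx_single i (κ i)
    rwa [← hk] at this
  refine ⟨i, (κ i).natAbs - 2, ?_⟩
  have h4 : κ i = (((κ i).natAbs - 2 + 2 : ℕ) : ℤ) ∨ κ i = -(((κ i).natAbs - 2 + 2 : ℕ) : ℤ) := by
    omega
  rcases h4 with h4 | h4
  · left
    rw [← h4]
    exact hk
  · right
    rw [count1_neg_single, ← h4]
    exact hk

private theorem count1_cs_finset {α : Type} (F : Finset α) (f : α → ℝ≥0∞) :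
    cs (F : Set α) f = ∑ x ∈ F, f x :=
  Finset.tsum_subtype' F f

private theorem count1_single_inj {i j : τ} {a b : ℤ} (ha : a ≠ 0)
    (h : (Pi.single i a : τ → ℤ) = Pi.single j b) : i = j ∧ a = b := by
  have h1 := congrFun h i
  rw [Pi.single_eq_same] at h1
  by_cases hij : i = j
  · refine ⟨hij, ?_⟩
    rw [hij, Pi.single_eq_same] at h1
    exact h1
  · rw [Pi.single_eq_of_ne hij] at h1
    exact absurd h1 ha

/-- the signed basis vectors -/
theorem cs_CU_one (f : (τ → ℤ) → ℝ≥0∞) :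
    cs (CU τ 1) f = ∑ i, (f (Pi.single i 1) + f (-Pi.single i 1)) := by
  have hinj : ∀ a : ℤ, a ≠ 0 → Function.Injective fun i : τ => (Pi.single i a : τ → ℤ) :=
    fun a ha i j h => (count1_single_inj ha h).1
  have hset : CU τ 1 = ((Finset.univ.map ⟨_, hinj 1 one_ne_zero⟩ : Finset (τ → ℤ)) : Set (τ → ℤ)) ∪
      ((Finset.univ.map ⟨_, hinj (-1) (by norm_num)⟩ : Finset (τ → ℤ)) : Set (τ → ℤ)) := by
    ext κ
    rw [mem_CU_one, Set.mem_union, Finset.mem_coe, Finset.mem_coe, Finset.mem_map, Finset.mem_map]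
    constructor
    · rintro ⟨i, h | h⟩
      · exact Or.inl ⟨i, Finset.mem_univ i, h.symm⟩
      · refine Or.inr ⟨i, Finset.mem_univ i, ?_⟩
        rw [h, count1_neg_single]
        rfl
    · rintro (⟨i, _, h⟩ | ⟨i, _, h⟩)
      · exact ⟨i, Or.inl h.symm⟩
      · refine ⟨i, Or.inr ?_⟩
        rw [count1_neg_single]
        exact h.symm
  rw [hset, cs_union, count1_cs_finset, count1_cs_finset, Finset.sum_map, Finset.sum_map,
    Finset.sum_add_distrib]
  · refine congrArg₂ (· + ·) rfl (Finset.sum_congr rfl fun i _ => ?_)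
    rw [count1_neg_single]
    rfl
  · rw [Set.disjoint_left]
    intro κ h1 h2
    rw [Finset.mem_coe, Finset.mem_map] at h1 h2
    obtain ⟨i, _, hi⟩ := h1
    obtain ⟨j, _, hj⟩ := h2
    have h3 : (Pi.single i 1 : τ → ℤ) = Pi.single j (-1) := hi.trans hj.symm
    have h4 := (count1_single_inj one_ne_zero h3).2
    omega

/-- the box of radius `n` -/
private def count1_box (τ : Type) [Fintype τ] [DecidableEq τ] (n : ℕ) : Finset (τ → ℤ) :=
  Fintype.piFinset fun _ => Finset.Icc (-(n : ℤ)) n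

private theorem count1_mem_box {n : ℕ} {κ : τ → ℤ} : κ ∈ count1_box τ n ↔ mx κ ≤ n := by
  unfold count1_box
  rw [Fintype.mem_piFinset, count1_mx_le]
  refine forall_congr' fun i => ?_
  rw [Finset.mem_Icc]
  omega

private theorem count1_card_box (n : ℕ) :
    (count1_box τ n).card = (2 * n + 1) ^ Fintype.card τ := by
  unfold count1_box
  rw [Fintype.card_piFinset, Finset.prod_const, Finset.card_univ, Int.card_Icc]
  refine congrArg (· ^ Fintype.card τ) ?_
  omega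

private theorem count1_card_CU (j : ℕ) :
    ((count1_box τ 1).filter fun κ => spt κ = j).card = 2 ^ j * (Fintype.card τ).choose j := by
  have hmap : ∀ κ ∈ (count1_box τ 1).filter fun κ => spt κ = j,
      (Finset.univ.filter fun i => κ i ≠ 0) ∈ Finset.powersetCard j (Finset.univ : Finset τ) := by
    intro κ hκ
    rw [Finset.mem_powersetCard]
    exact ⟨Finset.subset_univ _, (Finset.mem_filter.1 hκ).2⟩
  rw [Finset.card_eq_sum_card_fiberwise hmap]
  have hfib : ∀ S ∈ Finset.powersetCard j (Finset.univ : Finset τ),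
      (((count1_box τ 1).filter fun κ => spt κ = j).filter
        fun κ => (Finset.univ.filter fun i => κ i ≠ 0) = S).card = 2 ^ j := by
    intro S hS
    have hSj : S.card = j := (Finset.mem_powersetCard.1 hS).2
    have hset : (((count1_box τ 1).filter fun κ => spt κ = j).filter
        fun κ => (Finset.univ.filter fun i => κ i ≠ 0) = S) =
        Fintype.piFinset fun i => if i ∈ S then ({-1, 1} : Finset ℤ) else {0} := by
      ext κ
      rw [Finset.mem_filter, Finset.mem_filter, count1_mem_box, count1_mx_le, Fintype.mem_piFinset]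
      constructor
      · rintro ⟨⟨h1, _⟩, h3⟩ i
        have h4 : i ∈ S ↔ κ i ≠ 0 := by
          rw [← h3, Finset.mem_filter]
          exact ⟨fun h => h.2, fun h => ⟨Finset.mem_univ i, h⟩⟩
        have h5 := h1 i
        by_cases hi : i ∈ S
        · rw [if_pos hi, Finset.mem_insert, Finset.mem_singleton]
          have := h4.1 hi
          omega
        · rw [if_neg hi, Finset.mem_singleton]
          by_contra h0
          exact hi (h4.2 h0)
      · intro h
        have h4 : ∀ i, (κ i).natAbs ≤ 1 ∧ (κ i ≠ 0 ↔ i ∈ S) := by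
          intro i
          have h5 := h i
          by_cases hi : i ∈ S
          · rw [if_pos hi, Finset.mem_insert, Finset.mem_singleton] at h5
            exact ⟨by omega, fun _ => hi, fun _ => by omega⟩
          · rw [if_neg hi, Finset.mem_singleton] at h5
            exact ⟨by omega, fun h0 => absurd h5 h0, fun h0 => absurd h0 hi⟩
        have h6 : (Finset.univ.filter fun i => κ i ≠ 0) = S := by
          ext i
          rw [Finset.mem_filter]
          exact ⟨fun h => (h4 i).2.1 h.2, fun h => ⟨Finset.mem_univ i, (h4 i).2.2 h⟩⟩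
        refine ⟨⟨fun i => (h4 i).1, ?_⟩, h6⟩
        unfold spt
        rw [h6, hSj]
    rw [hset, Fintype.card_piFinset]
    have h7 : ∀ i : τ, (if i ∈ S then ({-1, 1} : Finset ℤ) else {0}).card =
        if i ∈ S then 2 else 1 := by
      intro i
      by_cases hi : i ∈ S
      · rw [if_pos hi, if_pos hi]
        rfl
      · rw [if_neg hi, if_neg hi]
        rfl
    rw [Finset.prod_congr rfl fun i _ => h7 i, Finset.prod_ite_mem, Finset.univ_inter,
      Finset.prod_const, hSj]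
  rw [Finset.sum_congr rfl hfib, Finset.sum_const, Finset.card_powersetCard, Finset.card_univ,
    smul_eq_mul, mul_comm]

private theorem count1_box_le {S : Set (τ → ℤ)} {n : ℕ} (hS : ∀ κ ∈ S, mx κ ≤ n)
    {f : (τ → ℤ) → ℝ≥0∞} {c : ℝ} (h : ∀ κ ∈ S, f κ ≤ ENNReal.ofReal c) :
    cs S f ≤ ENNReal.ofReal ((((2 * n + 1) ^ Fintype.card τ : ℕ) : ℝ) * c) := by
  refine (cs_le_cs h).trans ?_
  have hsub : S ⊆ (count1_box τ n : Set (τ → ℤ)) := fun κ hκ =>
    Finset.mem_coe.2 (count1_mem_box.2 (hS κ hκ))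
  refine (cs_mono hsub _).trans ?_
  rw [count1_cs_finset, Finset.sum_const, count1_card_box, nsmul_eq_mul,
    ENNReal.ofReal_mul (Nat.cast_nonneg _), ENNReal.ofReal_natCast]

theorem cs_CU_const (j : ℕ) (c : ℝ≥0∞) :
    cs (CU τ j) (fun _ => c) = ((2 ^ j * (Fintype.card τ).choose j : ℕ) : ℝ≥0∞) * c := by
  have hset : CU τ j = (((count1_box τ 1).filter fun κ => spt κ = j : Finset (τ → ℤ)) :
      Set (τ → ℤ)) := by
    ext κ
    rw [Finset.mem_coe, Finset.mem_filter, count1_mem_box]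
    rfl
  rw [hset, count1_cs_finset, Finset.sum_const, count1_card_CU, nsmul_eq_mul]

theorem card_CU (j a : ℕ) : ((2 ^ j * a.choose j : ℕ) : ℝ) = 2 ^ j / j.factorial * ff j a := by
  unfold ff
  rw [Nat.descFactorial_eq_factorial_mul_choose]
  have h : (j.factorial : ℝ) ≠ 0 := Nat.cast_ne_zero.2 (Nat.factorial_ne_zero j)
  push_cast
  field_simp

theorem cs_CU_le {j : ℕ} {f : (τ → ℤ) → ℝ≥0∞} {c : ℝ} (hc : 0 ≤ c)
    (h : ∀ κ ∈ CU τ j, f κ ≤ ENNReal.ofReal c) :
    cs (CU τ j) f ≤ ENNReal.ofReal (2 ^ j / j.factorial * ff j (Fintype.card τ) * c) := by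
  refine (cs_le_cs h).trans ?_
  rw [cs_CU_const, ← card_CU, ENNReal.ofReal_mul (Nat.cast_nonneg _), ENNReal.ofReal_natCast]

theorem cs_CG_le {j : ℕ} {f : (τ → ℤ) → ℝ≥0∞} {c : ℝ} (hc : 0 ≤ c)
    (h : ∀ κ ∈ CG τ j, f κ ≤ ENNReal.ofReal c) :
    cs (CG τ j) f ≤ ENNReal.ofReal (3 ^ Fintype.card τ * c) := by
  have h1 := count1_box_le (n := 1) (fun κ hκ => hκ.1) h
  have h2 : (((2 * 1 + 1) ^ Fintype.card τ : ℕ) : ℝ) = 3 ^ Fintype.card τ := by
    push_cast
    norm_num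
  rwa [h2] at h1

theorem cs_CM_le {f : (τ → ℤ) → ℝ≥0∞} {c : ℝ} (hc : 0 ≤ c)
    (h : ∀ κ ∈ CM τ, f κ ≤ ENNReal.ofReal c) :
    cs (CM τ) f ≤ ENNReal.ofReal (5 ^ Fintype.card τ * c) := by
  have h1 := count1_box_le (n := 2) (fun κ hκ => le_of_eq hκ.1) h
  have h2 : (((2 * 2 + 1) ^ Fintype.card τ : ℕ) : ℝ) = 5 ^ Fintype.card τ := by
    push_cast
    norm_num
  rwa [h2] at h1

end Pool.Agent.Eps.P
end
end

-- part Pool.Agent.Lib.MP_3bda03_nt.P.Count
section

/-!
Counting coefficient vectors.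
-/

set_option autoImplicit false

noncomputable section

open MeasureTheory Matrix
open scoped ENNReal

namespace Pool.Agent.Eps.P

open Pool.Agent.Eps.H

variable {τ : Type} [Fintype τ] [DecidableEq τ]

theorem count_le_mx (κ : τ → ℤ) (i : τ) : (κ i).natAbs ≤ mx κ :=
  Finset.le_sup (f := fun i => (κ i).natAbs) (Finset.mem_univ i)

theorem count_box {S : Set (τ → ℤ)} {m : ℕ} (hS : ∀ κ ∈ S, mx κ ≤ m) {f : (τ → ℤ) → ℝ≥0∞}
    {c : ℝ≥0∞} (h : ∀ κ ∈ S, f κ ≤ c) :
    cs S f ≤ (((2 * m + 1) ^ Fintype.card τ : ℕ) : ℝ≥0∞) * c := by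
  have h1 : S ⊆ (Fintype.piFinset fun _ : τ => Finset.Icc (-(m : ℤ)) m : Finset (τ → ℤ)) := by
    intro κ hκ
    rw [Finset.mem_coe, Fintype.mem_piFinset]
    intro i
    have := (count_le_mx κ i).trans (hS κ hκ)
    rw [Finset.mem_Icc]
    omega
  refine (ENNReal.tsum_le_tsum fun x : S => h x.1 x.2).trans
    ((ENNReal.tsum_mono_subtype (fun _ => c) h1).trans (le_of_eq ?_))
  rw [Finset.tsum_subtype' _ fun _ => c, Finset.sum_const, nsmul_eq_mul, Fintype.card_piFinset,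
    Finset.prod_const, Finset.card_univ, Int.card_Icc]
  congr 3
  omega

theorem count_step {g : ℕ} {m : ℝ} (hm : 0 < m) :
    ((g : ℝ) / (m + 1)) ^ (g + 1) ≤ (g / m) ^ g - (g / (m + 1)) ^ g := by
  have h1 : (g : ℝ) / m = g / (m + 1) * (1 + 1 / m) := by field_simp
  have h2 : 1 + (g : ℝ) * (1 / m) ≤ (1 + 1 / m) ^ g :=
    one_add_mul_le_pow (by have := one_div_pos.2 hm; linarith) g
  have h3 : (g : ℝ) / (m + 1) ≤ g * (1 / m) := by
    rw [mul_one_div]
    exact div_le_div_of_nonneg_left (Nat.cast_nonneg g) hm (by linarith)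
  have h4 : 0 ≤ ((g : ℝ) / (m + 1)) ^ g := by positivity
  rw [h1, mul_pow, pow_succ]
  nlinarith [mul_le_mul_of_nonneg_left h2 h4, mul_le_mul_of_nonneg_left h3 h4]

theorem count_sum {g : ℕ} (hg : 1 ≤ g) (N : ℕ) :
    ∑ n ∈ Finset.range N, ((g : ℝ) / (g + n)) ^ (g + 1) ≤ 2 := by
  have hg' : (0 : ℝ) < g := by exact_mod_cast hg
  have key : ∀ N : ℕ, ∑ n ∈ Finset.range (N + 1), ((g : ℝ) / (g + n)) ^ (g + 1) ≤
      2 - ((g : ℝ) / (g + N)) ^ g := by
    intro N
    induction N with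
    | zero => simp [div_self hg'.ne']; norm_num
    | succ N ih =>
      rw [Finset.sum_range_succ]
      have := count_step (g := g) (m := g + N) (by positivity)
      push_cast
      rw [← add_assoc]
      linarith
  rcases N with _ | N
  · simp
  · exact (key N).trans (sub_le_self _ (by positivity))

theorem count_amgm {a b u v : ℝ≥0∞} (hu : u ≠ 0) (hu' : u ≠ ∞) (hv : v ≠ 0) (hv' : v ≠ ∞) :
    2 * (a * b) ≤ u * (b ^ 2 / v) + v * (a ^ 2 / u) := by
  rcases eq_or_ne a ∞ with rfl | ha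
  · simp [ENNReal.top_div_of_ne_top hu', ENNReal.mul_top hv]
  rcases eq_or_ne b ∞ with rfl | hb
  · simp [ENNReal.top_div_of_ne_top hv', ENNReal.mul_top hu]
  lift a to NNReal using ha
  lift b to NNReal using hb
  lift u to NNReal using hu'
  lift v to NNReal using hv'
  have h1 : u ≠ 0 := by exact_mod_cast hu
  have h2 : v ≠ 0 := by exact_mod_cast hv
  rw [← ENNReal.coe_pow, ← ENNReal.coe_pow, ← ENNReal.coe_div h1, ← ENNReal.coe_div h2]
  norm_cast
  rw [← NNReal.coe_le_coe]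
  push_cast
  have h3 : (0 : ℝ) < u := by positivity
  have h4 : (0 : ℝ) < v := by positivity
  rw [← sub_nonneg]
  have : (u : ℝ) * (b ^ 2 / v) + v * (a ^ 2 / u) - 2 * (a * b) = (u * b - v * a) ^ 2 / (u * v) := by
    field_simp
    ring
  rw [this]
  positivity

/-- vectors with a large entry -/
theorem cs_CN_le {g : ℕ} (hg : 2 ≤ g) {f : (τ → ℤ) → ℝ≥0∞} {c p : ℝ} (hc : 0 ≤ c)
    (hp : (Fintype.card τ : ℝ) + g + 1 ≤ p)
    (h : ∀ κ ∈ CN τ g, f κ ≤ ENNReal.ofReal (c * ((g : ℝ) / mx κ) ^ p)) :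
    cs (CN τ g) f ≤ ENNReal.ofReal (2 * (2 * g + 1) ^ Fintype.card τ * c) := by
  have hg' : (0 : ℝ) < g := by exact_mod_cast (by omega : 0 < g)
  have h1 : CN τ g ⊆ ⋃ n : ℕ, {κ | mx κ = g + n} := fun κ hκ =>
    Set.mem_iUnion.2 (Nat.exists_eq_add_of_le hκ)
  refine (ENNReal.tsum_mono_subtype f h1).trans ((ENNReal.tsum_iUnion_le_tsum f _).trans ?_)
  have h2 : ∀ n : ℕ, cs {κ : τ → ℤ | mx κ = g + n} f ≤ ENNReal.ofReal
      ((2 * g + 1) ^ Fintype.card τ * c * ((g : ℝ) / (g + n)) ^ (g + 1)) := by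
    intro n
    have hn : (0 : ℝ) ≤ n := Nat.cast_nonneg n
    refine (count_box (m := g + n) (fun κ hκ => le_of_eq hκ)
      (c := ENNReal.ofReal (c * ((g : ℝ) / (g + n)) ^ p)) fun κ hκ => ?_).trans ?_
    · have := h κ (show g ≤ mx κ by rw [hκ]; omega)
      rwa [show mx κ = g + n from hκ, Nat.cast_add] at this
    rw [← ENNReal.ofReal_natCast, ← ENNReal.ofReal_mul (Nat.cast_nonneg _)]
    refine ENNReal.ofReal_le_ofReal ?_
    have h3 : 0 < (g : ℝ) / (g + n) := by positivity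
    have h4 : (g : ℝ) / (g + n) ≤ 1 := (div_le_one (by positivity)).2 (by linarith)
    have h5 : ((g : ℝ) / (g + n)) ^ p ≤ ((g : ℝ) / (g + n)) ^ (Fintype.card τ + (g + 1)) := by
      rw [← Real.rpow_natCast]
      refine Real.rpow_le_rpow_of_exponent_ge h3 h4 ?_
      push_cast
      linarith
    have h6 : (2 * ((g : ℝ) + n) + 1) * (g / (g + n)) ≤ 2 * g + 1 := by
      rw [← mul_div_assoc, div_le_iff₀ (by positivity)]
      nlinarith
    have h7 := pow_le_pow_left₀ (by positivity) h6 (Fintype.card τ)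
    push_cast
    calc (2 * ((g : ℝ) + n) + 1) ^ Fintype.card τ * (c * ((g : ℝ) / (g + n)) ^ p)
        ≤ (2 * ((g : ℝ) + n) + 1) ^ Fintype.card τ *
          (c * ((g : ℝ) / (g + n)) ^ (Fintype.card τ + (g + 1))) := by gcongr
      _ = ((2 * ((g : ℝ) + n) + 1) * (g / (g + n))) ^ Fintype.card τ * c *
          ((g : ℝ) / (g + n)) ^ (g + 1) := by rw [pow_add, mul_pow]; ring
      _ ≤ _ := by gcongr
  refine (ENNReal.tsum_le_tsum h2).trans (ENNReal.tsum_le_of_sum_range_le fun N => ?_)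
  rw [← ENNReal.ofReal_sum_of_nonneg fun n _ => by positivity, ← Finset.mul_sum]
  refine ENNReal.ofReal_le_ofReal ?_
  have h8 : (0 : ℝ) ≤ (2 * g + 1) ^ Fintype.card τ * c := by positivity
  nlinarith [mul_le_mul_of_nonneg_left (count_sum (by omega : 1 ≤ g) N) h8]

/-- weighted Cauchy-Schwarz inequality -/
theorem cs_sq_le {α : Type} (S : Set α) (f w : α → ℝ≥0∞) (h0 : ∀ x ∈ S, w x ≠ 0)
    (h1 : ∀ x ∈ S, w x ≠ ∞) : cs S f ^ 2 ≤ cs S w * cs S fun x => f x ^ 2 / w x := by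
  rw [← ENNReal.mul_le_mul_iff_right two_ne_zero ENNReal.ofNat_ne_top]
  have e : ∀ a b : α → ℝ≥0∞, cs S a * cs S b = ∑' x : S, ∑' y : S, a x.1 * b y.1 := fun a b => by
    simp only [cs, ENNReal.tsum_mul_left, ENNReal.tsum_mul_right]
  rw [sq, e, ← ENNReal.tsum_mul_left, two_mul (_ * _)]
  nth_rewrite 2 [mul_comm (cs S w)]
  rw [e, e, ← ENNReal.tsum_add]
  refine ENNReal.tsum_le_tsum fun x => ?_
  rw [← ENNReal.tsum_mul_left, ← ENNReal.tsum_add]
  refine ENNReal.tsum_le_tsum fun y => ?_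
  rw [mul_comm _ (w y.1)]
  exact count_amgm (h0 _ x.2) (h1 _ x.2) (h0 _ y.2) (h1 _ y.2)

/-- power mean inequality on a finite class -/
theorem cs_CU_pow_le (j p : ℕ) (f : (τ → ℤ) → ℝ≥0∞) :
    cs (CU τ j) f ^ (p + 1) ≤
      ENNReal.ofReal (2 ^ j / j.factorial * ff j (Fintype.card τ)) ^ p *
        cs (CU τ j) fun κ => f κ ^ (p + 1) := by
  have hf : (CU τ j).Finite := by
    refine (Fintype.piFinset fun _ : τ => Finset.Icc (-1 : ℤ) 1).finite_toSet.subset fun κ hκ => ?_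
    rw [Finset.mem_coe, Fintype.mem_piFinset]
    intro i
    have := (count_le_mx κ i).trans hκ.1
    rw [Finset.mem_Icc]
    omega
  have h1 := cs_CU_const (τ := τ) j 1
  rw [← card_CU, ENNReal.ofReal_natCast, ← mul_one ((_ : ℕ) : ℝ≥0∞), ← h1]
  obtain ⟨s, hs⟩ := hf.exists_finset_coe
  have e : ∀ a : (τ → ℤ) → ℝ≥0∞, cs (CU τ j) a = ∑ x ∈ s, a x := fun a => by
    rw [← hs, cs, Finset.tsum_subtype']
  rw [e, e, e, Finset.sum_const, nsmul_eq_mul, mul_one]
  have h2 := ENNReal.rpow_sum_le_const_mul_sum_rpow s f (p := ((p + 1 : ℕ) : ℝ))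
    (by exact_mod_cast Nat.succ_pos p)
  simp only [ENNReal.rpow_natCast] at h2
  rwa [Nat.cast_add, Nat.cast_one, add_sub_cancel_right, ENNReal.rpow_natCast] at h2

theorem cs_CG_sq_le (j : ℕ) (f : (τ → ℤ) → ℝ≥0∞) :
    cs (CG τ j) f ^ 2 ≤ 3 ^ Fintype.card τ * cs (CG τ j) fun κ => f κ ^ 2 := by
  have h1 := cs_sq_le (CG τ j) f (fun _ => 1) (fun _ _ => one_ne_zero) fun _ _ => ENNReal.one_ne_top
  have h2 := count_box (S := CG τ j) (m := 1) (fun κ hκ => hκ.1) (f := fun _ => 1) (c := 1)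
    fun _ _ => le_rfl
  simp only [div_one] at h1
  refine h1.trans (mul_le_mul_left (h2.trans (le_of_eq ?_)) _)
  simp

/-- a list of distinct indices in the support that ends with a given index when possible -/
theorem exists_list {κ : τ → ℤ} {j : ℕ} (h : j + 1 ≤ spt κ) (i : τ) :
    ∃ (l : List τ) (k : τ), l.length = j ∧ (l ++ [k]).Nodup ∧ (∀ x ∈ l ++ [k], κ x ≠ 0) ∧
      i ∉ l ∧ (κ i ≠ 0 → k = i) ∧ (spt κ = j + 1 → ∀ x, x ∉ l ++ [k] → κ x = 0) := by
  obtain ⟨k, hk, hki⟩ : ∃ k, κ k ≠ 0 ∧ (κ i ≠ 0 → k = i) := by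
    by_cases hi : κ i = 0
    · obtain ⟨k, hk⟩ := Finset.card_pos.1 (Nat.lt_of_lt_of_le (Nat.succ_pos j) h)
      exact ⟨k, (Finset.mem_filter.1 hk).2, fun h => absurd hi h⟩
    · exact ⟨i, hi, fun _ => rfl⟩
  have h1 : ((Finset.univ.filter fun i => κ i ≠ 0).erase k).card = spt κ - 1 :=
    Finset.card_erase_of_mem (Finset.mem_filter.2 ⟨Finset.mem_univ k, hk⟩)
  obtain ⟨t, ht, hc⟩ := Finset.exists_subset_card_eq
    (s := (Finset.univ.filter fun i => κ i ≠ 0).erase k) (n := j) (by omega)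
  have h2 : ∀ x ∈ t, x ≠ k ∧ κ x ≠ 0 := fun x hx => by simpa using ht hx
  refine ⟨t.toList, k, by rw [Finset.length_toList, hc], ?_, ?_, ?_, hki, ?_⟩
  · rw [List.nodup_append]
    refine ⟨t.nodup_toList, List.nodup_singleton k, fun a ha b hb => ?_⟩
    rw [List.mem_singleton.1 hb]
    exact (h2 a (Finset.mem_toList.1 ha)).1
  · intro x hx
    rcases List.mem_append.1 hx with hx | hx
    · exact (h2 x (Finset.mem_toList.1 hx)).2
    · rw [List.mem_singleton.1 hx]; exact hk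
  · intro hi
    obtain ⟨h3, h4⟩ := h2 i (Finset.mem_toList.1 hi)
    exact h3 (hki h4).symm
  · intro hs x hx
    by_contra h3
    have h4 := Finset.eq_of_subset_of_card_le ht (by omega)
    rw [List.mem_append, Finset.mem_toList, List.mem_singleton, not_or, h4] at hx
    exact hx.1 (Finset.mem_erase.2 ⟨hx.2, Finset.mem_filter.2 ⟨Finset.mem_univ x, h3⟩⟩)

theorem exists_mx {κ : τ → ℤ} (h : 1 ≤ mx κ) : ∃ i, (κ i).natAbs = mx κ := by
  rcases (Finset.univ : Finset τ).eq_empty_or_nonempty with h1 | h1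
  · rw [mx, h1] at h
    simp at h
  · obtain ⟨i, -, hi⟩ := Finset.exists_mem_eq_sup _ h1 fun i => (κ i).natAbs
    exact ⟨i, hi.symm⟩

theorem le_mx (κ : τ → ℤ) (i : τ) : (κ i).natAbs ≤ mx κ := by
  exact count_le_mx κ i

/-- a symmetric set without zero is counted twice -/
theorem ind_le_half {S : Set (τ → ℤ)} (h0 : (0 : τ → ℤ) ∉ S) (hS : ∀ κ ∈ S, -κ ∈ S)
    {f : (τ → ℤ) → ℝ≥0∞} (hf : ∀ κ, f (-κ) = f κ) {κ : τ → ℤ} (hκ : κ ∈ S) :
    2 * f κ ≤ cs S f := by
  have h1 : (⟨κ, hκ⟩ : S) ≠ ⟨-κ, hS κ hκ⟩ := by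
    intro h
    have h2 : κ = 0 := funext fun i => by
      have := congrFun (Subtype.ext_iff.1 h) i
      simp only [Pi.neg_apply] at this
      simp only [Pi.zero_apply]
      omega
    exact h0 (h2 ▸ hκ)
  classical
  have h3 := ENNReal.sum_le_tsum (f := fun x : S => f x.1) {⟨κ, hκ⟩, ⟨-κ, hS κ hκ⟩}
  rwa [Finset.sum_pair h1, hf, ← two_mul] at h3

end Pool.Agent.Eps.P
end
end
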