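import Pool.Agent.Lib.MP_3bda03_nt.H.Rogers

/-!
Mean values over lattices whose dual contains a given primitive frame.
-/

set_option autoImplicit false
set_option linter.unusedSectionVars false

noncomputable section

open MeasureTheory Matrix
open scoped ENNReal

namespace Pool.Agent.Eps.P

open Pool.Agent.Eps.H

variable {α β ι τ σ ρ : Type} [Fintype α] [DecidableEq α] [Fintype β] [DecidableEq β] [Fintype ι]
  [DecidableEq ι] [Fintype τ] [Fintype σ] [Fintype ρ]

theorem mf_ind_iff (Y : Matrix τ ι ℤ) : Ind Y ↔ ∀ c : τ → ℤ, c ᵥ* Y = 0 → c = 0 := by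
  unfold Ind
  rw [Fintype.linearIndependent_iff]
  refine forall_congr' fun c => ?_
  rw [Matrix.vecMul_eq_sum, funext_iff (f := c)]
  rfl

theorem mf_ind_gl [DecidableEq τ] (U : GL τ ℤ) (Y : Matrix τ ι ℤ) : Ind (U.val * Y) ↔ Ind Y := by
  have k : ∀ (U : GL τ ℤ) (Y : Matrix τ ι ℤ), Ind Y → Ind (U.val * Y) := fun U Y h =>
    (mf_ind_iff _).2 fun c hc => by
      have h1 := (mf_ind_iff _).1 h _ (by rwa [← Matrix.vecMul_vecMul] at hc)
      have h2 := congrArg (· ᵥ* (U⁻¹).val) h1
      simpa only [Matrix.vecMul_vecMul, Units.mul_inv, Matrix.vecMul_one, Matrix.zero_vecMul]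
        using h2
  refine ⟨fun h => ?_, k U Y⟩
  have := k U⁻¹ _ h
  rwa [← Matrix.mul_assoc, Units.inv_mul, Matrix.one_mul] at this

/-- row reduction -/
theorem mf_reduce [DecidableEq τ] (m : Matrix τ α ℤ) : ∃ (U : GL τ ℤ) (p : τ → Prop),
    (∀ i, p i → (U.val * m) i = 0) ∧
      ∀ c : τ → ℤ, c ᵥ* (U.val * m) = 0 → ∀ i, ¬ p i → c i = 0 := by
  obtain ⟨n, s⟩ := (LinearMap.ker m.vecMulLinear).smithNormalForm (Pi.basisFun ℤ τ)
  have hU : IsUnit ((Pi.basisFun ℤ τ).toMatrix s.bM)ᵀ :=
    (Matrix.isUnit_transpose _).2 (by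
      have := (Pi.basisFun ℤ τ).invertibleToMatrix s.bM
      exact isUnit_of_invertible _)
  have hr : ∀ i, hU.unit.val i = s.bM i := fun i => funext fun j => by
    simp [Module.Basis.toMatrix_apply]
  refine ⟨hU.unit, fun i => i ∈ Set.range s.f, ?_, fun c hc i hi => ?_⟩
  · rintro _ ⟨j, rfl⟩
    have h1 : (s.bN j).1 ᵥ* m = 0 := (s.bN j).2
    have h2 : s.a j ≠ 0 := fun h => s.bN.ne_zero j (Subtype.ext (by rw [s.snf, h, zero_smul]; rfl))
    rw [s.snf, Matrix.smul_vecMul, smul_eq_zero, ← hr] at h1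
    exact h1.resolve_left h2
  · rw [← Matrix.vecMul_vecMul] at hc
    have h1 : s.bM.repr (c ᵥ* hU.unit.val) i = 0 :=
      s.repr_eq_zero_of_notMem_range ⟨c ᵥ* hU.unit.val, hc⟩ hi
    have h2 : c ᵥ* hU.unit.val = ∑ j, c j • s.bM j := by
      rw [Matrix.vecMul_eq_sum]
      exact Finset.sum_congr rfl fun j _ => by rw [hr]
    rwa [h2, s.bM.repr_sum_self] at h1

/-- gluing rows -/
def mfRows {R : Type} (d : σ ⊕ ρ ≃ τ) (A : Matrix σ β R) (B : Matrix ρ β R) : Matrix τ β R :=
  Matrix.of fun k j => Sum.elim (fun a => A a j) (fun b => B b j) (d.symm k)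

/-- splitting rows -/
def mfEquiv (d : σ ⊕ ρ ≃ τ) : Matrix ρ β ℤ × Matrix σ β ℤ ≃ Matrix τ β ℤ where
  toFun p := mfRows d p.2 p.1
  invFun Y := (Y.submatrix (fun b => d (Sum.inr b)) id, Y.submatrix (fun a => d (Sum.inl a)) id)
  left_inv p := by
    ext k j <;> simp [mfRows]
  right_inv Y := by
    ext k j
    obtain ⟨s, rfl⟩ := d.surjective k
    cases s <;> simp [mfRows]

theorem mf_meas_rows {Ω : Type} [MeasurableSpace Ω] (d : σ ⊕ ρ ≃ τ) {f : Ω → Matrix σ β ℝ}
    {g : Ω → Matrix ρ β ℝ} (hf : Measurable f) (hg : Measurable g) :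
    Measurable fun x => mfRows d (f x) (g x) :=
  (mp_rows (ι := β) d).measurable.comp (hf.prodMk hg)

theorem mf_meas_arg {Ω : Type} [MeasurableSpace Ω] (m : Matrix τ α ℤ) (l : Matrix τ β ℤ)
    {g : Ω → Matrix β β ℝ} {t : Ω → Matrix β α ℝ} (hg : Measurable g) (ht : Measurable t) :
    Measurable fun x => (cz l - cz m * (t x)ᵀ) * dual (g x) := by
  refine Measurable.mxmul ?_ (fr_mc measurable_dual hg)
  have : Measurable fun x => cz m * (t x)ᵀ :=
    Measurable.mxmul measurable_const (fr_mc mp_transpose.measurable ht)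
  exact measurable_mx.2 fun a i => measurable_const.sub (measurable_mx.1 this a i)

theorem mf_vec_cols (e : α ⊕ β ≃ ι) (m : Matrix τ α ℤ) (l : Matrix τ β ℤ) (c : τ → ℤ) :
    c ᵥ* rogers_cols e m l = 0 ↔ c ᵥ* m = 0 ∧ c ᵥ* l = 0 := by
  constructor
  · intro h
    refine ⟨funext fun a => ?_, funext fun b => ?_⟩
    · simpa [rogers_cols, Matrix.vecMul, dotProduct] using congrFun h (e (Sum.inl a))
    · simpa [rogers_cols, Matrix.vecMul, dotProduct] using congrFun h (e (Sum.inr b))
  · rintro ⟨h1, h2⟩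
    funext j
    obtain ⟨s, rfl⟩ := e.surjective j
    cases s with
    | inl a => simpa [rogers_cols, Matrix.vecMul, dotProduct] using congrFun h1 a
    | inr b => simpa [rogers_cols, Matrix.vecMul, dotProduct] using congrFun h2 b

theorem mf_vec_rows (d : σ ⊕ ρ ≃ τ) (A : Matrix σ β ℤ) (B : Matrix ρ β ℤ) (c : τ → ℤ) :
    c ᵥ* mfRows d A B = (fun a => c (d (Sum.inl a))) ᵥ* A + (fun b => c (d (Sum.inr b))) ᵥ* B := by
  funext j
  simp only [Matrix.vecMul, dotProduct, Pi.add_apply]
  rw [← d.sum_comp, Fintype.sum_sum_type]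
  simp [mfRows]

theorem mf_ind_rows (e : α ⊕ β ≃ ι) (d : σ ⊕ ρ ≃ τ) {m : Matrix σ α ℤ} (hm : Ind m)
    (A : Matrix σ β ℤ) (B : Matrix ρ β ℤ) :
    Ind (rogers_cols e (mfRows d m 0) (mfRows d A B)) ↔ Ind B := by
  simp only [mf_ind_iff, mf_vec_cols, mf_vec_rows, Matrix.vecMul_zero, add_zero] at hm ⊢
  constructor
  · intro h c hc
    have := h (fun k => Sum.elim 0 c (d.symm k)) (by
      simp only [Equiv.symm_apply_apply, Sum.elim_inl, Sum.elim_inr]
      exact ⟨Matrix.zero_vecMul _, by rw [hc, add_zero]; exact Matrix.zero_vecMul _⟩)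
    funext b
    simpa using congrFun this (d (Sum.inr b))
  · rintro h c ⟨h1, h2⟩
    have h3 := hm _ h1
    rw [h3, Matrix.zero_vecMul, zero_add] at h2
    have h4 := h _ h2
    funext k
    obtain ⟨s, rfl⟩ := d.surjective k
    cases s with
    | inl a => exact congrFun h3 a
    | inr b => exact congrFun h4 b

theorem mf_right {H : Matrix β β ℝ} (hd : |H.det| = 1) (G : Matrix σ β ℝ → ℝ≥0∞)
    (hG : Measurable G) : ∫⁻ s : Matrix σ β ℝ, G (s * H) = ∫⁻ s, G s := by
  have hne : H.det ≠ 0 := fun h0 => by simp [h0] at hd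
  have h4 := map_mul_right (α := σ) H hne
  rw [hd, one_pow, inv_one, ENNReal.ofReal_one, one_smul] at h4
  have hH : Measurable fun W : Matrix σ β ℝ => W * H :=
    Measurable.mxmul measurable_id measurable_const
  have h5 := lintegral_map (μ := (volume : Measure (Matrix σ β ℝ))) hG hH
  rw [h4] at h5
  exact h5.symm

theorem mf_core0 (e : α ⊕ β ≃ ι) (d : σ ⊕ ρ ≃ τ) (h : Fintype.card ρ < Fintype.card β)
    {m : Matrix σ α ℤ} (hm : Ind m) (G : Matrix τ β ℝ → ℝ≥0∞) (hG : Measurable G) :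
    ∫⁻ g, (∫⁻ t in cube β α, ∑' l : Matrix τ β ℤ,
      rogers_on (Ind (rogers_cols e (mfRows d m 0) l))
        (G ((cz l - cz (mfRows d m 0) * tᵀ) * dual g))) ∂mu β = ∫⁻ z, G z := by
  have hL : Measurable fun p : Matrix σ β ℝ × Matrix ρ β ℝ => G (mfRows d p.1 p.2) :=
    hG.comp (mf_meas_rows d measurable_fst measurable_snd)
  have h1 : ∀ g : Matrix β β ℝ, |g.det| = 1 → ∫⁻ t in cube β α, ∑' l : Matrix τ β ℤ,
      rogers_on (Ind (rogers_cols e (mfRows d m 0) l))
        (G ((cz l - cz (mfRows d m 0) * tᵀ) * dual g)) =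
      ∑' B : {B : Matrix ρ β ℤ // Ind B}, ∫⁻ s, G (mfRows d s (cz B.1 * dual g)) := by
    intro g hg
    have h2 : ∀ t : Matrix β α ℝ, ∑' l : Matrix τ β ℤ,
        rogers_on (Ind (rogers_cols e (mfRows d m 0) l))
          (G ((cz l - cz (mfRows d m 0) * tᵀ) * dual g)) =
        ∑' B : Matrix ρ β ℤ, rogers_on (Ind B) (∑' A : Matrix σ β ℤ,
          G (mfRows d ((cz A - cz m * tᵀ) * dual g) (cz B * dual g))) := by
      intro t
      rw [← (mfEquiv d).tsum_eq, ENNReal.tsum_prod']
      refine tsum_congr fun B => ?_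
      rw [← rogers_on_tsum]
      refine tsum_congr fun A => ?_
      change rogers_on (Ind (rogers_cols e (mfRows d m 0) (mfRows d A B)))
        (G ((cz (mfRows d A B) - cz (mfRows d m 0) * tᵀ) * dual g)) = _
      rw [rogers_on_congr (mf_ind_rows e d hm A B)]
      congr 2
      ext k j
      obtain ⟨s, rfl⟩ := d.surjective k
      cases s <;> simp [mfRows, cz, Matrix.mul_apply]
    have hK : ∀ B : Matrix ρ β ℤ, Measurable fun s : Matrix σ β ℝ =>
        G (mfRows d s (cz B * dual g)) := fun B =>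
      hG.comp (mf_meas_rows d measurable_id measurable_const)
    rw [lintegral_congr h2, lintegral_tsum, rogers_sub Ind
      fun B : Matrix ρ β ℤ => ∫⁻ s, G (mfRows d s (cz B * dual g))]
    · refine tsum_congr fun B => ?_
      rw [rogers_on_lintegral, equi' m hm (fun s => G (mfRows d (s * dual g) (cz B * dual g)))
        ((hK B).comp (Measurable.mxmul measurable_id measurable_const)),
        mf_right (by rw [det_dual, abs_inv, hg, inv_one]) _ (hK B)]
    · intro B
      refine (rogers_on_measurable _ (Measurable.tsum fun A => ?_)).aemeasurable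
      have := fr_mc (hK B) (mf_meas_arg m A (measurable_const (a := g)) measurable_id)
      exact this
  rw [lintegral_congr_ae (ae_mu_det.mono h1),
    rogers_dual h (fun W => ∫⁻ s, G (mfRows d s W)) hL.lintegral_prod_left',
    ← lintegral_prod_symm' _ hL]
  exact (mp_rows (ι := β) d).lintegral_comp hG

theorem mf_core (e : α ⊕ β ≃ ι) (h : Fintype.card τ < Fintype.card β) (m : Matrix τ α ℤ)
    (G : Matrix τ β ℝ → ℝ≥0∞) (hG : Measurable G) :
    ∫⁻ g, (∫⁻ t in cube β α, ∑' l : Matrix τ β ℤ, rogers_on (Ind (rogers_cols e m l))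
      (G ((cz l - cz m * tᵀ) * dual g))) ∂mu β = ∫⁻ z, G z := by
  classical
  obtain ⟨U, p, h0, h1⟩ := mf_reduce m
  let d : {i // ¬ p i} ⊕ {i // p i} ≃ τ := (Equiv.sumComm _ _).trans (Equiv.sumCompl p)
  let m' : Matrix {i // ¬ p i} α ℤ := (U.val * m).submatrix Subtype.val id
  have e1 : mfRows d m' 0 = U.val * m := by
    ext k j
    obtain ⟨s, rfl⟩ := d.surjective k
    cases s with
    | inl a => simp only [mfRows, Matrix.of_apply, Equiv.symm_apply_apply]; rfl
    | inr b =>
      simp only [mfRows, Matrix.of_apply, Equiv.symm_apply_apply]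
      exact (congrFun (h0 b.1 b.2) j).symm
  have hm : Ind m' := (mf_ind_iff _).2 fun c hc => funext fun a => by
    have := h1 (fun k => Sum.elim c 0 (d.symm k)) (by
      rw [← e1, mf_vec_rows]
      simp only [Equiv.symm_apply_apply, Sum.elim_inl, Matrix.vecMul_zero, add_zero]
      exact hc) a.1 a.2
    rwa [show a.1 = d (Sum.inl a) from rfl, Equiv.symm_apply_apply] at this
  have hA : Measurable fun z : Matrix τ β ℝ => cz (U⁻¹).val * z :=
    Measurable.mxmul measurable_const measurable_id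
  have h2 := mf_core0 e d ((Fintype.card_subtype_le p).trans_lt h) hm _ (hG.comp hA)
  have hd := abs_det_cz U⁻¹
  have h4 := map_mul_left (ι := β) (cz (U⁻¹).val)
    (fun h0 => by rw [h0, abs_zero] at hd; exact zero_ne_one hd)
  rw [hd, one_pow, inv_one, ENNReal.ofReal_one, one_smul] at h4
  have h5 := lintegral_map (μ := (volume : Measure (Matrix τ β ℝ))) hG hA
  rw [h4] at h5
  refine Eq.trans ?_ (h2.trans h5.symm)
  rw [e1]
  refine lintegral_congr fun g => lintegral_congr fun t => ?_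
  let E : Matrix τ β ℤ ≃ Matrix τ β ℤ :=
    ⟨fun l => U.val * l, fun l => (U⁻¹).val * l,
      fun l => by simp only [← Matrix.mul_assoc, Units.inv_mul, Matrix.one_mul],
      fun l => by simp only [← Matrix.mul_assoc, Units.mul_inv, Matrix.one_mul]⟩
  refine (tsum_congr fun l => ?_).trans (E.tsum_eq _)
  have e2 : rogers_cols e (U.val * m) (U.val * l) = U.val * rogers_cols e m l := by
    ext k j
    obtain ⟨s, rfl⟩ := e.surjective j
    cases s <;> simp [rogers_cols, Matrix.mul_apply]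
  change _ = rogers_on (Ind (rogers_cols e (U.val * m) (U.val * l)))
    (G (cz (U⁻¹).val * ((cz (U.val * l) - cz (U.val * m) * tᵀ) * dual g)))
  rw [e2, rogers_on_congr (mf_ind_gl U _), ← Matrix.mul_assoc, Matrix.mul_sub,
    ← Matrix.mul_assoc, ← cz_mul, ← cz_mul, ← Matrix.mul_assoc, ← Matrix.mul_assoc,
    Units.inv_mul, Matrix.one_mul, Matrix.one_mul]

/-- Independent tuples of a lattice whose dual contains the primitive frame `X` are distributed
like independent points of the layer measure. -/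
theorem mform (e : α ⊕ β ≃ ι) {X : Matrix α ι ℝ} (hX : (blk e X).det ≠ 0)
    (h : Fintype.card τ < Fintype.card β) (F : Matrix τ ι ℝ → ℝ≥0∞) (hF : Measurable F) :
    ∫⁻ g, (∫⁻ t in cube β α, ∑' Y : {Y : Matrix τ ι ℤ // Ind Y},
      F (cz Y.1 * dual (lift e X t g))) ∂mu β =
    ∑' m : Matrix τ α ℤ, ∫⁻ z : Matrix τ β ℝ,
      F (Matrix.of fun i => layer e X (cv (m i)) (z i)) := by
  have : Nonempty β := Fintype.card_pos_iff.1 (by omega)
  have hG : ∀ m : Matrix τ α ℤ, Measurable fun z : Matrix τ β ℝ =>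
      F (Matrix.of fun i => layer e X (cv (m i)) (z i)) := fun m =>
    fr_mc hF (measurable_mx.2 fun i => measurable_pi_iff.1 (by
      have := fr_mc (continuous_layer e X).measurable
        ((measurable_const (a := cv (m i))).prodMk (measurable_row (α := τ) (ι := β) i))
      exact this))
  have hm : ∀ m : Matrix τ α ℤ, Measurable fun p : Matrix β β ℝ × Matrix β α ℝ =>
      ∑' l : Matrix τ β ℤ, rogers_on (Ind (rogers_cols e m l))
        (F (Matrix.of fun i => layer e X (cv (m i)) (((cz l - cz m * p.2ᵀ) * dual p.1) i))) :=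
    fun m => Measurable.tsum fun l => rogers_on_measurable _ (by
      have := fr_mc (hG m) (mf_meas_arg m l measurable_fst measurable_snd)
      exact this)
  have h1 : ∀ g : Matrix β β ℝ, |g.det| = 1 → ∫⁻ t in cube β α,
      ∑' Y : {Y : Matrix τ ι ℤ // Ind Y}, F (cz Y.1 * dual (lift e X t g)) =
      ∑' m : Matrix τ α ℤ, ∫⁻ t in cube β α, ∑' l : Matrix τ β ℤ,
        rogers_on (Ind (rogers_cols e m l))
          (F (Matrix.of fun i => layer e X (cv (m i)) (((cz l - cz m * tᵀ) * dual g) i))) := by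
    intro g hg
    have hg0 : g.det ≠ 0 := fun h0 => by simp [h0] at hg
    refine Eq.trans (lintegral_congr fun t => ?_) (lintegral_tsum fun m => by
      have := fr_mc (hm m) ((measurable_const (a := g)).prodMk measurable_id)
      exact this.aemeasurable)
    rw [rogers_sub Ind fun Y : Matrix τ ι ℤ => F (cz Y * dual (lift e X t g)),
      ← (rogers_colsEquiv τ e).tsum_eq, ENNReal.tsum_prod', ENNReal.tsum_comm]
    refine tsum_congr fun m => tsum_congr fun l => ?_
    change rogers_on (Ind (rogers_cols e m l)) (F (cz (rogers_cols e m l) * _)) = _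
    congr 2
    funext k
    rw [cz_mul_row]
    refine (lv_dual_lift e hX t hg0 (m k) (l k)).trans ?_
    rw [← equi_row]
    rfl
  rw [lintegral_congr_ae (ae_mu_det.mono h1),
    lintegral_tsum fun m => (hm m).lintegral_prod_right'.aemeasurable]
  exact tsum_congr fun m => mf_core e h m _ (hG m)

end Pool.Agent.Eps.P
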