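import Pool.Agent.Lib.MP_3bda03_nt.P.Basic1
import Pool.Agent.Lib.MP_3bda03_nt.H.Orb
import Pool.Agent.Lib.MP_3bda03_nt.H.Lin

-- part Pool.Agent.Lib.MP_3bda03_nt.P.Expand
section

/-!
Integer vectors relative to a primitive frame.
-/

set_option autoImplicit false

noncomputable section

open MeasureTheory Matrix
open scoped ENNReal

namespace Pool.Agent.Eps.P

open Pool.Agent.Eps.H

variable {τ ι : Type} [Fintype τ] [DecidableEq τ] [Fintype ι] [DecidableEq ι]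

omit [Fintype τ] [DecidableEq τ] [Fintype ι] [DecidableEq ι] in
theorem expand_bij {α β : Type} {P : β → Prop} (F : α → β) (hF : Function.Injective F)
    (h : ∀ y, P y ↔ ∃ x, F x = y) (f : β → ℝ≥0∞) :
    ∑' y : {y // P y}, f y.1 = ∑' x, f (F x) :=
  ((Equiv.ofBijective (fun x => (⟨F x, (h _).2 ⟨x, rfl⟩⟩ : {y // P y}))
    ⟨fun _ _ e => hF (congrArg Subtype.val e), fun y =>
      ((h _).1 y.2).imp fun _ e => Subtype.ext e⟩).tsum_eq fun y => f y.1).symm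

omit [Fintype τ] [DecidableEq τ] [Fintype ι] [DecidableEq ι] in
theorem expand_split {α : Type} (P Q : α → Prop) (f : α → ℝ≥0∞) :
    ∑' x : {x // P x}, f x.1 =
      ∑' x : {x // P x ∧ Q x}, f x.1 + ∑' x : {x // P x ∧ ¬ Q x}, f x.1 := by
  have e : ∀ R : α → Prop, ∑' x : {x // R x}, f x.1 = ∑' x, Set.indicator {x | R x} f x :=
    fun R => tsum_subtype {x | R x} f
  rw [e, e, e, ← ENNReal.tsum_add]
  refine tsum_congr fun x => ?_
  by_cases h : P x <;> by_cases k : Q x <;> simp [Set.indicator, h, k]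

omit [DecidableEq τ] [Fintype ι] [DecidableEq ι] in
theorem expand_vm (Y : Matrix τ ι ℤ) (w : ι → ℤ) (u : τ ⊕ Unit → ℤ) :
    u ᵥ* snc Y w = (fun a => u (Sum.inl a)) ᵥ* Y + u (Sum.inr ()) • w := by
  ext i
  simp [snc, vecMul, dotProduct]

omit [DecidableEq τ] [Fintype ι] [DecidableEq ι] in
theorem expand_vm2 (Y : Matrix τ ι ℤ) (w w' : ι → ℤ) (u : τ ⊕ Fin 2 → ℤ) :
    u ᵥ* snc2 Y w w' =
      (fun a => u (Sum.inl a)) ᵥ* Y + u (Sum.inr 0) • w + u (Sum.inr 1) • w' := by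
  ext i
  simp [snc2, vecMul, dotProduct, add_assoc]

omit [DecidableEq τ] [Fintype ι] [DecidableEq ι] in
theorem expand_ind {Y : Matrix τ ι ℤ} : Ind Y ↔ ∀ u : τ → ℤ, u ᵥ* Y = 0 → u = 0 :=
  Matrix.vecMul_injective_iff.symm.trans (injective_iff_map_eq_zero Y.vecMulLinear)

omit [DecidableEq τ] [Fintype ι] [DecidableEq ι] in
theorem expand_ind1 {Y : Matrix τ ι ℤ} {k : ι → ℤ} :
    Ind (snc Y k) ↔ ∀ (κ : τ → ℤ) (s : ℤ), κ ᵥ* Y + s • k = 0 → κ = 0 ∧ s = 0 := by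
  rw [expand_ind]
  refine ⟨fun h κ s e => ?_, fun h u e => ?_⟩
  · have := h (Sum.elim κ fun _ => s) (by rw [expand_vm]; exact e)
    exact ⟨funext fun a => congrFun this (Sum.inl a), congrFun this (Sum.inr ())⟩
  · obtain ⟨h1, h2⟩ := h _ _ (by rw [← expand_vm]; exact e)
    funext a
    rcases a with a | a
    exacts [congrFun h1 a, h2]

omit [DecidableEq τ] [Fintype ι] [DecidableEq ι] in
theorem expand_ind2 {Y : Matrix τ ι ℤ} {k k' : ι → ℤ} :
    Ind (snc2 Y k k') ↔ ∀ (κ : τ → ℤ) (s t : ℤ), κ ᵥ* Y + s • k + t • k' = 0 →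
      κ = 0 ∧ s = 0 ∧ t = 0 := by
  rw [expand_ind]
  refine ⟨fun h κ s t e => ?_, fun h u e => ?_⟩
  · have := h (Sum.elim κ ![s, t]) (by rw [expand_vm2]; exact e)
    exact ⟨funext fun a => congrFun this (Sum.inl a), congrFun this (Sum.inr 0),
      congrFun this (Sum.inr 1)⟩
  · obtain ⟨h1, h2, h3⟩ := h _ _ _ (by rw [← expand_vm2]; exact e)
    funext a
    rcases a with a | a
    · exact congrFun h1 a
    · fin_cases a
      exacts [h2, h3]

omit [DecidableEq ι] in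
theorem expand_prim_iff {Y : Matrix τ ι ℤ} {w : ι → ℤ} :
    Prim (snc Y w) ↔ Prim Y ∧ ∃ c, Y *ᵥ c = 0 ∧ w ⬝ᵥ c = 1 := by
  constructor
  · rintro ⟨Q, hQ⟩
    refine ⟨⟨Q.submatrix id Sum.inl, ?_⟩, fun i => Q i (Sum.inr ()), ?_, ?_⟩
    · ext a b
      simpa [snc, Matrix.mul_apply, Matrix.one_apply] using
        congrFun (congrFun hQ (Sum.inl a)) (Sum.inl b)
    · ext a
      simpa [snc, Matrix.mul_apply, mulVec, dotProduct] using
        congrFun (congrFun hQ (Sum.inl a)) (Sum.inr ())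
    · simpa [snc, Matrix.mul_apply, dotProduct] using
        congrFun (congrFun hQ (Sum.inr ())) (Sum.inr ())
  · rintro ⟨⟨Q, hQ⟩, c, h1, h2⟩
    refine ⟨Matrix.fromCols (Q - vecMulVec c (w ᵥ* Q)) (Matrix.of fun i (_ : Unit) => c i), ?_⟩
    rw [snc, Matrix.fromRows_mul_fromCols, ← Matrix.fromBlocks_one, Matrix.fromBlocks_inj]
    refine ⟨?_, ?_, ?_, ?_⟩
    · rw [Matrix.mul_sub, hQ, mul_vecMulVec, h1, zero_vecMulVec, sub_zero]
    · ext a u
      exact congrFun h1 a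
    · ext u a
      have : w ᵥ* (Q - vecMulVec c (w ᵥ* Q)) = 0 := by
        rw [vecMul_sub, vecMul_vecMulVec, h2, one_smul, sub_self]
      exact congrFun this a
    · ext u u'
      rw [Matrix.one_apply_eq]
      exact h2

omit [DecidableEq τ] [DecidableEq ι] in
theorem expand_dot {Y : Matrix τ ι ℤ} {c : ι → ℤ} (h : Y *ᵥ c = 0) (s : ℤ) (w : ι → ℤ)
    (κ : τ → ℤ) : (s • w + κ ᵥ* Y) ⬝ᵥ c = s * (w ⬝ᵥ c) := by
  rw [add_dotProduct, ← dotProduct_mulVec, h, dotProduct_zero, add_zero, smul_dotProduct,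
    smul_eq_mul]

theorem ind_snc_iff {Y : Matrix τ ι ℤ} (hY : Prim Y) (k : ι → ℤ) :
    Ind (snc Y k) ↔ ∀ κ : τ → ℤ, k ≠ κ ᵥ* Y := by
  rw [expand_ind1]
  refine ⟨fun h κ e => absurd (h κ (-1) (by simp [e])).2 (by decide), fun h κ s e => ?_⟩
  by_cases hs : s = 0
  · exact ⟨expand_ind.1 hY.ind κ (by simpa [hs] using e), hs⟩
  · obtain ⟨μ, hμ⟩ := hY.mem_span hs (v := k) (u := -κ) (by
      rw [neg_vecMul]; exact eq_neg_of_add_eq_zero_right e)
    exact absurd hμ (h μ)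

theorem prim_of_snc {Y : Matrix τ ι ℤ} {w : ι → ℤ} (h : Prim (snc Y w)) : Prim Y :=
  (expand_prim_iff.1 h).1

theorem expand_ind_comb {Y : Matrix τ ι ℤ} {w : ι → ℤ} (h : Prim (snc Y w)) {s : ℤ} (hs : s ≠ 0)
    (κ : τ → ℤ) : Ind (snc Y (s • w + κ ᵥ* Y)) := by
  obtain ⟨hY, c, h1, h2⟩ := expand_prim_iff.1 h
  refine (ind_snc_iff hY _).2 fun μ e => hs ?_
  have := expand_dot h1 s w κ
  rwa [e, h2, mul_one, ← dotProduct_mulVec, h1, dotProduct_zero, eq_comm] at this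

theorem cz_snc (Y : Matrix τ ι ℤ) (k : ι → ℤ) (g : Matrix ι ι ℝ) :
    cz (snc Y k) * g = snc (cz Y * g) (lv k g) := by
  ext a i
  rcases a with a | a <;> rfl

theorem cz_snc2 (Y : Matrix τ ι ℤ) (k k' : ι → ℤ) (g : Matrix ι ι ℝ) :
    cz (snc2 Y k k') * g = snc2 (cz Y * g) (lv k g) (lv k' g) := by
  ext a i
  rcases a with a | a
  · rfl
  · fin_cases a <;> rfl

/-- nonzero vectors lie in the span of the frame or are independent of it -/
theorem expand_one {Y : Matrix τ ι ℤ} (hY : Prim Y) (f : (ι → ℤ) → ℝ≥0∞) :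
    ∑' k : {k : ι → ℤ // k ≠ 0}, f k.1 =
      ∑' κ : {κ : τ → ℤ // κ ≠ 0}, f (κ.1 ᵥ* Y) + ∑' k : {k : ι → ℤ // Ind (snc Y k)}, f k.1 := by
  have hi := expand_ind.1 hY.ind
  rw [expand_split _ fun k => Ind (snc Y k), add_comm]
  congr 1
  · refine expand_bij (fun κ : {κ : τ → ℤ // κ ≠ 0} => κ.1 ᵥ* Y) (fun κ μ e => Subtype.ext
      (sub_eq_zero.1 (hi _ (by rw [sub_vecMul]; exact sub_eq_zero.2 e)))) (fun k => ?_) f
    rw [ind_snc_iff hY]
    refine ⟨fun ⟨h1, h2⟩ => ?_, ?_⟩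
    · push Not at h2
      obtain ⟨κ, rfl⟩ := h2
      exact ⟨⟨κ, fun e => h1 (by rw [e, zero_vecMul])⟩, rfl⟩
    · rintro ⟨κ, rfl⟩
      exact ⟨fun e => κ.2 (hi _ e), fun h => h _ rfl⟩
  · refine expand_bij (fun k : {k : ι → ℤ // Ind (snc Y k)} => k.1) Subtype.val_injective
      (fun k => ⟨fun h => ⟨⟨k, h.2⟩, rfl⟩, ?_⟩) f
    rintro ⟨k, rfl⟩
    exact ⟨fun e => (ind_snc_iff hY _).1 k.2 0 (by rw [zero_vecMul]; exact e), k.2⟩

/-- independent vectors in terms of primitive extensions -/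
theorem expand_prim {Y : Matrix τ ι ℤ} (hY : Prim Y) (f : (ι → ℤ) → ℝ≥0∞) :
    ∑' k : {k : ι → ℤ // Ind (snc Y k)}, f k.1 =
      ∑' w : {w : ι → ℤ // Prim (snc Y w)}, ∑' p : ℕ, ∑' κ : τ → Fin (p + 1),
        f (((p + 1 : ℕ) : ℤ) • w.1 + zr κ ᵥ* Y) := by
  rw [expand_bij (fun x : {w : ι → ℤ // Prim (snc Y w)} × Σ p : ℕ, τ → Fin (p + 1) =>
    ((x.2.1 + 1 : ℕ) : ℤ) • x.1.1 + zr x.2.2 ᵥ* Y) ?_ (fun k => ⟨fun h => ?_, ?_⟩) f,
    ENNReal.tsum_prod']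
  · exact tsum_congr fun w => ENNReal.tsum_sigma' _
  · rintro ⟨⟨w, hw⟩, p, κ⟩ ⟨⟨w', hw'⟩, p', κ'⟩ e
    obtain ⟨-, c, h1, h2⟩ := expand_prim_iff.1 hw
    obtain ⟨-, c', h1', h2'⟩ := expand_prim_iff.1 hw'
    dsimp only at e
    have a1 := congrArg (· ⬝ᵥ c) e
    have a2 := congrArg (· ⬝ᵥ c') e
    simp only [expand_dot h1, expand_dot h1', h2, h2', mul_one] at a1 a2
    obtain rfl : p = p' := by
      have := Nat.dvd_antisymm (Int.natCast_dvd_natCast.1 ⟨_, a2.symm⟩)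
        (Int.natCast_dvd_natCast.1 ⟨_, a1⟩)
      omega
    have a3 : (zr κ - zr κ') ᵥ* Y = ((p + 1 : ℕ) : ℤ) • (w' - w) := by
      rw [sub_vecMul, smul_sub, eq_sub_of_add_eq' e]
      abel
    obtain rfl : κ = κ' := funext fun a => by
      have a4 := hY.dvd_of_dvd (q := ((p + 1 : ℕ) : ℤ)) (fun i => ⟨_, congrFun a3 i⟩) a
      have a5 := (κ a).2
      have a6 := (κ' a).2
      have a7 := Int.eq_zero_of_abs_lt_dvd a4 (by
        simp only [zr, Pi.sub_apply, abs_lt]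
        omega)
      simp only [zr, Pi.sub_apply] at a7
      exact Fin.ext (by omega)
    obtain rfl : w = w' := smul_right_injective _ (by omega) (add_right_cancel e)
    rfl
  · obtain ⟨w, q, κ, hq, hw, rfl⟩ := hY.extend ((ind_snc_iff hY k).1 h)
    obtain ⟨p, rfl⟩ := Nat.exists_eq_add_of_le' hq
    obtain ⟨-, c, h1, h2⟩ := expand_prim_iff.1 hw
    have q0 : (0 : ℤ) < (p + 1 : ℕ) := by omega
    refine ⟨(⟨w + (fun a => κ a / (p + 1 : ℕ)) ᵥ* Y, expand_prim_iff.2 ⟨hY, c, h1, ?_⟩⟩,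
      ⟨p, fun a => ⟨(κ a % (p + 1 : ℕ)).toNat, ?_⟩⟩), ?_⟩
    · simpa [h2] using expand_dot h1 1 w _
    · have := Int.emod_lt_of_pos (κ a) q0
      omega
    · dsimp only
      rw [smul_add, ← smul_vecMul, add_assoc, ← add_vecMul, add_comm]
      congr 2
      funext a
      simp only [zr, Pi.add_apply, Pi.smul_apply, smul_eq_mul]
      rw [Int.toNat_of_nonneg (Int.emod_nonneg _ q0.ne'), Int.mul_ediv_add_emod]
  · rintro ⟨x, rfl⟩
    exact expand_ind_comb x.1.2 (by omega) _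

/-- pairs of independent vectors -/
theorem expand_two {Y : Matrix τ ι ℤ} (hY : Prim Y) (G : (ι → ℤ) → (ι → ℤ) → ℝ≥0∞) :
    ∑' k : {k : ι → ℤ // Ind (snc Y k)}, ∑' k' : {k : ι → ℤ // Ind (snc Y k)}, G k.1 k'.1 =
      ∑' p : {p : (ι → ℤ) × (ι → ℤ) // Ind (snc2 Y p.1 p.2)}, G p.1.1 p.1.2 +
      ∑' w : {w : ι → ℤ // Prim (snc Y w)}, ∑' p : ℕ, ∑' p' : {p' : ℤ // p' ≠ 0},
        ∑' κ : τ → Fin (p + 1), ∑' κ' : τ → ℤ,
          G (((p + 1 : ℕ) : ℤ) • w.1 + zr κ ᵥ* Y) (p'.1 • w.1 + κ' ᵥ* Y) := by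
  have e := fun k => expand_split (fun k' => Ind (snc Y k')) (fun k' => Ind (snc2 Y k k')) (G k)
  simp only [e]
  rw [ENNReal.tsum_add]
  congr 1
  · rw [expand_bij (fun x : Σ k : {k : ι → ℤ // Ind (snc Y k)},
      {k' // Ind (snc Y k') ∧ Ind (snc2 Y k.1 k')} => (x.1.1, x.2.1)) ?_
      (fun p => ⟨fun h => ?_, ?_⟩) fun p => G p.1 p.2, ENNReal.tsum_sigma']
    · rintro ⟨⟨k, hk⟩, l, hl⟩ ⟨⟨k', hk'⟩, l', hl'⟩ e
      obtain ⟨rfl, rfl⟩ := Prod.mk.inj e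
      rfl
    · have h1 := expand_ind2.1 h
      exact ⟨⟨⟨p.1, expand_ind1.2 fun κ s e => (h1 κ s 0 (by simpa using e)).imp_right And.left⟩,
        p.2, expand_ind1.2 fun κ s e => (h1 κ 0 s (by simpa using e)).imp_right And.right, h⟩, rfl⟩
    · rintro ⟨x, rfl⟩
      exact x.2.2.2
  rw [expand_prim hY fun k => ∑' k' : {k' // Ind (snc Y k') ∧ ¬ Ind (snc2 Y k k')}, G k k'.1]
  refine tsum_congr fun w => tsum_congr fun p => ?_
  rw [ENNReal.tsum_comm]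
  refine tsum_congr fun κ => ?_
  have hw := expand_ind1.1 w.2.ind
  rw [expand_bij (fun x : {p' : ℤ // p' ≠ 0} × (τ → ℤ) => x.1.1 • w.1 + x.2 ᵥ* Y) ?_
    (fun k => ⟨fun h => ?_, ?_⟩) (G _), ENNReal.tsum_prod']
  · rintro ⟨⟨s, hs⟩, μ⟩ ⟨⟨s', hs'⟩, μ'⟩ e
    dsimp only at e
    obtain ⟨a1, a2⟩ := hw (μ - μ') (s - s') (by
      rw [sub_vecMul, sub_smul, eq_sub_of_add_eq' e]
      abel)
    obtain rfl := sub_eq_zero.1 a1
    obtain rfl := sub_eq_zero.1 a2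
    rfl
  · obtain ⟨h1, h2⟩ := h
    by_contra h3
    refine h2 (expand_ind2.2 fun μ s t e => ?_)
    have ht : t = 0 := by
      by_contra ht
      obtain ⟨u, hu⟩ := w.2.mem_span ht (v := k)
        (u := Sum.elim (-(μ + s • zr κ)) fun _ => -(s * (p + 1 : ℕ))) (by
          rw [expand_vm, eq_neg_of_add_eq_zero_right e]
          simp only [Sum.elim_inl, Sum.elim_inr, neg_vecMul, add_vecMul, smul_vecMul, smul_add,
            smul_smul, neg_smul]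
          abel)
      rw [expand_vm] at hu
      refine h3 ⟨(⟨u (Sum.inr ()), fun z => ?_⟩, _), (add_comm _ _).trans hu.symm⟩
      exact (ind_snc_iff hY k).1 h1 _ (by rw [hu, z, zero_smul, add_zero])
    rw [ht, zero_smul, add_zero] at e
    obtain ⟨a1, a2⟩ := expand_ind1.1 (expand_ind_comb w.2 (by omega) _) μ s e
    exact ⟨a1, a2, ht⟩
  · rintro ⟨⟨⟨s, hs⟩, μ⟩, rfl⟩
    refine ⟨expand_ind_comb w.2 hs μ, fun h => hs ?_⟩
    refine (expand_ind2.1 h (((p + 1 : ℕ) : ℤ) • μ - s • zr κ) s (-(p + 1 : ℕ)) ?_).2.1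
    simp only [sub_vecMul, smul_vecMul, smul_add, smul_smul, neg_smul, neg_mul, mul_comm s]
    abel

/-- sums over primitive frames with one more row -/
theorem tsum_prim_snc (f : Matrix (τ ⊕ Unit) ι ℤ → ℝ≥0∞) :
    ∑' Z : {Z : Matrix (τ ⊕ Unit) ι ℤ // Prim Z}, f Z.1 =
      ∑' Y : {Y : Matrix τ ι ℤ // Prim Y}, ∑' w : {w : ι → ℤ // Prim (snc Y.1 w)},
        f (snc Y.1 w.1) := by
  rw [expand_bij (fun x : Σ Y : {Y : Matrix τ ι ℤ // Prim Y}, {w : ι → ℤ // Prim (snc Y.1 w)} =>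
    snc x.1.1 x.2.1) ?_ (fun Z => ⟨fun h => ?_, ?_⟩) f, ENNReal.tsum_sigma']
  · rintro ⟨⟨Y, hY⟩, w, hw⟩ ⟨⟨Y', hY'⟩, w', hw'⟩ e
    obtain rfl : Y = Y' := Matrix.ext fun a i => congrFun (congrFun e (Sum.inl a)) i
    obtain rfl : w = w' := congrFun e (Sum.inr ())
    rfl
  · have e : snc Z.toRows₁ (Z (Sum.inr ())) = Z := by
      ext a i
      rcases a with a | a <;> rfl
    exact ⟨⟨⟨_, prim_of_snc (e.symm ▸ h)⟩, _, e.symm ▸ h⟩, e⟩
  · rintro ⟨x, rfl⟩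
    exact x.2.2

end Pool.Agent.Eps.P
end
end

-- part Pool.Agent.Lib.MP_3bda03_nt.P.RLk
section

/-!
Invariance properties of the intensity measure.
-/

set_option autoImplicit false

noncomputable section

open MeasureTheory Matrix
open scoped ENNReal

namespace Pool.Agent.Eps.P

open Pool.Agent.Eps.H

variable {ι : Type} [Fintype ι] [DecidableEq ι] {Ω : Type} [MeasurableSpace Ω]
  {P : Measure Ω} {g : Ω → Matrix ι ι ℝ} {Λ : Measure (ι → ℝ)} {d : ℕ}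
  {τ : Type} [Fintype τ] [DecidableEq τ]

omit [DecidableEq ι] [DecidableEq τ] in
theorem pw_volume : pw τ (volume : Measure (ι → ℝ)) = volume := rfl

omit [DecidableEq ι] [DecidableEq τ] in
theorem pw_sigmaFinite [SigmaFinite Λ] : SigmaFinite (pw τ Λ) :=
  (inferInstance : SigmaFinite (Measure.pi fun _ : τ => Λ))

omit [DecidableEq ι] [DecidableEq τ] in
theorem rlk_rows [SigmaFinite Λ] {σ : Type} [Fintype σ] (F : Matrix (τ ⊕ σ) ι ℝ → ℝ≥0∞)
    (hF : Measurable F) :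
    ∫⁻ Z, F Z ∂pw (τ ⊕ σ) Λ = ∫⁻ U, ∫⁻ V, F (fromRows U V) ∂pw σ Λ ∂pw τ Λ := by
  have h := measurePreserving_sumPiEquivProdPi_symm (fun _ : τ ⊕ σ => Λ)
  refine (h.lintegral_comp hF).symm.trans ((lintegral_prod _ (hF.comp h.measurable).aemeasurable).trans ?_)
  refine lintegral_congr fun U => lintegral_congr fun V => congrArg F ?_
  funext i
  cases i <;> rfl

omit [Fintype ι] [DecidableEq ι] [Fintype τ] [DecidableEq τ] in
theorem rlk_meas_rows {σ X : Type} [MeasurableSpace X] {U : X → Matrix τ ι ℝ}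
    {V : X → Matrix σ ι ℝ} (hU : Measurable U) (hV : Measurable V) :
    Measurable fun x => fromRows (U x) (V x) := measurable_mx.2 fun a i => by
  cases a
  · exact measurable_mx.1 hU _ i
  · exact measurable_mx.1 hV _ i

omit [DecidableEq ι] in
theorem rlk_unit [SigmaFinite Λ] (F : Matrix Unit ι ℝ → ℝ≥0∞) (hF : Measurable F) :
    ∫⁻ V, F V ∂pw Unit Λ = ∫⁻ y, F (of fun _ => y) ∂Λ :=
  ((measurePreserving_funUnique Λ Unit).symm.lintegral_comp hF).symm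

omit [DecidableEq ι] in
theorem rlk_two [SigmaFinite Λ] (F : Matrix (Fin 2) ι ℝ → ℝ≥0∞) (hF : Measurable F) :
    ∫⁻ V, F V ∂pw (Fin 2) Λ = ∫⁻ y, ∫⁻ y', F (of ![y, y']) ∂Λ ∂Λ := by
  have h := (measurePreserving_finTwoArrow Λ).symm
  exact (h.lintegral_comp hF).symm.trans (lintegral_prod _ (hF.comp h.measurable).aemeasurable)

omit [DecidableEq ι] [DecidableEq τ] in
theorem lintegral_pw_snc [SigmaFinite Λ] (F : Matrix (τ ⊕ Unit) ι ℝ → ℝ≥0∞) (hF : Measurable F) :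
    ∫⁻ Z, F Z ∂pw (τ ⊕ Unit) Λ = ∫⁻ U, ∫⁻ y, F (snc U y) ∂Λ ∂pw τ Λ := by
  rw [rlk_rows F hF]
  exact lintegral_congr fun U => rlk_unit _ (hF.comp (rlk_meas_rows measurable_const measurable_id))

omit [DecidableEq ι] [DecidableEq τ] in
theorem lintegral_pw_snc2 [SigmaFinite Λ] (F : Matrix (τ ⊕ Fin 2) ι ℝ → ℝ≥0∞)
    (hF : Measurable F) :
    ∫⁻ Z, F Z ∂pw (τ ⊕ Fin 2) Λ = ∫⁻ U, ∫⁻ y, ∫⁻ y', F (snc2 U y y') ∂Λ ∂Λ ∂pw τ Λ := by
  rw [rlk_rows F hF]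
  exact lintegral_congr fun U => rlk_two _ (hF.comp (rlk_meas_rows measurable_const measurable_id))

theorem rlk_fin {X : Type} [MeasurableSpace X] (μ : Measure X) [SigmaFinite μ] (n : ℕ)
    (f : Fin n → X → ℝ≥0∞) (hf : ∀ i, Measurable (f i)) :
    ∫⁻ U, ∏ i, f i (U i) ∂Measure.pi (fun _ => μ) = ∏ i, ∫⁻ y, f i y ∂μ := by
  induction n with
  | zero => simp
  | succ n ih =>
    have h := (measurePreserving_piFinSuccAbove (fun _ : Fin (n + 1) => μ) 0).symm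
    rw [← h.lintegral_comp (by fun_prop), Fin.prod_univ_succ, ← ih _ fun i => hf _,
      ← lintegral_prod_mul (hf 0).aemeasurable (Measurable.aemeasurable (by fun_prop))]
    simp [MeasurableEquiv.piFinSuccAbove_symm_apply, Fin.insertNthEquiv, Fin.prod_univ_succ]

omit [DecidableEq ι] [DecidableEq τ] in
theorem lintegral_pw_prod [SigmaFinite Λ] (f : τ → (ι → ℝ) → ℝ≥0∞) (hf : ∀ i, Measurable (f i)) :
    ∫⁻ U, ∏ i, f i (U i) ∂pw τ Λ = ∏ i, ∫⁻ y, f i y ∂Λ := by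
  let e := (Fintype.equivFin τ).symm
  have h := measurePreserving_piCongrLeft (fun _ : τ => Λ) e
  refine (h.lintegral_comp (f := fun U => ∏ i, f i (U i)) (by fun_prop)).symm.trans ?_
  rw [← e.prod_comp, ← rlk_fin Λ _ _ fun i => hf _]
  refine lintegral_congr fun U => ?_
  rw [← e.prod_comp]
  simp only [MeasurableEquiv.piCongrLeft_apply_apply]

omit [Fintype ι] [DecidableEq ι] in
theorem rlk_ind (γ : GL τ ℤ) {Y : Matrix τ ι ℤ} (h : Ind Y) : Ind (γ.val * Y) := by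
  refine vecMul_injective_iff.1 fun a b e => ?_
  have e' : (a ᵥ* γ.val) ᵥ* Y = (b ᵥ* γ.val) ᵥ* Y := by simpa only [vecMul_vecMul] using e
  exact vecMul_injective_of_isUnit γ.isUnit (vecMul_injective_iff.2 h e')

omit [DecidableEq ι] in
theorem rlk_ind_unit (k : ι → ℤ) : Ind (of fun _ : Unit => k) ↔ k ≠ 0 :=
  linearIndependent_unique_iff

variable (R : RL P g Λ d)
include R

theorem RL.gl (h : Fintype.card τ < d) (γ : GL τ ℤ) (F : Matrix τ ι ℝ → ℝ≥0∞)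
    (hF : Measurable F) : ∫⁻ U, F (cz γ.val * U) ∂pw τ Λ = ∫⁻ U, F U ∂pw τ Λ := by
  rw [← R.rog τ h F hF, ← R.rog τ h (fun U => F (cz γ.val * U))
    (hF.comp (Measurable.mxmul measurable_const measurable_id))]
  refine lintegral_congr fun ω => ?_
  let e : {Y : Matrix τ ι ℤ // Ind Y} ≃ {Y : Matrix τ ι ℤ // Ind Y} :=
    ⟨fun Y => ⟨γ.val * Y.1, rlk_ind γ Y.2⟩, fun Y => ⟨γ⁻¹.val * Y.1, rlk_ind γ⁻¹ Y.2⟩,
      fun Y => Subtype.ext (by simp [← Matrix.mul_assoc]),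
      fun Y => Subtype.ext (by simp [← Matrix.mul_assoc])⟩
  refine Eq.trans (tsum_congr fun Y => ?_) (e.tsum_eq _)
  rw [← Matrix.mul_assoc, ← cz_mul]
  rfl

theorem RL.neg (h : 1 < d) (f : (ι → ℝ) → ℝ≥0∞) (hf : Measurable f) :
    ∫⁻ y, f (-y) ∂Λ = ∫⁻ y, f y ∂Λ := by
  have := R.sf
  have hF : Measurable fun U : Matrix Unit ι ℝ => f (U ()) := hf.comp (measurable_row ())
  have h1 := R.gl (τ := Unit) (by simpa using h) (-1) _ hF
  rw [rlk_unit _ hF, rlk_unit (fun U => f ((cz (-1 : GL Unit ℤ).val * U) ()))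
    (hF.comp (Measurable.mxmul measurable_const measurable_id))] at h1
  refine Eq.trans (lintegral_congr fun y => congrArg f ?_) h1
  funext i
  simp [cz, Matrix.mul_apply]

theorem RL.siegel (h : 1 < d) (f : (ι → ℝ) → ℝ≥0∞) (hf : Measurable f) :
    ∫⁻ ω, ∑' k : {k : ι → ℤ // k ≠ 0}, f (lv k.1 (g ω)) ∂P = ∫⁻ y, f y ∂Λ := by
  have := R.sf
  have hF : Measurable fun U : Matrix Unit ι ℝ => f (U ()) := hf.comp (measurable_row ())
  have h1 := R.rog Unit (by simpa using h) _ hF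
  rw [rlk_unit _ hF] at h1
  refine Eq.trans (lintegral_congr fun ω => ?_) h1
  let e : {k : ι → ℤ // k ≠ 0} ≃ {Y : Matrix Unit ι ℤ // Ind Y} :=
    ⟨fun k => ⟨of fun _ => k.1, (rlk_ind_unit _).2 k.2⟩, fun Y => ⟨Y.1 (), (rlk_ind_unit _).1 Y.2⟩,
      fun _ => rfl, fun _ => rfl⟩
  rw [← e.tsum_eq]
  rfl

theorem RL.shear (h : Fintype.card τ + 1 < d) (κ : τ → ℤ)
    (F : Matrix τ ι ℝ → (ι → ℝ) → ℝ≥0∞) (hF : Measurable (Function.uncurry F)) :
    ∫⁻ U, ∫⁻ y, F U (y + lv κ U) ∂Λ ∂pw τ Λ = ∫⁻ U, ∫⁻ y, F U y ∂Λ ∂pw τ Λ := by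
  have := R.sf
  let A : (τ → ℤ) → Matrix (τ ⊕ Unit) (τ ⊕ Unit) ℤ := fun κ => fromBlocks 1 0 (of fun _ => κ) 1
  have hA : ∀ κ κ', κ + κ' = 0 → A κ * A κ' = 1 := fun κ κ' e => by
    simp only [A, fromBlocks_multiply, Matrix.mul_one, Matrix.one_mul, Matrix.mul_zero,
      Matrix.zero_mul, add_zero, zero_add]
    rw [← fromBlocks_one]
    congr 1
    ext i j
    exact congrFun e j
  have hG : Measurable fun Z : Matrix (τ ⊕ Unit) ι ℝ => F Z.toRows₁ (Z (.inr ())) :=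
    hF.comp ((measurable_mx.2 fun a i => measurable_entry _ i).prodMk (measurable_row _))
  have h1 := R.gl (τ := τ ⊕ Unit) (by simpa using h)
    ⟨A κ, A (-κ), hA _ _ (add_neg_cancel κ), hA _ _ (neg_add_cancel κ)⟩ _ hG
  have h3 : ∀ (U : Matrix τ ι ℝ) (y : ι → ℝ), cz (A κ) * snc U y = snc U (y + lv κ U) := by
    intro U y
    ext i j
    rw [Matrix.mul_apply]
    cases i
    · simp [A, cz, snc, Matrix.one_apply]
    · simp [A, cz, snc, lv, cv, vecMul, dotProduct, add_comm]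
  have h2 := lintegral_pw_snc (Λ := Λ) _
    (hG.comp (Measurable.mxmul (measurable_const (a := cz (A κ))) measurable_id))
  simp only [Function.comp_def, id, h3] at h2
  exact h2.symm.trans (h1.trans (lintegral_pw_snc _ hG))

theorem RL.frac (h : Fintype.card τ + 1 < d) {q : ℕ} (hq : 1 ≤ q) (κ : τ → ℤ)
    (F : Matrix τ ι ℝ → (ι → ℝ) → ℝ≥0∞) (hF : Measurable (Function.uncurry F)) :
    ∫⁻ U, ∫⁻ y, F U ((q : ℝ) • y + lv κ U) ∂Λ ∂pw τ Λ ≤
      ((q : ℝ≥0∞) ^ d)⁻¹ * ∫⁻ U, ∫⁻ y, F U y ∂Λ ∂pw τ Λ := by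
  rw [← R.shear h κ F hF, ← lintegral_const_mul' _ _ (ENNReal.inv_ne_top.2
    (pow_ne_zero _ (Nat.cast_ne_zero.2 (by omega))))]
  exact lintegral_mono fun U => R.dil q hq (fun y => F U (y + lv κ U))
    (hF.of_uncurry_left.comp (measurable_add_const _))

theorem RL.ae_li (h : Fintype.card τ < d) :
    ∀ᵐ U ∂pw τ Λ, LinearIndependent ℝ fun i => (U i : ι → ℝ) := by
  have hs : MeasurableSet {U : Matrix τ ι ℝ | ¬ LinearIndependent ℝ fun i => (U i : ι → ℝ)} :=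
    (isOpen_setOfPred_linearIndependent (𝕜 := ℝ) (ι := τ) (E := ι → ℝ)).measurableSet.compl
  rw [ae_iff, ← lintegral_indicator_one hs, ← R.rog τ h _ (measurable_one.indicator hs)]
  refine lintegral_eq_zero_of_ae_eq_zero (R.det.mono fun ω hω => ?_)
  refine ENNReal.tsum_eq_zero.2 fun Y => Set.indicator_of_notMem (not_not.2 ?_) _
  have h1 : LinearIndependent ℝ (cz Y.1).row :=
    (linearIndependent_algebraMap_comp_iff (R := ℤ) (S := ℝ) (v := fun a => Y.1 a)).2 Y.2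
  refine vecMul_injective_iff.1 fun a b e => ?_
  have e' : (a ᵥ* cz Y.1) ᵥ* g ω = (b ᵥ* cz Y.1) ᵥ* g ω := by simpa only [vecMul_vecMul] using e
  exact vecMul_injective_iff.2 h1 (vecMul_injective_of_isUnit
    ((isUnit_iff_isUnit_det _).2 (Ne.isUnit hω)) e')

end Pool.Agent.Eps.P
end
end

-- part Pool.Agent.Lib.MP_3bda03_nt.P.RLpx
section

/-!
Independent integer tuples that are not primitive.
-/

set_option autoImplicit false

noncomputable section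

open MeasureTheory Matrix
open scoped ENNReal

namespace Pool.Agent.Eps.P

open Pool.Agent.Eps.H

variable {ι : Type} [Fintype ι] [DecidableEq ι] {τ : Type} [Fintype τ] [DecidableEq τ]

/-- the identity matrix with one row changed -/
def rlp_M (j : τ) (q : ℤ) (c : τ → ℤ) : Matrix τ τ ℤ :=
  (1 : Matrix τ τ ℤ).updateRow j (Pi.single j q + c)

theorem rlp_M_mul {κ : Type} (j : τ) (q : ℤ) (c : τ → ℤ) (Z : Matrix τ κ ℤ) :
    rlp_M j q c * Z = Z.updateRow j (q • Z j + c ᵥ* Z) := by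
  rw [rlp_M, Matrix.updateRow_mul, Matrix.one_mul, Matrix.add_vecMul, Matrix.single_vecMul]
  rfl

theorem rlp_vecMul_updateRow {κ : Type} {j : τ} {c : τ → ℤ} (hc : c j = 0) (Z : Matrix τ κ ℤ)
    (r : κ → ℤ) : c ᵥ* Z.updateRow j r = c ᵥ* Z := by
  funext k
  refine Finset.sum_congr rfl fun i _ => ?_
  by_cases h : i = j
  · subst h
    simp only [hc, zero_mul]
  · simp only [Matrix.updateRow_ne h]

theorem rlp_M_M {j : τ} {c : τ → ℤ} (hc : c j = 0) (q : ℤ) (c' : τ → ℤ) :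
    rlp_M j 1 c * rlp_M j q c' = rlp_M j q (c' + c) := by
  rw [rlp_M_mul, rlp_M, rlp_M, rlp_vecMul_updateRow hc, Matrix.vecMul_one, Matrix.updateRow_self,
    one_smul, Matrix.updateRow_idem, add_assoc]

theorem rlp_M_one (j : τ) : rlp_M j 1 0 = 1 := by
  have h := rlp_M_mul j 1 0 (1 : Matrix τ τ ℤ)
  rwa [Matrix.mul_one, Matrix.zero_vecMul, add_zero, one_smul, Matrix.updateRow_eq_self] at h

/-- the shear as an invertible matrix -/
def rlp_gl {j : τ} {c : τ → ℤ} (hc : c j = 0) : GL τ ℤ :=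
  ⟨rlp_M j 1 c, rlp_M j 1 (-c), by rw [rlp_M_M hc, neg_add_cancel, rlp_M_one],
    by rw [rlp_M_M (by rw [Pi.neg_apply, hc, neg_zero]), add_neg_cancel, rlp_M_one]⟩

omit [Fintype ι] [DecidableEq ι] in
theorem rlp_cz_dil (j : τ) (q : ℕ) (U : Matrix τ ι ℝ) :
    cz (rlp_M j q 0) * U = Function.update U j ((q : ℝ) • U j) := by
  funext a
  rw [cz_mul_row]
  by_cases h : a = j
  · subst h
    have h1 : rlp_M a (q : ℤ) 0 a = (q : ℤ) • Pi.single a 1 := by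
      rw [rlp_M, Matrix.updateRow_self, add_zero, ← Pi.single_smul, smul_eq_mul, mul_one]
    have h2 : cv (Pi.single a (1 : ℤ)) = Pi.single a (1 : ℝ) := by
      funext i
      simp [cv, Pi.single_apply]
    rw [Function.update_self, h1, lv_smul, lv, h2, Matrix.single_one_vecMul]
    rfl
  · have h2 : cv (rlp_M j (q : ℤ) 0 a) = Pi.single a (1 : ℝ) := by
      funext i
      simp [cv, rlp_M, Matrix.updateRow_ne h, Pi.single_apply, Matrix.one_apply, eq_comm]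
    rw [Function.update_of_ne h, lv, h2, Matrix.single_one_vecMul]
    rfl

omit [Fintype ι] [DecidableEq ι] in
theorem rlp_ind_of_mul {M : Matrix τ τ ℤ} {Y : Matrix τ ι ℤ} (h : Ind (M * Y)) : Ind Y := by
  have h1 : Function.Injective (M * Y).vecMul := Matrix.vecMul_injective_iff.2 h
  have h2 : ∀ v : τ → ℤ, v ᵥ* (M * Y) = 0 → v = 0 := fun v hv =>
    h1 (hv.trans (Matrix.zero_vecMul _).symm)
  have hd : M.det ≠ 0 := fun hd => by
    obtain ⟨v, hv, hv'⟩ := Matrix.exists_vecMul_eq_zero_iff.2 hd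
    exact hv (h2 v (by rw [← Matrix.vecMul_vecMul, hv', Matrix.zero_vecMul]))
  refine Matrix.vecMul_injective_iff.1 fun u v e => ?_
  have e1 : (u - v) ᵥ* Y = 0 := by
    rw [Matrix.sub_vecMul]
    exact sub_eq_zero.2 e
  have e2 : (u - v) ᵥ* M.adjugate = 0 := h2 _ (by
    rw [Matrix.vecMul_vecMul, ← Matrix.mul_assoc, Matrix.adjugate_mul, Matrix.smul_mul,
      Matrix.one_mul, Matrix.vecMul_smul, e1, smul_zero])
  have e3 : M.det • (u - v) = 0 := by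
    have e4 := congrArg (· ᵥ* M) e2
    simp only [Matrix.vecMul_vecMul, Matrix.adjugate_mul, Matrix.vecMul_smul, Matrix.vecMul_one,
      Matrix.zero_vecMul] at e4
    exact e4
  exact sub_eq_zero.1 ((smul_eq_zero.1 e3).resolve_left hd)

omit [DecidableEq ι] in
theorem rlp_prim_shear {Y : Matrix τ ι ℤ} {w : ι → ℤ} (h : Prim (snc Y w)) (κ : τ → ℤ) :
    Prim (snc Y (κ ᵥ* Y + w)) := by
  obtain ⟨Q, hQ⟩ := h
  have hc : (Sum.elim κ 0 : τ ⊕ Unit → ℤ) (Sum.inr ()) = 0 := rfl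
  have h1 : snc Y (κ ᵥ* Y + w) = (rlp_gl hc).val * snc Y w := by
    change _ = rlp_M (Sum.inr ()) 1 (Sum.elim κ 0) * snc Y w
    rw [rlp_M_mul, one_smul]
    funext a
    rcases a with a | a
    · rw [Matrix.updateRow_ne Sum.inl_ne_inr]
      rfl
    · rw [Matrix.updateRow_self, snc, snc, Matrix.sumElim_vecMul_fromRows, Matrix.zero_vecMul,
        add_zero, add_comm]
      rfl
  refine ⟨Q * ((rlp_gl hc)⁻¹).val, ?_⟩
  rw [h1, Matrix.mul_assoc, ← Matrix.mul_assoc (snc Y w), hQ, Matrix.one_mul, Units.mul_inv]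

/-- the rows before the position `n` -/
abbrev rlp_lo (τ : Type) [Fintype τ] (n : ℕ) : Type := {i : τ // (Fintype.equivFin τ i).val < n}

/-- coefficients extended by zero -/
def rlp_ext {n : ℕ} (κ : rlp_lo τ n → ℤ) : τ → ℤ :=
  fun i => if h : (Fintype.equivFin τ i).val < n then κ ⟨i, h⟩ else 0

omit [Fintype ι] [DecidableEq ι] [DecidableEq τ] in
theorem rlp_ext_vecMul {n : ℕ} (κ : rlp_lo τ n → ℤ) (Y : Matrix τ ι ℤ) :
    rlp_ext κ ᵥ* Y = κ ᵥ* Y.submatrix (Subtype.val : rlp_lo τ n → τ) id := by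
  funext k
  change ∑ i, rlp_ext κ i * Y i k = ∑ i : rlp_lo τ n, κ i * Y i.1 k
  rw [← Fintype.sum_subtype_add_sum_subtype (fun i => (Fintype.equivFin τ i).val < n)]
  have h1 : ∑ i : {i : τ // ¬ (Fintype.equivFin τ i).val < n}, rlp_ext κ i.1 * Y i.1 k = 0 :=
    Finset.sum_eq_zero fun i _ => by rw [rlp_ext, dif_neg i.2, zero_mul]
  rw [h1, add_zero]
  exact Finset.sum_congr rfl fun i _ => by rw [rlp_ext, dif_pos i.2]

omit [DecidableEq τ] in
theorem rlp_card_lo (j : τ) :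
    Fintype.card (rlp_lo τ (Fintype.equivFin τ j).val) = (Fintype.equivFin τ j).val := by
  have h := Fintype.card_congr ((Fintype.equivFin τ).subtypeEquiv
    (p := fun i => (Fintype.equivFin τ i).val < (Fintype.equivFin τ j).val)
    (q := fun i => i.val < (Fintype.equivFin τ j).val) fun _ => Iff.rfl)
  exact h.trans (Fintype.card_fin_lt_of_le (Fintype.equivFin τ j).2.le)

/-- parameters of the tuples that are not primitive -/
abbrev rlp_X (τ : Type) [Fintype τ] : Type :=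
  Σ j : τ, Σ q : ℕ, rlp_lo τ (Fintype.equivFin τ j).val → Fin (q + 2)

/-- the matrix of a parameter -/
def rlp_N (x : rlp_X τ) : Matrix τ τ ℤ := rlp_M x.1 ((x.2.1 + 2 : ℕ) : ℤ) (rlp_ext (zr x.2.2))

theorem rlp_exists {Y : Matrix τ ι ℤ} (hI : Ind Y) (hP : ¬ Prim Y) :
    ∃ x : rlp_X τ × {Z : Matrix τ ι ℤ // Ind Z}, rlp_N x.1 * x.2.1 = Y := by
  classical
  set e := Fintype.equivFin τ with he
  let T : ℕ → Prop := fun n => Prim (Y.submatrix (Subtype.val : rlp_lo τ n → τ) id)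
  have h0 : T 0 := ⟨0, by
    ext a
    exact absurd a.2 (Nat.not_lt_zero _)⟩
  have hex : ∃ n, n < Fintype.card τ ∧ ¬ T (n + 1) := by
    by_contra hn
    push Not at hn
    have h1 : T (Fintype.card τ) := by
      rcases Nat.eq_zero_or_pos (Fintype.card τ) with h | h
      · rw [h]
        exact h0
      · have h2 := hn (Fintype.card τ - 1) (by omega)
        rwa [Nat.sub_add_cancel h] at h2
    exact hP (h1.submatrix (f := fun i : τ => (⟨i, (e i).2⟩ : rlp_lo τ (Fintype.card τ)))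
      fun a b h => congrArg Subtype.val h)
  obtain ⟨hn, hT⟩ := Nat.find_spec hex
  have hT0 : T (Nat.find hex) := by
    rcases Nat.eq_zero_or_pos (Nat.find hex) with h | h
    · rw [h]
      exact h0
    · have h2 := Nat.find_min hex (m := Nat.find hex - 1) (by omega)
      rw [Nat.sub_add_cancel h] at h2
      by_contra h3
      exact h2 ⟨by omega, h3⟩
  obtain ⟨j, hj⟩ : ∃ j : τ, (e j).val = Nat.find hex := ⟨e.symm ⟨_, hn⟩, by simp⟩
  rw [← hj] at hT hT0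
  have hz : ∀ κ : rlp_lo τ (e j).val → ℤ, rlp_ext κ j = 0 := fun κ => by
    rw [rlp_ext, dif_neg (lt_irrefl _)]
  have hv : ∀ κ : rlp_lo τ (e j).val → ℤ,
      Y j ≠ κ ᵥ* Y.submatrix (Subtype.val : rlp_lo τ (e j).val → τ) id := fun κ hκ => by
    have h1 : Pi.single j 1 ᵥ* Y = rlp_ext κ ᵥ* Y := by
      rw [rlp_ext_vecMul, ← hκ, Matrix.single_one_vecMul]
      rfl
    have h2 := congrFun (Matrix.vecMul_injective_iff.2 hI h1) j
    rw [hz, Pi.single_eq_same] at h2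
    exact one_ne_zero h2
  obtain ⟨w, q, κ, hq, hw, hY⟩ := Prim.extend hT0 hv
  have hq1 : q ≠ 1 := by
    rintro rfl
    have h1 := rlp_prim_shear hw κ
    rw [Nat.cast_one, one_smul] at hY
    rw [← hY] at h1
    let f : rlp_lo τ ((e j).val + 1) → rlp_lo τ (e j).val ⊕ Unit := fun i =>
      if h : (e i.1).val < (e j).val then Sum.inl ⟨i.1, h⟩ else Sum.inr ()
    have hf : ∀ i, Sum.elim Subtype.val (fun _ => j) (f i) = i.1 := fun i => by
      by_cases h : (e i.1).val < (e j).val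
      · simp only [f, dif_pos h, Sum.elim_inl]
      · simp only [f, dif_neg h, Sum.elim_inr]
        have h2 : (e i.1).val < (e j).val + 1 := i.2
        exact e.injective (Fin.ext (by omega))
    have hfi : Function.Injective f := fun a b h => Subtype.ext (by rw [← hf a, ← hf b, h])
    have h3 : (snc (Y.submatrix (Subtype.val : rlp_lo τ (e j).val → τ) id) (Y j)).submatrix f id =
        Y.submatrix (Subtype.val : rlp_lo τ ((e j).val + 1) → τ) id := by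
      funext i
      change snc _ _ (f i) = Y i.1
      rw [← hf i]
      rcases f i with a | a <;> rfl
    have h4 := h1.submatrix hfi
    rw [h3] at h4
    exact hT h4
  obtain ⟨p, rfl⟩ : ∃ p, q = p + 2 := ⟨q - 2, by omega⟩
  have hp : (0 : ℤ) < ((p + 2 : ℕ) : ℤ) := by positivity
  let κ0 : rlp_lo τ (e j).val → Fin (p + 2) := fun i =>
    ⟨(κ i % ((p + 2 : ℕ) : ℤ)).toNat, by
      have h1 := Int.emod_lt_of_pos (κ i) hp
      have h2 := Int.emod_nonneg (κ i) hp.ne'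
      omega⟩
  let κ1 : rlp_lo τ (e j).val → ℤ := fun i => κ i / ((p + 2 : ℕ) : ℤ)
  have hκ : κ = ((p + 2 : ℕ) : ℤ) • κ1 + zr κ0 := by
    funext i
    have h2 := Int.toNat_of_nonneg (Int.emod_nonneg (κ i) hp.ne')
    change κ i = ((p + 2 : ℕ) : ℤ) * (κ i / ((p + 2 : ℕ) : ℤ)) +
      (((κ i % ((p + 2 : ℕ) : ℤ)).toNat : ℕ) : ℤ)
    rw [h2]
    exact (Int.mul_ediv_add_emod _ _).symm
  have hM : rlp_N (⟨j, p, κ0⟩ : rlp_X τ) * Y.updateRow j
      (w + κ1 ᵥ* Y.submatrix (Subtype.val : rlp_lo τ (e j).val → τ) id) = Y := by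
    change rlp_M j ((p + 2 : ℕ) : ℤ) (rlp_ext (zr κ0)) * _ = Y
    rw [rlp_M_mul, rlp_vecMul_updateRow (hz _), Matrix.updateRow_self, Matrix.updateRow_idem,
      rlp_ext_vecMul]
    have h1 : ((p + 2 : ℕ) : ℤ) •
        (w + κ1 ᵥ* Y.submatrix (Subtype.val : rlp_lo τ (e j).val → τ) id) +
        zr κ0 ᵥ* Y.submatrix (Subtype.val : rlp_lo τ (e j).val → τ) id = Y j := by
      rw [hY, hκ, Matrix.add_vecMul, Matrix.smul_vecMul, smul_add]
      abel
    rw [h1, Matrix.updateRow_eq_self]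
  exact ⟨(⟨j, p, κ0⟩, ⟨_, rlp_ind_of_mul (hM.symm ▸ hI)⟩), hM⟩

end Pool.Agent.Eps.P
end
end

-- part Pool.Agent.Lib.MP_3bda03_nt.P.RLp
section

/-!
Sums over primitive frames against the product intensity.
-/

set_option autoImplicit false

noncomputable section

open MeasureTheory Matrix
open scoped ENNReal

namespace Pool.Agent.Eps.P

open Pool.Agent.Eps.H

variable {ι : Type} [Fintype ι] [DecidableEq ι] {Ω : Type} [MeasurableSpace Ω]
  {P : Measure Ω} {g : Ω → Matrix ι ι ℝ} {Λ : Measure (ι → ℝ)} {d : ℕ}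
  {τ : Type} [Fintype τ] [DecidableEq τ]

theorem rlp_term {a d : ℕ} (h : a + 3 ≤ d) (q : ℕ) :
    ((q : ℝ) + 2) ^ a / ((q : ℝ) + 2) ^ d ≤
      2 ^ a / 2 ^ d * (4 / (((q : ℝ) + 1) * (q + 2)) - 4 / (((q : ℝ) + 2) * (q + 3))) := by
  obtain ⟨s, rfl⟩ := Nat.exists_eq_add_of_le h
  have hq : (0 : ℝ) ≤ q := Nat.cast_nonneg q
  have h1 : ((q : ℝ) + 2) ^ a / ((q : ℝ) + 2) ^ (a + 3 + s) =
      1 / ((q : ℝ) + 2) ^ s * (1 / ((q : ℝ) + 2) ^ 3) := by
    field_simp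
    ring
  have h2 : (2 : ℝ) ^ a / 2 ^ (a + 3 + s) = 1 / 2 ^ s * (1 / 8) := by
    field_simp
    ring
  have h3 : 1 / ((q : ℝ) + 2) ^ s ≤ 1 / 2 ^ s :=
    one_div_le_one_div_of_le (by positivity) (pow_le_pow_left₀ (by norm_num) (by linarith) s)
  have h4 : 1 / 8 * (4 / (((q : ℝ) + 1) * (q + 2)) - 4 / (((q : ℝ) + 2) * (q + 3))) =
      1 / (((q : ℝ) + 1) * (q + 2) * (q + 3)) := by
    field_simp
    ring
  have h5 : 1 / ((q : ℝ) + 2) ^ 3 ≤ 1 / (((q : ℝ) + 1) * (q + 2) * (q + 3)) :=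
    one_div_le_one_div_of_le (by positivity) (by nlinarith)
  rw [h1, h2, mul_assoc, h4]
  exact mul_le_mul h3 h5 (by positivity) (by positivity)

theorem tsum_pow_le {a d : ℕ} (h : a + 3 ≤ d) :
    ∑' q : ℕ, ((q + 2 : ℕ) : ℝ≥0∞) ^ a * (((q + 2 : ℕ) : ℝ≥0∞) ^ d)⁻¹ ≤
      ENNReal.ofReal (imp a d) := by
  have h1 : ∀ q : ℕ, ((q + 2 : ℕ) : ℝ≥0∞) ^ a * (((q + 2 : ℕ) : ℝ≥0∞) ^ d)⁻¹ =
      ENNReal.ofReal (((q : ℝ) + 2) ^ a / ((q : ℝ) + 2) ^ d) := fun q => by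
    have hq : (0 : ℝ) < (q : ℝ) + 2 := by positivity
    have h2 : ((q + 2 : ℕ) : ℝ≥0∞) = ENNReal.ofReal ((q : ℝ) + 2) := by
      rw [← ENNReal.ofReal_natCast]
      push_cast
      rfl
    rw [ENNReal.ofReal_div_of_pos (pow_pos hq d), ENNReal.ofReal_pow hq.le,
      ENNReal.ofReal_pow hq.le, h2, div_eq_mul_inv]
  have h3 : ∀ n : ℕ, ∑ q ∈ Finset.range n, ((q : ℝ) + 2) ^ a / ((q : ℝ) + 2) ^ d ≤
      2 ^ a / 2 ^ d * (2 - 4 / (((n : ℝ) + 1) * (n + 2))) := by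
    intro n
    induction n with
    | zero => norm_num
    | succ n ih =>
      rw [Finset.sum_range_succ]
      refine (add_le_add ih (rlp_term h n)).trans (le_of_eq ?_)
      push_cast
      rw [show (n : ℝ) + 1 + 1 = n + 2 by ring, show (n : ℝ) + 1 + 2 = n + 3 by ring]
      ring
  refine ENNReal.tsum_le_of_sum_range_le fun n => ?_
  simp only [h1]
  rw [← ENNReal.ofReal_sum_of_nonneg fun q _ => by positivity]
  refine ENNReal.ofReal_le_ofReal ((h3 n).trans ?_)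
  have h4 : (0 : ℝ) ≤ 4 / (((n : ℝ) + 1) * (n + 2)) := by positivity
  have h5 : (0 : ℝ) ≤ 2 ^ a / 2 ^ d := by positivity
  have h6 : imp a d = 2 ^ a / 2 ^ d * 2 := by
    unfold imp
    ring
  rw [h6]
  exact mul_le_mul_of_nonneg_left (by linarith) h5

theorem rlp_imp_sum (a d : ℕ) : ∑ j ∈ Finset.range a, imp j d ≤ imp a d := by
  induction a with
  | zero =>
    rw [Finset.sum_range_zero]
    unfold imp
    positivity
  | succ a ih =>
    rw [Finset.sum_range_succ]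
    have h : imp (a + 1) d = imp a d + imp a d := by
      unfold imp
      ring
    linarith

theorem rlp_cover {α β : Type} {p : α → Prop} (φ : β → α) (h : ∀ a, p a → ∃ b, φ b = a)
    (f : α → ℝ≥0∞) : ∑' a : {a // p a}, f a.1 ≤ ∑' b, f (φ b) := by
  choose s hs using h
  have hi : Function.Injective fun a : {a // p a} => s a.1 a.2 := fun a b e =>
    Subtype.ext (by rw [← hs a.1 a.2, ← hs b.1 b.2]; exact congrArg φ e)
  refine le_trans (le_of_eq (tsum_congr fun a => ?_))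
    (ENNReal.tsum_comp_le_tsum_of_injective hi fun b => f (φ b))
  rw [hs]

theorem rlp_inj {α β : Type} {p : α → Prop} (φ : β → α) (hφ : Function.Injective φ)
    (h : ∀ b, p (φ b)) (f : α → ℝ≥0∞) : ∑' b, f (φ b) ≤ ∑' a : {a // p a}, f a.1 :=
  ENNReal.tsum_comp_le_tsum_of_injective (f := fun b => (⟨φ b, h b⟩ : {a // p a}))
    (fun _ _ e => hφ (congrArg Subtype.val e)) fun a => f a.1

theorem rlp_split {α : Type} (p p' : α → Prop) (f : α → ℝ≥0∞) :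
    ∑' a : {a // p a}, f a.1 ≤ ∑' a : {a // p' a}, f a.1 + ∑' a : {a // p a ∧ ¬ p' a}, f a.1 := by
  refine le_trans (ENNReal.tsum_mono_subtype f (s := {a | p a})
    (t := {a | p' a} ∪ {a | p a ∧ ¬ p' a}) fun a ha => ?_) (ENNReal.tsum_union_le f _ _)
  by_cases h : p' a
  · exact Or.inl h
  · exact Or.inr ⟨ha, h⟩

omit [DecidableEq ι] [Fintype τ] [DecidableEq τ] in
theorem rlp_meas (hg : Measurable g) {B : Type} [Countable B] (φ : B → Matrix τ ι ℤ)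
    {F : Matrix τ ι ℝ → ℝ≥0∞} (hF : Measurable F) :
    Measurable fun ω => ∑' b, F (cz (φ b) * g ω) :=
  Measurable.tsum fun _ => hF.comp (Measurable.mxmul measurable_const hg)

variable (R : RL P g Λ d)
include R

theorem RL.rlp_dil (j : τ) {q : ℕ} (hq : 1 ≤ q) (G : Matrix τ ι ℝ → ℝ≥0∞) (hG : Measurable G) :
    ∫⁻ U, G (cz (rlp_M j q 0) * U) ∂pw τ Λ ≤ ((q : ℝ≥0∞) ^ d)⁻¹ * ∫⁻ U, G U ∂pw τ Λ := by
  have := R.sf
  rw [← lintegral_const_mul _ hG]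
  have h1 : Measurable fun U : Matrix τ ι ℝ => G (cz (rlp_M j q 0) * U) :=
    hG.comp (Measurable.mxmul measurable_const measurable_id)
  refine lintegral_le_of_lmarginal_le (μ := fun _ : τ => Λ) {j}
    (f := fun U : τ → ι → ℝ => G (cz (rlp_M j q 0) * (Matrix.of U)))
    (g := fun U : τ → ι → ℝ => ((q : ℝ≥0∞) ^ d)⁻¹ * G U) h1 (hG.const_mul _) ?_
  rw [lmarginal_singleton, lmarginal_singleton]
  intro x
  have h2 : Measurable fun y : ι → ℝ => G (Function.update x j y) :=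
    hG.comp (measurable_update (a := j) x)
  have h3 : ∀ y : ι → ℝ, G (cz (rlp_M j q 0) * Matrix.of (Function.update x j y)) =
      G (Function.update x j ((q : ℝ) • y)) := fun y => by
    rw [rlp_cz_dil]
    change G (Function.update (Function.update x j y) j ((q : ℝ) • Function.update x j y j)) = _
    rw [Function.update_self, Function.update_idem]
  simp only [h3]
  rw [lintegral_const_mul _ h2]
  exact R.dil q hq _ h2

theorem RL.rlp_frac (h : Fintype.card τ < d) {j : τ} {q : ℕ} (hq : 1 ≤ q) {c : τ → ℤ}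
    (hc : c j = 0) (F : Matrix τ ι ℝ → ℝ≥0∞) (hF : Measurable F) :
    ∫⁻ U, F (cz (rlp_M j q c) * U) ∂pw τ Λ ≤ ((q : ℝ≥0∞) ^ d)⁻¹ * ∫⁻ U, F U ∂pw τ Λ := by
  have h1 : rlp_M j q c = (rlp_gl hc).val * rlp_M j q 0 := by
    change _ = rlp_M j 1 c * _
    rw [rlp_M_M hc, zero_add]
  rw [← R.gl h (rlp_gl hc) F hF, h1, cz_mul]
  simp only [Matrix.mul_assoc]
  exact R.rlp_dil j hq (fun U => F (cz (rlp_gl hc).val * U))
    (hF.comp (Measurable.mxmul measurable_const measurable_id))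

theorem RL.prim_le (h : Fintype.card τ < d) (F : Matrix τ ι ℝ → ℝ≥0∞) (hF : Measurable F) :
    ∫⁻ ω, ∑' Y : {Y : Matrix τ ι ℤ // Prim Y}, F (cz Y.1 * g ω) ∂P ≤ ∫⁻ U, F U ∂pw τ Λ := by
  rw [← R.rog τ h F hF]
  exact lintegral_mono fun ω => rlp_inj (p := Ind) (fun Y : {Y : Matrix τ ι ℤ // Prim Y} => Y.1)
    Subtype.val_injective (fun Y => Y.2.ind) fun Y => F (cz Y * g ω)

theorem RL.rlp_bad (h : Fintype.card τ + 2 ≤ d) (F : Matrix τ ι ℝ → ℝ≥0∞) (hF : Measurable F) :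
    ∫⁻ ω, ∑' Y : {Y : Matrix τ ι ℤ // Ind Y ∧ ¬ Prim Y}, F (cz Y.1 * g ω) ∂P ≤
      ENNReal.ofReal (imp (Fintype.card τ) d) * ∫⁻ U, F U ∂pw τ Λ := by
  have h' : Fintype.card τ < d := by omega
  calc ∫⁻ ω, ∑' Y : {Y : Matrix τ ι ℤ // Ind Y ∧ ¬ Prim Y}, F (cz Y.1 * g ω) ∂P
      ≤ ∫⁻ ω, ∑' x : rlp_X τ, ∑' Z : {Z : Matrix τ ι ℤ // Ind Z},
          F (cz (rlp_N x * Z.1) * g ω) ∂P := by
        refine lintegral_mono fun ω => ?_
        refine (rlp_cover (p := fun Y : Matrix τ ι ℤ => Ind Y ∧ ¬ Prim Y)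
          (fun x : rlp_X τ × {Z : Matrix τ ι ℤ // Ind Z} => rlp_N x.1 * x.2.1)
          (fun Y hY => rlp_exists hY.1 hY.2) fun Y => F (cz Y * g ω)).trans (le_of_eq ?_)
        exact ENNReal.tsum_prod'
    _ = ∑' x : rlp_X τ, ∫⁻ U, F (cz (rlp_N x) * U) ∂pw τ Λ := by
        rw [lintegral_tsum fun x => (rlp_meas R.meas _ hF).aemeasurable]
        refine tsum_congr fun x => ?_
        rw [← R.rog τ h' (fun U => F (cz (rlp_N x) * U))
          (hF.comp (Measurable.mxmul measurable_const measurable_id))]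
        simp only [cz_mul, Matrix.mul_assoc]
    _ ≤ ∑' x : rlp_X τ, (((x.2.1 + 2 : ℕ) : ℝ≥0∞) ^ d)⁻¹ * ∫⁻ U, F U ∂pw τ Λ :=
        ENNReal.tsum_le_tsum fun x => R.rlp_frac h' (by omega)
          (by rw [rlp_ext, dif_neg (lt_irrefl _)]) F hF
    _ = (∑ j : τ, ∑' q : ℕ, ((q + 2 : ℕ) : ℝ≥0∞) ^ (Fintype.equivFin τ j).val *
          (((q + 2 : ℕ) : ℝ≥0∞) ^ d)⁻¹) * ∫⁻ U, F U ∂pw τ Λ := by
        rw [ENNReal.tsum_mul_right, ENNReal.tsum_sigma', tsum_fintype]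
        refine congrArg (· * _) (Finset.sum_congr rfl fun j _ => ?_)
        rw [ENNReal.tsum_sigma']
        refine tsum_congr fun q => ?_
        rw [tsum_fintype]
        simp only [Finset.sum_const, Finset.card_univ, Fintype.card_fun, Fintype.card_fin,
          nsmul_eq_mul, rlp_card_lo, Nat.cast_pow]
    _ ≤ ENNReal.ofReal (imp (Fintype.card τ) d) * ∫⁻ U, F U ∂pw τ Λ := by
        refine mul_le_mul_left ?_ _
        have h1 : ∀ a, 0 ≤ imp a d := fun a => by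
          unfold imp
          positivity
        refine (Finset.sum_le_sum fun j _ => tsum_pow_le (d := d)
          (by have := (Fintype.equivFin τ j).2; omega)).trans ?_
        rw [← ENNReal.ofReal_sum_of_nonneg fun j _ => h1 _]
        refine ENNReal.ofReal_le_ofReal (le_trans (le_of_eq ?_) (rlp_imp_sum _ d))
        rw [← Fin.sum_univ_eq_sum_range (fun j => imp j d)]
        exact (Fintype.equivFin τ).sum_comp fun j => imp j.val d

theorem RL.le_prim (h : Fintype.card τ + 2 ≤ d) (F : Matrix τ ι ℝ → ℝ≥0∞) (hF : Measurable F) :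
    ∫⁻ U, F U ∂pw τ Λ ≤ ∫⁻ ω, ∑' Y : {Y : Matrix τ ι ℤ // Prim Y}, F (cz Y.1 * g ω) ∂P +
      ENNReal.ofReal (imp (Fintype.card τ) d) * ∫⁻ U, F U ∂pw τ Λ := by
  refine le_trans ?_ (add_le_add_right (R.rlp_bad h F hF) _)
  rw [← R.rog τ (by omega) F hF, ← lintegral_add_left (rlp_meas R.meas _ hF)]
  exact lintegral_mono fun ω => rlp_split Ind Prim fun Y => F (cz Y * g ω)

theorem RL.rlp_sq (h : Fintype.card τ + 2 ≤ d) {B : Type} (φ : B → Matrix τ ι ℤ)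
    (hφ : Function.Injective φ) (hI : ∀ b, Ind (φ b)) (hP : ∀ Z, Prim Z → ∃ b, φ b = Z)
    (F : Matrix τ ι ℝ → ℝ≥0∞) (hF : Measurable F) :
    ∫⁻ ω, ∑' b, F (cz (φ b) * g ω) ∂P ≤ ∫⁻ U, F U ∂pw τ Λ ∧
    ∫⁻ U, F U ∂pw τ Λ ≤ ∫⁻ ω, ∑' b, F (cz (φ b) * g ω) ∂P +
      ENNReal.ofReal (imp (Fintype.card τ) d) * ∫⁻ U, F U ∂pw τ Λ := by
  constructor
  · rw [← R.rog τ (by omega) F hF]
    exact lintegral_mono fun ω => rlp_inj φ hφ hI fun Y => F (cz Y * g ω)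
  · exact (R.le_prim h F hF).trans (add_le_add_left
      (lintegral_mono fun ω => rlp_cover φ hP fun Y => F (cz Y * g ω)) _)

/-- a primitive frame and one more vector, under any condition between primitive and
independent -/
theorem RL.one (h : Fintype.card τ + 3 ≤ d) (C : Matrix τ ι ℤ → (ι → ℤ) → Prop)
    (h1 : ∀ Y k, Prim (snc Y k) → C Y k) (h2 : ∀ Y k, C Y k → Ind (snc Y k))
    (F : Matrix τ ι ℝ → (ι → ℝ) → ℝ≥0∞) (hF : Measurable (Function.uncurry F)) :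
    ∫⁻ ω, ∑' Y : {Y : Matrix τ ι ℤ // Prim Y}, ∑' k : {k : ι → ℤ // C Y.1 k},
        F (cz Y.1 * g ω) (lv k.1 (g ω)) ∂P ≤ ∫⁻ U, ∫⁻ y, F U y ∂Λ ∂pw τ Λ ∧
    ∫⁻ U, ∫⁻ y, F U y ∂Λ ∂pw τ Λ ≤
      ∫⁻ ω, ∑' Y : {Y : Matrix τ ι ℤ // Prim Y}, ∑' k : {k : ι → ℤ // C Y.1 k},
        F (cz Y.1 * g ω) (lv k.1 (g ω)) ∂P +
      ENNReal.ofReal (imp (Fintype.card τ + 1) d) * ∫⁻ U, ∫⁻ y, F U y ∂Λ ∂pw τ Λ := by
  have := R.sf
  have hc : Fintype.card (τ ⊕ Unit) = Fintype.card τ + 1 := by simp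
  have hG : Measurable fun Z : Matrix (τ ⊕ Unit) ι ℝ => F Z.toRows₁ (Z (Sum.inr ())) :=
    hF.comp (Measurable.prodMk (f := fun Z : Matrix (τ ⊕ Unit) ι ℝ => Z.toRows₁)
      (measurable_mx.2 fun a i => measurable_entry (Sum.inl a) i) (measurable_row _))
  have key := R.rlp_sq (τ := τ ⊕ Unit) (by omega)
    (fun b : Σ Y : {Y : Matrix τ ι ℤ // Prim Y}, {k : ι → ℤ // C Y.1 k} => snc b.1.1 b.2.1)
    (by
      rintro ⟨⟨Y, hY⟩, k, hk⟩ ⟨⟨Y', hY'⟩, k', hk'⟩ e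
      obtain rfl : Y = Y' := congrArg Matrix.toRows₁ e
      obtain rfl : k = k' := congrFun e (Sum.inr ())
      rfl)
    (fun b => h2 _ _ b.2.2)
    (fun Z hZ => by
      have e : snc Z.toRows₁ (Z (Sum.inr ())) = Z := by
        funext a
        rcases a with a | a <;> rfl
      exact ⟨⟨⟨Z.toRows₁, hZ.submatrix Sum.inl_injective⟩, Z (Sum.inr ()),
        h1 _ _ (e.symm ▸ hZ)⟩, e⟩)
    _ hG
  rw [lintegral_pw_snc _ hG, hc] at key
  simp only [ENNReal.tsum_sigma', cz_snc] at key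
  exact key

/-- a primitive frame and two more vectors -/
theorem RL.two (h : Fintype.card τ + 4 ≤ d)
    (F : Matrix τ ι ℝ → (ι → ℝ) → (ι → ℝ) → ℝ≥0∞)
    (hF : Measurable fun p : Matrix τ ι ℝ × (ι → ℝ) × (ι → ℝ) => F p.1 p.2.1 p.2.2) :
    ∫⁻ ω, ∑' Y : {Y : Matrix τ ι ℤ // Prim Y},
        ∑' p : {p : (ι → ℤ) × (ι → ℤ) // Ind (snc2 Y.1 p.1 p.2)},
        F (cz Y.1 * g ω) (lv p.1.1 (g ω)) (lv p.1.2 (g ω)) ∂P ≤
      ∫⁻ U, ∫⁻ y, ∫⁻ y', F U y y' ∂Λ ∂Λ ∂pw τ Λ ∧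
    ∫⁻ U, ∫⁻ y, ∫⁻ y', F U y y' ∂Λ ∂Λ ∂pw τ Λ ≤
      ∫⁻ ω, ∑' Y : {Y : Matrix τ ι ℤ // Prim Y},
        ∑' p : {p : (ι → ℤ) × (ι → ℤ) // Ind (snc2 Y.1 p.1 p.2)},
        F (cz Y.1 * g ω) (lv p.1.1 (g ω)) (lv p.1.2 (g ω)) ∂P +
      ENNReal.ofReal (imp (Fintype.card τ + 2) d) *
        ∫⁻ U, ∫⁻ y, ∫⁻ y', F U y y' ∂Λ ∂Λ ∂pw τ Λ := by
  have := R.sf
  have hc : Fintype.card (τ ⊕ Fin 2) = Fintype.card τ + 2 := by simp
  have hG : Measurable fun Z : Matrix (τ ⊕ Fin 2) ι ℝ =>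
      F Z.toRows₁ (Z (Sum.inr 0)) (Z (Sum.inr 1)) :=
    hF.comp (Measurable.prodMk (f := fun Z : Matrix (τ ⊕ Fin 2) ι ℝ => Z.toRows₁)
      (measurable_mx.2 fun a i => measurable_entry (Sum.inl a) i)
      ((measurable_row _).prodMk (measurable_row _)))
  have key := R.rlp_sq (τ := τ ⊕ Fin 2) (by omega)
    (fun b : Σ Y : {Y : Matrix τ ι ℤ // Prim Y},
      {p : (ι → ℤ) × (ι → ℤ) // Ind (snc2 Y.1 p.1 p.2)} => snc2 b.1.1 b.2.1.1 b.2.1.2)
    (by
      rintro ⟨⟨Y, hY⟩, ⟨k, l⟩, hk⟩ ⟨⟨Y', hY'⟩, ⟨k', l'⟩, hk'⟩ e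
      obtain rfl : Y = Y' := congrArg Matrix.toRows₁ e
      obtain rfl : k = k' := congrFun e (Sum.inr 0)
      obtain rfl : l = l' := congrFun e (Sum.inr 1)
      rfl)
    (fun b => b.2.2)
    (fun Z hZ => by
      have e : snc2 Z.toRows₁ (Z (Sum.inr 0)) (Z (Sum.inr 1)) = Z := by
        funext a
        rcases a with a | a
        · rfl
        · fin_cases a <;> rfl
      exact ⟨⟨⟨Z.toRows₁, hZ.submatrix Sum.inl_injective⟩, (Z (Sum.inr 0), Z (Sum.inr 1)),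
        e.symm ▸ hZ.ind⟩, e⟩)
    _ hG
  rw [lintegral_pw_snc2 _ hG, hc] at key
  simp only [ENNReal.tsum_sigma', cz_snc2] at key
  exact key

end Pool.Agent.Eps.P
end
end
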