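import Pool.Agent.Lib.MP_3bda03_nt.P.Mom1
import Pool.Agent.Lib.MP_3bda03_nt.P.RLp
import Pool.Agent.Lib.MP_3bda03_nt.H.Rogers
import Pool.Agent.Lib.MP_3bda03_nt.P.Mform
import Pool.Agent.Lib.MP_3bda03_nt.H.Omega
import Pool.Agent.Lib.MP_3bda03_nt.P.Count
import Pool.Agent.Lib.MP_3bda03_nt.H.Ana

-- part Pool.Agent.Lib.MP_3bda03_nt.P.PrimC1x
section

/-!
Numerical facts for the fractional relations.
-/

set_option autoImplicit false

noncomputable section

open scoped ENNReal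

namespace Pool.Agent.Eps.P

theorem primC1_log3 : Real.log 3 ≤ 1.09867 := by
  rw [Real.log_le_iff_le_exp (by norm_num)]
  have h1 := Real.exp_one_gt_d9
  have h2 : ∑ i ∈ Finset.range 5, (0.09867 : ℝ) ^ i / (i.factorial : ℝ) ≤ Real.exp 0.09867 :=
    Real.sum_le_exp_of_nonneg (by norm_num) 5
  have h3 : (1.1037 : ℝ) ≤ ∑ i ∈ Finset.range 5, (0.09867 : ℝ) ^ i / (i.factorial : ℝ) := by
    simp only [Finset.sum_range_succ, Finset.sum_range_zero, Nat.factorial]
    norm_num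
  have h4 : Real.exp 1.09867 = Real.exp 1 * Real.exp 0.09867 := by
    rw [← Real.exp_add]; norm_num
  rw [h4]
  nlinarith [Real.exp_pos 0.09867]

theorem primC1_log48 : Real.log 0.00048 ≤ -7.6416 := by
  rw [Real.log_le_iff_le_exp (by norm_num)]
  have h1 := Real.exp_one_lt_d9
  have h2 : ∑ i ∈ Finset.range 6, (0.3584 : ℝ) ^ i / (i.factorial : ℝ) ≤ Real.exp 0.3584 :=
    Real.sum_le_exp_of_nonneg (by norm_num) 6
  have h3 : (1.43103 : ℝ) ≤ ∑ i ∈ Finset.range 6, (0.3584 : ℝ) ^ i / (i.factorial : ℝ) := by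
    simp only [Finset.sum_range_succ, Finset.sum_range_zero, Nat.factorial]
    norm_num
  have h8 : Real.exp 8 ≤ 2981 := by
    have : Real.exp 8 = Real.exp 1 ^ 8 := by rw [← Real.exp_nat_mul]; norm_num
    rw [this]
    calc Real.exp 1 ^ 8 ≤ (2.7182818286 : ℝ) ^ 8 :=
          pow_le_pow_left₀ (Real.exp_pos 1).le h1.le 8
      _ ≤ 2981 := by norm_num
  have h4 : Real.exp (-7.6416) * Real.exp 8 = Real.exp 0.3584 := by
    rw [← Real.exp_add]; norm_num
  nlinarith [Real.exp_pos (-7.6416 : ℝ)]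

theorem primC1_nine {v : ℝ} {a : ℕ} (ha : (a : ℝ) ≤ v / 3) :
    (9 : ℝ) ^ a * (2 : ℝ) ^ (-v) ≤ Real.exp (0.0393 * v) := by
  have h9 : (9 : ℝ) ^ a = Real.exp (a * (2 * Real.log 3)) := by
    rw [Real.exp_nat_mul, show (2 : ℝ) * Real.log 3 = (2 : ℕ) * Real.log 3 by norm_num,
      Real.exp_nat_mul, Real.exp_log (by norm_num)]
    norm_num
  rw [h9, Real.rpow_def_of_pos (by norm_num), ← Real.exp_add, Real.exp_le_exp]
  have h2 := Real.log_two_gt_d9
  have h3 := primC1_log3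
  have h0 : (0 : ℝ) ≤ a := Nat.cast_nonneg a
  nlinarith

theorem primC1_two_pow {v c : ℝ} {k : ℕ} (h : c ≤ -(k : ℝ)) (hv : v = c) :
    (2 : ℝ) ^ v ≤ 1 / 2 ^ k := by
  rw [hv]
  calc (2 : ℝ) ^ c ≤ (2 : ℝ) ^ (-(k : ℝ)) := Real.rpow_le_rpow_of_exponent_le (by norm_num) h
    _ = 1 / 2 ^ k := by rw [Real.rpow_neg (by norm_num), Real.rpow_natCast, one_div]

theorem primC1_term {v s : ℝ} (hv : 97 / 2 ≤ v) (hs : 5 ≤ s) {a : ℝ} (ha : a ≤ v / 3 + 1) :
    s ^ (a / 2) * (s ^ (-v) * (0.3 * s) ^ (v / 6)) ≤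
      2.24 * Real.exp (-(1.2736 * v)) * (5 / s) ^ 31 := by
  have hs0 : 0 < s := by linarith
  have hL : Real.log 5 ≤ Real.log s := Real.log_le_log (by norm_num) hs
  have hL5 : 0 < Real.log 5 := Real.log_pos (by norm_num)
  have e1 : (5 / s) ^ 31 = Real.exp (31 * (Real.log 5 - Real.log s)) := by
    rw [show (31 : ℝ) = (31 : ℕ) by norm_num, Real.exp_nat_mul, Real.exp_sub,
      Real.exp_log (by norm_num), Real.exp_log hs0]
  have e2 : Real.log 0.00048 = Real.log 0.3 - 4 * Real.log 5 := by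
    rw [show (0.00048 : ℝ) = 0.3 / 5 ^ 4 by norm_num, Real.log_div (by norm_num) (by norm_num),
      Real.log_pow]
    norm_num
  have e3 : Real.exp (Real.log 5 / 2) ≤ 2.24 := by
    have : Real.exp (Real.log 5 / 2) ^ 2 = 5 := by
      rw [← Real.exp_nat_mul, show ((2 : ℕ) : ℝ) * (Real.log 5 / 2) = Real.log 5 by
        push_cast; ring, Real.exp_log (by norm_num)]
    nlinarith [Real.exp_pos (Real.log 5 / 2)]
  have h48 := primC1_log48
  rw [e1, Real.rpow_def_of_pos hs0, Real.rpow_def_of_pos hs0,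
    Real.rpow_def_of_pos (by positivity), Real.log_mul (by norm_num) hs0.ne', ← Real.exp_add,
    ← Real.exp_add]
  calc _ ≤ Real.exp (Real.log 5 / 2 + (-(1.2736 * v) + 31 * (Real.log 5 - Real.log s))) := by
        rw [Real.exp_le_exp]
        have k1 : Real.log s * (a / 2) ≤ Real.log s * (v / 6 + 1 / 2) :=
          mul_le_mul_of_nonneg_left (by linarith) (by linarith)
        have k2 : 0 ≤ (Real.log s - Real.log 5) * (2 * v / 3 - 1 / 2 - 31) :=
          mul_nonneg (by linarith) (by linarith)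
        have k3 : (Real.log 0.3 - 4 * Real.log 5) * (v / 6) ≤ -7.6416 * (v / 6) :=
          mul_le_mul_of_nonneg_right (by linarith) (by linarith)
        nlinarith
    _ ≤ _ := by
        rw [Real.exp_add, Real.exp_add, mul_assoc]
        exact mul_le_mul_of_nonneg_right e3 (by positivity)

theorem primC1_zeta : ∑' n : ℕ, ENNReal.ofReal (1 / (n : ℝ) ^ 2) ≤ 2 := by
  rw [← ENNReal.ofReal_tsum_of_nonneg (fun n => by positivity) hasSum_zeta_two.summable,
    hasSum_zeta_two.tsum_eq]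
  have : Real.pi ^ 2 / 6 ≤ 2 := by nlinarith [Real.pi_lt_d2, Real.pi_pos]
  calc _ ≤ ENNReal.ofReal 2 := ENNReal.ofReal_le_ofReal this
    _ = 2 := by norm_num

theorem primC1_zeta' : ∑' n : ℕ, ENNReal.ofReal (1 / ((n + 1 : ℕ) : ℝ) ^ 2) ≤ 2 :=
  (ENNReal.tsum_comp_le_tsum_of_injective (f := fun n : ℕ => n + 1) (add_left_injective 1)
    (fun n : ℕ => ENNReal.ofReal (1 / (n : ℝ) ^ 2))).trans primC1_zeta

theorem primC1_zetaZ : ∑' n : ℤ, ENNReal.ofReal (1 / (n : ℝ) ^ 2) ≤ 4 := by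
  rw [tsum_of_nat_of_neg_add_one ENNReal.summable ENNReal.summable]
  have h1 : ∑' n : ℕ, ENNReal.ofReal (1 / (((n : ℤ) : ℝ)) ^ 2) ≤ 2 := by
    simpa using primC1_zeta
  have h2 : ∑' n : ℕ, ENNReal.ofReal (1 / (((-((n : ℤ) + 1) : ℤ) : ℝ)) ^ 2) ≤ 2 := by
    refine le_trans (le_of_eq (tsum_congr fun n => ?_)) primC1_zeta'
    push_cast
    rw [neg_sq]
  calc _ ≤ (2 : ℝ≥0∞) + 2 := add_le_add h1 h2
    _ = 4 := by norm_num

theorem primC1_five {p : ℕ} {q : ℤ} (h : q ≠ 0 ∧ ¬ (p = 0 ∧ q.natAbs = 1)) :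
    (5 : ℝ) ≤ ((p + 1 : ℕ) : ℝ) ^ 2 + (q : ℝ) ^ 2 := by
  have : (5 : ℤ) ≤ ((p + 1 : ℕ) : ℤ) ^ 2 + q ^ 2 := by
    obtain ⟨h1, h2⟩ := h
    have hq : q ^ 2 = (q.natAbs : ℤ) ^ 2 := by rw [Int.natCast_natAbs, sq_abs]
    have h3 : 1 ≤ q.natAbs := Int.natAbs_pos.mpr h1
    rw [hq]
    rcases Nat.eq_zero_or_pos p with hp | hp
    · have h4 : 2 ≤ q.natAbs := by
        by_contra h5
        exact h2 ⟨hp, by omega⟩
      have h5 : (2 : ℤ) ≤ (q.natAbs : ℤ) := by exact_mod_cast h4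
      subst hp
      push_cast
      rw [← Int.natCast_natAbs]
      nlinarith
    · have h5 : (1 : ℤ) ≤ (q.natAbs : ℤ) := by exact_mod_cast h3
      have h6 : (2 : ℤ) ≤ ((p + 1 : ℕ) : ℤ) := by omega
      nlinarith
  exact_mod_cast this

theorem primC1_eight {p : ℕ} {q : ℤ} (h : q ≠ 0 ∧ ¬ (p = 0 ∧ q.natAbs = 1))
    (h' : (p, q) ∉ ({(0, 2), (0, -2), (1, 1), (1, -1)} : Finset (ℕ × ℤ))) :
    (8 : ℝ) ≤ ((p + 1 : ℕ) : ℝ) ^ 2 + (q : ℝ) ^ 2 := by
  have : (8 : ℤ) ≤ ((p + 1 : ℕ) : ℤ) ^ 2 + q ^ 2 := by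
    obtain ⟨h1, h2⟩ := h
    simp only [Finset.mem_insert, Finset.mem_singleton, Prod.mk.injEq, not_or] at h'
    obtain ⟨k1, k2, k3, k4⟩ := h'
    have hc : (p = 0 ∧ (3 ≤ q ∨ q ≤ -3)) ∨ (p = 1 ∧ (2 ≤ q ∨ q ≤ -2)) ∨
        (2 ≤ p ∧ (1 ≤ q ∨ q ≤ -1)) := by omega
    rcases hc with ⟨rfl, hq | hq⟩ | ⟨rfl, hq | hq⟩ | ⟨hp, hq⟩
    · push_cast; nlinarith
    · push_cast; nlinarith
    · push_cast; nlinarith
    · push_cast; nlinarith
    · have h6 : (3 : ℤ) ≤ ((p + 1 : ℕ) : ℤ) := by omega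
      nlinarith [sq_nonneg q]
  exact_mod_cast this

theorem primC1_pairs :
    ∑' x : {x : ℕ × ℤ // x.2 ≠ 0 ∧ ¬ (x.1 = 0 ∧ x.2.natAbs = 1)},
      ENNReal.ofReal ((5 / (((x.1.1 + 1 : ℕ) : ℝ) ^ 2 + (x.1.2 : ℝ) ^ 2)) ^ 31) ≤ 5 := by
  classical
  set S : Finset (ℕ × ℤ) := {(0, 2), (0, -2), (1, 1), (1, -1)} with hS
  set F : ℕ × ℤ → ℝ≥0∞ := fun x => (if x ∈ S then 1 else 0) +
    ENNReal.ofReal (1 / 8) * (ENNReal.ofReal (1 / ((x.1 + 1 : ℕ) : ℝ) ^ 2) *
      ENNReal.ofReal (1 / (x.2 : ℝ) ^ 2)) with hF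
  have h1 : ∀ x : {x : ℕ × ℤ // x.2 ≠ 0 ∧ ¬ (x.1 = 0 ∧ x.2.natAbs = 1)},
      ENNReal.ofReal ((5 / (((x.1.1 + 1 : ℕ) : ℝ) ^ 2 + (x.1.2 : ℝ) ^ 2)) ^ 31) ≤ F x.1 := by
    rintro ⟨⟨p, q⟩, hx⟩
    have h5 := primC1_five hx
    simp only [hF]
    set s : ℝ := ((p + 1 : ℕ) : ℝ) ^ 2 + (q : ℝ) ^ 2 with hs
    have hs0 : 0 < s := by linarith
    by_cases hm : (p, q) ∈ S
    · rw [if_pos hm]
      refine le_trans ?_ le_self_add
      rw [ENNReal.ofReal_le_one]
      exact pow_le_one₀ (by positivity) ((div_le_one hs0).mpr h5)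
    · have h8 := primC1_eight hx hm
      rw [if_neg hm, zero_add, ← ENNReal.ofReal_mul (by positivity),
        ← ENNReal.ofReal_mul (by positivity)]
      apply ENNReal.ofReal_le_ofReal
      have hq : (q : ℝ) ≠ 0 := by exact_mod_cast hx.1
      have hP : (0 : ℝ) < ((p + 1 : ℕ) : ℝ) ^ 2 := by positivity
      have hQ : (0 : ℝ) < (q : ℝ) ^ 2 := by positivity
      have k1 : (5 / s) ^ 29 ≤ (5 / 8 : ℝ) ^ 29 :=
        pow_le_pow_left₀ (by positivity) (div_le_div_of_nonneg_left (by norm_num) (by norm_num) h8) _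
      have k2 : 5 / s ≤ 5 * (1 / ((p + 1 : ℕ) : ℝ) ^ 2) := by
        rw [mul_one_div]
        exact div_le_div_of_nonneg_left (by norm_num) hP (by linarith)
      have k3 : 5 / s ≤ 5 * (1 / (q : ℝ) ^ 2) := by
        rw [mul_one_div]
        exact div_le_div_of_nonneg_left (by norm_num) hQ (by linarith)
      calc (5 / s) ^ 31 = (5 / s) ^ 29 * (5 / s * (5 / s)) := by ring
        _ ≤ (5 / 8 : ℝ) ^ 29 * (5 * (1 / ((p + 1 : ℕ) : ℝ) ^ 2) * (5 * (1 / (q : ℝ) ^ 2))) := by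
            gcongr
        _ = ((5 / 8 : ℝ) ^ 29 * 25) * (1 / ((p + 1 : ℕ) : ℝ) ^ 2 * (1 / (q : ℝ) ^ 2)) := by ring
        _ ≤ _ := mul_le_mul_of_nonneg_right (by norm_num) (by positivity)
  have h2 : ∑' x : ℕ × ℤ, (if x ∈ S then (1 : ℝ≥0∞) else 0) = 4 := by
    rw [tsum_eq_sum (s := S) (fun x hx => if_neg hx), Finset.sum_congr rfl (fun x hx => if_pos hx),
      Finset.sum_const, show S.card = 4 by rw [hS]; decide]
    norm_num
  have h3 : ∑' x : ℕ × ℤ, ENNReal.ofReal (1 / ((x.1 + 1 : ℕ) : ℝ) ^ 2) *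
      ENNReal.ofReal (1 / (x.2 : ℝ) ^ 2) ≤ 2 * 4 := by
    rw [ENNReal.tsum_prod']
    simp only [ENNReal.tsum_mul_left, ENNReal.tsum_mul_right]
    exact mul_le_mul' primC1_zeta' primC1_zetaZ
  calc _ ≤ ∑' x : {x : ℕ × ℤ // x.2 ≠ 0 ∧ ¬ (x.1 = 0 ∧ x.2.natAbs = 1)}, F x.1 :=
        ENNReal.tsum_le_tsum h1
    _ ≤ ∑' x, F x := ENNReal.tsum_comp_le_tsum_of_injective Subtype.val_injective F
    _ ≤ 4 + ENNReal.ofReal (1 / 8) * (2 * 4) := by
        rw [hF, ENNReal.tsum_add, h2, ENNReal.tsum_mul_left]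
        gcongr
    _ = 5 := by
        rw [show (2 * 4 : ℝ≥0∞) = ENNReal.ofReal 8 by norm_num,
          ← ENNReal.ofReal_mul (by norm_num)]
        norm_num

end Pool.Agent.Eps.P
end
end

-- part Pool.Agent.Lib.MP_3bda03_nt.P.Cond1
section

/-!
The lattice dual to a random lattice that contains a given frame.
-/

set_option autoImplicit false
set_option linter.unusedSectionVars false

noncomputable section

open MeasureTheory Matrix
open scoped ENNReal

namespace Pool.Agent.Eps.P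

open Pool.Agent.Eps.H

variable {α β ι : Type} [Fintype α] [DecidableEq α] [Fintype β] [DecidableEq β] [Fintype ι]
  [DecidableEq ι] (e : α ⊕ β ≃ ι)

theorem rl_mu : RL (mu ι) (fun g => g) volume (Fintype.card ι) := by
  refine ⟨inferInstance, measurable_id, ae_mu_det.mono fun g hg => wt_det_ne hg, inferInstance,
    fun τ _ h F hF => ?_, fun q hq f hf => ?_⟩
  · rw [pw_volume]
    exact rogers h F hF
  · obtain ⟨p, rfl⟩ : ∃ p, q = p + 1 := ⟨q - 1, by omega⟩
    have h := rogers_scale p f hf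
    rw [Int.cast_natCast] at h
    exact h.le

theorem linv_hole : LInv (hole : Matrix ι ι ℝ → ℝ≥0∞) := by
  intro γ g
  unfold hole
  congr 1
  refine propext ⟨fun h k => ?_, fun h k => ?_⟩
  · have := h (k ᵥ* (γ⁻¹).val)
    rwa [← lv_vecMul, Matrix.vecMul_vecMul, Units.inv_mul, Matrix.vecMul_one] at this
  · rw [← lv_vecMul]
    exact h _

theorem linv_XX (h : (ι → ℝ) → ℝ) : LInv (XX h : Matrix ι ι ℝ → ℝ) := by
  intro γ g
  unfold XX
  rw [← (sglPerm γ).tsum_eq (fun k : {k : ι → ℤ // k ≠ 0} => h (lv k.1 g))]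
  refine tsum_congr fun k => ?_
  rw [← lv_vecMul]
  rfl

theorem linv_YY (h : (ι → ℝ) → ℝ) (c : ℝ) : LInv (YY h c : Matrix ι ι ℝ → ℝ≥0∞) := by
  intro γ g
  unfold YY
  rw [linv_XX h γ g]

theorem li_of_blk {X : Matrix α ι ℝ} (hX : (blk e X).det ≠ 0) :
    LinearIndependent ℝ fun i => (X i : ι → ℝ) := by
  have h1 : LinearIndependent ℝ (blk e X).row :=
    Matrix.linearIndependent_rows_iff_isUnit.2
      ((Matrix.isUnit_iff_isUnit_det _).2 (isUnit_iff_ne_zero.2 hX))
  exact LinearIndependent.of_comp (LinearMap.funLeft ℝ ℝ fun a => e (Sum.inl a)) h1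

theorem cond1_meas (X : Matrix α ι ℝ) (ξ : α → ℝ) : Measurable (layer e X ξ) :=
  ((continuous_layer e X).comp (continuous_const.prodMk continuous_id)).measurable

theorem lintegral_Lam (X : Matrix α ι ℝ) {f : (ι → ℝ) → ℝ≥0∞} (hf : Measurable f) :
    ∫⁻ y, f y ∂Lam e X = ∑' m : α → ℤ, ∫⁻ z, f (layer e X (cv m) z) := by
  unfold Lam
  rw [lintegral_sum_measure]
  exact tsum_congr fun m => lintegral_map hf (cond1_meas e X (cv m))

theorem prob_PX : IsProbabilityMeasure (PX α β) := by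
  have : IsProbabilityMeasure (volume.restrict (cube β α)) :=
    ⟨by rw [Measure.restrict_apply_univ, volume_cube]⟩
  unfold PX
  infer_instance

theorem measurable_gX :
    Measurable fun p : Matrix α ι ℝ × (Matrix β β ℝ × Matrix β α ℝ) => gX e p.1 p.2 :=
  fr_mc measurable_dual (fr_ml e measurable_fst (measurable_snd.comp measurable_snd)
    (measurable_fst.comp measurable_snd))

theorem cond1_gX (X : Matrix α ι ℝ) : Measurable (gX e X) := by
  have := fr_mc (measurable_gX e) ((measurable_const (a := X)).prodMk measurable_id)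
  exact this

theorem measurable_cond {W : Matrix ι ι ℝ → ℝ≥0∞} (hW : Measurable W) :
    Measurable fun X : Matrix α ι ℝ => ∫⁻ ω, W (gX e X ω) ∂PX α β := by
  have := prob_PX (α := α) (β := β)
  exact (fr_mc hW (measurable_gX e)).lintegral_prod_right'

variable [Nonempty β]

theorem sigmaFinite_Lam {X : Matrix α ι ℝ} (hX : (blk e X).det ≠ 0) : SigmaFinite (Lam e X) := by
  obtain ⟨c, hc, h⟩ := layer_coer e hX
  have hm : Measurable fun y : ι → ℝ => ENNReal.ofReal (Real.exp (-nsq y)) :=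
    (Real.measurable_exp.comp measurable_nsq.neg).ennreal_ofReal
  have hI : ∫⁻ z : β → ℝ, ENNReal.ofReal (Real.exp (-c * nsq z)) ≠ ∞ :=
    (integrable_gauss hc).lintegral_lt_top.ne
  have hS : ∑' m : α → ℤ, ENNReal.ofReal (Real.exp (-c * nsq (cv m))) ≠ ∞ := by
    rw [← ENNReal.ofReal_tsum_of_nonneg (fun _ => (Real.exp_pos _).le) (summable_gauss_int hc)]
    exact ENNReal.ofReal_ne_top
  have hfin : ∫⁻ y, ENNReal.ofReal (Real.exp (-nsq y)) ∂Lam e X ≠ ∞ := by
    rw [lintegral_Lam e X hm]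
    refine ne_top_of_le_ne_top (ENNReal.mul_ne_top hS hI) ?_
    rw [← ENNReal.tsum_mul_right]
    refine ENNReal.tsum_le_tsum fun m => ?_
    rw [← lintegral_const_mul' _ _ ENNReal.ofReal_ne_top]
    refine lintegral_mono fun z => ?_
    rw [← ENNReal.ofReal_mul (Real.exp_pos _).le, ← Real.exp_add]
    refine ENNReal.ofReal_le_ofReal (Real.exp_le_exp.2 ?_)
    have := h (cv m) z
    linarith
  refine ⟨⟨⟨fun n => {y | nsq y ≤ n}, fun _ => trivial, fun n => ?_, ?_⟩⟩⟩
  · have h0 : ENNReal.ofReal (Real.exp (-(n : ℝ))) ≠ 0 :=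
      (ENNReal.ofReal_pos.2 (Real.exp_pos _)).ne'
    refine lt_of_le_of_lt ((measure_mono fun y hy => ?_).trans
      (meas_ge_le_lintegral_div hm.aemeasurable h0 ENNReal.ofReal_ne_top))
      (ENNReal.div_lt_top hfin h0)
    exact ENNReal.ofReal_le_ofReal (Real.exp_le_exp.2 (neg_le_neg hy))
  · exact Set.eq_univ_of_forall fun y => Set.mem_iUnion.2 (exists_nat_ge (nsq y))

theorem frame_cond {F : Matrix α ι ℝ → ℝ≥0∞} (hF : Measurable F) {W : Matrix ι ι ℝ → ℝ≥0∞}
    (hW : Measurable W) (hi : LInv W) :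
    TT (mu ι) (fun g => g) (fun g => W (dual g)) F =
      cc ι β * ∫⁻ X, F X * ∫⁻ ω, W (gX e X ω) ∂PX α β := by
  have hp := prob_PX (α := α) (β := β)
  have h := frame e (fun P g => F (cz P * g) * W (dual g))
    (fun P => (fr_mc hF (Measurable.mxmul measurable_const measurable_id)).mul
      (fr_mc hW measurable_dual))
    (fun γ P g => by
      have := hi.comp_dual γ g
      simp only at this
      rw [this, cz_mul, Matrix.mul_assoc])
  unfold TT
  simp only [← ENNReal.tsum_mul_right]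
  rw [h]
  congr 1
  refine lintegral_congr fun X => ?_
  have hm : Measurable fun ω : Matrix β β ℝ × Matrix β α ℝ => W (gX e X ω) :=
    fr_mc hW (cond1_gX e X)
  rw [← lintegral_const_mul _ hm]
  unfold PX
  rw [lintegral_prod _ (hm.const_mul _).aemeasurable]
  simp only [sgl_std_lift, gX]

include e in
theorem one_le_cc (h : Fintype.card α + 2 ≤ Fintype.card ι) :
    1 ≤ cc ι β + ENNReal.ofReal (imp (Fintype.card α) (Fintype.card ι)) := by
  have hF : Measurable ((cube α ι).indicator (1 : Matrix α ι ℝ → ℝ≥0∞)) :=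
    measurable_one.indicator measurableSet_cube
  have h1 := (rl_mu (ι := ι)).le_prim h _ hF
  rw [frame_mean e _ hF, pw_volume, lintegral_indicator_one measurableSet_cube, volume_cube,
    mul_one, mul_one] at h1
  exact h1

end Pool.Agent.Eps.P
end
end

-- part Pool.Agent.Lib.MP_3bda03_nt.P.Cond
section

/-!
The lattice dual to a random lattice that contains a given frame.
-/

set_option autoImplicit false
set_option linter.unusedSectionVars false

noncomputable section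

open MeasureTheory Matrix
open scoped ENNReal

namespace Pool.Agent.Eps.P

open Pool.Agent.Eps.H

theorem cond_tsum_pi {A : Type} (τ : Type) [Fintype τ] : ∀ f : τ → A → ℝ≥0∞,
    ∑' m : τ → A, ∏ i, f i (m i) = ∏ i, ∑' a, f i a := by
  refine Fintype.induction_empty_option (P := fun τ _ => ∀ f : τ → A → ℝ≥0∞,
    ∑' m : τ → A, ∏ i, f i (m i) = ∏ i, ∑' a, f i a) ?_ ?_ ?_ τ
  · intro σ σ' _ d ih f
    let : Fintype σ := Fintype.ofEquiv σ' d.symm
    rw [← d.prod_comp, ← ih, ← (d.arrowCongr (Equiv.refl A)).tsum_eq]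
    refine tsum_congr fun m => ?_
    rw [← d.prod_comp]
    simp
  · intro f
    simp
  · intro σ _ ih f
    rw [Fintype.prod_option, ← ih, ← (Equiv.piOptionEquivProd (β := fun _ => A)).symm.tsum_eq,
      ENNReal.tsum_prod', ← ENNReal.tsum_mul_right]
    refine tsum_congr fun a => ?_
    rw [← ENNReal.tsum_mul_left]
    refine tsum_congr fun m => ?_
    rw [Fintype.prod_option]
    rfl

variable {α β ι : Type} [Fintype α] [DecidableEq α] [Fintype β] [DecidableEq β] [Fintype ι]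
  [DecidableEq ι] (e : α ⊕ β ≃ ι) [Nonempty β]

theorem cond_rows (X : Matrix α ι ℝ) {τ : Type} [Fintype τ] (m : Matrix τ α ℤ) :
    Measurable fun z : Matrix τ β ℝ =>
      (Matrix.of fun i => layer e X (cv (m i)) (z i) : Matrix τ ι ℝ) :=
  measurable_mx.2 fun i => measurable_pi_iff.1 (by
    have := fr_mc (cond1_meas e X (cv (m i))) (measurable_row (α := τ) (ι := β) i)
    exact this)

theorem cond_pw {X : Matrix α ι ℝ} (hX : (blk e X).det ≠ 0) (τ : Type) [Fintype τ] :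
    pw τ (Lam e X) = Measure.sum fun m : Matrix τ α ℤ => Measure.map (fun z : Matrix τ β ℝ =>
      (Matrix.of fun i => layer e X (cv (m i)) (z i) : Matrix τ ι ℝ)) volume := by
  have := sigmaFinite_Lam e hX
  refine Measure.pi_eq fun s hs => ?_
  have hb : MeasurableSet (Set.univ.pi s) := MeasurableSet.univ_pi hs
  have h1 : ∀ i, Lam e X (s i) = ∑' a : α → ℤ, volume (layer e X (cv a) ⁻¹' s i) := fun i => by
    unfold Lam
    rw [Measure.sum_apply _ (hs i)]
    exact tsum_congr fun a => Measure.map_apply (cond1_meas e X _) (hs i)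
  simp only [h1]
  rw [← cond_tsum_pi]
  refine (Measure.sum_apply _ hb).trans (tsum_congr fun m => ?_)
  refine (Measure.map_apply (cond_rows e X m) hb).trans ?_
  refine Eq.trans ?_ (volume_pi_pi fun i => layer e X (cv (m i)) ⁻¹' s i)
  rfl

theorem rog_cond {X : Matrix α ι ℝ} (hX : (blk e X).det ≠ 0) (τ : Type) [Fintype τ]
    (h : Fintype.card τ < Fintype.card β) (F : Matrix τ ι ℝ → ℝ≥0∞) (hF : Measurable F) :
    ∫⁻ ω, ∑' Y : {Y : Matrix τ ι ℤ // Ind Y}, F (cz Y.1 * gX e X ω) ∂PX α β =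
      ∫⁻ U, F U ∂pw τ (Lam e X) := by
  have hm : Measurable fun ω : Matrix β β ℝ × Matrix β α ℝ =>
      ∑' Y : {Y : Matrix τ ι ℤ // Ind Y}, F (cz Y.1 * gX e X ω) :=
    Measurable.tsum fun Y => fr_mc hF (Measurable.mxmul measurable_const (cond1_gX e X))
  rw [cond_pw e hX, lintegral_sum_measure]
  unfold PX
  rw [lintegral_prod _ hm.aemeasurable]
  refine (mform e hX h F hF).trans (tsum_congr fun m => ?_)
  exact (lintegral_map hF (cond_rows e X m)).symm

theorem rl_cond {X : Matrix α ι ℝ} (hX : (blk e X).det ≠ 0) :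
    RL (PX α β) (gX e X) (Lam e X) (Fintype.card β) := by
  have hp := prob_PX (α := α) (β := β)
  refine ⟨hp, cond1_gX e X, ?_, sigmaFinite_Lam e hX, rog_cond e hX, fun q hq f hf => ?_⟩
  · have h1 : ∀ᵐ ω ∂PX α β, |ω.1.det| = 1 := by
      unfold PX
      exact Measure.quasiMeasurePreserving_fst.ae ae_mu_det
    refine h1.mono fun ω hω => ?_
    have h2 := abs_det_lift e hX ω.2 ω.1
    rw [hω] at h2
    unfold gX
    rw [det_dual]
    exact inv_ne_zero (wt_det_ne h2)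
  · obtain ⟨p, rfl⟩ : ∃ p, q = p + 1 := ⟨q - 1, by omega⟩
    have hs : Measurable fun y : ι → ℝ => f (((p + 1 : ℕ) : ℝ) • y) :=
      fr_mc hf (measurable_const_smul _)
    rw [lintegral_Lam e X hs, lintegral_Lam e X hf]
    have h1 : ∀ m : α → ℤ, ∫⁻ z, f (((p + 1 : ℕ) : ℝ) • layer e X (cv m) z) =
        (((p + 1 : ℕ) : ℝ≥0∞) ^ Fintype.card β)⁻¹ *
          ∫⁻ z, f (layer e X (cv (((p + 1 : ℕ) : ℤ) • m)) z) := fun m => by
      rw [← rogers_scale p _ (fr_mc hf (cond1_meas e X _))]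
      refine lintegral_congr fun z => ?_
      rw [cv_smul, layer_smul, Int.cast_natCast]
    simp only [h1]
    rw [ENNReal.tsum_mul_left]
    refine mul_le_mul_right (ENNReal.tsum_comp_le_tsum_of_injective
      (f := fun m : α → ℤ => ((p + 1 : ℕ) : ℤ) • m) (smul_right_injective _ (by omega))
      fun m => ∫⁻ z, f (layer e X (cv m) z)) _

end Pool.Agent.Eps.P
end
end

-- part Pool.Agent.Lib.MP_3bda03_nt.P.Env
section

/-!
The envelope of the Fourier transform of a sphere.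
-/

set_option autoImplicit false

noncomputable section

open MeasureTheory Matrix
open scoped ENNReal

namespace Pool.Agent.Eps.P

open Pool.Agent.Eps.H

variable {v : ℝ}

theorem env_sg_pos (hv : 97 / 2 ≤ v) : 0 < sg v := lt_of_lt_of_le (by norm_num) (sg_ge hv)

theorem env_Cf_nonneg (hv : 97 / 2 ≤ v) (y : ℝ) : 0 ≤ Cf v y := by
  unfold Cf
  have := env_sg_pos hv
  have := Real.pi_pos
  positivity

theorem env_Cf_sq {y : ℝ} (hy : y < v / 2 - 1) :
    Cf v y ^ 2 = sg v ^ 2 / (4 * Real.pi * (v / 2 - 1 - y)) := by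
  unfold Cf
  have := Real.pi_pos
  have h : 0 < v / 2 - 1 - y := by linarith
  rw [mul_pow, Real.sq_sqrt (by positivity)]
  field_simp
  ring

theorem env_Cf_le (hv : 97 / 2 ≤ v) {y y' K : ℝ} (hy : y < v / 2 - 1) (hy' : y' < v / 2 - 1)
    (hK : 0 ≤ K) (h : v / 2 - 1 - y ≤ K ^ 2 * (v / 2 - 1 - y')) : Cf v y' ≤ K * Cf v y := by
  have := Real.pi_pos
  have h1 : 0 < v / 2 - 1 - y := by linarith
  have h2 : 0 < v / 2 - 1 - y' := by linarith
  refine le_of_sq_le_sq ?_ (mul_nonneg hK (env_Cf_nonneg hv y))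
  rw [mul_pow, env_Cf_sq hy, env_Cf_sq hy', ← mul_div_assoc, div_le_div_iff₀ (by positivity)
    (by positivity)]
  have h3 : 0 ≤ sg v ^ 2 * (4 * Real.pi) := by positivity
  nlinarith [mul_le_mul_of_nonneg_left h h3]

theorem env_Cf_mono (hv : 97 / 2 ≤ v) {y y' : ℝ} (h : y ≤ y') (hy' : y' ≤ 0.45 * v) :
    Cf v y ≤ Cf v y' := by
  have := env_Cf_le hv (y := y') (y' := y) (K := 1) (by linarith) (by linarith) zero_le_one
    (by linarith)
  linarith

theorem env_Cf_zero_ge (hv : 97 / 2 ≤ v) : 1 ≤ Cf v 0 := by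
  have hp := Real.pi_pos
  refine le_of_sq_le_sq ?_ (env_Cf_nonneg hv 0)
  have h1 : 0 < v / 2 - 1 - 0 := by linarith
  rw [env_Cf_sq (by linarith), le_div_iff₀ (by positivity)]
  have h2 := sg_lower (x := v) (by linarith)
  have h3 : 2 * Real.pi * v ≤ sg v ^ 2 := by
    rw [← Real.sq_sqrt (show 0 ≤ 2 * Real.pi * v by nlinarith)]
    exact pow_le_pow_left₀ (Real.sqrt_nonneg _) h2 2
  nlinarith

theorem env_Cf_zero_le (hv : 97 / 2 ≤ v) : Cf v 0 ≤ 1.024 := by
  have hp := Real.pi_gt_d4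
  refine le_of_sq_le_sq ?_ (by norm_num)
  have h1 : 0 < v / 2 - 1 - 0 := by linarith
  rw [env_Cf_sq (by linarith), div_le_iff₀ (by positivity)]
  have h2 := sg_sq_le hv
  nlinarith [mul_le_mul_of_nonneg_right hp.le h1.le]

theorem env_Cf_top_le (hv : 97 / 2 ≤ v) : Cf v (0.45 * v) ≤ 4.14 := by
  have hp := Real.pi_gt_d4
  refine le_of_sq_le_sq ?_ (by norm_num)
  have h1 : 0 < v / 2 - 1 - 0.45 * v := by linarith
  rw [env_Cf_sq (by linarith), div_le_iff₀ (by positivity)]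
  have h2 := sg_sq_le hv
  nlinarith [mul_le_mul_of_nonneg_right hp.le h1.le]

theorem env_pw {a y : ℝ} (ha : 0 < a) (hy : 0 < y) :
    (a / (Real.exp 1 * y)) ^ a = Real.exp (-(a * (1 + Real.log (y / a)))) := by
  have he := Real.exp_pos 1
  rw [Real.rpow_def_of_pos (by positivity), Real.log_div ha.ne' (by positivity),
    Real.log_mul he.ne' hy.ne', Real.log_exp, Real.log_div hy.ne' ha.ne']
  congr 1
  ring

theorem env_exp_le_pw {a y : ℝ} (ha : 0 < a) (hy : 0 < y) :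
    Real.exp (-y) ≤ (a / (Real.exp 1 * y)) ^ a := by
  rw [env_pw ha hy, Real.exp_le_exp]
  have h := Real.log_le_sub_one_of_pos (div_pos hy ha)
  have h2 := mul_le_mul_of_nonneg_left h ha.le
  have h3 : a * (y / a - 1) = y - a := by field_simp
  linarith

theorem env_pw_anti {a y y' : ℝ} (ha : 0 < a) (hy : 0 < y) (h : y ≤ y') :
    (a / (Real.exp 1 * y')) ^ a ≤ (a / (Real.exp 1 * y)) ^ a := by
  have he := Real.exp_pos 1
  have hy' : 0 < y' := hy.trans_le h
  refine Real.rpow_le_rpow (by positivity) ?_ ha.le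
  gcongr

theorem env_pw_self {a : ℝ} (ha : 0 < a) : (a / (Real.exp 1 * a)) ^ a = Real.exp (-a) := by
  rw [env_pw ha ha, div_self ha.ne', Real.log_one]
  congr 1
  ring

theorem env_pw_scale {a s y : ℝ} (ha : 0 < a) (hs : 0 < s) (hy : 0 < y) :
    (a / (Real.exp 1 * (s * y))) ^ a = s ^ (-a) * (a / (Real.exp 1 * y)) ^ a := by
  have he := Real.exp_pos 1
  rw [Real.rpow_neg hs.le, ← Real.inv_rpow hs.le, ← Real.mul_rpow (by positivity) (by positivity)]
  congr 1
  field_simp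

theorem env_low (hv : 97 / 2 ≤ v) {y y' : ℝ} (h : y ≤ y') (hy' : y' ≤ 0.45 * v) :
    Cf v y' * Real.exp (-y') ≤ Cf v y * Real.exp (-y) := by
  have h1 : Cf v y' ≤ Real.exp (y' - y) * Cf v y := by
    refine env_Cf_le hv (by linarith) (by linarith) (Real.exp_pos _).le ?_
    have h2 := Real.add_one_le_exp (y' - y)
    have h3 : (y' - y + 1) ^ 2 ≤ Real.exp (y' - y) ^ 2 := pow_le_pow_left₀ (by linarith) h2 2
    have h4 : 1 ≤ v / 2 - 1 - y' := by linarith
    have h5 : (y' - y + 1) ^ 2 * (v / 2 - 1 - y') ≤ Real.exp (y' - y) ^ 2 * (v / 2 - 1 - y') :=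
      mul_le_mul_of_nonneg_right h3 (by linarith)
    have h6 : 0 ≤ y' - y := by linarith
    nlinarith [mul_nonneg h6 (sub_nonneg.2 h4), mul_nonneg (mul_nonneg h6 h6) (zero_le_one.trans h4)]
  calc Cf v y' * Real.exp (-y') ≤ Real.exp (y' - y) * Cf v y * Real.exp (-y') :=
        mul_le_mul_of_nonneg_right h1 (Real.exp_pos _).le
    _ = Cf v y * (Real.exp (y' - y) * Real.exp (-y')) := by ring
    _ = Cf v y * Real.exp (-y) := by
        rw [← Real.exp_add]
        congr 2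
        ring

theorem env_const (hv : 97 / 2 ≤ v) : Real.Gamma v * Real.exp v * v ^ (1 - v) = sg v := by
  have h0 : 0 < v := by linarith
  unfold sg
  rw [Real.Gamma_add_one h0.ne', Real.rpow_sub h0, Real.rpow_one]
  ring

theorem env_poly {u : ℝ} (h0 : 0 ≤ u) (h1 : u ≤ 0.94) : 1 ≤ (1 - u) * Real.exp (3.86 * u) := by
  have h := Real.sum_le_exp_of_nonneg (x := 3.86 * u) (by positivity) 5
  simp only [Finset.sum_range_succ, Finset.sum_range_zero, Nat.factorial] at h
  norm_num at h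
  have h2 : u ^ 2 ≤ 0.94 * u := by nlinarith
  have h3 : u ^ 3 ≤ 0.94 * u ^ 2 := by nlinarith [sq_nonneg u]
  have h4 : u ^ 4 ≤ 0.94 * u ^ 3 := by nlinarith [pow_nonneg h0 3]
  have h5 : u ^ 5 ≤ 0.94 * u ^ 4 := by nlinarith [pow_nonneg h0 4]
  have h6 := mul_le_mul_of_nonneg_left h (show 0 ≤ 1 - u by linarith)
  have e : (3.86 : ℝ) = 193 / 50 := by norm_num
  rw [e]
  nlinarith

theorem env_log43 : 0.28756 ≤ Real.log (4 / 3) := by
  rw [Real.le_log_iff_exp_le (by norm_num)]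
  have h := Real.exp_bound' (x := 0.28756) (by norm_num) (by norm_num) (n := 5) (by norm_num)
  simp only [Finset.sum_range_succ, Finset.sum_range_zero, Nat.factorial] at h
  norm_num at h ⊢
  linarith

theorem env_chord {t : ℝ} (h1 : 1 ≤ t) (h2 : t ≤ 4 / 3) : 3 * (t - 1) * 0.28756 ≤ Real.log t := by
  have h := strictConcaveOn_log_Ioi.concaveOn.2 (show (1 : ℝ) ∈ Set.Ioi 0 by norm_num)
    (show (4 / 3 : ℝ) ∈ Set.Ioi 0 by norm_num) (show 0 ≤ 1 - 3 * (t - 1) by linarith)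
    (show 0 ≤ 3 * (t - 1) by linarith) (by ring)
  simp only [smul_eq_mul, Real.log_one, mul_zero, zero_add] at h
  have e : (1 - 3 * (t - 1)) * 1 + 3 * (t - 1) * (4 / 3) = t := by ring
  rw [e] at h
  exact (mul_le_mul_of_nonneg_left env_log43 (by linarith)).trans h

theorem env_exp1398 : 4.14 ≤ 1.024 * Real.exp 1.398 := by
  have h := Real.sum_le_exp_of_nonneg (x := 1.398) (by norm_num) 8
  simp only [Finset.sum_range_succ, Finset.sum_range_zero, Nat.factorial] at h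
  norm_num at h ⊢
  linarith

theorem measurable_Env (v : ℝ) : Measurable (Env v) := by
  unfold Env Cf
  exact Measurable.ite (measurableSet_le measurable_id measurable_const) (by fun_prop) (by fun_prop)

theorem Om_le_Env (hv : 97 / 2 ≤ v) {B : ℝ} (hB : 0 ≤ B) : Om v v B ≤ Env v (B / v) := by
  have h0 : 0 < v := by linarith
  have hp := Real.pi_pos
  have hs := env_sg_pos hv
  unfold Env
  split_ifs with h
  · refine (Om_le_exp h0 h0 hB (by linarith)).trans ?_
    rw [env_const hv]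
    have h1 := integral_one_add_sq_le (μ := v / 2 - B / v) (by linarith)
    have e : v / 2 - B / v - 1 = v / 2 - 1 - B / v := by ring
    rw [e] at h1
    unfold Cf
    rw [mul_right_comm]
    exact mul_le_mul_of_nonneg_right (mul_le_mul_of_nonneg_left h1 (by positivity))
      (Real.exp_pos _).le
  · have hB' : 0 < B := by
      have : 0 < B / v := by linarith [not_le.1 h]
      exact (div_pos_iff_of_pos_right h0).1 this
    refine (Om_le_pow (θ := 0.45 * v) h0 h0 hB' (by linarith) (by linarith)).trans ?_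
    rw [env_const hv]
    have h1 := integral_one_add_sq_le (μ := v / 2 - 0.45 * v) (by linarith)
    have e : v / 2 - 0.45 * v - 1 = v / 2 - 1 - 0.45 * v := by ring
    have e' : 0.45 * v * v / (Real.exp 1 * B) = 0.45 * v / (Real.exp 1 * (B / v)) := by
      field_simp
    rw [e] at h1
    unfold Cf
    rw [mul_right_comm, e']
    have he := Real.exp_pos 1
    exact mul_le_mul_of_nonneg_right (mul_le_mul_of_nonneg_left h1 (by positivity))
      (by positivity)

theorem exp_le_Env (hv : 97 / 2 ≤ v) {y : ℝ} (hy : 0 ≤ y) : Real.exp (-y) ≤ Env v y := by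
  unfold Env
  split_ifs with h
  · exact le_mul_of_one_le_left (Real.exp_pos _).le
      ((env_Cf_zero_ge hv).trans (env_Cf_mono hv hy h))
  · have h1 := env_exp_le_pw (a := 0.45 * v) (y := y) (by linarith) (by linarith [not_le.1 h])
    exact h1.trans (le_mul_of_one_le_left ((Real.exp_pos _).le.trans h1)
      ((env_Cf_zero_ge hv).trans (env_Cf_mono hv (by linarith) le_rfl)))

theorem Env_anti (hv : 97 / 2 ≤ v) {y y' : ℝ} (hy : 0 ≤ y) (h : y ≤ y') :
    Env v y' ≤ Env v y := by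
  have ha : 0 < 0.45 * v := by linarith
  unfold Env
  split_ifs with h1 h2 h2
  · exact env_low hv h h1
  · exact absurd (h.trans h1) h2
  · refine le_trans ?_ (env_low hv h2 le_rfl)
    rw [← env_pw_self ha]
    exact mul_le_mul_of_nonneg_left (env_pw_anti ha ha (not_le.1 h1).le) (env_Cf_nonneg hv _)
  · exact mul_le_mul_of_nonneg_left (env_pw_anti ha (ha.trans (not_le.1 h2)) h)
      (env_Cf_nonneg hv _)

theorem Env_scale (hv : 97 / 2 ≤ v) {s y : ℝ} (hs : 0 < s) (hs1 : s ≤ 1) (hy : 0 ≤ y) :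
    Env v (s * y) ≤ s ^ (-(0.45 * v)) * Env v y := by
  have ha : 0 < 0.45 * v := by linarith
  have hsy : s * y ≤ y := mul_le_of_le_one_left hy hs1
  unfold Env
  split_ifs with h1 h2 h2
  · rw [mul_left_comm]
    refine mul_le_mul (env_Cf_mono hv hsy h2) ?_ (Real.exp_pos _).le (env_Cf_nonneg hv _)
    rw [Real.rpow_def_of_pos hs, ← Real.exp_add, Real.exp_le_exp]
    have h3 := Real.log_le_sub_one_of_pos hs
    have h4 := mul_le_mul_of_nonneg_left h3 ha.le
    have h5 := mul_le_mul_of_nonneg_right h2 (sub_nonneg.2 hs1)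
    nlinarith
  · have hy' : 0 < y := ha.trans (not_le.1 h2)
    rw [mul_left_comm, ← env_pw_scale ha hs hy']
    exact mul_le_mul (env_Cf_mono hv h1 le_rfl) (env_exp_le_pw ha (mul_pos hs hy'))
      (Real.exp_pos _).le (env_Cf_nonneg hv _)
  · exact absurd (hsy.trans h2) h1
  · have hy' : 0 < y := ha.trans (not_le.1 h2)
    rw [env_pw_scale ha hs hy', mul_left_comm]

theorem Env_le_exp (hv : 97 / 2 ≤ v) {y : ℝ} (hy : 0 ≤ y) :
    Env v y ≤ 1.024 * Real.exp (-((0.965 - 2.33 / v) * y)) + dl v := by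
  have h0 : 0 < v := by linarith
  have ha : 0 < 0.45 * v := by linarith
  have hdl : 0 ≤ dl v := by
    unfold dl
    positivity
  have hw : 2.33 / v ≤ 0.0481 := by
    rw [div_le_iff₀ h0]
    linarith
  have hw' : 2.33 / v * v = 2.33 := by field_simp
  unfold Env
  split_ifs with h
  · refine le_trans ?_ (le_add_of_nonneg_right hdl)
    have hμ : 0 < v / 2 - 1 := by linarith
    have h1 : Cf v y ≤ Real.exp ((0.035 + 2.33 / v) * y) * Cf v 0 := by
      refine env_Cf_le hv (by linarith) (by linarith) (Real.exp_pos _).le ?_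
      obtain ⟨u, hu⟩ : ∃ u, u = y / (v / 2 - 1) := ⟨_, rfl⟩
      have hu0 : 0 ≤ u := hu ▸ div_nonneg hy hμ.le
      have hu1 : u ≤ 0.94 := by
        rw [hu, div_le_iff₀ hμ]
        linarith
      have hyu : y = u * (v / 2 - 1) := by rw [hu, div_mul_cancel₀ _ hμ.ne']
      have h2 := env_poly hu0 hu1
      have h3 : Real.exp (3.86 * u) ≤ Real.exp ((0.035 + 2.33 / v) * y) ^ 2 := by
        rw [← Real.exp_nat_mul, Real.exp_le_exp, hyu]
        have h4 : 1.93 ≤ (0.035 + 2.33 / v) * (v / 2 - 1) := by nlinarith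
        have h5 := mul_le_mul_of_nonneg_left h4 hu0
        push_cast
        nlinarith
      have h4 : (1 - u) * Real.exp (3.86 * u) ≤
          (1 - u) * Real.exp ((0.035 + 2.33 / v) * y) ^ 2 :=
        mul_le_mul_of_nonneg_left h3 (by linarith)
      have h5 := mul_le_mul_of_nonneg_left (h2.trans h4) hμ.le
      have e : v / 2 - 1 - y = (v / 2 - 1) * (1 - u) := by
        rw [hyu]
        ring
      rw [e]
      linarith
    calc Cf v y * Real.exp (-y)
        ≤ Real.exp ((0.035 + 2.33 / v) * y) * 1.024 * Real.exp (-y) :=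
          mul_le_mul_of_nonneg_right (h1.trans (mul_le_mul_of_nonneg_left (env_Cf_zero_le hv)
            (Real.exp_pos _).le)) (Real.exp_pos _).le
      _ = 1.024 * (Real.exp ((0.035 + 2.33 / v) * y) * Real.exp (-y)) := by ring
      _ = 1.024 * Real.exp (-((0.965 - 2.33 / v) * y)) := by
          rw [← Real.exp_add]
          congr 2
          ring
  · have h' := not_le.1 h
    have hy' : 0 < y := ha.trans h'
    rw [env_pw ha hy']
    refine (mul_le_mul_of_nonneg_right (env_Cf_top_le hv) (Real.exp_pos _).le).trans ?_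
    obtain ⟨t, ht⟩ : ∃ t, t = y / (0.45 * v) := ⟨_, rfl⟩
    have ht1 : 1 ≤ t := by
      rw [ht, le_div_iff₀ ha]
      linarith
    have hyt : y = t * (0.45 * v) := by
      rw [ht]
      field_simp
    rw [← ht]
    rcases le_total t (4 / 3) with k | k
    · refine le_trans ?_ (le_add_of_nonneg_right hdl)
      have h1 := mul_le_mul_of_nonneg_left (env_chord ht1 k) ha.le
      refine (mul_le_mul_of_nonneg_right env_exp1398 (Real.exp_pos _).le).trans ?_
      rw [mul_assoc, ← Real.exp_add]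
      refine mul_le_mul_of_nonneg_left (Real.exp_le_exp.2 ?_) (by norm_num)
      have e : (0.965 - 2.33 / v) * y = t * (0.43425 * v - 1.0485) := by
        rw [hyt]
        field_simp
        ring
      rw [e]
      nlinarith [mul_nonneg (sub_nonneg.2 k) (sub_nonneg.2 hv), mul_nonneg (sub_nonneg.2 ht1) h0.le]
    · refine le_trans ?_ (le_add_of_nonneg_left (by positivity))
      unfold dl
      refine mul_le_mul_of_nonneg_left (Real.exp_le_exp.2 ?_) (by norm_num)
      have h1 := env_log43.trans (Real.log_le_log (by norm_num) k)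
      have h2 := mul_le_mul_of_nonneg_left h1 ha.le
      linarith

theorem Env_le_pow (hv : 97 / 2 ≤ v) {y : ℝ} (hy : 0 < y) :
    Env v y ≤ 4.14 * (0.45 * v / (Real.exp 1 * y)) ^ (0.45 * v) := by
  have ha : 0 < 0.45 * v := by linarith
  have h1 := env_exp_le_pw ha hy
  unfold Env
  split_ifs with h
  · exact mul_le_mul ((env_Cf_mono hv h le_rfl).trans (env_Cf_top_le hv)) h1 (Real.exp_pos _).le
      (by norm_num)
  · exact mul_le_mul_of_nonneg_right (env_Cf_top_le hv) ((Real.exp_pos _).le.trans h1)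

end Pool.Agent.Eps.P
end
end

-- part Pool.Agent.Lib.MP_3bda03_nt.P.EnvB1
section

/-!
Bounds for Fourier transforms of radial functions.
-/

set_option autoImplicit false

noncomputable section

open MeasureTheory Matrix
open scoped ENNReal

namespace Pool.Agent.Eps.P

open Pool.Agent.Eps.H

variable {ι : Type} [Fintype ι]

theorem measurable_Ev (u : ℝ) : Measurable (Ev u : (ι → ℝ) → ℝ) :=
  (measurable_Env _).comp (measurable_nx.const_mul _)

theorem Ev_neg (u : ℝ) (w : ι → ℝ) : Ev u (-w) = Ev u w := by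
  rw [Ev, Ev, nx_neg]

theorem envb1_prof {s : Set ℝ} (hs : s.OrdConnected) {f : ℝ → ℝ} (hf : Continuous f) {b M : ℝ}
    (hb : ∀ x ∈ s, x ≤ b) (hM : ∀ x ∈ s, 0 ≤ x → |f x| ≤ M) (hM0 : 0 ≤ M) :
    Prof (s.indicator f) := by
  refine ⟨hf.measurable.indicator hs.measurableSet, (layer_frontier hs).mono fun ρ hρ => ?_,
    M * Real.exp b, 1, one_pos, fun ρ hρ => ?_⟩
  · by_contra k
    exact hρ (hf.continuousOn.continuousAt_indicator k)
  · by_cases h : ρ ∈ s
    · rw [Set.indicator_of_mem h, mul_assoc, ← Real.exp_add]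
      refine (hM ρ h hρ).trans (le_mul_of_one_le_right hM0 (Real.one_le_exp ?_))
      linarith [hb ρ h]
    · rw [Set.indicator_of_notMem h, abs_zero]
      positivity

theorem envb1_exp {x : ℝ} (hx : 12 ≤ x) : Real.exp (-x) ≤ 0.00001 := by
  have h1 := Real.exp_one_gt_d9
  have h2 : Real.exp 12 = Real.exp 1 ^ 12 := by
    rw [← Real.exp_nat_mul]
    norm_num
  have h3 : (2.7 : ℝ) ^ 12 ≤ Real.exp 1 ^ 12 := pow_le_pow_left₀ (by norm_num) (by linarith) 12
  have h4 : Real.exp 12 ≤ Real.exp x := Real.exp_le_exp.2 hx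
  rw [Real.exp_neg, inv_le_comm₀ (Real.exp_pos _) (by norm_num)]
  norm_num at h3 ⊢
  linarith

theorem envb1_c1 : 1.024 * Real.exp (-0.344) ≤ 0.72595 := by
  have h := Real.sum_le_exp_of_nonneg (x := 0.344) (by norm_num) 7
  simp only [Finset.sum_range_succ, Finset.sum_range_zero, Nat.factorial] at h
  rw [Real.exp_neg, ← div_eq_mul_inv, div_le_iff₀ (Real.exp_pos _)]
  norm_num at h ⊢
  linarith

theorem envb1_c2 : 1.024 * Real.exp (-1.376) ≤ 0.259 := by
  have h := Real.sum_le_exp_of_nonneg (x := 1.376) (by norm_num) 8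
  simp only [Finset.sum_range_succ, Finset.sum_range_zero, Nat.factorial] at h
  rw [Real.exp_neg, ← div_eq_mul_inv, div_le_iff₀ (Real.exp_pos _)]
  norm_num at h ⊢
  linarith

theorem envb1_pow {ρ b K : ℝ} (hρ : 0 < ρ) (hb : 0 < b) (hK : 0 ≤ K) :
    ∫⁻ t in Set.Ioi (0 : ℝ), (Set.Iio ρ).indicator (fun t => ENNReal.ofReal (K * t ^ (b - 1))) t =
      ENNReal.ofReal (K * (ρ ^ b / b)) := by
  have h1 : IntegrableOn (fun t : ℝ => t ^ (b - 1)) (Set.Ioo 0 ρ) :=
    (intervalIntegrable_iff_integrableOn_Ioo_of_le hρ.le).1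
      (intervalIntegral.intervalIntegrable_rpow' (by linarith))
  rw [lintegral_indicator measurableSet_Iio, Measure.restrict_restrict measurableSet_Iio,
    Set.Iio_inter_Ioi, ← ofReal_integral_eq_lintegral_ofReal (h1.const_mul K), integral_const_mul,
    ← integral_Ioc_eq_integral_Ioo, ← intervalIntegral.integral_of_le hρ.le,
    integral_rpow (Or.inl (by linarith)), sub_add_cancel, Real.zero_rpow hb.ne', sub_zero]
  filter_upwards [ae_restrict_mem measurableSet_Ioo] with t ht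
  exact mul_nonneg hK (Real.rpow_nonneg ht.1.le _)

variable (hn : 97 ≤ Fintype.card ι)
include hn

theorem Ev_nonneg {u : ℝ} (hu : 0 ≤ u) (w : ι → ℝ) : 0 ≤ Ev u w := by
  have := nx_nonneg hn w
  exact (Real.exp_pos _).le.trans (exp_le_Env (hd_ge hn) (by positivity))

theorem Ev_anti {u u' : ℝ} (hu : 0 ≤ u) (h : u ≤ u') (w : ι → ℝ) : Ev u' w ≤ Ev u w := by
  have := nx_nonneg hn w
  refine Env_anti (hd_ge hn) (by positivity) ?_
  gcongr

theorem gs_le_Ev {t : ℝ} (ht : 3 / 4 * th (hd ι) ^ 2 ≤ t) (w : ι → ℝ) :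
    gs t w ≤ Ev (3 / 4) w := by
  have := nx_nonneg hn w
  refine le_trans (Real.exp_le_exp.2 ?_) (exp_le_Env (hd_ge hn) (by positivity))
  nlinarith [mul_le_mul_of_nonneg_right ht this]

theorem Ev_le_gs (w : ι → ℝ) : Ev (3 / 4) w ≤ 1.024 * gs (t0 (hd ι)) w + dl (hd ι) := by
  have := nx_nonneg hn w
  refine (Env_le_exp (hd_ge hn) (by positivity)).trans ?_
  have h := mul_le_mul_of_nonneg_right (t0_le (hd_ge hn)) this
  refine add_le_add_left (mul_le_mul_of_nonneg_left (Real.exp_le_exp.2 ?_) (by norm_num)) _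
  linarith

theorem Ev_one_le_gs (w : ι → ℝ) :
    Ev 1 w ≤ 1.024 * gs (4 / 3 * t0 (hd ι)) w + dl (hd ι) := by
  have := nx_nonneg hn w
  refine (Env_le_exp (hd_ge hn) (by positivity)).trans ?_
  have h := mul_le_mul_of_nonneg_right (t0_le (hd_ge hn)) this
  refine add_le_add_left (mul_le_mul_of_nonneg_left (Real.exp_le_exp.2 ?_) (by norm_num)) _
  linarith

theorem Ev_one_le_Gx (w : ι → ℝ) : Ev 1 w ≤ Gx w := by
  have hv := hd_ge hn
  have h0 := nx_nonneg hn w
  refine (Ev_one_le_gs hn w).trans (add_le_add ?_ ?_)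
  · have h1 := tx_le hv
    have h2 : 0 ≤ t0 (hd ι) := by
      unfold t0
      positivity
    have h3 : 0 ≤ 4 / 3 * t0 (hd ι) * (1.3 / hd ι) := by positivity
    unfold gs
    gcongr
    linarith
  · unfold dl dx
    have h1 : -(0.5794 * hd ι) = -(0.4 * hd ι) + -(0.1794 * hd ι) := by ring
    have h2 := Real.add_one_le_exp (0.1794 * hd ι)
    have h3 : Real.exp (-(0.1794 * hd ι)) ≤ 0.2 := by
      rw [Real.exp_neg, inv_le_comm₀ (Real.exp_pos _) (by norm_num)]
      norm_num at h2 ⊢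
      linarith
    rw [h1, Real.exp_add]
    nlinarith [Real.exp_pos (-(0.4 * hd ι))]

theorem Ev_le_om1 {w : ι → ℝ} (hw : w ∈ AA ι) : Ev (3 / 4) w ≤ om1 (hd ι) := by
  have hv := hd_ge hn
  have h1 := ((mem_AA hn).1 hw).1
  have h2 : 0 ≤ t0 (hd ι) := by
    unfold t0
    positivity
  have h3 : t0 (hd ι) * (0.8 * hd ι) = 0.07832 * hd ι + 0.344 := by
    unfold t0
    field_simp
    ring
  have h4 : gs (t0 (hd ι)) w ≤ Real.exp (-0.344) * Real.exp (-(0.0783 * hd ι)) := by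
    rw [← Real.exp_add]
    refine Real.exp_le_exp.2 ?_
    nlinarith [mul_le_mul_of_nonneg_left h1 h2]
  have h5 : Real.exp (-(0.5794 * hd ι)) ≤ 0.00001 * Real.exp (-(0.0783 * hd ι)) := by
    have h6 : -(0.5794 * hd ι) = -(0.5011 * hd ι) + -(0.0783 * hd ι) := by ring
    rw [h6, Real.exp_add]
    exact mul_le_mul_of_nonneg_right (envb1_exp (by linarith)) (Real.exp_pos _).le
  have h7 := mul_le_mul_of_nonneg_right envb1_c1 (Real.exp_pos (-(0.0783 * hd ι))).le
  refine (Ev_le_gs hn w).trans ?_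
  unfold dl om1
  nlinarith [Real.exp_pos (-(0.0783 * hd ι))]

theorem envb1_two {w : ι → ℝ} (hw : w ∈ AA ι) :
    Ev (3 / 4) ((2 : ℝ) • w) ≤ 0.2591 * Real.exp (-(0.3132 * hd ι)) := by
  have hv := hd_ge hn
  have h1 := ((mem_AA hn).1 hw).1
  have h2 : 0 ≤ t0 (hd ι) := by
    unfold t0
    positivity
  have h3 : t0 (hd ι) * (0.8 * hd ι) = 0.07832 * hd ι + 0.344 := by
    unfold t0
    field_simp
    ring
  have h4 : gs (t0 (hd ι)) ((2 : ℝ) • w) ≤ Real.exp (-1.376) * Real.exp (-(0.3132 * hd ι)) := by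
    rw [← Real.exp_add, gs, nx_smul]
    refine Real.exp_le_exp.2 ?_
    nlinarith [mul_le_mul_of_nonneg_left h1 h2]
  have h5 : Real.exp (-(0.5794 * hd ι)) ≤ 0.00001 * Real.exp (-(0.3132 * hd ι)) := by
    have h6 : -(0.5794 * hd ι) = -(0.2662 * hd ι) + -(0.3132 * hd ι) := by ring
    rw [h6, Real.exp_add]
    exact mul_le_mul_of_nonneg_right (envb1_exp (by linarith)) (Real.exp_pos _).le
  have h7 := mul_le_mul_of_nonneg_right envb1_c2 (Real.exp_pos (-(0.3132 * hd ι))).le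
  refine (Ev_le_gs hn _).trans ?_
  unfold dl
  nlinarith [Real.exp_pos (-(0.3132 * hd ι))]

theorem envb1_big {w : ι → ℝ} (hw : w ∈ AA ι) {k : ℝ} (hk : 3 ≤ k) :
    Ev (3 / 4) (k • w) ≤ 0.0004 * Real.exp (-(0.3132 * hd ι)) * (1 / k ^ 2) := by
  have hv := hd_ge hn
  have h1 := ((mem_AA hn).1 hw).1
  have h2 := th_ge hv
  have he := Real.exp_one_gt_d9
  have hk2 : 9 ≤ k ^ 2 := by nlinarith
  have h3 : 0.135 ≤ th (hd ι) ^ 2 := by nlinarith
  have h4 : 0.081 * hd ι * k ^ 2 ≤ th (hd ι) ^ 2 * (3 / 4) * nx (k • w) := by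
    rw [nx_smul]
    have : 0.135 * (0.8 * hd ι) ≤ th (hd ι) ^ 2 * nx w :=
      mul_le_mul h3 h1 (by positivity) (by positivity)
    nlinarith
  have h5 : 0 < 0.081 * hd ι * k ^ 2 := by positivity
  have h6 : 0.45 * hd ι / (Real.exp 1 * (th (hd ι) ^ 2 * (3 / 4) * nx (k • w))) ≤
      (1 / 4) * (9 / k ^ 2) := by
    have h7 : 2.7 * (0.081 * hd ι * k ^ 2) ≤
        Real.exp 1 * (th (hd ι) ^ 2 * (3 / 4) * nx (k • w)) :=
      mul_le_mul (by linarith) h4 h5.le (Real.exp_pos _).le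
    refine (div_le_div_of_nonneg_left (by positivity) (by positivity) h7).trans ?_
    rw [div_le_iff₀ (by positivity)]
    field_simp
    norm_num
  have h8 : (9 / k ^ 2) ^ (0.45 * hd ι) ≤ 9 / k ^ 2 := by
    have := Real.rpow_le_rpow_of_exponent_ge (x := 9 / k ^ 2) (y := 0.45 * hd ι) (z := 1)
      (by positivity) (by rw [div_le_one (by positivity)]; exact hk2) (by linarith)
    rwa [Real.rpow_one] at this
  have h9 : (1 / 4 : ℝ) ^ (0.45 * hd ι) ≤ 0.00001 * Real.exp (-(0.3132 * hd ι)) := by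
    have e1 : Real.log (1 / 4) = -(2 * Real.log 2) := by
      rw [one_div, Real.log_inv, show (4 : ℝ) = 2 ^ 2 by norm_num, Real.log_pow]
      norm_num
    have e2 := Real.log_two_gt_d9
    rw [Real.rpow_def_of_pos (by norm_num), e1]
    refine le_trans ?_ (mul_le_mul_of_nonneg_right (envb1_exp (x := 0.3 * hd ι) (by linarith))
      (Real.exp_pos _).le)
    rw [← Real.exp_add]
    refine Real.exp_le_exp.2 ?_
    nlinarith
  refine (Env_le_pow hv (h5.trans_le h4)).trans ?_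
  have h10 := Real.rpow_le_rpow (div_nonneg (by positivity)
    (mul_nonneg (Real.exp_pos _).le (h5.trans_le h4).le)) h6
    (show 0 ≤ 0.45 * hd ι by positivity)
  rw [Real.mul_rpow (by norm_num) (by positivity)] at h10
  have h11 := mul_le_mul h9 h8 (by positivity) (by positivity)
  have h12 : 0 < Real.exp (-(0.3132 * hd ι)) * (1 / k ^ 2) := by positivity
  have h13 : 0.00001 * Real.exp (-(0.3132 * hd ι)) * (9 / k ^ 2) =
      0.00009 * (Real.exp (-(0.3132 * hd ι)) * (1 / k ^ 2)) := by ring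
  nlinarith

/-- the multiples of a vector of the annulus -/
theorem tsum_Ev_mul_le {w : ι → ℝ} (hw : w ∈ AA ι) :
    ∑' g : ℕ, ENNReal.ofReal (Ev (3 / 4) (((g + 2 : ℕ) : ℝ) • w)) ≤
      ENNReal.ofReal (om2 (hd ι)) := by
  have hE := Real.exp_pos (-(0.3132 * hd ι))
  have key : ∀ n : ℕ, ∑ g ∈ Finset.range (n + 1), Ev (3 / 4) (((g + 2 : ℕ) : ℝ) • w) ≤
      Real.exp (-(0.3132 * hd ι)) * (0.2591 + 0.0004 * (1 - 1 / (n + 2))) := by
    intro n
    induction n with
    | zero =>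
      have := envb1_two hn hw
      simp only [zero_add, Finset.sum_range_one, Nat.cast_ofNat, Nat.cast_zero]
      nlinarith
    | succ n ih =>
      have hn0 : (0 : ℝ) ≤ n := Nat.cast_nonneg n
      have h1 := envb1_big hn hw (k := ((n + 1 + 2 : ℕ) : ℝ)) (by push_cast; linarith)
      have h2 : 1 / ((n + 1 + 2 : ℕ) : ℝ) ^ 2 ≤ 1 / (n + 2) - 1 / (((n + 1 : ℕ) : ℝ) + 2) := by
        push_cast
        rw [div_sub_div _ _ (by positivity) (by positivity), div_le_div_iff₀ (by positivity)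
          (by positivity)]
        nlinarith
      rw [Finset.sum_range_succ]
      nlinarith [mul_le_mul_of_nonneg_left h2 hE.le]
  refine ENNReal.tsum_le_of_sum_range_le fun n => ?_
  refine (Finset.sum_le_sum_of_subset (Finset.range_subset_range.2 (Nat.le_succ n))).trans ?_
  rw [← ENNReal.ofReal_sum_of_nonneg fun g _ => Ev_nonneg hn (by norm_num) _]
  refine ENNReal.ofReal_le_ofReal ((key n).trans ?_)
  have : 0 ≤ 1 / ((n : ℝ) + 2) := by positivity
  unfold om2
  nlinarith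

theorem abs_ftr_le_Env {φ : ℝ → ℝ} (hφ : Prof φ) (w : ι → ℝ) :
    ENNReal.ofReal |ftr (rad φ) w| ≤ ∫⁻ y : ι → ℝ, ENNReal.ofReal |φ (nsq y)| *
      ENNReal.ofReal (Env (hd ι) (th (hd ι) ^ 2 * (nx y / hd ι) * nx w)) := by
  have hv := hd_ge hn
  have hr := rr_pos hv
  have h := abs_ftr_le (ι := ι) (c := fun _ => hd ι) (by omega) hφ.meas hφ.integrable
    measurable_const (fun _ => by linarith) w
  rw [← Real.enorm_eq_ofReal_abs]
  refine h.trans (lintegral_mono fun y => ?_)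
  rw [Real.enorm_eq_ofReal_abs]
  refine mul_le_mul_right (ENNReal.ofReal_le_ofReal ?_) _
  have h1 := nsq_nonneg y
  have h2 := nsq_nonneg w
  have h3 := Om_le_Env hv (B := Real.pi ^ 2 * nsq y * nsq w) (by positivity)
  have h4 : th (hd ι) ^ 2 * (nx y / hd ι) * nx w = Real.pi ^ 2 * nsq y * nsq w / hd ι := by
    unfold th nx
    field_simp
  rw [h4]
  exact h3

/-- profiles that vanish near the origin -/
theorem abs_ftr_le_Ev {φ : ℝ → ℝ} (hφ : Prof φ) {u : ℝ} (hu : 0 ≤ u)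
    (hz : ∀ ρ, ρ < u * rr (hd ι) → φ ρ = 0) (w : ι → ℝ) :
    |ftr (rad φ) w| ≤ (∫ y : ι → ℝ, |φ (nsq y)|) * Ev u w := by
  have hv := hd_ge hn
  have hr := rr_pos hv
  have h0 := Ev_nonneg hn hu w
  have h1 : 0 ≤ ∫ y : ι → ℝ, |φ (nsq y)| := integral_nonneg fun _ => abs_nonneg _
  rw [← ENNReal.ofReal_le_ofReal_iff (by positivity), ENNReal.ofReal_mul h1,
    ofReal_integral_eq_lintegral_ofReal hφ.integrable.abs (ae_of_all _ fun _ => abs_nonneg _),
    ← lintegral_mul_const' _ _ ENNReal.ofReal_ne_top]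
  refine (abs_ftr_le_Env hn hφ w).trans (lintegral_mono fun y => ?_)
  by_cases h : nsq y < u * rr (hd ι)
  · simp [hz _ h]
  refine mul_le_mul_right (ENNReal.ofReal_le_ofReal ?_) _
  have h2 := nx_nonneg hn w
  refine Env_anti hv (by positivity) ?_
  have h3 : u ≤ nx y / hd ι := by
    unfold nx
    rw [le_div_iff₀ (by positivity), le_div_iff₀ hr]
    nlinarith [not_lt.1 h]
  gcongr

theorem prof_Iio (ρ : ℝ) : Prof ((Set.Iio ρ).indicator 1) :=
  envb1_prof (M := 1) Set.ordConnected_Iio continuous_const (fun _ hx => le_of_lt hx)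
    (fun _ _ _ => by simp) zero_le_one

/-- balls -/
theorem abs_ftr_ball_le {ρ : ℝ} (hρ : 3 / 4 * rr (hd ι) ≤ ρ) (w : ι → ℝ) :
    |ftr (rad ((Set.Iio ρ).indicator 1)) w| ≤
      2 * (volume {y : ι → ℝ | nsq y < ρ}).toReal * Ev (3 / 4) w := by
  have hv := hd_ge hn
  have hr := rr_pos hv
  have hv0 : 0 < hd ι := by linarith
  have hρ0 : 0 < ρ := by linarith
  have h0 := Ev_nonneg hn (u := 3 / 4) (by norm_num) w
  have h2 := nx_nonneg hn w
  have hG := Real.Gamma_pos_of_pos hv0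
  have hc := rad_c hv0
  have : Nonempty ι := Fintype.card_pos_iff.1 (by omega)
  have hm : Measurable fun t : ℝ => ENNReal.ofReal |(Set.Iio ρ).indicator (1 : ℝ → ℝ) t| *
      ENNReal.ofReal (Env (hd ι) (th (hd ι) ^ 2 * (hd ι * t / rr (hd ι) / hd ι) * nx w)) := by
    refine (prof_Iio hn ρ).abs.meas.ennreal_ofReal.mul
      ((measurable_Env _).comp ?_).ennreal_ofReal
    fun_prop
  rw [← ENNReal.ofReal_le_ofReal_iff (by positivity)]
  refine (abs_ftr_le_Env hn (prof_Iio hn ρ) w).trans ((lintegral_radial _ hm).trans_le ?_)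
  refine (setLIntegral_mono' measurableSet_Ioi (g := (Set.Iio ρ).indicator fun t =>
    ENNReal.ofReal (ρ ^ (0.45 * hd ι) * Ev (3 / 4) w * (Real.pi ^ hd ι / Real.Gamma (hd ι)) *
      t ^ (0.55 * hd ι - 1))) fun t ht => ?_).trans ?_
  · by_cases h : t ∈ Set.Iio ρ
    swap
    · simp [Set.indicator_of_notMem h]
    have ht0 : 0 < t := ht
    have h3 : th (hd ι) ^ 2 * (hd ι * t / rr (hd ι) / hd ι) * nx w =
        t / ρ * (th (hd ι) ^ 2 * (ρ / rr (hd ι)) * nx w) := by
      field_simp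
    have h4 := Env_scale hv (s := t / ρ) (y := th (hd ι) ^ 2 * (ρ / rr (hd ι)) * nx w)
      (by positivity) ((div_le_one hρ0).2 (le_of_lt h)) (by positivity)
    have h5 : Ev (ρ / rr (hd ι)) w ≤ Ev (3 / 4) w :=
      Ev_anti hn (by norm_num) (by rwa [le_div_iff₀ hr]) w
    have h6 : (t / ρ) ^ (-(0.45 * hd ι)) = ρ ^ (0.45 * hd ι) * t ^ (-(0.45 * hd ι)) := by
      rw [Real.div_rpow ht0.le hρ0.le, Real.rpow_neg hρ0.le, div_inv_eq_mul, mul_comm]
    have h7 : t ^ (0.55 * hd ι - 1) = t ^ (-(0.45 * hd ι)) * t ^ (hd ι - 1) := by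
      rw [← Real.rpow_add ht0]
      congr 1
      ring
    have h8 := h4.trans (mul_le_mul_of_nonneg_left h5 (by positivity))
    rw [Set.indicator_of_mem h, Set.indicator_of_mem h, Pi.one_apply, abs_one, ENNReal.ofReal_one,
      one_mul, h3, mul_comm (ENNReal.ofReal _), ← ENNReal.ofReal_mul (by positivity)]
    refine ENNReal.ofReal_le_ofReal ?_
    refine (mul_le_mul_of_nonneg_left h8 (by positivity)).trans_eq ?_
    rw [h6, h7]
    unfold hd
    ring
  · rw [envb1_pow hρ0 (by positivity) (by positivity), volume_nsq_lt hρ0.le,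
      ENNReal.toReal_ofReal (by positivity)]
    refine ENNReal.ofReal_le_ofReal ?_
    change _ ≤ 2 * ((Real.pi * ρ) ^ hd ι / Real.Gamma (hd ι + 1)) * _
    have h3 : ρ ^ hd ι = ρ ^ (0.45 * hd ι) * ρ ^ (0.55 * hd ι) := by
      rw [← Real.rpow_add hρ0]
      congr 1
      ring
    rw [Real.mul_rpow Real.pi_pos.le hρ0.le, Real.Gamma_add_one hv0.ne', h3]
    have h4 : 0 ≤ ρ ^ (0.45 * hd ι) * Ev (3 / 4) w * (Real.pi ^ hd ι / Real.Gamma (hd ι)) *
        ρ ^ (0.55 * hd ι) / hd ι := by positivity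
    have h5 : ρ ^ (0.45 * hd ι) * Ev (3 / 4) w * (Real.pi ^ hd ι / Real.Gamma (hd ι)) *
        (ρ ^ (0.55 * hd ι) / (0.55 * hd ι)) = 20 / 11 * (ρ ^ (0.45 * hd ι) * Ev (3 / 4) w *
          (Real.pi ^ hd ι / Real.Gamma (hd ι)) * ρ ^ (0.55 * hd ι) / hd ι) := by
      field_simp
      ring
    have h6 : 2 * (Real.pi ^ hd ι * (ρ ^ (0.45 * hd ι) * ρ ^ (0.55 * hd ι)) /
        (hd ι * Real.Gamma (hd ι))) * Ev (3 / 4) w = 2 * (ρ ^ (0.45 * hd ι) * Ev (3 / 4) w *
          (Real.pi ^ hd ι / Real.Gamma (hd ι)) * ρ ^ (0.55 * hd ι) / hd ι) := by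
      field_simp
    rw [h5, h6]
    linarith

theorem prof_ann (s : ℝ) : Prof ((Set.Ico (0.8 * rr (hd ι)) (rr (hd ι))).indicator
    fun ρ => Real.exp (-(s * (hd ι * ρ / rr (hd ι))))) := by
  have hv := hd_ge hn
  have hr := rr_pos hv
  refine envb1_prof (M := Real.exp (|s| * hd ι)) Set.ordConnected_Ico (by fun_prop)
    (fun _ hx => hx.2.le) (fun x hx h0 => ?_) (Real.exp_pos _).le
  rw [abs_of_pos (Real.exp_pos _)]
  refine Real.exp_le_exp.2 ?_
  have h1 : hd ι * x / rr (hd ι) ≤ hd ι := by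
    rw [div_le_iff₀ hr]
    exact mul_le_mul_of_nonneg_left hx.2.le (by linarith)
  have h2 : 0 ≤ hd ι * x / rr (hd ι) := by positivity
  nlinarith [neg_abs_le s, abs_nonneg s]

end Pool.Agent.Eps.P
end
end

-- part Pool.Agent.Lib.MP_3bda03_nt.P.EnvBx
section

/-!
Auxiliary facts for the bounds for Fourier transforms of radial functions.
-/

set_option autoImplicit false

noncomputable section

open MeasureTheory Matrix
open scoped ENNReal

namespace Pool.Agent.Eps.P

open Pool.Agent.Eps.H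

theorem envb_exp {x : ℝ} (hx : 0 ≤ x) : 1 + x + x ^ 2 / 2 + x ^ 3 / 6 ≤ Real.exp x := by
  have h := Real.sum_le_exp_of_nonneg hx 4
  norm_num [Finset.sum_range_succ, Nat.factorial] at h
  linarith

theorem envb_exp_neg {x c : ℝ} (hx : 0 ≤ x) (hc : 1 ≤ c * (1 + x + x ^ 2 / 2 + x ^ 3 / 6)) :
    Real.exp (-x) ≤ c := by
  have h := envb_exp hx
  have h0 : 0 < 1 + x + x ^ 2 / 2 + x ^ 3 / 6 := by positivity
  have h1 : 0 < c := (mul_pos_iff_of_pos_right h0).1 (by linarith)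
  rw [Real.exp_neg, inv_le_iff_one_le_mul₀ (Real.exp_pos x)]
  nlinarith

/-- a small exponential -/
theorem envb_small {v a : ℝ} (hv : 97 / 2 ≤ v) (ha : 0.17 ≤ a) :
    Real.exp (-(a * v)) ≤ 0.0004 := by
  have h1 : Real.exp (-(a * v)) ≤ Real.exp (-1) ^ 8 := by
    rw [← Real.exp_nat_mul]
    refine Real.exp_le_exp.2 ?_
    push_cast
    nlinarith
  have h2 : Real.exp (-1) ≤ 0.375 := envb_exp_neg zero_le_one (by norm_num)
  exact h1.trans ((pow_le_pow_left₀ (Real.exp_pos _).le h2 8).trans (by norm_num))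

theorem envb_VV {v : ℝ} (hv : 97 / 2 ≤ v) : 0 < VV v := by
  have := lb_ge hv
  unfold VV
  linarith

theorem envb_t0 {v : ℝ} (hv : 97 / 2 ≤ v) : 0 < t0 v := by
  have : 0 < v := by linarith
  unfold t0
  positivity

theorem envb_dl {v : ℝ} (hv : 97 / 2 ≤ v) : dl v ≤ 0.002 * Real.exp (-(0.4 * v)) := by
  have h := envb_small hv (a := 0.1794) (by norm_num)
  have e : Real.exp (-(0.5794 * v)) = Real.exp (-(0.1794 * v)) * Real.exp (-(0.4 * v)) := by
    rw [← Real.exp_add]; congr 1; ring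
  rw [dl, e]
  nlinarith [Real.exp_pos (-(0.4 * v))]

theorem envb_FF {v a : ℝ} (hv : 97 / 2 ≤ v) (ha : 0 ≤ a) :
    1.024 * FF v (min (4 / 3 * t0 v * a / v) 0.4) + dl v ≤
      1.024 * Real.exp (-(tx v * a)) + dx v := by
  have hv0 : 0 < v := by linarith
  have ht := envb_t0 hv
  have hd := envb_dl hv
  have he := Real.exp_pos (-(0.4 * v))
  rcases le_total (4 / 3 * t0 v * a / v) 0.4 with h | h
  · rw [min_eq_left h]
    generalize hs : 4 / 3 * t0 v * a / v = s at h
    have hs0 : 0 ≤ s := by rw [← hs]; positivity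
    have hsv : s * v = 4 / 3 * t0 v * a := by rw [← hs]; field_simp
    have h1 : tx v * a ≤ s * v - 1.3 * s := by
      have e : s * v - 1.3 * s = 4 / 3 * t0 v * (1 - 1.3 / v) * a := by
        rw [← hs]; field_simp
      rw [e]
      exact mul_le_mul_of_nonneg_right (tx_le hv) ha
    have h2 : 1 ≤ (1 - s) * Real.exp (1.3 * s) := by
      have h3 := envb_exp (x := 1.3 * s) (by positivity)
      have h4 : s ^ 2 ≤ 0.4 * s := by nlinarith
      have h5 : s ^ 3 ≤ 0.16 * s := by nlinarith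
      have h6 : s ^ 4 ≤ 0.064 * s := by nlinarith
      have h7 : 1 ≤ (1 - s) * (1 + 1.3 * s + (1.3 * s) ^ 2 / 2 + (1.3 * s) ^ 3 / 6) := by
        nlinarith
      exact h7.trans (mul_le_mul_of_nonneg_left h3 (by linarith))
    have h3 : FF v s ≤ Real.exp (-(tx v * a)) := by
      rw [FF, div_le_iff₀ (by linarith)]
      have h4 : Real.exp (-(s * v)) * Real.exp (1.3 * s) ≤ Real.exp (-(tx v * a)) := by
        rw [← Real.exp_add]
        exact Real.exp_le_exp.2 (by linarith)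
      have h5 := mul_le_mul_of_nonneg_left h2 (Real.exp_pos (-(s * v))).le
      have h6 := mul_le_mul_of_nonneg_right h4 (show 0 ≤ 1 - s by linarith)
      nlinarith
    rw [dx]
    linarith
  · rw [min_eq_right h, FF, dx]
    have := Real.exp_pos (-(tx v * a))
    have e : Real.exp (-(0.4 * v)) / (1 - 0.4) = 5 / 3 * Real.exp (-(0.4 * v)) := by
      rw [div_eq_iff (by norm_num)]; ring
    rw [e]
    linarith

theorem envb_unit {v : ℝ} (hv : 97 / 2 ≤ v) : 4 / 3 * t0 v < 1 ∧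
    1.024 * FF v (4 / 3 * t0 v) + dl v ≤ 0.68 * Real.exp (-(0.1305 * v)) := by
  have hv0 : 0 < v := by linarith
  have h1 : 0.43 / v ≤ 0.0089 := by rw [div_le_iff₀ hv0]; linarith
  have h2 : 4 / 3 * t0 v ≤ 0.1424 := by unfold t0; linarith
  have h3 : 0.1305 * v + 0.5733 ≤ 4 / 3 * t0 v * v := by
    have : t0 v * v = 0.0979 * v + 0.43 := by unfold t0; field_simp
    linarith
  refine ⟨by linarith, ?_⟩
  have he := Real.exp_pos (-(0.1305 * v))
  have h4 : Real.exp (-0.5733) ≤ 0.5654 := envb_exp_neg (by norm_num) (by norm_num)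
  have h5 : Real.exp (-(4 / 3 * t0 v * v)) ≤ Real.exp (-(0.1305 * v)) * 0.5654 := by
    refine le_trans ?_ (mul_le_mul_of_nonneg_left h4 he.le)
    rw [← Real.exp_add]
    exact Real.exp_le_exp.2 (by linarith)
  have h6 : FF v (4 / 3 * t0 v) ≤ 0.66 * Real.exp (-(0.1305 * v)) := by
    rw [FF, div_le_iff₀ (by linarith)]
    nlinarith
  have h7 : Real.exp (-(0.4 * v)) ≤ Real.exp (-(0.1305 * v)) := Real.exp_le_exp.2 (by linarith)
  linarith [envb_dl hv]

theorem envb_lv {ι τ : Type} [Fintype τ] [DecidableEq τ] (U : Matrix τ ι ℝ) (i : τ) (c : ℤ) :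
    lv (Pi.single i c) U = (c : ℝ) • U i := by
  have : cv (Pi.single i c : τ → ℤ) = Pi.single i (c : ℝ) := by
    ext j
    by_cases h : j = i
    · subst h; simp [cv]
    · simp [cv, h]
  rw [lv, this, Matrix.single_vecMul]
  rfl

theorem envb_range {α β : Type} (F : α → β) (f : β → ℝ≥0∞) :
    cs (Set.range F) f ≤ ∑' x, f (F x) :=
  ENNReal.tsum_le_tsum_comp_of_surjective (Set.rangeFactorization_surjective (f := F))
    fun y => f y.1

theorem envb_coer {ι τ : Type} [Fintype ι] [Fintype τ] [DecidableEq ι] {U : Matrix τ ι ℝ}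
    (hU : LinearIndependent ℝ fun i => U i) :
    ∃ c : ℝ, 0 < c ∧ ∀ x : τ → ℝ, c * nsq x ≤ nsq (x ᵥ* U) := by
  obtain ⟨g, hg⟩ := (Matrix.vecMulLinear U).exists_leftInverse_of_injective
    (LinearMap.ker_eq_bot.2 (Matrix.vecMul_injective_iff.2 hU))
  obtain ⟨B, rfl⟩ := Matrix.toLinearMapRight'.surjective g
  have p : 0 < ∑ j, ∑ i, B i j ^ 2 + 1 := by positivity
  refine ⟨(∑ j, ∑ i, B i j ^ 2 + 1)⁻¹, inv_pos.2 p, fun x => ?_⟩
  have e : (x ᵥ* U) ᵥ* B = x := LinearMap.congr_fun hg x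
  have b : nsq ((x ᵥ* U) ᵥ* B) ≤ (∑ j, ∑ i, B i j ^ 2) * nsq (x ᵥ* U) := by
    rw [Finset.sum_mul]
    refine Finset.sum_le_sum fun j _ => ?_
    rw [mul_comm]
    exact Finset.sum_mul_sq_le_sq_mul_sq Finset.univ (x ᵥ* U) fun i => B i j
  rw [e] at b
  rw [inv_mul_le_iff₀ p]
  linarith [nsq_nonneg (x ᵥ* U)]

theorem envb_rad {ι : Type} [Fintype ι] :
    (rad ((Set.Ico (0.8 * rr (hd ι)) (rr (hd ι))).indicator
      fun ρ => Real.exp (-(0 * (hd ι * ρ / rr (hd ι))))) : (ι → ℝ) → ℝ) =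
      (AA ι).indicator 1 := by
  funext y
  by_cases h : y ∈ AA ι
  · rw [rad, Set.indicator_of_mem h, Set.indicator_of_mem (show nsq y ∈ Set.Ico _ _ from h)]
    simp
  · rw [rad, Set.indicator_of_notMem h,
      Set.indicator_of_notMem (show nsq y ∉ Set.Ico _ _ from h)]

end Pool.Agent.Eps.P
end
end
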