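import Pool.Agent.Lib.MP_3bda03_nt.P.Basic1
import Pool.Agent.Lib.MP_3bda03_nt.H.Radial
import Pool.Agent.Lib.MP_3bda03_nt.H.Poisson

-- part Pool.Agent.Lib.MP_3bda03_nt.P.Basic
section

/-!
Numerical facts about the parameters.
-/

set_option autoImplicit false

noncomputable section

open MeasureTheory Matrix
open scoped ENNReal

namespace Pool.Agent.Eps.P

open Pool.Agent.Eps.H

variable {v : ℝ}

theorem basic_lb_pos (hv : 97 / 2 ≤ v) : 0 < lb v := lt_of_lt_of_le (by norm_num) (lb_ge hv)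

theorem basic_lb_lin (hv : 97 / 2 ≤ v) : lb v ≤ 1.125 + 0.06 * (v - 97 / 2) := by
  unfold lb
  refine max_le ?_ ?_ <;> linarith

theorem basic_lb_exp1 (hv : 97 / 2 ≤ v) :
    lb v ≤ 1.125 * Real.exp (0.0783 * (v - 97 / 2)) := by
  have h1 := basic_lb_lin hv
  have h2 := Real.add_one_le_exp (0.0783 * (v - 97 / 2))
  linarith

theorem basic_lb_exp2 (hv : 97 / 2 ≤ v) :
    lb v ≤ 1.135 * Real.exp (0.03915 * (v - 97 / 2)) := by
  have h2 := Real.quadratic_le_exp_of_nonneg (x := 0.03915 * (v - 97 / 2)) (by linarith)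
  unfold lb
  refine max_le ?_ ?_ <;> nlinarith [sq_nonneg (v - 97 / 2 - 3.2)]

theorem basic_lb_exp3 (hv : 97 / 2 ≤ v) :
    lb v ≤ 1.125 * Real.exp (0.0522 * (v - 97 / 2)) := by
  have h2 := Real.quadratic_le_exp_of_nonneg (x := 0.0522 * (v - 97 / 2)) (by linarith)
  unfold lb
  refine max_le ?_ ?_ <;> nlinarith [sq_nonneg (v - 97 / 2 - 1)]

theorem basic_split (c : ℝ) {y : ℝ} (hy : 0 < y) (h : y ≤ Real.exp (c * (97 / 2))) :
    Real.exp (-(c * v)) * Real.exp (c * (v - 97 / 2)) ≤ 1 / y := by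
  rw [← Real.exp_add, show -(c * v) + c * (v - 97 / 2) = -(c * (97 / 2)) by ring, Real.exp_neg,
    one_div]
  exact inv_anti₀ hy h

theorem basic_e1 : (44.59 : ℝ) ≤ Real.exp (0.0783 * (97 / 2)) := by
  refine le_trans ?_ (Real.sum_le_exp_of_nonneg (by norm_num) 16)
  norm_num [Finset.sum_range_succ, Nat.factorial]

theorem basic_e2 : (158.1 : ℝ) ≤ Real.exp (0.1044 * (97 / 2)) := by
  refine le_trans ?_ (Real.sum_le_exp_of_nonneg (by norm_num) 18)
  norm_num [Finset.sum_range_succ, Nat.factorial]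

theorem basic_e3 : (13000 : ℝ) ≤ Real.exp (0.2 * (97 / 2)) := by
  refine le_trans ?_ (Real.sum_le_exp_of_nonneg (by norm_num) 14)
  norm_num [Finset.sum_range_succ, Nat.factorial]

theorem basic_e4 : (100000 : ℝ) ≤ Real.exp (0.3132 * (97 / 2)) := by
  refine le_trans ?_ (Real.sum_le_exp_of_nonneg (by norm_num) 10)
  norm_num [Finset.sum_range_succ, Nat.factorial]

theorem basic_exp_le {u a b c l : ℝ} (hu : 0 ≤ u) (ha : u ≤ a) (ha2 : a < 2) (hl : 0 < l)
    (hb : l * u ≤ b) (hc : b / (1 - a / 2) ≤ c) : Real.exp u ≤ 1 + c / l := by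
  have h1 : Real.exp u ≤ (2 + u) / (2 - u) := Real.exp_le_two_add_div_two_sub hu (by linarith)
  have h2 : (2 + u) / (2 - u) = 1 + u / (1 - u / 2) := by
    have : 2 - u ≠ 0 := by linarith
    have : 1 - u / 2 ≠ 0 := by linarith
    field_simp
    ring
  have h3 : u / (1 - u / 2) ≤ u / (1 - a / 2) :=
    div_le_div_of_nonneg_left hu (by linarith) (by linarith)
  have h4 : l * (u / (1 - a / 2)) ≤ c := by
    rw [← mul_div_assoc]
    exact (div_le_div_of_nonneg_right hb (by linarith)).trans hc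
  have h5 : u / (1 - a / 2) ≤ c / l := by
    rw [le_div_iff₀ hl, mul_comm]; exact h4
  linarith

theorem basic_g1_pos : 0 < g1 v := by unfold g1; positivity

theorem basic_al0_pos (hv : 97 / 2 ≤ v) : 0 < al0 v := by
  have := basic_lb_pos hv
  unfold al0; positivity

theorem basic_tilt_nonneg {q a : ℕ} (hq : q ≤ 10) (ha : a ≤ 7) : 0 ≤ tilt q a := by
  have h1 : (q : ℚ) ≤ 10 := by exact_mod_cast hq
  have h2 : (a : ℚ) ≤ 7 := by exact_mod_cast ha
  unfold tilt
  exact div_nonneg (by positivity) (by linarith)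

theorem g1_le (hv : 97 / 2 ≤ v) :
    g1 v ≤ 0.0328 ∧ lb v * g1 v ≤ 0.0369 ∧ lb v ^ 2 * g1 v ≤ 0.0422 := by
  have h0 := basic_split (v := v) 0.0783 (by norm_num) basic_e1
  have hE := Real.exp_pos (-(0.0783 * v))
  have h1 : 1 ≤ Real.exp (0.0783 * (v - 97 / 2)) := Real.one_le_exp (by linarith)
  have h2 := basic_lb_exp1 hv
  have h3 : lb v ^ 2 ≤ 1.135 ^ 2 * Real.exp (0.0783 * (v - 97 / 2)) := by
    have := pow_le_pow_left₀ (basic_lb_pos hv).le (basic_lb_exp2 hv) 2
    rwa [mul_pow, ← Real.exp_nat_mul, show ((2 : ℕ) : ℝ) * (0.03915 * (v - 97 / 2)) =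
      0.0783 * (v - 97 / 2) by push_cast; ring] at this
  unfold g1
  refine ⟨?_, ?_, ?_⟩
  · nlinarith [mul_le_mul_of_nonneg_left h1 hE.le]
  · nlinarith [mul_le_mul_of_nonneg_left h2 hE.le]
  · nlinarith [mul_le_mul_of_nonneg_left h3 hE.le]

theorem om_le_g1 (hv : 97 / 2 ≤ v) : 2 * (om1 v + om2 v) ≤ g1 v := by
  have h1 : (65 : ℝ) ≤ Real.exp (0.2349 * v) := by
    have := Real.quadratic_le_exp_of_nonneg (x := 0.2349 * v) (by linarith)
    nlinarith
  have h2 : Real.exp (-(0.0783 * v)) = Real.exp (-(0.3132 * v)) * Real.exp (0.2349 * v) := by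
    rw [← Real.exp_add]; congr 1; ring
  have hE := Real.exp_pos (-(0.3132 * v))
  unfold om1 om2 g1
  nlinarith [mul_le_mul_of_nonneg_left h1 hE.le]

theorem al0_le (hv : 97 / 2 ≤ v) : al0 v ≤ 0.0108 ∧ lb v * al0 v ≤ 0.0121 := by
  have h0 := basic_split (v := v) 0.1044 (by norm_num) basic_e2
  have hE := Real.exp_pos (-(0.1044 * v))
  have h3 : lb v ^ 2 ≤ 1.125 ^ 2 * Real.exp (0.1044 * (v - 97 / 2)) := by
    have := pow_le_pow_left₀ (basic_lb_pos hv).le (basic_lb_exp3 hv) 2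
    rwa [mul_pow, ← Real.exp_nat_mul, show ((2 : ℕ) : ℝ) * (0.0522 * (v - 97 / 2)) =
      0.1044 * (v - 97 / 2) by push_cast; ring] at this
  have h2 : lb v ≤ 1.125 * Real.exp (0.1044 * (v - 97 / 2)) := by
    have : Real.exp (0.0783 * (v - 97 / 2)) ≤ Real.exp (0.1044 * (v - 97 / 2)) :=
      Real.exp_le_exp.2 (by linarith)
    linarith [basic_lb_exp1 hv]
  unfold al0
  refine ⟨?_, ?_⟩
  · nlinarith [mul_le_mul_of_nonneg_left h2 hE.le]
  · nlinarith [mul_le_mul_of_nonneg_left h3 hE.le]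

theorem exp_g1 (hv : 97 / 2 ≤ v) : Real.exp (g1 v) ≤ 1 + 0.038 / lb v := by
  exact basic_exp_le basic_g1_pos.le (g1_le hv).1 (by norm_num) (basic_lb_pos hv) (g1_le hv).2.1
    (by norm_num)

theorem exp_al0 (hv : 97 / 2 ≤ v) :
    Real.exp (al0 v) ≤ 1 + 0.0125 / lb v ∧ Real.exp (al0 v) ≤ 1.0112 := by
  refine ⟨basic_exp_le (basic_al0_pos hv).le (al0_le hv).1 (by norm_num) (basic_lb_pos hv)
    (al0_le hv).2 (by norm_num), ?_⟩
  have := basic_exp_le (l := 1) (b := 0.0108) (c := 0.0112) (basic_al0_pos hv).le (al0_le hv).1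
    (by norm_num) one_pos (by linarith [(al0_le hv).1]) (by norm_num)
  linarith

theorem exp_al0_g1 (hv : 97 / 2 ≤ v) : Real.exp (al0 v + g1 v) ≤ 1 + 0.052 / lb v := by
  refine basic_exp_le (a := 0.0436) (b := 0.049) (add_pos (basic_al0_pos hv) basic_g1_pos).le
    ?_ (by norm_num) (basic_lb_pos hv) ?_ (by norm_num)
  · linarith [(al0_le hv).1, (g1_le hv).1]
  · linarith [(al0_le hv).2, (g1_le hv).2.1]

theorem exp_tilt (hv : 97 / 2 ≤ v) {q a : ℕ} (hq : q ≤ 10) (ha : a ≤ 7) :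
    Real.exp (((q : ℝ) + (a : ℝ) * lb v) * g1 v) ≤ 1 + ((|tilt q a| : ℚ) : ℝ) / lb v := by
  have h1 : (q : ℝ) ≤ 10 := by exact_mod_cast hq
  have h2 : (a : ℝ) ≤ 7 := by exact_mod_cast ha
  have hq0 : (0 : ℝ) ≤ q := Nat.cast_nonneg q
  have ha0 : (0 : ℝ) ≤ a := Nat.cast_nonneg a
  have hl := basic_lb_pos hv
  have hg := basic_g1_pos (v := v)
  obtain ⟨b1, b2, b3⟩ := g1_le hv
  refine basic_exp_le (a := 0.0328 * q + 0.0369 * a) (b := 0.0369 * q + 0.0422 * a)
    (by positivity) ?_ (by linarith) hl ?_ ?_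
  · nlinarith [mul_le_mul_of_nonneg_left b1 hq0, mul_le_mul_of_nonneg_left b2 ha0]
  · nlinarith [mul_le_mul_of_nonneg_left b2 hq0, mul_le_mul_of_nonneg_left b3 ha0]
  · rw [abs_of_nonneg (basic_tilt_nonneg hq ha)]
    unfold tilt
    push_cast
    exact le_of_eq (by norm_num)

theorem tilt_mono {q a q' a' : ℕ} (hq : q ≤ q') (ha : a ≤ a') (hq' : q' ≤ 10) (ha' : a' ≤ 7) :
    |tilt q a| ≤ |tilt q' a'| := by
  rw [abs_of_nonneg (basic_tilt_nonneg (hq.trans hq') (ha.trans ha')),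
    abs_of_nonneg (basic_tilt_nonneg hq' ha')]
  have h1 : (q' : ℚ) ≤ 10 := by exact_mod_cast hq'
  have h2 : (a' : ℚ) ≤ 7 := by exact_mod_cast ha'
  have h3 : (q : ℚ) ≤ q' := by exact_mod_cast hq
  have h4 : (a : ℚ) ≤ a' := by exact_mod_cast ha
  unfold tilt
  exact div_le_div₀ (by positivity) (by linarith) (by linarith) (by linarith)

theorem core_small (hv : 97 / 2 ≤ v) : Real.exp (lb v * (0.8 : ℝ) ^ v) ≤ 1.0001 := by
  have h0 := basic_split (v := v) 0.2 (by norm_num) basic_e3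
  have hE := Real.exp_pos (-(0.2 * v))
  have hl := basic_lb_pos hv
  have h1 : (0.8 : ℝ) ^ v ≤ Real.exp (-(0.2 * v)) := by
    rw [Real.rpow_def_of_pos (by norm_num)]
    refine Real.exp_le_exp.2 ?_
    have := Real.log_le_sub_one_of_pos (x := 0.8) (by norm_num)
    nlinarith
  have h2 : lb v ≤ 1.125 * Real.exp (0.2 * (v - 97 / 2)) := by
    have : Real.exp (0.0783 * (v - 97 / 2)) ≤ Real.exp (0.2 * (v - 97 / 2)) :=
      Real.exp_le_exp.2 (by linarith)
    linarith [basic_lb_exp1 hv]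
  have h3 : lb v * (0.8 : ℝ) ^ v ≤ 0.00009 := by
    nlinarith [mul_le_mul_of_nonneg_left h1 hl.le, mul_le_mul_of_nonneg_left h2 hE.le]
  have := basic_exp_le (l := 1) (b := 0.00009) (c := 0.0001) (by positivity) h3
    (by norm_num) one_pos (by linarith) (by norm_num)
  linarith

theorem lex_small (hv : 97 / 2 ≤ v) : 2 * lb v * (v / 3) * om2 v ≤ 0.0001 := by
  have h0 := basic_split (v := v) 0.3132 (by norm_num) basic_e4
  have hE := Real.exp_pos (-(0.3132 * v))
  have hl := basic_lb_pos hv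
  have h1 : v ≤ 48.5 * Real.exp (0.0783 * (v - 97 / 2)) := by
    have := Real.add_one_le_exp (0.0783 * (v - 97 / 2))
    linarith
  have h2 : lb v * v ≤ 1.125 * 48.5 * Real.exp (0.3132 * (v - 97 / 2)) := by
    have a := mul_le_mul (basic_lb_exp1 hv) h1 (by linarith) (by positivity)
    have b : Real.exp (0.0783 * (v - 97 / 2)) * Real.exp (0.0783 * (v - 97 / 2)) ≤
        Real.exp (0.3132 * (v - 97 / 2)) := by
      rw [← Real.exp_add]
      exact Real.exp_le_exp.2 (by linarith)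
    nlinarith
  unfold om2
  nlinarith [mul_le_mul_of_nonneg_left h2 hE.le]

/-- the function `y - 1 - log (y + s)` at `y = 2 th` is at most its values at the two ends -/
theorem l2_exp_le (hv : 97 / 2 ≤ v) {s c : ℝ} (hs : 0 ≤ s)
    (h1 : 0.7356 - 1 - Real.log (0.7356 + s) ≤ c) (h2 : 0.8 - 1 - Real.log (0.8 + s) ≤ c) :
    (th v / (2 * th v + s)) ^ v ≤ vp v * Real.exp (c * v) := by
  have t1 := th_ge hv
  have t2 := th_le hv
  have hth : 0 < th v := by linarith
  have hy : 0 < 2 * th v + s := by linarith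
  have hc : 2 * th v - 1 - Real.log (2 * th v + s) ≤ c := by
    have ha : 0 ≤ (0.8 - 2 * th v) / 0.0644 := div_nonneg (by linarith) (by norm_num)
    have hb : 0 ≤ (2 * th v - 0.7356) / 0.0644 := div_nonneg (by linarith) (by norm_num)
    have hab : (0.8 - 2 * th v) / 0.0644 + (2 * th v - 0.7356) / 0.0644 = 1 := by ring
    have := strictConcaveOn_log_Ioi.concaveOn.2 (x := 0.7356 + s) (y := 0.8 + s)
      (Set.mem_Ioi.2 (by linarith)) (Set.mem_Ioi.2 (by linarith)) ha hb hab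
    simp only [smul_eq_mul] at this
    rw [show (0.8 - 2 * th v) / 0.0644 * (0.7356 + s) + (2 * th v - 0.7356) / 0.0644 * (0.8 + s) =
      2 * th v + s by ring] at this
    have e : 2 * th v = (0.8 - 2 * th v) / 0.0644 * 0.7356 + (2 * th v - 0.7356) / 0.0644 * 0.8 := by
      ring
    generalize (0.8 - 2 * th v) / 0.0644 = a at *
    generalize (2 * th v - 0.7356) / 0.0644 = b at *
    have hb' : b = 1 - a := by linarith
    subst hb'
    nlinarith [mul_le_mul_of_nonneg_left h1 ha, mul_le_mul_of_nonneg_left h2 hb]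
  rw [vp_eq hv, Real.div_rpow hth.le hy.le, mul_assoc, div_eq_mul_inv,
    Real.rpow_def_of_pos hy, ← Real.exp_neg, ← Real.exp_add]
  refine mul_le_mul_of_nonneg_left (Real.exp_le_exp.2 ?_) (Real.rpow_nonneg hth.le _)
  nlinarith [mul_le_mul_of_nonneg_left hc (show 0 ≤ v by linarith)]

theorem imp_le {a d : ℕ} (hd : 5 * v / 3 ≤ d) :
    imp a d ≤ 2 * 2 ^ a * Real.exp (-(1.155 * v)) := by
  have h1 : Real.exp (1.155 * v) ≤ 2 ^ d := by
    rw [← Real.exp_log (x := 2 ^ d) (by positivity), Real.log_pow]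
    refine Real.exp_le_exp.2 ?_
    have h2 := Real.log_two_gt_d9
    have h3 : (0 : ℝ) ≤ d := Nat.cast_nonneg d
    nlinarith [mul_le_mul_of_nonneg_left h2.le h3]
  unfold imp
  rw [Real.exp_neg, ← div_eq_mul_inv]
  exact div_le_div_of_nonneg_left (by positivity) (Real.exp_pos _) h1

theorem Mono.ev_nonneg (hv : 97 / 2 ≤ v) (m : Mono) : 0 ≤ m.ev v := by
  have h1 := basic_lb_pos hv
  have h2 : 0 < sg v := lt_of_lt_of_le (by norm_num) (sg_ge hv)
  have h3 : (0 : ℝ) ≤ ((|m.A| : ℚ) : ℝ) := by exact_mod_cast abs_nonneg m.A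
  unfold Mono.ev
  positivity

theorem Mono.ev_mul (hv : 97 / 2 ≤ v) (a b : Mono) : (a.mul b).ev v = a.ev v * b.ev v := by
  have h1 := basic_lb_pos hv
  simp only [Mono.ev, Mono.mul]
  rw [abs_mul, zpow_add₀ h1.ne', pow_add]
  push_cast
  rw [show (a.ga : ℝ) + b.ga + (a.al + b.al) * lb v - (a.be + b.be) * v =
    (a.ga + a.al * lb v - a.be * v) + (b.ga + b.al * lb v - b.be * v) by ring, Real.exp_add]
  ring

theorem ev_cM (A : ℚ) : (cM A).ev v = ((|A| : ℚ) : ℝ) := by
  simp [Mono.ev, cM]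

end Pool.Agent.Eps.P
end
end

-- part Pool.Agent.Lib.MP_3bda03_nt.P.Vec1
section

/-!
Balls and Gaussians in normalised coordinates.
-/

set_option autoImplicit false

noncomputable section

open MeasureTheory Matrix
open scoped ENNReal

namespace Pool.Agent.Eps.P

open Pool.Agent.Eps.H

variable {ι : Type} [Fintype ι]

theorem hd_ge (hn : 97 ≤ Fintype.card ι) : 97 / 2 ≤ hd ι := by
  have h : (97 : ℝ) ≤ (Fintype.card ι : ℝ) := by exact_mod_cast hn
  unfold hd
  linarith

theorem KK_le : (KK ι : ℝ) ≤ hd ι / 3 := by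
  have h : 6 * (Fintype.card ι / 6) ≤ Fintype.card ι := Nat.mul_div_le _ _
  have h' : (6 : ℝ) * ((Fintype.card ι / 6 : ℕ) : ℝ) ≤ (Fintype.card ι : ℝ) := by
    exact_mod_cast h
  unfold KK hd
  linarith

theorem KK_gt : hd ι / 3 - 1 < (KK ι : ℝ) := by
  have h : Fintype.card ι < 6 * (Fintype.card ι / 6) + 6 := by omega
  have h' : (Fintype.card ι : ℝ) < (6 : ℝ) * ((Fintype.card ι / 6 : ℕ) : ℝ) + 6 := by
    exact_mod_cast h
  unfold KK hd
  linarith

theorem five_le {b : ℕ} (hb : b ≤ KK ι) : 5 * hd ι / 3 ≤ ((Fintype.card ι - b : ℕ) : ℝ) := by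
  unfold KK at hb
  have h : 5 * Fintype.card ι ≤ 6 * (Fintype.card ι - b) := by omega
  have h' : (5 : ℝ) * (Fintype.card ι : ℝ) ≤ 6 * ((Fintype.card ι - b : ℕ) : ℝ) := by
    exact_mod_cast h
  unfold hd
  linarith

theorem measurable_nx : Measurable (nx : (ι → ℝ) → ℝ) := by
  unfold nx
  exact (measurable_nsq.const_mul _).div_const _

theorem measurable_gs (t : ℝ) : Measurable (gs t : (ι → ℝ) → ℝ) := by
  unfold gs
  exact Real.measurable_exp.comp (measurable_nx.const_mul t).neg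

theorem measurable_Gs (t : ℝ) : Measurable (Gs t : (ι → ℝ) → ℝ≥0∞) := by
  unfold Gs
  exact (measurable_gs t).ennreal_ofReal

theorem measurableSet_AA : MeasurableSet (AA ι) := by
  unfold AA
  exact (measurableSet_le measurable_const measurable_nsq).inter
    (measurableSet_lt measurable_nsq measurable_const)

theorem measurableSet_BB : MeasurableSet (BB ι) := by
  unfold BB
  exact measurableSet_lt measurable_nsq measurable_const

theorem measurable_iA : Measurable (iA : (ι → ℝ) → ℝ≥0∞) := by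
  unfold iA
  exact measurable_one.indicator measurableSet_AA

theorem measurable_iB : Measurable (iB : (ι → ℝ) → ℝ≥0∞) := by
  unfold iB
  exact measurable_one.indicator measurableSet_BB

theorem measurable_IA {τ : Type} [Fintype τ] : Measurable (IA : Matrix τ ι ℝ → ℝ≥0∞) := by
  unfold IA
  exact Finset.measurable_prod _ fun i _ => measurable_iA.comp (measurable_row i)

theorem measurable_fs' {τ : Type} [Fintype τ] (S : Set (τ → ℤ)) {f : (ι → ℝ) → ℝ≥0∞}
    (hf : Measurable f) : Measurable (fs' S f : Matrix τ ι ℝ → ℝ≥0∞) := by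
  unfold fs' cs
  exact Measurable.ennreal_tsum fun κ => hf.comp (measurable_lv κ.1)

theorem measurable_vth {τ : Type} [Fintype τ] (t : ℝ) :
    Measurable (vth t : Matrix τ ι ℝ → ℝ≥0∞) := by
  unfold vth
  exact Measurable.ennreal_tsum fun κ => (measurable_Gs t).comp (measurable_lv κ)

theorem measurable_ind {Ω : Type} [MeasurableSpace Ω] {p : Ω → Prop}
    (h : MeasurableSet {x | p x}) : Measurable fun x => ind (p x) := by
  classical
  unfold ind
  exact Measurable.ite h measurable_const measurable_const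

theorem ind_pos {p : Prop} (h : p) : ind p = 1 := by
  unfold ind
  exact if_pos h

theorem ind_neg {p : Prop} (h : ¬ p) : ind p = 0 := by
  unfold ind
  exact if_neg h

theorem ind_le_one (p : Prop) : ind p ≤ 1 := by
  by_cases h : p
  · rw [ind_pos h]
  · rw [ind_neg h]
    exact zero_le_one

theorem measurableSet_rel {τ : Type} [Fintype τ] [DecidableEq τ] :
    MeasurableSet {U : Matrix τ ι ℝ | rel U} := by
  have h : {U : Matrix τ ι ℝ | rel U} =
      ⋃ κ : NE τ, (fun U : Matrix τ ι ℝ => lv κ.1 U) ⁻¹' AA ι := by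
    ext U
    simp [rel]
  rw [h]
  exact MeasurableSet.iUnion fun κ => measurable_lv κ.1 measurableSet_AA

theorem measurable_hole : Measurable (hole : Matrix ι ι ℝ → ℝ≥0∞) := by
  unfold hole
  apply measurable_ind
  have h : {g : Matrix ι ι ℝ | ∀ k : ι → ℤ, lv k g ∉ AA ι} =
      ⋂ k : ι → ℤ, (fun U : Matrix ι ι ℝ => lv k U) ⁻¹' (AA ι)ᶜ := by
    ext U
    simp
  rw [h]
  exact MeasurableSet.iInter fun k => measurable_lv k measurableSet_AA.compl

theorem measurable_XX {h : (ι → ℝ) → ℝ} (hm : Measurable h) (h0 : ∀ y, 0 ≤ h y) :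
    Measurable (XX h : Matrix ι ι ℝ → ℝ) := by
  have e : (XX h : Matrix ι ι ℝ → ℝ) = fun g =>
      (∑' k : {k : ι → ℤ // k ≠ 0}, ENNReal.ofReal (h (lv k.1 g))).toReal := by
    funext g
    unfold XX
    rw [ENNReal.tsum_toReal_eq fun _ => ENNReal.ofReal_ne_top]
    exact tsum_congr fun k => (ENNReal.toReal_ofReal (h0 _)).symm
  rw [e]
  have hk : ∀ k : {k : ι → ℤ // k ≠ 0},
      Measurable fun g : Matrix ι ι ℝ => ENNReal.ofReal (h (lv k.1 g)) := fun k =>
    ENNReal.measurable_ofReal.comp (hm.comp (measurable_lv k.1))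
  have hs : Measurable fun g : Matrix ι ι ℝ =>
      ∑' k : {k : ι → ℤ // k ≠ 0}, ENNReal.ofReal (h (lv k.1 g)) := Measurable.ennreal_tsum hk
  exact ENNReal.measurable_toReal.comp hs

theorem measurable_YY {h : (ι → ℝ) → ℝ} (hm : Measurable h) (h0 : ∀ y, 0 ≤ h y) (c : ℝ) :
    Measurable (YY h c : Matrix ι ι ℝ → ℝ≥0∞) := by
  unfold YY
  exact (((measurable_XX hm h0).sub_const c).pow_const 2).ennreal_ofReal

theorem measurable_ftr {F : (ι → ℝ) → ℝ} (hF : Measurable F) : Measurable (ftr F) := by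
  have hd' : Measurable fun p : (ι → ℝ) × (ι → ℝ) => p.1 ⬝ᵥ p.2 := by
    unfold dotProduct
    exact Finset.measurable_sum _ fun i _ =>
      ((measurable_pi_apply i).comp measurable_fst).mul
        ((measurable_pi_apply i).comp measurable_snd)
  have hm : Measurable fun p : (ι → ℝ) × (ι → ℝ) =>
      F p.2 * Real.cos (2 * Real.pi * (p.1 ⬝ᵥ p.2)) :=
    (hF.comp measurable_snd).mul (Real.measurable_cos.comp (hd'.const_mul _))
  exact (hm.stronglyMeasurable.integral_prod_right' (ν := volume)).measurable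

theorem IA_eq_one {τ : Type} [Fintype τ] {U : Matrix τ ι ℝ} (h : ∀ i, U i ∈ AA ι) : IA U = 1 := by
  unfold IA
  refine Finset.prod_eq_one fun i _ => ?_
  unfold iA
  rw [Set.indicator_of_mem (h i)]
  rfl

theorem IA_eq_zero {τ : Type} [Fintype τ] {U : Matrix τ ι ℝ} (h : ¬ ∀ i, U i ∈ AA ι) :
    IA U = 0 := by
  obtain ⟨i, hi⟩ := not_forall.1 h
  unfold IA
  refine Finset.prod_eq_zero (Finset.mem_univ i) ?_
  unfold iA
  exact Set.indicator_of_notMem hi _

theorem nx_neg (y : ι → ℝ) : nx (-y) = nx y := by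
  unfold nx
  rw [nsq_neg]

theorem nx_smul (c : ℝ) (y : ι → ℝ) : nx (c • y) = c ^ 2 * nx y := by
  unfold nx
  rw [nsq_smul]
  ring

theorem neg_mem_AA {y : ι → ℝ} : -y ∈ AA ι ↔ y ∈ AA ι := by
  unfold AA
  simp only [Set.mem_setOf_eq, nsq_neg]

theorem iA_le_iB (y : ι → ℝ) : iA y ≤ iB y := by
  unfold iA iB
  refine Set.indicator_le_indicator_of_subset (fun x hx => hx.2) (fun _ => zero_le) y

theorem Gs_smul (t c : ℝ) (hc : c ≠ 0) (u z : ι → ℝ) :
    Gs t (c • u + z) = Gs (t * c ^ 2) (u + c⁻¹ • z) := by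
  have e : c • u + z = c • (u + c⁻¹ • z) := by
    rw [smul_add, smul_smul, mul_inv_cancel₀ hc, one_smul]
  unfold Gs gs
  rw [e, nx_smul, mul_assoc]

/-- completing the square -/
theorem Gs_mul {a t : ℝ} (c : ℝ) (h : 0 < a + t * c ^ 2) (u z : ι → ℝ) :
    Gs a u * Gs t (c • u + z) =
      Gs (a * t / (a + t * c ^ 2)) z *
        Gs (a + t * c ^ 2) (u + (t * c / (a + t * c ^ 2)) • z) := by
  have hne : a + t * c ^ 2 ≠ 0 := h.ne'
  have key : a * nsq u + t * nsq (c • u + z) =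
      a * t / (a + t * c ^ 2) * nsq z +
        (a + t * c ^ 2) * nsq (u + (t * c / (a + t * c ^ 2)) • z) := by
    unfold nsq
    simp only [Finset.mul_sum, ← Finset.sum_add_distrib]
    refine Finset.sum_congr rfl fun i _ => ?_
    simp only [Pi.add_apply, Pi.smul_apply, smul_eq_mul]
    field_simp
    ring
  unfold Gs gs
  rw [← ENNReal.ofReal_mul (Real.exp_pos _).le, ← ENNReal.ofReal_mul (Real.exp_pos _).le,
    ← Real.exp_add, ← Real.exp_add]
  congr 2
  unfold nx
  linear_combination (-(hd ι / rr (hd ι))) * key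

variable (hn : 97 ≤ Fintype.card ι)
include hn

theorem nx_nonneg (y : ι → ℝ) : 0 ≤ nx y := by
  have hr := rr_pos (hd_ge hn)
  have hv := hd_ge hn
  have := nsq_nonneg y
  unfold nx
  apply div_nonneg _ hr.le
  apply mul_nonneg _ this
  linarith

theorem mem_AA {y : ι → ℝ} : y ∈ AA ι ↔ 0.8 * hd ι ≤ nx y ∧ nx y < hd ι := by
  have hr := rr_pos (hd_ge hn)
  have hv : 0 < hd ι := by have := hd_ge hn; linarith
  unfold AA nx
  rw [Set.mem_setOf_eq, le_div_iff₀ hr, div_lt_iff₀ hr]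
  constructor
  · rintro ⟨h1, h2⟩
    constructor <;> nlinarith
  · rintro ⟨h1, h2⟩
    constructor
    · by_contra hc
      push Not at hc
      nlinarith
    · by_contra hc
      push Not at hc
      nlinarith

theorem mem_BB {y : ι → ℝ} : y ∈ BB ι ↔ nx y < hd ι := by
  have hr := rr_pos (hd_ge hn)
  have hv : 0 < hd ι := by have := hd_ge hn; linarith
  unfold BB nx
  rw [Set.mem_setOf_eq, div_lt_iff₀ hr]
  exact (mul_lt_mul_iff_right₀ hv).symm

theorem zero_not_mem_AA : (0 : ι → ℝ) ∉ AA ι := by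
  have hr := rr_pos (hd_ge hn)
  intro h
  have h1 := h.1
  rw [nsq_eq_zero.2 rfl] at h1
  linarith

theorem gs_th (t : ℝ) (y : ι → ℝ) :
    gs (th (hd ι) * t) y = Real.exp (-Real.pi * t * nsq y) := by
  have hr := rr_pos (hd_ge hn)
  have hv : 0 < hd ι := by have := hd_ge hn; linarith
  unfold gs th nx
  congr 1
  field_simp

theorem Gs_anti {s t : ℝ} (h : s ≤ t) (y : ι → ℝ) : Gs t y ≤ Gs s y := by
  unfold Gs gs
  apply ENNReal.ofReal_le_ofReal
  apply Real.exp_le_exp.2
  have := nx_nonneg hn y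
  nlinarith

theorem Gs_le_one {t : ℝ} (h : 0 ≤ t) (y : ι → ℝ) : Gs t y ≤ 1 := by
  unfold Gs gs
  apply ENNReal.ofReal_le_one.2
  apply Real.exp_le_one_iff.2
  have := mul_nonneg h (nx_nonneg hn y)
  linarith

theorem iB_le_Gs {t : ℝ} (h : 0 ≤ t) (y : ι → ℝ) :
    iB y ≤ ENNReal.ofReal (Real.exp (t * hd ι)) * Gs t y := by
  by_cases hy : y ∈ BB ι
  · have h1 := (mem_BB hn).1 hy
    unfold iB Gs gs
    rw [Set.indicator_of_mem hy, ← ENNReal.ofReal_mul (Real.exp_pos _).le, ← Real.exp_add]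
    show (1 : ℝ≥0∞) ≤ _
    rw [← ENNReal.ofReal_one]
    apply ENNReal.ofReal_le_ofReal
    apply Real.one_le_exp
    nlinarith
  · unfold iB
    rw [Set.indicator_of_notMem hy]
    exact zero_le

end Pool.Agent.Eps.P
end
end

-- part Pool.Agent.Lib.MP_3bda03_nt.P.Vec
section

/-!
Balls and Gaussians in normalised coordinates.
-/

set_option autoImplicit false

noncomputable section

open MeasureTheory Matrix
open scoped ENNReal

namespace Pool.Agent.Eps.P

open Pool.Agent.Eps.H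

variable {ι : Type} [Fintype ι]

theorem vec_gs_pos (t : ℝ) (y : ι → ℝ) : 0 < gs t y := Real.exp_pos _

theorem vec_sq {h : (ι → ℝ) → ℝ} (hh : Hf h) (y : ι → ℝ) : h y ^ 2 ≤ gs (2 * th (hd ι)) y := by
  refine (pow_le_pow_left₀ (hh.nonneg y) (hh.le y) 2).trans_eq ?_
  rw [gs, gs, sq, ← Real.exp_add]
  congr 1
  ring

variable (ι) in
/-- the profile of a Gaussian on the ball -/
def vec_f (s ρ : ℝ) : ℝ≥0∞ := (Set.Iio (rr (hd ι))).indicator 1 ρ *
  ENNReal.ofReal (Real.exp (-(s * (hd ι * ρ / rr (hd ι)))))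

theorem vec_phi (s : ℝ) (y : ι → ℝ) : iB y * Gs s y = vec_f ι s (nsq y) := rfl

theorem vec_meas (s : ℝ) : Measurable (vec_f ι s) :=
  (measurable_one.indicator measurableSet_Iio).mul (by fun_prop)

variable (hn : 97 ≤ Fintype.card ι)
include hn

theorem vec_ne : Nonempty ι := Fintype.card_pos_iff.1 (by omega)

theorem vec_th : 0 < th (hd ι) := by linarith [th_ge (hd_ge hn)]

theorem vec_V : 0 < VV (hd ι) := by
  have := lb_ge (hd_ge hn)
  rw [VV]
  linarith

theorem vec_vol {c : ℝ} (hc : 0 ≤ c) : volume {y : ι → ℝ | nsq y < c * rr (hd ι)} =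
    ENNReal.ofReal (VV (hd ι) * c ^ hd ι) := by
  have := vec_ne hn
  have hr := rr_pos (hd_ge hn)
  rw [volume_nsq_lt (by positivity), ← rr_pow (hd_ge hn), mul_left_comm,
    Real.mul_rpow hc (by positivity), mul_div_assoc, mul_comm]
  rfl

theorem vec_gs (t : ℝ) (y : ι → ℝ) :
    gs t y = Real.exp (-Real.pi * (t / th (hd ι)) * nsq y) := by
  rw [← gs_th hn, mul_div_cancel₀ _ (vec_th hn).ne']

theorem vec_integrable {t : ℝ} (ht : 0 < t) : Integrable (gs t : (ι → ℝ) → ℝ) := by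
  have := integrable_gauss (α := ι) (mul_pos Real.pi_pos (div_pos ht (vec_th hn)))
  simpa only [← neg_mul, ← vec_gs hn] using this

theorem vec_int {t : ℝ} (ht : 0 < t) : ∫ y : ι → ℝ, gs t y = (th (hd ι) / t) ^ hd ι := by
  have h := div_pos ht (vec_th hn)
  simp only [vec_gs hn t]
  rw [integral_gauss h, Real.rpow_neg h.le, ← Real.inv_rpow h.le, inv_div]
  rfl

theorem volume_BB : volume (BB ι) = ENNReal.ofReal (VV (hd ι)) := by
  simpa [BB] using vec_vol hn zero_le_one

theorem volume_AA : volume (AA ι) = ENNReal.ofReal (VV (hd ι) * (1 - (0.8 : ℝ) ^ hd ι)) := by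
  have hv := hd_ge hn
  have hr := rr_pos hv
  have e : AA ι = BB ι \ {y | nsq y < 0.8 * rr (hd ι)} := by
    ext y
    simp only [AA, BB, Set.mem_ofPred_eq, Set.mem_sdiff, not_lt, and_comm]
  have hs : {y : ι → ℝ | nsq y < 0.8 * rr (hd ι)} ⊆ BB ι := fun y (h : nsq y < _) =>
    show nsq y < _ by linarith
  rw [e, measure_sdiff hs
    (measurableSet_lt measurable_nsq measurable_const).nullMeasurableSet
    (by rw [vec_vol hn (by norm_num)]; exact ENNReal.ofReal_ne_top), volume_BB hn,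
    vec_vol hn (by norm_num), ← ENNReal.ofReal_sub _ (by have := vec_V hn; positivity), mul_one_sub]

theorem volume_core : volume {y : ι → ℝ | nsq y < 0.8 * rr (hd ι)} =
    ENNReal.ofReal (VV (hd ι) * (0.8 : ℝ) ^ hd ι) := by
  exact vec_vol hn (by norm_num)

theorem lintegral_Gs {t : ℝ} (ht : 0 < t) (z : ι → ℝ) :
    ∫⁻ y, Gs t (y + z) = ENNReal.ofReal ((th (hd ι) / t) ^ hd ι) := by
  have h0 := vec_th hn
  rw [lintegral_add_right_eq_self (Gs t) z, ← vec_int hn ht,
    ofReal_integral_eq_lintegral_ofReal (vec_integrable hn ht)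
      (ae_of_all _ fun y => (Real.exp_pos _).le)]
  rfl

theorem ftr_gs {t : ℝ} (ht : 0 < t) (w : ι → ℝ) :
    ftr (gs t) w = (th (hd ι) / t) ^ hd ι * gs (th (hd ι) ^ 2 / t) w := by
  have h0 := vec_th hn
  have h1 := ft_eq_ftr (vec_integrable hn ht) (fun x => by rw [gs, gs, nx_neg]) w
  simp only [vec_gs hn t] at h1
  rw [ft_gauss (div_pos ht h0)] at h1
  rw [← Complex.ofReal_injective h1,
    vec_gs hn, show th (hd ι) ^ 2 / t / th (hd ι) = (t / th (hd ι))⁻¹ by field_simp,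
    Real.rpow_neg (div_pos ht h0).le, ← Real.inv_rpow (div_pos ht h0).le, inv_div]
  rfl

theorem lintegral_iB_Gs {s : ℝ} (h0 : 0 ≤ s) (h1 : s < 1) :
    ∫⁻ y : ι → ℝ, iB y * Gs s y ≤ ENNReal.ofReal (VV (hd ι) * FF (hd ι) s) := by
  have := vec_ne hn
  have hv := hd_ge hn
  have hr := rr_pos hv
  have hp := rr_pow hv
  simp only [vec_phi]
  rw [lintegral_radial _ (vec_meas s)]
  change ∫⁻ ρ in Set.Ioi (0 : ℝ), vec_f ι s ρ * ENNReal.ofReal
    (Real.pi ^ hd ι / Real.Gamma (hd ι) * ρ ^ (hd ι - 1)) ≤ _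
  unfold vec_f FF
  generalize rr (hd ι) = r at *
  generalize VV (hd ι) = V at *
  generalize hd ι = v at *
  have v0 : 0 < v := by linarith
  have g0 := Real.Gamma_pos_of_pos v0
  have e0 : -1 < v * (1 - s) - 1 := by nlinarith
  obtain ⟨K, hK⟩ : ∃ K, K = Real.exp (-(s * v)) * r ^ (s * v) * (Real.pi ^ v / Real.Gamma v) :=
    ⟨_, rfl⟩
  have K0 : 0 ≤ K := by rw [hK]; positivity
  have hi : IntegrableOn (fun ρ : ℝ => K * ρ ^ (v * (1 - s) - 1)) (Set.Ioo 0 r) :=
    (((intervalIntegrable_iff_integrableOn_Ioo_of_le hr.le).1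
      (intervalIntegral.intervalIntegrable_rpow' e0))).const_mul K
  calc _ ≤ ∫⁻ ρ in Set.Ioi (0 : ℝ), (Set.Iio r).indicator
        (fun ρ => ENNReal.ofReal (K * ρ ^ (v * (1 - s) - 1))) ρ := by
        refine setLIntegral_mono' measurableSet_Ioi fun ρ (hρ : 0 < ρ) => ?_
        by_cases h : ρ ∈ Set.Iio r
        · rw [Set.indicator_of_mem h, Set.indicator_of_mem h, Pi.one_apply, one_mul,
            ← ENNReal.ofReal_mul (Real.exp_pos _).le]
          refine ENNReal.ofReal_le_ofReal ?_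
          have h2 := Real.log_le_sub_one_of_pos (div_pos hρ hr)
          rw [Real.log_div hρ.ne' hr.ne'] at h2
          rw [hK, Real.rpow_def_of_pos hρ, Real.rpow_def_of_pos hρ, Real.rpow_def_of_pos hr,
            mul_left_comm, mul_comm _ (Real.pi ^ v / _), mul_assoc, ← Real.exp_add, ← Real.exp_add,
            ← Real.exp_add]
          refine mul_le_mul_of_nonneg_left (Real.exp_le_exp.2 ?_) (by positivity)
          have h3 := mul_le_mul_of_nonneg_left h2 (mul_nonneg h0 v0.le)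
          rw [mul_div_assoc]
          nlinarith
        · simp [Set.indicator_of_notMem h]
    _ = ENNReal.ofReal (∫ ρ in Set.Ioo 0 r, K * ρ ^ (v * (1 - s) - 1)) := by
        rw [lintegral_indicator measurableSet_Iio, Measure.restrict_restrict measurableSet_Iio,
          Set.Iio_inter_Ioi, ofReal_integral_eq_lintegral_ofReal hi
            (ae_restrict_of_forall_mem measurableSet_Ioo fun ρ h => by
              have := h.1
              positivity)]
    _ = _ := by
        rw [integral_const_mul, ← integral_Ioc_eq_integral_Ioo,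
          ← intervalIntegral.integral_of_le hr.le, integral_rpow (.inl e0), sub_add_cancel,
          Real.zero_rpow (by nlinarith), sub_zero, hK, ← hp, Real.Gamma_add_one v0.ne',
          Real.mul_rpow Real.pi_pos.le hr.le,
          show r ^ v = r ^ (s * v) * r ^ (v * (1 - s)) by rw [← Real.rpow_add hr]; ring_nf]
        have : 1 - s ≠ 0 := by linarith
        congr 1
        field_simp

/-- averaging a shifted Gaussian over the annulus -/
theorem free_peel {t c : ℝ} (h0 : 0 ≤ t) (h1 : t * c ^ 2 < 1) (z : ι → ℝ) :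
    ∫⁻ u, iA u * Gs t (c • u + z) ≤
      ENNReal.ofReal (VV (hd ι) * FF (hd ι) (t * c ^ 2)) * Gs (t * (1 - t * c ^ 2)) z := by
  have := vec_ne hn
  have hv := hd_ge hn
  have hr := rr_pos hv
  have v0 : 0 < hd ι := by linarith
  obtain ⟨w, hw⟩ : ∃ w, w = (-2 * t * c * (hd ι / rr (hd ι))) • z := ⟨_, rfl⟩
  have e : ∀ u, Gs t (c • u + z) =
      Gs (t * c ^ 2) u * ENNReal.ofReal (Real.exp (w ⬝ᵥ u)) * Gs t z := fun u => by
    rw [Gs, Gs, Gs, ← ENNReal.ofReal_mul (vec_gs_pos _ _).le,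
      ← ENNReal.ofReal_mul (mul_pos (vec_gs_pos _ _) (Real.exp_pos _)).le, gs, gs, gs,
      ← Real.exp_add, ← Real.exp_add, hw]
    simp only [nx, nsq_eq_dot, add_dotProduct, dotProduct_add, smul_dotProduct, dotProduct_smul,
      smul_eq_mul, dotProduct_comm u z]
    congr 2
    ring
  have m : Measurable fun u : ι → ℝ => iB u * Gs (t * c ^ 2) u :=
    measurable_iB.mul (measurable_Gs _)
  calc _ ≤ ∫⁻ u, iB u * Gs (t * c ^ 2) u * ENNReal.ofReal (Real.exp (w ⬝ᵥ u)) * Gs t z := by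
        refine lintegral_mono fun u => ?_
        rw [e, ← mul_assoc, ← mul_assoc]
        gcongr
        exact iA_le_iB u
    _ ≤ (∫⁻ u, iB u * Gs (t * c ^ 2) u * ENNReal.ofReal (Real.exp (t ^ 2 * c ^ 2 * nx z))) *
          Gs t z := by
        rw [lintegral_mul_const' (Gs t z) _ ENNReal.ofReal_ne_top]
        refine mul_le_mul' ?_ le_rfl
        simp only [vec_phi]
        refine (lintegral_radial_exp_le _ (vec_meas _) w).trans (lintegral_mono fun u => ?_)
        by_cases h : nsq u ∈ Set.Iio (rr (hd ι))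
        · refine mul_le_mul_right (ENNReal.ofReal_le_ofReal (Real.exp_le_exp.2 ?_)) _
          have h2 := nsq_nonneg w
          have h3 : (2 * Fintype.card ι : ℝ) = 4 * hd ι := by rw [hd]; ring
          rw [h3]
          refine (div_le_div_of_nonneg_right (mul_le_mul_of_nonneg_left (le_of_lt h) h2)
            (by positivity)).trans_eq ?_
          rw [hw, nsq_smul, nx]
          field_simp
          ring
        · simp [vec_f, Set.indicator_of_notMem h]
    _ ≤ _ := by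
        rw [lintegral_mul_const _ m, mul_assoc, Gs, ← ENNReal.ofReal_mul (Real.exp_pos _).le, gs,
          ← Real.exp_add, Gs, gs, show t ^ 2 * c ^ 2 * nx z + -(t * nx z) =
            -(t * (1 - t * c ^ 2) * nx z) by ring]
        gcongr
        exact lintegral_iB_Gs hn (by positivity) h1

/-- the intersection of two balls lies in a smaller ball -/
theorem lens_subset (u y : ι → ℝ) (h1 : y ∈ BB ι) (h2 : y + u ∈ BB ι) :
    nsq (y + (1 / 2 : ℝ) • u) < rr (hd ι) - nsq u / 4 := by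
  have h := layer_par (y + (1 / 2 : ℝ) • u) ((1 / 2 : ℝ) • u)
  rw [add_sub_cancel_right, add_assoc, ← add_smul, add_halves, one_smul, nsq_smul] at h
  have k1 : nsq y < _ := h1
  have k2 : nsq (y + u) < _ := h2
  linarith

/-- tangent line bound for the volume of that ball -/
theorem lens_vol {x : ℝ} (h0 : 0 ≤ x) (h4 : x < 4) (u : ι → ℝ) :
    volume {y : ι → ℝ | nsq y < rr (hd ι) - nsq u / 4} ≤
      ENNReal.ofReal (VV (hd ι) * eL (hd ι) x) * Gs (1 / (4 - x)) u := by
  have hv := hd_ge hn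
  have hr := rr_pos hv
  have hV := vec_V hn
  by_cases h : nsq u < 4 * rr (hd ι)
  · have h1 : 0 < 1 - nsq u / rr (hd ι) / 4 := by
      rw [sub_pos, div_lt_one (by norm_num), div_lt_iff₀ hr]
      exact h
    have h2 : 0 < 1 - x / 4 := by linarith
    have h3 : 0 < 4 - x := by linarith
    rw [show rr (hd ι) - nsq u / 4 = (1 - nsq u / rr (hd ι) / 4) * rr (hd ι) by field_simp,
      vec_vol hn h1.le, Gs, ← ENNReal.ofReal_mul (by unfold eL; positivity), mul_assoc, eL, gs,
      ← Real.exp_add, Real.rpow_def_of_pos h1, nx, mul_div_assoc]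
    refine ENNReal.ofReal_le_ofReal (mul_le_mul_of_nonneg_left (Real.exp_le_exp.2 ?_) hV.le)
    have h5 := Real.log_le_sub_one_of_pos (div_pos h1 h2)
    rw [Real.log_div h1.ne' h2.ne'] at h5
    generalize nsq u / rr (hd ι) = X at *
    rw [show (1 - X / 4) / (1 - x / 4) - 1 = x / (4 - x) - 1 / (4 - x) * X by
      field_simp; ring] at h5
    nlinarith
  · rw [Set.eq_empty_of_forall_notMem (s := {y : ι → ℝ | nsq y < _}) fun y (k : nsq y < _) => by
      linarith [nsq_nonneg y], measure_empty]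
    exact zero_le

theorem lens_le {x : ℝ} (h0 : 0 ≤ x) (h4 : x < 4) (u : ι → ℝ) :
    ∫⁻ y, iB y * iB (y + u) ≤
      ENNReal.ofReal (VV (hd ι) * eL (hd ι) x) * Gs (1 / (4 - x)) u := by
  refine le_trans ?_ (lens_vol hn h0 h4 u)
  have m : MeasurableSet {y : ι → ℝ | nsq y < rr (hd ι) - nsq u / 4} :=
    measurableSet_lt measurable_nsq measurable_const
  rw [← lintegral_indicator_one m, ← lintegral_add_right_eq_self
    ({y : ι → ℝ | nsq y < rr (hd ι) - nsq u / 4}.indicator 1) ((1 / 2 : ℝ) • u)]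
  refine lintegral_mono fun y => ?_
  by_cases h1 : y ∈ BB ι
  · by_cases h2 : y + u ∈ BB ι
    · rw [iB, iB, Set.indicator_of_mem h1, Set.indicator_of_mem h2,
        Set.indicator_of_mem (s := {y : ι → ℝ | nsq y < _}) (lens_subset hn u y h1 h2)]
      simp
    · simp [iB, h2]
  · simp [iB, h1]

theorem Tst.hf {φ : ℝ → ℝ} (h : Tst ι φ) : Hf (rad φ : (ι → ℝ) → ℝ) := by
  refine ⟨h.prof.meas.comp measurable_nsq, fun y => h.nonneg _, fun y => by rw [rad, rad, nsq_neg],
    fun y => (h.le _ (nsq_nonneg y)).trans_eq ?_⟩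
  rw [vec_gs hn, div_self (vec_th hn).ne', mul_one, neg_mul]

theorem hf_gs : Hf (gs (th (hd ι)) : (ι → ℝ) → ℝ) := by
  exact ⟨measurable_gs _, fun y => (vec_gs_pos _ y).le, fun y => by rw [gs, gs, nx_neg],
    fun _ => le_rfl⟩

theorem Hf.integrable {h : (ι → ℝ) → ℝ} (hh : Hf h) :
    Integrable h ∧ Integrable (fun y => h y ^ 2) ∧ ∫ y, h y ≤ 1 ∧
      ∫ y, h y ^ 2 ≤ (2 : ℝ) ^ (-hd ι) := by
  have h0 := vec_th hn
  have i1 := vec_integrable hn h0
  have i2 := vec_integrable hn (mul_pos two_pos h0)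
  have k1 : Integrable h := i1.mono' hh.meas.aestronglyMeasurable
    (ae_of_all _ fun y => (abs_of_nonneg (hh.nonneg y)).trans_le (hh.le y))
  have k2 : Integrable fun y => h y ^ 2 := i2.mono' (hh.meas.pow_const 2).aestronglyMeasurable
    (ae_of_all _ fun y => (abs_of_nonneg (sq_nonneg _)).trans_le (vec_sq hh y))
  refine ⟨k1, k2, (integral_mono k1 i1 hh.le).trans_eq ?_,
    (integral_mono k2 i2 (vec_sq hh)).trans_eq ?_⟩
  · rw [vec_int hn h0, div_self h0.ne', Real.one_rpow]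
  · rw [vec_int hn (mul_pos two_pos h0), Real.rpow_neg zero_le_two, ← Real.inv_rpow zero_le_two]
    congr 1
    field_simp

/-- a function that vanishes on the ball is bounded by wider Gaussians -/
theorem Hf.le_wide {h : (ι → ℝ) → ℝ} (hh : Hf h) (hz : ∀ y ∈ BB ι, h y = 0) {t : ℝ}
    (ht : t ≤ th (hd ι)) (y : ι → ℝ) :
    h y ≤ Real.exp (-(th (hd ι) * hd ι)) * Real.exp (t * hd ι) * gs t y := by
  by_cases k : y ∈ BB ι
  · rw [hz y k]
    have := vec_gs_pos t y
    positivity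
  · rw [mem_BB hn, not_lt] at k
    refine (hh.le y).trans ?_
    rw [gs, gs, ← Real.exp_add, ← Real.exp_add, Real.exp_le_exp]
    nlinarith

theorem Hf.sq_le_wide {h : (ι → ℝ) → ℝ} (hh : Hf h) (hz : ∀ y ∈ BB ι, h y = 0) {t : ℝ}
    (ht : t ≤ 2 * th (hd ι)) (y : ι → ℝ) :
    h y ^ 2 ≤ vp (hd ι) / (sg (hd ι) * VV (hd ι)) * Real.exp (t * hd ι) * gs t y := by
  rw [← hmax_sq (hd_ge hn)]
  by_cases k : y ∈ BB ι
  · rw [hz y k, zero_pow two_ne_zero]
    have := vec_gs_pos t y
    positivity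
  · rw [mem_BB hn, not_lt] at k
    refine (vec_sq hh y).trans ?_
    rw [gs, gs, ← Real.exp_add, ← Real.exp_add, Real.exp_le_exp]
    nlinarith

theorem good_volume : Good (volume : Measure (ι → ℝ)) 0 := by
  have hv := hd_ge hn
  have h0 := vec_th hn
  refine ⟨le_rfl, fun t ht z => ?_, fun s s0 s1 => ?_, fun u _ => ?_, by simp⟩
  · rw [lintegral_Gs hn ht, add_zero, one_mul]
    exact ENNReal.ofReal_le_ofReal (le_mul_of_one_le_right (by positivity)
      (Real.one_le_rpow (le_max_left _ _) (by linarith)))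
  · rw [add_zero, one_mul]
    exact (lintegral_mono fun y => mul_le_mul_left (iA_le_iB y) _).trans (lintegral_iB_Gs hn s0 s1)
  · have := lens_le hn zero_le_one (by norm_num) u
    rwa [add_zero, one_pow, one_mul, show (1 : ℝ) / 3 = 1 / (4 - 1) by norm_num]

theorem Good.mono {Λ : Measure (ι → ℝ)} {ξ ξ' : ℝ} (h : Good Λ ξ) (h' : ξ ≤ ξ') : Good Λ ξ' := by
  have hV := vec_V hn
  have h0 := vec_th hn
  have x0 := h.nonneg
  refine ⟨x0.trans h', fun t ht z => (h.gauss t ht z).trans ?_,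
    fun s s0 s1 => (h.rad s s0 s1).trans ?_, fun u hu => (h.lens u hu).trans ?_,
    le_trans ?_ h.lo⟩
  · gcongr
  · have : 0 ≤ FF (hd ι) s := div_nonneg (Real.exp_pos _).le (by linarith)
    gcongr
  · have : 0 ≤ eL (hd ι) 1 := (Real.exp_pos _).le
    gcongr
  · gcongr

end Pool.Agent.Eps.P
end
end

-- part Pool.Agent.Lib.MP_3bda03_nt.P.Mom1
section

/-!
Factorial moments and sums of lists of terms.
-/

set_option autoImplicit false

noncomputable section

open MeasureTheory Matrix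
open scoped ENNReal

namespace Pool.Agent.Eps.P

open Pool.Agent.Eps.H

variable {v : ℝ}

theorem ff_nonneg (j a : ℕ) : 0 ≤ ff j a := by
  unfold ff
  positivity

theorem ff_zero (a : ℕ) : ff 0 a = 1 := by
  simp [ff]

theorem mom1_ff_succ (j a : ℕ) : ff (j + 1) a = ff j a * ((a : ℝ) - j) := by
  unfold ff
  rw [Nat.descFactorial_succ]
  rcases le_or_gt j a with h | h
  · rw [Nat.cast_mul, Nat.cast_sub h]; ring
  · rw [Nat.descFactorial_of_lt h]; simp

theorem ff_one (a : ℕ) : ff 1 a = a := by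
  simp [ff]

theorem ff_two (a : ℕ) : ff 2 a = a * (a - 1) := by
  rw [mom1_ff_succ 1, ff_one]; simp

theorem mom1_ff3 (a : ℕ) : ff 3 a = a * (a - 1) * (a - 2) := by
  rw [mom1_ff_succ 2, ff_two]; simp

theorem mom1_ff4 (a : ℕ) : ff 4 a = a * (a - 1) * (a - 2) * (a - 3) := by
  rw [mom1_ff_succ 3, mom1_ff3]; simp

theorem mom1_ff5 (a : ℕ) : ff 5 a = a * (a - 1) * (a - 2) * (a - 3) * (a - 4) := by
  rw [mom1_ff_succ 4, mom1_ff4]; simp

theorem mom1_ff6 (a : ℕ) : ff 6 a = a * (a - 1) * (a - 2) * (a - 3) * (a - 4) * (a - 5) := by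
  rw [mom1_ff_succ 5, mom1_ff5]; simp

theorem mom1_ff7 (a : ℕ) :
    ff 7 a = a * (a - 1) * (a - 2) * (a - 3) * (a - 4) * (a - 5) * (a - 6) := by
  rw [mom1_ff_succ 6, mom1_ff6]; simp

theorem mom1_ff8 (a : ℕ) :
    ff 8 a = a * (a - 1) * (a - 2) * (a - 3) * (a - 4) * (a - 5) * (a - 6) * (a - 7) := by
  rw [mom1_ff_succ 7, mom1_ff7]; simp

theorem ff_22 (a : ℕ) : ff 2 a ^ 2 = ff 4 a + 4 * ff 3 a + 2 * ff 2 a := by
  rw [mom1_ff4, mom1_ff3, ff_two]; ring

theorem ff_33 (a : ℕ) : ff 3 a ^ 2 = ff 6 a + 9 * ff 5 a + 18 * ff 4 a + 6 * ff 3 a := by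
  rw [mom1_ff6, mom1_ff5, mom1_ff4, mom1_ff3]; ring

theorem ff_44 (a : ℕ) :
    ff 4 a ^ 2 = ff 8 a + 16 * ff 7 a + 72 * ff 6 a + 96 * ff 5 a + 24 * ff 4 a := by
  rw [mom1_ff8, mom1_ff7, mom1_ff6, mom1_ff5, mom1_ff4]; ring

theorem ff_222 (a : ℕ) :
    ff 2 a ^ 3 = ff 6 a + 12 * ff 5 a + 38 * ff 4 a + 32 * ff 3 a + 4 * ff 2 a := by
  rw [mom1_ff6, mom1_ff5, mom1_ff4, mom1_ff3, ff_two]; ring

theorem hasSum_ff (j : ℕ) (x : ℝ) :
    HasSum (fun a : ℕ => x ^ a / a.factorial * ff j a) (x ^ j * Real.exp x) := by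
  have h0 : ∑ i ∈ Finset.range j, x ^ i / i.factorial * ff j i = 0 := by
    refine Finset.sum_eq_zero fun i hi => ?_
    unfold ff
    rw [Nat.descFactorial_of_lt (Finset.mem_range.1 hi)]
    simp
  rw [← hasSum_nat_add_iff' j, h0, sub_zero]
  have he : HasSum (fun n : ℕ => x ^ n / n.factorial) (Real.exp x) := by
    have := NormedSpace.expSeries_div_hasSum_exp (𝔸 := ℝ) x
    rwa [← Real.exp_eq_exp_ℝ] at this
  have hm := he.mul_left (x ^ j)
  suffices hf : (fun n : ℕ => x ^ (n + j) / (n + j).factorial * ff j (n + j)) =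
      fun n : ℕ => x ^ j * (x ^ n / n.factorial) by
    rw [hf]; exact hm
  funext n
  unfold ff
  have h1 : ((n + j - j).factorial * (n + j).descFactorial j : ℕ) = (n + j).factorial :=
    Nat.factorial_mul_descFactorial (Nat.le_add_left j n)
  rw [Nat.add_sub_cancel] at h1
  have h2 : ((n + j).factorial : ℝ) = n.factorial * ((n + j).descFactorial j : ℝ) := by
    exact_mod_cast h1.symm
  have h3 : ((n + j).descFactorial j : ℝ) ≠ 0 := by
    have : (n + j).descFactorial j ≠ 0 := by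
      rw [Ne, Nat.descFactorial_eq_zero_iff_lt]; omega
    exact_mod_cast this
  have h4 : (n.factorial : ℝ) ≠ 0 := by positivity
  rw [h2, pow_add]
  field_simp

theorem hasSum_ff_sq (j : ℕ) (x c : ℝ) :
    HasSum (fun a : ℕ => x ^ a / a.factorial * ff j a * (c + 2 * a) ^ 2)
      (x ^ j * Real.exp x * ((c + 2 * j + 2 * x) ^ 2 + 4 * x)) := by
  have h0 := (hasSum_ff j x).mul_left ((c + 2 * j) ^ 2)
  have h1 := (hasSum_ff (j + 1) x).mul_left (4 * (c + 2 * j) + 4)
  have h2 := (hasSum_ff (j + 1 + 1) x).mul_left 4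
  have h := (h0.add h1).add h2
  have e1 : (fun a : ℕ => x ^ a / a.factorial * ff j a * (c + 2 * a) ^ 2) = fun b : ℕ =>
      (c + 2 * j) ^ 2 * (x ^ b / b.factorial * ff j b) +
          (4 * (c + 2 * j) + 4) * (x ^ b / b.factorial * ff (j + 1) b) +
        4 * (x ^ b / b.factorial * ff (j + 1 + 1) b) := by
    funext a
    rw [mom1_ff_succ (j + 1), mom1_ff_succ j]
    push_cast
    ring
  have e2 : x ^ j * Real.exp x * ((c + 2 * j + 2 * x) ^ 2 + 4 * x) =
      (c + 2 * j) ^ 2 * (x ^ j * Real.exp x) + (4 * (c + 2 * j) + 4) * (x ^ (j + 1) * Real.exp x) +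
        4 * (x ^ (j + 1 + 1) * Real.exp x) := by ring
  rw [e1, e2]
  exact h

theorem mom1_TK_succ (K : ℕ) (x : ℝ) :
    TK (K + 1) x = TK K x + (-x) ^ (K + 1) / ((K + 1).factorial : ℝ) := by
  unfold TK
  rw [Finset.sum_range_succ]

theorem mom1_TK_zero (K : ℕ) : TK K 0 = 1 := by
  induction K with
  | zero => simp [TK]
  | succ K ih => rw [mom1_TK_succ, ih]; simp

theorem mom1_term_deriv (K : ℕ) (x : ℝ) :
    HasDerivAt (fun y : ℝ => (-y) ^ (K + 1) / ((K + 1).factorial : ℝ))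
      (-((-x) ^ K / (K.factorial : ℝ))) x := by
  have h := ((hasDerivAt_neg' x).fun_pow (K + 1)).div_const ((K + 1).factorial : ℝ)
  refine h.congr_deriv ?_
  rw [Nat.factorial_succ]
  have h4 : (K.factorial : ℝ) ≠ 0 := by positivity
  have h5 : ((K : ℝ) + 1) ≠ 0 := by positivity
  push_cast
  field_simp

theorem mom1_TK_deriv (K : ℕ) (x : ℝ) : HasDerivAt (TK (K + 1)) (-TK K x) x := by
  induction K with
  | zero =>
    have h := (mom1_term_deriv 0 x).const_add 1
    have e : TK (0 + 1) = fun y : ℝ => 1 + (-y) ^ (0 + 1) / ((0 + 1).factorial : ℝ) := by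
      funext y
      rw [mom1_TK_succ]; simp [TK]
    rw [e]
    refine h.congr_deriv ?_
    simp [TK]
  | succ K ih =>
    have h := ih.fun_add (mom1_term_deriv (K + 1) x)
    have e : TK (K + 1 + 1) =
        fun y : ℝ => TK (K + 1) y + (-y) ^ (K + 1 + 1) / ((K + 1 + 1).factorial : ℝ) := by
      funext y
      rw [mom1_TK_succ (K + 1)]
    rw [e]
    refine h.congr_deriv ?_
    rw [mom1_TK_succ]; ring

theorem mom1_sign (K : ℕ) : ∀ x : ℝ, 0 ≤ x → 0 ≤ (-1) ^ K * (TK K x - Real.exp (-x)) := by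
  induction K with
  | zero =>
    intro x hx
    have : Real.exp (-x) ≤ 1 := Real.exp_le_one_iff.2 (by linarith)
    simp only [TK]
    simp
    linarith
  | succ K ih =>
    intro x hx
    have hd : ∀ y : ℝ, HasDerivAt (fun y : ℝ => (-1 : ℝ) ^ (K + 1) * (TK (K + 1) y - Real.exp (-y)))
        ((-1) ^ K * (TK K y - Real.exp (-y))) y := by
      intro y
      have h1 : HasDerivAt (fun y : ℝ => Real.exp (-y)) (Real.exp (-y) * (-1)) y :=
        (hasDerivAt_neg' y).exp
      have h := ((mom1_TK_deriv K y).fun_sub h1).const_mul ((-1 : ℝ) ^ (K + 1))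
      refine h.congr_deriv ?_
      ring
    have hm : MonotoneOn (fun y : ℝ => (-1 : ℝ) ^ (K + 1) * (TK (K + 1) y - Real.exp (-y)))
        (Set.Ici 0) := by
      refine monotoneOn_of_deriv_nonneg (convex_Ici 0) ?_ ?_ ?_
      · exact fun y _ => (hd y).continuousAt.continuousWithinAt
      · exact fun y _ => (hd y).differentiableAt.differentiableWithinAt
      · intro y hy
        rw [(hd y).deriv]
        exact ih y (le_of_lt (by simpa using hy))
    have := hm (Set.mem_Ici.2 le_rfl) (Set.mem_Ici.2 hx) hx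
    simpa [mom1_TK_zero] using this

theorem abs_TK_sub_le (K : ℕ) {x : ℝ} (hx : 0 ≤ x) :
    |TK K x - Real.exp (-x)| ≤ x ^ (K + 1) / (K + 1).factorial := by
  have h1 := mom1_sign K x hx
  have h2 := mom1_sign (K + 1) x hx
  have hs : ((-1 : ℝ) ^ K) * (-1) ^ K = 1 := by
    rw [← mul_pow]; simp
  have h3 : (-1 : ℝ) ^ K * (TK K x - Real.exp (-x)) +
      (-1) ^ (K + 1) * (TK (K + 1) x - Real.exp (-x)) = x ^ (K + 1) / (K + 1).factorial := by
    rw [mom1_TK_succ, neg_pow x]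
    have : (-1 : ℝ) ^ (K + 1) = -(-1) ^ K := by ring
    rw [this]
    linear_combination (x ^ (K + 1) / (K + 1).factorial) * hs
  have h4 : |TK K x - Real.exp (-x)| = (-1) ^ K * (TK K x - Real.exp (-x)) := by
    rw [← abs_of_nonneg h1, abs_mul]
    simp
  rw [h4]
  linarith

theorem pow_div_factorial_le {x c : ℝ} (hx : 0 ≤ x) (hc : 0 < c) (j : ℕ) :
    x ^ j / j.factorial ≤ Real.exp (c * x) / c ^ j := by
  have h := Real.pow_div_factorial_le_exp (c * x) (by positivity) j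
  rw [le_div_iff₀ (by positivity)]
  refine le_trans (le_of_eq ?_) h
  rw [mul_pow]
  ring

theorem cw_pos (a : ℕ) : 0 < cw a := by
  unfold cw
  positivity

theorem cw_mul (a : ℕ) (x : ℝ) : cw a * (2 * x) ^ a = x ^ a / a.factorial := by
  unfold cw
  have h4 : (a.factorial : ℝ) ≠ 0 := by positivity
  rw [mul_pow]
  field_simp

/-- the alternating sums of the three exact terms -/
theorem alt_sum (K : ℕ) (hK : 2 ≤ K) (x A B C : ℝ) :
    ∑ a ∈ Finset.range (K + 1), (-1) ^ a * cw a *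
      ((2 * x) ^ a * A + 4 * a * (2 * x) ^ (a - 1) * B + 2 * a * (a - 1) * (2 * x) ^ (a - 2) * C) =
      TK K x * A - 2 * TK (K - 1) x * B + TK (K - 2) x * C / 2 := by
  obtain ⟨k, rfl⟩ : ∃ k, K = k + 2 := ⟨K - 2, by omega⟩
  have e1 : ∀ k : ℕ, k + 2 - 1 = k + 1 := fun k => by omega
  have e2 : ∀ k : ℕ, k + 2 - 2 = k := fun k => by omega
  rw [e1, e2]
  clear hK
  induction k with
  | zero =>
    simp [Finset.sum_range_succ, TK, cw, Nat.factorial]
    ring
  | succ k ih =>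
    rw [Finset.sum_range_succ, ih]
    have f1 : k + 1 + 2 - 1 = k + 2 := by omega
    have f2 : k + 1 + 2 - 2 = k + 1 := by omega
    have g0 := mom1_TK_succ (k + 2) x
    have g1 := mom1_TK_succ (k + 1) x
    have g2 := mom1_TK_succ k x
    rw [show k + 2 + 1 = k + 1 + 2 from rfl] at g0 ⊢
    rw [f1, f2, g0, show k + 1 + 1 = k + 2 from rfl, show k + 2 = k + 1 + 1 from rfl, g1, g2]
    unfold cw
    have h4 : ((k + 1).factorial : ℝ) ≠ 0 := by positivity
    have t1 : ((k + 1 + 1).factorial : ℝ) = (k + 2) * (k + 1).factorial := by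
      rw [Nat.factorial_succ (k + 1)]; push_cast; ring
    have t2 : ((k + 1 + 2).factorial : ℝ) = (k + 3) * ((k + 2) * (k + 1).factorial) := by
      rw [show k + 1 + 2 = k + 1 + 1 + 1 from rfl, Nat.factorial_succ (k + 1 + 1), Nat.cast_mul, t1]
      push_cast; ring
    rw [t1, t2, neg_pow x, neg_pow x, neg_pow x]
    have h5 : ((k : ℝ) + 2) ≠ 0 := by positivity
    have h6 : ((k : ℝ) + 3) ≠ 0 := by positivity
    push_cast
    simp only [mul_pow]
    field_simp
    ring

end Pool.Agent.Eps.P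
end
end
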