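import Pool.Agent.Lib.MP_3bda03_nt.P.RLp
import Pool.Agent.Lib.MP_3bda03_nt.P.Mom1
import Pool.Agent.Lib.MP_3bda03_nt.P.Count
import Pool.Agent.Lib.MP_3bda03_nt.H.Boch

-- part Pool.Agent.Lib.MP_3bda03_nt.P.Second1
section

/-!
The second moment of a lattice sum given a primitive frame.
-/

set_option autoImplicit false

noncomputable section

open MeasureTheory Matrix
open scoped ENNReal

namespace Pool.Agent.Eps.P

open Pool.Agent.Eps.H

variable {ι : Type} [Fintype ι] [DecidableEq ι] {Ω : Type} [MeasurableSpace Ω]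
  {P : Measure Ω} {g : Ω → Matrix ι ι ℝ} {Λ : Measure (ι → ℝ)} {d : ℕ}
  {τ : Type} [Fintype τ] [DecidableEq τ] {h : (ι → ℝ) → ℝ}

omit [DecidableEq ι] [DecidableEq τ] in
theorem measurable_Hs (hm : Measurable h) (S : Set (τ → ℤ)) :
    Measurable (Hs S h : Matrix τ ι ℝ → ℝ≥0∞) :=
  measurable_fs' S hm.ennreal_ofReal

omit [DecidableEq ι] in
theorem measurable_cor [SigmaFinite Λ] (hm : Measurable h) : Measurable (cor Λ h) :=
  Measurable.lintegral_prod_right'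
    (f := fun p : (ι → ℝ) × (ι → ℝ) => ENNReal.ofReal (h p.2) * ENNReal.ofReal (h (p.2 + p.1)))
    ((hm.comp measurable_snd).ennreal_ofReal.mul
      (hm.comp (measurable_snd.add measurable_fst)).ennreal_ofReal)

omit [DecidableEq ι] [DecidableEq τ] in
theorem measurable_Esh [SigmaFinite Λ] (hm : Measurable h) (S : Set (τ → ℤ)) :
    Measurable (Esh S Λ h : Matrix τ ι ℝ → ℝ≥0∞) :=
  (measurable_fs' S (measurable_cor hm)).const_mul 2

omit [Fintype ι] [DecidableEq ι] [DecidableEq τ] in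
theorem second1_mc (hm : Measurable h) (a : ℝ) (κ : τ → ℤ) :
    Measurable fun p : Matrix τ ι ℝ × (ι → ℝ) => ENNReal.ofReal (h (a • p.2 + lv κ p.1)) :=
  (hm.comp ((measurable_snd.const_smul a).add
    ((measurable_lv κ).comp measurable_fst))).ennreal_ofReal

omit [DecidableEq ι] in
theorem second1_Dterm [SigmaFinite Λ] (hm : Measurable h) (p : ℕ) (p' : ℤ) :
    Measurable fun U : Matrix τ ι ℝ => Dterm Λ h U p p' :=
  Measurable.tsum fun _ => Measurable.tsum fun _ =>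
    ((second1_mc hm _ _).mul (second1_mc hm _ _)).lintegral_prod_right'

omit [DecidableEq ι] in
theorem measurable_Efr [SigmaFinite Λ] (hm : Measurable h) :
    Measurable (Efr Λ h : Matrix τ ι ℝ → ℝ≥0∞) :=
  Measurable.tsum fun _ => second1_Dterm hm _ _

omit [DecidableEq ι] in
theorem measurable_Dfun [SigmaFinite Λ] (hm : Measurable h) :
    Measurable (Dfun Λ h : Matrix τ ι ℝ → ℝ≥0∞) :=
  Measurable.tsum fun _ => Measurable.tsum fun _ => second1_Dterm hm _ _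

theorem second1_split (D : ℕ → ℤ → ℝ≥0∞) :
    ∑' p : ℕ, ∑' p' : {p' : ℤ // p' ≠ 0}, D p p'.1 = D 0 1 + D 0 (-1) +
      ∑' x : {x : ℕ × ℤ // x.2 ≠ 0 ∧ ¬ (x.1 = 0 ∧ x.2.natAbs = 1)}, D x.1.1 x.1.2 := by
  have e1 := (tsum_congr fun p => tsum_subtype {p' : ℤ | p' ≠ 0} (D p)).trans
    (ENNReal.tsum_prod (f := fun p q => {p' : ℤ | p' ≠ 0}.indicator (D p) q)).symm
  have e2 := tsum_subtype {x : ℕ × ℤ | x.2 ≠ 0 ∧ ¬ (x.1 = 0 ∧ x.2.natAbs = 1)} fun x => D x.1 x.2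
  refine e1.trans (Eq.trans ?_ (congrArg _ e2.symm))
  rw [← tsum_ite_eq ((0, 1) : ℕ × ℤ) fun _ => D 0 1, ← tsum_ite_eq ((0, -1) : ℕ × ℤ) fun _ => D 0 (-1),
    ← ENNReal.tsum_add, ← ENNReal.tsum_add]
  refine tsum_congr fun x => ?_
  obtain ⟨p, q⟩ := x
  by_cases h1 : p = 0 ∧ q = 1
  · obtain ⟨rfl, rfl⟩ := h1
    simp
  by_cases h2 : p = 0 ∧ q = -1
  · obtain ⟨rfl, rfl⟩ := h2
    simp
  have h3 : ¬ (p = 0 ∧ q.natAbs = 1) := by omega
  simp only [Prod.mk.injEq, h1, h2, if_false, zero_add, Set.indicator_apply, Set.mem_ofPred_eq, h3,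
    not_false_eq_true, and_true]

theorem second1_zero {α : Type} [Zero α] (f : α → ℝ≥0∞) :
    ∑' x, f x = f 0 + cs {x | x ≠ 0} f := by
  classical
  rw [ENNReal.tsum_eq_add_tsum_ite 0, cs, tsum_subtype]
  refine congrArg _ (tsum_congr fun x => ?_)
  by_cases h : x = 0 <;> simp [h]

omit [DecidableEq ι] in
theorem Dfun_eq (he : ∀ y, h (-y) = h y) (U : Matrix τ ι ℝ) :
    Dfun Λ h U = NN Λ h + Esh {κ | κ ≠ 0} Λ h U + Efr Λ h U := by
  have z : ∀ κ : τ → Fin (0 + 1), lv (zr κ) U = 0 := fun κ => by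
    rw [show zr κ = 0 from funext fun i => by simp [zr], lv_zero]
  have e1 : Dterm Λ h U 0 1 = ∑' κ : τ → ℤ, cor Λ h (lv κ U) := by
    simp only [Dterm, z, cor, zero_add, Nat.cast_one, Int.cast_one, one_smul, add_zero]
    simp
  have e2 : Dterm Λ h U 0 (-1) = ∑' κ : τ → ℤ, cor Λ h (lv κ U) := by
    rw [← (Equiv.neg (τ → ℤ)).tsum_eq]
    have k : ∀ (w : ι → ℝ) (κ : τ → ℤ), h (-w + lv κ U) = h (w + -lv κ U) := fun w κ => by
      rw [← he, neg_add, neg_neg]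
    simp only [Dterm, z, cor, zero_add, Nat.cast_one, Int.cast_neg, Int.cast_one,
      one_smul, neg_smul, add_zero, k, Equiv.neg_apply, lv_neg]
    simp
  rw [Dfun, second1_split, e1, e2, second1_zero, lv_zero, NN, Esh, Efr, fs', ← two_mul, mul_add]
  simp only [cor, add_zero]

/-- `B` is at most `I` and at least `(1 - e) I` -/
def second1_Sw (e : ℝ) (B I : ℝ≥0∞) : Prop := B ≤ I ∧ I ≤ B + ENNReal.ofReal e * I

theorem second1_real {e e' : ℝ} {B I : ℝ≥0∞} (h : second1_Sw e B I) (h0 : 0 ≤ e) (he : e ≤ e')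
    (hI : I ≠ ∞) : B ≠ ∞ ∧ B.toReal ≤ I.toReal ∧ I.toReal ≤ B.toReal + e' * I.toReal := by
  have hB := ne_top_of_le_ne_top hI h.1
  have h1 := ENNReal.mul_ne_top (ENNReal.ofReal_ne_top (r := e)) hI
  have h2 := ENNReal.toReal_mono (ENNReal.add_ne_top.2 ⟨hB, h1⟩) h.2
  rw [ENNReal.toReal_add hB h1, ENNReal.toReal_mul, ENNReal.toReal_ofReal h0] at h2
  exact ⟨hB, ENNReal.toReal_mono hI h.1,
    h2.trans (add_le_add le_rfl (mul_le_mul_of_nonneg_right he ENNReal.toReal_nonneg))⟩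

theorem second1_imp {a a' : ℕ} (h : a ≤ a') (d : ℕ) : 0 ≤ imp a d ∧ imp a d ≤ imp a' d := by
  unfold imp
  exact ⟨by positivity, by gcongr; exact one_le_two⟩

theorem second1_sq {X : ℝ≥0∞} (hX : X ≠ ∞) (c : ℝ) :
    ENNReal.ofReal ((X.toReal - c) ^ 2) + ENNReal.ofReal (2 * max c 0) * X =
      X ^ 2 + ENNReal.ofReal (c ^ 2) + ENNReal.ofReal (2 * max (-c) 0) * X := by
  obtain ⟨x, hx, rfl⟩ : ∃ x, 0 ≤ x ∧ X = ENNReal.ofReal x :=
    ⟨_, ENNReal.toReal_nonneg, (ENNReal.ofReal_toReal hX).symm⟩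
  have h1 : 0 ≤ 2 * max c 0 := by positivity
  have h2 : 0 ≤ 2 * max (-c) 0 := by positivity
  rw [ENNReal.toReal_ofReal hx, ← ENNReal.ofReal_pow hx, ← ENNReal.ofReal_mul h1,
    ← ENNReal.ofReal_mul h2, ← ENNReal.ofReal_add (by positivity) (by positivity),
    ← ENNReal.ofReal_add (by positivity) (by positivity),
    ← ENNReal.ofReal_add (by positivity) (by positivity)]
  refine congrArg _ ?_
  linear_combination (2 * x) * max_zero_sub_max_neg_zero_eq_self c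

/-- the sum over all nonzero vectors -/
def second1_X (h : (ι → ℝ) → ℝ) (G : Matrix ι ι ℝ) : ℝ≥0∞ :=
  ∑' k : {k : ι → ℤ // k ≠ 0}, ENNReal.ofReal (h (lv k.1 G))

/-- the integrand of the dependent pairs -/
def second1_D (h : (ι → ℝ) → ℝ) (U : Matrix τ ι ℝ) (y : ι → ℝ) : ℝ≥0∞ :=
  ∑' p : ℕ, ∑' p' : {p' : ℤ // p' ≠ 0}, ∑' κ : τ → Fin (p + 1), ∑' κ' : τ → ℤ,
    ENNReal.ofReal (h (((p + 1 : ℕ) : ℝ) • y + lv (zr κ) U)) *
      ENNReal.ofReal (h ((p'.1 : ℝ) • y + lv κ' U))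

omit [Fintype ι] [DecidableEq ι] in
theorem second1_mD (hm : Measurable h) :
    Measurable fun p : Matrix τ ι ℝ × (ι → ℝ) => second1_D h p.1 p.2 :=
  Measurable.tsum fun _ => Measurable.tsum fun _ => Measurable.tsum fun _ =>
    Measurable.tsum fun _ => (second1_mc hm _ _).mul (second1_mc hm _ _)

omit [DecidableEq ι] in
theorem second1_iD (hm : Measurable h) (U : Matrix τ ι ℝ) :
    ∫⁻ y, second1_D h U y ∂Λ = Dfun Λ h U := by
  have k := fun (a a' : ℝ) (κ κ' : τ → ℤ) =>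
    ((second1_mc hm a κ).mul (second1_mc hm a' κ')).comp (measurable_prodMk_left (x := U))
  refine (lintegral_tsum fun _ => (Measurable.tsum fun _ => Measurable.tsum fun _ =>
    Measurable.tsum fun _ => k _ _ _ _).aemeasurable).trans (tsum_congr fun p => ?_)
  refine (lintegral_tsum fun _ => (Measurable.tsum fun _ =>
    Measurable.tsum fun _ => k _ _ _ _).aemeasurable).trans (tsum_congr fun p' => ?_)
  refine (lintegral_tsum fun _ => (Measurable.tsum fun _ => k _ _ _ _).aemeasurable).trans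
    (tsum_congr fun κ => ?_)
  exact lintegral_tsum fun _ => (k _ _ _ _).aemeasurable

theorem second1_pt {Y : Matrix τ ι ℤ} (hY : Prim Y) (G : Matrix ι ι ℝ) (a : ℝ≥0∞) :
    (a * second1_X h G = a * Hs {κ | κ ≠ 0} h (cz Y * G) +
      ∑' k : {k : ι → ℤ // Ind (snc Y k)}, a * ENNReal.ofReal (h (lv k.1 G))) ∧
    a * second1_X h G ^ 2 = a * Hs {κ | κ ≠ 0} h (cz Y * G) ^ 2 +
      2 * ∑' k : {k : ι → ℤ // Ind (snc Y k)},
        a * Hs {κ | κ ≠ 0} h (cz Y * G) * ENNReal.ofReal (h (lv k.1 G)) +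
      ∑' p : {p : (ι → ℤ) × (ι → ℤ) // Ind (snc2 Y p.1 p.2)},
        a * ENNReal.ofReal (h (lv p.1.1 G)) * ENNReal.ofReal (h (lv p.1.2 G)) +
      ∑' w : {w : ι → ℤ // Prim (snc Y w)}, a * second1_D h (cz Y * G) (lv w.1 G) := by
  have e1 : second1_X h G = Hs {κ | κ ≠ 0} h (cz Y * G) +
      ∑' k : {k : ι → ℤ // Ind (snc Y k)}, ENNReal.ofReal (h (lv k.1 G)) := by
    rw [second1_X, expand_one hY fun k => ENNReal.ofReal (h (lv k G))]
    simp only [lv_vecMul]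
    rfl
  have e2 := expand_two hY fun k k' => ENNReal.ofReal (h (lv k G)) * ENNReal.ofReal (h (lv k' G))
  simp only [lv_add, lv_smul, lv_vecMul, Int.cast_natCast] at e2
  simp only [ENNReal.tsum_mul_left, ENNReal.tsum_mul_right, mul_assoc] at e2 ⊢
  rw [e1]
  refine ⟨mul_add _ _ _, ?_⟩
  rw [add_sq, pow_two (∑' _ : {k : ι → ℤ // Ind (snc Y k)}, _), e2]
  simp only [second1_D, ENNReal.tsum_mul_left, ENNReal.tsum_mul_right]
  ring

theorem second1_core {μ : Measure Ω} {sH s1 sHH sH1 s2 sD A1 A2 : Ω → ℝ≥0∞} (m1 : Measurable s1)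
    (mHH : Measurable sHH) (mH1 : Measurable sH1) (mD : Measurable sD)
    (e1 : ∀ ω, A1 ω = sH ω + s1 ω) (e2 : ∀ ω, A2 ω = sHH ω + 2 * sH1 ω + s2 ω + sD ω) :
    ∫⁻ ω, A1 ω ∂μ = ∫⁻ ω, sH ω ∂μ + ∫⁻ ω, s1 ω ∂μ ∧ ∫⁻ ω, A2 ω ∂μ =
      ∫⁻ ω, sHH ω ∂μ + 2 * ∫⁻ ω, sH1 ω ∂μ + ∫⁻ ω, s2 ω ∂μ + ∫⁻ ω, sD ω ∂μ := by
  have m : Measurable fun ω => sHH ω + 2 * sH1 ω := mHH.add (mH1.const_mul 2)
  rw [lintegral_congr e1, lintegral_congr e2, lintegral_add_right _ m1, lintegral_add_right _ mD,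
    lintegral_add_left m, lintegral_add_left mHH, lintegral_const_mul _ mH1]
  exact ⟨rfl, rfl⟩

theorem second1_fin {T BH B1 BHH BH1 B2 BD B0 : ℝ≥0∞} {c : ℝ} (t0 : B0 ≠ ∞) (tH : BH ≠ ∞)
    (t1 : B1 ≠ ∞) (tHH : BHH ≠ ∞) (tH1 : BH1 ≠ ∞) (t2 : B2 ≠ ∞) (tD : BD ≠ ∞)
    (k : T + ENNReal.ofReal (2 * max c 0) * (BH + B1) = BHH + 2 * BH1 + B2 + BD +
      ENNReal.ofReal (c ^ 2) * B0 + ENNReal.ofReal (2 * max (-c) 0) * (BH + B1)) :
    T ≠ ∞ ∧ T.toReal + 2 * max c 0 * (BH.toReal + B1.toReal) =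
      BHH.toReal + 2 * BH1.toReal + B2.toReal + BD.toReal + c ^ 2 * B0.toReal +
        2 * max (-c) 0 * (BH.toReal + B1.toReal) := by
  have tT : T ≠ ∞ := ne_top_of_le_ne_top (by finiteness) (le_self_add.trans k.le)
  have e := congrArg ENNReal.toReal k
  repeat rw [ENNReal.toReal_add (by finiteness) (by finiteness)] at e
  simp only [ENNReal.toReal_mul, ENNReal.toReal_add tH t1, ENNReal.toReal_ofNat] at e
  rw [ENNReal.toReal_ofReal (by positivity), ENNReal.toReal_ofReal (by positivity),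
    ENNReal.toReal_ofReal (by positivity)] at e
  exact ⟨tT, e⟩

theorem second1_num {e m c b0 bH b1 bHH bH1 b2 bD i0 iH iH2 iD t : ℝ}
    (h0 : b0 ≤ i0 ∧ i0 ≤ b0 + e * i0) (hH : bH ≤ iH ∧ iH ≤ bH + e * iH)
    (h1 : b1 ≤ i0 * m ∧ i0 * m ≤ b1 + e * (i0 * m)) (hHH : bHH ≤ iH2 ∧ iH2 ≤ bHH + e * iH2)
    (hH1 : bH1 ≤ iH * m ∧ iH * m ≤ bH1 + e * (iH * m))
    (h2 : b2 ≤ i0 * m * m ∧ i0 * m * m ≤ b2 + e * (i0 * m * m)) (hD : bD ≤ iD ∧ iD ≤ bD + e * iD)
    (ht : t + 2 * max c 0 * (bH + b1) =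
      bHH + 2 * bH1 + b2 + bD + c ^ 2 * b0 + 2 * max (-c) 0 * (bH + b1)) :
    |t - (iH2 + 2 * (m - c) * iH + (m - c) ^ 2 * i0 + iD)| ≤
      e * (iH2 + 2 * (m + |c|) * iH + (m + |c|) ^ 2 * i0 + iD) := by
  have e1 := max_zero_sub_max_neg_zero_eq_self c
  have a1 : |iH + i0 * m - (bH + b1)| ≤ e * iH + e * (i0 * m) :=
    (abs_of_nonneg (by linarith [hH.1, h1.1])).trans_le (by linarith [hH.2, h1.2])
  have a2 := mul_le_mul_of_nonneg_left a1 (abs_nonneg c)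
  rw [← abs_mul, abs_le] at a2
  have a3 := mul_le_mul_of_nonneg_left h0.1 (sq_nonneg c)
  have a4 := mul_le_mul_of_nonneg_left h0.2 (sq_nonneg c)
  have e2 : t = bHH + 2 * bH1 + b2 + bD + c ^ 2 * b0 - 2 * c * (bH + b1) := by
    linear_combination ht - 2 * (bH + b1) * e1
  rw [add_sq m |c|, sq_abs, abs_le, e2]
  constructor <;> linarith [hHH.1, hHH.2, hH1.1, hH1.2, h2.1, h2.2, hD.1, hD.2, a2.1, a2.2]

variable (R : RL P g Λ d)
include R

theorem second1_m0 {F : Matrix τ ι ℝ → ℝ≥0∞} (hF : Measurable F) :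
    Measurable fun ω => ∑' Y : {Y : Matrix τ ι ℤ // Prim Y}, F (cz Y.1 * g ω) :=
  Measurable.tsum fun _ => hF.comp (Measurable.mxmul measurable_const R.meas)

theorem second1_m1 (C : Matrix τ ι ℤ → (ι → ℤ) → Prop) {F : Matrix τ ι ℝ → (ι → ℝ) → ℝ≥0∞}
    (hF : Measurable (Function.uncurry F)) :
    Measurable fun ω => ∑' Y : {Y : Matrix τ ι ℤ // Prim Y}, ∑' k : {k : ι → ℤ // C Y.1 k},
      F (cz Y.1 * g ω) (lv k.1 (g ω)) :=
  Measurable.tsum fun _ => Measurable.tsum fun _ => hF.comp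
    ((Measurable.mxmul measurable_const R.meas).prodMk ((measurable_lv _).comp R.meas))

theorem second1_s0 (hd4 : Fintype.card τ + 4 ≤ d) {F : Matrix τ ι ℝ → ℝ≥0∞} (hF : Measurable F) :
    second1_Sw (imp (Fintype.card τ) d)
      (∫⁻ ω, ∑' Y : {Y : Matrix τ ι ℤ // Prim Y}, F (cz Y.1 * g ω) ∂P) (∫⁻ U, F U ∂pw τ Λ) :=
  ⟨R.prim_le (by omega) F hF, R.le_prim (by omega) F hF⟩

theorem second1_s1 (hd4 : Fintype.card τ + 4 ≤ d) (hm : Measurable h) {F : Matrix τ ι ℝ → ℝ≥0∞}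
    (hF : Measurable F) : second1_Sw (imp (Fintype.card τ + 1) d)
      (∫⁻ ω, ∑' Y : {Y : Matrix τ ι ℤ // Prim Y}, ∑' k : {k : ι → ℤ // Ind (snc Y.1 k)},
        F (cz Y.1 * g ω) * ENNReal.ofReal (h (lv k.1 (g ω))) ∂P)
      ((∫⁻ U, F U ∂pw τ Λ) * m1 Λ h) := by
  have k := R.one (τ := τ) (by omega) (fun Y k => Ind (snc Y k)) (fun _ _ e => e.ind)
    (fun _ _ e => e) (fun U y => F U * ENNReal.ofReal (h y))
    ((hF.comp measurable_fst).mul (hm.comp measurable_snd).ennreal_ofReal)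
  simp only [lintegral_const_mul _ hm.ennreal_ofReal, lintegral_mul_const _ hF] at k
  exact k

theorem second1_s2 (hd4 : Fintype.card τ + 4 ≤ d) (hm : Measurable h) {F : Matrix τ ι ℝ → ℝ≥0∞}
    (hF : Measurable F) : second1_Sw (imp (Fintype.card τ + 2) d)
      (∫⁻ ω, ∑' Y : {Y : Matrix τ ι ℤ // Prim Y},
        ∑' p : {p : (ι → ℤ) × (ι → ℤ) // Ind (snc2 Y.1 p.1 p.2)}, F (cz Y.1 * g ω) *
          ENNReal.ofReal (h (lv p.1.1 (g ω))) * ENNReal.ofReal (h (lv p.1.2 (g ω))) ∂P)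
      ((∫⁻ U, F U ∂pw τ Λ) * m1 Λ h * m1 Λ h) := by
  have k := R.two hd4 (fun U y y' => F U * ENNReal.ofReal (h y) * ENNReal.ofReal (h y'))
    (((hF.comp measurable_fst).mul (hm.comp measurable_snd.fst).ennreal_ofReal).mul
      (hm.comp measurable_snd.snd).ennreal_ofReal)
  simp only [lintegral_const_mul _ hm.ennreal_ofReal, lintegral_mul_const _ hF,
    lintegral_mul_const _ (hm.ennreal_ofReal.const_mul _),
    lintegral_mul_const _ (hF.mul_const _)] at k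
  exact k

theorem second1_sD (hd4 : Fintype.card τ + 4 ≤ d) (hm : Measurable h) {F : Matrix τ ι ℝ → ℝ≥0∞}
    (hF : Measurable F) : second1_Sw (imp (Fintype.card τ + 1) d)
      (∫⁻ ω, ∑' Y : {Y : Matrix τ ι ℤ // Prim Y}, ∑' k : {k : ι → ℤ // Prim (snc Y.1 k)},
        F (cz Y.1 * g ω) * second1_D h (cz Y.1 * g ω) (lv k.1 (g ω)) ∂P)
      (∫⁻ U, F U * Dfun Λ h U ∂pw τ Λ) := by
  have k := R.one (τ := τ) (by omega) (fun Y k => Prim (snc Y k)) (fun _ _ e => e)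
    (fun _ _ e => e.ind) (fun U y => F U * second1_D h U y)
    ((hF.comp measurable_fst).mul (second1_mD hm))
  have e : ∀ U, ∫⁻ y, F U * second1_D h U y ∂Λ = F U * Dfun Λ h U := fun U => by
    have m := (second1_mD hm).comp (measurable_prodMk_left (x := U))
    rw [lintegral_const_mul (f := second1_D h U) _ m, second1_iD hm]
  simp only [e] at k
  exact k

/-- the weight expanded -/
theorem second1_TT (hd : 1 < d) (hm : Measurable h) (h0 : ∀ y, 0 ≤ h y) (hm1 : m1 Λ h ≠ ∞) (c : ℝ)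
    {S : Ω → ℝ≥0∞} (hS : Measurable S) :
    ∫⁻ ω, S ω * YY h c (g ω) ∂P +
        ENNReal.ofReal (2 * max c 0) * ∫⁻ ω, S ω * second1_X h (g ω) ∂P =
      ∫⁻ ω, S ω * second1_X h (g ω) ^ 2 ∂P + ENNReal.ofReal (c ^ 2) * ∫⁻ ω, S ω ∂P +
        ENNReal.ofReal (2 * max (-c) 0) * ∫⁻ ω, S ω * second1_X h (g ω) ∂P := by
  have mX : Measurable fun ω => second1_X h (g ω) :=
    Measurable.tsum fun _ => (hm.comp ((measurable_lv _).comp R.meas)).ennreal_ofReal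
  have fin := ae_lt_top mX ((R.siegel hd _ hm.ennreal_ofReal).trans_ne hm1)
  have mS : Measurable fun ω => S ω * second1_X h (g ω) := hS.mul mX
  rw [← lintegral_const_mul _ mS, ← lintegral_const_mul _ mS, ← lintegral_const_mul _ hS,
    ← lintegral_add_right _ (mS.const_mul _), ← lintegral_add_right _ (hS.const_mul _),
    ← lintegral_add_right _ (mS.const_mul _)]
  refine lintegral_congr_ae (fin.mono fun ω hω => ?_)
  have e : XX h (g ω) = (second1_X h (g ω)).toReal := by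
    rw [second1_X, ENNReal.tsum_toReal_eq fun _ => ENNReal.ofReal_ne_top]
    exact tsum_congr fun _ => (ENNReal.toReal_ofReal (h0 _)).symm
  have k := congrArg (S ω * ·) (second1_sq hω.ne c)
  beta_reduce at k ⊢
  rw [YY, e, mul_left_comm, ← mul_add, k]
  ring

/-- two-sided form -/
theorem second_two (hd4 : Fintype.card τ + 4 ≤ d) (hm : Measurable h) (h0 : ∀ y, 0 ≤ h y)
    (hm1 : m1 Λ h ≠ ∞) (c : ℝ) {F : Matrix τ ι ℝ → ℝ≥0∞} (hF : Measurable F) {I0 IH IH2 ID : ℝ≥0∞}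
    (e0 : ∫⁻ U, F U ∂pw τ Λ = I0) (eH : ∫⁻ U, F U * Hs {κ | κ ≠ 0} h U ∂pw τ Λ = IH)
    (eH2 : ∫⁻ U, F U * Hs {κ | κ ≠ 0} h U ^ 2 ∂pw τ Λ = IH2)
    (eD : ∫⁻ U, F U * Dfun Λ h U ∂pw τ Λ = ID)
    (f0 : I0 ≠ ∞) (fH2 : IH2 ≠ ∞) (fD : ID ≠ ∞) :
    IH ≠ ∞ ∧ TT P g (fun ω => YY h c (g ω)) F ≠ ∞ ∧
    |(TT P g (fun ω => YY h c (g ω)) F).toReal -
        (IH2.toReal + 2 * ((m1 Λ h).toReal - c) * IH.toReal +
          ((m1 Λ h).toReal - c) ^ 2 * I0.toReal + ID.toReal)| ≤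
      imp (Fintype.card τ + 2) d * (IH2.toReal + 2 * ((m1 Λ h).toReal + |c|) * IH.toReal +
        ((m1 Λ h).toReal + |c|) ^ 2 * I0.toReal + ID.toReal) := by
  have mH := measurable_Hs (τ := τ) hm {κ | κ ≠ 0}
  have mf : Measurable fun p : Matrix τ ι ℝ × (ι → ℝ) => ENNReal.ofReal (h p.2) :=
    (hm.comp measurable_snd).ennreal_ofReal
  have mFH : Measurable fun U => F U * Hs {κ | κ ≠ 0} h U := hF.mul mH
  have mFHH : Measurable fun U => F U * Hs {κ | κ ≠ 0} h U ^ 2 := hF.mul (mH.pow_const 2)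
  have fH : IH ≠ ∞ := by
    refine ne_top_of_le_ne_top (ENNReal.add_ne_top.2 ⟨f0, fH2⟩) ?_
    rw [← eH, ← e0, ← eH2, ← lintegral_add_left hF]
    refine lintegral_mono fun U => ?_
    rcases le_total (Hs {κ | κ ≠ 0} h U) 1 with k | k
    · exact (mul_le_of_le_one_right' k).trans le_self_add
    · exact (mul_le_mul_right (le_self_pow₀ k two_ne_zero) _).trans le_add_self
  have i0 := second1_imp (Nat.le_add_right (Fintype.card τ) 2) d
  have i1 := second1_imp (Nat.le_succ (Fintype.card τ + 1)) d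
  have i2 := second1_imp (le_refl (Fintype.card τ + 2)) d
  have b0 := second1_s0 R hd4 hF
  have bH := second1_s0 R hd4 mFH
  have bHH := second1_s0 R hd4 mFHH
  have b1 := second1_s1 R hd4 hm hF
  have bH1 := second1_s1 R hd4 hm mFH
  have b2 := second1_s2 R hd4 hm hF
  have bD := second1_sD R hd4 hm hF
  rw [e0] at b0 b1 b2
  rw [eH] at bH bH1
  rw [eH2] at bHH
  rw [eD] at bD
  obtain ⟨t0, r0⟩ := second1_real b0 i0.1 i0.2 f0
  obtain ⟨tH, rH⟩ := second1_real bH i0.1 i0.2 fH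
  obtain ⟨tHH, rHH⟩ := second1_real bHH i0.1 i0.2 fH2
  obtain ⟨t1, r1⟩ := second1_real b1 i1.1 i1.2 (ENNReal.mul_ne_top f0 hm1)
  obtain ⟨tH1, rH1⟩ := second1_real bH1 i1.1 i1.2 (ENNReal.mul_ne_top fH hm1)
  obtain ⟨t2, r2⟩ := second1_real b2 i2.1 i2.2 (ENNReal.mul_ne_top (ENNReal.mul_ne_top f0 hm1) hm1)
  obtain ⟨tD, rD⟩ := second1_real bD i1.1 i1.2 fD
  have k := second1_TT R (by omega) hm h0 hm1 c (second1_m0 R hF)
  have pt := fun (ω : Ω) (Y : {Y : Matrix τ ι ℤ // Prim Y}) =>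
    second1_pt (h := h) Y.2 (g ω) (F (cz Y.1 * g ω))
  obtain ⟨a1, a2⟩ := second1_core (μ := P)
    (second1_m1 R (fun Y k => Ind (snc Y k)) (F := fun U y => F U * ENNReal.ofReal (h y))
      ((hF.comp measurable_fst).mul mf)) (second1_m0 R mFHH)
    (second1_m1 R (fun Y k => Ind (snc Y k))
      (F := fun U y => F U * Hs {κ | κ ≠ 0} h U * ENNReal.ofReal (h y))
      ((mFH.comp measurable_fst).mul mf))
    (second1_m1 R (fun Y k => Prim (snc Y k)) (F := fun U y => F U * second1_D h U y)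
      ((hF.comp measurable_fst).mul (second1_mD hm)))
    (fun ω => ENNReal.tsum_mul_right.symm.trans
      ((tsum_congr fun Y => (pt ω Y).1).trans ENNReal.tsum_add))
    (fun ω => ENNReal.tsum_mul_right.symm.trans ((tsum_congr fun Y => (pt ω Y).2).trans (by
      rw [ENNReal.tsum_add, ENNReal.tsum_add, ENNReal.tsum_add, ENNReal.tsum_mul_left (a := 2)])))
  rw [a1, a2] at k
  obtain ⟨tT, e⟩ := second1_fin t0 tH t1 tHH tH1 t2 tD k
  simp only [ENNReal.toReal_mul] at r1 rH1 r2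
  exact ⟨fH, tT, second1_num r0 rH r1 rHH rH1 r2 rD e⟩

end Pool.Agent.Eps.P
end
end

-- part Pool.Agent.Lib.MP_3bda03_nt.P.Second
section

/-!
The second moment of a lattice sum given a primitive frame.
-/

set_option autoImplicit false

noncomputable section

open MeasureTheory Matrix
open scoped ENNReal

namespace Pool.Agent.Eps.P

open Pool.Agent.Eps.H

theorem second_aux_am (x y : ℝ≥0∞) : 2 * x * y ≤ x ^ 2 + y ^ 2 := by
  rcases eq_or_ne x ∞ with rfl | hx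
  · simp
  rcases eq_or_ne y ∞ with rfl | hy
  · simp
  lift x to NNReal using hx
  lift y to NNReal using hy
  have : (2 * x * y : NNReal) ≤ x ^ 2 + y ^ 2 := by
    rw [← NNReal.coe_le_coe]
    push_cast
    nlinarith [sq_nonneg ((x : ℝ) - y)]
  exact_mod_cast this

theorem second_aux_int {X : Type} [MeasurableSpace X] {μ : Measure X} {F H : X → ℝ≥0∞}
    (hF : Measurable F) (hH : Measurable H) (f0 : ∫⁻ U, F U ∂μ ≠ ∞)
    (f2 : ∫⁻ U, F U * H U ^ 2 ∂μ ≠ ∞) {a : ℝ} (ha : 0 ≤ a) :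
    2 * a * (∫⁻ U, F U * H U ∂μ).toReal ≤
      a ^ 2 * (∫⁻ U, F U ∂μ).toReal + (∫⁻ U, F U * H U ^ 2 ∂μ).toReal := by
  have h1 : 2 * ENNReal.ofReal a * ∫⁻ U, F U * H U ∂μ ≤
      ENNReal.ofReal a ^ 2 * ∫⁻ U, F U ∂μ + ∫⁻ U, F U * H U ^ 2 ∂μ := by
    rw [← lintegral_const_mul _ (hF.fun_mul hH), ← lintegral_const_mul _ hF,
      ← lintegral_add_left (hF.const_mul _)]
    refine lintegral_mono fun U => ?_
    calc 2 * ENNReal.ofReal a * (F U * H U) = F U * (2 * ENNReal.ofReal a * H U) := by ring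
      _ ≤ F U * (ENNReal.ofReal a ^ 2 + H U ^ 2) := by gcongr; exact second_aux_am _ _
      _ = _ := by ring
  have g1 : ENNReal.ofReal a ^ 2 * ∫⁻ U, F U ∂μ ≠ ∞ :=
    ENNReal.mul_ne_top (ENNReal.pow_ne_top ENNReal.ofReal_ne_top) f0
  have h2 := ENNReal.toReal_mono (ENNReal.add_ne_top.2 ⟨g1, f2⟩) h1
  rw [ENNReal.toReal_add g1 f2] at h2
  simpa [ENNReal.toReal_ofReal ha] using h2

theorem second_aux_split {X : Type} [MeasurableSpace X] {μ : Measure X} {F H D : X → ℝ≥0∞}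
    (hF : Measurable F) (hH : Measurable H) (a b : ℝ≥0∞) :
    ∫⁻ U, F U * (a + b * H U ^ 2 + D U) ∂μ =
      a * ∫⁻ U, F U ∂μ + b * ∫⁻ U, F U * H U ^ 2 ∂μ + ∫⁻ U, F U * D U ∂μ := by
  have m2 : Measurable fun U => F U * H U ^ 2 := hF.mul (hH.pow_const 2)
  rw [← lintegral_const_mul _ hF, ← lintegral_const_mul _ m2,
    ← lintegral_add_left (hF.const_mul _),
    ← lintegral_add_left ((hF.const_mul _).fun_add (m2.const_mul _))]
  exact lintegral_congr fun U => by ring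

/-- the variance from the first two moments -/
theorem second_aux_var {Ω : Type} [MeasurableSpace Ω] {P : Measure Ω} [IsProbabilityMeasure P]
    {X : Ω → ℝ≥0∞} (hX : Measurable X) {m N : ℝ≥0∞} (hm : m ≠ ∞) (e1 : ∫⁻ ω, X ω ∂P = m)
    (e2 : ∫⁻ ω, X ω ^ 2 ∂P ≤ m ^ 2 + N) (c : ℝ) :
    ∫⁻ ω, ENNReal.ofReal (((X ω).toReal - c) ^ 2) ∂P ≤
      ENNReal.ofReal ((m.toReal - c) ^ 2) + N := by
  rcases eq_or_ne N ∞ with rfl | hN
  · simp
  have hX2 : Measurable fun ω => X ω ^ 2 := hX.pow_const 2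
  have f1 : ∫⁻ ω, X ω ∂P ≠ ∞ := e1 ▸ hm
  have f3 : m ^ 2 + N ≠ ∞ := ENNReal.add_ne_top.2 ⟨ENNReal.pow_ne_top hm, hN⟩
  have f2 : ∫⁻ ω, X ω ^ 2 ∂P ≠ ∞ := ne_top_of_le_ne_top f3 e2
  have i1 := integrable_toReal_of_lintegral_ne_top hX.aemeasurable f1
  have i2 := integrable_toReal_of_lintegral_ne_top hX2.aemeasurable f2
  have v1 := integral_toReal hX.aemeasurable (ae_lt_top hX f1)
  have v2 := integral_toReal hX2.aemeasurable (ae_lt_top hX2 f2)
  have hpt : (fun ω => ((X ω).toReal - c) ^ 2) =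
      fun ω => (X ω ^ 2).toReal - 2 * c * (X ω).toReal + c ^ 2 := by
    funext ω
    rw [ENNReal.toReal_pow]
    ring
  have i3 : Integrable (fun ω => 2 * c * (X ω).toReal) P := i1.const_mul _
  have i4 : Integrable (fun ω => (X ω ^ 2).toReal - 2 * c * (X ω).toReal) P := i2.sub i3
  have i5 : Integrable (fun ω => ((X ω).toReal - c) ^ 2) P := by
    rw [hpt]
    exact i4.add (integrable_const _)
  have v3 : ∫ ω, ((X ω).toReal - c) ^ 2 ∂P =
      (∫⁻ ω, X ω ^ 2 ∂P).toReal - 2 * c * m.toReal + c ^ 2 := by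
    rw [hpt, integral_add i4 (integrable_const _), integral_sub i2 i3, integral_const_mul, v1, v2,
      e1]
    simp
  have v4 := ENNReal.toReal_mono f3 e2
  rw [ENNReal.toReal_add (ENNReal.pow_ne_top hm) hN, ENNReal.toReal_pow] at v4
  rw [← ofReal_integral_eq_lintegral_ofReal i5 (Filter.Eventually.of_forall fun ω => sq_nonneg _),
    v3, ← ENNReal.ofReal_toReal hN, ← ENNReal.ofReal_add (sq_nonneg _) ENNReal.toReal_nonneg]
  exact ENNReal.ofReal_le_ofReal (by nlinarith)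

theorem second_aux_zsum (φ : ℕ → ℝ≥0∞) :
    ∑' q : {q : ℤ // q ≠ 0}, φ q.1.natAbs ≤ 2 * ∑' p : ℕ, φ (p + 1) := by
  have hinj : Function.Injective
      fun q : {q : ℤ // q ≠ 0} => ((decide (0 < q.1), q.1.natAbs - 1) : Bool × ℕ) := by
    rintro ⟨a, ha⟩ ⟨b, hb⟩ hab
    simp only [Prod.mk.injEq, decide_eq_decide] at hab
    apply Subtype.ext
    change a = b
    omega
  have h1 := ENNReal.tsum_comp_le_tsum_of_injective hinj (fun x : Bool × ℕ => φ (x.2 + 1))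
  calc _ = ∑' q : {q : ℤ // q ≠ 0}, φ (q.1.natAbs - 1 + 1) := tsum_congr fun q => by
        have := q.2
        rw [show q.1.natAbs - 1 + 1 = q.1.natAbs by omega]
    _ ≤ _ := h1
    _ = _ := by rw [ENNReal.tsum_prod', tsum_bool, two_mul]

theorem second_aux_zeta :
    ∑' p : ℕ, (((p + 1 : ℕ) : ℝ≥0∞) ^ 20)⁻¹ ≤ ENNReal.ofReal 1.00004 := by
  have h1 := tsum_pow_le (a := 0) (d := 20) (by norm_num)
  simp only [pow_zero, one_mul] at h1
  have h2 : ∀ φ : ℕ → ℝ≥0∞, ∑' p, φ (p + 1) = φ 1 + ∑' q, φ (q + 2) := fun φ =>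
    tsum_eq_zero_add' (f := fun p => φ (p + 1)) ENNReal.summable
  calc _ = _ := h2 fun n => ((n : ℝ≥0∞) ^ 20)⁻¹
    _ ≤ 1 + ENNReal.ofReal (imp 0 20) := add_le_add (by simp) h1
    _ = ENNReal.ofReal (1 + imp 0 20) := by
        rw [ENNReal.ofReal_add zero_le_one (by unfold imp; positivity), ENNReal.ofReal_one]
    _ ≤ _ := ENNReal.ofReal_le_ofReal (by unfold imp; norm_num)

variable {ι : Type} [Fintype ι] [DecidableEq ι] {Ω : Type} [MeasurableSpace Ω]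
  {P : Measure Ω} {g : Ω → Matrix ι ι ℝ} {Λ : Measure (ι → ℝ)} {d : ℕ}
  {τ : Type} [Fintype τ] [DecidableEq τ] {h : (ι → ℝ) → ℝ}

omit [Fintype ι] [DecidableEq ι] in
theorem second_aux_sq (f : (ι → ℤ) → ℝ≥0∞) :
    (∑' k : {k : ι → ℤ // k ≠ 0}, f k.1) ^ 2 ≤
      ∑' p : {p : (ι → ℤ) × (ι → ℤ) // Ind2 p}, f p.1.1 * f p.1.2 +
        ∑' p : {p : (ι → ℤ) × (ι → ℤ) // boch_Dep p}, f p.1.1 * f p.1.2 := by
  have h1 := ENNReal.tsum_union_le (fun p : (ι → ℤ) × (ι → ℤ) => f p.1 * f p.2)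
    {p | Ind2 p} {p | boch_Dep p}
  rw [← (boch_equiv (ι := ι)).tsum_eq] at h1
  refine le_trans (le_of_eq ?_) h1
  rw [sq, ← ENNReal.tsum_mul_right, ENNReal.tsum_prod']
  exact tsum_congr fun k => ENNReal.tsum_mul_left.symm

variable (R : RL P g Λ d)
include R

theorem second_aux_dil (hd40 : 40 ≤ d) {f : (ι → ℝ) → ℝ≥0∞} (hf : Measurable f) {p : ℕ}
    (hp : 1 ≤ p) : ((p : ℝ≥0∞) ^ 20) ^ 2 * ∫⁻ x, f ((p : ℝ) • x) ∂Λ ≤ ∫⁻ x, f x ∂Λ := by
  have h1 : (1 : ℝ≥0∞) ≤ p := by exact_mod_cast hp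
  have h2 : ((p : ℝ≥0∞) ^ 20) ^ 2 ≤ (p : ℝ≥0∞) ^ d := by
    rw [← pow_mul]
    exact pow_le_pow_right₀ h1 hd40
  have h3 : (p : ℝ≥0∞) ^ d ≠ 0 := pow_ne_zero _ (lt_of_lt_of_le zero_lt_one h1).ne'
  calc _ ≤ (p : ℝ≥0∞) ^ d * (((p : ℝ≥0∞) ^ d)⁻¹ * ∫⁻ x, f x ∂Λ) :=
        mul_le_mul' h2 (R.dil p hp f hf)
    _ = _ := by
        rw [← mul_assoc, ENNReal.mul_inv_cancel h3 (ENNReal.pow_ne_top (ENNReal.natCast_ne_top p)),
          one_mul]

theorem second_aux_pair (hd40 : 40 ≤ d) {f : (ι → ℝ) → ℝ≥0∞} (hf : Measurable f) {p q : ℕ}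
    (hp : 1 ≤ p) (hq : 1 ≤ q) :
    ∫⁻ x, f ((p : ℝ) • x) * f ((q : ℝ) • x) ∂Λ ≤
      ((p : ℝ≥0∞) ^ 20)⁻¹ * (((q : ℝ≥0∞) ^ 20)⁻¹ * ∫⁻ x, f x * f x ∂Λ) := by
  set a := (p : ℝ≥0∞) ^ 20 with ha
  set b := (q : ℝ≥0∞) ^ 20 with hb
  have a0 : a ≠ 0 := pow_ne_zero _ (by exact_mod_cast (by omega : p ≠ 0))
  have b0 : b ≠ 0 := pow_ne_zero _ (by exact_mod_cast (by omega : q ≠ 0))
  have a1 : a ≠ ∞ := ENNReal.pow_ne_top (ENNReal.natCast_ne_top p)
  have b1 : b ≠ ∞ := ENNReal.pow_ne_top (ENNReal.natCast_ne_top q)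
  have m1 : ∀ r : ℝ, Measurable fun x : ι → ℝ => f (r • x) := fun r =>
    hf.comp (measurable_const_smul _)
  have h1 := second_aux_dil R hd40 (hf.fun_mul hf) hp
  have h2 := second_aux_dil R hd40 (hf.fun_mul hf) hq
  have h3 : 2 * (a * b * ∫⁻ x, f ((p : ℝ) • x) * f ((q : ℝ) • x) ∂Λ) ≤
      2 * ∫⁻ x, f x * f x ∂Λ := by
    rw [two_mul (∫⁻ x, f x * f x ∂Λ)]
    refine le_trans ?_ (add_le_add h1 h2)
    rw [← mul_assoc, ← lintegral_const_mul _ ((m1 _).fun_mul (m1 _)),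
      ← lintegral_const_mul _ ((m1 _).fun_mul (m1 _)), ← lintegral_const_mul _ ((m1 _).fun_mul (m1 _)),
      ← lintegral_add_left (((m1 _).fun_mul (m1 _)).const_mul _)]
    refine lintegral_mono fun x => ?_
    calc _ = 2 * (a * f ((p : ℝ) • x)) * (b * f ((q : ℝ) • x)) := by ring
      _ ≤ _ := second_aux_am _ _
      _ = _ := by ring
  have h4 := (ENNReal.mul_le_mul_iff_right (by norm_num) (by norm_num)).1 h3
  calc _ = a⁻¹ * (b⁻¹ * (a * b * ∫⁻ x, f ((p : ℝ) • x) * f ((q : ℝ) • x) ∂Λ)) := by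
        rw [mul_comm a b, mul_assoc b, ← mul_assoc b⁻¹, ENNReal.inv_mul_cancel b0 b1, one_mul,
          ← mul_assoc, ENNReal.inv_mul_cancel a0 a1, one_mul]
    _ ≤ _ := by gcongr

theorem second_aux_ind (hd40 : 40 ≤ d) {f : (ι → ℝ) → ℝ≥0∞} (hf : Measurable f) :
    ∫⁻ ω, ∑' p : {p : (ι → ℤ) × (ι → ℤ) // Ind2 p},
      f (lv p.1.1 (g ω)) * f (lv p.1.2 (g ω)) ∂P = (∫⁻ x, f x ∂Λ) ^ 2 := by
  have := R.sf
  have hm : Measurable fun X : Matrix (Fin 2) ι ℝ => f (X 0) * f (X 1) :=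
    (hf.comp (measurable_row 0)).mul (hf.comp (measurable_row 1))
  have h1 := lintegral_pw_prod (τ := Fin 2) (Λ := Λ) (fun _ => f) fun _ => hf
  simp only [Fin.prod_univ_two] at h1
  rw [sq, ← h1, ← R.rog (Fin 2) (by rw [Fintype.card_fin]; omega) _ hm]
  exact lintegral_congr fun ω => rogers_two_sum (fun x y => f x * f y) (g ω)

theorem second_aux_dep (hd40 : 40 ≤ d) {f : (ι → ℝ) → ℝ≥0∞} (hf : Measurable f)
    (he : ∀ y, f (-y) = f y) :
    ∫⁻ ω, ∑' p : {p : (ι → ℤ) × (ι → ℤ) // boch_Dep p},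
      f (lv p.1.1 (g ω)) * f (lv p.1.2 (g ω)) ∂P ≤
      ENNReal.ofReal 1.0001 * (2 * ∫⁻ x, f x * f x ∂Λ) := by
  have := R.sf
  let ψ : ℕ → {q : ℤ // q ≠ 0} → (ι → ℝ) → ℝ≥0∞ := fun p q x =>
    f (((p + 1 : ℕ) : ℝ) • x) * f ((q.1 : ℝ) • x)
  have hψ : ∀ p q, Measurable (ψ p q) := fun p q =>
    (hf.comp (measurable_const_smul _)).mul (hf.comp (measurable_const_smul _))
  let Ψ : (ι → ℝ) → ℝ≥0∞ := fun x => ∑' p, ∑' q, ψ p q x
  have hΨ : Measurable Ψ := Measurable.tsum fun p => Measurable.tsum fun q => hψ p q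
  let Φ : Matrix Unit ι ℝ → ℝ≥0∞ := fun X => Ψ (X ())
  have hΦ : Measurable Φ := hΨ.comp (measurable_row ())
  have habs : ∀ (q : ℤ) (x : ι → ℝ), f ((q : ℝ) • x) = f ((q.natAbs : ℝ) • x) := by
    intro q x
    rcases Int.natAbs_eq q with e | e
    · conv_lhs => rw [e]
      rw [Int.cast_natCast]
    · conv_lhs => rw [e]
      rw [Int.cast_neg, Int.cast_natCast, neg_smul, he]
  set J := ∫⁻ x, f x * f x ∂Λ with hJ
  set Z := ∑' p : ℕ, (((p + 1 : ℕ) : ℝ≥0∞) ^ 20)⁻¹ with hZ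
  calc _ ≤ ∫⁻ ω, ∑' Y : {Y : Matrix Unit ι ℤ // Prim Y}, Φ (cz Y.1 * g ω) ∂P := by
        refine lintegral_mono fun ω => ?_
        refine (boch_dep_le fun k l => f (lv k (g ω)) * f (lv l (g ω))).trans (le_of_eq ?_)
        refine tsum_congr fun Y => ?_
        simp only [Φ, Ψ, ψ, cz_mul_row, lv_smul, Int.cast_natCast]
    _ ≤ ∫⁻ X, Φ X ∂pw Unit Λ := R.prim_le (by rw [Fintype.card_unit]; omega) Φ hΦ
    _ = ∫⁻ x, Ψ x ∂Λ := by
        have h1 := lintegral_pw_prod (τ := Unit) (Λ := Λ) (fun _ => Ψ) fun _ => hΨ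
        simpa using h1
    _ = ∑' p : ℕ, ∑' q : {q : ℤ // q ≠ 0}, ∫⁻ x, ψ p q x ∂Λ := by
        rw [lintegral_tsum fun p => (Measurable.tsum fun q => hψ p q).aemeasurable]
        exact tsum_congr fun p => lintegral_tsum fun q => (hψ p q).aemeasurable
    _ ≤ ∑' p : ℕ, ∑' q : {q : ℤ // q ≠ 0},
          (((p + 1 : ℕ) : ℝ≥0∞) ^ 20)⁻¹ * ((((q.1.natAbs : ℕ) : ℝ≥0∞) ^ 20)⁻¹ * J) := by
        refine ENNReal.tsum_le_tsum fun p => ENNReal.tsum_le_tsum fun q => ?_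
        have hq := q.2
        simp only [ψ, habs q.1]
        exact second_aux_pair R hd40 hf (by omega) (by omega)
    _ = Z * ((∑' q : {q : ℤ // q ≠ 0}, (((q.1.natAbs : ℕ) : ℝ≥0∞) ^ 20)⁻¹) * J) := by
        simp only [ENNReal.tsum_mul_left, ENNReal.tsum_mul_right, hZ]
    _ ≤ Z * (2 * Z * J) := by
        gcongr
        exact second_aux_zsum fun n => ((n : ℝ≥0∞) ^ 20)⁻¹
    _ = Z * Z * (2 * J) := by ring
    _ ≤ ENNReal.ofReal 1.00004 * ENNReal.ofReal 1.00004 * (2 * J) := by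
        gcongr <;> exact second_aux_zeta
    _ ≤ _ := by
        rw [← ENNReal.ofReal_mul (by norm_num)]
        gcongr
        norm_num

/-- upper bound; `T` bounds the first moment -/
theorem second_le (hd4 : Fintype.card τ + 4 ≤ d) (hm : Measurable h) (h0 : ∀ y, 0 ≤ h y) {T : ℝ}
    (hT0 : 0 < T) (hT : m1 Λ h ≤ ENNReal.ofReal T) (c : ℝ) {F : Matrix τ ι ℝ → ℝ≥0∞}
    (hF : Measurable F) :
    TT P g (fun ω => YY h c (g ω)) F ≤
      ∫⁻ U, F U * (2 * ENNReal.ofReal (((m1 Λ h).toReal - c) ^ 2) +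
        2 * Hs {κ | κ ≠ 0} h U ^ 2 + Dfun Λ h U) ∂pw τ Λ +
      ENNReal.ofReal (imp (Fintype.card τ + 2) d) *
        ∫⁻ U, F U * (3 * ENNReal.ofReal (((m1 Λ h).toReal - c) ^ 2) +
          3 * Hs {κ | κ ≠ 0} h U ^ 2 + 12 * ENNReal.ofReal (T ^ 2) + Dfun Λ h U) ∂pw τ Λ := by
  have hH := measurable_Hs (τ := τ) hm {κ | κ ≠ 0}
  have hm1 : m1 Λ h ≠ ∞ := ne_top_of_le_ne_top ENNReal.ofReal_ne_top hT
  have hmT : (m1 Λ h).toReal ≤ T := ENNReal.toReal_le_of_le_ofReal hT0.le hT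
  have hm0 : 0 ≤ (m1 Λ h).toReal := ENNReal.toReal_nonneg
  have hi : 0 < imp (Fintype.card τ + 2) d := by unfold imp; positivity
  have e : ∀ U, 3 * ENNReal.ofReal (((m1 Λ h).toReal - c) ^ 2) +
      3 * Hs {κ | κ ≠ 0} h U ^ 2 + 12 * ENNReal.ofReal (T ^ 2) + Dfun Λ h U =
      (3 * ENNReal.ofReal (((m1 Λ h).toReal - c) ^ 2) + 12 * ENNReal.ofReal (T ^ 2)) +
        3 * Hs {κ | κ ≠ 0} h U ^ 2 + Dfun (τ := τ) Λ h U := fun U => by ring
  simp only [e]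
  rw [second_aux_split hF hH, second_aux_split hF hH]
  have key := fun f0 f2 fD => second_two R hd4 hm h0 hm1 c hF rfl rfl rfl rfl f0 f2 fD
  have am := fun f0 f2 (a : ℝ) (ha : 0 ≤ a) =>
    second_aux_int (μ := pw τ Λ) hF hH f0 f2 ha
  set I0 := ∫⁻ U, F U ∂pw τ Λ
  set IH := ∫⁻ U, F U * Hs {κ | κ ≠ 0} h U ∂pw τ Λ
  set I2 := ∫⁻ U, F U * Hs {κ | κ ≠ 0} h U ^ 2 ∂pw τ Λ
  set ID := ∫⁻ U, F U * Dfun Λ h U ∂pw τ Λ
  set m := (m1 Λ h).toReal
  set η := imp (Fintype.card τ + 2) d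
  rcases eq_or_ne I2 ∞ with f2 | f2
  · simp [f2]
  rcases eq_or_ne ID ∞ with fD | fD
  · simp [fD]
  rcases eq_or_ne I0 ∞ with f0 | f0
  · have t1 : 3 * ENNReal.ofReal ((m - c) ^ 2) + 12 * ENNReal.ofReal (T ^ 2) ≠ 0 := by
      simp [hT0.ne']
    have t2 : ENNReal.ofReal η ≠ 0 := by simpa using hi
    rw [f0, ENNReal.mul_top t1, top_add, top_add, ENNReal.mul_top t2, add_top]
    exact le_top
  obtain ⟨-, fT, hle⟩ := key f0 f2 fD
  have a1 := am f0 f2 |m - c| (abs_nonneg _)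
  have a2 := am f0 f2 ((m + |c|) / 2) (by positivity)
  rw [sq_abs] at a1
  have hb : (m + |c|) ^ 2 ≤ 2 * (m - c) ^ 2 + 8 * T ^ 2 := by
    have b1 : |c| ≤ m + |m - c| := by
      rw [abs_le]
      constructor <;> linarith [le_abs_self (m - c), neg_abs_le (m - c)]
    have b2 : (m + |c|) ^ 2 ≤ (2 * T + |m - c|) ^ 2 :=
      pow_le_pow_left₀ (by positivity) (by linarith) 2
    nlinarith [sq_abs (m - c), sq_nonneg (2 * T - |m - c|)]
  have n0 : 0 ≤ I0.toReal := ENNReal.toReal_nonneg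
  have nH : 0 ≤ IH.toReal := ENNReal.toReal_nonneg
  have n2 : 0 ≤ I2.toReal := ENNReal.toReal_nonneg
  have nD : 0 ≤ ID.toReal := ENNReal.toReal_nonneg
  have c1 : (m - c) * IH.toReal ≤ |m - c| * IH.toReal :=
    mul_le_mul_of_nonneg_right (le_abs_self _) nH
  have c2 : (m + |c|) ^ 2 * I0.toReal ≤ (2 * (m - c) ^ 2 + 8 * T ^ 2) * I0.toReal :=
    mul_le_mul_of_nonneg_right hb n0
  have c3 : I2.toReal + 2 * (m + |c|) * IH.toReal + (m + |c|) ^ 2 * I0.toReal + ID.toReal ≤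
      (3 * (m - c) ^ 2 + 12 * T ^ 2) * I0.toReal + 3 * I2.toReal + ID.toReal := by
    nlinarith
  have c4 := mul_le_mul_of_nonneg_left c3 hi.le
  have c5 := (abs_le.1 hle).2
  rw [← ENNReal.toReal_le_toReal fT (by finiteness)]
  rw [ENNReal.toReal_add (by finiteness) (by finiteness),
    ENNReal.toReal_add (by finiteness) fD, ENNReal.toReal_add (by finiteness) (by finiteness),
    ENNReal.toReal_mul (a := ENNReal.ofReal η), ENNReal.toReal_add (by finiteness) fD,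
    ENNReal.toReal_add (by finiteness) (by finiteness)]
  simp only [ENNReal.toReal_mul]
  rw [ENNReal.toReal_add (by finiteness) (by finiteness)]
  simp only [ENNReal.toReal_mul, ENNReal.toReal_ofReal (sq_nonneg _),
    ENNReal.toReal_ofReal hi.le, ENNReal.toReal_ofNat]
  nlinarith

/-- no frame -/
theorem second_zero (hd40 : 40 ≤ d) (hm : Measurable h) (h0 : ∀ y, 0 ≤ h y)
    (he : ∀ y, h (-y) = h y) (hm1 : m1 Λ h ≠ ∞) (c : ℝ) :
    ∫⁻ ω, YY h c (g ω) ∂P ≤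
      ENNReal.ofReal (((m1 Λ h).toReal - c) ^ 2) + ENNReal.ofReal 1.0001 * NN Λ h := by
  have := R.prob
  have hf : Measurable fun y => ENNReal.ofReal (h y) := hm.ennreal_ofReal
  have hk : ∀ k : ι → ℤ, Measurable fun ω => ENNReal.ofReal (h (lv k (g ω))) := fun k =>
    hf.comp ((measurable_lv k).comp R.meas)
  have hX : Measurable fun ω => ∑' k : {k : ι → ℤ // k ≠ 0}, ENNReal.ofReal (h (lv k.1 (g ω))) :=
    Measurable.tsum fun k => hk k.1
  have e2 : ∫⁻ ω, (∑' k : {k : ι → ℤ // k ≠ 0}, ENNReal.ofReal (h (lv k.1 (g ω)))) ^ 2 ∂P ≤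
      m1 Λ h ^ 2 + ENNReal.ofReal 1.0001 * NN Λ h := by
    refine le_trans (lintegral_mono fun ω =>
      second_aux_sq fun k => ENNReal.ofReal (h (lv k (g ω)))) ?_
    have hA : Measurable fun ω => ∑' p : {p : (ι → ℤ) × (ι → ℤ) // Ind2 p},
        ENNReal.ofReal (h (lv p.1.1 (g ω))) * ENNReal.ofReal (h (lv p.1.2 (g ω))) :=
      Measurable.tsum fun p => (hk _).mul (hk _)
    rw [lintegral_add_left hA]
    exact add_le_add (second_aux_ind R hd40 hf).le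
      (second_aux_dep R hd40 hf fun y => by rw [he])
  refine le_trans (le_of_eq (lintegral_congr fun ω => ?_))
    (second_aux_var hX hm1 (R.siegel (by omega) _ hf) e2 c)
  rw [YY, XX, ENNReal.tsum_toReal_eq fun _ => ENNReal.ofReal_ne_top]
  simp only [ENNReal.toReal_ofReal (h0 _)]

end Pool.Agent.Eps.P
end
end

-- part Pool.Agent.Lib.MP_3bda03_nt.P.Mom
section

/-!
Factorial moments and sums of lists of terms.
-/

set_option autoImplicit false

noncomputable section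

open MeasureTheory Matrix
open scoped ENNReal

namespace Pool.Agent.Eps.P

open Pool.Agent.Eps.H

variable {v : ℝ}

theorem evL_nil : evL v [] = 0 := by
  simp [evL]

theorem evL_cons (m : Mono) (L : List Mono) : evL v (m :: L) = m.ev v + evL v L := by
  simp [evL]

theorem evL_append (L L' : List Mono) : evL v (L ++ L') = evL v L + evL v L' := by
  simp [evL]

theorem evA_append (ξ : ℝ) (a : ℕ) (L L' : List At) :
    evA v ξ a (L ++ L') = evA v ξ a L + evA v ξ a L' := by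
  simp [evA]

theorem evT_append (ξ : ℝ) (L L' : List Tm) : evT v ξ (L ++ L') = evT v ξ L + evT v ξ L' := by
  simp [evT]

theorem evD_append (b : ℕ) (L L' : List Dt) : evD v b (L ++ L') = evD v b L + evD v b L' := by
  simp [evD]

variable (hv : 97 / 2 ≤ v)
include hv

theorem mom_lb_pos : 0 < lb v := lt_of_lt_of_le (by norm_num) (lb_ge hv)

theorem mom_tilt_pos (u : ℚ) : 0 ≤ 1 + ((|u| : ℚ) : ℝ) / lb v := by
  have h := mom_lb_pos hv
  have h1 : (0 : ℝ) ≤ ((|u| : ℚ) : ℝ) := by exact_mod_cast abs_nonneg u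
  positivity

theorem mom_At_nonneg {ξ : ℝ} (hξ : 0 ≤ ξ) (a : ℕ) (t : At) : 0 ≤ t.ev v ξ a := by
  have h1 := Mono.ev_nonneg hv t.m
  have h2 := ff_nonneg t.j a
  unfold At.ev
  positivity

theorem mom_Dt_nonneg (b : ℕ) (t : Dt) : 0 ≤ t.ev v b := by
  have h1 := Mono.ev_nonneg hv t.m
  have h2 := ff_nonneg t.j b
  have h3 := mom_tilt_pos hv t.c
  unfold Dt.ev
  positivity

theorem evL_nonneg (L : List Mono) : 0 ≤ evL v L := by
  refine List.sum_nonneg fun x hx => ?_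
  obtain ⟨t, -, rfl⟩ := List.mem_map.1 hx
  exact Mono.ev_nonneg hv t

theorem evA_nonneg {ξ : ℝ} (hξ : 0 ≤ ξ) (a : ℕ) (L : List At) : 0 ≤ evA v ξ a L := by
  refine List.sum_nonneg fun x hx => ?_
  obtain ⟨t, -, rfl⟩ := List.mem_map.1 hx
  exact mom_At_nonneg hv hξ a t

theorem evT_nonneg (ξ : ℝ) (L : List Tm) : 0 ≤ evT v ξ L := by
  refine List.sum_nonneg fun x hx => ?_
  obtain ⟨t, -, rfl⟩ := List.mem_map.1 hx
  exact mul_nonneg (Mono.ev_nonneg hv t.m) (Real.exp_pos _).le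

theorem evD_nonneg (b : ℕ) (L : List Dt) : 0 ≤ evD v b L := by
  refine List.sum_nonneg fun x hx => ?_
  obtain ⟨t, -, rfl⟩ := List.mem_map.1 hx
  exact mom_Dt_nonneg hv b t

theorem evL_scL (c : Mono) (L : List Mono) : evL v (scL c L) = c.ev v * evL v L := by
  unfold evL scL
  rw [List.map_map, ← List.sum_map_mul_left]
  exact congrArg List.sum (List.map_congr_left fun t _ => Mono.ev_mul hv c t)

theorem evT_scT (ξ : ℝ) (c : Mono) (q : ℕ) (L : List Tm) :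
    evT v ξ (scT c q L) = c.ev v * Real.exp (q * ξ) * evT v ξ L := by
  unfold evT scT
  rw [List.map_map, ← List.sum_map_mul_left]
  refine congrArg List.sum (List.map_congr_left fun t _ => ?_)
  simp only [Function.comp, Tm.ev, Mono.ev_mul hv]
  rw [show (((t.q + q : ℕ) : ℝ) + t.a * lb v) * ξ = q * ξ + (t.q + t.a * lb v) * ξ by
    push_cast; ring, Real.exp_add]
  ring

/-- lists without tilt -/
theorem evD_scD (b : ℕ) (c : Mono) (u : ℚ) {L : List Dt} (hL : ∀ t ∈ L, t.c = 0) :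
    evD v b (scD c u L) = c.ev v * (1 + ((|u| : ℚ) : ℝ) / lb v) ^ b * evD v b L := by
  unfold evD scD
  rw [List.map_map, ← List.sum_map_mul_left]
  refine congrArg List.sum (List.map_congr_left fun t ht => ?_)
  simp only [Function.comp, Dt.ev, Mono.ev_mul hv, hL t ht, abs_zero, Rat.cast_zero, zero_div,
    add_zero, mul_one, mul_pow]
  ring

theorem evA_polA (ξ : ℝ) (a : ℕ) (m : Mono) (c : List (ℚ × ℕ)) :
    evA v ξ a (polA m c) = m.ev v * (c.map fun x => ((|x.1| : ℚ) : ℝ) * ff x.2 a).sum := by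
  unfold evA polA
  rw [List.map_map, ← List.sum_map_mul_left]
  refine congrArg List.sum (List.map_congr_left fun t _ => ?_)
  simp only [Function.comp, At.ev, Mono.ev_mul hv, ev_cM, Nat.cast_one, one_pow, pow_zero]
  ring

theorem evD_polD (b : ℕ) (m : Mono) (c : List (ℚ × ℕ)) :
    evD v b (polD m c) = m.ev v * (c.map fun x => ((|x.1| : ℚ) : ℝ) * ff x.2 b).sum := by
  unfold evD polD
  rw [List.map_map, ← List.sum_map_mul_left]
  refine congrArg List.sum (List.map_congr_left fun t _ => ?_)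
  simp only [Function.comp, Dt.ev, Mono.ev_mul hv, ev_cM, Nat.cast_one, abs_zero, Rat.cast_zero,
    zero_div, add_zero, mul_one, one_pow]
  ring

omit hv in
theorem mom_sum (S : Finset ℕ) (j : ℕ) {x : ℝ} (hx : 0 ≤ x) :
    ∑ a ∈ S, x ^ a / a.factorial * ff j a ≤ x ^ j * Real.exp x :=
  sum_le_hasSum S (fun a _ => mul_nonneg (by positivity) (ff_nonneg j a)) (hasSum_ff j x)

omit hv in
theorem mom_sum_sq (S : Finset ℕ) (j : ℕ) {x : ℝ} (hx : 0 ≤ x) (c : ℝ) :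
    ∑ a ∈ S, x ^ a / a.factorial * ff j a * (c + 2 * a) ^ 2 ≤
      x ^ j * Real.exp x * ((c + 2 * j + 2 * x) ^ 2 + 4 * x) :=
  sum_le_hasSum S (fun a _ => mul_nonneg (mul_nonneg (by positivity) (ff_nonneg j a))
    (sq_nonneg _)) (hasSum_ff_sq j x c)

theorem mom_At {ξ : ℝ} (hξ : 0 ≤ ξ) (S : Finset ℕ) (t : At) :
    ∑ a ∈ S, cw a * (((1 + ξ) * VV v) ^ a * t.ev v ξ a) ≤ t.toT.ev v ξ := by
  have h0 := mom_lb_pos hv
  have h1 := Mono.ev_nonneg hv t.m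
  have hx : 0 ≤ (1 + ξ) * lb v * t.y := by positivity
  have e1 : ∀ a : ℕ, cw a * (((1 + ξ) * VV v) ^ a * t.ev v ξ a) = t.m.ev v * (1 + ξ) ^ t.q *
      (((1 + ξ) * lb v * t.y) ^ a / a.factorial * ff t.j a) := fun a => by
    rw [← cw_mul, At.ev, VV, show (2 * ((1 + ξ) * lb v * t.y)) ^ a =
      ((1 + ξ) * (2 * lb v)) ^ a * (t.y : ℝ) ^ a by rw [← mul_pow]; ring]
    ring
  have e2 : t.toT.ev v ξ = t.m.ev v * ((lb v * t.y) ^ t.j * Real.exp ((1 + ξ) * lb v * t.y)) *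
      Real.exp ξ ^ (t.j + t.q) := by
    rw [At.toT, Tm.ev, Mono.ev_mul hv, ← Real.exp_nat_mul]
    simp only [Mono.ev]
    rw [abs_of_nonneg (by positivity : (0 : ℚ) ≤ (t.y : ℚ) ^ t.j), zpow_natCast,
      show (((t.j + t.q : ℕ) : ℝ) + t.y * lb v) * ξ = t.y * lb v * ξ + (t.j + t.q : ℕ) * ξ by ring,
      show (1 + ξ) * lb v * t.y = t.y * lb v + t.y * lb v * ξ by ring, Real.exp_add, Real.exp_add]
    push_cast
    rw [zero_add, zero_mul, sub_zero, mul_pow]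
    ring
  have h2 : (1 + ξ) ^ (t.j + t.q) ≤ Real.exp ξ ^ (t.j + t.q) :=
    pow_le_pow_left₀ (by positivity) (by linarith [Real.add_one_le_exp ξ]) _
  rw [Finset.sum_congr rfl fun a _ => e1 a, ← Finset.mul_sum, e2]
  refine (mul_le_mul_of_nonneg_left (mom_sum S t.j hx) (by positivity)).trans
    (le_trans (le_of_eq ?_) (mul_le_mul_of_nonneg_left h2 (by positivity)))
  rw [mul_assoc (1 + ξ), mul_pow, pow_add]
  ring

/-- the sum over the size of the frame, test side -/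
theorem sum_evA_le {ξ : ℝ} (hξ : 0 ≤ ξ) (K : ℕ) (L : List At) :
    ∑ a ∈ Finset.range (K + 1), cw a * (((1 + ξ) * VV v) ^ a * evA v ξ a L) ≤
      evT v ξ (toT L) := by
  induction L with
  | nil => simp [evA, evT, toT]
  | cons t L ih =>
    have e1 : ∀ a, evA v ξ a (t :: L) = t.ev v ξ a + evA v ξ a L := fun a => by simp [evA]
    have e2 : evT v ξ (toT (t :: L)) = t.toT.ev v ξ + evT v ξ (toT L) := by simp [evT, toT]
    simp only [e1, e2, mul_add, Finset.sum_add_distrib]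
    exact add_le_add (mom_At hv hξ _ t) ih

/-- the parameter of the Poisson sum of a term -/
def mom_x (v : ℝ) (t : Dt) : ℝ := lb v * (t.y * (1 + ((|t.c| : ℚ) : ℝ) / lb v))

theorem mom_x_nonneg (t : Dt) : 0 ≤ mom_x v t := by
  have h0 := mom_lb_pos hv
  have h1 := mom_tilt_pos hv t.c
  unfold mom_x
  positivity

omit hv in
theorem mom_yb_nonneg (t : Dt) : 0 ≤ t.yb := by
  unfold Dt.yb
  positivity

theorem mom_x_le (t : Dt) : mom_x v t ≤ lb v * t.yb := by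
  have h0 := mom_lb_pos hv
  have h1 : (0 : ℝ) ≤ ((|t.c| : ℚ) : ℝ) := by exact_mod_cast abs_nonneg t.c
  have h2 : ((|t.c| : ℚ) : ℝ) / lb v ≤ ((|t.c| : ℚ) : ℝ) / (9 / 8) :=
    div_le_div_of_nonneg_left h1 (by norm_num) (lb_ge hv)
  have h3 : ((t.yb : ℚ) : ℝ) = t.y * (1 + ((|t.c| : ℚ) : ℝ) / (9 / 8)) := by
    rw [Dt.yb, show (1.125 : ℚ) = 9 / 8 by norm_num]
    generalize |t.c| = u
    push_cast
    rfl
  rw [mom_x, h3]
  gcongr

omit hv in
theorem mom_Dt_eq (t : Dt) (b : ℕ) : cw b * (VV v ^ b * t.ev v b) =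
    t.m.ev v * (mom_x v t ^ b / b.factorial * ff t.j b) := by
  rw [← cw_mul, Dt.ev, VV, mom_x, ← mul_assoc 2, mul_pow (2 * lb v)]
  ring

theorem mom_s0 (t : Dt) :
    t.m.ev v * (mom_x v t ^ t.j * Real.exp (mom_x v t)) ≤ t.s0.ev v := by
  have h0 := mom_lb_pos hv
  have h1 := Mono.ev_nonneg hv t.m
  have h2 := mom_yb_nonneg t
  have e : (⟨t.yb ^ t.j, t.j, 0, t.y * |t.c|, t.y, 0⟩ : Mono).ev v =
      (lb v * t.yb) ^ t.j * Real.exp (mom_x v t) := by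
    simp only [Mono.ev]
    rw [abs_of_nonneg (by positivity : (0 : ℚ) ≤ t.yb ^ t.j), zpow_natCast, mom_x]
    generalize |t.c| = u
    push_cast
    rw [show lb v * (t.y * (1 + (u : ℝ) / lb v)) = t.y * u + t.y * lb v - 0 * v by
      field_simp; ring, mul_pow]
    ring
  rw [Dt.s0, Mono.ev_mul hv, e]
  exact mul_le_mul_of_nonneg_left (mul_le_mul_of_nonneg_right
    (pow_le_pow_left₀ (mom_x_nonneg hv t) (mom_x_le hv t) _) (Real.exp_pos _).le) h1

theorem mom_Dt (S : Finset ℕ) (t : Dt) :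
    ∑ b ∈ S, cw b * (VV v ^ b * t.ev v b) ≤ t.s0.ev v := by
  rw [Finset.sum_congr rfl fun b _ => mom_Dt_eq t b, ← Finset.mul_sum]
  exact (mul_le_mul_of_nonneg_left (mom_sum S t.j (mom_x_nonneg hv t))
    (Mono.ev_nonneg hv t.m)).trans (mom_s0 hv t)

theorem mom_sW (t : Dt) : evL v t.sW = t.s0.ev v * (((2 * t.j + 2 * (lb v * (1.0112 + t.yb))) ^ 2 +
    4 * (lb v * t.yb)) / VV v) := by
  have h0 := mom_lb_pos hv
  have h2 := mom_yb_nonneg t
  rw [Dt.sW, evL_cons, evL_cons, evL_cons, evL_nil, Mono.ev_mul hv, Mono.ev_mul hv,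
    Mono.ev_mul hv, ev_cM]
  generalize t.s0.ev v = s
  simp only [Mono.ev]
  rw [abs_of_nonneg (by positivity : (0 : ℚ) ≤ 2 * (1.0112 + t.yb) ^ 2),
    abs_of_nonneg (by positivity : (0 : ℚ) ≤ 4 * t.j * (1.0112 + t.yb) + 2 * t.yb),
    abs_of_nonneg (by positivity : (0 : ℚ) ≤ 2 * (t.j : ℚ) ^ 2), VV]
  push_cast
  simp only [zero_mul, add_zero, sub_zero, Real.exp_zero, zpow_one, _root_.zpow_neg,
    pow_zero]
  field_simp
  ring

theorem mom_Dt_sq (S : Finset ℕ) (t : Dt) :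
    ∑ b ∈ S, cw b * (VV v ^ b * t.ev v b) * ((1.0112 * VV v + 2 * b) ^ 2 / VV v) ≤
      evL v t.sW := by
  have h0 := mom_lb_pos hv
  have hV : 0 < VV v := by unfold VV; positivity
  have h1 := Mono.ev_nonneg hv t.m
  have h2 := mom_x_nonneg hv t
  have h3 := mom_x_le hv t
  have e1 : ∀ b : ℕ, cw b * (VV v ^ b * t.ev v b) * ((1.0112 * VV v + 2 * b) ^ 2 / VV v) =
      t.m.ev v / VV v *
        (mom_x v t ^ b / b.factorial * ff t.j b * (1.0112 * VV v + 2 * b) ^ 2) := fun b => by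
    rw [mom_Dt_eq]
    ring
  rw [Finset.sum_congr rfl fun b _ => e1 b, ← Finset.mul_sum, mom_sW hv]
  refine (mul_le_mul_of_nonneg_left (mom_sum_sq S t.j h2 _) (by positivity)).trans ?_
  have h4 : ((1.0112 * VV v + 2 * t.j + 2 * mom_x v t) ^ 2 + 4 * mom_x v t) / VV v ≤
      ((2 * t.j + 2 * (lb v * (1.0112 + t.yb))) ^ 2 + 4 * (lb v * t.yb)) / VV v := by
    refine div_le_div_of_nonneg_right (add_le_add (pow_le_pow_left₀ (by positivity) ?_ 2)
      (by linarith)) hV.le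
    rw [VV]
    linarith
  refine le_trans (le_of_eq ?_)
    (mul_le_mul (mom_s0 hv t) h4 (by positivity) (Mono.ev_nonneg hv _))
  ring

/-- the sum over the size of the frame, dual side -/
theorem sum_evD_le (S : Finset ℕ) (L : List Dt) :
    ∑ b ∈ S, cw b * (VV v ^ b * evD v b L) ≤ evL v (s0L L) := by
  induction L with
  | nil => simp [evD, evL, s0L]
  | cons t L ih =>
    have e1 : ∀ b, evD v b (t :: L) = t.ev v b + evD v b L := fun b => by simp [evD]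
    have e2 : evL v (s0L (t :: L)) = t.s0.ev v + evL v (s0L L) := by simp [evL, s0L]
    simp only [e1, e2, mul_add, Finset.sum_add_distrib]
    exact add_le_add (mom_Dt hv _ t) ih

theorem mom_evD_sq (S : Finset ℕ) (L : List Dt) :
    ∑ b ∈ S, cw b * (VV v ^ b * evD v b L) * ((1.0112 * VV v + 2 * b) ^ 2 / VV v) ≤
      evL v (sWL L) := by
  induction L with
  | nil => simp [evD, evL, sWL]
  | cons t L ih =>
    have e1 : ∀ b, evD v b (t :: L) = t.ev v b + evD v b L := fun b => by simp [evD]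
    have e2 : evL v (sWL (t :: L)) = evL v t.sW + evL v (sWL L) := by
      rw [sWL, List.flatMap_cons, evL_append, sWL]
    have e3 : ∀ b : ℕ, cw b * (VV v ^ b * evD v b (t :: L)) *
        ((1.0112 * VV v + 2 * b) ^ 2 / VV v) =
        cw b * (VV v ^ b * t.ev v b) * ((1.0112 * VV v + 2 * b) ^ 2 / VV v) +
        cw b * (VV v ^ b * evD v b L) * ((1.0112 * VV v + 2 * b) ^ 2 / VV v) := fun b => by
      rw [e1]
      ring
    rw [Finset.sum_congr rfl fun b _ => e3 b, Finset.sum_add_distrib, e2]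
    exact add_le_add (mom_Dt_sq hv _ t) ih

theorem sum_evD_Yb_le (S : Finset ℕ) (L : List Dt) (m : ℝ) :
    ∑ b ∈ S, cw b * (VV v ^ b * (evD v b L * Yb v m b)) ≤
      6.9 * evL v (s0L L) * m ^ 2 + 1.38 * evL v (sWL L) * vp v := by
  have e : ∀ b : ℕ, cw b * (VV v ^ b * (evD v b L * Yb v m b)) =
      6.9 * m ^ 2 * (cw b * (VV v ^ b * evD v b L)) + 1.38 * vp v *
        (cw b * (VV v ^ b * evD v b L) * ((1.0112 * VV v + 2 * b) ^ 2 / VV v)) := fun b => by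
    rw [Yb]
    ring
  have h1 := mul_le_mul_of_nonneg_left (sum_evD_le hv S L) (by positivity : 0 ≤ 6.9 * m ^ 2)
  have h2 := mul_le_mul_of_nonneg_left (mom_evD_sq hv S L)
    (mul_nonneg (by norm_num : (0 : ℝ) ≤ 1.38) (vp_pos hv).le)
  rw [Finset.sum_congr rfl fun b _ => e b, Finset.sum_add_distrib, ← Finset.mul_sum,
    ← Finset.mul_sum]
  linarith

theorem mom_lev (q a : ℕ) : ((q : ℝ) + a * lb v) * xi2 v ≤
    ((0.4825 * (q / 1.125 + a) : ℚ) : ℝ) := by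
  have h0 := mom_lb_pos hv
  have h1 : (q : ℝ) / lb v ≤ q / (9 / 8) :=
    div_le_div_of_nonneg_left (Nat.cast_nonneg q) (by norm_num) (lb_ge hv)
  have h2 : ((q : ℝ) + a * lb v) * xi2 v = 0.4825 * (q / lb v + a) := by
    rw [xi2]
    field_simp
  rw [h2, show (1.125 : ℚ) = 9 / 8 by norm_num, show (0.4825 : ℚ) = 193 / 400 by norm_num]
  push_cast
  linarith

theorem mom_Tm (b : ℕ) (t : Tm) (G : ℝ) {q a : ℕ} (h1 : t.q ≤ q) (h2 : t.a ≤ a) (h3 : q ≤ 10)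
    (h4 : a ≤ 7) : t.ev v (G + b * g1 v) ≤ t.m.ev v * Real.exp ((t.q + t.a * lb v) * G) *
      (1 + ((|tilt q a| : ℚ) : ℝ) / lb v) ^ b := by
  have h0 := mom_lb_pos hv
  have h5 : ((|tilt t.q t.a| : ℚ) : ℝ) ≤ ((|tilt q a| : ℚ) : ℝ) :=
    Rat.cast_le.2 (tilt_mono h1 h2 h3 h4)
  have h6 := (exp_tilt hv (h1.trans h3) (h2.trans h4)).trans
    (add_le_add_right (div_le_div_of_nonneg_right h5 h0.le) 1)
  rw [Tm.ev, show ((t.q : ℝ) + t.a * lb v) * (G + b * g1 v) =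
    (t.q + t.a * lb v) * G + b * ((t.q + t.a * lb v) * g1 v) by ring, Real.exp_add,
    Real.exp_nat_mul, ← mul_assoc]
  exact mul_le_mul_of_nonneg_left (pow_le_pow_left₀ (Real.exp_pos _).le h6 b)
    (mul_nonneg (Mono.ev_nonneg hv _) (Real.exp_pos _).le)

theorem mom_conv (q a : ℕ) {G : ℝ} (h0 : 0 ≤ G) (h1 : G ≤ xi2 v) :
    Real.exp ((q + a * lb v) * G) ≤
      1 + (⟨2.073, 1, 0, 0.4825 * (q / 1.125 + a), 0, 0⟩ : Mono).ev v * G := by
  have hl := mom_lb_pos hv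
  have hx : 0 < xi2 v := by unfold xi2; positivity
  have h2 := convexOn_exp.2 (Set.mem_univ 0) (Set.mem_univ ((q + a * lb v) * xi2 v))
    (sub_nonneg.2 ((div_le_one hx).2 h1)) (div_nonneg h0 hx.le) (sub_add_cancel _ _)
  have h3 := Real.exp_le_exp.2 (mom_lev hv q a)
  have h4 : G / xi2 v ≤ 2.073 * lb v * G := by
    rw [div_le_iff₀ hx, show 2.073 * lb v * G * xi2 v = 2.073 * 0.4825 * G by
      rw [xi2]; field_simp]
    linarith
  have h5 : 0 ≤ G / xi2 v := by positivity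
  have h6 := mul_le_mul h4 h3 (Real.exp_pos _).le (by positivity)
  simp only [smul_eq_mul, mul_zero, zero_add, Real.exp_zero, mul_one] at h2
  rw [show G / xi2 v * ((q + a * lb v) * xi2 v) = (q + a * lb v) * G by field_simp] at h2
  simp only [Mono.ev]
  rw [abs_of_nonneg (by norm_num : (0 : ℚ) ≤ 2.073), Rat.cast_zero, zero_mul, zero_mul, add_zero,
    sub_zero, zpow_one, pow_zero, show ((2.073 : ℚ) : ℝ) = 2.073 by norm_num]
  linarith

/-- convexity in the level: the level is `G + b g1` with `G` at most `xi2` -/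
theorem evT_lift_le (b : ℕ) {L : List Tm}
    (hL : ∀ t ∈ L, t.q ≤ 10 ∧ t.a ≤ 7) :
    ∃ c0 c1 : ℝ, 0 ≤ c0 ∧ 0 ≤ c1 ∧ c0 + c1 * evD v b GAM ≤ evD v b (liftT L) ∧
      ∀ G', 0 ≤ G' → G' ≤ xi2 v → evT v (G' + b * g1 v) L ≤ c0 + c1 * G' := by
  induction L with
  | nil => exact ⟨0, 0, le_rfl, le_rfl, by simp [evD, liftT], fun G _ _ => by simp [evT]⟩
  | cons t L ih =>
    obtain ⟨c0, c1, h0, h1, h2, h3⟩ := ih fun s hs => hL s (List.mem_cons_of_mem _ hs)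
    obtain ⟨k1, k2⟩ := hL t List.mem_cons_self
    have k3 := Mono.ev_nonneg hv t.m
    have k4 := pow_nonneg (mom_tilt_pos hv (tilt t.q t.a)) b
    have k5 := Mono.ev_nonneg hv ⟨2.073, 1, 0, 0.4825 * (t.q / 1.125 + t.a), 0, 0⟩
    have e1 : evD v b (liftT (t :: L)) = evD v b t.lift + evD v b (liftT L) := by
      rw [liftT, List.flatMap_cons, evD_append, liftT]
    have e2 : evD v b t.lift = t.m.ev v * (1 + ((|tilt t.q t.a| : ℚ) : ℝ) / lb v) ^ b +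
        t.m.ev v * (⟨2.073, 1, 0, 0.4825 * (t.q / 1.125 + t.a), 0, 0⟩ : Mono).ev v *
          (1 + ((|tilt t.q t.a| : ℚ) : ℝ) / lb v) ^ b * evD v b GAM := by
      rw [← Mono.ev_mul hv, ← evD_scD hv b _ _ (by simp [GAM, G2, G3, G4, G5, GM, GN]), Tm.lift,
        evD, List.map_cons, List.sum_cons, Dt.ev, ff_zero, Nat.cast_one, one_mul, mul_one, evD]
    refine ⟨_ + c0, _ + c1, add_nonneg (mul_nonneg k3 k4) h0,
      add_nonneg (mul_nonneg (mul_nonneg k3 k5) k4) h1, by rw [e1, e2]; linarith,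
      fun G g0 g1' => ?_⟩
    have e3 : evT v (G + b * g1 v) (t :: L) = t.ev v (G + b * g1 v) + evT v (G + b * g1 v) L := by
      simp [evT]
    have k6 := (mom_Tm hv b t G le_rfl le_rfl k1 k2).trans (mul_le_mul_of_nonneg_right
      (mul_le_mul_of_nonneg_left (mom_conv hv t.q t.a g0 g1') k3) k4)
    have k7 := h3 G g0 g1'
    rw [e3]
    linarith

theorem evT_L1_le (b : ℕ) {G : ℝ} (h0 : 0 ≤ G) (h1 : G ≤ xi2 v) :
    evT v (G + b * g1 v) L1 ≤ evL v L1u * (1 + ((|tilt 3 5| : ℚ) : ℝ) / lb v) ^ b := by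
  have hL : ∀ t ∈ L1, t.q ≤ 3 ∧ t.a ≤ 5 := by decide
  have hl := mom_lb_pos hv
  unfold evT evL L1u
  rw [List.map_map, ← List.sum_map_mul_right]
  refine List.sum_le_sum fun t ht => ?_
  refine (mom_Tm hv b t G (hL t ht).1 (hL t ht).2 (by norm_num) (by norm_num)).trans
    (mul_le_mul_of_nonneg_right ?_ (pow_nonneg (mom_tilt_pos hv _) b))
  simp only [Function.comp, Mono.ev_mul hv]
  refine mul_le_mul_of_nonneg_left ?_ (Mono.ev_nonneg hv _)
  simp only [Mono.ev]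
  rw [abs_one, Rat.cast_one, Rat.cast_zero, zero_mul, zero_mul, add_zero, sub_zero, zpow_zero,
    pow_zero, one_mul, one_mul, one_mul]
  exact Real.exp_le_exp.2 ((mul_le_mul_of_nonneg_left h1 (by positivity)).trans (mom_lev hv _ _))

end Pool.Agent.Eps.P
end
end
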