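import Pool.Agent.Lib.MP_3bda03_nt.P.RLp
import Pool.Agent.Lib.MP_3bda03_nt.P.Mom1
import Pool.Agent.Lib.MP_3bda03_nt.P.Count

-- part Pool.Agent.Lib.MP_3bda03_nt.P.Peel
section

/-!
Integrating the rows of a frame one after the other.
-/

set_option autoImplicit false

noncomputable section

open MeasureTheory Matrix
open scoped ENNReal

namespace Pool.Agent.Eps.P

open Pool.Agent.Eps.H

variable {ι : Type} [Fintype ι] {τ : Type} [Fintype τ] [DecidableEq τ]

/-- the integrand that involves only the rows in `S` -/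
def peelF (ρ : τ → (ι → ℝ) → ℝ≥0∞) (κ : τ → ℤ) (S : Finset τ) (G : (ι → ℝ) → ℝ≥0∞)
    (U : τ → ι → ℝ) : ℝ≥0∞ := (∏ i ∈ S, ρ i (U i)) * G (∑ i ∈ S, (κ i : ℝ) • U i)

omit [Fintype ι] [Fintype τ] [DecidableEq τ] in
theorem peel_meas_prod {ρ : τ → (ι → ℝ) → ℝ≥0∞} (hρ : ∀ i, Measurable (ρ i)) (S : Finset τ) :
    Measurable fun U : τ → ι → ℝ => ∏ i ∈ S, ρ i (U i) :=
  Finset.measurable_prod _ fun i _ => (hρ i).comp (measurable_pi_apply i)

omit [Fintype ι] [Fintype τ] [DecidableEq τ] in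
theorem peel_meas {ρ : τ → (ι → ℝ) → ℝ≥0∞} (hρ : ∀ i, Measurable (ρ i)) (κ : τ → ℤ) (S : Finset τ)
    {G : (ι → ℝ) → ℝ≥0∞} (hG : Measurable G) : Measurable (peelF ρ κ S G) :=
  (peel_meas_prod hρ S).mul (hG.comp (Finset.measurable_sum _ fun i _ =>
    (measurable_pi_apply i).const_smul (κ i : ℝ)))

omit [Fintype ι] [Fintype τ] in
theorem peel_prod_update (ρ : τ → (ι → ℝ) → ℝ≥0∞) {S : Finset τ} {a : τ} (ha : a ∉ S)
    (U : τ → ι → ℝ) (u : ι → ℝ) :
    ∏ i ∈ S, ρ i (Function.update U a u i) = ∏ i ∈ S, ρ i (U i) :=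
  Finset.prod_congr rfl fun i hi => by
    rw [Function.update_of_ne (ne_of_mem_of_not_mem hi ha)]

omit [Fintype τ] in
theorem peel_step (μ : Measure (ι → ℝ)) [SigmaFinite μ] {ρ : τ → (ι → ℝ) → ℝ≥0∞}
    (hρ : ∀ i, Measurable (ρ i)) (κ : τ → ℤ) {S : Finset τ} {a : τ} (ha : a ∉ S)
    {G G' : (ι → ℝ) → ℝ≥0∞} (hG : Measurable G) (hG' : Measurable G') {m : ℝ≥0∞}
    (h : ∀ U : τ → ι → ℝ, ∫⁻ u, ρ a u * G ((κ a : ℝ) • u + ∑ i ∈ S, (κ i : ℝ) • U i) ∂μ ≤
      m * G' (∑ i ∈ S, (κ i : ℝ) • U i)) (x : τ → ι → ℝ) :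
    lmarginal (fun _ => μ) (insert a S) (peelF ρ κ (insert a S) G) x ≤
      m * lmarginal (fun _ => μ) S (peelF ρ κ S G') x := by
  rw [lmarginal_insert' _ (peel_meas hρ κ _ hG) ha]
  refine (lmarginal_mono (g := fun U => m * peelF ρ κ S G' U) (fun U => ?_) x).trans_eq
    (lintegral_const_mul m ((peel_meas hρ κ S hG').comp measurable_updateFinset))
  have e : ∀ u, peelF ρ κ (insert a S) G (Function.update U a u) = (∏ i ∈ S, ρ i (U i)) *
      (ρ a u * G ((κ a : ℝ) • u + ∑ i ∈ S, (κ i : ℝ) • U i)) := fun u => by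
    rw [peelF, Finset.prod_insert ha, Finset.sum_insert ha, peel_prod_update ρ ha,
      Function.update_self, Finset.sum_congr rfl fun i hi => by
        rw [Function.update_of_ne (ne_of_mem_of_not_mem hi ha)]]
    ring
  simp only [e]
  rw [lintegral_const_mul _ ((hρ a).fun_mul (hG.fun_comp
    ((measurable_id'.fun_const_smul ((κ a : ℝ))).add_const _))), peelF, mul_left_comm]
  exact mul_le_mul_right (h U) _

omit [Fintype ι] [Fintype τ] in
theorem peel_rest (μ : Measure (ι → ℝ)) [SigmaFinite μ] {ρ : τ → (ι → ℝ) → ℝ≥0∞}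
    (hρ : ∀ i, Measurable (ρ i)) (R : Finset τ) {F : (τ → ι → ℝ) → ℝ≥0∞} (hF : Measurable F)
    (h : ∀ i ∈ R, ∀ U u, F (Function.update U i u) = F U) (x : τ → ι → ℝ) :
    lmarginal (fun _ => μ) R (fun U => (∏ i ∈ R, ρ i (U i)) * F U) x =
      F x * ∏ i ∈ R, ∫⁻ u, ρ i u ∂μ := by
  induction R using Finset.induction_on generalizing F with
  | empty => simp
  | insert a R ha ih =>
    rw [lmarginal_insert' _ ((peel_meas_prod hρ _).fun_mul hF) ha, Finset.prod_insert ha, ← mul_assoc,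
      ← ih (F := fun U => F U * ∫⁻ u, ρ a u ∂μ) (hF.mul_const _) fun i hi U u => by
        rw [h i (Finset.mem_insert_of_mem hi)]]
    congr 1
    funext U
    simp only [Finset.prod_insert ha, peel_prod_update ρ ha, Function.update_self,
      h a (Finset.mem_insert_self _ _), mul_assoc]
    rw [lintegral_mul_const _ (hρ a)]
    ring

omit [Fintype τ] in
theorem peel_ind (μ : Measure (ι → ℝ)) [SigmaFinite μ] {ρ : τ → (ι → ℝ) → ℝ≥0∞}
    (hρ : ∀ i, Measurable (ρ i)) (κ : τ → ℤ) (T : Finset τ) (x : τ → ι → ℝ) (l : List τ)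
    (hl : l.Nodup) (hT : ∀ i ∈ l, i ∉ T) (G : ℕ → (ι → ℝ) → ℝ≥0∞) (hG : ∀ j, Measurable (G j))
    (m : ℕ → ℝ≥0∞) (hstep : ∀ (j : ℕ) (hj : j < l.length) (z : ι → ℝ),
      ∫⁻ u, ρ l[j] u * G j ((κ l[j] : ℝ) • u + z) ∂μ ≤ m j * G (j + 1) z) :
    lmarginal (fun _ => μ) (l.toFinset ∪ T) (peelF ρ κ (l.toFinset ∪ T) (G 0)) x ≤
      (∏ j ∈ Finset.range l.length, m j) *
        lmarginal (fun _ => μ) T (peelF ρ κ T (G l.length)) x := by
  induction l generalizing G m with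
  | nil => simp
  | cons a l ih =>
    obtain ⟨h1, h2⟩ := List.nodup_cons.1 hl
    have ha : a ∉ l.toFinset ∪ T := fun h => (Finset.mem_union.1 h).elim
      (fun h => h1 (List.mem_toFinset.1 h)) (hT a List.mem_cons_self)
    rw [List.toFinset_cons, Finset.insert_union, List.length_cons, Finset.prod_range_succ',
      mul_comm _ (m 0), mul_assoc]
    exact (peel_step μ hρ κ ha (hG 0) (hG 1) (fun U => hstep 0 (Nat.succ_pos _) _) x).trans
      (mul_le_mul_right (ih h2 (fun i hi => hT i (List.mem_cons_of_mem _ hi)) (fun j => G (j + 1))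
        (fun j => hG _) (fun j => m (j + 1)) fun j hj z =>
          hstep (j + 1) (Nat.succ_lt_succ hj) z) _)

/-- `l` lists the rows that are integrated with a gain; the last step may be restricted to the
shift zero when no other row occurs -/
theorem peel_list (μ : Measure (ι → ℝ)) [SigmaFinite μ] (ρ : τ → (ι → ℝ) → ℝ≥0∞)
    (hρ : ∀ i, Measurable (ρ i)) (κ : τ → ℤ) (l : List τ) (k : τ) (hl : (l ++ [k]).Nodup)
    (G : ℕ → (ι → ℝ) → ℝ≥0∞) (hG : ∀ j, Measurable (G j)) (m : ℕ → ℝ≥0∞) (mk : ℝ≥0∞)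
    (hstep : ∀ (j : ℕ) (hj : j < l.length) (z : ι → ℝ),
      ∫⁻ u, ρ l[j] u * G j ((κ l[j] : ℝ) • u + z) ∂μ ≤ m j * G (j + 1) z)
    (hlast : ∀ z : ι → ℝ, (z = 0 ∨ ∃ x, x ∉ l ++ [k] ∧ κ x ≠ 0) →
      ∫⁻ u, ρ k u * G l.length ((κ k : ℝ) • u + z) ∂μ ≤ mk) :
    ∫⁻ U, (∏ i, ρ i (U i)) * G 0 (lv κ U) ∂pw τ μ ≤
      (∏ j ∈ Finset.range l.length, m j) * mk *
        ∏ i ∈ Finset.univ.filter (fun i => i ∉ l ++ [k]), ∫⁻ u, ρ i u ∂μ := by
  obtain ⟨h1, -, h2⟩ := List.nodup_append.1 hl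
  generalize hR : Finset.univ.filter (fun i => i ∉ l ++ [k]) = R
  have hm : ∀ i, i ∈ R ↔ i ∉ l ++ [k] := fun i => by simp [← hR]
  have hk : k ∉ R := by simp [hm]
  have hu : l.toFinset ∪ insert k R = Finset.univ := by
    ext i
    by_cases h : i ∈ l <;> by_cases h' : i = k <;> simp [hm, h, h']
  have h3 := peel_ind μ hρ κ (insert k R) 0 l h1 (fun i hi h => (Finset.mem_insert.1 h).elim
    (h2 i hi k (List.mem_singleton_self k)) fun h => (hm i).1 h (List.mem_append_left _ hi))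
    G hG m hstep
  have h4 := peel_step μ hρ κ hk (hG l.length) (G' := fun _ => 1) measurable_const (m := mk)
    (fun U => (hlast _ (or_iff_not_imp_right.2 fun h => Finset.sum_eq_zero fun i hi => by
      have : κ i = 0 := by_contra fun h' => h ⟨i, (hm i).1 hi, h'⟩
      rw [this, Int.cast_zero, zero_smul])).trans_eq (mul_one _).symm) 0
  have h5 := peel_rest μ hρ R (F := fun _ => 1) measurable_const (fun _ _ _ _ => rfl) 0
  rw [hu, ← lintegral_eq_lmarginal_univ] at h3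
  rw [mul_assoc]
  refine le_trans (le_of_eq ?_) (h3.trans (mul_le_mul_right (h4.trans_eq ?_) _))
  · exact lintegral_congr fun U => by rw [lv, vecMul_eq_sum]; rfl
  · rw [one_mul] at h5
    rw [← h5]
    rfl

/-- exact form for one row -/
theorem peel_one (μ : Measure (ι → ℝ)) [SigmaFinite μ] (ρ : (ι → ℝ) → ℝ≥0∞) (hρ : Measurable ρ)
    (i : τ) (f : (ι → ℝ) → ℝ≥0∞) (hf : Measurable f) :
    ∫⁻ U, (∏ j, ρ (U j)) * f (U i) ∂pw τ μ =
      (∫⁻ u, ρ u * f u ∂μ) * (∫⁻ u, ρ u ∂μ) ^ (Fintype.card τ - 1) := by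
  have hF : Measurable fun U : τ → ι → ℝ => ρ (U i) * f (U i) :=
    (hρ.mul hf).comp (measurable_pi_apply i)
  have e : ∀ U : τ → ι → ℝ, (∏ j, ρ (U j)) * f (U i) =
      (∏ j ∈ Finset.univ.erase i, ρ (U j)) * (ρ (U i) * f (U i)) := fun U => by
    rw [← Finset.mul_prod_erase _ _ (Finset.mem_univ i)]
    ring
  refine ((lintegral_congr e).trans (lintegral_eq_lmarginal_univ (μ := fun _ : τ => μ) 0)).trans ?_
  rw [lmarginal_erase _ ((peel_meas_prod (fun _ => hρ) _).fun_mul hF) (Finset.mem_univ i),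
    ← lintegral_mul_const _ (hρ.fun_mul hf)]
  refine lintegral_congr fun u => ?_
  rw [peel_rest μ (fun _ => hρ) _ hF fun j hj U u => by
    rw [Function.update_of_ne (Finset.ne_of_mem_erase hj).symm], Function.update_self,
    Finset.prod_const, Finset.card_erase_of_mem (Finset.mem_univ i), Finset.card_univ]

/-- exact form for two rows -/
theorem peel_two (μ : Measure (ι → ℝ)) [SigmaFinite μ] (ρ : (ι → ℝ) → ℝ≥0∞) (hρ : Measurable ρ)
    {i j : τ} (hij : i ≠ j) (f : (ι → ℝ) → (ι → ℝ) → ℝ≥0∞)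
    (hf : Measurable (Function.uncurry f)) :
    ∫⁻ U, (∏ x, ρ (U x)) * f (U i) (U j) ∂pw τ μ =
      (∫⁻ u, ∫⁻ u', ρ u * ρ u' * f u u' ∂μ ∂μ) * (∫⁻ u, ρ u ∂μ) ^ (Fintype.card τ - 2) := by
  have hj : j ∈ Finset.univ.erase i := Finset.mem_erase.2 ⟨hij.symm, Finset.mem_univ j⟩
  have h0 : Measurable fun p : (ι → ℝ) × (ι → ℝ) => ρ p.1 * ρ p.2 * f p.1 p.2 :=
    ((hρ.comp measurable_fst).mul (hρ.comp measurable_snd)).mul hf
  have hF : Measurable fun U : τ → ι → ℝ => ρ (U i) * ρ (U j) * f (U i) (U j) :=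
    h0.comp (f := fun U : τ → ι → ℝ => (U i, U j))
      ((measurable_pi_apply i).prodMk (measurable_pi_apply j))
  have e : ∀ U : τ → ι → ℝ, (∏ x, ρ (U x)) * f (U i) (U j) =
      (∏ x ∈ (Finset.univ.erase i).erase j, ρ (U x)) * (ρ (U i) * ρ (U j) * f (U i) (U j)) :=
    fun U => by
      rw [← Finset.mul_prod_erase _ _ (Finset.mem_univ i), ← Finset.mul_prod_erase _ _ hj]
      ring
  have hm := (peel_meas_prod (fun _ => hρ) ((Finset.univ.erase i).erase j)).fun_mul hF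
  refine ((lintegral_congr e).trans (lintegral_eq_lmarginal_univ (μ := fun _ : τ => μ) 0)).trans ?_
  rw [lmarginal_erase _ hm (Finset.mem_univ i), ← lintegral_mul_const _
    (f := fun u => ∫⁻ u', ρ u * ρ u' * f u u' ∂μ) h0.lintegral_prod_right']
  refine lintegral_congr fun u => ?_
  rw [lmarginal_erase _ hm hj, ← lintegral_mul_const _ (f := fun u' => ρ u * ρ u' * f u u')
    (h0.comp measurable_prodMk_left)]
  refine lintegral_congr fun u' => ?_
  rw [peel_rest μ (fun _ => hρ) _ hF fun x hx U u => by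
    rw [Function.update_of_ne (Finset.ne_of_mem_erase hx).symm, Function.update_of_ne
      (Finset.ne_of_mem_erase (Finset.mem_of_mem_erase hx)).symm], Function.update_self,
    Function.update_of_ne hij, Function.update_self, Finset.prod_const,
    Finset.card_erase_of_mem hj, Finset.card_erase_of_mem (Finset.mem_univ i), Finset.card_univ]
  rfl

theorem lintegral_fs' (μ : Measure (Matrix τ ι ℝ)) (S : Set (τ → ℤ)) {F : Matrix τ ι ℝ → ℝ≥0∞}
    (hF : Measurable F) {f : (ι → ℝ) → ℝ≥0∞} (hf : Measurable f) :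
    ∫⁻ U, F U * fs' S f U ∂μ = cs S fun κ => ∫⁻ U, F U * f (lv κ U) ∂μ := by
  simp only [fs', cs, ← ENNReal.tsum_mul_left]
  exact lintegral_tsum fun κ => (hF.mul (hf.comp (measurable_lv κ.1))).aemeasurable

end Pool.Agent.Eps.P
end
end

-- part Pool.Agent.Lib.MP_3bda03_nt.P.Chain1
section

/-!
Gaussian chains against a good intensity measure.
-/

set_option autoImplicit false

noncomputable section

open MeasureTheory Matrix
open scoped ENNReal

namespace Pool.Agent.Eps.P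

open Pool.Agent.Eps.H

variable {ι : Type} [Fintype ι] {τ : Type} [Fintype τ] [DecidableEq τ]
  {Λ : Measure (ι → ℝ)} [SigmaFinite Λ] {ξ : ℝ} {h : (ι → ℝ) → ℝ}

/-- exponent of a chain of `m` Gaussian steps -/
def chE (a t : ℝ) (m : ℕ) : ℝ :=
  m * (a - 1) - ((m : ℝ) - 1) * Real.log a - Real.log (a + m * t)

omit [SigmaFinite Λ] in
theorem lintegral_iA : ∫⁻ y, iA y ∂Λ = Λ (AA ι) := by
  exact lintegral_indicator_one measurableSet_AA

variable (hn : 97 ≤ Fintype.card ι) (G : Good Λ ξ)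
include hn G

theorem Good.mass : Λ (AA ι) ≤ ENNReal.ofReal ((1 + ξ) * VV (hd ι)) := by
  have h := G.rad 0 le_rfl one_pos
  have e : ∀ y : ι → ℝ, iA y * Gs 0 y = iA y := fun y => by simp [Gs, gs]
  simp only [e, lintegral_iA] at h
  simpa [FF] using h

theorem Good.lintegral_IA :
    ∫⁻ U, IA U ∂pw τ Λ ≤ ENNReal.ofReal (((1 + ξ) * VV (hd ι)) ^ Fintype.card τ) := by
  have hV : 0 ≤ (1 + ξ) * VV (hd ι) :=
    mul_nonneg (by linarith [G.nonneg]) (by have := lb_ge (hd_ge hn); unfold VV; linarith)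
  have e : (IA : Matrix τ ι ℝ → ℝ≥0∞) =
      (Set.pi Set.univ fun _ : τ => AA ι).indicator (1 : (τ → ι → ℝ) → ℝ≥0∞) := by
    funext U
    by_cases hU : ∀ i, U i ∈ AA ι
    · rw [IA_eq_one hU, Set.indicator_of_mem (Set.mem_univ_pi.2 hU)]
      rfl
    · rw [IA_eq_zero hU, Set.indicator_of_notMem (fun k => hU (Set.mem_univ_pi.1 k))]
  have e2 : ∫⁻ U, IA U ∂pw τ Λ = Λ (AA ι) ^ Fintype.card τ := by
    rw [e]
    refine (lintegral_indicator_one (μ := (Measure.pi fun _ : τ => Λ : Measure (τ → ι → ℝ)))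
      (MeasurableSet.univ_pi fun _ => measurableSet_AA)).trans ?_
    rw [Measure.pi_pi, Finset.prod_const, Finset.card_univ]
  rw [e2, ENNReal.ofReal_pow hV]
  exact pow_le_pow_left' (G.mass hn) _

theorem Good.exp_neg_le :
    Real.exp (-((Λ (AA ι)).toReal / 2)) ≤
      1.0001 * Real.exp (-lb (hd ι)) * Real.exp (lb (hd ι) * ξ) := by
  have hv := hd_ge hn
  have h1 := lb_ge hv
  have hq0 : 0 ≤ (0.8 : ℝ) ^ hd ι := Real.rpow_nonneg (by norm_num) _
  have hq1 : (0.8 : ℝ) ^ hd ι ≤ 1 := Real.rpow_le_one (by norm_num) (by norm_num) (by linarith)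
  have h2 := G.lo
  rw [volume_AA hn, ← ENNReal.ofReal_mul' (mul_nonneg (by unfold VV; linarith) (by linarith)),
    ENNReal.ofReal_le_iff_le_toReal ((G.mass hn).trans_lt ENNReal.ofReal_lt_top).ne] at h2
  have h3 := core_small hv
  have h4 : 0 ≤ lb (hd ι) * ξ * (0.8 : ℝ) ^ hd ι :=
    mul_nonneg (mul_nonneg (by linarith) G.nonneg) hq0
  calc Real.exp (-((Λ (AA ι)).toReal / 2))
      ≤ Real.exp (lb (hd ι) * (0.8 : ℝ) ^ hd ι + -lb (hd ι) + lb (hd ι) * ξ) := by
        refine Real.exp_le_exp.2 ?_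
        unfold VV at h2
        nlinarith
    _ ≤ _ := by
        rw [Real.exp_add, Real.exp_add]
        gcongr

theorem Good.gauss_mul {t g0 c : ℝ} (ht : 0 < t) (hg : 0 < g0) (h4 : 3 * t * g0 ^ 2 ≤ 4)
    (hc : g0 ≤ |c|) (z : ι → ℝ) :
    ∫⁻ u, Gs t (c • u + z) ∂Λ ≤ ENNReal.ofReal
      ((1 + ξ) * (th (hd ι) / (t * g0 ^ 2)) ^ hd ι * (g0 / |c|) ^ (5 * hd ι / 3)) := by
  have hv := hd_ge hn
  have hth := th_ge hv
  have hc0 : 0 < |c| := hg.trans_le hc
  have hc1 : c ≠ 0 := abs_pos.1 hc0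
  have hr0 : 0 < g0 / |c| := div_pos hg hc0
  have hr1 : g0 / |c| ≤ 1 := (div_le_one hc0).2 hc
  simp only [Gs_smul t c hc1]
  refine (G.gauss _ (by positivity) _).trans (ENNReal.ofReal_le_ofReal ?_)
  have e1 : th (hd ι) / (t * c ^ 2) = th (hd ι) / (t * g0 ^ 2) * (g0 / |c|) ^ (2 : ℝ) := by
    rw [Real.rpow_two, div_pow, sq_abs]
    field_simp
  have e2 : max 1 (3 * (t * c ^ 2) / 4) ≤ (g0 / |c|) ^ (-2 : ℝ) := by
    refine max_le (Real.one_le_rpow_of_pos_of_le_one_of_nonpos hr0 hr1 (by norm_num)) ?_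
    rw [Real.rpow_neg hr0.le, Real.rpow_two, div_pow, sq_abs, inv_div, le_div_iff₀ (by positivity)]
    nlinarith [sq_nonneg c]
  have e3 : max 1 (3 * (t * c ^ 2) / 4) ^ (hd ι / 6) ≤ (g0 / |c|) ^ (-2 * (hd ι / 6)) := by
    rw [Real.rpow_mul hr0.le]
    exact Real.rpow_le_rpow (le_max_of_le_left zero_le_one) e2 (by linarith)
  have e4 : (g0 / |c|) ^ (5 * hd ι / 3) =
      (g0 / |c|) ^ (2 * hd ι) * (g0 / |c|) ^ (-2 * (hd ι / 6)) := by
    rw [← Real.rpow_add hr0]
    congr 1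
    ring
  have h0 : 0 ≤ th (hd ι) / (t * g0 ^ 2) := div_nonneg (by linarith) (by positivity)
  rw [e1, Real.mul_rpow h0 (Real.rpow_nonneg hr0.le _), ← Real.rpow_mul hr0.le, e4,
    ← mul_assoc (1 + ξ), ← mul_assoc _ ((g0 / |c|) ^ (2 * hd ι))]
  have h1 : 0 ≤ 1 + ξ := by linarith [G.nonneg]
  exact mul_le_mul_of_nonneg_left e3 (mul_nonneg (mul_nonneg h1
    (Real.rpow_nonneg h0 _)) (Real.rpow_nonneg hr0.le _))

theorem Good.step {a t c : ℝ} (ha : 0 < a) (ht : 0 ≤ t) (h4 : a + t ≤ 4 / 3) (hc : |c| = 1)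
    (z : ι → ℝ) :
    ∫⁻ u, iA u * Gs t (c • u + z) ∂Λ ≤ ENNReal.ofReal ((1 + ξ) * VV (hd ι) * sg (hd ι) *
      Real.exp (hd ι * (a - 1 - Real.log (a + t)))) * Gs (a * t / (a + t)) z := by
  have hv := hd_ge hn
  have hth := th_ge hv
  have hc2 : c ^ 2 = 1 := by rw [← sq_abs, hc, one_pow]
  have hat : 0 < a + t := by linarith
  have h1 : ∀ u : ι → ℝ, iA u * Gs t (c • u + z) ≤
      ENNReal.ofReal (Real.exp (a * hd ι)) * Gs (a * t / (a + t)) z *
        Gs (a + t) (u + (t * c / (a + t)) • z) := fun u => by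
    have h2 := Gs_mul (a := a) (t := t) c (by rw [hc2]; linarith) u z
    rw [hc2, mul_one] at h2
    rw [mul_assoc, ← h2, ← mul_assoc]
    exact mul_le_mul_left ((iA_le_iB u).trans (iB_le_Gs hn ha.le u)) _
  refine (lintegral_mono h1).trans ?_
  have hm : Measurable fun u : ι → ℝ => Gs (a + t) (u + (t * c / (a + t)) • z) :=
    (measurable_Gs _).comp (measurable_add_const _)
  rw [lintegral_const_mul _ hm, mul_right_comm]
  refine mul_le_mul_left ?_ _
  refine (mul_le_mul_right (G.gauss _ hat _) _).trans ?_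
  rw [← ENNReal.ofReal_mul (Real.exp_pos _).le]
  refine ENNReal.ofReal_le_ofReal (le_of_eq ?_)
  rw [max_eq_left (by linarith), Real.one_rpow, Real.div_rpow (by linarith) hat.le, th_pow hv,
    Real.rpow_def_of_pos hat,
    show hd ι * (a - 1 - Real.log (a + t)) = a * hd ι + -hd ι - Real.log (a + t) * hd ι by ring,
    Real.exp_sub, Real.exp_add]
  ring

end Pool.Agent.Eps.P
end
end

-- part Pool.Agent.Lib.MP_3bda03_nt.P.Chain
section

/-!
Gaussian chains against a good intensity measure.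
-/

set_option autoImplicit false

noncomputable section

open MeasureTheory Matrix
open scoped ENNReal

namespace Pool.Agent.Eps.P

open Pool.Agent.Eps.H

variable {ι : Type} [Fintype ι] {τ : Type} [Fintype τ] [DecidableEq τ]
  {Λ : Measure (ι → ℝ)} [SigmaFinite Λ] {ξ : ℝ} {h : (ι → ℝ) → ℝ}

omit [Fintype ι] [SigmaFinite Λ] in
theorem chain_card (L : List τ) (hL : L.Nodup) :
    (Finset.univ.filter (fun i => i ∉ L)).card + L.length = Fintype.card τ := by
  have h1 : (Finset.univ.filter (fun i => i ∉ L)) = L.toFinsetᶜ := by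
    ext i; simp
  rw [h1, ← List.toFinset_card_of_nodup hL, add_comm, Finset.card_add_card_compl]

omit [Fintype ι] [SigmaFinite Λ] in
theorem chain_abs {κ : τ → ℤ} (hκ : mx κ ≤ 1) {x : τ} (hx : κ x ≠ 0) :
    κ x = 1 ∨ κ x = -1 := by
  have := le_mx κ x
  omega

omit [Fintype ι] [SigmaFinite Λ] in
theorem chain_abs' {κ : τ → ℤ} (hκ : mx κ ≤ 1) {x : τ} (hx : κ x ≠ 0) :
    |(κ x : ℝ)| = 1 := by
  rcases chain_abs hκ hx with h | h <;> simp [h]

/-- the widths along a chain -/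
def chain_t (a t : ℝ) (j : ℕ) : ℝ := a * t / (a + j * t)

theorem chain_t_zero {a : ℝ} (ha : 0 < a) (t : ℝ) : chain_t a t 0 = t := by
  unfold chain_t
  simp only [Nat.cast_zero, zero_mul, add_zero]
  field_simp

theorem chain_t_nonneg {a t : ℝ} (ha : 0 < a) (ht : 0 ≤ t) (j : ℕ) : 0 ≤ chain_t a t j := by
  unfold chain_t; positivity

theorem chain_t_le {a t : ℝ} (ha : 0 < a) (ht : 0 ≤ t) (j : ℕ) : chain_t a t j ≤ t := by
  unfold chain_t
  rw [div_le_iff₀ (by positivity)]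
  have : 0 ≤ t * (j * t) := by positivity
  nlinarith

theorem chain_t_add {a t : ℝ} (ha : 0 < a) (ht : 0 ≤ t) (j : ℕ) :
    a + chain_t a t j = a * (a + ((j + 1 : ℕ) : ℝ) * t) / (a + j * t) := by
  unfold chain_t
  have : 0 < a + j * t := by positivity
  push_cast
  field_simp
  ring

theorem chain_t_succ {a t : ℝ} (ha : 0 < a) (ht : 0 ≤ t) (j : ℕ) :
    a * chain_t a t j / (a + chain_t a t j) = chain_t a t (j + 1) := by
  rw [chain_t_add ha ht]
  unfold chain_t
  have h1 : 0 < a + j * t := by positivity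
  have h2 : 0 < a + ((j + 1 : ℕ) : ℝ) * t := by positivity
  field_simp

theorem chain_sum {a t : ℝ} (ha : 0 < a) (ht : 0 ≤ t) (m : ℕ) :
    ∑ j ∈ Finset.range m, (a - 1 - Real.log (a + chain_t a t j)) = chE a t m := by
  induction m with
  | zero => simp [chE]
  | succ m ih =>
    rw [Finset.sum_range_succ, ih, chain_t_add ha ht]
    have h1 : 0 < a + m * t := by positivity
    have h2 : 0 < a + ((m + 1 : ℕ) : ℝ) * t := by positivity
    rw [Real.log_div (by positivity) h1.ne', Real.log_mul ha.ne' h2.ne']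
    unfold chE
    push_cast
    ring

theorem chain_prod {a t : ℝ} (ha : 0 < a) (ht : 0 ≤ t) (m : ℕ) {M s v : ℝ} (hM : 0 ≤ M)
    (hs : 0 ≤ s) :
    ∏ j ∈ Finset.range m,
        ENNReal.ofReal (M * s * Real.exp (v * (a - 1 - Real.log (a + chain_t a t j)))) =
      ENNReal.ofReal (M ^ m * (s ^ m * Real.exp (v * chE a t m))) := by
  rw [← ENNReal.ofReal_prod_of_nonneg (fun j _ => by positivity)]
  congr 1
  rw [Finset.prod_mul_distrib, Finset.prod_const, Finset.card_range, ← Real.exp_sum,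
    ← Finset.mul_sum, chain_sum ha ht, mul_pow]
  ring

omit [SigmaFinite Λ] in
theorem chain_Gs_neg (t : ℝ) (u : ι → ℝ) : Gs t (-u) = Gs t u := by
  unfold Gs gs; rw [nx_neg]

theorem chain_log : Real.log (1 - 1 / 4) ≤ -0.2876 := by
  have h1 : Real.exp 0.2876 ≤ 4 / 3 := by
    have := Real.exp_bound' (x := 0.2876) (by norm_num) (by norm_num) (n := 5) (by norm_num)
    refine this.trans ?_
    norm_num [Finset.sum_range_succ, Nat.factorial]
  rw [Real.log_le_iff_le_exp (by norm_num), Real.exp_neg, le_inv_comm₀ (by norm_num)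
    (Real.exp_pos _)]
  norm_num at h1 ⊢
  exact h1

variable (hn : 97 ≤ Fintype.card ι) (G : Good Λ ξ)
include hn G

omit [SigmaFinite Λ] in
theorem chain_M : 0 < (1 + ξ) * VV (hd ι) := by
  have h1 := lb_ge (hd_ge hn)
  have h2 := G.nonneg
  unfold VV
  positivity

theorem chain_rest (L : List τ) :
    ∏ _i ∈ Finset.univ.filter (fun i => i ∉ L), ∫⁻ u, iA u ∂Λ ≤
      ENNReal.ofReal (((1 + ξ) * VV (hd ι)) ^ (Finset.univ.filter (fun i => i ∉ L)).card) := by
  rw [Finset.prod_const, lintegral_iA, ENNReal.ofReal_pow (chain_M hn G).le]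
  exact pow_le_pow_left' (G.mass hn) _

/-- the common part of the two chains -/
theorem chain_main {a t : ℝ} (ha : 0 < a) (ht : 0 ≤ t) (h4 : a + t ≤ 4 / 3) {κ : τ → ℤ}
    (hκ : mx κ ≤ 1) (l : List τ) (k : τ) (hl : (l ++ [k]).Nodup) (hne : ∀ x ∈ l ++ [k], κ x ≠ 0)
    {c : ℝ} (hc : 0 ≤ c)
    (hlast : ∀ z : ι → ℝ, (z = 0 ∨ ∃ x, x ∉ l ++ [k] ∧ κ x ≠ 0) →
      ∫⁻ u, iA u * Gs (chain_t a t l.length) ((κ k : ℝ) • u + z) ∂Λ ≤
        ENNReal.ofReal ((1 + ξ) * VV (hd ι) * c)) :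
    ∫⁻ U, IA U * Gs t (lv κ U) ∂pw τ Λ ≤ ENNReal.ofReal
      (((1 + ξ) * VV (hd ι)) ^ Fintype.card τ *
        (sg (hd ι) ^ l.length * Real.exp (hd ι * chE a t l.length) * c)) := by
  have hM := chain_M hn G
  have hs : 0 ≤ sg (hd ι) := by linarith [sg_ge (hd_ge hn)]
  have key := peel_list Λ (fun _ => iA) (fun _ => measurable_iA) κ l k hl
    (fun j => Gs (chain_t a t j)) (fun j => measurable_Gs _)
    (fun j => ENNReal.ofReal ((1 + ξ) * VV (hd ι) * sg (hd ι) *
      Real.exp (hd ι * (a - 1 - Real.log (a + chain_t a t j)))))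
    (ENNReal.ofReal ((1 + ξ) * VV (hd ι) * c))
    (fun j hj z => by
      have h := G.step hn (a := a) (t := chain_t a t j) (c := (κ l[j] : ℝ)) ha
        (chain_t_nonneg ha ht j) (by linarith [chain_t_le ha ht j])
        (chain_abs' hκ (hne _ (List.mem_append_left _ (List.getElem_mem hj)))) z
      rw [chain_t_succ ha ht] at h
      exact h) hlast
  simp only [chain_t_zero ha] at key
  refine le_trans key ?_
  rw [chain_prod ha ht _ hM.le hs]
  refine le_trans (mul_le_mul_right (chain_rest hn G _) _) ?_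
  rw [← ENNReal.ofReal_mul (by positivity), ← ENNReal.ofReal_mul (by positivity),
    ← chain_card _ hl]
  refine le_of_eq ?_
  congr 1
  simp only [List.length_append, List.length_singleton, pow_add, pow_one]
  ring

theorem Good.chain_ge {a t : ℝ} (ha : 0 < a) (ht : 0 ≤ t) (h4 : a + t ≤ 4 / 3) {m : ℕ}
    (hm : 1 ≤ m) {κ : τ → ℤ} (hκ : κ ∈ CG τ m) :
    ∫⁻ U, IA U * Gs t (lv κ U) ∂pw τ Λ ≤ ENNReal.ofReal
      (((1 + ξ) * VV (hd ι)) ^ Fintype.card τ *
        (sg (hd ι) ^ m * Real.exp (hd ι * chE a t m))) := by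
  obtain ⟨h1, h2⟩ := hκ
  obtain ⟨j, rfl⟩ : ∃ j, m = j + 1 := ⟨m - 1, by omega⟩
  have hne : Nonempty τ := by
    have : 0 < spt κ := by omega
    obtain ⟨i, _⟩ := Finset.card_pos.1 this
    exact ⟨i⟩
  obtain ⟨l, k, rfl, hl, hx, -, -, -⟩ := exists_list h2 hne.some
  have hs : 0 ≤ sg (hd ι) := by linarith [sg_ge (hd_ge hn)]
  have := chain_main hn G ha ht h4 h1 l k hl hx
    (c := sg (hd ι) * Real.exp (hd ι * (a - 1 - Real.log (a + chain_t a t l.length))))
    (by positivity) (fun z _ => by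
      have h := G.step hn (a := a) (t := chain_t a t l.length) (c := (κ k : ℝ)) ha
        (chain_t_nonneg ha ht _) (by linarith [chain_t_le ha ht l.length])
        (chain_abs' h1 (hx k (by simp))) z
      refine h.trans ?_
      rw [← mul_assoc]
      refine mul_le_of_le_one_right' (Gs_le_one hn ?_ _)
      have := chain_t_nonneg ha ht l.length
      positivity)
  refine this.trans (le_of_eq ?_)
  congr 2
  rw [← chain_sum ha ht (l.length + 1), Finset.sum_range_succ, chain_sum ha ht, mul_add,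
    Real.exp_add]
  ring

theorem Good.chain_eq {a t : ℝ} (ha : 0 < a) (ht : 0 ≤ t) (h4 : a + t ≤ 4 / 3) {m : ℕ}
    (h1 : a * t / (a + m * t) < 1) {κ : τ → ℤ} (hκ : κ ∈ CU τ (m + 1)) :
    ∫⁻ U, IA U * Gs t (lv κ U) ∂pw τ Λ ≤ ENNReal.ofReal
      (((1 + ξ) * VV (hd ι)) ^ Fintype.card τ * (sg (hd ι) ^ m * Real.exp (hd ι * chE a t m) *
        FF (hd ι) (a * t / (a + m * t)))) := by
  obtain ⟨h2, h3⟩ := hκ
  have hne : Nonempty τ := by
    have : 0 < spt κ := by omega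
    obtain ⟨i, _⟩ := Finset.card_pos.1 this
    exact ⟨i⟩
  obtain ⟨l, k, rfl, hl, hx, -, -, hz⟩ := exists_list h3.ge hne.some
  refine chain_main hn G ha ht h4 h2 l k hl hx ?_ ?_
  · unfold FF
    have : 0 < 1 - a * t / (a + l.length * t) := by linarith
    positivity
  · intro z hz'
    have hz0 : z = 0 := by
      rcases hz' with h | ⟨x, hx1, hx2⟩
      · exact h
      · exact absurd (hz h3 x hx1) hx2
    subst hz0
    have hr := G.rad (chain_t a t l.length) (chain_t_nonneg ha ht _) h1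
    refine le_trans (le_of_eq ?_) hr
    congr 1
    ext u
    rcases chain_abs h2 (hx k (by simp)) with h | h
    · simp [h]
    · simp [h, chain_Gs_neg]

theorem Good.chain_non {t g0 : ℝ} (ht : 0 < t) (hg : 0 < g0) (h4 : 3 * t * g0 ^ 2 ≤ 4)
    {κ : τ → ℤ} (hκ : g0 ≤ mx κ) :
    ∫⁻ U, IA U * Gs t (lv κ U) ∂pw τ Λ ≤ ENNReal.ofReal
      (((1 + ξ) * VV (hd ι)) ^ Fintype.card τ *
        ((th (hd ι) / (t * g0 ^ 2)) ^ hd ι / VV (hd ι)) * (g0 / mx κ) ^ (5 * hd ι / 3)) := by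
  have hM := chain_M hn G
  have hm : 1 ≤ mx κ := by
    have : (0 : ℝ) < mx κ := lt_of_lt_of_le hg hκ
    exact_mod_cast this
  obtain ⟨k, hk⟩ := exists_mx hm
  have hk' : |(κ k : ℝ)| = mx κ := by
    rw [← hk, Nat.cast_natAbs]; push_cast; rfl
  have hl : (([] : List τ) ++ [k]).Nodup := by simp
  have key := peel_list Λ (fun _ => iA) (fun _ => measurable_iA) κ [] k hl
    (fun _ => Gs t) (fun j => measurable_Gs _) (fun _ => 1)
    (ENNReal.ofReal
      ((1 + ξ) * (th (hd ι) / (t * g0 ^ 2)) ^ hd ι * (g0 / mx κ) ^ (5 * hd ι / 3)))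
    (fun j hj z => by simp at hj)
    (fun z _ => by
      have h := G.gauss_mul hn ht hg h4 (c := (κ k : ℝ)) (by rw [hk']; exact hκ) z
      rw [hk'] at h
      refine le_trans (lintegral_mono fun u => ?_) h
      refine mul_le_of_le_one_left' ?_
      unfold iA
      exact Set.indicator_apply_le' (fun _ => le_rfl) (fun _ => zero_le_one))
  refine le_trans key ?_
  refine le_trans (mul_le_mul_right (chain_rest hn G _) _) ?_
  have hth : 0 ≤ th (hd ι) := by linarith [th_ge (hd_ge hn)]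
  have hξ := G.nonneg
  have hV : 0 < VV (hd ι) := by
    have h1 := lb_ge (hd_ge hn)
    unfold VV; positivity
  simp only [List.length_nil, Finset.range_zero, Finset.prod_empty, one_mul]
  rw [← ENNReal.ofReal_mul (by positivity), ← chain_card _ hl]
  refine le_of_eq ?_
  congr 1
  simp only [List.length_append, List.length_singleton, List.length_nil, pow_add, pow_one,
    zero_add]
  field_simp

theorem Good.tri {κ : τ → ℤ} (hκ : κ ∈ CU τ 2) :
    ∫⁻ U, IA U * iB (lv κ U) ∂pw τ Λ ≤ ENNReal.ofReal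
      (((1 + ξ) * VV (hd ι)) ^ Fintype.card τ *
        ((1 + ξ) * (1.5 * Real.exp (-(0.2876 * hd ι))))) := by
  classical
  have hM := chain_M hn G
  have hξ := G.nonneg
  have hV : 0 < VV (hd ι) := by
    have h1 := lb_ge (hd_ge hn)
    unfold VV; positivity
  obtain ⟨h2, h3⟩ := hκ
  have hne : Nonempty τ := by
    have : 0 < spt κ := by omega
    obtain ⟨i, _⟩ := Finset.card_pos.1 this
    exact ⟨i⟩
  obtain ⟨l, k, hlen, hl, hx, -, -, hz⟩ := exists_list (j := 1) h3.ge hne.some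
  have heL : 0 < eL (hd ι) 1 := Real.exp_pos _
  let G1 : (ι → ℝ) → ℝ≥0∞ := fun z => if z ∈ AA ι then Gs (1 / 3) z else ⊤
  have hG1 : Measurable G1 := Measurable.ite measurableSet_AA (measurable_Gs _) measurable_const
  have key := peel_list Λ (fun _ => iA) (fun _ => measurable_iA) κ l k hl
    (fun j => if j = 0 then iB else G1)
    (fun j => by
      split_ifs
      · exact measurable_iB
      · exact hG1)
    (fun _ => ENNReal.ofReal ((1 + ξ) ^ 2 * VV (hd ι) * eL (hd ι) 1))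
    (ENNReal.ofReal ((1 + ξ) * VV (hd ι) * FF (hd ι) (1 / 3)))
    (fun j hj z => by
      have hj0 : j = 0 := by omega
      subst hj0
      simp only [if_true, zero_add, one_ne_zero, if_false]
      by_cases hzA : z ∈ AA ι
      · simp only [G1, hzA, if_true]
        rcases chain_abs h2 (hx l[0] (List.mem_append_left _ (List.getElem_mem hj))) with h | h
        · refine le_trans (lintegral_mono fun u => ?_) (G.lens z hzA)
          simp only [h, Int.cast_one, one_smul]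
          exact mul_le_mul_left (iA_le_iB u) _
        · have h' := G.lens (-z) (neg_mem_AA.2 hzA)
          rw [chain_Gs_neg] at h'
          refine le_trans (lintegral_mono fun u => ?_) h'
          have e : iB (((κ l[0] : ℤ) : ℝ) • u + z) = iB (u + -z) := by
            have e1 : ((κ l[0] : ℤ) : ℝ) • u + z = -(u + -z) := by
              rw [h]; simp [add_comm]
            rw [e1]
            unfold iB BB
            simp only [Set.indicator_apply, Set.mem_ofPred_eq, nsq_neg, Pi.one_apply]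
          rw [e]
          exact mul_le_mul_left (iA_le_iB u) _
      · simp only [G1, hzA, if_false]
        rw [ENNReal.mul_top]
        · exact le_top
        · rw [Ne, ENNReal.ofReal_eq_zero, not_le]; positivity)
    (fun z hz' => by
      have hz0 : z = 0 := by
        rcases hz' with h | ⟨x, hx1, hx2⟩
        · exact h
        · exact absurd (hz h3 x hx1) hx2
      subst hz0
      have hr := G.rad (1 / 3) (by norm_num) (by norm_num)
      refine le_trans (le_of_eq ?_) hr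
      congr 1
      ext u
      simp only [hlen, one_ne_zero, if_false, add_zero]
      by_cases hu : u ∈ AA ι
      · rcases chain_abs h2 (hx k (by simp)) with h | h
        · simp [h, G1, hu]
        · simp [h, G1, hu, chain_Gs_neg, neg_mem_AA]
      · simp [iA, hu])
  simp only [if_true] at key
  refine le_trans key ?_
  refine le_trans (mul_le_mul_right (chain_rest hn G _) _) ?_
  have hFF : FF (hd ι) (1 / 3) = 1.5 * Real.exp (-(hd ι / 3)) := by
    unfold FF
    rw [show -(1 / 3 * hd ι) = -(hd ι / 3) by ring]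
    ring
  rw [hlen, Finset.prod_range_one, hFF, ← ENNReal.ofReal_mul (by positivity),
    ← ENNReal.ofReal_mul (by positivity), ← chain_card _ hl]
  refine ENNReal.ofReal_le_ofReal ?_
  have hv : 0 ≤ hd ι := by linarith [hd_ge hn]
  have he : eL (hd ι) 1 * Real.exp (-(hd ι / 3)) ≤ Real.exp (-(0.2876 * hd ι)) := by
    unfold eL
    rw [← Real.exp_add]
    refine Real.exp_le_exp.2 ?_
    have := mul_le_mul_of_nonneg_left chain_log hv
    norm_num at this ⊢
    linarith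
  simp only [List.length_append, List.length_singleton, hlen, pow_add, pow_one]
  calc _ = ((1 + ξ) * VV (hd ι)) ^ (Finset.univ.filter (fun i => i ∉ l ++ [k])).card *
        ((1 + ξ) * VV (hd ι) * ((1 + ξ) * VV (hd ι))) *
        ((1 + ξ) * (1.5 * (eL (hd ι) 1 * Real.exp (-(hd ι / 3))))) := by ring
    _ ≤ _ := by gcongr

theorem Good.m1_le (hh : Hf h) : m1 Λ h ≤ ENNReal.ofReal (1 + ξ) := by
  have h1 := th_ge (hd_ge hn)
  have h2 := th_le (hd_ge hn)
  have hg := G.gauss (th (hd ι)) (by linarith) 0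
  rw [div_self (by linarith), max_eq_left (by linarith), Real.one_rpow, Real.one_rpow, mul_one,
    mul_one] at hg
  refine le_trans (lintegral_mono fun y => ?_) hg
  rw [add_zero]
  exact ENNReal.ofReal_le_ofReal (hh.le y)

theorem Good.cor_le (hh : Hf h) (z : ι → ℝ) :
    cor Λ h z ≤ ENNReal.ofReal ((1 + ξ) * (2 : ℝ) ^ (-hd ι)) * Gs (th (hd ι) / 2) z := by
  have h1 := th_ge (hd_ge hn)
  have h2 := th_le (hd_ge hn)
  have h0 : 0 < th (hd ι) := by linarith
  have hg := G.gauss (th (hd ι) + th (hd ι) * 1 ^ 2) (by linarith)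
    ((th (hd ι) * 1 / (th (hd ι) + th (hd ι) * 1 ^ 2)) • z)
  have e1 : th (hd ι) / (th (hd ι) + th (hd ι) * 1 ^ 2) = 2⁻¹ := by field_simp; norm_num
  have e2 : th (hd ι) * th (hd ι) / (th (hd ι) + th (hd ι) * 1 ^ 2) = th (hd ι) / 2 := by
    field_simp; norm_num
  rw [e1, max_eq_left (by linarith), Real.one_rpow,
    mul_one ((1 + ξ) * _), Real.inv_rpow (by norm_num), ← Real.rpow_neg (by norm_num)] at hg
  calc cor Λ h z ≤ ∫⁻ w, Gs (th (hd ι) / 2) z * Gs (th (hd ι) + th (hd ι) * 1 ^ 2)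
        (w + (th (hd ι) * 1 / (th (hd ι) + th (hd ι) * 1 ^ 2)) • z) ∂Λ := by
        refine lintegral_mono fun w => ?_
        have hm := Gs_mul (a := th (hd ι)) (t := th (hd ι)) 1 (by linarith) w z
        rw [e2, one_smul] at hm
        simp only
        rw [← hm]
        exact mul_le_mul' (ENNReal.ofReal_le_ofReal (hh.le _))
          (ENNReal.ofReal_le_ofReal (hh.le _))
    _ = Gs (th (hd ι) / 2) z * ∫⁻ w, Gs (th (hd ι) + th (hd ι) * 1 ^ 2)
        (w + (th (hd ι) * 1 / (th (hd ι) + th (hd ι) * 1 ^ 2)) • z) ∂Λ := by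
        refine lintegral_const_mul _ ?_
        exact (measurable_Gs _).comp (measurable_id.add_const _)
    _ ≤ _ := by
        rw [mul_comm]
        exact mul_le_mul_left hg _

theorem Good.NN_le (hh : Hf h) :
    NN Λ h ≤ ENNReal.ofReal (2 * ((1 + ξ) * (2 : ℝ) ^ (-hd ι))) := by
  have h1 := th_ge (hd_ge hn)
  have hc := G.cor_le hn hh 0
  have h2 := Gs_le_one hn (t := th (hd ι) / 2) (by linarith) (0 : ι → ℝ)
  unfold cor at hc
  simp only [add_zero] at hc
  unfold NN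
  rw [ENNReal.ofReal_mul (by norm_num), ENNReal.ofReal_ofNat]
  exact mul_le_mul_right (hc.trans (mul_le_of_le_one_right' h2)) _

end Pool.Agent.Eps.P
end
end

-- part Pool.Agent.Lib.MP_3bda03_nt.P.Theta
section

/-!
Theta series of a frame.
-/

set_option autoImplicit false

noncomputable section

open MeasureTheory Matrix
open scoped ENNReal

namespace Pool.Agent.Eps.P

open Pool.Agent.Eps.H

variable {ι : Type} [Fintype ι] {τ : Type} [Fintype τ] [DecidableEq τ]

private theorem theta_Gs_zero (t : ℝ) : Gs t (0 : ι → ℝ) = 1 := by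
  simp [Gs, gs, nx, nsq]

omit [Fintype ι] [DecidableEq τ] in
private theorem theta_ind_iff {U : Matrix τ ι ℝ} :
    (LinearIndependent ℝ fun i => (U i : ι → ℝ)) ↔ ∀ x : τ → ℝ, x ᵥ* U = 0 → x = 0 := by
  rw [Fintype.linearIndependent_iff]
  have e : ∀ x : τ → ℝ, ∑ i, x i • (U i : ι → ℝ) = x ᵥ* U := fun x => by
    ext k
    simp [Matrix.vecMul, dotProduct, Finset.sum_apply]
  simp only [e]
  exact forall_congr' fun x => imp_congr_right fun _ => funext_iff.symm

omit [DecidableEq τ] in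
private theorem theta_nsq {κ : Type} [Fintype κ] (x : τ → ℝ) (U : Matrix τ κ ℝ) :
    nsq (x ᵥ* U) = (x ᵥ* (U * Uᵀ)) ⬝ᵥ x := by
  rw [nsq_eq_dot, ← Matrix.vecMul_vecMul, Matrix.vecMul_transpose, dotProduct_comm (U *ᵥ _),
    Matrix.dotProduct_mulVec]

open scoped MatrixOrder in
/-- a square matrix with the same Gram matrix -/
private theorem theta_gram {U : Matrix τ ι ℝ} (hU : LinearIndependent ℝ fun i => (U i : ι → ℝ)) :
    ∃ g : Matrix τ τ ℝ, g.det ≠ 0 ∧ g * gᵀ = U * Uᵀ ∧ ∀ x : τ → ℝ, nsq (x ᵥ* U) = nsq (x ᵥ* g) := by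
  obtain ⟨B, hB⟩ := CStarAlgebra.nonneg_iff_eq_star_mul_self.mp
    (Matrix.posSemidef_self_mul_conjTranspose U).nonneg
  have e : Bᵀ * Bᵀᵀ = U * Uᵀ := by
    rw [Matrix.transpose_transpose]
    simpa [Matrix.star_eq_conjTranspose] using hB.symm
  have h : ∀ x : τ → ℝ, nsq (x ᵥ* U) = nsq (x ᵥ* Bᵀ) := fun x => by
    rw [theta_nsq, theta_nsq, e]
  refine ⟨Bᵀ, fun h0 => ?_, e, h⟩
  obtain ⟨x, hx, h1⟩ := Matrix.exists_vecMul_eq_zero_iff.2 h0
  refine hx (theta_ind_iff.1 hU x (nsq_eq_zero.1 ?_))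
  rw [h, h1]
  exact nsq_eq_zero.2 rfl

/-- projection on the span of the rows -/
private theorem theta_proj {U : Matrix τ ι ℝ} (hd : (U * Uᵀ).det ≠ 0) (z : ι → ℝ) :
    ∃ a : τ → ℝ, ∀ x : τ → ℝ, nsq ((a + x) ᵥ* U) ≤ nsq (x ᵥ* U + z) := by
  refine ⟨(U *ᵥ z) ᵥ* (U * Uᵀ)⁻¹, fun x => ?_⟩
  set a := (U *ᵥ z) ᵥ* (U * Uᵀ)⁻¹ with ha
  have h1 : U *ᵥ (z - a ᵥ* U) = 0 := by
    rw [Matrix.mulVec_sub, ← Matrix.vecMul_transpose U (a ᵥ* U), Matrix.vecMul_vecMul, ha,
      Matrix.vecMul_vecMul, Matrix.nonsing_inv_mul _ (Ne.isUnit hd), Matrix.vecMul_one, sub_self]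
  have h2 : ((a + x) ᵥ* U) ⬝ᵥ (z - a ᵥ* U) = 0 := by
    rw [← Matrix.dotProduct_mulVec, h1, dotProduct_zero]
  have h3 : x ᵥ* U + z = (a + x) ᵥ* U + (z - a ᵥ* U) := by
    rw [Matrix.add_vecMul]; abel
  have h4 := nsq_nonneg (z - a ᵥ* U)
  rw [h3, nsq_eq_dot (_ + _), add_dotProduct, dotProduct_add, dotProduct_add, h2,
    dotProduct_comm (z - a ᵥ* U) ((a + x) ᵥ* U), h2, ← nsq_eq_dot, ← nsq_eq_dot]
  linarith

private theorem theta_summ {g : Matrix τ τ ℝ} (hg : g.det ≠ 0) {t : ℝ} (ht : 0 < t) (a : τ → ℝ) :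
    Summable fun k : τ → ℤ => Real.exp (-Real.pi * t * nsq ((a + cv k) ᵥ* g)) := by
  have hp := mul_pos Real.pi_pos ht
  refine Summable.of_nonneg_of_le (fun k => (Real.exp_pos _).le) (fun k => ?_)
    ((summable_theta hg (half_pos ht)).mul_left (Real.exp (Real.pi * t * nsq (a ᵥ* g))))
  rw [← Real.exp_add]
  apply Real.exp_le_exp.mpr
  have h : nsq (lv k g) ≤ 2 * nsq ((a + cv k) ᵥ* g) + 2 * nsq (a ᵥ* g) := by
    rw [Matrix.add_vecMul, lv]
    simp only [nsq, Finset.mul_sum, ← Finset.sum_add_distrib, Pi.add_apply]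
    refine Finset.sum_le_sum fun i _ => ?_
    nlinarith [sq_nonneg (2 * (a ᵥ* g) i + (cv k ᵥ* g) i)]
  have := mul_le_mul_of_nonneg_left h hp.le
  linarith

private theorem theta_shift_le {g : Matrix τ τ ℝ} (hg : g.det ≠ 0) {t : ℝ} (ht : 0 < t)
    (a : τ → ℝ) : ∑' k : τ → ℤ, Real.exp (-Real.pi * t * nsq ((a + cv k) ᵥ* g)) ≤ theta g t := by
  have h0 := hasSum_theta_shift hg ht 0
  simp only [zero_add, dotProduct_zero, mul_zero, Real.cos_zero, mul_one] at h0
  refine hasSum_le (fun l => ?_) (hasSum_theta_shift hg ht a) h0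
  refine mul_le_mul_of_nonneg_left ?_ (by positivity)
  exact mul_le_of_le_one_right (Real.exp_pos _).le (Real.cos_le_one _)

private theorem theta_scale {g : Matrix τ τ ℝ} (hg : g.det ≠ 0) {s t : ℝ} (hs : 0 < s)
    (hst : s ≤ t) : theta g s ≤ (t / s) ^ ((Fintype.card τ : ℝ) / 2) * theta g t := by
  have ht := hs.trans_le hst
  have hd : (dual g).det ≠ 0 := by rw [det_dual]; exact inv_ne_zero hg
  have h1 : theta (dual g) s⁻¹ ≤ theta (dual g) t⁻¹ := by
    refine Summable.tsum_le_tsum (fun k => Real.exp_le_exp.mpr ?_)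
      (summable_theta hd (inv_pos.2 hs)) (summable_theta hd (inv_pos.2 ht))
    have := mul_le_mul_of_nonneg_left (inv_anti₀ hs hst)
      (mul_nonneg Real.pi_pos.le (nsq_nonneg (lv k (dual g))))
    linarith
  have h2 : (t / s) ^ ((Fintype.card τ : ℝ) / 2) * t ^ (-((Fintype.card τ : ℝ) / 2)) =
      s ^ (-((Fintype.card τ : ℝ) / 2)) := by
    rw [Real.div_rpow ht.le hs.le, Real.rpow_neg ht.le, Real.rpow_neg hs.le]
    have := (Real.rpow_pos_of_pos ht ((Fintype.card τ : ℝ) / 2)).ne'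
    field_simp
  rw [theta_dual hg hs, theta_dual hg ht, ← mul_assoc, mul_left_comm, h2]
  exact mul_le_mul_of_nonneg_left h1 (by positivity)

omit [Fintype ι] [DecidableEq τ] in
private theorem theta_snc (U : Matrix τ ι ℝ) (w : ι → ℝ) (x : τ ⊕ Unit → ℝ) :
    x ᵥ* snc U w = (fun i => x (Sum.inl i)) ᵥ* U + x (Sum.inr ()) • w := by
  ext k
  simp [snc, Matrix.vecMul, dotProduct]

omit [DecidableEq τ] in
theorem one_le_vth (t : ℝ) (U : Matrix τ ι ℝ) : 1 ≤ vth t U := by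
  refine le_trans ?_ (ENNReal.le_tsum (0 : τ → ℤ))
  rw [lv_zero, theta_Gs_zero]

theorem vth_eq (t : ℝ) (U : Matrix τ ι ℝ) : vth t U = 1 + fs' {κ | κ ≠ 0} (Gs t) U := by
  rw [vth, ENNReal.tsum_eq_add_tsum_ite (0 : τ → ℤ), lv_zero, theta_Gs_zero, fs', cs,
    tsum_subtype {κ : τ → ℤ | κ ≠ 0} fun κ => Gs t (lv κ U)]
  congr 1
  refine tsum_congr fun κ => ?_
  by_cases h : κ = 0 <;> simp [h]

private theorem theta_th_pos (hn : 97 ≤ Fintype.card ι) : 0 < th (hd ι) :=
  lt_of_lt_of_le (by norm_num) (th_ge (hd_ge hn))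

private theorem theta_Gs (hn : 97 ≤ Fintype.card ι) (t : ℝ) (y : ι → ℝ) :
    Gs t y = ENNReal.ofReal (Real.exp (-Real.pi * (t / th (hd ι)) * nsq y)) := by
  rw [← gs_th hn, mul_div_cancel₀ _ (theta_th_pos hn).ne', Gs]

private theorem theta_vth (hn : 97 ≤ Fintype.card ι) {U : Matrix τ ι ℝ} {g : Matrix τ τ ℝ}
    (hg : g.det ≠ 0) (h : ∀ x : τ → ℝ, nsq (x ᵥ* U) = nsq (x ᵥ* g)) {t : ℝ} (ht : 0 < t) :
    vth t U = ENNReal.ofReal (theta g (t / th (hd ι))) := by
  rw [theta, ENNReal.ofReal_tsum_of_nonneg (fun _ => (Real.exp_pos _).le)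
    (summable_theta hg (div_pos ht (theta_th_pos hn))), vth]
  refine tsum_congr fun κ => ?_
  rw [theta_Gs hn, lv, lv, h]

variable (hn : 97 ≤ Fintype.card ι) {U : Matrix τ ι ℝ}
  (hU : LinearIndependent ℝ fun i => (U i : ι → ℝ))
include hn hU

theorem vth_shift {t : ℝ} (ht : 0 < t) (z : ι → ℝ) :
    ∑' κ : τ → ℤ, Gs t (lv κ U + z) ≤ vth t U := by
  obtain ⟨g, hg, e, h⟩ := theta_gram hU
  have ht' := div_pos ht (theta_th_pos hn)
  obtain ⟨a, ha⟩ := theta_proj (U := U)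
    (by rw [← e, Matrix.det_mul, Matrix.det_transpose]; exact mul_ne_zero hg hg) z
  rw [theta_vth hn hg h ht]
  refine le_trans ?_ (ENNReal.ofReal_le_ofReal (theta_shift_le hg ht' a))
  rw [ENNReal.ofReal_tsum_of_nonneg (fun _ => (Real.exp_pos _).le) (theta_summ hg ht' a)]
  refine ENNReal.tsum_le_tsum fun κ => ?_
  rw [theta_Gs hn]
  refine ENNReal.ofReal_le_ofReal (Real.exp_le_exp.mpr ?_)
  have := mul_le_mul_of_nonneg_left (ha (cv κ)) (mul_pos Real.pi_pos ht').le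
  rw [← h, lv]
  linarith

theorem vth_scale {s t : ℝ} (hs : 0 < s) (hst : s ≤ t) :
    vth s U ≤ ENNReal.ofReal ((t / s) ^ ((Fintype.card τ : ℝ) / 2)) * vth t U := by
  obtain ⟨g, hg, -, h⟩ := theta_gram hU
  have ht := hs.trans_le hst
  have hp := theta_th_pos hn
  rw [theta_vth hn hg h hs, theta_vth hn hg h ht, ← ENNReal.ofReal_mul (by positivity)]
  refine ENNReal.ofReal_le_ofReal ?_
  have := theta_scale hg (div_pos hs hp) (div_le_div_of_nonneg_right hst hp.le)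
  rwa [div_div_div_cancel_right₀ hp.ne'] at this

omit hU in
theorem vth_coset {t : ℝ} (ht : 0 < t) {q : ℕ} (hq : 1 ≤ q) (κ : τ → ℤ) {w : ι → ℝ}
    (hw : LinearIndependent ℝ fun i => (snc U w i : ι → ℝ)) :
    vth t (snc U w) ≤ q * vth t (snc U ((q : ℝ) • w + lv κ U)) := by
  have hq0 : (q : ℝ) ≠ 0 := Nat.cast_ne_zero.2 (by omega)
  have key : ∀ (x : τ ⊕ Unit → ℝ) (ρ : ℝ), x ᵥ* snc U ((q : ℝ) • w + lv κ U) + ρ • w =
      Sum.elim (fun i => x (Sum.inl i) + x (Sum.inr ()) * cv κ i)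
        (fun _ => q * x (Sum.inr ()) + ρ) ᵥ* snc U w := fun x ρ => by
    rw [theta_snc, theta_snc, lv]
    simp only [Sum.elim_inl, Sum.elim_inr]
    rw [show (fun i => x (Sum.inl i) + x (Sum.inr ()) * cv κ i) =
      (fun i => x (Sum.inl i)) + x (Sum.inr ()) • cv κ from rfl, Matrix.add_vecMul,
      Matrix.smul_vecMul]
    module
  have hw' : LinearIndependent ℝ fun i => (snc U ((q : ℝ) • w + lv κ U) i : ι → ℝ) := by
    refine theta_ind_iff.2 fun x hx => ?_
    have h1 := key x 0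
    rw [hx, zero_smul, add_zero] at h1
    have h2 := theta_ind_iff.1 hw _ h1.symm
    have h3 : x (Sum.inr ()) = 0 := by
      have := congrFun h2 (Sum.inr ())
      simpa [hq0] using this
    funext i
    rcases i with i | i
    · simpa [h3] using congrFun h2 (Sum.inl i)
    · exact h3
  let Φ : Fin q × (τ ⊕ Unit → ℤ) → (τ ⊕ Unit → ℤ) := fun x =>
    Sum.elim (fun i => x.2 (Sum.inl i) + x.2 (Sum.inr ()) * κ i)
      (fun _ => q * x.2 (Sum.inr ()) + (x.1 : ℕ))
  have hΦ : Function.Surjective Φ := fun μ => by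
    have hqz : (0 : ℤ) < q := by exact_mod_cast hq
    have h0 := Int.emod_nonneg (μ (Sum.inr ())) hqz.ne'
    have h1 := Int.emod_lt_of_pos (μ (Sum.inr ())) hqz
    refine ⟨(⟨(μ (Sum.inr ()) % q).toNat, by omega⟩,
      Sum.elim (fun i => μ (Sum.inl i) - μ (Sum.inr ()) / q * κ i) fun _ => μ (Sum.inr ()) / q), ?_⟩
    funext i
    rcases i with i | i
    · simp [Φ]
    · simp only [Φ, Sum.elim_inr, Int.toNat_of_nonneg h0]
      exact Int.mul_ediv_add_emod _ _
  have hl : ∀ x, lv (Φ x) (snc U w) =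
      lv x.2 (snc U ((q : ℝ) • w + lv κ U)) + ((x.1 : ℕ) : ℝ) • w := fun x => by
    rw [lv, lv, key]
    congr 1
    funext i
    rcases i with i | i <;> simp [Φ, cv]
  calc vth t (snc U w) ≤ ∑' x, Gs t (lv (Φ x) (snc U w)) :=
        ENNReal.tsum_le_tsum_comp_of_surjective hΦ fun μ => Gs t (lv μ (snc U w))
    _ = ∑' ρ : Fin q, ∑' μ : τ ⊕ Unit → ℤ,
          Gs t (lv μ (snc U ((q : ℝ) • w + lv κ U)) + ((ρ : ℕ) : ℝ) • w) := by
        rw [ENNReal.tsum_prod']
        exact tsum_congr fun ρ => tsum_congr fun μ => by rw [hl]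
    _ ≤ ∑' _ρ : Fin q, vth t (snc U ((q : ℝ) • w + lv κ U)) :=
        ENNReal.tsum_le_tsum fun ρ => vth_shift hn hw' ht _
    _ = _ := by
        rw [tsum_fintype, Finset.sum_const, Finset.card_univ, Fintype.card_fin, nsmul_eq_mul]

end Pool.Agent.Eps.P
end
end
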