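import Pool.Agent.Lib.MP_3bda03_nt.P.Pt1
import Pool.Agent.Lib.MP_3bda03_nt.P.Theta
import Pool.Agent.Lib.MP_3bda03_nt.P.Mom

-- part Pool.Agent.Lib.MP_3bda03_nt.P.Pt
section

/-!
The moments of the layer measure of one frame.
-/

set_option autoImplicit false
set_option linter.unusedSectionVars false

noncomputable section

open MeasureTheory Matrix
open scoped ENNReal

namespace Pool.Agent.Eps.P

open Pool.Agent.Eps.H

variable {α β ι : Type} [Fintype α] [DecidableEq α] [Fintype β] [DecidableEq β] [Fintype ι]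
  [DecidableEq ι] (e : α ⊕ β ≃ ι) {φ : ℝ → ℝ}

theorem pt_real {a : ℝ≥0∞} (h : a ≠ ∞) : ∃ x : ℝ, 0 ≤ x ∧ a = ENNReal.ofReal x :=
  ⟨a.toReal, ENNReal.toReal_nonneg, (ENNReal.ofReal_toReal h).symm⟩

theorem pt_exp : Real.exp 0.4826 ≤ 1.6204 := by
  refine (Real.exp_bound' (by norm_num) (by norm_num) (n := 5) (by norm_num)).trans ?_
  simp only [Finset.sum_range_succ, Finset.sum_range_zero, Nat.factorial]
  norm_num

theorem pt_exp_sub {x c : ℝ} (h : |x| ≤ c) : |Real.exp (-x) - 1| ≤ |x| * Real.exp c := by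
  have h1 := Real.add_one_le_exp x
  have h2 := Real.add_one_le_exp (-x)
  have h3 : Real.exp (-x) ≤ Real.exp c := Real.exp_le_exp.2 ((neg_le_abs x).trans h)
  have h4 : 1 ≤ Real.exp c := Real.one_le_exp ((abs_nonneg x).trans h)
  have h5 : Real.exp x * Real.exp (-x) = 1 := by rw [← Real.exp_add, add_neg_cancel, Real.exp_zero]
  have h6 := Real.exp_pos (-x)
  have h7 := mul_le_mul_of_nonneg_right h1 h6.le
  rcases le_total 0 x with k | k
  · rw [abs_of_nonneg k, abs_le]
    constructor <;> nlinarith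
  · rw [abs_of_nonpos k, abs_le]
    constructor <;> nlinarith

theorem pt_sq (a b : ℝ) : (a + b) ^ 2 ≤ 1.15 * a ^ 2 + 7.67 * b ^ 2 := by
  nlinarith [sq_nonneg (0.15 * a - b), sq_nonneg b]

theorem pt_core {E E0 E1 x2 a b N N1 N2 Nz l xg sa T : ℝ} (hE : 0 ≤ E) (h0 : E ≤ E0)
    (h1 : E * T ≤ E1) (hx : |x2| ≤ 0.4826) (hx' : |x2| ≤ l * xg) (hb : |b| ≤ sa)
    (hN : N = N1 + N2) (hN0 : 0 ≤ N) (hN1 : N ≤ 1.43 * Nz * T) (hN2 : |N2| ≤ Nz * xg)
    (hz : 0 ≤ Nz) :
    |E * Real.exp (-x2) * ((a + b) ^ 2 + N) - E * (a ^ 2 + N1)| ≤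
      E0 * (l * Real.exp 0.4826 * (xg * (1.15 * a ^ 2)) + 2 * |a| * sa + 7 * sa ^ 2 + Nz * xg) +
        E1 * (1.43 * l * Real.exp 0.4826) * Nz * xg := by
  have e1 : E * Real.exp (-x2) * ((a + b) ^ 2 + N) - E * (a ^ 2 + N1) =
      E * ((Real.exp (-x2) - 1) * (a + b) ^ 2 + 2 * a * b + b ^ 2 + N2) +
        E * ((Real.exp (-x2) - 1) * N) := by
    rw [hN]
    ring
  have hc := Real.exp_pos 0.4826
  have hc' := pt_exp
  have k1 := pt_exp_sub hx
  set c := Real.exp 0.4826
  set d := Real.exp (-x2) - 1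
  have k2 : |d| ≤ l * xg * c := k1.trans (mul_le_mul_of_nonneg_right hx' hc.le)
  have k3 : |d| ≤ 0.4826 * 1.6204 := k1.trans (mul_le_mul hx hc' hc.le (by norm_num))
  have k4 : b ^ 2 ≤ sa ^ 2 := by
    rw [← sq_abs b]
    exact pow_le_pow_left₀ (abs_nonneg _) hb 2
  have k5 : |d * (a + b) ^ 2| ≤ l * c * (xg * (1.15 * a ^ 2)) + 6 * sa ^ 2 := by
    rw [abs_mul, abs_of_nonneg (sq_nonneg (a + b))]
    have m1 := mul_le_mul_of_nonneg_left (pt_sq a b) (abs_nonneg d)
    have m2 := mul_le_mul_of_nonneg_right k2 (show 0 ≤ 1.15 * a ^ 2 by positivity)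
    have m3 := mul_le_mul k3 k4 (sq_nonneg b) (by norm_num)
    nlinarith [sq_nonneg sa]
  have k6 : |2 * a * b| ≤ 2 * |a| * sa := by
    rw [abs_mul, abs_mul, abs_two]
    exact mul_le_mul_of_nonneg_left hb (by positivity)
  have k7 : |d * (a + b) ^ 2 + 2 * a * b + b ^ 2 + N2| ≤
      l * c * (xg * (1.15 * a ^ 2)) + 2 * |a| * sa + 7 * sa ^ 2 + Nz * xg := by
    have m1 := abs_add_le (d * (a + b) ^ 2 + 2 * a * b + b ^ 2) N2
    have m2 := abs_add_le (d * (a + b) ^ 2 + 2 * a * b) (b ^ 2)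
    have m3 := abs_add_le (d * (a + b) ^ 2) (2 * a * b)
    rw [abs_of_nonneg (sq_nonneg b)] at m2
    linarith
  have k8 : |E * (d * N)| ≤ E1 * (1.43 * l * c) * Nz * xg := by
    rw [abs_mul, abs_mul, abs_of_nonneg hE, abs_of_nonneg hN0]
    have m0 : 0 ≤ l * xg * c := (abs_nonneg _).trans k2
    have m1 := mul_le_mul_of_nonneg_left (mul_le_mul k2 hN1 hN0 m0) hE
    have m2 := mul_le_mul_of_nonneg_right h1 (show 0 ≤ l * xg * c * (1.43 * Nz) by positivity)
    nlinarith
  rw [e1]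
  refine (abs_add_le _ _).trans (add_le_add ?_ k8)
  rw [abs_mul, abs_of_nonneg hE]
  exact mul_le_mul h0 k7 (abs_nonneg _) (hE.trans h0)

variable (hn : 97 ≤ Fintype.card ι) (hb : Fintype.card α ≤ KK ι) {X : Matrix α ι ℝ}
  (hX : (blk e X).det ≠ 0) (hA : ∀ i, X i ∈ AA ι) (hφ : Tst ι φ)
include hn hb hX hA hφ

/-- the second moment without the hole -/
theorem pt_bad (m : ℝ) :
    ∫⁻ ω, YY (rad φ) (ctr (rad φ : (ι → ℝ) → ℝ) - m) (gX e X ω) ∂PX α β ≤
      ENNReal.ofReal (1.15 * s1 (rad φ) m X ^ 2) + ENNReal.ofReal 7.67 * S2a (rad φ) X ^ 2 +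
        ENNReal.ofReal (1.0001 * Nz (rad φ : (ι → ℝ) → ℝ)) *
          (ENNReal.ofReal ((1 + 0.038 / lb (hd ι)) ^ Fintype.card α) + XG X) := by
  have := pt1_ne e hn hb hX hA
  have hv := hd_ge hn
  have hl : 0 < lb (hd ι) := lt_of_lt_of_le (by norm_num) (lb_ge hv)
  have hh := Tst.hf hn hφ
  have hN := pt1_Nz (rad φ : (ι → ℝ) → ℝ)
  have h40 : 40 ≤ Fintype.card β := by
    have := card_beta e
    unfold KK at hb
    omega
  obtain ⟨k1, -, s2, k2, k3⟩ := pt_s e hn hb hX hA hφ m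
  obtain ⟨k4, -, N2, k5, k6⟩ := pt_N e hn hb hX hA hφ
  refine (second_zero (rl_cond e hX) h40 hh.meas hh.nonneg hh.even k1 _).trans
    (add_le_add ?_ ?_)
  · change ENNReal.ofReal (sV e (rad φ) m X ^ 2) ≤ _
    rw [k2]
    refine (ENNReal.ofReal_le_ofReal (pt_sq _ _)).trans
      (ENNReal.ofReal_add_le.trans (add_le_add_right ?_ _))
    rw [ENNReal.ofReal_mul (by norm_num), ← sq_abs, ENNReal.ofReal_pow (abs_nonneg _)]
    exact mul_le_mul_right (pow_le_pow_left' k3 2) _
  · rw [ENNReal.ofReal_mul (by norm_num), mul_assoc]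
    refine mul_le_mul_right ?_ _
    rw [← ENNReal.ofReal_toReal k4, mul_add, ← ENNReal.ofReal_mul hN]
    change ENNReal.ofReal (NV e (rad φ) X) ≤ _
    rw [k5]
    refine ENNReal.ofReal_add_le.trans (add_le_add (ENNReal.ofReal_le_ofReal ?_)
      ((ENNReal.ofReal_le_ofReal (le_abs_self _)).trans k6))
    refine (le_abs_self _).trans ((abs_N1_le hn hA hφ).trans (mul_le_mul_of_nonneg_left ?_ hN))
    rw [Real.exp_nat_mul]
    exact pow_le_pow_left₀ (Real.exp_pos _).le (exp_g1 hv) _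

/-- passage to the product form -/
theorem pt_phi (hg : nice X) (m : ℝ) :
    ENNReal.ofReal |Real.exp (-xV e X) * (sV e (rad φ) m X ^ 2 + NV e (rad φ) X) -
        Phi1 (rad φ) m X| ≤
      ENNReal.ofReal (mE.ev (hd ι) * (1 + 0.0125 / lb (hd ι)) ^ Fintype.card α) *
        (ENNReal.ofReal (lb (hd ι) * Real.exp 0.4826) *
            (XG X * ENNReal.ofReal (1.15 * s1 (rad φ) m X ^ 2)) +
          2 * ENNReal.ofReal |s1 (rad φ) m X| * S2a (rad φ) X + 7 * S2a (rad φ) X ^ 2 +
          ENNReal.ofReal (Nz (rad φ : (ι → ℝ) → ℝ)) * XG X) +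
      ENNReal.ofReal (mE.ev (hd ι) * (1 + 0.052 / lb (hd ι)) ^ Fintype.card α *
        (1.43 * lb (hd ι) * Real.exp 0.4826) * Nz (rad φ : (ι → ℝ) → ℝ)) * XG X := by
  have hv := hd_ge hn
  have hl1 := lb_ge hv
  have hl : 0 < lb (hd ι) := lt_of_lt_of_le (by norm_num) hl1
  have hN := pt1_Nz (rad φ : (ι → ℝ) → ℝ)
  have hm := Mono.ev_nonneg hv mE
  obtain ⟨x2, j1, j2, j3⟩ := pt_x e hn hb hX hA
  obtain ⟨-, k1, s2, k2, k3⟩ := pt_s e hn hb hX hA hφ m
  obtain ⟨k4, k7, N2, k5, k6⟩ := pt_N e hn hb hX hA hφ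
  obtain ⟨xg, hxg, e1⟩ := pt_real (XG_ne_top e hn hb hX hA)
  obtain ⟨sa, hsa, e2⟩ := pt_real k1
  rw [e1, ← ENNReal.ofReal_mul hl.le, ENNReal.ofReal_le_ofReal_iff (by positivity)] at j2
  rw [e1, ← ENNReal.ofReal_mul hN, ENNReal.ofReal_le_ofReal_iff (by positivity)] at k6
  rw [e2, ENNReal.ofReal_le_ofReal_iff hsa] at k3
  have hg1 : 0 ≤ g1 (hd ι) := by
    unfold g1
    positivity
  have hx : 0 ≤ xi2 (hd ι) := by
    unfold xi2
    positivity
  have hx' : xi2 (hd ι) ≤ 0.43 := by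
    unfold xi2
    rw [div_le_iff₀ hl]
    linarith
  have h1 : NV e (rad φ) X ≤
      1.43 * Nz (rad φ : (ι → ℝ) → ℝ) * Real.exp (g1 (hd ι)) ^ Fintype.card α := by
    have m1 := k7.trans (mul_le_mul_right (add_le_add_right
      ((Gam_le hn hA).trans (add_le_add_left hg _)) _) _)
    rw [← ENNReal.ofReal_add hx (by positivity), ← ENNReal.ofReal_one,
      ← ENNReal.ofReal_add zero_le_one (by positivity), ← ENNReal.ofReal_mul hN] at m1
    refine (ENNReal.toReal_le_of_le_ofReal (by positivity) m1).trans ?_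
    rw [← Real.exp_nat_mul, mul_comm 1.43, mul_assoc]
    refine mul_le_mul_of_nonneg_left ?_ hN
    have m2 := Real.add_one_le_exp (Fintype.card α * g1 (hd ι))
    have m3 : 0 ≤ (Fintype.card α : ℝ) * g1 (hd ι) := by positivity
    linarith
  have h2 : Real.exp (-lA ι) * ∏ i, wA (X i) ≤
      mE.ev (hd ι) * Real.exp (al0 (hd ι)) ^ Fintype.card α := by
    refine mul_le_mul (exp_lA_le hn) ?_ (Finset.prod_nonneg fun i _ => (Real.exp_pos _).le) hm
    refine (Finset.prod_le_prod (fun i _ => (Real.exp_pos _).le)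
      fun i _ => (wA_bounds hn (hA i)).2.1).trans_eq ?_
    rw [Finset.prod_const, Finset.card_univ]
  have h3 : Real.exp (-xV e X) = (Real.exp (-lA ι) * ∏ i, wA (X i)) * Real.exp (-x2) := by
    unfold wA
    rw [← Real.exp_sum, ← Real.exp_add, ← Real.exp_add, j1, Finset.sum_neg_distrib]
    congr 1
    ring
  have h4 := pt_core (a := s1 (rad φ) m X)
    (E0 := mE.ev (hd ι) * (1 + 0.0125 / lb (hd ι)) ^ Fintype.card α)
    (E1 := mE.ev (hd ι) * (1 + 0.052 / lb (hd ι)) ^ Fintype.card α)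
    (mul_nonneg (Real.exp_pos _).le (Finset.prod_nonneg fun i _ => (Real.exp_pos _).le))
    (h2.trans (mul_le_mul_of_nonneg_left
      (pow_le_pow_left₀ (Real.exp_pos _).le (exp_al0 hv).1 _) hm))
    ((mul_le_mul_of_nonneg_right h2 (by positivity)).trans (by
      rw [mul_assoc, ← mul_pow, ← Real.exp_add]
      exact mul_le_mul_of_nonneg_left
        (pow_le_pow_left₀ (Real.exp_pos _).le (exp_al0_g1 hv) _) hm))
    (j3 hg) j2 k3 k5 ENNReal.toReal_nonneg h1 k6 hN
  rw [h3, k2, e1, e2]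
  refine (ENNReal.ofReal_le_ofReal h4).trans (le_of_eq ?_)
  rw [ENNReal.ofReal_add (by positivity) (by positivity), ENNReal.ofReal_mul (by positivity),
    ENNReal.ofReal_add (by positivity) (by positivity),
    ENNReal.ofReal_add (by positivity) (by positivity),
    ENNReal.ofReal_add (by positivity) (by positivity), ENNReal.ofReal_mul (q := xg * _)
      (by positivity), ENNReal.ofReal_mul hxg, ENNReal.ofReal_mul (q := sa) (by positivity),
    ENNReal.ofReal_mul zero_le_two, ENNReal.ofReal_mul (q := sa ^ 2) (by norm_num),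
    ENNReal.ofReal_pow hsa, ENNReal.ofReal_mul hN, ENNReal.ofReal_mul (q := xg) (by positivity),
    ENNReal.ofReal_ofNat, ENNReal.ofReal_ofNat]

end Pool.Agent.Eps.P
end
end

-- part Pool.Agent.Lib.MP_3bda03_nt.P.L21
section

/-!
Mean squares of the Fourier transform of a test function.
-/

set_option autoImplicit false

noncomputable section

open MeasureTheory Matrix
open scoped ENNReal

namespace Pool.Agent.Eps.P

open Pool.Agent.Eps.H

section
variable {ι : Type} [Fintype ι]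

private theorem l21_meas_dot (c : ι → ℝ) : Measurable fun y : ι → ℝ => 2 * Real.pi * (c ⬝ᵥ y) := by
  unfold dotProduct
  fun_prop

private theorem l21_int_cos {f : (ι → ℝ) → ℝ} (hf : Integrable f) (c : ι → ℝ) :
    Integrable fun y => f y * Real.cos (2 * Real.pi * (c ⬝ᵥ y)) :=
  hf.mul_bdd (c := 1) (Real.measurable_cos.comp (l21_meas_dot c)).aestronglyMeasurable
    (ae_of_all _ fun _ => by simpa using Real.abs_cos_le_one _)

private theorem l21_int_sin {f : (ι → ℝ) → ℝ} (hf : Integrable f) (c : ι → ℝ) :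
    Integrable fun y => f y * Real.sin (2 * Real.pi * (c ⬝ᵥ y)) :=
  hf.mul_bdd (c := 1) (Real.measurable_sin.comp (l21_meas_dot c)).aestronglyMeasurable
    (ae_of_all _ fun _ => by simpa using Real.abs_sin_le_one _)

/-- the transform of a shifted even function -/
private theorem l21_shift {f : (ι → ℝ) → ℝ} (hf : Integrable f) (hev : ∀ y, f (-y) = f y)
    (c z : ι → ℝ) :
    ∫ y, f (y + z) * Real.cos (2 * Real.pi * (c ⬝ᵥ y)) =
      ftr f c * Real.cos (2 * Real.pi * (c ⬝ᵥ z)) := by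
  have h0 : ∫ y, f y * Real.sin (2 * Real.pi * (c ⬝ᵥ y)) = 0 := by
    have h1 := integral_neg_eq_self (fun y => f y * Real.sin (2 * Real.pi * (c ⬝ᵥ y))) volume
    simp only [hev, dotProduct_neg, mul_neg, Real.sin_neg, integral_neg] at h1
    linarith
  have h2 := integral_add_right_eq_self (μ := volume)
    (fun y => f y * Real.cos (2 * Real.pi * (c ⬝ᵥ (y - z)))) z
  simp only [add_sub_cancel_right] at h2
  rw [h2]
  have h3 : ∀ y, f y * Real.cos (2 * Real.pi * (c ⬝ᵥ (y - z))) =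
      f y * Real.cos (2 * Real.pi * (c ⬝ᵥ y)) * Real.cos (2 * Real.pi * (c ⬝ᵥ z)) +
        f y * Real.sin (2 * Real.pi * (c ⬝ᵥ y)) * Real.sin (2 * Real.pi * (c ⬝ᵥ z)) := by
    intro y
    rw [dotProduct_sub, mul_sub, Real.cos_sub]
    ring
  simp only [h3]
  rw [integral_add ((l21_int_cos hf c).mul_const _) ((l21_int_sin hf c).mul_const _),
    integral_mul_const, integral_mul_const, h0, ftr]
  ring

private theorem l21_gs_pos (t : ℝ) (y : ι → ℝ) : 0 < gs t y := Real.exp_pos _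

private theorem l21_gs_neg (t : ℝ) (y : ι → ℝ) : gs t (-y) = gs t y := by
  rw [gs, gs, nx_neg]

private theorem l21_log {u : ℝ} (hu : 0 ≤ u) : u - u ^ 2 / 2 ≤ Real.log (1 + u) := by
  refine le_trans ?_ (Real.le_log_one_add_of_nonneg hu)
  rw [le_div_iff₀ (by linarith)]
  nlinarith [pow_nonneg hu 3]

private theorem l21_rpow {x : ℝ} (hx : 0 < x) (v : ℝ) :
    Real.exp (-(v / 5)) * x ^ (-v) = Real.exp (v * (-(1 / 5) - Real.log x)) := by
  rw [Real.rpow_def_of_pos hx, ← Real.exp_add]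
  congr 1
  ring

end

variable {ι : Type} [Fintype ι] {h : (ι → ℝ) → ℝ} (hn : 97 ≤ Fintype.card ι)
include hn

private theorem l21_int_gs {s : ℝ} (hs : 0 < s) : Integrable (gs s : (ι → ℝ) → ℝ) := by
  refine ⟨(measurable_gs s).aestronglyMeasurable, ?_⟩
  have h1 := lintegral_Gs hn hs (0 : ι → ℝ)
  simp only [add_zero] at h1
  rw [hasFiniteIntegral_iff_ofReal (ae_of_all _ fun y => (l21_gs_pos s y).le)]
  exact lt_of_eq_of_lt h1 ENNReal.ofReal_lt_top

/-- the inner integral -/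
private theorem l21_inner {s : ℝ} (hs : 0 < s) (z a b : ι → ℝ) :
    |∫ y, gs s (y + z) * (Real.cos (2 * Real.pi * (y ⬝ᵥ a)) * Real.cos (2 * Real.pi * (y ⬝ᵥ b)))| ≤
      (th (hd ι) / s) ^ hd ι / 2 *
        (gs (th (hd ι) ^ 2 / s) ((1 : ℝ) • b + a) + gs (th (hd ι) ^ 2 / s) ((-1 : ℝ) • b + a)) := by
  have hi := l21_int_gs hn hs
  have hz : Integrable fun y : ι → ℝ => gs s (y + z) := hi.comp_add_right z
  have hth : 0 < th (hd ι) := lt_of_lt_of_le (by norm_num) (th_ge (hd_ge hn))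
  have h3 : ∀ y : ι → ℝ, gs s (y + z) *
      (Real.cos (2 * Real.pi * (y ⬝ᵥ a)) * Real.cos (2 * Real.pi * (y ⬝ᵥ b))) =
      1 / 2 * (gs s (y + z) * Real.cos (2 * Real.pi * (((1 : ℝ) • b + a) ⬝ᵥ y)) +
        gs s (y + z) * Real.cos (2 * Real.pi * (((-1 : ℝ) • b + a) ⬝ᵥ y))) := by
    intro y
    rw [one_smul, neg_smul, one_smul, add_dotProduct, add_dotProduct, neg_dotProduct,
      dotProduct_comm y a, dotProduct_comm y b, mul_add (2 * Real.pi), mul_add (2 * Real.pi),
      mul_neg, Real.cos_add, Real.cos_add, Real.cos_neg, Real.sin_neg]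
    ring
  simp only [h3]
  rw [integral_const_mul, integral_add (l21_int_cos hz _) (l21_int_cos hz _),
    l21_shift hi (l21_gs_neg s), l21_shift hi (l21_gs_neg s), ftr_gs hn hs, ftr_gs hn hs]
  have hK : 0 ≤ (th (hd ι) / s) ^ hd ι := by positivity
  have k1 := mul_nonneg hK (l21_gs_pos (th (hd ι) ^ 2 / s) ((1 : ℝ) • b + a)).le
  have k2 := mul_nonneg hK (l21_gs_pos (th (hd ι) ^ 2 / s) ((-1 : ℝ) • b + a)).le
  have c1 := abs_le.1 (Real.abs_cos_le_one (2 * Real.pi * (((1 : ℝ) • b + a) ⬝ᵥ z)))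
  have c2 := abs_le.1 (Real.abs_cos_le_one (2 * Real.pi * (((-1 : ℝ) • b + a) ⬝ᵥ z)))
  rw [abs_le]
  constructor
  · nlinarith [mul_le_mul_of_nonneg_left c1.1 k1, mul_le_mul_of_nonneg_left c2.1 k2]
  · nlinarith [mul_le_mul_of_nonneg_left c1.2 k1, mul_le_mul_of_nonneg_left c2.2 k2]

/-- two Gaussian integrals -/
private theorem l21_two {T c : ℝ} (hT : 0 < T) (hc : c ^ 2 = 1) :
    ∫⁻ p : (ι → ℝ) × (ι → ℝ), Gs (th (hd ι)) p.1 * (Gs (th (hd ι)) p.2 * Gs T (c • p.2 + p.1)) =
      ENNReal.ofReal ((th (hd ι) / (th (hd ι) + 2 * T)) ^ hd ι) := by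
  have hth : 0 < th (hd ι) := lt_of_lt_of_le (by norm_num) (th_ge (hd_ge hn))
  set θ := th (hd ι) with hθ
  have hm : Measurable fun p : (ι → ℝ) × (ι → ℝ) =>
      Gs θ p.1 * (Gs θ p.2 * Gs T (c • p.2 + p.1)) :=
    ((measurable_Gs θ).comp measurable_fst).mul (((measurable_Gs θ).comp measurable_snd).mul
      ((measurable_Gs T).comp (by fun_prop)))
  have hp : 0 < θ + T * c ^ 2 := by rw [hc]; linarith
  rw [Measure.volume_eq_prod, lintegral_prod _ hm.aemeasurable]
  have h1 : ∀ a : ι → ℝ, ∫⁻ b, Gs θ a * (Gs θ b * Gs T (c • b + a)) =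
      Gs (θ + θ * T / (θ + T)) (a + 0) * ENNReal.ofReal ((θ / (θ + T)) ^ hd ι) := by
    intro a
    have h2 : Gs θ a * Gs (θ * T / (θ + T)) a = Gs (θ + θ * T / (θ + T)) (a + 0) := by
      rw [add_zero, Gs, Gs, Gs, ← ENNReal.ofReal_mul (l21_gs_pos _ _).le, gs, gs, gs,
        ← Real.exp_add]
      congr 2
      ring
    simp only [Gs_mul c hp, ← mul_assoc]
    have h3 : Gs θ a * Gs (θ * T / (θ + T * c ^ 2)) a ≠ ∞ :=
      ENNReal.mul_ne_top ENNReal.ofReal_ne_top ENNReal.ofReal_ne_top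
    rw [lintegral_const_mul' _ _ h3, lintegral_Gs hn hp, hc, mul_one, h2]
  simp only [h1]
  have hq : 0 < θ + θ * T / (θ + T) := by positivity
  rw [lintegral_mul_const' _ _ ENNReal.ofReal_ne_top, lintegral_Gs hn hq,
    ← ENNReal.ofReal_mul (by positivity), ← Real.mul_rpow (by positivity) (by positivity)]
  congr 2
  field_simp
  ring

private theorem l21_pos (hh : Hf h) {s : ℝ} (hs : 0 < s) (z : ι → ℝ) :
    ∫⁻ y, ENNReal.ofReal (ftr h y ^ 2) * Gs s (y + z) ≤
      ENNReal.ofReal ((th (hd ι) / (2 * th (hd ι) + s)) ^ hd ι) := by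
  have hth : 0 < th (hd ι) := lt_of_lt_of_le (by norm_num) (th_ge (hd_ge hn))
  have hi := (hh.integrable hn).1
  have hz : Integrable fun y : ι → ℝ => gs s (y + z) := (l21_int_gs hn hs).comp_add_right z
  set θ := th (hd ι) with hθ
  set F : (ι → ℝ) → (ι → ℝ) × (ι → ℝ) → ℝ := fun y p => h p.1 * h p.2 * (gs s (y + z) *
    (Real.cos (2 * Real.pi * (y ⬝ᵥ p.1)) * Real.cos (2 * Real.pi * (y ⬝ᵥ p.2)))) with hF
  have hFi : Integrable (Function.uncurry F) (volume.prod volume) := by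
    have h1 : Integrable (fun q : (ι → ℝ) × ((ι → ℝ) × (ι → ℝ)) =>
        gs s (q.1 + z) * (h q.2.1 * h q.2.2)) (volume.prod volume) :=
      hz.mul_prod (g := fun p : (ι → ℝ) × (ι → ℝ) => h p.1 * h p.2) (hi.mul_prod hi)
    have h2 : Measurable fun q : (ι → ℝ) × ((ι → ℝ) × (ι → ℝ)) =>
        Real.cos (2 * Real.pi * (q.1 ⬝ᵥ q.2.1)) * Real.cos (2 * Real.pi * (q.1 ⬝ᵥ q.2.2)) := by
      unfold dotProduct
      fun_prop
    refine (h1.mul_bdd (c := 1) h2.aestronglyMeasurable (ae_of_all _ fun q => ?_)).congr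
      (ae_of_all _ fun q => ?_)
    · rw [Real.norm_eq_abs, abs_mul]
      exact mul_le_one₀ (Real.abs_cos_le_one _) (abs_nonneg _) (Real.abs_cos_le_one _)
    · simp only [hF, Function.uncurry]
      ring
  have h3 : ∀ y, ∫ p, F y p = ftr h y ^ 2 * gs s (y + z) := by
    intro y
    rw [sq, ftr, ← integral_prod_mul, ← integral_mul_const, Measure.volume_eq_prod]
    refine integral_congr_ae (ae_of_all _ fun p => ?_)
    simp only [hF]
    ring
  have h4 : Integrable fun y => ftr h y ^ 2 * gs s (y + z) := by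
    have := hFi.integral_prod_left
    simpa only [Function.uncurry, h3] using this
  have hK : 0 ≤ (θ / s) ^ hd ι / 2 := by positivity
  have hT : 0 < θ ^ 2 / s := by positivity
  have hm : ∀ c : ℝ, Measurable fun p : (ι → ℝ) × (ι → ℝ) =>
      Gs θ p.1 * (Gs θ p.2 * Gs (θ ^ 2 / s) (c • p.2 + p.1)) := fun c =>
    ((measurable_Gs θ).comp measurable_fst).mul (((measurable_Gs θ).comp measurable_snd).mul
      ((measurable_Gs _).comp (by fun_prop)))
  calc ∫⁻ y, ENNReal.ofReal (ftr h y ^ 2) * Gs s (y + z)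
      = ∫⁻ y, ENNReal.ofReal (ftr h y ^ 2 * gs s (y + z)) := by
        refine lintegral_congr fun y => ?_
        rw [ENNReal.ofReal_mul (sq_nonneg _), Gs]
    _ = ENNReal.ofReal (∫ y, ∫ p, F y p) := by
        rw [← ofReal_integral_eq_lintegral_ofReal h4
          (ae_of_all _ fun y => mul_nonneg (sq_nonneg _) (l21_gs_pos _ _).le)]
        simp only [h3]
    _ ≤ ‖∫ p, ∫ y, F y p‖ₑ := by
        rw [integral_integral_swap hFi, Real.enorm_eq_ofReal_abs]
        exact ENNReal.ofReal_le_ofReal (le_abs_self _)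
    _ ≤ ∫⁻ p, ‖∫ y, F y p‖ₑ := enorm_integral_le_lintegral_enorm _
    _ ≤ ∫⁻ p : (ι → ℝ) × (ι → ℝ), ENNReal.ofReal ((θ / s) ^ hd ι / 2) *
          (Gs θ p.1 * (Gs θ p.2 * Gs (θ ^ 2 / s) ((1 : ℝ) • p.2 + p.1)) +
            Gs θ p.1 * (Gs θ p.2 * Gs (θ ^ 2 / s) ((-1 : ℝ) • p.2 + p.1))) := by
        refine lintegral_mono fun p => ?_
        have k1 := l21_inner hn hs z p.1 p.2
        have k2 : h p.1 * h p.2 ≤ gs θ p.1 * gs θ p.2 :=
          mul_le_mul (hh.le _) (hh.le _) (hh.nonneg _) (l21_gs_pos _ _).le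
        have g1 := l21_gs_pos θ p.1
        have g2 := l21_gs_pos θ p.2
        have g3 := l21_gs_pos (θ ^ 2 / s) ((1 : ℝ) • p.2 + p.1)
        have g4 := l21_gs_pos (θ ^ 2 / s) ((-1 : ℝ) • p.2 + p.1)
        simp only [hF, Gs]
        rw [integral_const_mul, Real.enorm_eq_ofReal_abs, ← ENNReal.ofReal_mul g2.le,
          ← ENNReal.ofReal_mul g2.le, ← ENNReal.ofReal_mul g1.le, ← ENNReal.ofReal_mul g1.le,
          ← ENNReal.ofReal_add (by positivity) (by positivity), ← ENNReal.ofReal_mul hK, abs_mul,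
          abs_of_nonneg (mul_nonneg (hh.nonneg _) (hh.nonneg _))]
        refine ENNReal.ofReal_le_ofReal
          ((mul_le_mul k2 k1 (abs_nonneg _) (by positivity)).trans_eq ?_)
        ring
    _ = _ := by
        rw [lintegral_const_mul' _ _ ENNReal.ofReal_ne_top, lintegral_add_left (hm 1),
          l21_two hn hT (by norm_num), l21_two hn hT (by norm_num),
          ← ENNReal.ofReal_add (by positivity) (by positivity), ← ENNReal.ofReal_mul hK, ← hθ]
        congr 1
        have e : θ / (2 * θ + s) = θ / s * (θ / (θ + 2 * (θ ^ 2 / s))) := by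
          field_simp
          ring
        rw [e, Real.mul_rpow (by positivity) (by positivity)]
        ring

theorem l2_gauss (hh : Hf h) {s : ℝ} (hs : 0 ≤ s) (z : ι → ℝ) :
    ∫⁻ y, ENNReal.ofReal (ftr h y ^ 2) * Gs s (y + z) ≤
      ENNReal.ofReal ((th (hd ι) / (2 * th (hd ι) + s)) ^ hd ι) := by
  have hth : 0 < th (hd ι) := lt_of_lt_of_le (by norm_num) (th_ge (hd_ge hn))
  have hv : 0 ≤ hd ι := le_trans (by norm_num) (hd_ge hn)
  have hm : ∀ n : ℕ, Measurable fun y : ι → ℝ =>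
      ENNReal.ofReal (ftr h y ^ 2) * Gs (s + 1 / ((n : ℝ) + 1)) (y + z) := fun n =>
    (((measurable_ftr hh.meas).pow_const 2).ennreal_ofReal).mul
      ((measurable_Gs _).comp (measurable_add_const z))
  have hl : ∀ y : ι → ℝ, Filter.liminf (fun n : ℕ =>
      ENNReal.ofReal (ftr h y ^ 2) * Gs (s + 1 / ((n : ℝ) + 1)) (y + z)) Filter.atTop =
      ENNReal.ofReal (ftr h y ^ 2) * Gs s (y + z) := by
    intro y
    refine Filter.Tendsto.liminf_eq (ENNReal.Tendsto.const_mul ?_ (Or.inr ENNReal.ofReal_ne_top))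
    have h1 : Continuous fun t : ℝ => Gs t (y + z) := by
      unfold Gs gs
      exact ENNReal.continuous_ofReal.comp (by fun_prop)
    have h2 := (tendsto_one_div_add_atTop_nhds_zero_nat (𝕜 := ℝ)).const_add s
    rw [add_zero] at h2
    exact (h1.tendsto s).comp h2
  have h3 := lintegral_liminf_le (μ := volume) (u := Filter.atTop) hm
  simp only [hl] at h3
  refine h3.trans (Filter.liminf_le_of_frequently_le' (Filter.Frequently.of_forall fun n => ?_))
  have hn' : (0 : ℝ) < 1 / ((n : ℝ) + 1) := by positivity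
  refine (l21_pos hn hh (by linarith) z).trans (ENNReal.ofReal_le_ofReal ?_)
  gcongr
  linarith

omit hn in
private theorem l21_En {v s c : ℝ} (hv : 0 ≤ v) (h0 : 0 ≤ s) (h1 : s < 1)
    (hc : c ≤ -(s - (max (s - 1 / 5) 0) ^ 2 / 2)) : Real.exp (v * c) ≤ En v s := by
  rw [En, le_div_iff₀ (by linarith)]
  have h2 : Real.exp (v * c) ≤ Real.exp (-(v * (s - (max (s - 1 / 5) 0) ^ 2 / 2))) :=
    Real.exp_le_exp.2 (by nlinarith [mul_le_mul_of_nonneg_left hc hv])
  nlinarith [Real.exp_pos (v * c)]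

omit hn in
private theorem l21_log_le {s : ℝ} (h0 : 0 ≤ s) : -s ≤ -(1 / 5) - Real.log (4 / 5 + s) := by
  have := Real.log_le_sub_one_of_pos (show (0 : ℝ) < 4 / 5 + s by linarith)
  linarith

theorem end_A : End (iA : (ι → ℝ) → ℝ≥0∞) (VV (hd ι)) := by
  have hv := hd_ge hn
  have hv0 : 0 ≤ hd ι := le_trans (by norm_num) hv
  have hV : 0 ≤ VV (hd ι) := by
    have := lb_ge hv
    rw [VV]
    linarith
  have hsg := sg_ge hv
  have hth : 0 < th (hd ι) := lt_of_lt_of_le (by norm_num) (th_ge hv)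
  have key : ∀ s, 0 ≤ s → s < 1 → ∀ z : ι → ℝ,
      ∫⁻ y, iA y * Gs s (y + z) ≤ ENNReal.ofReal (VV (hd ι) * FF (hd ι) s) := by
    intro s h0 h1 z
    have h2 := free_peel hn (t := s) (c := 1) h0 (by simpa using h1) z
    simp only [one_smul, one_pow, mul_one] at h2
    refine h2.trans ?_
    exact mul_le_of_le_one_right' (Gs_le_one hn (mul_nonneg h0 (by linarith)) z)
  refine ⟨measurable_iA, hV, fun s h0 h1 z => ?_, fun s h0 z => ?_⟩
  · refine (key s h0 h1 z).trans (ENNReal.ofReal_le_ofReal (mul_le_mul_of_nonneg_left ?_ hV))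
    rw [FF, En]
    refine div_le_div_of_nonneg_right (Real.exp_le_exp.2 ?_) (by linarith)
    nlinarith [mul_nonneg hv0 (sq_nonneg (max (s - 1 / 5) 0))]
  · rw [mul_assoc (sg _), l21_rpow (by linarith)]
    rcases le_total s 0.9 with h1 | h1
    · refine (key s h0 (by linarith) z).trans
        (ENNReal.ofReal_le_ofReal (mul_le_mul_of_nonneg_left ?_ hV))
      rw [FF, div_le_iff₀ (by linarith)]
      have h2 : Real.exp (-(s * hd ι)) ≤
          Real.exp (hd ι * (-(1 / 5) - Real.log (4 / 5 + s))) :=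
        Real.exp_le_exp.2 (by nlinarith [mul_le_mul_of_nonneg_left (l21_log_le h0) hv0])
      have h3 : 1 ≤ sg (hd ι) * (1 - s) := by nlinarith
      nlinarith [mul_le_mul_of_nonneg_left h3
        (Real.exp_pos (hd ι * (-(1 / 5) - Real.log (4 / 5 + s)))).le]
    · have hs : 0 < s := by linarith
      have h2 : ∫⁻ y, iA y * Gs s (y + z) ≤ ∫⁻ y, Gs s (y + z) := by
        refine lintegral_mono fun y => mul_le_of_le_one_left' ?_
        exact Set.indicator_le_self' (fun _ _ => zero_le_one) y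
      refine h2.trans ?_
      rw [lintegral_Gs hn hs, Real.div_rpow hth.le hs.le, th_pow hv, Real.rpow_def_of_pos hs,
        mul_div_assoc, ← Real.exp_sub, mul_comm (sg _), mul_assoc]
      refine ENNReal.ofReal_le_ofReal (mul_le_mul_of_nonneg_left
        (mul_le_mul_of_nonneg_left (Real.exp_le_exp.2 ?_) (by linarith)) hV)
      have h3 : Real.log (4 / 5 + s) ≤ 4 / 5 + Real.log s := by
        rw [Real.log_le_iff_le_exp (by linarith), Real.exp_add, Real.exp_log hs]
        have := Real.quadratic_le_exp_of_nonneg (show (0 : ℝ) ≤ 4 / 5 by norm_num)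
        nlinarith
      nlinarith [mul_le_mul_of_nonneg_left h3 hv0]

private theorem l21_h (hh : Hf h) {s c : ℝ} (hs : 0 ≤ s) (h1 : -s ≤ c)
    (h2 : 1 ≤ 2 * th (hd ι) + s → 2 * th (hd ι) - 1 - Real.log (2 * th (hd ι) + s) ≤ c)
    (z : ι → ℝ) :
    ∫⁻ y, iA y * ENNReal.ofReal (ftr h y ^ 2) * Gs s (y + z) ≤
      ENNReal.ofReal (vp (hd ι) * Real.exp (hd ι * c)) := by
  have hv := hd_ge hn
  have hv0 : 0 ≤ hd ι := le_trans (by norm_num) hv
  have hth : 0 < th (hd ι) := lt_of_lt_of_le (by norm_num) (th_ge hv)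
  have hth' := th_le hv
  have hP : 0 < th (hd ι) ^ hd ι := by positivity
  rw [vp_eq hv, mul_assoc, ← Real.exp_add]
  set θ := th (hd ι) with hθ
  rcases le_total 1 (2 * θ + s) with h3 | h3
  · have h4 : ∫⁻ y, iA y * ENNReal.ofReal (ftr h y ^ 2) * Gs s (y + z) ≤
        ∫⁻ y, ENNReal.ofReal (ftr h y ^ 2) * Gs s (y + z) := by
      refine lintegral_mono fun y => ?_
      rw [mul_assoc]
      exact mul_le_of_le_one_left' (Set.indicator_le_self' (fun _ _ => zero_le_one) y)
    refine h4.trans ((l2_gauss hn hh hs z).trans (ENNReal.ofReal_le_ofReal ?_))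
    have h5 : 0 < 2 * θ + s := by linarith
    rw [← hθ, Real.div_rpow hth.le h5.le, Real.rpow_def_of_pos h5, div_eq_mul_inv,
      ← Real.exp_neg]
    refine mul_le_mul_of_nonneg_left (Real.exp_le_exp.2 ?_) hP.le
    nlinarith [mul_le_mul_of_nonneg_left (h2 h3) hv0]
  · have ha : 0 ≤ 1 - 2 * θ - s := by linarith
    have hp : 0 < (1 - 2 * θ - s) + s * (1 : ℝ) ^ 2 := by linarith
    have h4 : ∀ y : ι → ℝ, iA y * ENNReal.ofReal (ftr h y ^ 2) * Gs s (y + z) ≤
        ENNReal.ofReal (Real.exp ((1 - 2 * θ - s) * hd ι)) * (ENNReal.ofReal (ftr h y ^ 2) *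
          Gs ((1 - 2 * θ - s) + s * (1 : ℝ) ^ 2)
            (y + (s * 1 / ((1 - 2 * θ - s) + s * (1 : ℝ) ^ 2)) • z)) := by
      intro y
      have k1 := (iA_le_iB y).trans (iB_le_Gs hn ha y)
      have k2 := Gs_mul (a := 1 - 2 * θ - s) (t := s) 1 hp y z
      rw [one_smul] at k2
      have k3 := Gs_le_one hn (div_nonneg (mul_nonneg ha hs) hp.le) z
      calc iA y * ENNReal.ofReal (ftr h y ^ 2) * Gs s (y + z)
          ≤ ENNReal.ofReal (Real.exp ((1 - 2 * θ - s) * hd ι)) * Gs (1 - 2 * θ - s) y *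
            ENNReal.ofReal (ftr h y ^ 2) * Gs s (y + z) := by gcongr
        _ = ENNReal.ofReal (Real.exp ((1 - 2 * θ - s) * hd ι)) * (ENNReal.ofReal (ftr h y ^ 2) *
            (Gs (1 - 2 * θ - s) y * Gs s (y + z))) := by ring
        _ ≤ _ := by
          rw [k2]
          gcongr
          exact mul_le_of_le_one_left' k3
    refine (lintegral_mono h4).trans ?_
    rw [lintegral_const_mul' _ _ ENNReal.ofReal_ne_top]
    refine (mul_le_mul_right (l2_gauss hn hh hp.le _) _).trans ?_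
    rw [← ENNReal.ofReal_mul (Real.exp_pos _).le, ← hθ]
    refine ENNReal.ofReal_le_ofReal ?_
    have e : 2 * θ + (1 - 2 * θ - s + s * 1 ^ 2) = 1 := by ring
    rw [e, div_one, mul_comm]
    refine mul_le_mul_of_nonneg_left (Real.exp_le_exp.2 ?_) hP.le
    nlinarith [mul_le_mul_of_nonneg_left h1 hv0]

theorem end_h (hh : Hf h) :
    End (fun y => iA y * ENNReal.ofReal (ftr h y ^ 2)) (vp (hd ι)) := by
  have hv := hd_ge hn
  have hv0 : 0 ≤ hd ι := le_trans (by norm_num) hv
  have hth' := th_le hv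
  have hvp := vp_pos hv
  have hsg := sg_ge hv
  refine ⟨measurable_iA.mul ((measurable_ftr hh.meas).pow_const 2).ennreal_ofReal, hvp.le,
    fun s h0 h1 z => ?_, fun s h0 z => ?_⟩
  · refine (l21_h hn hh (c := -(s - (max (s - 1 / 5) 0) ^ 2 / 2)) h0
      (by nlinarith [sq_nonneg (max (s - 1 / 5) 0)]) (fun h3 => ?_) z).trans
      (ENNReal.ofReal_le_ofReal (mul_le_mul_of_nonneg_left (l21_En hv0 h0 h1 le_rfl) hvp.le))
    have h4 := l21_log (u := 2 * th (hd ι) + s - 1) (by linarith)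
    rw [add_sub_cancel] at h4
    have h5 : (2 * th (hd ι) + s - 1) ^ 2 ≤ (max (s - 1 / 5) 0) ^ 2 :=
      pow_le_pow_left₀ (by linarith) (le_max_of_le_left (by linarith)) 2
    linarith
  · refine (l21_h hn hh (c := -(1 / 5) - Real.log (4 / 5 + s)) h0 (l21_log_le h0)
      (fun h3 => ?_) z).trans
      (ENNReal.ofReal_le_ofReal (mul_le_mul_of_nonneg_left ?_ hvp.le))
    · have h4 : 0 < 2 * th (hd ι) + s := by linarith
      have h5 := Real.log_le_sub_one_of_pos (div_pos (show (0 : ℝ) < 4 / 5 + s by linarith) h4)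
      rw [Real.log_div (by linarith) h4.ne'] at h5
      have h6 : (4 / 5 + s) / (2 * th (hd ι) + s) ≤ 1 + (4 / 5 - 2 * th (hd ι)) := by
        rw [div_le_iff₀ h4]
        nlinarith [mul_nonneg (show 0 ≤ 4 / 5 - 2 * th (hd ι) by linarith) (sub_nonneg.2 h3)]
      linarith
    · rw [mul_assoc (sg _), l21_rpow (by linarith)]
      exact le_mul_of_one_le_left (Real.exp_pos _).le (by linarith)

theorem End.mass {ρ : (ι → ℝ) → ℝ≥0∞} {m : ℝ} (h : End ρ m) : ∫⁻ y, ρ y ≤ ENNReal.ofReal m := by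
  have _ := hn
  have h1 := h.e1 0 le_rfl one_pos 0
  have h2 : En (hd ι) 0 = 1 := by
    rw [En, max_eq_right (by norm_num)]
    simp
  simpa [h2, Gs, gs] using h1

theorem End.smul {ρ : (ι → ℝ) → ℝ≥0∞} {m : ℝ} (h : End ρ m) {t c : ℝ} (ht : 0 ≤ t) (hc : c ≠ 0)
    (z : ι → ℝ) :
    (t * c ^ 2 < 1 →
      ∫⁻ y, ρ y * Gs t (c • y + z) ≤ ENNReal.ofReal (m * En (hd ι) (t * c ^ 2))) ∧
    ∫⁻ y, ρ y * Gs t (c • y + z) ≤ ENNReal.ofReal
      (m * (sg (hd ι) * Real.exp (-(hd ι / 5)) * (4 / 5 + t * c ^ 2) ^ (-hd ι))) := by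
  have _ := hn
  have h0 : 0 ≤ t * c ^ 2 := by positivity
  simp only [Gs_smul t c hc]
  exact ⟨fun h1 => h.e1 _ h0 h1 _, h.e2 _ h0 _⟩

end Pool.Agent.Eps.P
end
end

-- part Pool.Agent.Lib.MP_3bda03_nt.P.L2
section

/-!
Mean squares of the Fourier transform of a test function.
-/

set_option autoImplicit false

noncomputable section

open MeasureTheory Matrix
open scoped ENNReal

namespace Pool.Agent.Eps.P

open Pool.Agent.Eps.H

theorem l2b_gam {a r : ℝ} (ha : 0 < a) (hr : 0 < r) :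
    ∫⁻ s in Set.Ioi (0 : ℝ), ENNReal.ofReal (s ^ (a - 1) * Real.exp (-(r * s))) =
      ENNReal.ofReal (r ^ (-a) * Real.Gamma a) := by
  have key := Real.integral_rpow_mul_exp_neg_mul_Ioi ha hr
  have hG := Real.Gamma_pos_of_pos ha
  rw [← ofReal_integral_eq_lintegral_ofReal (.of_integral_ne_zero (by rw [key]; positivity))
    ((ae_restrict_mem measurableSet_Ioi).mono fun s (hs : 0 < s) => by
      show (0 : ℝ) ≤ _
      positivity),
    key, one_div, Real.inv_rpow hr.le, Real.rpow_neg hr.le]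

theorem l2b_beta {a v p q : ℝ} (ha : 0 < a) (hv : a < v) (hp : 0 < p) (hq : 0 < q) :
    ∫⁻ s in Set.Ioi (0 : ℝ), ENNReal.ofReal (s ^ (a - 1)) * ENNReal.ofReal ((p + s * q) ^ (-v)) =
      ENNReal.ofReal (q ^ (-a) * Real.Gamma a * (p ^ (-(v - a)) * Real.Gamma (v - a)) /
        Real.Gamma v) := by
  have hG := Real.Gamma_pos_of_pos (ha.trans hv)
  have hA := Real.Gamma_pos_of_pos ha
  have h0 : ENNReal.ofReal (Real.Gamma v) ≠ 0 := by simpa using hG
  rw [ENNReal.ofReal_div_of_pos hG, ENNReal.eq_div_iff h0 ENNReal.ofReal_ne_top,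
    ← lintegral_const_mul' _ _ ENNReal.ofReal_ne_top]
  calc _ = ∫⁻ s in Set.Ioi (0 : ℝ), ∫⁻ t in Set.Ioi (0 : ℝ), ENNReal.ofReal (s ^ (a - 1)) *
        ENNReal.ofReal (t ^ (v - 1) * Real.exp (-((p + s * q) * t))) := by
        refine setLIntegral_congr_fun measurableSet_Ioi fun s (hs : 0 < s) => ?_
        have h1 : 0 < p + s * q := by positivity
        rw [lintegral_const_mul' _ _ ENNReal.ofReal_ne_top, l2b_gam (ha.trans hv) h1,
          ENNReal.ofReal_mul (by positivity)]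
        ring
    _ = ∫⁻ t in Set.Ioi (0 : ℝ), ∫⁻ s in Set.Ioi (0 : ℝ), ENNReal.ofReal (s ^ (a - 1)) *
        ENNReal.ofReal (t ^ (v - 1) * Real.exp (-((p + s * q) * t))) := by
        refine lintegral_lintegral_swap (Measurable.aemeasurable ?_)
        unfold Function.uncurry
        fun_prop
    _ = ∫⁻ t in Set.Ioi (0 : ℝ), ENNReal.ofReal (q ^ (-a) * Real.Gamma a) *
        ENNReal.ofReal (t ^ (v - a - 1) * Real.exp (-(p * t))) := by
        refine setLIntegral_congr_fun measurableSet_Ioi fun t (ht : 0 < t) => ?_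
        have h1 : 0 < q * t := by positivity
        have h2 : ∫⁻ s in Set.Ioi (0 : ℝ), ENNReal.ofReal (s ^ (a - 1)) *
            ENNReal.ofReal (t ^ (v - 1) * Real.exp (-((p + s * q) * t))) =
            ∫⁻ s in Set.Ioi (0 : ℝ), ENNReal.ofReal (t ^ (v - 1) * Real.exp (-(p * t))) *
              ENNReal.ofReal (s ^ (a - 1) * Real.exp (-(q * t * s))) := by
          refine setLIntegral_congr_fun measurableSet_Ioi fun s (hs : 0 < s) => ?_
          rw [← ENNReal.ofReal_mul (by positivity), ← ENNReal.ofReal_mul (by positivity),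
            show -((p + s * q) * t) = -(p * t) + -(q * t * s) by ring, Real.exp_add]
          congr 1
          ring
        rw [h2, lintegral_const_mul' _ _ ENNReal.ofReal_ne_top, l2b_gam ha h1,
          ← ENNReal.ofReal_mul (by positivity), ← ENNReal.ofReal_mul (by positivity),
          Real.mul_rpow hq.le ht.le, show v - a - 1 = v - 1 + -a by ring, Real.rpow_add ht]
        congr 1
        ring
    _ = _ := by
        rw [lintegral_const_mul' _ _ ENNReal.ofReal_ne_top, l2b_gam (sub_pos.2 hv) hp,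
          ← ENNReal.ofReal_mul (by positivity)]

theorem l2b_num {v k c : ℝ} (hv : 97 / 2 ≤ v) (hk : 0.10145763 ≤ k) (hc : 3 ≤ |c|) :
    4.14 * (0.45 * v / (Real.exp 1 * k)) ^ (0.45 * v) * Real.exp (-(v / 5)) *
      ((c ^ 2) ^ (-(0.45 * v)) * (4 / 5 : ℝ) ^ (-(v - 0.45 * v)) *
        (1.36 * (0.55 : ℝ) ^ (0.55 * v) * v ^ (-(0.45 * v)) * Real.exp (0.45 * v))) ≤
      5.64 * Real.exp (-(0.7244 * v)) * (3 / |c|) ^ (0.9 * v) := by
  have h0 : 0 < v := by linarith
  have h1 : 0 < k := by linarith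
  have h2 : 0 < |c| := by linarith
  have h3 := Real.log_two_gt_d9
  have h4 : 0.01447 ≤ Real.log (10 * k) :=
    le_trans (le_trans (by norm_num) (Real.le_log_one_add_of_nonneg (x := 0.0145763)
      (by norm_num))) (Real.log_le_log (by norm_num) (by linarith))
  have h5 : 0.05622 ≤ Real.log (128 / 121) :=
    le_trans (le_trans (by norm_num) (Real.le_log_one_add_of_nonneg (x := 7 / 121)
      (by norm_num))) (Real.log_le_log (by norm_num) (by norm_num))
  have e1 : Real.log (0.45 * v / (Real.exp 1 * k)) =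
      Real.log v - 1 + 2 * Real.log 3 - Real.log 2 - Real.log (10 * k) := by
    rw [show 0.45 * v / (Real.exp 1 * k) = v / Real.exp 1 * 3 ^ 2 / 2 / (10 * k) by
      field_simp; norm_num, Real.log_div (by positivity) (by positivity),
      Real.log_div (by positivity) (by positivity), Real.log_mul (by positivity) (by positivity),
      Real.log_div (by positivity) (by positivity), Real.log_exp, Real.log_pow]
    norm_num
  have e2 : Real.log (c ^ 2) = 2 * Real.log |c| := by
    rw [← sq_abs, Real.log_pow]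
    norm_num
  have e3 : 2 * (Real.log (4 / 5) - Real.log 0.55) = Real.log 2 + Real.log (128 / 121) := by
    rw [← Real.log_div (by norm_num) (by norm_num), ← Real.log_mul (by norm_num) (by norm_num),
      show (2 : ℝ) * (128 / 121) = (4 / 5 / 0.55) ^ 2 by norm_num, Real.log_pow]
    norm_num
  rw [Real.rpow_def_of_pos (by positivity), Real.rpow_def_of_pos (sq_pos_of_pos h2 |>.trans_eq
    (sq_abs c)), Real.rpow_def_of_pos (by norm_num), Real.rpow_def_of_pos (by norm_num),
    Real.rpow_def_of_pos h0, Real.rpow_def_of_pos (by positivity), e1, e2,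
    Real.log_div (by norm_num : (3 : ℝ) ≠ 0) h2.ne']
  have key : ∀ A B C D E F G P Q : ℝ, A + B + C + D + E + F + G ≤ P + Q →
      4.14 * Real.exp A * Real.exp B * (Real.exp C * Real.exp D *
        (1.36 * Real.exp E * Real.exp F * Real.exp G)) ≤ 5.64 * Real.exp P * Real.exp Q := by
    intro A B C D E F G P Q hle
    have k1 := Real.exp_le_exp.2 hle
    simp only [Real.exp_add] at k1
    have k2 : 0 < Real.exp P * Real.exp Q := by positivity
    nlinarith
  refine key _ _ _ _ _ _ _ _ _ ?_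
  have k3 : 0 ≤ v * (0.45 * (Real.log 2 + Real.log (10 * k)) +
      0.55 * (Real.log (4 / 5) - Real.log 0.55) - 0.5244) :=
    mul_nonneg h0.le (by linarith)
  nlinarith

variable {ι : Type} [Fintype ι] {h : (ι → ℝ) → ℝ} (hn : 97 ≤ Fintype.card ι)
include hn

/-- negative moments through a mixture of Gaussians -/
theorem End.env {ρ : (ι → ℝ) → ℝ≥0∞} {m : ℝ} (h : End ρ m) {c : ℝ} (hc : 3 ≤ |c|) (z : ι → ℝ) :
    ∫⁻ y, ρ y * ENNReal.ofReal (Ev (3 / 4) (c • y + z)) ≤ ENNReal.ofReal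
      (m * (5.64 * sg (hd ι) * Real.exp (-(0.7244 * hd ι)) * (3 / |c|) ^ (0.9 * hd ι))) := by
  have hv := hd_ge hn
  have ht := th_ge hv
  have hsg := sg_ge hv
  have hm := h.nonneg
  have : Nonempty ι := Fintype.card_pos_iff.1 (by omega)
  set v := hd ι with hv'
  have h0 : 0 < v := by linarith
  have ha : 0 < 0.45 * v := by linarith
  have hc0 : c ≠ 0 := abs_pos.1 (by linarith)
  have hk : 0.10145763 ≤ th v ^ 2 * (3 / 4) := by nlinarith
  set k := th v ^ 2 * (3 / 4) with hk'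
  have hk0 : 0 < k := by linarith
  have hG := Real.Gamma_pos_of_pos ha
  have hG' := Real.Gamma_pos_of_pos h0
  set C := 4.14 * (0.45 * v / (Real.exp 1 * k)) ^ (0.45 * v) / Real.Gamma (0.45 * v) with hC
  have hC0 : 0 ≤ C := by positivity
  have h1 : ∀ w : ι → ℝ, w ≠ 0 → ENNReal.ofReal (Ev (3 / 4) w) ≤ ENNReal.ofReal C *
      ∫⁻ s in Set.Ioi (0 : ℝ), ENNReal.ofReal (s ^ (0.45 * v - 1)) * Gs s w := by
    intro w hw
    have k1 : 0 < nx w := div_pos (mul_pos h0 ((nsq_nonneg w).lt_of_ne'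
      fun k => hw (nsq_eq_zero.1 k))) (rr_pos hv)
    have k2 : ∫⁻ s in Set.Ioi (0 : ℝ), ENNReal.ofReal (s ^ (0.45 * v - 1)) * Gs s w =
        ENNReal.ofReal (nx w ^ (-(0.45 * v)) * Real.Gamma (0.45 * v)) := by
      rw [← l2b_gam ha k1]
      refine setLIntegral_congr_fun measurableSet_Ioi fun s (hs : 0 < s) => ?_
      simp only [Gs, gs]
      rw [← ENNReal.ofReal_mul (by positivity), mul_comm s]
    rw [k2, ← ENNReal.ofReal_mul hC0]
    refine ENNReal.ofReal_le_ofReal ((Env_le_pow hv (mul_pos hk0 k1)).trans_eq ?_)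
    rw [hC, ← mul_assoc (Real.exp 1), ← div_div, Real.div_rpow (by positivity) k1.le,
      Real.rpow_neg k1.le]
    field_simp
  have h2 : ∀ᵐ y : ι → ℝ, c • y + z ≠ 0 := by
    refine (Measure.ae_ne volume (-(c⁻¹ • z))).mono fun y hy k => hy ?_
    rw [eq_neg_of_add_eq_zero_left k |>.symm.trans rfl |> fun e => neg_eq_iff_eq_neg.1 e,
      smul_neg, smul_smul, inv_mul_cancel₀ hc0, one_smul, neg_neg]
  have hρ := h.meas
  have hx : Measurable (nx : (ι → ℝ) → ℝ) := measurable_nx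
  calc _ ≤ ∫⁻ y, ENNReal.ofReal C * ∫⁻ s in Set.Ioi (0 : ℝ),
        ENNReal.ofReal (s ^ (0.45 * v - 1)) * (ρ y * Gs s (c • y + z)) := by
        refine lintegral_mono_ae (h2.mono fun y hy => (mul_le_mul_right (h1 _ hy) _).trans_eq ?_)
        rw [mul_left_comm, ← lintegral_const_mul _ (by unfold Gs gs; fun_prop)]
        simp only [mul_left_comm]
    _ = ENNReal.ofReal C * ∫⁻ s in Set.Ioi (0 : ℝ),
        ENNReal.ofReal (s ^ (0.45 * v - 1)) * ∫⁻ y, ρ y * Gs s (c • y + z) := by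
        rw [lintegral_const_mul' _ _ ENNReal.ofReal_ne_top, lintegral_lintegral_swap
          (Measurable.aemeasurable (by unfold Function.uncurry Gs gs; fun_prop))]
        simp only [lintegral_const_mul' _ _ ENNReal.ofReal_ne_top]
    _ ≤ ENNReal.ofReal C * ∫⁻ s in Set.Ioi (0 : ℝ),
        ENNReal.ofReal (m * (sg v * Real.exp (-(v / 5)))) *
        (ENNReal.ofReal (s ^ (0.45 * v - 1)) * ENNReal.ofReal ((4 / 5 + s * c ^ 2) ^ (-v))) := by
        refine mul_le_mul_right (setLIntegral_mono' measurableSet_Ioi fun s (hs : 0 < s) =>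
          (mul_le_mul_right (h.smul hn hs.le hc0 z).2 _).trans_eq ?_) _
        rw [← mul_assoc m, ENNReal.ofReal_mul (by positivity), mul_left_comm]
    _ ≤ _ := by
        rw [lintegral_const_mul' _ _ ENNReal.ofReal_ne_top,
          l2b_beta ha (by linarith) (by norm_num) (by positivity),
          ← ENNReal.ofReal_mul (by positivity), ← ENNReal.ofReal_mul hC0]
        refine ENNReal.ofReal_le_ofReal ?_
        have k1 := l2b_num hv hk hc
        have k2 := gamma_ratio hv
        rw [show 0.55 * v = v - 0.45 * v by ring] at k2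
        rw [show (0.55 : ℝ) ^ (0.55 * v) = 0.55 ^ (v - 0.45 * v) by ring_nf] at k1
        have k3 := mul_le_mul_of_nonneg_left k2 (show 0 ≤ 4.14 *
          (0.45 * v / (Real.exp 1 * k)) ^ (0.45 * v) * Real.exp (-(v / 5)) *
          ((c ^ 2) ^ (-(0.45 * v)) * (4 / 5 : ℝ) ^ (-(v - 0.45 * v))) by positivity)
        have k4 := mul_le_mul_of_nonneg_left (k3.trans (le_of_eq_of_le (by ring) k1))
          (show 0 ≤ m * sg v by positivity)
        refine le_of_eq_of_le ?_ (k4.trans_eq (by ring))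
        rw [hC]
        field_simp

theorem PP_sq_le (hh : Hf h) :
    PP h ^ 2 ≤ (1.0112 * VV (hd ι)) ^ 2 * vp (hd ι) / VV (hd ι) := by
  have hv := hd_ge hn
  have hV : 0 < VV (hd ι) := by have := lb_ge hv; unfold VV; linarith
  have hp := vp_pos hv
  set V := VV (hd ι)
  set p := vp (hd ι)
  obtain ⟨l, hl, hl2⟩ : ∃ l : ℝ, 0 < l ∧ l ^ 2 = V * p :=
    ⟨Real.sqrt (V * p), by positivity, Real.sq_sqrt (by positivity)⟩
  have h1 : ‖PP h‖ₑ ≤ ENNReal.ofReal (1.011 * l) := by
    refine (enorm_integral_le_lintegral_enorm _).trans ?_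
    calc _ ≤ ∫⁻ y in AA ι, (ENNReal.ofReal (1.011 * l / (2 * p)) * ENNReal.ofReal (ftr h y ^ 2) +
          ENNReal.ofReal (1.011 * l / (2 * V))) := by
          refine setLIntegral_mono' measurableSet_AA fun y hy => ?_
          obtain ⟨k1, -, k2⟩ := wA_bounds hn hy
          rw [← ENNReal.ofReal_mul (by positivity),
            ← ENNReal.ofReal_add (by positivity) (by positivity), Real.enorm_eq_ofReal_abs,
            abs_mul, abs_of_nonneg (by linarith : 0 ≤ wA y), ← sq_abs]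
          refine ENNReal.ofReal_le_ofReal
            ((mul_le_mul_of_nonneg_right k2 (abs_nonneg _)).trans ?_)
          generalize |ftr h y| = x
          have k3 : p = l ^ 2 / V := by rw [hl2]; field_simp
          have k4 : 1.011 * l / (2 * p) * x ^ 2 + 1.011 * l / (2 * V) - 1.011 * x =
              1.011 * (V * x - l) ^ 2 / (2 * V * l) := by
            rw [k3]
            field_simp
            ring
          have k5 : 0 ≤ 1.011 * (V * x - l) ^ 2 / (2 * V * l) := by positivity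
          linarith
      _ ≤ ENNReal.ofReal (1.011 * l / (2 * p)) * ENNReal.ofReal p +
          ENNReal.ofReal (1.011 * l / (2 * V)) * ENNReal.ofReal V := by
          rw [lintegral_add_right _ measurable_const, lintegral_const_mul' _ _
            ENNReal.ofReal_ne_top, setLIntegral_const]
          refine add_le_add (mul_le_mul_right (le_of_eq_of_le ?_ ((end_h hn hh).mass hn)) _)
            (mul_le_mul_right ?_ _)
          · rw [← lintegral_indicator measurableSet_AA]
            refine lintegral_congr fun y => ?_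
            unfold iA
            by_cases k : y ∈ AA ι <;> simp [k]
          · rw [volume_AA hn]
            exact ENNReal.ofReal_le_ofReal (mul_le_of_le_one_right hV.le
              (sub_le_self _ (by positivity)))
      _ = _ := by
          rw [← ENNReal.ofReal_mul (by positivity), ← ENNReal.ofReal_mul (by positivity),
            ← ENNReal.ofReal_add (by positivity) (by positivity)]
          congr 1
          field_simp
          ring
  rw [Real.enorm_eq_ofReal_abs, ENNReal.ofReal_le_ofReal_iff (by positivity)] at h1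
  have h2 : PP h ^ 2 ≤ (1.011 * l) ^ 2 := by
    rw [← sq_abs]
    exact pow_le_pow_left₀ (abs_nonneg _) h1 2
  have h3 : (1.0112 * V) ^ 2 * p / V = 1.0112 ^ 2 * l ^ 2 := by
    rw [hl2]
    field_simp
  rw [h3]
  nlinarith [sq_nonneg l]

theorem QQ_nonneg : 0 ≤ QQ h :=
  integral_nonneg fun _ => mul_nonneg (Real.exp_pos _).le (sq_nonneg _)

theorem ctr_sq_le (hh : Hf h) (m : ℝ) : (ctr h - m) ^ 2 ≤ 3 * m ^ 2 + 6 := by
  have h1 := (PP_sq_le hn hh).trans (PP_size (hd_ge hn))
  have h2 := (hh.integrable hn).2.2.1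
  have h3 : 0 ≤ ∫ y, h y := integral_nonneg hh.nonneg
  unfold ctr
  generalize ∫ y, h y = I at h2 h3 ⊢
  nlinarith [sq_nonneg (I + PP h), sq_nonneg (I + m), sq_nonneg (PP h - m)]

theorem l2_two (hh : Hf h) :
    (th (hd ι) / (2 * th (hd ι) + (1 / (4 - 1.2) - 1 / 4))) ^ hd ι * eL (hd ι) 1.2 ≤
      0.68 * Real.exp (-(0.0214 * hd ι)) * vp (hd ι) := by
  have hv := hd_ge hn
  generalize hd ι = v at hv ⊢
  have h0 : 0 < v := by linarith
  have h1 := tC_le hv
  have h2 := th_le hv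
  have h3 := th_ge hv
  have hs : (1 / (4 - 1.2) - 1 / 4 : ℝ) = 3 / 28 := by norm_num
  obtain ⟨e, he⟩ : ∃ e, e = 2 * th v - 0.7356 := ⟨_, rfl⟩
  have he0 : 0 ≤ e := by linarith
  have he1 : 2.7 ≤ v * e := by
    have k : v * tC v = 0.3678 * v + 1.35 := by unfold tC; field_simp
    nlinarith
  obtain ⟨b, hb⟩ : ∃ b : ℝ, b = 0.7356 + 3 / 28 := ⟨_, rfl⟩
  have hb0 : 0 < b := by rw [hb]; norm_num
  have k1 : 1.14293 * e ≤ Real.log (2 * th v + 3 / 28) - Real.log b := by
    rw [← Real.log_div (by positivity) hb0.ne', show (2 * th v + 3 / 28) / b = 1 + e / b by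
      field_simp; linarith]
    refine le_trans ?_ (Real.le_log_one_add_of_nonneg (by positivity))
    rw [le_div_iff₀ (by positivity), hb, show e / (0.7356 + 3 / 28) = e * (70000 / 58992) by
      rw [div_eq_mul_inv]; norm_num]
    nlinarith [mul_nonneg he0 (show 0 ≤ 0.0644 - e by linarith)]
  have k2 : 0.1855715 ≤ Real.log b - Real.log (1 - 1.2 / 4) := by
    rw [← Real.log_div hb0.ne' (by norm_num), Real.le_log_iff_exp_le (by rw [hb]; norm_num), hb]
    refine (Real.exp_bound' (n := 5) (by norm_num) (by norm_num) (by norm_num)).trans ?_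
    simp only [Finset.sum_range_succ, Finset.sum_range_zero, Nat.factorial]
    norm_num
  have k3 : Real.exp (-0.3859) ≤ 0.68 := by
    have k := Real.sum_le_exp_of_nonneg (x := 0.3859) (by norm_num) 5
    simp only [Finset.sum_range_succ, Finset.sum_range_zero, Nat.factorial] at k
    rw [Real.exp_neg, inv_le_comm₀ (Real.exp_pos _) (by norm_num)]
    exact le_trans (by norm_num) k
  rw [hs, vp_eq hv, Real.div_rpow (by linarith) (by linarith),
    Real.rpow_def_of_pos (x := 2 * th v + 3 / 28) (by linarith), eL, div_eq_mul_inv,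
    ← Real.exp_neg, mul_assoc, ← Real.exp_add]
  have k4 : Real.exp (-(Real.log (2 * th v + 3 / 28) * v) +
      v * (Real.log (1 - 1.2 / 4) + 1.2 / (4 - 1.2))) ≤
      Real.exp (-0.3859) * (Real.exp (-(0.0214 * v)) * Real.exp (v * (1 - 2 * th v))) := by
    rw [← Real.exp_add, ← Real.exp_add, Real.exp_le_exp, show (1.2 / (4 - 1.2) : ℝ) = 3 / 7 by
      norm_num, show 1 - 2 * th v = 0.2644 - e by linarith]
    nlinarith [mul_le_mul_of_nonneg_left k1 h0.le, mul_le_mul_of_nonneg_left k2 h0.le]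
  have k5 : 0 ≤ th v ^ v := by positivity
  refine (mul_le_mul_of_nonneg_left (k4.trans (mul_le_mul_of_nonneg_right k3 (by positivity)))
    k5).trans_eq (by ring)

end Pool.Agent.Eps.P
end
end

-- part Pool.Agent.Lib.MP_3bda03_nt.P.FreeA
section

/-!
Means over free frames: general rules and classes with small coefficients.
-/

set_option autoImplicit false

noncomputable section

open MeasureTheory Matrix
open scoped ENNReal

namespace Pool.Agent.Eps.P

open Pool.Agent.Eps.H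

variable {ι : Type} [Fintype ι] {τ : Type} [Fintype τ] [DecidableEq τ] {h : (ι → ℝ) → ℝ}

/-- chain of `m` averaging steps and one last step -/
def chf (v : ℝ) : ℕ → ℝ → ℝ
  | 0, t => En v t
  | m + 1, t => FF v t * chf v m (t * (1 - t))

theorem freea_V (hn : 97 ≤ Fintype.card ι) : 0 < VV (hd ι) := by
  have := lb_ge (hd_ge hn)
  unfold VV
  linarith

theorem freea_row (i : τ) : Measurable fun U : Matrix τ ι ℝ => U i := measurable_pi_apply i

theorem freea_meas {ρ : (ι → ℝ) → ℝ≥0∞} (hρ : Measurable ρ) (i : τ) :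
    Measurable fun U : Matrix τ ι ℝ => (∏ j ∈ Finset.univ.erase i, iA (U j)) * ρ (U i) :=
  (Finset.measurable_prod _ fun j _ => measurable_iA.comp (freea_row j)).mul (hρ.comp (freea_row i))

theorem freea_prod {M : Type*} [CommMonoid M] (f : τ → M) (g : M) (i : τ) :
    ∏ x, (if x = i then g else f x) = (∏ j ∈ Finset.univ.erase i, f j) * g := by
  rw [← Finset.prod_erase_mul _ _ (Finset.mem_univ i), if_pos rfl]
  exact congrArg (· * g) (Finset.prod_congr rfl fun j hj => if_neg (Finset.ne_of_mem_erase hj))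

theorem freea_IA (U : Matrix τ ι ℝ) (i : τ) :
    IA U = (∏ j ∈ Finset.univ.erase i, iA (U j)) * iA (U i) :=
  (Finset.prod_erase_mul _ _ (Finset.mem_univ i)).symm

theorem freea_pow (x : ℝ) (i : τ) : x ^ (Fintype.card τ - 1) * x = x ^ Fintype.card τ := by
  rw [← pow_succ, Nat.sub_add_cancel (Fintype.card_pos_iff.2 ⟨i⟩)]

theorem Joint.mono {F F' : Matrix τ ι ℝ → ℝ≥0∞} {b b' : ℝ} (h : Joint F b) (hF : ∀ U, F' U ≤ F U)
    (hn : 97 ≤ Fintype.card ι) (hb : b ≤ b') : Joint F' b' := by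
  have hV := (freea_V hn).le
  refine ⟨h.1.trans hb, ?_, fun ρ m hρ i => ?_⟩
  · refine le_trans (lintegral_mono fun U => by gcongr; exact hF U) (h.2.1.trans ?_)
    exact ENNReal.ofReal_le_ofReal (by gcongr)
  · refine le_trans (lintegral_mono fun U => by gcongr; exact hF U) ((h.2.2 ρ m hρ i).trans ?_)
    have := hρ.nonneg
    exact ENNReal.ofReal_le_ofReal (by gcongr)

variable (hn : 97 ≤ Fintype.card ι)
include hn

theorem joint_const {c : ℝ} (hc : 0 ≤ c) :
    Joint (fun _ : Matrix τ ι ℝ => ENNReal.ofReal c) c := by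
  have hV := (freea_V hn).le
  have hA := (end_A hn).mass hn
  refine ⟨hc, ?_, fun ρ m hρ i => ?_⟩
  · rw [lintegral_mul_const _ measurable_IA, ENNReal.ofReal_mul (pow_nonneg hV _),
      ENNReal.ofReal_pow hV, ← pw_volume]
    gcongr
    refine (lintegral_pw_prod (fun _ : τ => iA) fun _ => measurable_iA).trans_le ?_
    rw [Finset.prod_const, Finset.card_univ]
    gcongr
  · have hm := hρ.nonneg
    rw [lintegral_mul_const _ (freea_meas hρ.meas i),
      ENNReal.ofReal_mul (mul_nonneg (pow_nonneg hV _) hm), ENNReal.ofReal_mul (pow_nonneg hV _),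
      ENNReal.ofReal_pow hV, ← pw_volume]
    gcongr
    have e := lintegral_pw_prod (Λ := volume) (fun x : τ => if x = i then ρ else iA) fun x => by
      split_ifs
      exacts [hρ.meas, measurable_iA]
    simp only [ite_apply] at e
    have e1 : ∀ U : Matrix τ ι ℝ, ∏ x, (if x = i then ρ (U x) else iA (U x)) =
        (∏ j ∈ Finset.univ.erase i, iA (U j)) * ρ (U i) := fun U => by
      rw [← freea_prod (fun j => iA (U j))]
      exact Finset.prod_congr rfl fun x _ => by split_ifs with h <;> simp [h]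
    have e2 : ∏ x, ∫⁻ y : ι → ℝ, (if x = i then ρ y else iA y) =
        (∏ _j ∈ Finset.univ.erase i, ∫⁻ y : ι → ℝ, iA y) * ∫⁻ y, ρ y := by
      rw [← freea_prod (fun _ => ∫⁻ y : ι → ℝ, iA y)]
      exact Finset.prod_congr rfl fun x _ => by split_ifs <;> rfl
    simp only [e1, e2] at e
    rw [e, Finset.prod_const, Finset.card_erase_of_mem (Finset.mem_univ i), Finset.card_univ]
    gcongr
    exact hρ.mass hn

theorem Joint.add {F F' : Matrix τ ι ℝ → ℝ≥0∞} {b b' : ℝ} (h : Joint F b) (h' : Joint F' b')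
    (hF : Measurable F) (hF' : Measurable F') : Joint (fun U => F U + F' U) (b + b') := by
  have hV := (freea_V hn).le
  refine ⟨add_nonneg h.1 h'.1, ?_, fun ρ m hρ i => ?_⟩
  · simp only [mul_add]
    rw [lintegral_add_left (measurable_IA.fun_mul hF), ENNReal.ofReal_add
      (mul_nonneg (pow_nonneg hV _) h.1) (mul_nonneg (pow_nonneg hV _) h'.1)]
    exact add_le_add h.2.1 h'.2.1
  · have hm := mul_nonneg (pow_nonneg hV (Fintype.card τ - 1)) hρ.nonneg
    simp only [mul_add]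
    rw [lintegral_add_left ((freea_meas hρ.meas i).fun_mul hF), ENNReal.ofReal_add
      (mul_nonneg hm h.1) (mul_nonneg hm h'.1)]
    exact add_le_add (h.2.2 ρ m hρ i) (h'.2.2 ρ m hρ i)

theorem Joint.const_mul {F : Matrix τ ι ℝ → ℝ≥0∞} {b c : ℝ} (h : Joint F b) (hc : 0 ≤ c)
    (hF : Measurable F) : Joint (fun U => ENNReal.ofReal c * F U) (c * b) := by
  refine ⟨mul_nonneg hc h.1, ?_, fun ρ m hρ i => ?_⟩
  · simp only [mul_left_comm _ (ENNReal.ofReal c)]
    rw [lintegral_const_mul _ (measurable_IA.fun_mul hF), mul_left_comm _ c, ENNReal.ofReal_mul hc]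
    gcongr
    exact h.2.1
  · simp only [mul_left_comm _ (ENNReal.ofReal c)]
    rw [lintegral_const_mul _ ((freea_meas hρ.meas i).fun_mul hF), mul_left_comm _ c,
      ENNReal.ofReal_mul hc]
    gcongr
    exact h.2.2 ρ m hρ i

theorem joint_fs' {S : Set (τ → ℤ)} {f : (ι → ℝ) → ℝ≥0∞} (hf : Measurable f)
    {bd : (τ → ℤ) → ℝ} (h : ∀ κ ∈ S, Joint (fun U : Matrix τ ι ℝ => f (lv κ U)) (bd κ)) {B : ℝ}
    (hB : 0 ≤ B) (hs : cs S (fun κ => ENNReal.ofReal (bd κ)) ≤ ENNReal.ofReal B) :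
    Joint (fs' S f : Matrix τ ι ℝ → ℝ≥0∞) B := by
  have hV := (freea_V hn).le
  have key : ∀ {W : Matrix τ ι ℝ → ℝ≥0∞} {c : ℝ}, Measurable W → 0 ≤ c →
      (∀ κ ∈ S, ∫⁻ U, W U * f (lv κ U) ≤ ENNReal.ofReal (c * bd κ)) →
      ∫⁻ U, W U * fs' S f U ≤ ENNReal.ofReal (c * B) := fun {W c} hW hc H => by
    rw [lintegral_fs' _ S hW hf, ENNReal.ofReal_mul hc]
    refine le_trans ?_ (mul_le_mul_right hs _)
    unfold cs
    rw [← ENNReal.tsum_mul_left]
    exact ENNReal.tsum_le_tsum fun κ => (H κ.1 κ.2).trans_eq (ENNReal.ofReal_mul hc)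
  exact ⟨hB, key measurable_IA (pow_nonneg hV _) fun κ hκ => (h κ hκ).2.1,
    fun ρ m hρ i => key (freea_meas hρ.meas i) (mul_nonneg (pow_nonneg hV _) hρ.nonneg)
      fun κ hκ => (h κ hκ).2.2 ρ m hρ i⟩

/-- the general chain: `l` avoids the weighted row, the last step holds for every density -/
theorem joint_peel {κ : τ → ℤ} {G0 : (ι → ℝ) → ℝ≥0∞} {bd : ℝ} (hbd : 0 ≤ bd)
    (H : ∀ i : τ, ∃ (l : List τ) (k : τ) (G : ℕ → (ι → ℝ) → ℝ≥0∞) (m : ℕ → ℝ) (mk : ℝ),
      (l ++ [k]).Nodup ∧ i ∉ l ∧ G 0 = G0 ∧ (∀ j, Measurable (G j)) ∧ (∀ j, 0 ≤ m j) ∧ 0 ≤ mk ∧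
      (∀ (j : ℕ) (hj : j < l.length) (z : ι → ℝ),
        ∫⁻ u, iA u * G j ((κ l[j] : ℝ) • u + z) ≤
          ENNReal.ofReal (VV (hd ι) * m j) * G (j + 1) z) ∧
      (∀ (ρ : (ι → ℝ) → ℝ≥0∞) (μ : ℝ), End ρ μ → ∀ z : ι → ℝ,
        ∫⁻ u, ρ u * G l.length ((κ k : ℝ) • u + z) ≤ ENNReal.ofReal (μ * mk)) ∧
      (∏ j ∈ Finset.range l.length, m j) * mk ≤ bd)
    (hne : κ ≠ 0) : Joint (fun U : Matrix τ ι ℝ => G0 (lv κ U)) bd := by
  have hV := (freea_V hn).le
  have key : ∀ (ρ : (ι → ℝ) → ℝ≥0∞) (μ : ℝ), End ρ μ → ∀ i : τ,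
      ∫⁻ U : Matrix τ ι ℝ, (∏ j ∈ Finset.univ.erase i, iA (U j)) * ρ (U i) * G0 (lv κ U) ≤
        ENNReal.ofReal (VV (hd ι) ^ (Fintype.card τ - 1) * μ * bd) := by
    intro ρ μ hρ i
    obtain ⟨l, k, G, m, mk, h1, h2, rfl, h3, h4, h5, h6, h7, h8⟩ := H i
    let w : τ → ℝ := fun x => if x = i then μ else VV (hd ι)
    have hE : ∀ x, End (if x = i then ρ else iA) (w x) := fun x => by
      by_cases hx : x = i
      · simpa only [w, if_pos hx] using hρ
      · simpa only [w, if_neg hx] using end_A hn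
    have hp := peel_list volume (fun x => if x = i then ρ else iA) (fun x => (hE x).meas) κ l k h1
      G h3 (fun j => ENNReal.ofReal (VV (hd ι) * m j)) (ENNReal.ofReal (w k * mk))
      (fun j hj z => by
        rw [if_neg fun e : l[j] = i => h2 (e ▸ List.getElem_mem hj)]
        exact h6 j hj z)
      (fun z _ => h7 _ _ (hE k) z)
    have e1 : ∀ U : Matrix τ ι ℝ, ∏ x, (if x = i then ρ else iA) (U x) =
        (∏ j ∈ Finset.univ.erase i, iA (U j)) * ρ (U i) := fun U => by
      rw [← freea_prod (fun j => iA (U j))]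
      exact Finset.prod_congr rfl fun x _ => by split_ifs with h <;> simp [h]
    simp only [e1, pw_volume] at hp
    refine hp.trans ?_
    have hw : ∀ x, 0 ≤ w x := fun x => (hE x).nonneg
    have e2 : ∏ x, w x = VV (hd ι) ^ (Fintype.card τ - 1) * μ := by
      rw [freea_prod (fun _ => VV (hd ι)), Finset.prod_const,
        Finset.card_erase_of_mem (Finset.mem_univ i), Finset.card_univ]
    have hk : k ∉ l.toFinset := fun hk =>
      (List.nodup_append.1 h1).2.2 k (List.mem_toFinset.1 hk) k (List.mem_singleton_self k) rfl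
    have e3 : ∏ x, w x = VV (hd ι) ^ l.length * w k *
        ∏ x ∈ Finset.univ.filter (fun x => x ∉ l ++ [k]), w x := by
      rw [← Finset.prod_filter_mul_prod_filter_not Finset.univ (fun x => x ∈ l ++ [k])]
      congr 1
      have e4 : Finset.univ.filter (fun x => x ∈ l ++ [k]) = insert k l.toFinset := by
        ext x
        simp [or_comm]
      rw [e4, Finset.prod_insert hk, mul_comm, Finset.prod_congr rfl (g := fun _ => VV (hd ι))
        fun x hx => if_neg fun e : x = i => h2 (e ▸ List.mem_toFinset.1 hx), Finset.prod_const,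
        List.toFinset_card_of_nodup (List.nodup_append.1 h1).1]
    have p1 : 0 ≤ ∏ j ∈ Finset.range l.length, VV (hd ι) * m j :=
      Finset.prod_nonneg fun j _ => mul_nonneg hV (h4 j)
    calc _ ≤ (∏ j ∈ Finset.range l.length, ENNReal.ofReal (VV (hd ι) * m j)) *
          ENNReal.ofReal (w k * mk) *
          ∏ x ∈ Finset.univ.filter (fun x => x ∉ l ++ [k]), ENNReal.ofReal (w x) :=
        mul_le_mul_right (Finset.prod_le_prod' fun x _ => (hE x).mass hn) _
      _ = ENNReal.ofReal ((∏ j ∈ Finset.range l.length, VV (hd ι) * m j) * (w k * mk) *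
          ∏ x ∈ Finset.univ.filter (fun x => x ∉ l ++ [k]), w x) := by
        rw [ENNReal.ofReal_mul (mul_nonneg p1 (mul_nonneg (hw k) h5)), ENNReal.ofReal_mul p1,
          ENNReal.ofReal_prod_of_nonneg fun j _ => mul_nonneg hV (h4 j),
          ENNReal.ofReal_prod_of_nonneg fun x _ => hw x]
      _ ≤ _ := by
        refine ENNReal.ofReal_le_ofReal ?_
        rw [← e2, Finset.prod_mul_distrib, Finset.prod_const, Finset.card_range]
        calc _ = (∏ x, w x) * ((∏ j ∈ Finset.range l.length, m j) * mk) := by rw [e3]; ring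
          _ ≤ _ := mul_le_mul_of_nonneg_left h8 (Finset.prod_nonneg fun x _ => hw x)
  obtain ⟨i, -⟩ := Function.ne_iff.1 hne
  refine ⟨hbd, ?_, key⟩
  have := key _ _ (end_A hn) i
  simpa only [← freea_IA, freea_pow _ i] using this

theorem joint_unit {m : ℕ} {κ : τ → ℤ} (hκ : κ ∈ CG τ (m + 1)) {t : ℝ} (h0 : 0 ≤ t) (h1 : t < 1) :
    Joint (fun U : Matrix τ ι ℝ => Gs t (lv κ U)) (chf (hd ι) m t) := by
  let f : ℝ → ℝ := fun s => s * (1 - s)
  have hf : ∀ j, 0 ≤ f^[j] t ∧ f^[j] t < 1 := fun j => by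
    induction j with
    | zero => exact ⟨h0, h1⟩
    | succ j ih =>
      rw [Function.iterate_succ_apply']
      exact ⟨mul_nonneg ih.1 (sub_nonneg.2 ih.2.le), by simp only [f]; nlinarith [ih.1, ih.2]⟩
  have hc : ∀ (m : ℕ) (t : ℝ), (∏ j ∈ Finset.range m, FF (hd ι) (f^[j] t)) *
      En (hd ι) (f^[m] t) = chf (hd ι) m t := fun m => by
    induction m with
    | zero => intro t; simp [chf]
    | succ m ih =>
      intro t
      rw [Finset.prod_range_succ', chf, ← ih]
      simp only [Function.iterate_succ_apply, Function.iterate_zero_apply, f]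
      ring
  have p1 : ∀ j, 0 ≤ FF (hd ι) (f^[j] t) := fun j =>
    div_nonneg (Real.exp_pos _).le (sub_nonneg.2 (hf j).2.le)
  have p2 : 0 ≤ En (hd ι) (f^[m] t) := div_nonneg (Real.exp_pos _).le (sub_nonneg.2 (hf m).2.le)
  have hs : ∀ x, κ x ≠ 0 → ((κ x : ℤ) : ℝ) ^ 2 = 1 := fun x hx => by
    have h2 : (κ x).natAbs ≤ 1 :=
      (Finset.le_sup (f := fun i => (κ i).natAbs) (Finset.mem_univ x)).trans hκ.1
    rcases (by omega : κ x = 1 ∨ κ x = -1) with e | e <;> simp [e]
  have hS : m + 1 ≤ (Finset.univ.filter fun i => κ i ≠ 0).card := hκ.2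
  refine joint_peel hn (hc m t ▸ mul_nonneg (Finset.prod_nonneg fun j _ => p1 j) p2)
    (fun i => ?_) ?_
  · obtain ⟨T, hT, hm⟩ := Finset.exists_subset_card_eq
      (s := (Finset.univ.filter fun i => κ i ≠ 0).erase i) (n := m)
      (by have := Finset.pred_card_le_card_erase (s := Finset.univ.filter fun i => κ i ≠ 0) (a := i)
          omega)
    obtain ⟨k, hk, hk'⟩ := Finset.exists_mem_notMem_of_card_lt_card
      (s := T) (t := Finset.univ.filter fun i => κ i ≠ 0) (by omega)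
    have hl : T.toList.length = m := by rw [Finset.length_toList, hm]
    refine ⟨T.toList, k, fun j => Gs (f^[j] t), fun j => FF (hd ι) (f^[j] t), En (hd ι) (f^[m] t),
      ?_, fun hi => ?_, rfl, fun j => measurable_Gs _, p1, p2, fun j hj z => ?_,
      fun ρ μ hρ z => ?_, ?_⟩
    · refine List.nodup_append.2 ⟨T.nodup_toList, List.nodup_singleton k, fun a ha b hb e => ?_⟩
      rw [List.mem_singleton.1 hb] at e
      exact hk' (e ▸ Finset.mem_toList.1 ha)
    · exact Finset.notMem_erase i _ (hT (Finset.mem_toList.1 hi))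
    · have h2 := hs _ (Finset.mem_filter.1 (Finset.mem_of_mem_erase
        (hT (Finset.mem_toList.1 (List.getElem_mem hj))))).2
      have h3 := free_peel hn (c := (κ T.toList[j] : ℝ)) (hf j).1
        (by rw [h2, mul_one]; exact (hf j).2) z
      rw [h2, mul_one] at h3
      dsimp only
      rw [Function.iterate_succ_apply']
      exact h3
    · have h2 := hs _ (Finset.mem_filter.1 hk).2
      have h3 := (hρ.smul hn (c := (κ k : ℝ)) (hf m).1
        (Int.cast_ne_zero.2 (Finset.mem_filter.1 hk).2) z).1 (by rw [h2, mul_one]; exact (hf m).2)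
      rw [h2, mul_one] at h3
      rw [hl]
      exact h3
    · rw [hl]
      exact (hc m t).le
  · rintro rfl
    simp at hS

/-- the square of the main term against a class -/
theorem joint_s1 {F : Matrix τ ι ℝ → ℝ≥0∞} {bd : ℝ} (hJ : Joint F bd) (hF : Measurable F)
    (hh : Hf h) (m : ℝ) :
    ∫⁻ U, IA U * F U * ENNReal.ofReal (1.15 * s1 h m U ^ 2) ≤ ENNReal.ofReal
      (VV (hd ι) ^ Fintype.card τ * (bd * Yb (hd ι) m (Fintype.card τ))) := by
  have hV := freea_V hn
  have hv := vp_pos (hd_ge hn)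
  have hP := PP_sq_le hn hh
  set V := VV (hd ι)
  set b : ℝ := (Fintype.card τ : ℝ) with hb
  have b0 : 0 ≤ b := Nat.cast_nonneg _
  set c0 := 6.9 * m ^ 2 + 1.38 * (1.0112 * V + 2 * b) * (1.0112 * V * vp (hd ι) / V)
  set c1 := 1.38 * (1.0112 * V + 2 * b) * 2
  have p0 : 0 ≤ c0 := by positivity
  have p1 : 0 ≤ c1 := by positivity
  have hpt : ∀ U : Matrix τ ι ℝ, 1.15 * s1 h m U ^ 2 ≤ c0 + c1 * ∑ i, ftr h (U i) ^ 2 := fun U => by
    obtain ⟨x, hx⟩ : ∃ x, PP h = 1.0112 * V * x := ⟨PP h / (1.0112 * V), by field_simp⟩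
    have h1 : 0 ≤ ∑ i, (ftr h (U i) - x) ^ 2 := Finset.sum_nonneg fun i _ => sq_nonneg _
    have h2 : ∑ i, (ftr h (U i) - x) ^ 2 =
        ∑ i, ftr h (U i) ^ 2 - 2 * x * ∑ i, ftr h (U i) + b * x ^ 2 := by
      simp only [sub_sq, Finset.sum_add_distrib, Finset.sum_sub_distrib, Finset.mul_sum,
        Finset.sum_const, Finset.card_univ, nsmul_eq_mul, hb]
      congr 2
      exact Finset.sum_congr rfl fun i _ => by ring
    have h3 : (∑ i, ftr h (U i)) ^ 2 ≤ b * ∑ i, ftr h (U i) ^ 2 := by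
      simpa only [Finset.card_univ] using
        sq_sum_le_card_mul_sum_sq (s := Finset.univ) (f := fun i => ftr h (U i))
    have h4 : 1.0112 * V * x ^ 2 ≤ 1.0112 * V * vp (hd ι) / V := by
      rw [hx] at hP
      refine le_of_mul_le_mul_left ?_ (by positivity : 0 < 1.0112 * V)
      calc _ = (1.0112 * V * x) ^ 2 := by ring
        _ ≤ _ := hP
        _ = _ := by ring
    rw [h2] at h1
    unfold s1
    rw [hx]
    generalize ∑ i, ftr h (U i) = S at *
    generalize ∑ i, ftr h (U i) ^ 2 = Q at *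
    have h5 : (1.0112 * V * x + 2 * S) ^ 2 ≤
        (1.0112 * V + 2 * b) * (1.0112 * V * x ^ 2 + 2 * Q) := by
      nlinarith [mul_nonneg hV.le h1]
    have h6 : (1.0112 * V + 2 * b) * (1.0112 * V * x ^ 2) ≤
        (1.0112 * V + 2 * b) * (1.0112 * V * vp (hd ι) / V) :=
      mul_le_mul_of_nonneg_left h4 (by positivity)
    simp only [c0, c1]
    nlinarith [sq_nonneg (5 * m - (1.0112 * V * x + 2 * S))]
  have mf : ∀ i : τ, Measurable fun U : Matrix τ ι ℝ => ENNReal.ofReal (ftr h (U i) ^ 2) :=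
    fun i => (((measurable_ftr hh.meas).comp (freea_row i)).pow_const 2).ennreal_ofReal
  calc _ ≤ ∫⁻ U : Matrix τ ι ℝ, (ENNReal.ofReal c0 * (IA U * F U) + ENNReal.ofReal c1 *
        ∑ i, IA U * ENNReal.ofReal (ftr h (U i) ^ 2) * F U) := lintegral_mono fun U => by
        refine (mul_le_mul_right (ENNReal.ofReal_le_ofReal (hpt U)) _).trans_eq ?_
        rw [ENNReal.ofReal_add p0 (by positivity), ENNReal.ofReal_mul p1,
          ENNReal.ofReal_sum_of_nonneg fun i _ => sq_nonneg _, ← Finset.sum_mul, ← Finset.mul_sum]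
        ring
    _ = ENNReal.ofReal c0 * (∫⁻ U : Matrix τ ι ℝ, IA U * F U) + ENNReal.ofReal c1 *
        ∑ i, ∫⁻ U : Matrix τ ι ℝ, IA U * ENNReal.ofReal (ftr h (U i) ^ 2) * F U := by
        rw [lintegral_add_left ((measurable_IA.fun_mul hF).const_mul _),
          lintegral_const_mul _ (measurable_IA.fun_mul hF), lintegral_const_mul _
            (Finset.measurable_fun_sum _ fun i _ => (measurable_IA.fun_mul (mf i)).fun_mul hF),
          lintegral_finset_sum _ fun i _ => (measurable_IA.fun_mul (mf i)).fun_mul hF]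
    _ ≤ ENNReal.ofReal c0 * ENNReal.ofReal (V ^ Fintype.card τ * bd) + ENNReal.ofReal c1 *
        ∑ _i : τ, ENNReal.ofReal (V ^ Fintype.card τ / V * vp (hd ι) * bd) := by
        refine add_le_add (mul_le_mul_right hJ.2.1 _)
          (mul_le_mul_right (Finset.sum_le_sum fun i _ => ?_) _)
        have h1 := hJ.2.2 _ _ (end_h hn hh) i
        rw [← freea_pow V i, mul_div_cancel_right₀ _ hV.ne']
        simpa only [← mul_assoc, ← freea_IA] using h1
    _ = _ := by
        have := hJ.1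
        rw [← ENNReal.ofReal_sum_of_nonneg fun i _ => by positivity, ← ENNReal.ofReal_mul p0,
          ← ENNReal.ofReal_mul p1, ← ENNReal.ofReal_add (by positivity) (by positivity),
          Finset.sum_const, Finset.card_univ, nsmul_eq_mul]
        congr 1
        simp only [c0, c1, Yb, ← hb]
        ring

theorem measurable_s1 (hh : Hf h) (m : ℝ) : Measurable (s1 h m : Matrix τ ι ℝ → ℝ) :=
  ((Finset.measurable_sum _ fun i _ =>
    (measurable_ftr hh.meas).comp (freea_row i)).const_mul 2).const_add _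

end Pool.Agent.Eps.P
end
end
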