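import Pool.Agent.Lib.MP_3bda03_nt.P.FreeA

-- part Pool.Agent.Lib.MP_3bda03_nt.P.ChfNum
section

/-!
Numerical values of the free chains.
-/

set_option autoImplicit false

noncomputable section

open MeasureTheory Matrix
open scoped ENNReal

namespace Pool.Agent.Eps.P

open Pool.Agent.Eps.H

/-- an exponential bound -/
def ChfB (v x K A B : ℝ) : Prop := 0 ≤ x ∧ x ≤ K * Real.exp (-(A * v + B))

/-- an enclosure -/
def ChfI (v t p s T : ℝ) : Prop := p + s / v ≤ t ∧ t ≤ T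

/-- a lower bound of the exponential function -/
def chfS (y : ℝ) : ℝ := 1 + y + y ^ 2 / 2 + y ^ 3 / 6 + y ^ 4 / 24 + y ^ 5 / 120 + y ^ 6 / 720 +
  y ^ 7 / 5040 + y ^ 8 / 40320

section
variable {v x y K K' A A' B B' t p s T c : ℝ}

theorem chfS_le (h : 0 ≤ y) : chfS y ≤ Real.exp y := by
  have := Real.sum_le_exp_of_nonneg h 9
  simp only [Finset.sum_range_succ, Finset.sum_range_zero, Nat.factorial] at this
  rw [chfS]
  norm_num at this ⊢
  linarith

theorem ChfB.mul (h : ChfB v x K A B) (h' : ChfB v y K' A' B') :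
    ChfB v (x * y) (K * K') (A + A') (B + B') := by
  refine ⟨mul_nonneg h.1 h'.1, (mul_le_mul h.2 h'.2 h'.1 (h.1.trans h.2)).trans_eq ?_⟩
  rw [mul_mul_mul_comm, ← Real.exp_add]
  congr 2
  ring

theorem chfB_exp (hK : 0 ≤ K) (h : x ≤ -(A * v)) : ChfB v (K * Real.exp x) K A 0 :=
  ⟨by positivity, by rw [add_zero]; gcongr⟩

theorem chfB_const (hK : 0 ≤ K) : ChfB v K K 0 0 := ⟨hK, by simp⟩

theorem ChfB.fin (hv : 97 / 2 ≤ v) (h : ChfB v x K A B) (c A' : ℝ) (hc : 0 ≤ c) (hA : A' ≤ A)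
    (hB : 0 ≤ B) (hK : K ≤ c * chfS (B + (A - A') * (97 / 2))) :
    x ≤ c * Real.exp (-(A' * v)) := by
  have h1 : 0 ≤ A - A' := sub_nonneg.2 hA
  have h2 : K ≤ c * Real.exp (B + (A - A') * v) :=
    hK.trans (mul_le_mul_of_nonneg_left ((chfS_le (by positivity)).trans (by gcongr)) hc)
  refine h.2.trans ((mul_le_mul_of_nonneg_right h2 (Real.exp_pos _).le).trans_eq ?_)
  rw [mul_assoc, ← Real.exp_add]
  congr 2
  ring

theorem ChfI.mul (h : ChfI v t p s T) (c : ℝ) (hc : 0 ≤ c) :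
    ChfI v (c * t) (c * p) (c * s) (c * T) :=
  ⟨by rw [mul_div_assoc, ← mul_add]; exact mul_le_mul_of_nonneg_left h.1 hc,
    mul_le_mul_of_nonneg_left h.2 hc⟩

theorem chfI_const (t : ℝ) : ChfI v t t 0 t := ⟨by simp, le_rfl⟩

theorem chf_u (hv : 97 / 2 ≤ v) : 0 ≤ v⁻¹ ∧ v⁻¹ ≤ 2 / 97 :=
  ⟨inv_nonneg.2 (by linarith), by
    rw [inv_le_comm₀ (by linarith) (by norm_num)]; linarith⟩

theorem chfI_base (hv : 97 / 2 ≤ v) (hs : 0 ≤ s) : ChfI v (p + s / v) p s (p + s * (2 / 97)) :=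
  ⟨le_rfl, by rw [div_eq_mul_inv]; gcongr; exact (chf_u hv).2⟩

theorem ChfI.step (hv : 97 / 2 ≤ v) (h : ChfI v t p s T) (hT : T ≤ 1 / 2) :
    ChfI v (t * (1 - t)) (p * (1 - p)) (s * (1 - 2 * p - s * (2 / 97))) (T * (1 - T)) := by
  obtain ⟨h1, h2⟩ := h
  obtain ⟨u0, u1⟩ := chf_u hv
  rw [ChfI, div_eq_mul_inv] at *
  generalize v⁻¹ = u at *
  have a := mul_nonneg (mul_nonneg (sq_nonneg s) u0) (sub_nonneg.2 u1)
  have b := mul_nonneg (sub_nonneg.2 h1) (by linarith : 0 ≤ 1 - t - (p + s * u))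
  have d := mul_nonneg (sub_nonneg.2 h2) (by linarith : 0 ≤ 1 - t - T)
  constructor <;> nlinarith

theorem chf_core (hv : 97 / 2 ≤ v) (h : p + s / v ≤ x) (ht : t ≤ T) (hT : T < 1) :
    ChfB v (Real.exp (-(v * x)) / (1 - t)) (1 / (1 - T)) p s := by
  have h0 : 0 < v := by linarith
  have h1 : 0 < 1 - T := sub_pos.2 hT
  have h2 : 0 < 1 - t := by linarith
  have h3 := mul_le_mul_of_nonneg_left h h0.le
  rw [mul_add, mul_div_cancel₀ _ h0.ne'] at h3
  refine ⟨by positivity, ?_⟩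
  rw [one_div_mul_eq_div]
  gcongr
  linarith

theorem ChfI.ff (hv : 97 / 2 ≤ v) (h : ChfI v t p s T) (hT : T < 1) :
    ChfB v (FF v t) (1 / (1 - T)) p s := by
  rw [FF, mul_comm]
  exact chf_core hv h.1 h.2 hT

theorem ChfI.en (hv : 97 / 2 ≤ v) (h : ChfI v t p s T) (hT : T ≤ 1 / 5) :
    ChfB v (En v t) (1 / (1 - T)) p s := by
  refine chf_core hv ?_ h.2 (by linarith)
  rw [max_eq_right (by linarith [h.2])]
  simpa using h.1

theorem ChfI.en' (hv : 97 / 2 ≤ v) (h : ChfI v t p s T) (hT : T < 1) :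
    ChfB v (En v t) (1 / (1 - T)) (p - (p - 1 / 5) ^ 2 / 2) (s * (6 / 5 - p - s / 97)) := by
  refine chf_core hv ?_ h.2 hT
  obtain ⟨h1, h2⟩ := h
  obtain ⟨u0, u1⟩ := chf_u hv
  have e : max (t - 1 / 5) 0 ^ 2 ≤ (t - 1 / 5) ^ 2 := by
    rcases le_total (t - 1 / 5) 0 with k | k
    · rw [max_eq_right k]; simpa using sq_nonneg _
    · rw [max_eq_left k]
  rw [div_eq_mul_inv _ v] at *
  generalize v⁻¹ = u at *
  have a := mul_nonneg (mul_nonneg (sq_nonneg s) u0) (sub_nonneg.2 u1)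
  have b := mul_nonneg (sub_nonneg.2 h1) (by linarith : 0 ≤ 12 / 5 - t - (p + s * u))
  nlinarith

theorem chf_add {a b e : ℝ} (c : ℝ) (h : x ≤ a * e) (h' : y ≤ b * e) (hc : a + b = c) :
    x + y ≤ c * e := by
  rw [← hc, add_mul]; exact add_le_add h h'

end

variable {v : ℝ} (hv : 97 / 2 ≤ v)
include hv

theorem chf_t0 : ChfI v (t0 v) 0.0979 0.43 (0.0979 + 0.43 * (2 / 97)) := chfI_base hv (by norm_num)

omit hv in
theorem chf_dl : ChfB v (dl v) 4.14 0.5794 0 := chfB_exp (by norm_num) le_rfl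

theorem chf_fin {x K A B c : ℝ} (h : ChfB v x K A B) (A' : ℝ) (hc : 0.005 ≤ c) (hA : A' ≤ A)
    (hB : 0 ≤ B) (hK : 1.024 * K ≤ (c - 0.005) * chfS (B + (A - A') * (97 / 2)))
    (h1 : A' ≤ 0.5794) (h2 : 4.14 ≤ 0.005 * chfS (0 + (0.5794 - A') * (97 / 2))) :
    1.024 * x + dl v ≤ c * Real.exp (-(A' * v)) :=
  chf_add c (((chfB_const (by norm_num)).mul h).fin hv (c - 0.005) A' (sub_nonneg.2 hc)
    (by rwa [zero_add]) (by rwa [zero_add]) (by rwa [zero_add, zero_add]))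
    (chf_dl.fin hv 0.005 A' (by norm_num) h1 le_rfl h2) (by ring)

theorem chf_G2 : 1.024 * chf v 1 (t0 v) + dl v ≤ 0.6 * Real.exp (-(0.1862 * v)) := by
  have i0 := chf_t0 hv
  have i1 := i0.step hv (by norm_num)
  have h := (i0.ff hv (by norm_num)).mul
    (i1.en hv (by norm_num))
  refine chf_fin hv h _ ?_ ?_ ?_ ?_ ?_ ?_ <;> norm_num [chfS]

theorem chf_G3 : 1.024 * chf v 2 (t0 v) + dl v ≤ 0.5 * Real.exp (-(0.2667 * v)) := by
  have i0 := chf_t0 hv
  have i1 := i0.step hv (by norm_num)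
  have i2 := i1.step hv (by norm_num)
  have h := (i0.ff hv (by norm_num)).mul
    ((i1.ff hv (by norm_num)).mul
    (i2.en hv (by norm_num)))
  refine chf_fin hv h _ ?_ ?_ ?_ ?_ ?_ ?_ <;> norm_num [chfS]

theorem chf_G4 : 1.024 * chf v 3 (t0 v) + dl v ≤ 0.43 * Real.exp (-(0.3407 * v)) := by
  have i0 := chf_t0 hv
  have i1 := i0.step hv (by norm_num)
  have i2 := i1.step hv (by norm_num)
  have i3 := i2.step hv (by norm_num)
  have h := (i0.ff hv (by norm_num)).mul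
    ((i1.ff hv (by norm_num)).mul
    ((i2.ff hv (by norm_num)).mul
    (i3.en hv (by norm_num))))
  refine chf_fin hv h _ ?_ ?_ ?_ ?_ ?_ ?_ <;> norm_num [chfS]

theorem chf_G5 : 1.024 * chf v 4 (t0 v) + dl v ≤ 0.38 * Real.exp (-(0.4093 * v)) := by
  have i0 := chf_t0 hv
  have i1 := i0.step hv (by norm_num)
  have i2 := i1.step hv (by norm_num)
  have i3 := i2.step hv (by norm_num)
  have i4 := i3.step hv (by norm_num)
  have h := (i0.ff hv (by norm_num)).mul
    ((i1.ff hv (by norm_num)).mul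
    ((i2.ff hv (by norm_num)).mul
    ((i3.ff hv (by norm_num)).mul
    (i4.en hv (by norm_num)))))
  refine chf_fin hv h _ ?_ ?_ ?_ ?_ ?_ ?_ <;> norm_num [chfS]

theorem chf_GX : 1.024 * chf v 1 (tx v) + dx v ≤ 0.71 * Real.exp (-(0.2439 * v)) := by
  have i0 := chfI_base (p := 0.1305) (s := 0.388) hv (by norm_num)
  have i1 := i0.step hv (by norm_num)
  have h := (i0.ff hv (by norm_num)).mul
    (i1.en hv (by norm_num))
  refine chf_add _ (((chfB_const (by norm_num)).mul h).fin hv 0.7 _ ?_ ?_ ?_ ?_)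
    ((chfB_exp (A := 0.4) (by norm_num) le_rfl).fin hv 0.01 _ ?_ ?_ ?_ ?_) ?_ <;> norm_num [chfS]

theorem chf_GM :
    1.024 * (FF v (4 * t0 v) * En v (t0 v * (1 - 4 * t0 v))) + dl v ≤
      0.41 * Real.exp (-(0.4394 * v)) ∧
    1.024 * (FF v (4 * t0 v) * En v (4 * t0 v * (1 - 4 * t0 v))) + dl v ≤
      0.41 * Real.exp (-(0.4394 * v)) ∧
    1.024 * (FF v (t0 v) * En v (4 * t0 v * (1 - t0 v))) + dl v ≤
      0.41 * Real.exp (-(0.4394 * v)) := by
  have i0 := chf_t0 hv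
  have i1 := i0.mul 4 (by norm_num)
  have i2 := i1.step hv (by norm_num)
  have i3 := i2.mul (1 / 4) (by norm_num)
  have i4 := (i0.step hv (by norm_num)).mul 4 (by norm_num)
  rw [show 1 / 4 * (4 * t0 v * (1 - 4 * t0 v)) = t0 v * (1 - 4 * t0 v) by ring] at i3
  rw [← mul_assoc] at i4
  have h1 := (i1.ff hv (by norm_num)).mul (i3.en hv (by norm_num))
  have h2 := (i1.ff hv (by norm_num)).mul (i2.en' hv (by norm_num))
  have h3 := (i0.ff hv (by norm_num)).mul (i4.en' hv (by norm_num))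
  have d := chf_dl.fin hv 0.01 0.4394 (by norm_num) (by norm_num) le_rfl (by norm_num [chfS])
  refine ⟨chf_add _ (((chfB_const (by norm_num)).mul h1).fin hv 0.4 _ ?_ ?_ ?_ ?_) d ?_,
    chf_add _ (((chfB_const (by norm_num)).mul h2).fin hv 0.4 _ ?_ ?_ ?_ ?_) d ?_,
    chf_add _ (((chfB_const (by norm_num)).mul h3).fin hv 0.4 _ ?_ ?_ ?_ ?_) d ?_⟩ <;>
    norm_num [chfS]

theorem chf_F2 :
    1.0201 * 1.024 ^ 3 * chf v 1 (3 * t0 v) + 10201 * dl v ^ 3 ≤
      0.36 * Real.exp (-(0.5011 * v)) := by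
  have i0 := (chf_t0 hv).mul 3 (by norm_num)
  have i1 := i0.step hv (by norm_num)
  have h := (i0.ff hv (by norm_num)).mul (i1.en' hv (by norm_num))
  have d := (chfB_const (K := 10201) (by norm_num)).mul (chf_dl.mul (chf_dl.mul (chf_dl (v := v))))
  rw [← pow_three] at d
  refine chf_add _ (((chfB_const (by norm_num)).mul h).fin hv 0.355 _ ?_ ?_ ?_ ?_)
    (d.fin hv 0.005 _ ?_ ?_ ?_ ?_) ?_ <;> norm_num [chfS]

theorem chf_F3 :
    1.01 * 1.024 ^ 2 * chf v 2 (2 * t0 v) + 101 * dl v ^ 2 ≤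
      0.35 * Real.exp (-(0.4859 * v)) := by
  have i0 := (chf_t0 hv).mul 2 (by norm_num)
  have i1 := i0.step hv (by norm_num)
  have i2 := i1.step hv (by norm_num)
  have h := (i0.ff hv (by norm_num)).mul
    ((i1.ff hv (by norm_num)).mul
    (i2.en hv (by norm_num)))
  have d := (chfB_const (K := 101) (by norm_num)).mul (chf_dl.mul (chf_dl (v := v)))
  rw [← sq] at d
  refine chf_add _ (((chfB_const (by norm_num)).mul h).fin hv 0.349 _ ?_ ?_ ?_ ?_)
    (d.fin hv 0.001 _ ?_ ?_ ?_ ?_) ?_ <;> norm_num [chfS]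

theorem chf_Q : chf v 1 (1 / 4) ≤ 1.642 * Real.exp (-(0.4375 * v)) := by
  have i0 := chfI_const (v := v) (1 / 4)
  have i1 := i0.step hv (by norm_num)
  have h := (i0.ff hv (by norm_num)).mul
    (i1.en hv (by norm_num))
  refine h.fin hv _ _ ?_ ?_ ?_ ?_ <;> norm_num [chfS]

theorem chf_r3 : Real.exp (1 / 2 * v) * chf v 2 (1 / 2) ≤ 3.284 * Real.exp (-(0.4375 * v)) := by
  have i0 := chfI_const (v := v) (1 / 2)
  have i1 := i0.step hv (by norm_num)
  have i2 := i1.step hv (by norm_num)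
  have h := (i0.ff hv (by norm_num)).mul
    ((i1.ff hv (by norm_num)).mul
    (i2.en hv (by norm_num)))
  have e := chfB_exp (v := v) (x := 1 / 2 * v) (A := -(1 / 2)) zero_le_one (by linarith)
  rw [one_mul] at e
  refine (e.mul h).fin hv _ _ ?_ ?_ ?_ ?_ <;> norm_num [chfS]

theorem chf_tri : eL v 1 * En v (1 / 3) ≤ 1.5 * Real.exp (-(0.2787 * v)) := by
  have l : Real.log (1 - 1 / 4) ≤ -0.28759 := by
    have := Real.exp_bound' (x := 0.28759) (by norm_num) (by norm_num) (n := 4) (by norm_num)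
    simp only [Finset.sum_range_succ, Finset.sum_range_zero, Nat.factorial] at this
    rw [Real.log_le_iff_le_exp (by norm_num), Real.exp_neg,
      le_inv_comm₀ (by norm_num) (Real.exp_pos _)]
    exact this.trans (by norm_num)
  have e := chfB_exp (v := v) (x := v * (Real.log (1 - 1 / 4) + 1 / (4 - 1)))
    (A := 0.28759 - 1 / 3) zero_le_one (by nlinarith)
  rw [one_mul] at e
  have h := (chfI_const (v := v) (1 / 3)).en' hv (by norm_num)
  refine (e.mul h).fin hv _ _ ?_ ?_ ?_ ?_ <;> norm_num [chfS]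

end Pool.Agent.Eps.P
end
end

-- part Pool.Agent.Lib.MP_3bda03_nt.P.FreeD
section

/-!
The Fourier transform at the further combinations of a free frame.
-/

set_option autoImplicit false

noncomputable section

open MeasureTheory Matrix
open scoped ENNReal

namespace Pool.Agent.Eps.P

open Pool.Agent.Eps.H

variable {ι : Type} [Fintype ι] {τ : Type} [Fintype τ] [DecidableEq τ] {h : (ι → ℝ) → ℝ}

/-! ### numbers -/

theorem freeD_log_le {a y : ℝ} (ha : 0 < a) (h0 : 0 ≤ y) (h1 : y ≤ 1)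
    (k : a * (1 + y + y ^ 2 / 2 + y ^ 3 / 6 + y ^ 4 / 24 + y ^ 5 / 100) ≤ 1) :
    Real.log a ≤ -y := by
  have e := Real.exp_bound' h0 h1 (n := 5) (by norm_num)
  simp only [Finset.sum_range_succ, Finset.sum_range_zero, Nat.factorial] at e
  rw [Real.log_le_iff_le_exp ha, Real.exp_neg, ← one_div, le_div_iff₀ (Real.exp_pos y)]
  refine le_trans (mul_le_mul_of_nonneg_left (e.trans (le_of_eq ?_)) ha.le) k
  push_cast
  ring

theorem freeD_le_log {a y : ℝ} (h0 : 0 ≤ y) (h1 : y ≤ 1)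
    (k : 1 + y + y ^ 2 / 2 + y ^ 3 / 6 + y ^ 4 / 24 + y ^ 5 / 100 ≤ a) : y ≤ Real.log a := by
  have ha : 0 < a := lt_of_lt_of_le (by positivity) k
  have e := freeD_log_le (a := a⁻¹) (inv_pos.2 ha) h0 h1 (by
    rw [inv_mul_le_iff₀ ha, mul_one]
    exact k)
  rw [Real.log_inv] at e
  linarith

theorem freeD_neg_le_log {a y : ℝ} (ha : 0 < a) (h0 : 0 ≤ y)
    (k : 1 ≤ a * (1 + y + y ^ 2 / 2 + y ^ 3 / 6)) : -y ≤ Real.log a := by
  have e := Real.sum_le_exp_of_nonneg h0 4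
  simp only [Finset.sum_range_succ, Finset.sum_range_zero, Nat.factorial] at e
  rw [Real.le_log_iff_exp_le ha, Real.exp_neg, ← one_div, div_le_iff₀ (Real.exp_pos y)]
  refine k.trans (mul_le_mul_of_nonneg_left (le_trans (le_of_eq ?_) e) ha.le)
  push_cast
  ring

theorem freeD_VV {v : ℝ} (hv : 97 / 2 ≤ v) : 0 < VV v := by
  have := lb_ge hv
  unfold VV
  linarith

theorem freeD_comb {v a b c e A B : ℝ} (hv : 97 / 2 ≤ v) (hA : 0 ≤ A) (hAB : A ≤ B)
    (k : a - b + c ≤ -e) :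
    Real.exp (v * a) * (Real.exp (-(b * v)) * A) * Real.exp (c * v) ≤ B * Real.exp (-(e * v)) := by
  have e1 : Real.exp (v * a) * (Real.exp (-(b * v)) * A) * Real.exp (c * v) =
      A * Real.exp ((a - b + c) * v) := by
    rw [show (a - b + c) * v = v * a + -(b * v) + c * v by ring, Real.exp_add, Real.exp_add]
    ring
  rw [e1]
  refine mul_le_mul hAB (Real.exp_le_exp.2 ?_) (Real.exp_pos _).le (hA.trans hAB)
  nlinarith

/-! ### the chain -/

theorem freeD_iA_neg (y : ι → ℝ) : iA (-y) = iA y := by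
  unfold iA
  by_cases k : y ∈ AA ι
  · rw [Set.indicator_of_mem k, Set.indicator_of_mem (neg_mem_AA.2 k)]
    rfl
  · rw [Set.indicator_of_notMem k, Set.indicator_of_notMem (mt neg_mem_AA.1 k)]

theorem freeD_Gs_neg (t : ℝ) (y : ι → ℝ) : Gs t (-y) = Gs t y := by
  unfold Gs gs
  rw [nx_neg]

theorem freeD_unit {κ : τ → ℤ} (h1 : mx κ ≤ 1) {i : τ} (h0 : κ i ≠ 0) :
    (κ i : ℝ) = 1 ∨ (κ i : ℝ) = -1 := by
  have := (le_mx κ i).trans h1
  have k : κ i = 1 ∨ κ i = -1 := by omega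
  rcases k with k | k <;> simp [k]

theorem freeD_first {f : (ι → ℝ) → ℝ≥0∞} {c : ℝ} (hc : c = 1 ∨ c = -1) (z : ι → ℝ) :
    ∫⁻ u, iA u * f (c • u + z) = ∫⁻ y, f y * iA (y - z) := by
  rw [← lintegral_add_right_eq_self (fun y => f y * iA (y - z)) z]
  simp only [add_sub_cancel_right]
  rcases hc with rfl | rfl
  · simp only [one_smul, mul_comm]
  · rw [← lintegral_neg_eq_self (fun y => f (y + z) * iA y)]
    simp only [neg_smul, one_smul, freeD_iA_neg, mul_comm]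

theorem freeD_meas {f g : (ι → ℝ) → ℝ≥0∞} (hf : Measurable f) (hg : Measurable g) :
    Measurable fun z => ∫⁻ y, f y * g (y - z) :=
  Measurable.lintegral_prod_right (f := fun z y => f y * g (y - z))
    ((hf.comp measurable_snd).mul (hg.comp (measurable_snd.sub measurable_fst)))

theorem freeD_step {f g g' : (ι → ℝ) → ℝ≥0∞} (hf : Measurable f) (hg : Measurable g)
    (hg' : Measurable g') {m : ℝ≥0∞} {c : ℝ}
    (H : ∀ w, ∫⁻ u, iA u * g ((-c) • u + w) ≤ m * g' w) (z : ι → ℝ) :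
    ∫⁻ u, iA u * ∫⁻ y, f y * g (y - (c • u + z)) ≤ m * ∫⁻ y, f y * g' (y - z) := by
  have hm : Measurable (Function.uncurry fun u y : ι → ℝ =>
      iA u * (f y * g (y - (c • u + z)))) :=
    (measurable_iA.comp measurable_fst).mul ((hf.comp measurable_snd).mul
      (hg.comp (measurable_snd.sub ((measurable_fst.const_smul c).add_const z))))
  calc ∫⁻ u, iA u * ∫⁻ y, f y * g (y - (c • u + z))
      = ∫⁻ u, ∫⁻ y, iA u * (f y * g (y - (c • u + z))) := by
        refine lintegral_congr fun u => (lintegral_const_mul _ ?_).symm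
        exact hf.mul (hg.comp (measurable_id.sub_const _))
    _ = ∫⁻ y, ∫⁻ u, iA u * (f y * g (y - (c • u + z))) := lintegral_lintegral_swap hm.aemeasurable
    _ ≤ ∫⁻ y, m * (f y * g' (y - z)) := by
        refine lintegral_mono fun y => ?_
        have e : ∀ u, iA u * (f y * g (y - (c • u + z))) =
            f y * (iA u * g ((-c) • u + (y - z))) := fun u => by
          rw [mul_left_comm, show y - (c • u + z) = (-c) • u + (y - z) by module]
        simp only [e]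
        rw [lintegral_const_mul, mul_left_comm]
        · exact mul_le_mul_right (H _) _
        · exact measurable_iA.mul (hg.comp ((measurable_id.const_smul (-c)).add_const _))
    _ = m * ∫⁻ y, f y * g' (y - z) :=
        lintegral_const_mul _ (hf.mul (hg'.comp (measurable_id.sub_const _)))

variable (hn : 97 ≤ Fintype.card ι)
include hn

theorem freeD_mass : ∫⁻ u : ι → ℝ, iA u ≤ ENNReal.ofReal (VV (hd ι)) := (end_A hn).mass hn

theorem freeD_rest (l : List τ) (hl : l.Nodup) :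
    ∏ _i ∈ Finset.univ.filter (fun i => i ∉ l), ∫⁻ u : ι → ℝ, iA u ≤
      ENNReal.ofReal (VV (hd ι) ^ (Fintype.card τ - l.length)) := by
  have e : (Finset.univ.filter (fun i => i ∉ l)).card = Fintype.card τ - l.length := by
    rw [← List.toFinset_card_of_nodup hl, ← Finset.card_compl]
    congr 1
    ext i
    simp
  rw [Finset.prod_const, e, ENNReal.ofReal_pow (freeD_VV (hd_ge hn)).le]
  exact pow_le_pow_left' (freeD_mass hn) _

/-- the lens step -/
theorem freeD_lens {x c : ℝ} (h0 : 0 ≤ x) (h4 : x < 4) (hc : c = 1 ∨ c = -1) (w : ι → ℝ) :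
    ∫⁻ u, iA u * iA (c • u + w) ≤
      ENNReal.ofReal (VV (hd ι) * eL (hd ι) x) * Gs (1 / (4 - x)) w := by
  rcases hc with rfl | rfl
  · refine le_trans (lintegral_mono fun u => ?_) (lens_le hn h0 h4 w)
    rw [one_smul]
    exact mul_le_mul' (iA_le_iB _) (iA_le_iB _)
  · rw [← freeD_Gs_neg]
    refine le_trans (lintegral_mono fun u => ?_) (lens_le hn h0 h4 (-w))
    rw [← freeD_iA_neg ((-1 : ℝ) • u + w), show -((-1 : ℝ) • u + w) = u + -w by module]
    exact mul_le_mul' (iA_le_iB _) (iA_le_iB _)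

theorem freeD_peel {t c : ℝ} (h0 : 0 ≤ t) (h1 : t < 1) (hc : c = 1 ∨ c = -1) (w : ι → ℝ) :
    ∫⁻ u, iA u * Gs t (c • u + w) ≤
      ENNReal.ofReal (VV (hd ι) * FF (hd ι) t) * Gs (t * (1 - t)) w := by
  have e : c ^ 2 = 1 := by rcases hc with rfl | rfl <;> norm_num
  have k := free_peel hn (c := c) h0 (by rwa [e, mul_one]) w
  rwa [e, mul_one] at k

/-- one exact step, then `j + 1` averaging steps under the integral -/
theorem freeD_chain {f : (ι → ℝ) → ℝ≥0∞} (hf : Measurable f) {κ : τ → ℤ} {j : ℕ} (h1 : mx κ ≤ 1)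
    (hj : j + 2 ≤ spt κ) (g : ℕ → (ι → ℝ) → ℝ≥0∞) (hg : ∀ i, Measurable (g i)) (g0 : g 0 = iA)
    (m : ℕ → ℝ) (hm : ∀ i, 0 ≤ m i)
    (hstep : ∀ i ≤ j, ∀ c : ℝ, (c = 1 ∨ c = -1) → ∀ w,
      ∫⁻ u, iA u * g i (c • u + w) ≤ ENNReal.ofReal (VV (hd ι) * m i) * g (i + 1) w)
    {B : ℝ} (hB : ∀ z, (z = 0 ∨ spt κ ≠ j + 2) →
      ∫⁻ y, f y * g (j + 1) (y - z) ≤ ENNReal.ofReal B) {C : ℝ}
    (hC : (∏ i ∈ Finset.range (j + 1), m i) * B ≤ C) (hB0 : 0 ≤ B) :
    ∫⁻ U : Matrix τ ι ℝ, IA U * f (lv κ U) ≤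
      ENNReal.ofReal (VV (hd ι) ^ Fintype.card τ * (C / VV (hd ι))) := by
  have hV := freeD_VV (hd_ge hn)
  obtain ⟨i0, -⟩ : (Finset.univ.filter fun i => κ i ≠ 0).Nonempty :=
    Finset.card_pos.1 (lt_of_lt_of_le (by omega) hj)
  obtain ⟨l, k, hlen, hnd, hs, -, -, hz⟩ := exists_list (κ := κ) (j := j + 1) hj i0
  have hu : ∀ x ∈ l ++ [k], (κ x : ℝ) = 1 ∨ (κ x : ℝ) = -1 := fun x hx => freeD_unit h1 (hs x hx)
  have hneg : ∀ c : ℝ, (c = 1 ∨ c = -1) → (-c = 1 ∨ -c = -1) := fun c hc => by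
    rcases hc with rfl | rfl <;> simp
  have key := peel_list (volume : Measure (ι → ℝ)) (fun _ : τ => iA) (fun _ => measurable_iA) κ l k
    hnd (fun i => Nat.casesOn i f fun i z => ∫⁻ y, f y * g i (y - z))
    (fun i => by
      cases i with
      | zero => exact hf
      | succ i => exact freeD_meas hf (hg i))
    (fun i => Nat.casesOn i 1 fun i => ENNReal.ofReal (VV (hd ι) * m i))
    (ENNReal.ofReal (VV (hd ι) * m j) * ENNReal.ofReal B)
    (fun i hi z => by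
      have hc := hu l[i] (List.mem_append_left _ (List.getElem_mem hi))
      cases i with
      | zero =>
        show _ ≤ 1 * ∫⁻ y, f y * g 0 (y - z)
        rw [one_mul, g0]
        exact (freeD_first hc z).le
      | succ i => exact freeD_step hf (hg i) (hg (i + 1)) (hstep i (by omega) _ (hneg _ hc)) z)
    (fun z hz' => by
      rw [hlen]
      refine (freeD_step hf (hg j) (hg (j + 1))
        (hstep j le_rfl _ (hneg _ (hu k (by simp)))) z).trans (mul_le_mul_right (hB z ?_) _)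
      rcases hz' with e | ⟨x, hx, e⟩
      · exact Or.inl e
      · exact Or.inr fun e' => e (hz e' x hx))
  rw [pw_volume, hlen, Finset.prod_range_succ'] at key
  refine key.trans ((mul_le_mul_right (freeD_rest hn _ hnd) _).trans ?_)
  have hcard : j + 2 ≤ Fintype.card τ := hj.trans (Finset.card_le_univ _)
  have hp : 0 ≤ ∏ i ∈ Finset.range j, VV (hd ι) * m i :=
    Finset.prod_nonneg fun i _ => mul_nonneg hV.le (hm i)
  have hq := mul_nonneg hV.le (hm j)
  show (∏ i ∈ Finset.range j, ENNReal.ofReal (VV (hd ι) * m i)) * 1 * _ * _ ≤ _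
  rw [mul_one, ← ENNReal.ofReal_prod_of_nonneg fun i _ => mul_nonneg hV.le (hm i),
    ← ENNReal.ofReal_mul hq, ← ENNReal.ofReal_mul hp,
    ← ENNReal.ofReal_mul (mul_nonneg hp (mul_nonneg hq hB0))]
  refine ENNReal.ofReal_le_ofReal ?_
  obtain ⟨n, hn'⟩ := Nat.exists_eq_add_of_le hcard
  have e : Fintype.card τ - (l ++ [k]).length = n := by
    rw [List.length_append, hlen, hn']
    simp
  rw [e, hn', Finset.prod_mul_distrib, Finset.prod_const, Finset.card_range]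
  rw [Finset.prod_range_succ] at hC
  calc _ = VV (hd ι) ^ (j + 2 + n) * ((∏ i ∈ Finset.range j, m i) * m j * B / VV (hd ι)) := by
        field_simp
        ring
    _ ≤ _ := by gcongr

variable (hh : Hf h)
include hh

omit hn in
theorem freeD_f : Measurable fun y : ι → ℝ => ENNReal.ofReal (ftr h y ^ 2) :=
  ((measurable_ftr hh.meas).pow_const 2).ennreal_ofReal

theorem freeD_last {s c : ℝ} (hs : 0 ≤ s) (h1 : 0.7356 - 1 - Real.log (0.7356 + s) ≤ c)
    (h2 : 0.8 - 1 - Real.log (0.8 + s) ≤ c) (z : ι → ℝ) :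
    ∫⁻ y, ENNReal.ofReal (ftr h y ^ 2) * Gs s (y - z) ≤
      ENNReal.ofReal (vp (hd ι) * Real.exp (c * hd ι)) := by
  simp only [sub_eq_add_neg]
  exact (l2_gauss hn hh hs (-z)).trans (ENNReal.ofReal_le_ofReal (l2_exp_le (hd_ge hn) hs h1 h2))

theorem measurable_S2a : Measurable (S2a h : Matrix τ ι ℝ → ℝ≥0∞) :=
  measurable_fs' _ (continuous_abs.measurable.comp (measurable_ftr hh.meas)).ennreal_ofReal

theorem rho_two {κ : τ → ℤ} (hκ : κ ∈ CU τ 2) :
    ∫⁻ U : Matrix τ ι ℝ, IA U * ENNReal.ofReal (ftr h (lv κ U) ^ 2) ≤ ENNReal.ofReal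
      (VV (hd ι) ^ Fintype.card τ * (Real.exp (-(0.28 * hd ι)) / VV (hd ι) * vp (hd ι))) := by
  have hv := hd_ge hn
  have hp := vp_pos hv
  rw [div_mul_eq_mul_div]
  refine freeD_chain hn (freeD_f hh) (j := 0) hκ.1 hκ.2.ge
    (fun i => Nat.casesOn i iA fun _ => Gs (1 / (4 - 0.94)))
    (fun i => by
      cases i
      · exact measurable_iA
      · exact measurable_Gs _) rfl (fun _ => eL (hd ι) 0.94) (fun _ => (Real.exp_pos _).le)
    (fun i hi c hc w => by
      obtain rfl : i = 0 := by omega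
      exact freeD_lens hn (by norm_num) (by norm_num) hc w)
    (fun z _ => freeD_last hn hh (c := -0.31935) (by norm_num) ?_ ?_ z) ?_ (by positivity)
  · have := freeD_le_log (a := 0.7356 + 1 / (4 - 0.94)) (y := 0.055) (by norm_num) (by norm_num)
      (by norm_num)
    linarith
  · have := freeD_le_log (a := 0.8 + 1 / (4 - 0.94)) (y := 0.11935) (by norm_num) (by norm_num)
      (by norm_num)
    linarith
  · have k := freeD_log_le (a := 1 - 0.94 / 4) (y := 0.26785) (by norm_num) (by norm_num)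
      (by norm_num) (by norm_num)
    have := freeD_comb (a := Real.log (1 - 0.94 / 4) + 0.94 / (4 - 0.94)) (b := 0)
      (c := -0.31935) (e := 0.28) (A := 1) (B := 1) hv zero_le_one le_rfl (by
        norm_num at k ⊢
        linarith)
    simp only [zero_mul, neg_zero, Real.exp_zero, mul_one, one_mul] at this
    rw [Finset.prod_range_one, eL, mul_comm (vp _), ← mul_assoc]
    exact mul_le_mul_of_nonneg_right this hp.le

theorem rho_two_w {κ : τ → ℤ} (hκ : κ ∈ CU τ 2) :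
    ∫⁻ U : Matrix τ ι ℝ, IA U * ENNReal.ofReal (ftr h (lv κ U) ^ 2 / gs (1 / 4) (lv κ U)) ≤
      ENNReal.ofReal (VV (hd ι) ^ Fintype.card τ *
        (0.68 * Real.exp (-(0.0214 * hd ι)) / VV (hd ι) * vp (hd ι))) := by
  have hv := hd_ge hn
  have ht := th_ge hv
  rw [div_mul_eq_mul_div]
  refine freeD_chain hn (f := fun y => ENNReal.ofReal (ftr h y ^ 2 / gs (1 / 4) y))
    (((measurable_ftr hh.meas).pow_const 2).div (measurable_gs _)).ennreal_ofReal
    (j := 0) hκ.1 hκ.2.ge (fun i => Nat.casesOn i iA fun _ => Gs (1 / (4 - 1.2)))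
    (fun i => by
      cases i
      · exact measurable_iA
      · exact measurable_Gs _) rfl (fun _ => eL (hd ι) 1.2) (fun _ => (Real.exp_pos _).le)
    (fun i hi c hc w => by
      obtain rfl : i = 0 := by omega
      exact freeD_lens hn (by norm_num) (by norm_num) hc w)
    (B := (th (hd ι) / (2 * th (hd ι) + (1 / (4 - 1.2) - 1 / 4))) ^ hd ι)
    (fun z hz => ?_) ?_ (Real.rpow_nonneg (div_nonneg (by linarith) (by norm_num; linarith)) _)
  · obtain rfl : z = 0 := hz.resolve_right fun e => e hκ.2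
    refine le_trans (le_of_eq (lintegral_congr fun y => ?_))
      (l2_gauss hn hh (s := 1 / (4 - 1.2) - 1 / 4) (by norm_num) 0)
    show _ * Gs (1 / (4 - 1.2)) (y - 0) = _
    rw [sub_zero, add_zero, Gs, Gs, gs, gs, gs, ← ENNReal.ofReal_mul (sq_nonneg _),
      ← ENNReal.ofReal_mul (div_nonneg (sq_nonneg _) (Real.exp_pos _).le),
      div_mul_eq_mul_div, mul_div_assoc, ← Real.exp_sub]
    congr 3
    ring
  · rw [Finset.prod_range_one, mul_comm]
    exact l2_two hn hh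

theorem rho_three {κ : τ → ℤ} (hκ : κ ∈ CU τ 3) :
    ∫⁻ U : Matrix τ ι ℝ, IA U * ENNReal.ofReal (ftr h (lv κ U) ^ 2) ≤ ENNReal.ofReal
      (VV (hd ι) ^ Fintype.card τ *
        (1.59 * Real.exp (-(0.5145 * hd ι)) / VV (hd ι) * vp (hd ι))) := by
  have hv := hd_ge hn
  have hp := vp_pos hv
  rw [div_mul_eq_mul_div]
  refine freeD_chain hn (freeD_f hh) (j := 1) hκ.1 hκ.2.ge
    (fun i => Nat.casesOn i iA fun i => Gs (Nat.casesOn i (1 / (4 - 1.3))
      fun _ => 1 / (4 - 1.3) * (1 - 1 / (4 - 1.3))))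
    (fun i => by
      cases i
      · exact measurable_iA
      · exact measurable_Gs _) rfl
    (fun i => Nat.casesOn i (eL (hd ι) 1.3) fun _ => FF (hd ι) (1 / (4 - 1.3)))
    (fun i => by
      cases i
      · exact (Real.exp_pos _).le
      · exact div_nonneg (Real.exp_pos _).le (by norm_num))
    (fun i hi c hc w => by
      obtain rfl | rfl : i = 0 ∨ i = 1 := by omega
      · exact freeD_lens hn (by norm_num) (by norm_num) hc w
      · exact freeD_peel hn (by norm_num) (by norm_num) hc w)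
    (fun z _ => freeD_last hn hh (s := 1 / (4 - 1.3) * (1 - 1 / (4 - 1.3))) (c := -0.23262)
      (by norm_num) ?_ ?_ z) ?_ (by positivity)
  · have := freeD_neg_le_log (a := 0.7356 + 1 / (4 - 1.3) * (1 - 1 / (4 - 1.3))) (y := 0.03178)
      (by norm_num) (by norm_num) (by norm_num)
    linarith
  · have := freeD_le_log (a := 0.8 + 1 / (4 - 1.3) * (1 - 1 / (4 - 1.3))) (y := 0.03262)
      (by norm_num) (by norm_num) (by norm_num)
    linarith
  · have k := freeD_log_le (a := 1 - 1.3 / 4) (y := 0.393) (by norm_num) (by norm_num)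
      (by norm_num) (by norm_num)
    have := freeD_comb (a := Real.log (1 - 1.3 / 4) + 1.3 / (4 - 1.3)) (b := 1 / (4 - 1.3))
      (c := -0.23262) (e := 0.5145) (A := (1 - 1 / (4 - 1.3))⁻¹) (B := 1.59) hv (by norm_num)
      (by norm_num) (by
        norm_num at k ⊢
        linarith)
    rw [Finset.prod_range_succ, Finset.prod_range_one, mul_comm (vp _), ← mul_assoc]
    exact mul_le_mul_of_nonneg_right this hp.le

theorem rho_four {κ : τ → ℤ} (hκ : κ ∈ CG τ 4) :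
    ∫⁻ U : Matrix τ ι ℝ, IA U * ENNReal.ofReal (ftr h (lv κ U) ^ 2) ≤ ENNReal.ofReal
      (VV (hd ι) ^ Fintype.card τ *
        (2.2 * Real.exp (-(0.6888 * hd ι)) / VV (hd ι) * vp (hd ι))) := by
  have hv := hd_ge hn
  have hp := vp_pos hv
  rw [div_mul_eq_mul_div]
  refine freeD_chain hn (freeD_f hh) (j := 2) hκ.1 hκ.2
    (fun i => Nat.casesOn i iA fun i => Gs (Nat.casesOn i 0.4
      fun i => Nat.casesOn i 0.24 fun _ => 0.1824))
    (fun i => by
      cases i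
      · exact measurable_iA
      · exact measurable_Gs _) rfl
    (fun i => Nat.casesOn i (eL (hd ι) 1.5) fun i => FF (hd ι) (Nat.casesOn i 0.4 fun _ => 0.24))
    (fun i => by
      rcases i with _ | _ | i
      · exact (Real.exp_pos _).le
      · exact div_nonneg (Real.exp_pos _).le (show (0 : ℝ) ≤ 1 - 0.4 by norm_num)
      · exact div_nonneg (Real.exp_pos _).le (show (0 : ℝ) ≤ 1 - 0.24 by norm_num))
    (fun i hi c hc w => by
      obtain rfl | rfl | rfl : i = 0 ∨ i = 1 ∨ i = 2 := by omega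
      · have k := freeD_lens hn (x := 1.5) (by norm_num) (by norm_num) hc w
        rwa [show (1 / (4 - 1.5) : ℝ) = 0.4 by norm_num] at k
      · have k := freeD_peel hn (t := 0.4) (by norm_num) (by norm_num) hc w
        rwa [show (0.4 * (1 - 0.4) : ℝ) = 0.24 by norm_num] at k
      · have k := freeD_peel hn (t := 0.24) (by norm_num) (by norm_num) hc w
        rwa [show (0.24 * (1 - 0.24) : ℝ) = 0.1824 by norm_num] at k)
    (fun z _ => freeD_last hn hh (s := 0.1824) (c := -0.17882) (by norm_num) ?_ ?_ z) ?_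
    (by positivity)
  · have := freeD_neg_le_log (a := 0.7356 + 0.1824) (y := 0.08558)
      (by norm_num) (by norm_num) (by norm_num)
    linarith
  · have := freeD_neg_le_log (a := 0.8 + 0.1824) (y := 0.02) (by norm_num) (by norm_num)
      (by norm_num)
    linarith
  · have k := freeD_log_le (a := 1 - 1.5 / 4) (y := 0.46998) (by norm_num) (by norm_num)
      (by norm_num) (by norm_num)
    have := freeD_comb (a := Real.log (1 - 1.5 / 4) + 1.5 / (4 - 1.5)) (b := 0.64)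
      (c := -0.17882) (e := 0.6888) (A := (1 - 0.4)⁻¹ * (1 - 0.24)⁻¹) (B := 2.2) hv (by norm_num)
      (by norm_num) (by
        norm_num at k ⊢
        linarith)
    rw [Finset.prod_range_succ, Finset.prod_range_succ, Finset.prod_range_one, mul_comm (vp _),
      ← mul_assoc]
    refine mul_le_mul_of_nonneg_right (le_trans (le_of_eq ?_) this) hp.le
    show eL (hd ι) 1.5 * FF (hd ι) 0.4 * FF (hd ι) 0.24 * _ = _
    rw [eL, FF, FF, show -(0.64 * hd ι) = -(0.4 * hd ι) + -(0.24 * hd ι) by ring, Real.exp_add]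
    ring

theorem rho_non {κ : τ → ℤ} (hκ : 1 ≤ mx κ) :
    ∫⁻ U : Matrix τ ι ℝ, IA U * ENNReal.ofReal (ftr h (lv κ U) ^ 2) ≤ ENNReal.ofReal
      (VV (hd ι) ^ Fintype.card τ * (0.4361 * Real.exp (0.0427 * hd ι) / VV (hd ι) * vp (hd ι)) *
        (mx κ : ℝ) ^ (-(2 * hd ι))) := by
  have hv := hd_ge hn
  have hV := freeD_VV hv
  have ht := th_ge hv
  obtain ⟨k, hk⟩ := exists_mx hκ
  have hc : |(κ k : ℝ)| = (mx κ : ℝ) := by
    rw [← hk, Nat.cast_natAbs, Int.cast_abs]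
  have hM : (0 : ℝ) < mx κ := by exact_mod_cast hκ
  have hc0 : (κ k : ℝ) ≠ 0 := abs_pos.1 (hc ▸ hM)
  have hf := freeD_f hh
  have h2 : ∫⁻ y, ENNReal.ofReal (ftr h y ^ 2) ≤ ENNReal.ofReal ((2 : ℝ) ^ (-hd ι)) := by
    have k := l2_gauss hn hh le_rfl 0
    have e : th (hd ι) / (2 * th (hd ι) + 0) = 2⁻¹ := by
      field_simp
      ring
    rw [e, Real.inv_rpow zero_le_two, ← Real.rpow_neg zero_le_two] at k
    simpa [Gs, gs] using k
  have key := peel_list (volume : Measure (ι → ℝ)) (fun _ : τ => iA) (fun _ => measurable_iA) κ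
    [] k (by simp) (fun _ y => ENNReal.ofReal (ftr h y ^ 2)) (fun _ => hf) (fun _ => 1)
    (ENNReal.ofReal ((mx κ : ℝ) ^ (-(2 * hd ι))) * ENNReal.ofReal ((2 : ℝ) ^ (-hd ι)))
    (fun i hi => absurd hi (by simp))
    (fun z _ => by
      have hz : Measurable fun y : ι → ℝ => ENNReal.ofReal (ftr h (y + z) ^ 2) :=
        hf.comp (measurable_add_const z)
      calc ∫⁻ u, iA u * ENNReal.ofReal (ftr h ((κ k : ℝ) • u + z) ^ 2)
          ≤ ∫⁻ u, ENNReal.ofReal (ftr h ((κ k : ℝ) • u + z) ^ 2) :=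
            lintegral_mono fun u => mul_le_of_le_one_left'
              (Set.indicator_apply_le' (fun _ => le_rfl) fun _ => zero_le_one)
        _ = ENNReal.ofReal ((|(κ k : ℝ)| ^ Fintype.card ι)⁻¹) *
            ∫⁻ y, ENNReal.ofReal (ftr h (y + z) ^ 2) := by
            rw [← lintegral_map hz (measurable_const_smul (κ k : ℝ)), map_smul_vec hc0,
              lintegral_smul_measure, smul_eq_mul]
        _ ≤ ENNReal.ofReal ((mx κ : ℝ) ^ (-(2 * hd ι))) * ENNReal.ofReal ((2 : ℝ) ^ (-hd ι)) := by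
            rw [lintegral_add_right_eq_self (fun y => ENNReal.ofReal (ftr h y ^ 2)) z, hc,
              Real.rpow_neg hM.le, show 2 * hd ι = (Fintype.card ι : ℝ) by unfold hd; ring,
              Real.rpow_natCast]
            exact mul_le_mul_right h2 _)
  rw [pw_volume] at key
  refine key.trans ((mul_le_mul_right (freeD_rest hn _ (by simp)) _).trans ?_)
  have h3 := Real.rpow_nonneg hM.le (-(2 * hd ι))
  have h4 := Real.rpow_nonneg zero_le_two (-hd ι)
  rw [List.length_nil, Finset.prod_range_zero, one_mul, ← ENNReal.ofReal_mul h3,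
    ← ENNReal.ofReal_mul (mul_nonneg h3 h4)]
  refine ENNReal.ofReal_le_ofReal ?_
  obtain ⟨n, hn'⟩ := Nat.exists_eq_add_of_le (Fintype.card_pos_iff.2 ⟨k⟩ : 1 ≤ Fintype.card τ)
  have e : Fintype.card τ - ([] ++ [k]).length = n := by
    rw [hn']
    simp
  rw [e, hn']
  calc _ ≤ (mx κ : ℝ) ^ (-(2 * hd ι)) * (0.4361 * Real.exp (0.0427 * hd ι) * vp (hd ι)) *
        VV (hd ι) ^ n := by
        gcongr
        exact cc1_le hv
    _ = _ := by
        field_simp
        ring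

end Pool.Agent.Eps.P
end
end

-- part Pool.Agent.Lib.MP_3bda03_nt.P.FreeE
section

/-!
Square and cross term of the further combinations.
-/

set_option autoImplicit false

noncomputable section

open MeasureTheory Matrix
open scoped ENNReal

namespace Pool.Agent.Eps.P

open Pool.Agent.Eps.H

variable {ι : Type} [Fintype ι] {τ : Type} [Fintype τ] [DecidableEq τ] {h : (ι → ℝ) → ℝ}

theorem freee_S2L (v : ℝ) (b : ℕ) : evD v b S2L =
    2.2 * (lb v)⁻¹ * Real.exp (-(0.28 * v)) * ff 2 b ^ 2 +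
    46.7 * (lb v)⁻¹ * Real.exp (-(0.5145 * v)) * ff 3 b ^ 2 +
    32.3 * Real.exp (-(0.5536 * v)) * 6 ^ b + 25.6 * Real.exp (-(0.807 * v)) * 5 ^ b := by
  rw [ff_22, ff_33]
  simp [evD, S2L, polD, c22, c33, Dt.ev, Mono.ev, Mono.mul, cM, ff_zero]
  norm_num
  ring

theorem freee_CA (v : ℝ) (b : ℕ) : evD v b CA =
    11.2 * (lb v)⁻¹ * Real.exp (-(0.2294 * v)) * ff 2 b +
    8.9 * (lb v)⁻¹ * Real.exp (-(0.2572 * v)) * ff 3 b +
    7 * Real.exp (-(0.3444 * v)) * 3 ^ b + 0.39 * Real.exp (-(0.6504 * v)) * 5 ^ b := by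
  simp [evD, CA, Dt.ev, Mono.ev, ff_zero]
  norm_num
  ring

theorem freee_CB (v : ℝ) (b : ℕ) : evD v b CB =
    0.202 * Real.exp (-(0.2294 * v)) * ff 2 b + 0.161 * Real.exp (-(0.2572 * v)) * ff 3 b +
    0.142 * Real.exp (-(0.3444 * v)) * 3 ^ b + 2 * Real.exp (-(0.6931 * v)) * 5 ^ b := by
  simp [evD, CB, Dt.ev, Mono.ev, ff_zero]
  norm_num
  ring

theorem freee_four (a b c d : ℝ≥0∞) : (a + b + c + d) ^ 2 ≤
    ENNReal.ofReal 1.1 * a ^ 2 + ENNReal.ofReal 33 * b ^ 2 + ENNReal.ofReal 33 * c ^ 2 +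
      ENNReal.ofReal 33 * d ^ 2 := by
  have h1 : ENNReal.ofReal 1.1 ≠ 0 := by norm_num
  have h2 : ENNReal.ofReal 33 ≠ 0 := by norm_num
  induction a with
  | top => simp [ENNReal.mul_top h1]
  | coe a =>
  induction b with
  | top => simp
  | coe b =>
  induction c with
  | top => simp
  | coe c =>
  induction d with
  | top => simp
  | coe d =>
  simp only [ENNReal.ofReal]
  norm_cast
  rw [← NNReal.coe_le_coe]
  push_cast
  rw [Real.coe_toNNReal _ (by norm_num), Real.coe_toNNReal _ (by norm_num)]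
  nlinarith [sq_nonneg (a - 30 * b : ℝ), sq_nonneg (a - 30 * c : ℝ), sq_nonneg (a - 30 * d : ℝ),
    sq_nonneg (b - c : ℝ), sq_nonneg (b - d : ℝ), sq_nonneg (c - d : ℝ)]

theorem freee_pow {x c v : ℝ} {b : ℕ} (hx : 0 ≤ x) (hc : 0 ≤ c) (h : x ≤ Real.exp (3 * c))
    (hb : (b : ℝ) ≤ v / 3) : x ^ b ≤ Real.exp (c * v) := by
  refine (pow_le_pow_left₀ hx h b).trans ?_
  rw [← Real.exp_nat_mul]
  exact Real.exp_le_exp.2 (by nlinarith)

theorem freee_e1 : (3 / 2 : ℝ) ≤ Real.exp (3 * 0.1352) := by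
  refine le_trans ?_ (Real.sum_le_exp_of_nonneg (by norm_num) 6)
  norm_num [Finset.sum_range_succ, Nat.factorial]

theorem freee_e2 : (5 : ℝ) ≤ Real.exp (3 * 0.5365) := by
  refine le_trans ?_ (Real.sum_le_exp_of_nonneg (by norm_num) 10)
  norm_num [Finset.sum_range_succ, Nat.factorial]

theorem freee_two {v : ℝ} (hv : 0 ≤ v) : (2 : ℝ) ^ (-v) ≤ Real.exp (-(0.69314 * v)) := by
  rw [Real.rpow_def_of_pos two_pos]
  exact Real.exp_le_exp.2 (by nlinarith [Real.log_two_gt_d9])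

theorem freee_cover (f : (τ → ℤ) → ℝ≥0∞) :
    cs (NE τ) f ≤ cs (CU τ 2) f + cs (CU τ 3) f + cs (CG τ 4) f + cs (CN τ 2) f := by
  refine (cs_mono NE_subset f).trans ((cs_union_le _ _ f).trans (add_le_add_left ?_ _))
  rw [CG_succ, CG_succ 3, ← Set.union_assoc]
  exact (cs_union_le _ _ f).trans (add_le_add_left (cs_union_le _ _ f) _)

omit [DecidableEq τ] in
theorem freee_sq (hm : Measurable h) {S : Set (τ → ℤ)} {w : (τ → ℤ) → ℝ} {c W : ℝ} (hc : 0 ≤ c)
    (hW0 : 0 ≤ W) (hw : ∀ κ ∈ S, 0 < w κ)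
    (hW : cs S (fun κ => ENNReal.ofReal (w κ)) ≤ ENNReal.ofReal W)
    (hr : ∀ κ ∈ S, ∫⁻ U : Matrix τ ι ℝ, IA U * ENNReal.ofReal (ftr h (lv κ U) ^ 2) ≤
      ENNReal.ofReal (c * w κ ^ 2)) :
    ∫⁻ U : Matrix τ ι ℝ, IA U * fs' S (fun w => ENNReal.ofReal |ftr h w|) U ^ 2 ≤
      ENNReal.ofReal (c * W ^ 2) := by
  have h0 : ∀ κ ∈ S, ENNReal.ofReal (w κ) ≠ 0 := fun κ hκ =>
    (ENNReal.ofReal_pos.2 (hw κ hκ)).ne'
  have hg : ∀ κ : τ → ℤ, Measurable fun U : Matrix τ ι ℝ =>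
      IA U * ENNReal.ofReal (ftr h (lv κ U) ^ 2) := fun κ =>
    measurable_IA.mul (((measurable_ftr hm).comp (measurable_lv κ)).pow_const 2).ennreal_ofReal
  calc _ ≤ ∫⁻ U : Matrix τ ι ℝ, ENNReal.ofReal W * cs S fun κ =>
        IA U * ENNReal.ofReal (ftr h (lv κ U) ^ 2) * (ENNReal.ofReal (w κ))⁻¹ := by
        refine lintegral_mono fun U => (mul_le_mul_right ((cs_sq_le S _ _ h0
          fun _ _ => ENNReal.ofReal_ne_top).trans (mul_le_mul_left hW _)) _).trans_eq ?_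
        simp only [cs, ENNReal.tsum_mul_left, mul_assoc, div_eq_mul_inv,
          ← ENNReal.ofReal_pow (abs_nonneg _), sq_abs]
        rw [mul_left_comm]
    _ = ENNReal.ofReal W * cs S fun κ => (∫⁻ U : Matrix τ ι ℝ,
        IA U * ENNReal.ofReal (ftr h (lv κ U) ^ 2)) * (ENNReal.ofReal (w κ))⁻¹ := by
        rw [lintegral_const_mul' _ _ ENNReal.ofReal_ne_top]
        simp only [cs]
        rw [lintegral_tsum fun κ : S => ((hg κ).mul_const _).aemeasurable,
          tsum_congr fun κ : S => lintegral_mul_const _ (hg κ)]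
    _ ≤ ENNReal.ofReal W * cs S fun κ => ENNReal.ofReal c * ENNReal.ofReal (w κ) := by
        refine mul_le_mul_right (cs_le_cs fun κ hκ =>
          (mul_le_mul_left (hr κ hκ) _).trans_eq ?_) _
        rw [sq, ← mul_assoc, ENNReal.ofReal_mul' (hw κ hκ).le, ENNReal.ofReal_mul hc, mul_assoc,
          ENNReal.mul_inv_cancel (h0 κ hκ) ENNReal.ofReal_ne_top, mul_one]
    _ ≤ _ := by
        rw [cs, ENNReal.tsum_mul_left, sq, mul_left_comm c, ENNReal.ofReal_mul hW0,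
          ENNReal.ofReal_mul hc]
        exact mul_le_mul_right (mul_le_mul_right hW _) _

omit [DecidableEq τ] in
theorem freee_mx {κ : τ → ℤ} (hκ : κ ∈ CN τ 2) (v : ℝ) : 0 < (mx κ : ℝ) ^ v ∧
    ((mx κ : ℝ) ^ v)⁻¹ = (2 : ℝ) ^ (-v) * (((2 : ℕ) : ℝ) / mx κ) ^ v ∧
    (mx κ : ℝ) ^ (-(2 * v)) = ((mx κ : ℝ) ^ v)⁻¹ ^ 2 := by
  have h1 : (0 : ℝ) < mx κ := Nat.cast_pos.2 (lt_of_lt_of_le two_pos hκ)
  refine ⟨Real.rpow_pos_of_pos h1 v, ?_, ?_⟩
  · rw [Nat.cast_ofNat, Real.div_rpow two_pos.le h1.le, Real.rpow_neg two_pos.le, div_eq_mul_inv,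
      inv_mul_cancel_left₀ (Real.rpow_pos_of_pos two_pos v).ne']
  · rw [Real.rpow_neg h1.le, mul_comm, Real.rpow_mul h1.le, Real.rpow_two, inv_pow]

theorem freee_one (hn : 97 ≤ Fintype.card ι) (hh : Hf h) (m : ℝ) {κ : τ → ℤ} {B X bd : ℝ}
    {G : (ι → ℝ) → ℝ} (hB : 0 < B) (hG : ∀ y, 0 < G y) (hGm : Measurable G) (hX : 0 ≤ X)
    (h1 : ∫⁻ U : Matrix τ ι ℝ, IA U * ENNReal.ofReal (ftr h (lv κ U) ^ 2 / G (lv κ U)) ≤
      ENNReal.ofReal (VV (hd ι) ^ Fintype.card τ * X))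
    (h2 : Joint (fun U : Matrix τ ι ℝ => ENNReal.ofReal (G (lv κ U))) bd) :
    ∫⁻ U : Matrix τ ι ℝ, IA U * (2 * ENNReal.ofReal |s1 h m U|) * ENNReal.ofReal |ftr h (lv κ U)| ≤
      ENNReal.ofReal (VV (hd ι) ^ Fintype.card τ *
        (B * X + B⁻¹ * (bd * Yb (hd ι) m (Fintype.card τ)))) := by
  have hV : 0 < VV (hd ι) := by have := lb_ge (hd_ge hn); unfold VV; linarith
  have hp := vp_pos (hd_ge hn)
  have hY : 0 ≤ Yb (hd ι) m (Fintype.card τ) := by unfold Yb; positivity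
  have hbd := h2.1
  have hG' : Measurable fun U : Matrix τ ι ℝ => G (lv κ U) := hGm.comp (measurable_lv κ)
  have h3 := joint_s1 hn h2 hG'.ennreal_ofReal hh m
  have h4 : Measurable fun U : Matrix τ ι ℝ => ENNReal.ofReal B *
      (IA U * ENNReal.ofReal (ftr h (lv κ U) ^ 2 / G (lv κ U))) := (measurable_IA.mul
    ((((measurable_ftr hh.meas).comp (measurable_lv κ)).pow_const 2).div hG').ennreal_ofReal).const_mul _
  refine (lintegral_mono (g := fun U => ENNReal.ofReal B *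
      (IA U * ENNReal.ofReal (ftr h (lv κ U) ^ 2 / G (lv κ U))) + ENNReal.ofReal B⁻¹ *
      (IA U * ENNReal.ofReal (G (lv κ U)) * ENNReal.ofReal (1.15 * s1 h m U ^ 2)))
    fun U => ?_).trans ?_
  · have hg := hG (lv κ U)
    dsimp only
    rw [mul_assoc, mul_assoc (IA U), mul_left_comm _ (IA U), mul_left_comm _ (IA U), ← mul_add,
      ← ENNReal.ofReal_ofNat 2, ← ENNReal.ofReal_mul two_pos.le, ← ENNReal.ofReal_mul (by positivity),
      ← ENNReal.ofReal_mul hB.le, ← ENNReal.ofReal_mul hg.le, ← ENNReal.ofReal_mul (by positivity),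
      ← ENNReal.ofReal_add (by positivity) (by positivity), ← sq_abs (ftr _ _), ← sq_abs (s1 _ _ _)]
    refine mul_le_mul_right (ENNReal.ofReal_le_ofReal (sub_nonneg.1 ?_)) _
    generalize |ftr h (lv κ U)| = f
    generalize |s1 h m U| = s
    generalize G (lv κ U) = g at hg
    rw [show B * (f ^ 2 / g) + B⁻¹ * (g * (1.15 * s ^ 2)) - 2 * s * f =
      ((B * f - g * s) ^ 2 + 0.15 * (g * s) ^ 2) / (B * g) by field_simp; ring]
    positivity
  · rw [lintegral_add_left h4, lintegral_const_mul' _ _ ENNReal.ofReal_ne_top,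
      lintegral_const_mul' _ _ ENNReal.ofReal_ne_top, mul_add, mul_left_comm _ B, mul_left_comm _ B⁻¹,
      ENNReal.ofReal_add (by positivity) (by positivity), ENNReal.ofReal_mul hB.le,
      ENNReal.ofReal_mul (inv_pos.2 hB).le]
    exact add_le_add (mul_le_mul_right h1 _) (mul_le_mul_right h3 _)

variable (hn : 97 ≤ Fintype.card ι) (hh : Hf h) (hb : Fintype.card τ ≤ KK ι)
include hn hh hb

theorem S2a_sq_le :
    ∫⁻ U : Matrix τ ι ℝ, IA U * S2a h U ^ 2 ≤ ENNReal.ofReal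
      (VV (hd ι) ^ Fintype.card τ * (evD (hd ι) (Fintype.card τ) S2L * vp (hd ι))) := by
  have hv := hd_ge hn
  have hl := lb_ge hv
  have hp := vp_pos hv
  have hbv : (Fintype.card τ : ℝ) ≤ hd ι / 3 := (Nat.cast_le.2 hb).trans KK_le
  have hV : 0 < VV (hd ι) := by unfold VV; linarith
  have hL : (lb (hd ι))⁻¹ ≤ 8 / 9 := inv_le_of_inv_le₀ (by norm_num) (by linarith)
  have hL0 : 0 < (lb (hd ι))⁻¹ := by positivity
  have eV : (VV (hd ι))⁻¹ = (lb (hd ι))⁻¹ / 2 := by unfold VV; rw [mul_inv]; ring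
  have f2 := ff_nonneg 2 (Fintype.card τ)
  have f3 := ff_nonneg 3 (Fintype.card τ)
  have hc : (Fintype.card τ : ℝ) + (2 : ℕ) + 1 ≤ hd ι := by push_cast; linarith
  have h2 := freee_two (v := hd ι) (by linarith)
  have hm : Measurable fun w => ENNReal.ofReal |ftr h w| :=
    (measurable_ftr hh.meas).abs.ennreal_ofReal
  have o : ∀ x : ℝ, ENNReal.ofReal x = ENNReal.ofReal (x * 1 ^ 2) := fun x => by
    rw [one_pow, mul_one]
  have k2 := freee_sq hh.meas (S := CU τ 2) (w := fun _ => 1) (by positivity) (by positivity)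
    (fun _ _ => one_pos) (cs_CU_le zero_le_one fun _ _ => le_rfl)
    fun κ hκ => (rho_two hn hh hκ).trans_eq (o _)
  have k3 := freee_sq hh.meas (S := CU τ 3) (w := fun _ => 1) (by positivity) (by positivity)
    (fun _ _ => one_pos) (cs_CU_le zero_le_one fun _ _ => le_rfl)
    fun κ hκ => (rho_three hn hh hκ).trans_eq (o _)
  have k4 := freee_sq hh.meas (S := CG τ 4) (w := fun _ => 1) (by positivity) (by positivity)
    (fun _ _ => one_pos) (cs_CG_le zero_le_one fun _ _ => le_rfl)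
    fun κ hκ => (rho_four hn hh hκ).trans_eq (o _)
  have kN := freee_sq hh.meas (S := CN τ 2) (w := fun κ => (((2 : ℕ) : ℝ) / mx κ) ^ hd ι)
    (c := VV (hd ι) ^ Fintype.card τ * (0.4361 * Real.exp (0.0427 * hd ι) / VV (hd ι) * vp (hd ι)) *
      ((2 : ℝ) ^ (-hd ι)) ^ 2) (by positivity) (by positivity)
    (fun κ hκ => Real.rpow_pos_of_pos
      (div_pos (by norm_num) (Nat.cast_pos.2 (lt_of_lt_of_le two_pos hκ))) _)
    (cs_CN_le le_rfl zero_le_one hc fun _ _ => by rw [one_mul])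
    fun κ hκ => (rho_non hn hh (one_le_two.trans hκ)).trans_eq (by
      rw [(freee_mx hκ _).2.2, (freee_mx hκ _).2.1, mul_pow, ← mul_assoc])
  let A : Set (τ → ℤ) → Matrix τ ι ℝ → ℝ≥0∞ := fun S U =>
    IA U * fs' S (fun w => ENNReal.ofReal |ftr h w|) U ^ 2
  have hf : ∀ (c : ℝ≥0∞) (S : Set (τ → ℤ)), Measurable fun U => c * A S U := fun c S =>
    (measurable_IA.mul ((measurable_fs' S hm).pow_const 2)).const_mul c
  refine (lintegral_mono (g := fun U => ENNReal.ofReal 1.1 * A (CU τ 2) U +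
    ENNReal.ofReal 33 * A (CU τ 3) U + ENNReal.ofReal 33 * A (CG τ 4) U +
    ENNReal.ofReal 33 * A (CN τ 2) U) fun U => (mul_le_mul_right ((pow_le_pow_left'
      (freee_cover fun κ => ENNReal.ofReal |ftr h (lv κ U)|) 2).trans
      (freee_four _ _ _ _)) (IA U)).trans_eq ?_).trans ((le_of_eq ?_).trans ((add_le_add (add_le_add
      (add_le_add (mul_le_mul_right k2 (ENNReal.ofReal 1.1)) (mul_le_mul_right k3 (ENNReal.ofReal 33)))
      (mul_le_mul_right k4 (ENNReal.ofReal 33))) (mul_le_mul_right kN (ENNReal.ofReal 33))).trans ?_))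
  · simp only [mul_add, mul_left_comm (IA U)]
    rfl
  · simp only [← lintegral_const_mul' _ _ ENNReal.ofReal_ne_top]
    rw [← lintegral_add_left (hf _ _), ← lintegral_add_right _ (hf _ _),
      ← lintegral_add_right _ (hf _ _)]
  · rw [← ENNReal.ofReal_mul (by norm_num), ← ENNReal.ofReal_mul (by norm_num),
      ← ENNReal.ofReal_mul (by norm_num), ← ENNReal.ofReal_mul (by norm_num),
      ← ENNReal.ofReal_add (by positivity) (by positivity),
      ← ENNReal.ofReal_add (by positivity) (by positivity),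
      ← ENNReal.ofReal_add (by positivity) (by positivity), freee_S2L]
    refine ENNReal.ofReal_le_ofReal ?_
    have t4 : Real.exp (-(0.6888 * hd ι)) * (3 ^ Fintype.card τ) ^ 2 ≤
        Real.exp (-(0.5536 * hd ι)) * 6 ^ Fintype.card τ := by
      rw [show ((3 : ℝ) ^ Fintype.card τ) ^ 2 = (3 / 2) ^ Fintype.card τ * 6 ^ Fintype.card τ by
        rw [sq, ← mul_pow, ← mul_pow]; norm_num, ← mul_assoc]
      refine mul_le_mul_of_nonneg_right ((mul_le_mul_of_nonneg_left (freee_pow (by norm_num)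
        (by norm_num) freee_e1 hbv) (by positivity)).trans_eq ?_) (by positivity)
      rw [← Real.exp_add]; congr 1; ring
    have tN : Real.exp (0.0427 * hd ι) * ((2 : ℝ) ^ (-hd ι)) ^ 2 * 5 ^ Fintype.card τ ≤
        Real.exp (-(0.807 * hd ι)) := by
      refine (mul_le_mul (mul_le_mul_of_nonneg_left (pow_le_pow_left₀ (by positivity) h2 2)
        (by positivity)) (freee_pow (by norm_num) (by norm_num) freee_e2 hbv) (by positivity)
        (by positivity)).trans ?_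
      rw [sq, ← Real.exp_add, ← Real.exp_add, ← Real.exp_add]
      exact Real.exp_le_exp.2 (by linarith)
    have u4 := mul_le_mul hL t4 (by positivity) (by norm_num)
    have uN := mul_le_mul_of_nonneg_right (mul_le_mul hL tN (by positivity) (by norm_num))
      (show (0 : ℝ) ≤ 5 ^ Fintype.card τ by positivity)
    have u3 : 0 ≤ (lb (hd ι))⁻¹ * Real.exp (-(0.5145 * hd ι)) * ff 3 (Fintype.card τ) ^ 2 := by
      positivity
    have u5 : 0 ≤ Real.exp (-(0.5536 * hd ι)) * 6 ^ Fintype.card τ := by positivity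
    have u6 : 0 ≤ Real.exp (-(0.807 * hd ι)) * 5 ^ Fintype.card τ := by positivity
    simp only [div_eq_mul_inv _ (VV _), eV]
    rw [show ((2 : ℝ) * (2 : ℕ) + 1) = 5 by norm_num]
    refine le_of_eq_of_le ?_ (mul_le_mul_of_nonneg_left (mul_le_mul_of_nonneg_right (?_ : (2.2 * (lb (hd ι))⁻¹ *
      Real.exp (-(0.28 * hd ι)) * ff 2 (Fintype.card τ) ^ 2 + 46.64 * ((lb (hd ι))⁻¹ *
      Real.exp (-(0.5145 * hd ι)) * ff 3 (Fintype.card τ) ^ 2) + 36.3 * ((lb (hd ι))⁻¹ *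
      (Real.exp (-(0.6888 * hd ι)) * (3 ^ Fintype.card τ) ^ 2)) + 28.7826 * ((lb (hd ι))⁻¹ *
      (Real.exp (0.0427 * hd ι) * ((2 : ℝ) ^ (-hd ι)) ^ 2 * 5 ^ Fintype.card τ) *
      5 ^ Fintype.card τ)) ≤ _) hp.le) (by positivity))
    · norm_num [Nat.factorial]
      ring
    · linarith

theorem cross_le (m : ℝ) :
    ∫⁻ U : Matrix τ ι ℝ, IA U * (2 * ENNReal.ofReal |s1 h m U| * S2a h U) ≤ ENNReal.ofReal
      (VV (hd ι) ^ Fintype.card τ * (evD (hd ι) (Fintype.card τ) CA * vp (hd ι) +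
        evD (hd ι) (Fintype.card τ) CB * Yb (hd ι) m (Fintype.card τ))) := by
  have hv := hd_ge hn
  have hl := lb_ge hv
  have hp := vp_pos hv
  have hbv : (Fintype.card τ : ℝ) ≤ hd ι / 3 := (Nat.cast_le.2 hb).trans KK_le
  have hV : 0 < VV (hd ι) := by unfold VV; linarith
  have hL : (lb (hd ι))⁻¹ ≤ 8 / 9 := inv_le_of_inv_le₀ (by norm_num) (by linarith)
  have hL0 : 0 < (lb (hd ι))⁻¹ := by positivity
  have eV : (VV (hd ι))⁻¹ = (lb (hd ι))⁻¹ / 2 := by unfold VV; rw [mul_inv]; ring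
  have f2 := ff_nonneg 2 (Fintype.card τ)
  have f3 := ff_nonneg 3 (Fintype.card τ)
  have hc : (Fintype.card τ : ℝ) + (2 : ℕ) + 1 ≤ hd ι := by push_cast; linarith
  have h2 := freee_two (v := hd ι) (by linarith)
  have hm : Measurable fun w => ENNReal.ofReal |ftr h w| :=
    (measurable_ftr hh.meas).abs.ennreal_ofReal
  have hY : 0 ≤ Yb (hd ι) m (Fintype.card τ) := by unfold Yb; positivity
  have o : ∀ (κ : τ → ℤ) {B X : ℝ}, 0 < B → 0 ≤ X →
      ∫⁻ U : Matrix τ ι ℝ, IA U * ENNReal.ofReal (ftr h (lv κ U) ^ 2) ≤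
        ENNReal.ofReal (VV (hd ι) ^ Fintype.card τ * X) → _ := fun κ B X hB hX h1 =>
    freee_one hn hh m (κ := κ) (G := fun _ => 1) hB (fun _ => one_pos) measurable_const hX
      (by simpa only [div_one] using h1) (joint_const hn zero_le_one)
  have k2 := cs_CU_le (τ := τ) (j := 2) (c := VV (hd ι) ^ Fintype.card τ *
      (16.4 * Real.exp (-(0.20805 * hd ι)) * (0.68 * Real.exp (-(0.0214 * hd ι)) / VV (hd ι) *
        vp (hd ι)) + (16.4 * Real.exp (-(0.20805 * hd ι)))⁻¹ *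
        (1.642 * Real.exp (-(0.4375 * hd ι)) * Yb (hd ι) m (Fintype.card τ)))) (by positivity)
    fun κ hκ => freee_one hn hh m (G := gs (1 / 4)) (by positivity) (fun _ => Real.exp_pos _)
      (measurable_gs _) (by positivity) (rho_two_w hn hh hκ)
      ((joint_unit hn (m := 1) ⟨hκ.1, hκ.2.ge⟩ (by norm_num) (by norm_num)).mono (fun _ => le_rfl) hn
        (chf_Q hv))
  have k3 := cs_CU_le (τ := τ) (j := 3) (c := VV (hd ι) ^ Fintype.card τ *
      (8.33 * Real.exp (0.25725 * hd ι) * (1.59 * Real.exp (-(0.5145 * hd ι)) / VV (hd ι) *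
        vp (hd ι)) + (8.33 * Real.exp (0.25725 * hd ι))⁻¹ * (1 * Yb (hd ι) m (Fintype.card τ))))
    (by positivity) fun κ hκ => o κ (by positivity) (by positivity) (rho_three hn hh hκ)
  have k4 := cs_CG_le (τ := τ) (j := 4) (c := VV (hd ι) ^ Fintype.card τ *
      (7.08 * Real.exp (0.3444 * hd ι) * (2.2 * Real.exp (-(0.6888 * hd ι)) / VV (hd ι) *
        vp (hd ι)) + (7.08 * Real.exp (0.3444 * hd ι))⁻¹ * (1 * Yb (hd ι) m (Fintype.card τ))))
    (by positivity) fun κ hκ => o κ (by positivity) (by positivity) (rho_four hn hh hκ)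
  have kN := cs_CN_le (τ := τ) (c := VV (hd ι) ^ Fintype.card τ * ((2 : ℝ) ^ (-hd ι) *
      (0.4361 * Real.exp (0.0427 * hd ι) / VV (hd ι) * vp (hd ι) + Yb (hd ι) m (Fintype.card τ))))
    le_rfl (by positivity) hc fun κ hκ => (o κ (X := 0.4361 * Real.exp (0.0427 * hd ι) /
      VV (hd ι) * vp (hd ι) * (mx κ : ℝ) ^ (-(2 * hd ι))) (freee_mx hκ (hd ι)).1 (by positivity)
      ((rho_non hn hh (one_le_two.trans hκ)).trans_eq (by rw [mul_assoc]))).trans_eq (by
        have := (freee_mx hκ (hd ι)).1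
        rw [(freee_mx hκ _).2.2, mul_assoc (_ ^ _), mul_right_comm (2 ^ (-hd ι)),
          ← (freee_mx hκ _).2.1]
        congr 2
        field_simp)
  simp only [← mul_assoc (IA _)]
  simp only [mul_assoc (IA _) 2, S2a]
  rw [lintegral_fs' _ _ (measurable_IA.fun_mul
    ((measurable_s1 hn hh m).abs.ennreal_ofReal.const_mul 2)) hm]
  refine (freee_cover _).trans ((add_le_add (add_le_add (add_le_add k2 k3) k4) kN).trans ?_)
  rw [← ENNReal.ofReal_add (by positivity) (by positivity),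
    ← ENNReal.ofReal_add (by positivity) (by positivity),
    ← ENNReal.ofReal_add (by positivity) (by positivity), freee_CA, freee_CB]
  refine ENNReal.ofReal_le_ofReal ?_
  have ex : ∀ {a b c : ℝ}, a + b ≤ c → Real.exp a * Real.exp b ≤ Real.exp c := fun h => by
    rw [← Real.exp_add]; exact Real.exp_le_exp.2 h
  have a2 := mul_le_mul_of_nonneg_left (ex (a := -(0.20805 * hd ι)) (b := -(0.0214 * hd ι))
    (c := -(0.2294 * hd ι)) (by linarith)) (mul_nonneg hL0.le f2)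
  have a3 := mul_le_mul_of_nonneg_left (ex (a := 0.25725 * hd ι) (b := -(0.5145 * hd ι))
    (c := -(0.2572 * hd ι)) (by linarith)) (mul_nonneg hL0.le f3)
  have a4 := mul_le_mul_of_nonneg_right (mul_le_mul hL (ex (a := 0.3444 * hd ι)
    (b := -(0.6888 * hd ι)) (c := -(0.3444 * hd ι)) (by linarith)) (by positivity) (by norm_num))
    (show (0 : ℝ) ≤ 3 ^ Fintype.card τ by positivity)
  have aN := mul_le_mul_of_nonneg_right (mul_le_mul hL ((mul_le_mul_of_nonneg_right h2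
    (Real.exp_pos _).le).trans (ex (b := 0.0427 * hd ι) (c := -(0.6504 * hd ι)) (by linarith)))
    (by positivity) (by norm_num)) (show (0 : ℝ) ≤ 5 ^ Fintype.card τ by positivity)
  have b2 := mul_le_mul_of_nonneg_left (ex (a := -(-(0.20805 * hd ι))) (b := -(0.4375 * hd ι))
    (c := -(0.2294 * hd ι)) (by linarith)) f2
  have b3 := mul_le_mul_of_nonneg_left (Real.exp_le_exp.2
    (show -(0.25725 * hd ι) ≤ -(0.2572 * hd ι) by linarith)) f3
  have bN := mul_le_mul_of_nonneg_right (h2.trans (Real.exp_le_exp.2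
    (show _ ≤ -(0.6931 * hd ι) by linarith))) (show (0 : ℝ) ≤ 5 ^ Fintype.card τ by positivity)
  have c2 : 0 ≤ Real.exp (-(0.2294 * hd ι)) * ff 2 (Fintype.card τ) := by positivity
  have c3 : 0 ≤ Real.exp (-(0.2572 * hd ι)) * ff 3 (Fintype.card τ) := by positivity
  have c4 : 0 ≤ Real.exp (-(0.3444 * hd ι)) * 3 ^ Fintype.card τ := by positivity
  have cN : 0 ≤ Real.exp (-(0.6504 * hd ι)) * 5 ^ Fintype.card τ := by positivity
  have d2 := mul_nonneg hL0.le c2
  have d3 := mul_nonneg hL0.le c3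
  simp only [div_eq_mul_inv _ (VV _), eV, mul_inv, ← Real.exp_neg]
  rw [show ((2 : ℝ) * (2 : ℕ) + 1) = 5 by norm_num]
  refine le_of_eq_of_le ?_ (mul_le_mul_of_nonneg_left (add_le_add (mul_le_mul_of_nonneg_right
    (?_ : 11.152 * ((lb (hd ι))⁻¹ * ff 2 (Fintype.card τ) *
      (Real.exp (-(0.20805 * hd ι)) * Real.exp (-(0.0214 * hd ι)))) +
      8.8298 * ((lb (hd ι))⁻¹ * ff 3 (Fintype.card τ) *
      (Real.exp (0.25725 * hd ι) * Real.exp (-(0.5145 * hd ι)))) +
      7.788 * ((lb (hd ι))⁻¹ * (Real.exp (0.3444 * hd ι) * Real.exp (-(0.6888 * hd ι))) *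
        3 ^ Fintype.card τ) +
      0.4361 * ((lb (hd ι))⁻¹ * ((2 : ℝ) ^ (-hd ι) * Real.exp (0.0427 * hd ι)) *
        5 ^ Fintype.card τ) ≤ _) hp.le) (mul_le_mul_of_nonneg_right
    (?_ : 3.284 / 16.4 * (ff 2 (Fintype.card τ) *
      (Real.exp (-(-(0.20805 * hd ι))) * Real.exp (-(0.4375 * hd ι)))) +
      4 / 3 / 8.33 * (ff 3 (Fintype.card τ) * Real.exp (-(0.25725 * hd ι))) +
      1 / 7.08 * (Real.exp (-(0.3444 * hd ι)) * 3 ^ Fintype.card τ) +
      2 * ((2 : ℝ) ^ (-hd ι) * 5 ^ Fintype.card τ) ≤ _) hY)) (by positivity))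
  · norm_num [Nat.factorial]
    ring
  · linarith
  · linarith

end Pool.Agent.Eps.P
end
end

-- part Pool.Agent.Lib.MP_3bda03_nt.P.FreeB
section

/-!
The sums of the envelope over a free frame.
-/

set_option autoImplicit false

noncomputable section

open MeasureTheory Matrix
open scoped ENNReal

namespace Pool.Agent.Eps.P

open Pool.Agent.Eps.H

variable {ι : Type} [Fintype ι] {τ : Type} [Fintype τ] [DecidableEq τ] {h : (ι → ℝ) → ℝ}

theorem freeb_ev (v : ℝ) (b : ℕ) {A : ℚ} (hA : 0 ≤ A) (be : ℚ) (q j y : ℕ) :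
    Dt.ev v b ⟨⟨A, 0, q, 0, 0, be⟩, j, y, 0⟩ =
      A * sg v ^ q * Real.exp (-(be * v)) * ff j b * (y : ℝ) ^ b := by
  simp [Dt.ev, Mono.ev, abs_of_nonneg hA]

theorem freeb_t0 {v : ℝ} (hv : 97 / 2 ≤ v) : 0 ≤ t0 v ∧ t0 v ≤ 0.11 := by
  have h1 : 0.43 / v ≤ 0.01 := by rw [div_le_iff₀ (by linarith)]; linarith
  have h2 : 0 ≤ 0.43 / v := div_nonneg (by norm_num) (by linarith)
  rw [t0]
  constructor <;> linarith

theorem freeb_tx {v : ℝ} (hv : 97 / 2 ≤ v) : 0 ≤ tx v ∧ tx v < 1 := by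
  have h1 : 0.388 / v ≤ 0.01 := by rw [div_le_iff₀ (by linarith)]; linarith
  have h2 : 0 ≤ 0.388 / v := div_nonneg (by norm_num) (by linarith)
  rw [tx]
  constructor <;> linarith

theorem freeb_sq {κ : τ → ℤ} (h : mx κ = 2) {i : τ} (hi : κ i ≠ 0) :
    (κ i : ℝ) ^ 2 = 1 ∨ (κ i : ℝ) ^ 2 = 4 := by
  have h1 := le_mx κ i
  have h2 : κ i = 1 ∨ κ i = -1 ∨ κ i = 2 ∨ κ i = -2 := by omega
  rcases h2 with h2 | h2 | h2 | h2 <;> rw [h2] <;> norm_num

variable (hn : 97 ≤ Fintype.card ι)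
include hn

theorem freeb_lift {κ : τ → ℤ} {t bd d c : ℝ} {f : (ι → ℝ) → ℝ}
    (h : Joint (fun U : Matrix τ ι ℝ => Gs t (lv κ U)) bd) (hd0 : 0 ≤ d)
    (hf : ∀ w, f w ≤ 1.024 * gs t w + d) (hc : 1.024 * bd + d ≤ c) :
    Joint (fun U : Matrix τ ι ℝ => ENNReal.ofReal (f (lv κ U))) c := by
  have hm : Measurable fun U : Matrix τ ι ℝ => Gs t (lv κ U) :=
    (measurable_Gs t).comp (measurable_lv κ)
  refine ((h.const_mul hn (c := 1.024) (by norm_num) hm).add hn (joint_const hn hd0)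
    (hm.const_mul _) measurable_const).mono (fun U => ?_) hn hc
  refine (ENNReal.ofReal_le_ofReal (hf _)).trans (ENNReal.ofReal_add_le.trans ?_)
  rw [ENNReal.ofReal_mul (by norm_num), Gs]

theorem freeb_CU {m : ℕ} {t d c B : ℝ} {f : (ι → ℝ) → ℝ} (hm : Measurable f) (h0 : 0 ≤ t)
    (h1 : t < 1) (hd0 : 0 ≤ d) (hf : ∀ w, f w ≤ 1.024 * gs t w + d)
    (hc : 1.024 * chf (hd ι) m t + d ≤ c) (hc0 : 0 ≤ c)
    (hB : 2 ^ (m + 1) / (m + 1).factorial * ff (m + 1) (Fintype.card τ) * c ≤ B) :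
    Joint (fs' (CU τ (m + 1)) (fun w => ENNReal.ofReal (f w)) : Matrix τ ι ℝ → ℝ≥0∞) B := by
  have := ff_nonneg (m + 1) (Fintype.card τ)
  exact joint_fs' hn hm.ennreal_ofReal (bd := fun _ => c)
    (fun κ hκ => freeb_lift hn (joint_unit hn ⟨hκ.1, hκ.2.ge⟩ h0 h1) hd0 hf hc)
    (le_trans (by positivity) hB)
    ((cs_CU_le hc0 fun _ _ => le_rfl).trans (ENNReal.ofReal_le_ofReal hB))

theorem freeb_two {κ : τ → ℤ} {a k i : τ} (hak : a ≠ k) (hi : i ≠ a) (hk : κ k ≠ 0) {t bd : ℝ}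
    (h0 : 0 ≤ t) (h1 : t * (κ a : ℝ) ^ 2 < 1) (h2 : t * (κ k : ℝ) ^ 2 < 1)
    (hb : FF (hd ι) (t * (κ a : ℝ) ^ 2) *
      En (hd ι) (t * (1 - t * (κ a : ℝ) ^ 2) * (κ k : ℝ) ^ 2) ≤ bd) :
    ∃ (l : List τ) (k : τ) (G : ℕ → (ι → ℝ) → ℝ≥0∞) (m : ℕ → ℝ) (mk : ℝ),
      (l ++ [k]).Nodup ∧ i ∉ l ∧ G 0 = Gs t ∧ (∀ j, Measurable (G j)) ∧ (∀ j, 0 ≤ m j) ∧ 0 ≤ mk ∧
      (∀ (j : ℕ) (hj : j < l.length) (z : ι → ℝ),
        ∫⁻ u, iA u * G j ((κ l[j] : ℝ) • u + z) ≤
          ENNReal.ofReal (VV (hd ι) * m j) * G (j + 1) z) ∧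
      (∀ (ρ : (ι → ℝ) → ℝ≥0∞) (μ : ℝ), End ρ μ → ∀ z : ι → ℝ,
        ∫⁻ u, ρ u * G l.length ((κ k : ℝ) • u + z) ≤ ENNReal.ofReal (μ * mk)) ∧
      (∏ j ∈ Finset.range l.length, m j) * mk ≤ bd := by
  have h3 : 0 ≤ t * (κ a : ℝ) ^ 2 := by positivity
  have h4 : 0 ≤ t * (κ k : ℝ) ^ 2 := by positivity
  have h5 : t * (1 - t * (κ a : ℝ) ^ 2) * (κ k : ℝ) ^ 2 < 1 := by nlinarith [mul_nonneg h3 h4]
  refine ⟨[a], k, fun j => Gs (if j = 0 then t else t * (1 - t * (κ a : ℝ) ^ 2)),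
    fun _ => FF (hd ι) (t * (κ a : ℝ) ^ 2), En (hd ι) (t * (1 - t * (κ a : ℝ) ^ 2) * (κ k : ℝ) ^ 2),
    by simp [hak], by simp [hi], rfl, fun _ => measurable_Gs _,
    fun _ => div_nonneg (Real.exp_pos _).le (by linarith),
    div_nonneg (Real.exp_pos _).le (by linarith), fun j hj z => ?_, fun ρ μ hρ z => ?_, ?_⟩
  · obtain rfl : j = 0 := by simpa using hj
    exact free_peel hn h0 h1 z
  · exact (hρ.smul hn (mul_nonneg h0 (by linarith)) (Int.cast_ne_zero.2 hk) z).1 h5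
  · simpa using hb

theorem freeb_M {κ : τ → ℤ} (hκ : κ ∈ CM τ) :
    Joint (fun U : Matrix τ ι ℝ => Gs (t0 (hd ι)) (lv κ U))
      ((0.41 * Real.exp (-(0.4394 * hd ι)) - dl (hd ι)) / 1.024) := by
  obtain ⟨t1, t2⟩ := freeb_t0 (hd_ge hn)
  obtain ⟨c1, c2, c3⟩ := chf_GM (hd_ge hn)
  obtain ⟨j0, hj0⟩ := exists_mx (κ := κ) (by rw [hκ.1]; norm_num)
  rw [hκ.1] at hj0
  have h0 : κ j0 ≠ 0 := by omega
  have h4 : (κ j0 : ℝ) ^ 2 = 4 := by
    have h2 : κ j0 = 2 ∨ κ j0 = -2 := by omega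
    rcases h2 with h2 | h2 <;> rw [h2] <;> norm_num
  obtain ⟨j1, hj1, hne⟩ := Finset.exists_mem_ne (s := Finset.univ.filter fun i => κ i ≠ 0) hκ.2 j0
  have h1 : κ j1 ≠ 0 := (Finset.mem_filter.1 hj1).2
  have h5 : 0 ≤ FF (hd ι) (t0 (hd ι)) * En (hd ι) (4 * t0 (hd ι) * (1 - t0 (hd ι))) :=
    mul_nonneg (div_nonneg (Real.exp_pos _).le (by linarith))
      (div_nonneg (Real.exp_pos _).le (by nlinarith))
  have key : ∀ x, 1.024 * x + dl (hd ι) ≤ 0.41 * Real.exp (-(0.4394 * hd ι)) →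
      x ≤ (0.41 * Real.exp (-(0.4394 * hd ι)) - dl (hd ι)) / 1.024 := fun x hx => by
    rw [le_div_iff₀ (by norm_num)]; linarith
  refine joint_peel hn (h5.trans (key _ c3)) (fun i => ?_) fun h => h0 (congrFun h j0)
  by_cases hi : i = j0
  · refine freeb_two hn hne (hi ▸ hne.symm) h0 t1 ?_ (by rw [h4]; linarith) (key _ ?_)
    · rcases freeb_sq hκ.1 h1 with h | h <;> rw [h] <;> linarith
    · rcases freeb_sq hκ.1 h1 with h | h <;> rw [h, h4]
      · convert c3 using 5 <;> ring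
      · convert c2 using 5 <;> ring
  · refine freeb_two hn hne.symm hi h1 t1 (by rw [h4]; linarith) ?_ (key _ ?_)
    · rcases freeb_sq hκ.1 h1 with h | h <;> rw [h] <;> linarith
    · rcases freeb_sq hκ.1 h1 with h | h <;> rw [h, h4]
      · convert c1 using 5 <;> ring
      · convert c2 using 5 <;> ring

theorem joint_G2 : Joint (fs' (CU τ 2) (fun w => ENNReal.ofReal (Ev (3 / 4) w)) :
    Matrix τ ι ℝ → ℝ≥0∞) (G2.ev (hd ι) (Fintype.card τ)) := by
  obtain ⟨t1, t2⟩ := freeb_t0 (hd_ge hn)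
  refine freeb_CU hn (m := 1) (measurable_Ev _) t1 (by linarith) (by rw [dl]; positivity)
    (Ev_le_gs hn) (chf_G2 (hd_ge hn)) (by positivity) ?_
  rw [G2, freeb_ev _ _ (by norm_num)]
  have := mul_nonneg (Real.exp_pos (-(0.1862 * hd ι))).le (ff_nonneg 2 (Fintype.card τ))
  norm_num [Nat.factorial] at this ⊢
  nlinarith

theorem joint_G3 : Joint (fs' (CU τ 3) (fun w => ENNReal.ofReal (Ev (3 / 4) w)) :
    Matrix τ ι ℝ → ℝ≥0∞) (G3.ev (hd ι) (Fintype.card τ)) := by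
  obtain ⟨t1, t2⟩ := freeb_t0 (hd_ge hn)
  refine freeb_CU hn (m := 2) (measurable_Ev _) t1 (by linarith) (by rw [dl]; positivity)
    (Ev_le_gs hn) (chf_G3 (hd_ge hn)) (by positivity) ?_
  rw [G3, freeb_ev _ _ (by norm_num)]
  have := mul_nonneg (Real.exp_pos (-(0.2667 * hd ι))).le (ff_nonneg 3 (Fintype.card τ))
  norm_num [Nat.factorial] at this ⊢
  nlinarith

theorem joint_G4 : Joint (fs' (CU τ 4) (fun w => ENNReal.ofReal (Ev (3 / 4) w)) :
    Matrix τ ι ℝ → ℝ≥0∞) (G4.ev (hd ι) (Fintype.card τ)) := by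
  obtain ⟨t1, t2⟩ := freeb_t0 (hd_ge hn)
  refine freeb_CU hn (m := 3) (measurable_Ev _) t1 (by linarith) (by rw [dl]; positivity)
    (Ev_le_gs hn) (chf_G4 (hd_ge hn)) (by positivity) ?_
  rw [G4, freeb_ev _ _ (by norm_num)]
  have := mul_nonneg (Real.exp_pos (-(0.3407 * hd ι))).le (ff_nonneg 4 (Fintype.card τ))
  norm_num [Nat.factorial] at this ⊢
  nlinarith

theorem joint_G5 : Joint (fs' (CG τ 5) (fun w => ENNReal.ofReal (Ev (3 / 4) w)) :
    Matrix τ ι ℝ → ℝ≥0∞) (G5.ev (hd ι) (Fintype.card τ)) := by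
  obtain ⟨t1, t2⟩ := freeb_t0 (hd_ge hn)
  have e : G5.ev (hd ι) (Fintype.card τ) =
      3 ^ Fintype.card τ * (0.38 * Real.exp (-(0.4093 * hd ι))) := by
    rw [G5, freeb_ev _ _ (by norm_num), ff_zero]
    norm_num
    ring
  rw [e]
  exact joint_fs' hn (measurable_Ev _).ennreal_ofReal
    (bd := fun _ => 0.38 * Real.exp (-(0.4093 * hd ι)))
    (fun κ hκ => freeb_lift hn (joint_unit hn (m := 4) hκ t1 (by linarith))
      (by rw [dl]; positivity) (Ev_le_gs hn) (chf_G5 (hd_ge hn)))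
    (by positivity) (cs_CG_le (by positivity) fun _ _ => le_rfl)

theorem joint_GM : Joint (fs' (CM τ) (fun w => ENNReal.ofReal (Ev (3 / 4) w)) :
    Matrix τ ι ℝ → ℝ≥0∞) (GM.ev (hd ι) (Fintype.card τ)) := by
  have e : GM.ev (hd ι) (Fintype.card τ) =
      5 ^ Fintype.card τ * (0.41 * Real.exp (-(0.4394 * hd ι))) := by
    rw [GM, freeb_ev _ _ (by norm_num), ff_zero]
    norm_num
    ring
  rw [e]
  exact joint_fs' hn (measurable_Ev _).ennreal_ofReal
    (bd := fun _ => 0.41 * Real.exp (-(0.4394 * hd ι)))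
    (fun κ hκ => freeb_lift hn (freeb_M hn hκ) (by rw [dl]; positivity) (Ev_le_gs hn)
      (le_of_eq (by ring)))
    (by positivity) (cs_CM_le (by positivity) fun _ _ => le_rfl)

theorem joint_GN (hb : Fintype.card τ ≤ KK ι) :
    Joint (fs' (CN τ 3) (fun w => ENNReal.ofReal (Ev (3 / 4) w)) :
      Matrix τ ι ℝ → ℝ≥0∞) (GN.ev (hd ι) (Fintype.card τ)) := by
  have hv := hd_ge hn
  have hs : 0 ≤ sg (hd ι) := le_trans (by norm_num) (sg_ge hv)
  have e : GN.ev (hd ι) (Fintype.card τ) =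
      11.3 * (7 ^ Fintype.card τ * (sg (hd ι) * Real.exp (-(0.7244 * hd ι)))) := by
    rw [GN, freeb_ev _ _ (by norm_num), ff_zero]
    norm_num
    ring
  have hb' : (Fintype.card τ : ℝ) ≤ hd ι / 3 := le_trans (by exact_mod_cast hb) KK_le
  rw [e]
  refine joint_fs' hn (measurable_Ev _).ennreal_ofReal (bd := fun κ => 5.64 * sg (hd ι) *
    Real.exp (-(0.7244 * hd ι)) * (((3 : ℕ) : ℝ) / mx κ) ^ (0.9 * hd ι)) (fun κ hκ => ?_)
    (by positivity) ((cs_CN_le (g := 3) (by norm_num) (by positivity) (by push_cast; linarith)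
      fun _ _ => le_rfl).trans (ENNReal.ofReal_le_ofReal ?_))
  · have h3 : 3 ≤ mx κ := hκ
    obtain ⟨k, hk⟩ := exists_mx (κ := κ) (by omega)
    have h4 : |(κ k : ℝ)| = mx κ := by rw [← hk, Nat.cast_natAbs, Int.cast_abs]
    refine joint_peel hn (G0 := fun w => ENNReal.ofReal (Ev (3 / 4) w)) (by positivity)
      (fun i => ⟨[], k, fun _ w => ENNReal.ofReal (Ev (3 / 4) w), fun _ => 0, _, by simp,
        by simp, rfl, fun _ => (measurable_Ev _).ennreal_ofReal, fun _ => le_rfl, ?_,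
        fun j hj => absurd hj (by simp),
        fun ρ μ hρ z => hρ.env hn (by rw [h4]; exact_mod_cast h3) z, ?_⟩) fun h => ?_
    · positivity
    · rw [h4]; simp
    · rw [show κ k = 0 from congrFun h k, Int.natAbs_zero] at hk; omega
  · have : (0 : ℝ) ≤ 7 ^ Fintype.card τ * (sg (hd ι) * Real.exp (-(0.7244 * hd ι))) := by positivity
    rw [show (2 * ((3 : ℕ) : ℝ) + 1) = 7 by norm_num]
    linarith

theorem joint_GX : Joint (fs' (CU τ 2) (fun w => ENNReal.ofReal (Gx w)) :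
    Matrix τ ι ℝ → ℝ≥0∞) (GX.ev (hd ι) (Fintype.card τ)) := by
  obtain ⟨t1, t2⟩ := freeb_tx (hd_ge hn)
  refine freeb_CU hn (m := 1) (((measurable_gs _).const_mul _).add_const _) t1 t2
    (by rw [dx]; positivity) (fun _ => le_rfl) (chf_GX (hd_ge hn)) (by positivity) ?_
  rw [GX, freeb_ev _ _ (by norm_num)]
  have := mul_nonneg (Real.exp_pos (-(0.2439 * hd ι))).le (ff_nonneg 2 (Fintype.card τ))
  norm_num [Nat.factorial] at this ⊢
  nlinarith

theorem freeb_rest (hb : Fintype.card τ ≤ KK ι) :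
    Joint (fs' (CS τ \ CU τ 2) (fun w => ENNReal.ofReal (Ev (3 / 4) w)) : Matrix τ ι ℝ → ℝ≥0∞)
      (evD (hd ι) (Fintype.card τ) [G3, G4, G5, GM, GN]) := by
  have hm : ∀ S : Set (τ → ℤ), Measurable (fs' S (fun w => ENNReal.ofReal (Ev (3 / 4) w)) :
      Matrix τ ι ℝ → ℝ≥0∞) := fun S => measurable_fs' S (measurable_Ev _).ennreal_ofReal
  refine (((((joint_G3 hn).add hn (joint_G4 hn) (hm _) (hm _)).add hn (joint_G5 hn)
    ((hm _).add (hm _)) (hm _)).add hn (joint_GM hn) (((hm _).add (hm _)).add (hm _))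
    (hm _)).add hn (joint_GN hn hb) ((((hm _).add (hm _)).add (hm _)).add (hm _))
    (hm _)).mono (fun U => ?_) hn (le_of_eq ?_)
  · have h1 : CS τ \ CU τ 2 ⊆ CU τ 3 ∪ CU τ 4 ∪ CG τ 5 ∪ CM τ ∪ CN τ 3 := by
      intro κ hκ
      simp only [CS, CU, CG, CM, CN, Set.mem_sdiff, Set.mem_union, Set.mem_ofPred_eq] at hκ ⊢
      omega
    refine (cs_mono h1 _).trans ((cs_union_le _ _ _).trans (add_le_add_left ?_ _))
    refine (cs_union_le _ _ _).trans (add_le_add_left ?_ _)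
    refine (cs_union_le _ _ _).trans (add_le_add_left ?_ _)
    exact cs_union_le _ _ _
  · simp only [evD, List.map_cons, List.map_nil, List.sum_cons, List.sum_nil]
    ring

theorem joint_Gam2 (hb : Fintype.card τ ≤ KK ι) :
    Joint (Gam2 : Matrix τ ι ℝ → ℝ≥0∞) (evD (hd ι) (Fintype.card τ) GAM) := by
  have hm : ∀ S : Set (τ → ℤ), Measurable (fs' S (fun w => ENNReal.ofReal (Ev (3 / 4) w)) :
      Matrix τ ι ℝ → ℝ≥0∞) := fun S => measurable_fs' S (measurable_Ev _).ennreal_ofReal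
  refine ((joint_G2 hn).add hn (freeb_rest hn hb) (hm _) (hm _)).mono (fun U => ?_) hn
    (le_of_eq ?_)
  · refine (cs_mono (T := CU τ 2 ∪ CS τ \ CU τ 2) ?_ _).trans (cs_union_le _ _ _)
    rw [Set.union_sdiff_self]
    exact Set.subset_union_right
  · simp only [evD, GAM, List.map_cons, List.sum_cons]

theorem joint_XG (hb : Fintype.card τ ≤ KK ι) :
    Joint (XG : Matrix τ ι ℝ → ℝ≥0∞) (evD (hd ι) (Fintype.card τ) XGL) := by
  have h1 : Measurable (fs' (CU τ 2) (fun w => ENNReal.ofReal (Gx w)) : Matrix τ ι ℝ → ℝ≥0∞) :=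
    measurable_fs' _ (((measurable_gs _).const_mul _).add_const _).ennreal_ofReal
  have h2 : Measurable (fs' (CS τ \ CU τ 2) (fun w => ENNReal.ofReal (Ev (3 / 4) w)) :
      Matrix τ ι ℝ → ℝ≥0∞) := measurable_fs' _ (measurable_Ev _).ennreal_ofReal
  have e : GO.ev (hd ι) (Fintype.card τ) = 2 * Fintype.card τ * om2 (hd ι) := by
    rw [GO, freeb_ev _ _ (by norm_num), ff_one, om2]
    norm_num
    ring
  refine (((joint_GX hn).add hn (freeb_rest hn hb) h1 h2).add hn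
    (joint_const hn (c := 2 * Fintype.card τ * om2 (hd ι)) (by rw [om2]; positivity)) (h1.add h2)
    measurable_const).mono (fun U => le_rfl) hn (le_of_eq ?_)
  simp only [evD, XGL, List.map_cons, List.map_nil, List.sum_cons, List.sum_nil, e]
  ring

end Pool.Agent.Eps.P
end
end
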