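import Pool.Agent.Lib.MP_3bda03_nt.P.Theta
import Pool.Agent.Lib.MP_3bda03_nt.P.Mom

-- part Pool.Agent.Lib.MP_3bda03_nt.P.PrimA1
section

/-!
Frames with a relation and the terms linear in the test function.
-/

set_option autoImplicit false

noncomputable section

open MeasureTheory Matrix
open scoped ENNReal

namespace Pool.Agent.Eps.P

open Pool.Agent.Eps.H

variable {ι : Type} [Fintype ι] [DecidableEq ι] {Ω : Type} [MeasurableSpace Ω]
  {P : Measure Ω} {g : Ω → Matrix ι ι ℝ} {Λ : Measure (ι → ℝ)} {d : ℕ} {ξ : ℝ}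
  {τ : Type} [Fintype τ] [DecidableEq τ] {h : (ι → ℝ) → ℝ}

def JC (Λ : Measure (ι → ℝ)) (h : (ι → ℝ) → ℝ) : ℝ≥0∞ :=
  ∫⁻ u, ∫⁻ u', iA u * iA u' * ENNReal.ofReal (h (u + u')) ∂Λ ∂Λ

def JT (Λ : Measure (ι → ℝ)) (h : (ι → ℝ) → ℝ) : ℝ≥0∞ := ∫⁻ u, iA u * cor Λ h u ∂Λ

omit [DecidableEq τ] in
theorem primA1_split (f : (τ → ℤ) → ℝ≥0∞) :
    cs {κ | κ ≠ 0} f = cs (CU τ 1) f + cs (NE τ) f := by
  rw [← cs_union (Set.disjoint_left.2 fun κ h1 h2 => h2.2 h1)]
  refine congrArg (fun S => cs S f) (Set.ext fun κ => ⟨fun h => ?_, fun h => h.elim ?_ (·.1)⟩)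
  · exact (em (κ ∈ CU τ 1)).imp id fun k => ⟨h, k⟩
  · rintro ⟨-, h2⟩ rfl
    simp [spt] at h2

omit [Fintype ι] [DecidableEq ι] in
theorem primA1_single (i : τ) (U : Matrix τ ι ℝ) : lv (Pi.single i 1) U = U i := by
  have h : cv (Pi.single i (1 : ℤ) : τ → ℤ) = Pi.single i 1 := by
    funext j
    by_cases k : j = i <;> simp [cv, k]
  rw [lv, h, single_one_vecMul]
  rfl

theorem primA1_log {x c : ℝ} (h0 : 0 ≤ x) (h1 : x ≤ 1)
    (h : 1 + x + x ^ 2 / 2 + x ^ 3 / 6 + x ^ 4 / 24 + x ^ 5 / 100 ≤ c) : x ≤ Real.log c := by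
  have h2 := Real.exp_bound' h0 h1 (n := 5) (by norm_num)
  have h3 : Real.exp x ≤ c := by
    refine h2.trans (le_trans (le_of_eq ?_) h)
    simp only [Finset.sum_range_succ, Finset.sum_range_zero, Nat.factorial]
    push_cast
    ring
  exact (Real.le_log_iff_exp_le ((Real.exp_pos x).trans_le h3)).2 h3

theorem primA1_r3 {v s : ℝ} (hv : 0 ≤ v) :
    Real.exp (0.63 * v) * (s ^ 2 * Real.exp (v * chE 0.7 0.63 2) *
      FF v (0.7 * 0.63 / (0.7 + (2 : ℕ) * 0.63))) ≤ 1.3 * (s ^ 2 * Real.exp (-(0.5112 * v))) := by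
  have h1 : (0.3162 : ℝ) ≤ Real.log 0.7 + Real.log 1.96 := by
    rw [← Real.log_mul (by norm_num) (by norm_num)]
    exact primA1_log (by norm_num) (by norm_num) (by norm_num)
  have h2 : chE 0.7 0.63 2 ≤ -0.9162 := by
    rw [chE, show (0.7 : ℝ) + (2 : ℕ) * 0.63 = 1.96 by norm_num]
    push_cast
    linarith
  have h3 : Real.exp (0.63 * v) * Real.exp (v * chE 0.7 0.63 2) * Real.exp (-(0.225 * v)) ≤
      Real.exp (-(0.5112 * v)) := by
    rw [← Real.exp_add, ← Real.exp_add]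
    exact Real.exp_le_exp.2 (by nlinarith)
  rw [show (0.7 * 0.63 / (0.7 + (2 : ℕ) * 0.63) : ℝ) = 0.225 by norm_num, FF]
  have h4 := mul_le_mul_of_nonneg_left h3 (sq_nonneg s)
  have h5 := mul_nonneg (sq_nonneg s) (Real.exp_pos (-(0.5112 * v))).le
  norm_num at h4 h5 ⊢
  linarith

theorem primA1_r4 {v s : ℝ} (hv : 0 ≤ v) :
    Real.exp (0.63 * v) * (s ^ 4 * Real.exp (v * chE 0.7 0.63 4)) ≤
      s ^ 4 * Real.exp (-(0.6693 * v)) := by
  have h1 : (0.0993 : ℝ) ≤ (3 : ℕ) * Real.log 0.7 + Real.log 3.22 := by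
    rw [← Real.log_pow, ← Real.log_mul (by norm_num) (by norm_num)]
    exact primA1_log (by norm_num) (by norm_num) (by norm_num)
  have h2 : chE 0.7 0.63 4 ≤ -1.2993 := by
    rw [chE, show (0.7 : ℝ) + (4 : ℕ) * 0.63 = 3.22 by norm_num]
    push_cast at h1 ⊢
    linarith
  rw [mul_left_comm, ← Real.exp_add]
  exact mul_le_mul_of_nonneg_left (Real.exp_le_exp.2 (by nlinarith)) (by positivity)

theorem primA1_rn {v m : ℝ} (hv : 97 / 2 ≤ v) (hm : 0 < m) :
    Real.exp (1 * v) * ((th v / (1 * 1 ^ 2)) ^ v / VV v * (1 / m) ^ (5 * v / 3)) ≤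
      sg v * Real.exp (-(1.155 * v)) * (((2 : ℕ) : ℝ) / m) ^ (5 * v / 3) := by
  have hV : 0 < VV v := by have := lb_ge hv; rw [VV]; linarith
  have hs : 0 ≤ sg v := by linarith [sg_ge hv]
  have h1 : (1 / m) ^ (5 * v / 3) = Real.exp (-(Real.log 2 * (5 * v / 3))) *
      (((2 : ℕ) : ℝ) / m) ^ (5 * v / 3) := by
    rw [← neg_mul, ← Real.log_inv, ← Real.rpow_def_of_pos (by norm_num),
      ← Real.mul_rpow (by norm_num) (by positivity)]
    congr 1
    push_cast
    ring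
  have h2 : Real.exp (1 * v) * ((th v / (1 * 1 ^ 2)) ^ v / VV v) = sg v := by
    rw [one_pow, mul_one, div_one, one_mul, th_pow hv, Real.exp_neg]
    field_simp
  rw [← mul_assoc, h2, h1, ← mul_assoc]
  refine mul_le_mul_of_nonneg_right (mul_le_mul_of_nonneg_left (Real.exp_le_exp.2 ?_) hs)
    (by positivity)
  nlinarith [Real.log_two_gt_d9]

theorem primA1_size {v : ℝ} {a : ℕ} (ha : v / 3 - 1 < a) :
    1 ≤ 5 * Real.exp (-(0.5364 * v)) * 5 ^ a := by
  have h : (5 : ℝ) ^ (a + 1) = Real.exp (((a + 1 : ℕ) : ℝ) * Real.log 5) := by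
    rw [Real.exp_nat_mul, Real.exp_log (by norm_num)]
  rw [mul_right_comm, ← pow_succ', h, ← Real.exp_add]
  refine Real.one_le_exp ?_
  push_cast
  nlinarith [Real.log_five_gt_d9]

omit [DecidableEq ι] in
theorem primA1_rel (U : Matrix τ ι ℝ) : 2 * ind (rel U) ≤ fs' (NE τ) iB U := by
  by_cases h : rel U
  · obtain ⟨κ, h1, h2⟩ := h
    have h3 := ind_le_half (S := NE τ) (f := fun κ => iB (lv κ U)) (fun k => k.1 rfl)
      (fun κ k => neg_mem_NE.2 k) (fun κ => by simp [iB, BB, lv_neg, Set.indicator, nsq_neg]) h1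
    refine le_trans (mul_le_mul_right ((ind_le_one _).trans ?_) 2) h3
    have h4 : lv κ U ∈ BB ι := h2.2
    simp [iB, h4]
  · rw [ind_neg h, mul_zero]
    exact zero_le

omit [DecidableEq ι] [DecidableEq τ] in
theorem primA1_Gs (hn : 97 ≤ Fintype.card ι) {t c c' : ℝ} (ht : 0 ≤ t) {κ : τ → ℤ}
    (h : ∫⁻ U, IA U * Gs t (lv κ U) ∂pw τ Λ ≤ ENNReal.ofReal c)
    (h' : Real.exp (t * hd ι) * c ≤ c') :
    ∫⁻ U, IA U * iB (lv κ U) ∂pw τ Λ ≤ ENNReal.ofReal c' := by
  calc _ ≤ ∫⁻ U, ENNReal.ofReal (Real.exp (t * hd ι)) * (IA U * Gs t (lv κ U)) ∂pw τ Λ :=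
        lintegral_mono fun U => by
          rw [mul_left_comm]
          exact mul_le_mul_right (iB_le_Gs hn ht _) _
    _ ≤ _ := by
      rw [lintegral_const_mul' _ _ ENNReal.ofReal_ne_top]
      refine (mul_le_mul_right h _).trans ?_
      rw [← ENNReal.ofReal_mul (Real.exp_pos _).le]
      exact ENNReal.ofReal_le_ofReal h'

omit [DecidableEq ι] in
theorem primA1_int [SigmaFinite Λ] (hn : 97 ≤ Fintype.card ι) (G : Good Λ ξ)
    (ha : (Fintype.card τ : ℝ) ≤ hd ι / 3) :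
    ∫⁻ U, IA U * ind (rel U) ∂pw τ Λ ≤ ENNReal.ofReal (((1 + ξ) * VV (hd ι)) ^ Fintype.card τ *
      (ff 2 (Fintype.card τ) * ((1 + ξ) * (1.5 * Real.exp (-(0.2876 * hd ι)))) +
        0.867 * ff 3 (Fintype.card τ) * (sg (hd ι) ^ 2 * Real.exp (-(0.5112 * hd ι))) +
        0.5 * 3 ^ Fintype.card τ * (sg (hd ι) ^ 4 * Real.exp (-(0.6693 * hd ι))) +
        5 ^ Fintype.card τ * (sg (hd ι) * Real.exp (-(1.155 * hd ι))))) := by
  have hv := hd_ge hn
  have hv0 : 0 ≤ hd ι := by linarith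
  have hξ := G.nonneg
  have hs : 0 ≤ sg (hd ι) := by linarith [sg_ge hv]
  have hM : 0 ≤ ((1 + ξ) * VV (hd ι)) ^ Fintype.card τ := by
    have := lb_ge hv
    rw [VV]
    positivity
  have f2 := ff_nonneg 2 (Fintype.card τ)
  have f3 := ff_nonneg 3 (Fintype.card τ)
  have h2 := cs_CU_le (by positivity) fun κ hκ => G.tri hn (κ := κ) hκ
  have h3 := cs_CU_le (τ := τ) (j := 3) (c := ((1 + ξ) * VV (hd ι)) ^ Fintype.card τ *
      (1.3 * (sg (hd ι) ^ 2 * Real.exp (-(0.5112 * hd ι))))) (by positivity) fun κ hκ =>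
    primA1_Gs hn (by norm_num) (G.chain_eq hn (a := 0.7) (t := 0.63) (m := 2) (by norm_num)
      (by norm_num) (by norm_num) (by norm_num) hκ) (by
        rw [mul_left_comm]
        exact mul_le_mul_of_nonneg_left (primA1_r3 hv0) hM)
  have h4 := cs_CG_le (τ := τ) (j := 4) (c := ((1 + ξ) * VV (hd ι)) ^ Fintype.card τ *
      (sg (hd ι) ^ 4 * Real.exp (-(0.6693 * hd ι)))) (by positivity) fun κ hκ =>
    primA1_Gs hn (by norm_num) (G.chain_ge hn (a := 0.7) (t := 0.63) (m := 4) (by norm_num)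
      (by norm_num) (by norm_num) (by norm_num) hκ) (by
        rw [mul_left_comm]
        exact mul_le_mul_of_nonneg_left (primA1_r4 hv0) hM)
  have h5 := cs_CN_le (τ := τ) (g := 2) (c := ((1 + ξ) * VV (hd ι)) ^ Fintype.card τ *
      (sg (hd ι) * Real.exp (-(1.155 * hd ι)))) (p := 5 * hd ι / 3) le_rfl (by positivity)
      (by push_cast; linarith) fun κ hκ => by
    have hm : (2 : ℝ) ≤ mx κ := by exact_mod_cast (show 2 ≤ mx κ from hκ)
    exact primA1_Gs hn (by norm_num) (G.chain_non hn (t := 1) (g0 := 1) (κ := κ) one_pos one_pos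
      (by norm_num) (by linarith)) (by
        rw [mul_assoc, mul_assoc, mul_left_comm]
        exact mul_le_mul_of_nonneg_left (primA1_rn hv (by linarith)) hM)
  have hsub : NE τ ⊆ CU τ 2 ∪ CU τ 3 ∪ CG τ 4 ∪ CN τ 2 := by
    rw [Set.union_assoc (CU τ 2), ← CG_succ, ← CG_succ]
    exact NE_subset
  refine (ENNReal.mul_le_mul_iff_right two_ne_zero ENNReal.ofNat_ne_top).1 ?_
  calc 2 * ∫⁻ U, IA U * ind (rel U) ∂pw τ Λ ≤ ∫⁻ U, IA U * fs' (NE τ) iB U ∂pw τ Λ := by
        rw [← lintegral_const_mul' _ _ ENNReal.ofNat_ne_top]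
        refine lintegral_mono fun U => ?_
        rw [mul_left_comm]
        exact mul_le_mul_right (primA1_rel U) _
    _ ≤ _ := by
      rw [lintegral_fs' _ _ measurable_IA measurable_iB]
      refine ((cs_mono hsub _).trans ((cs_union_le _ _ _).trans (add_le_add
        ((cs_union_le _ _ _).trans (add_le_add ((cs_union_le _ _ _).trans (add_le_add h2 h3)) h4))
        h5))).trans ?_
      rw [← ENNReal.ofReal_add (by positivity) (by positivity),
        ← ENNReal.ofReal_add (by positivity) (by positivity),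
        ← ENNReal.ofReal_add (by positivity) (by positivity), ← ENNReal.ofReal_ofNat 2,
        ← ENNReal.ofReal_mul zero_le_two]
      refine ENNReal.ofReal_le_ofReal ?_
      have h6 : 0 ≤ ((1 + ξ) * VV (hd ι)) ^ Fintype.card τ * (ff 3 (Fintype.card τ) *
          (sg (hd ι) ^ 2 * Real.exp (-(0.5112 * hd ι)))) := by positivity
      norm_num [Nat.factorial] at h6 ⊢
      nlinarith [h6]

omit [DecidableEq ι] in
theorem Hs_split (he : ∀ y, h (-y) = h y) (hz : ∀ y ∈ BB ι, h y = 0) (U : Matrix τ ι ℝ) :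
    IA U * Hs {κ | κ ≠ 0} h U = IA U * Hs (CU τ 2) h U + IA U * Hs (NE τ \ CU τ 2) h U := by
  by_cases hU : ∀ i, U i ∈ AA ι
  · have h1 : Hs (CU τ 1) h U = 0 := by
      rw [Hs, fs', cs_CU_one]
      refine Finset.sum_eq_zero fun i _ => ?_
      rw [lv_neg, he, primA1_single, hz _ (hU i).2, ENNReal.ofReal_zero, add_zero]
    rw [← mul_add, Hs, fs', primA1_split, Hs, Hs, fs', fs', ← cs_union Set.disjoint_sdiff_right,
      Set.union_sdiff_cancel CU_two_subset]
    rw [Hs, fs'] at h1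
    rw [h1, zero_add]
  · rw [IA_eq_zero hU, zero_mul, zero_mul, zero_mul, add_zero]

omit [DecidableEq ι] in
theorem Esh_split (U : Matrix τ ι ℝ) :
    Esh {κ | κ ≠ 0} Λ h U = Esh (CU τ 1) Λ h U + Esh (NE τ) Λ h U := by
  rw [Esh, fs', primA1_split, mul_add]
  rfl

variable (hn : 97 ≤ Fintype.card ι) (R : RL P g Λ d) (G : Good Λ ξ) (hd5 : 5 * hd ι / 3 ≤ d)
include hn R G hd5

theorem bad_le {a : ℕ} (ha : a ≤ KK ι) :
    ∫⁻ U, badF (fun _ _ => True) (KK ι) a U ∂pw (Fin a) Λ ≤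
      ENNReal.ofReal (((1 + ξ) * VV (hd ι)) ^ a * evA (hd ι) ξ a LPS) := by
  have := R.sf
  have hv := hd_ge hn
  have hξ := G.nonneg
  have hs : 0 ≤ sg (hd ι) := by linarith [sg_ge hv]
  have hM : 0 ≤ ((1 + ξ) * VV (hd ι)) ^ a := by
    have := lb_ge hv
    rw [VV]
    positivity
  have f2 := ff_nonneg 2 a
  have f3 := ff_nonneg 3 a
  have h1 := primA1_int (τ := Fin a) hn G (by
    rw [Fintype.card_fin]
    exact (Nat.cast_le.2 ha).trans KK_le)
  have h2 : ∫⁻ U, IA U * ind (a = KK ι) ∂pw (Fin a) Λ ≤ ENNReal.ofReal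
      (((1 + ξ) * VV (hd ι)) ^ a * (5 * Real.exp (-(0.5364 * hd ι)) * 5 ^ a)) := by
    by_cases h : a = KK ι
    · simp only [ind_pos h, mul_one]
      refine (G.lintegral_IA hn).trans (ENNReal.ofReal_le_ofReal ?_)
      rw [Fintype.card_fin]
      exact le_mul_of_one_le_right hM (primA1_size (h ▸ KK_gt))
    · simp [ind_neg h]
  rw [Fintype.card_fin] at h1
  calc _ ≤ ∫⁻ U, IA U * ind (rel U) + IA U * ind (a = KK ι) ∂pw (Fin a) Λ := by
        refine lintegral_mono fun U => ?_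
        rw [badF, ← mul_add]
        refine mul_le_mul_right ?_ _
        by_cases h : a = KK ι
        · rw [ind_pos h]
          exact (ind_le_one _).trans le_add_self
        · by_cases h' : rel U
          · rw [ind_pos h']
            exact (ind_le_one _).trans le_self_add
          · rw [ind_neg (by simp [h, h'])]
            exact zero_le
    _ ≤ _ := by
      rw [lintegral_add_left (f := fun U => IA U * ind (rel U))
        (measurable_IA.mul (measurable_ind measurableSet_rel))]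
      refine (add_le_add h1 h2).trans ?_
      rw [← ENNReal.ofReal_add (by positivity) (by positivity), ← mul_add]
      refine ENNReal.ofReal_le_ofReal (mul_le_mul_of_nonneg_left (le_of_eq ?_) hM)
      simp only [evA, LPS, At.ev, Mono.ev, List.map_cons, List.map_nil, List.sum_cons,
        List.sum_nil, ff_zero]
      norm_num
      ring

end Pool.Agent.Eps.P
end
end

-- part Pool.Agent.Lib.MP_3bda03_nt.P.PrimA
section

/-!
Frames with a relation and the terms linear in the test function.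
-/

set_option autoImplicit false

noncomputable section

open MeasureTheory Matrix
open scoped ENNReal

namespace Pool.Agent.Eps.P

open Pool.Agent.Eps.H

variable {ι : Type} [Fintype ι] [DecidableEq ι] {Ω : Type} [MeasurableSpace Ω]
  {P : Measure Ω} {g : Ω → Matrix ι ι ℝ} {Λ : Measure (ι → ℝ)} {d : ℕ} {ξ : ℝ}
  {τ : Type} [Fintype τ] [DecidableEq τ] {h : (ι → ℝ) → ℝ}

theorem prima_exp_neg {x c : ℝ} (hx : 0 ≤ x) (hc : 0 ≤ c)
    (h : 1 ≤ c * (1 + x + x ^ 2 / 2 + x ^ 3 / 6 + x ^ 4 / 24)) : Real.exp (-x) ≤ c := by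
  have h1 := Real.sum_le_exp_of_nonneg hx 5
  simp only [Finset.sum_range_succ, Finset.sum_range_zero, Nat.factorial] at h1
  have h2 : 1 + x + x ^ 2 / 2 + x ^ 3 / 6 + x ^ 4 / 24 ≤ Real.exp x := by
    refine le_trans (le_of_eq ?_) h1
    push_cast
    ring
  have h3 : Real.exp (-x) * Real.exp x = 1 := by rw [← Real.exp_add]; simp
  have h4 := Real.exp_pos (-x)
  have h5 : 1 ≤ c * Real.exp x := h.trans (mul_le_mul_of_nonneg_left h2 hc)
  calc Real.exp (-x) = Real.exp (-x) * 1 := (mul_one _).symm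
    _ ≤ Real.exp (-x) * (c * Real.exp x) := mul_le_mul_of_nonneg_left h5 h4.le
    _ = c * (Real.exp (-x) * Real.exp x) := by ring
    _ = c := by rw [h3, mul_one]

theorem prima_le_log {x y : ℝ} (h0 : 0 ≤ x) (h1 : x ≤ 1)
    (h : 1 + x + x ^ 2 / 2 + x ^ 3 / 6 + x ^ 4 / 24 + x ^ 5 / 100 ≤ y) : x ≤ Real.log y := by
  have h2 := Real.exp_bound' h0 h1 (n := 5) (by norm_num)
  simp only [Finset.sum_range_succ, Finset.sum_range_zero, Nat.factorial] at h2
  have h3 : Real.exp x ≤ y := by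
    refine h2.trans (le_trans (le_of_eq ?_) h)
    push_cast
    ring
  exact (Real.le_log_iff_exp_le ((Real.exp_pos x).trans_le h3)).2 h3

theorem prima_FF {v s c e : ℝ} (hc : s ≤ c) (h1 : c < 1) :
    Real.exp e * FF v s ≤ Real.exp (e - s * v) / (1 - c) := by
  rw [FF, ← mul_div_assoc, ← Real.exp_add, ← sub_eq_add_neg]
  exact div_le_div_of_nonneg_left (Real.exp_pos _).le (by linarith) (by linarith)

theorem prima_jc {v : ℝ} (hv : 97 / 2 ≤ v) :
    Real.exp (tC v * v) * Real.exp (v * (0.74 - 1 - Real.log (0.74 + tC v))) *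
      FF v (0.74 * tC v / (0.74 + tC v)) ≤ 0.885 * Real.exp (-(0.2402 * v)) := by
  have v0 : 0 < v := by linarith
  obtain ⟨e, he⟩ : ∃ e : ℝ, e = 1.35 / v := ⟨_, rfl⟩
  have e1 : e * v = 1.35 := by rw [he]; field_simp
  have e0 : 0 < e := by rw [he]; positivity
  have e2 : e ≤ 0.02784 := by rw [he, div_le_iff₀ v0]; linarith
  have ht : tC v = 0.3678 + e := by rw [tC, he]
  rw [ht]
  have hA : (0 : ℝ) < 0.74 + (0.3678 + e) := by linarith
  have l0 : (0.10237 : ℝ) ≤ Real.log 1.1078 :=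
    prima_le_log (by norm_num) (by norm_num) (by norm_num)
  have l1 : 0.10237 + e / 1.1357 ≤ Real.log (0.74 + (0.3678 + e)) := by
    have a1 : 0 < (0.74 + (0.3678 + e)) / 1.1078 := by positivity
    have a2 := Real.one_sub_inv_le_log_of_pos a1
    rw [Real.log_div hA.ne' (by norm_num), inv_div] at a2
    have a3 : e / 1.1357 ≤ 1 - 1.1078 / (0.74 + (0.3678 + e)) := by
      have : 1 - 1.1078 / (0.74 + (0.3678 + e)) = e / (0.74 + (0.3678 + e)) := by
        field_simp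
        ring
      rw [this]
      exact div_le_div_of_nonneg_left e0.le hA (by linarith)
    linarith
  obtain ⟨s, hs⟩ : ∃ s : ℝ, s = 0.74 * (0.3678 + e) / (0.74 + (0.3678 + e)) := ⟨_, rfl⟩
  have s1 : 0.245686 + 0.4352 * e ≤ s := by
    rw [hs, le_div_iff₀ hA]; nlinarith
  have s2 : s ≤ 0.2579 := by
    rw [hs, div_le_iff₀ hA]; linarith
  rw [← hs, ← Real.exp_add]
  refine (prima_FF s2 (by norm_num)).trans ?_
  have x1 : (0.3678 + e) * v + v * (0.74 - 1 - Real.log (0.74 + (0.3678 + e))) - s * v ≤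
      -0.426 + -(0.2402 * v) := by
    have b1 := mul_le_mul_of_nonneg_left l1 v0.le
    have b2 := mul_le_mul_of_nonneg_right s1 v0.le
    have b3 : v * (0.10237 + e / 1.1357) = 0.10237 * v + e * v / 1.1357 := by ring
    have b4 : (0.245686 + 0.4352 * e) * v = 0.245686 * v + 0.4352 * (e * v) := by ring
    have b5 : (0.3678 + e) * v = 0.3678 * v + e * v := by ring
    rw [b3, e1] at b1
    rw [b4, e1] at b2
    rw [b5, e1]
    nlinarith
  have x2 := Real.exp_le_exp.2 x1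
  rw [Real.exp_add] at x2
  have x3 : Real.exp (-0.426) ≤ 0.6567 :=
    prima_exp_neg (x := 0.426) (by norm_num) (by norm_num) (by norm_num)
  have x4 := Real.exp_pos (-(0.2402 * v))
  rw [div_le_iff₀ (by norm_num)]
  nlinarith

theorem prima_r3 {v : ℝ} (hv : 97 / 2 ≤ v) :
    Real.exp (0.3678 * v) * Real.exp (v * chE 0.81 0.3678 2) *
      FF v (0.81 * 0.3678 / (0.81 + (2 : ℕ) * 0.3678)) ≤ 1.2388 * Real.exp (-(0.4296 * v)) := by
  have v0 : 0 < v := by linarith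
  have l0 : (0.22466 : ℝ) ≤ Real.log (0.81 * (0.81 + 2 * 0.3678)) :=
    prima_le_log (by norm_num) (by norm_num) (by norm_num)
  rw [Real.log_mul (by norm_num) (by norm_num)] at l0
  rw [← Real.exp_add]
  refine (prima_FF (c := 0.19276) (by norm_num) (by norm_num)).trans ?_
  have x1 : 0.3678 * v + v * chE 0.81 0.3678 2 - 0.81 * 0.3678 / (0.81 + (2 : ℕ) * 0.3678) * v ≤
      -(0.4296 * v) := by
    have b1 : chE 0.81 0.3678 2 ≤ -0.38 - 0.22466 := by
      simp only [chE, Nat.cast_ofNat]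
      linarith
    have b2 : (0.19275 : ℝ) ≤ 0.81 * 0.3678 / (0.81 + (2 : ℕ) * 0.3678) := by norm_num
    have b3 := mul_le_mul_of_nonneg_left b1 v0.le
    have b4 := mul_le_mul_of_nonneg_right b2 v0.le
    linarith
  have x2 := Real.exp_le_exp.2 x1
  have x4 := Real.exp_pos (-(0.4296 * v))
  rw [div_le_iff₀ (by norm_num)]
  linarith

theorem prima_r4 {v : ℝ} (hv : 97 / 2 ≤ v) :
    Real.exp (0.3678 * v) * Real.exp (v * chE 0.84 0.3678 4) ≤ Real.exp (-(0.5869 * v)) := by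
  have v0 : 0 < v := by linarith
  have l0 : (0.3147 : ℝ) ≤ Real.log (0.84 ^ 3 * (0.84 + 4 * 0.3678)) :=
    prima_le_log (by norm_num) (by norm_num) (by norm_num)
  rw [Real.log_mul (by norm_num) (by norm_num), Real.log_pow] at l0
  rw [← Real.exp_add]
  refine Real.exp_le_exp.2 ?_
  have b1 : chE 0.84 0.3678 4 ≤ -0.64 - 0.3147 := by
    simp only [chE, Nat.cast_ofNat] at l0 ⊢
    linarith
  have b3 := mul_le_mul_of_nonneg_left b1 v0.le
  linarith

theorem prima_rn {v : ℝ} (hv : 97 / 2 ≤ v) :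
    2 * ((VV v)⁻¹ * (1 / 2 : ℝ) ^ (5 * v / 3)) ≤
      0.587 * Real.exp (-(0.787 * v)) * Real.sqrt (vp v) := by
  have v0 : 0 < v := by linarith
  have h1 : (VV v)⁻¹ ≤ 4 / 9 := by
    have := lb_ge hv
    rw [VV, inv_le_comm₀ (by linarith) (by norm_num)]
    linarith
  have h2 : (1 / 2 : ℝ) ^ (5 * v / 3) ≤
      Real.exp (-0.014) * Real.exp (-(0.787 * v)) * Real.exp (-(0.36795 * v)) := by
    rw [Real.rpow_def_of_pos (by norm_num), ← Real.exp_add, ← Real.exp_add, one_div, Real.log_inv]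
    refine Real.exp_le_exp.2 ?_
    have := mul_le_mul_of_nonneg_right Real.log_two_gt_d9.le v0.le
    nlinarith
  have h3 : Real.exp (-0.014) ≤ 0.99 :=
    prima_exp_neg (x := 0.014) (by norm_num) (by norm_num) (by norm_num)
  have h4 : Real.exp (-(0.36795 * v)) ≤ 0.6604 * Real.sqrt (vp v) := by
    have a1 := mul_le_mul_of_nonneg_left (inv_sqrt_vp hv) (Real.exp_pos (-(0.36795 * v))).le
    have a2 : Real.exp (-(0.36795 * v)) * Real.exp (0.36795 * v) = 1 := by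
      rw [← Real.exp_add]; simp
    calc Real.exp (-(0.36795 * v)) = Real.exp (-(0.36795 * v)) * 1 := (mul_one _).symm
      _ ≤ _ := a1
      _ = 0.6604 * (Real.exp (-(0.36795 * v)) * Real.exp (0.36795 * v)) * Real.sqrt (vp v) := by
        ring
      _ = _ := by rw [a2, mul_one]
  have h5 : (1 / 2 : ℝ) ^ (5 * v / 3) ≤
      0.99 * Real.exp (-(0.787 * v)) * (0.6604 * Real.sqrt (vp v)) :=
    h2.trans (by gcongr)
  have h6 : 0 ≤ Real.exp (-(0.787 * v)) * Real.sqrt (vp v) := by positivity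
  calc 2 * ((VV v)⁻¹ * (1 / 2 : ℝ) ^ (5 * v / 3))
      ≤ 2 * (4 / 9 * (0.99 * Real.exp (-(0.787 * v)) * (0.6604 * Real.sqrt (vp v)))) := by
        gcongr
    _ ≤ _ := by nlinarith

theorem prima_jt {v : ℝ} (hv : 97 / 2 ≤ v) :
    FF v (tC v / 2) ≤ 0.635 * Real.exp (-(0.1839 * v)) := by
  have v0 : 0 < v := by linarith
  have e2 : 1.35 / v ≤ 0.02784 := by rw [div_le_iff₀ v0]; linarith
  have h1 := prima_FF (v := v) (s := tC v / 2) (c := 0.19782) (e := 0)
    (by rw [tC]; linarith) (by norm_num)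
  have h2 : 0 - tC v / 2 * v = -0.675 + -(0.1839 * v) := by rw [tC]; field_simp; ring
  rw [Real.exp_zero, one_mul, h2, Real.exp_add] at h1
  have h3 : Real.exp (-0.675) ≤ 0.5093 := by
    have a : Real.exp (-0.3375) ≤ 0.71365 :=
      prima_exp_neg (x := 0.3375) (by norm_num) (by norm_num) (by norm_num)
    have b : Real.exp (-0.675) = Real.exp (-0.3375) * Real.exp (-0.3375) := by
      rw [← Real.exp_add]; norm_num
    have c := Real.exp_pos (-0.3375 : ℝ)
    rw [b]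
    nlinarith
  have x4 := Real.exp_pos (-(0.1839 * v))
  refine h1.trans ?_
  rw [div_le_iff₀ (by norm_num)]
  nlinarith

theorem prima_two {v : ℝ} (hv : 97 / 2 ≤ v) : 4 * (v / 3) * (2 : ℝ) ^ (-v) ≤ 1 := by
  have v0 : 0 < v := by linarith
  have h1 : (2 : ℝ) ^ (-v) ≤ Real.exp (-(0.69 * v)) := by
    rw [Real.rpow_def_of_pos (by norm_num)]
    refine Real.exp_le_exp.2 ?_
    have := mul_le_mul_of_nonneg_right Real.log_two_gt_d9.le v0.le
    nlinarith
  have h2 : Real.exp (-(0.69 * v)) ≤ (4 * (v / 3))⁻¹ := by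
    refine prima_exp_neg (by positivity) (by positivity) ?_
    rw [le_inv_mul_iff₀ (by positivity)]
    have : 0 ≤ (0.69 * v) ^ 3 / 6 := by positivity
    have : 0 ≤ (0.69 * v) ^ 4 / 24 := by positivity
    nlinarith
  calc 4 * (v / 3) * (2 : ℝ) ^ (-v) ≤ 4 * (v / 3) * (4 * (v / 3))⁻¹ :=
        mul_le_mul_of_nonneg_left (h1.trans h2) (by positivity)
    _ = 1 := mul_inv_cancel₀ (by positivity)

theorem prima_cs_congr {α : Type} {S : Set α} {f : α → ℝ≥0∞} {c : ℝ≥0∞} (H : ∀ x ∈ S, f x = c) :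
    cs S f = cs S fun _ => c :=
  le_antisymm (cs_le_cs fun x hx => (H x hx).le) (cs_le_cs fun x hx => (H x hx).ge)

omit [DecidableEq ι] in
theorem prima_iA_sign {ε : ℝ} (hε : ε = 1 ∨ ε = -1) (y : ι → ℝ) : iA (ε • y) = iA y := by
  rcases hε with rfl | rfl
  · rw [one_smul]
  · rw [neg_one_smul]
    by_cases hy : y ∈ AA ι
    · rw [iA, iA, Set.indicator_of_mem hy, Set.indicator_of_mem (neg_mem_AA.2 hy)]; rfl
    · rw [iA, iA, Set.indicator_of_notMem hy, Set.indicator_of_notMem (mt neg_mem_AA.1 hy)]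

omit [Fintype ι] [DecidableEq ι] in
theorem prima_lv_one {κ : τ → ℤ} (hκ : κ ∈ CU τ 1) :
    ∃ (i : τ) (ε : ℝ), (ε = 1 ∨ ε = -1) ∧ ∀ U : Matrix τ ι ℝ, lv κ U = ε • U i := by
  have key : ∀ (i : τ) (U : Matrix τ ι ℝ), lv (Pi.single i 1) U = U i := by
    intro i U
    ext j
    simp [lv, cv, Matrix.vecMul, dotProduct, Pi.single_apply]
  obtain ⟨i, rfl | rfl⟩ := mem_CU_one.1 hκ
  · exact ⟨i, 1, Or.inl rfl, fun U => by rw [key, one_smul]⟩
  · exact ⟨i, -1, Or.inr rfl, fun U => by rw [lv_neg, key, neg_one_smul]⟩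

omit [Fintype ι] [DecidableEq ι] in
theorem prima_lv_two {κ : τ → ℤ} (hκ : κ ∈ CU τ 2) :
    ∃ (i j : τ) (ε ε' : ℝ), i ≠ j ∧ (ε = 1 ∨ ε = -1) ∧ (ε' = 1 ∨ ε' = -1) ∧
      ∀ U : Matrix τ ι ℝ, lv κ U = ε • U i + ε' • U j := by
  obtain ⟨h1, h2⟩ := hκ
  have hne : Nonempty τ := by
    obtain ⟨x, -⟩ : (Finset.univ.filter fun i => κ i ≠ 0).Nonempty :=
      Finset.card_pos.1 (by unfold spt at h2; omega)
    exact ⟨x⟩
  obtain ⟨l, k, hl, hnd, hnz, -, -, hz⟩ := exists_list (κ := κ) (j := 1) h2.ge hne.some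
  obtain ⟨x, rfl⟩ := List.length_eq_one_iff.1 hl
  have hxk : x ≠ k := by simpa using hnd
  have sgn : ∀ y, κ y ≠ 0 → ((κ y : ℝ) = 1 ∨ (κ y : ℝ) = -1) := by
    intro y hy
    have := (le_mx κ y).trans h1
    have h3 : κ y = 1 ∨ κ y = -1 := by omega
    rcases h3 with h3 | h3 <;> simp [h3]
  refine ⟨x, k, κ x, κ k, hxk, sgn x (hnz x (by simp)), sgn k (hnz k (by simp)), fun U => ?_⟩
  ext j
  simp only [lv, cv, Matrix.vecMul, dotProduct, Pi.add_apply, Pi.smul_apply, smul_eq_mul]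
  refine Fintype.sum_eq_add x k hxk fun c hc => ?_
  rw [hz h2 c (by simp [hc.1, hc.2])]
  simp

theorem prima_ofReal {a b : ℝ} (ha : 0 ≤ a) {x : ℝ≥0∞} (hx : x ≤ ENNReal.ofReal b) :
    ENNReal.ofReal a * x ≤ ENNReal.ofReal (a * b) := by
  rw [ENNReal.ofReal_mul ha]
  gcongr

variable (hn : 97 ≤ Fintype.card ι) (R : RL P g Λ d) (G : Good Λ ξ) (hd5 : 5 * hd ι / 3 ≤ d)
include hn R G hd5

omit G in
theorem prima_sign {ε : ℝ} (hε : ε = 1 ∨ ε = -1) {f : (ι → ℝ) → ℝ≥0∞} (hf : Measurable f) :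
    ∫⁻ y, f (ε • y) ∂Λ = ∫⁻ y, f y ∂Λ := by
  have hv := hd_ge hn
  have hd1 : 1 < d := by
    have : (1 : ℝ) < d := by linarith
    exact_mod_cast this
  rcases hε with rfl | rfl
  · simp only [one_smul]
  · simp only [neg_one_smul]
    exact R.neg hd1 f hf

theorem H2_eq (hh : Hf h) :
    ∫⁻ U, IA U * Hs (CU τ 2) h U ∂pw τ Λ =
      ((2 * Fintype.card τ * (Fintype.card τ - 1) : ℕ) : ℝ≥0∞) *
        Λ (AA ι) ^ (Fintype.card τ - 2) * JC Λ h := by
  have := R.sf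
  have _ := G
  have hm : Measurable fun y => ENNReal.ofReal (h y) := hh.meas.ennreal_ofReal
  have key : ∀ κ ∈ CU τ 2, ∫⁻ U, IA U * ENNReal.ofReal (h (lv κ U)) ∂pw τ Λ =
      Λ (AA ι) ^ (Fintype.card τ - 2) * JC Λ h := by
    intro κ hκ
    obtain ⟨i, j, ε, ε', hij, hε, hε', hl⟩ := prima_lv_two (ι := ι) hκ
    simp only [hl, IA]
    rw [peel_two Λ iA measurable_iA hij (fun u u' => ENNReal.ofReal (h (ε • u + ε' • u')))
      (hm.comp ((measurable_fst.const_smul ε).add (measurable_snd.const_smul ε'))),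
      lintegral_iA, mul_comm]
    have e1 : ∀ u : ι → ℝ, ∫⁻ u', iA u * iA u' * ENNReal.ofReal (h (ε • u + ε' • u')) ∂Λ =
        ∫⁻ u', iA (ε • u) * iA u' * ENNReal.ofReal (h (ε • u + u')) ∂Λ := by
      intro u
      rw [← prima_sign hn R hd5 hε'
        (f := fun u' => iA (ε • u) * iA u' * ENNReal.ofReal (h (ε • u + u')))
        ((measurable_const.mul measurable_iA).mul (hm.comp (measurable_id.const_add _)))]
      simp only [prima_iA_sign hε, prima_iA_sign hε']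
    simp only [e1]
    rw [JC, ← prima_sign hn R hd5 hε
      (f := fun u => ∫⁻ u', iA u * iA u' * ENNReal.ofReal (h (u + u')) ∂Λ)
      (Measurable.lintegral_prod_right' (f := fun p : (ι → ℝ) × (ι → ℝ) =>
        iA p.1 * iA p.2 * ENNReal.ofReal (h (p.1 + p.2)))
        (((measurable_iA.comp measurable_fst).mul (measurable_iA.comp measurable_snd)).mul
          (hm.comp (measurable_fst.add measurable_snd))))]
  have hc : 2 ^ 2 * (Fintype.card τ).choose 2 = 2 * Fintype.card τ * (Fintype.card τ - 1) := by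
    have e := Nat.choose_two_right (Fintype.card τ)
    have e2 := Nat.two_mul_div_two_of_even (Nat.even_mul_pred_self (Fintype.card τ))
    rw [e, mul_assoc 2 (Fintype.card τ), ← e2]
    omega
  simp only [Hs]
  rw [lintegral_fs' _ _ measurable_IA hm, prima_cs_congr key, cs_CU_const, hc, mul_assoc (_ : ℝ≥0∞)]

omit R G hd5 [DecidableEq ι] in
theorem prima_wide (hh : Hf h) (hz : ∀ y ∈ BB ι, h y = 0) {t : ℝ} (ht : t ≤ th (hd ι))
    (y : ι → ℝ) : ENNReal.ofReal (h y) ≤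
      ENNReal.ofReal (0.1596 * Real.sqrt (vp (hd ι)) * Real.exp (t * hd ι)) * Gs t y := by
  rw [Gs, ← ENNReal.ofReal_mul (by positivity)]
  refine ENNReal.ofReal_le_ofReal ((hh.le_wide hn hz ht y).trans ?_)
  have h1 := hmax_le (hd_ge hn)
  have h2 : 0 ≤ gs t y := (Real.exp_pos _).le
  gcongr

theorem JC_le (hh : Hf h) (hz : ∀ y ∈ BB ι, h y = 0) :
    JC Λ h ≤ ENNReal.ofReal
      (((1 + ξ) * VV (hd ι)) ^ 2 * (mC2.ev (hd ι) * Real.sqrt (vp (hd ι)))) := by
  have := R.sf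
  have _ := hd5
  have hv := hd_ge hn
  have hξ := G.nonneg
  have hV : 0 ≤ VV (hd ι) := by have := lb_ge hv; rw [VV]; linarith
  have hs : 0 ≤ sg (hd ι) := by have := sg_ge hv; linarith
  have t0 : 0 < tC (hd ι) := by rw [tC]; positivity
  have t1 : tC (hd ι) ≤ 0.4 := (tC_le hv).trans (th_le hv)
  obtain ⟨c1, hc1⟩ : ∃ c : ℝ, c = 0.1596 * Real.sqrt (vp (hd ι)) *
    Real.exp (tC (hd ι) * hd ι) := ⟨_, rfl⟩
  obtain ⟨c2, hc2⟩ : ∃ c : ℝ, c = (1 + ξ) * VV (hd ι) * sg (hd ι) *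
    Real.exp (hd ι * (0.74 - 1 - Real.log (0.74 + tC (hd ι)))) := ⟨_, rfl⟩
  have p1 : 0 ≤ c1 := by rw [hc1]; positivity
  have p2 : 0 ≤ c2 := by rw [hc2]; positivity
  have inner : ∀ u : ι → ℝ, ∫⁻ u', iA u * iA u' * ENNReal.ofReal (h (u + u')) ∂Λ ≤
      ENNReal.ofReal (c1 * c2) * (iA u * Gs (0.74 * tC (hd ι) / (0.74 + tC (hd ι))) u) := by
    intro u
    have st := G.step hn (a := 0.74) (t := tC (hd ι)) (c := 1) (by norm_num) t0.le
      (by linarith) (by simp) u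
    rw [← hc2] at st
    calc ∫⁻ u', iA u * iA u' * ENNReal.ofReal (h (u + u')) ∂Λ
        ≤ ∫⁻ u', (ENNReal.ofReal c1 * iA u) *
            (iA u' * Gs (tC (hd ι)) ((1 : ℝ) • u' + u)) ∂Λ := by
          refine lintegral_mono fun u' => ?_
          have w := prima_wide hn hh hz (tC_le hv) (u + u')
          rw [← hc1] at w
          rw [one_smul, add_comm u' u]
          calc iA u * iA u' * ENNReal.ofReal (h (u + u'))
              ≤ iA u * iA u' * (ENNReal.ofReal c1 * Gs (tC (hd ι)) (u + u')) := by gcongr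
            _ = _ := by ring
      _ = (ENNReal.ofReal c1 * iA u) * ∫⁻ u', iA u' * Gs (tC (hd ι)) ((1 : ℝ) • u' + u) ∂Λ :=
          lintegral_const_mul _ (measurable_iA.mul ((measurable_Gs _).comp
            ((measurable_id.const_smul (1 : ℝ)).add_const u)))
      _ ≤ (ENNReal.ofReal c1 * iA u) *
          (ENNReal.ofReal c2 * Gs (0.74 * tC (hd ι) / (0.74 + tC (hd ι))) u) := by gcongr
      _ = _ := by rw [ENNReal.ofReal_mul p1]; ring
  refine (lintegral_mono inner).trans ?_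
  rw [lintegral_const_mul' _ _ ENNReal.ofReal_ne_top]
  refine (prima_ofReal (mul_nonneg p1 p2) (G.rad _ (by positivity) ?_)).trans
    (ENNReal.ofReal_le_ofReal ?_)
  · rw [div_lt_one (by positivity)]; linarith
  · have n := prima_jc hv
    have e : mC2.ev (hd ι) = 0.1413 * sg (hd ι) * Real.exp (-(0.2402 * hd ι)) := by
      simp only [mC2, Mono.ev]
      norm_num
    have q : 0 ≤ ((1 + ξ) * VV (hd ι)) ^ 2 * sg (hd ι) * Real.sqrt (vp (hd ι)) := by positivity
    have q2 := mul_le_mul_of_nonneg_left n q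
    have q3 := mul_nonneg q (Real.exp_pos (-(0.2402 * hd ι))).le
    rw [e, hc1, hc2]
    nlinarith

omit R G hd5 [DecidableEq ι] [DecidableEq τ] in
theorem prima_term (hh : Hf h) (hz : ∀ y ∈ BB ι, h y = 0) (κ : τ → ℤ) {b : ℝ}
    (hb : ∫⁻ U, IA U * Gs 0.3678 (lv κ U) ∂pw τ Λ ≤ ENNReal.ofReal b) :
    ∫⁻ U, IA U * ENNReal.ofReal (h (lv κ U)) ∂pw τ Λ ≤
      ENNReal.ofReal (0.1596 * Real.sqrt (vp (hd ι)) * Real.exp (0.3678 * hd ι) * b) := by
  refine le_trans ?_ (prima_ofReal (by positivity) hb)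
  rw [← lintegral_const_mul' _ _ ENNReal.ofReal_ne_top]
  refine lintegral_mono fun U => ?_
  exact (mul_le_mul' le_rfl (prima_wide hn hh hz (th_ge (hd_ge hn)) _)).trans
    (le_of_eq (mul_left_comm _ _ _))

theorem Hr_le (ha : Fintype.card τ ≤ KK ι) (hh : Hf h) (hz : ∀ y ∈ BB ι, h y = 0) :
    ∫⁻ U, IA U * Hs (NE τ \ CU τ 2) h U ∂pw τ Λ ≤
      ENNReal.ofReal (((1 + ξ) * VV (hd ι)) ^ Fintype.card τ *
        (evA (hd ι) ξ (Fintype.card τ) LRH * Real.sqrt (vp (hd ι)))) := by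
  have := R.sf
  have _ := hd5
  have hv := hd_ge hn
  have hξ := G.nonneg
  have hV : 0 < VV (hd ι) := by have := lb_ge hv; rw [VV]; linarith
  have ha3 : (Fintype.card τ : ℝ) ≤ hd ι / 3 := le_trans (by exact_mod_cast ha) KK_le
  have hm : Measurable fun y => ENNReal.ofReal (h y) := hh.meas.ennreal_ofReal
  obtain ⟨W, hW⟩ : ∃ W : ℝ, W = ((1 + ξ) * VV (hd ι)) ^ Fintype.card τ := ⟨_, rfl⟩
  obtain ⟨r, hr⟩ : ∃ r : ℝ, r = Real.sqrt (vp (hd ι)) := ⟨_, rfl⟩
  have W0 : 0 ≤ W := by rw [hW]; positivity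
  have r0 : 0 ≤ r := by rw [hr]; positivity
  have sub : NE τ \ CU τ 2 ⊆ CU τ 3 ∪ CG τ 4 ∪ CN τ 2 := by
    rintro κ ⟨h1, h2⟩
    rcases NE_subset h1 with h3 | h3
    · rw [CG_succ, CG_succ] at h3
      rcases h3 with h3 | h3
      · exact absurd h3 h2
      · exact Or.inl h3
    · exact Or.inr h3
  obtain ⟨f, hf⟩ : ∃ f : (τ → ℤ) → ℝ≥0∞,
    f = fun κ => ∫⁻ U, IA U * ENNReal.ofReal (h (lv κ U)) ∂pw τ Λ := ⟨_, rfl⟩
  have b3 : ∀ κ ∈ CU τ 3, f κ ≤ ENNReal.ofReal
      (W * r * sg (hd ι) ^ 2 * (0.1596 * (1.2388 * Real.exp (-(0.4296 * hd ι))))) := by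
    intro κ hκ
    rw [hf]
    refine (prima_term hn hh hz κ (G.chain_eq hn (a := 0.81) (t := 0.3678) (m := 2) (by norm_num)
      (by norm_num) (by norm_num) (by norm_num) hκ)).trans (ENNReal.ofReal_le_ofReal ?_)
    have q : 0 ≤ W * r * sg (hd ι) ^ 2 * 0.1596 := by positivity
    have q2 := mul_le_mul_of_nonneg_left (prima_r3 hv) q
    rw [← hW, ← hr]
    linarith
  have b4 : ∀ κ ∈ CG τ 4, f κ ≤ ENNReal.ofReal
      (W * r * sg (hd ι) ^ 4 * (0.1596 * Real.exp (-(0.5869 * hd ι)))) := by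
    intro κ hκ
    rw [hf]
    refine (prima_term hn hh hz κ (G.chain_ge hn (a := 0.84) (t := 0.3678) (m := 4) (by norm_num)
      (by norm_num) (by norm_num) (by norm_num) hκ)).trans (ENNReal.ofReal_le_ofReal ?_)
    have q : 0 ≤ W * r * sg (hd ι) ^ 4 * 0.1596 := by positivity
    have q2 := mul_le_mul_of_nonneg_left (prima_r4 hv) q
    rw [← hW, ← hr]
    linarith
  have bn : ∀ κ ∈ CN τ 2, f κ ≤ ENNReal.ofReal
      (W * ((VV (hd ι))⁻¹ * (1 / 2 : ℝ) ^ (5 * hd ι / 3)) *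
        (((2 : ℕ) : ℝ) / mx κ) ^ (5 * hd ι / 3)) := by
    intro κ hκ
    have k2 : (2 : ℝ) ≤ mx κ := by exact_mod_cast (show 2 ≤ mx κ from hκ)
    have t0 : 0 < th (hd ι) := by have := th_ge hv; linarith
    have c := G.chain_non hn (t := th (hd ι)) (g0 := 1) t0 one_pos
      (by have := th_le hv; linarith) (κ := κ) (by linarith)
    rw [hf]
    refine le_trans (lintegral_mono fun U => mul_le_mul' le_rfl
      (ENNReal.ofReal_le_ofReal (hh.le _))) (c.trans (le_of_eq ?_))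
    rw [← hW, one_pow, mul_one, div_self t0.ne', Real.one_rpow, one_div (VV _), mul_assoc W,
      mul_assoc W, mul_assoc _ _ (_ ^ (5 * hd ι / 3)),
      ← Real.mul_rpow (by norm_num) (by positivity)]
    have e : (1 / 2 : ℝ) * (((2 : ℕ) : ℝ) / mx κ) = 1 / mx κ := by push_cast; ring
    rw [e]
  have s3 := cs_CU_le (by positivity) b3
  have s4 := cs_CG_le (by positivity) b4
  have sn := cs_CN_le le_rfl (by positivity) (by push_cast; linarith) bn
  have f3 := ff_nonneg 3 (Fintype.card τ)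
  simp only [Hs]
  rw [lintegral_fs' _ _ measurable_IA hm, ← hf, ← hW, ← hr]
  refine ((cs_mono sub f).trans ((cs_union_le _ _ f).trans
    (add_le_add ((cs_union_le _ _ f).trans (add_le_add s3 s4)) sn))).trans ?_
  rw [← ENNReal.ofReal_add (by positivity) (by positivity),
    ← ENNReal.ofReal_add (by positivity) (by positivity)]
  refine ENNReal.ofReal_le_ofReal ?_
  have e : evA (hd ι) ξ (Fintype.card τ) LRH =
      0.264 * sg (hd ι) ^ 2 * Real.exp (-(0.4296 * hd ι)) * ff 3 (Fintype.card τ) +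
        0.1596 * sg (hd ι) ^ 4 * Real.exp (-(0.5869 * hd ι)) * 3 ^ Fintype.card τ +
        0.587 * Real.exp (-(0.787 * hd ι)) * 5 ^ Fintype.card τ := by
    simp only [evA, LRH, At.ev, Mono.ev, List.map_cons, List.map_nil, List.sum_cons, List.sum_nil,
      ff_zero]
    norm_num [add_assoc]
  have q1 : 0 ≤ W * r * sg (hd ι) ^ 2 * Real.exp (-(0.4296 * hd ι)) * ff 3 (Fintype.card τ) := by
    positivity
  have q2 : 0 ≤ W * 5 ^ Fintype.card τ := by positivity
  have q3 := mul_le_mul_of_nonneg_left (prima_rn hv) q2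
  have e3 : ((Nat.factorial 3 : ℕ) : ℝ) = 6 := by norm_num [Nat.factorial]
  have e5 : (2 * ((2 : ℕ) : ℝ) + 1) = 5 := by norm_num
  rw [← hr] at q3
  rw [e, e3, e5]
  linarith

theorem E1_eq (hh : Hf h) :
    ∫⁻ U, IA U * Esh (CU τ 1) Λ h U ∂pw τ Λ =
      ((4 * Fintype.card τ : ℕ) : ℝ≥0∞) * Λ (AA ι) ^ (Fintype.card τ - 1) * JT Λ h := by
  have := R.sf
  have _ := G
  have hm : Measurable (cor Λ h) := measurable_cor hh.meas
  have key : ∀ κ ∈ CU τ 1, ∫⁻ U, IA U * cor Λ h (lv κ U) ∂pw τ Λ =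
      Λ (AA ι) ^ (Fintype.card τ - 1) * JT Λ h := by
    intro κ hκ
    obtain ⟨i, ε, hε, hl⟩ := prima_lv_one (ι := ι) hκ
    simp only [hl, IA]
    rw [peel_one Λ iA measurable_iA i (fun u => cor Λ h (ε • u))
      (hm.comp (measurable_id.const_smul ε)), lintegral_iA, mul_comm, JT,
      ← prima_sign hn R hd5 hε (f := fun u => iA u * cor Λ h u) (measurable_iA.mul hm)]
    simp only [prima_iA_sign hε]
  have e : ∀ U : Matrix τ ι ℝ, IA U * Esh (CU τ 1) Λ h U =
      2 * (IA U * fs' (CU τ 1) (cor Λ h) U) := fun U => by rw [Esh]; ring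
  simp only [e]
  rw [lintegral_const_mul' _ _ ENNReal.ofNat_ne_top,
    lintegral_fs' _ _ measurable_IA hm, prima_cs_congr key, cs_CU_const, Nat.choose_one_right]
  push_cast
  ring

theorem JT_le (hh : Hf h) :
    JT Λ h ≤ ENNReal.ofReal ((1 + ξ) ^ 2 * (mT.ev (hd ι) * vp (hd ι))) := by
  have := R.sf
  have _ := hd5
  have hv := hd_ge hn
  have hξ := G.nonneg
  have hl : 0 ≤ lb (hd ι) := by have := lb_ge hv; linarith
  have t0 : 0 < tC (hd ι) := by rw [tC]; positivity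
  have t1 : tC (hd ι) ≤ 0.4 := (tC_le hv).trans (th_le hv)
  have pt : ∀ u : ι → ℝ, iA u * cor Λ h u ≤
      ENNReal.ofReal ((1 + ξ) * (2 : ℝ) ^ (-hd ι)) * (iA u * Gs (tC (hd ι) / 2) u) := by
    intro u
    have a1 := G.cor_le hn hh u
    have a2 := Gs_anti hn (s := tC (hd ι) / 2) (t := th (hd ι) / 2)
      (by have := tC_le hv; linarith) u
    calc iA u * cor Λ h u
        ≤ iA u * (ENNReal.ofReal ((1 + ξ) * (2 : ℝ) ^ (-hd ι)) * Gs (tC (hd ι) / 2) u) :=
          mul_le_mul' le_rfl (a1.trans (mul_le_mul' le_rfl a2))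
      _ = _ := by ring
  refine (lintegral_mono pt).trans ?_
  rw [lintegral_const_mul' _ _ ENNReal.ofReal_ne_top]
  refine (prima_ofReal (by positivity) (G.rad _ (by positivity) (by linarith))).trans
    (ENNReal.ofReal_le_ofReal ?_)
  have e : mT.ev (hd ι) = 0.554 * lb (hd ι) * Real.exp (-(0.1412 * hd ι)) := by
    simp only [mT, Mono.ev]
    norm_num
  have x : Real.exp (0.0427 * hd ι) * Real.exp (-(0.1839 * hd ι)) =
      Real.exp (-(0.1412 * hd ι)) := by
    rw [← Real.exp_add]; congr 1; ring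
  have pv := (vp_pos hv).le
  have q := mul_nonneg (mul_nonneg (mul_nonneg (sq_nonneg (1 + ξ)) hl) pv)
    (Real.exp_pos (-(0.1412 * hd ι))).le
  have f0 : 0 ≤ FF (hd ι) (tC (hd ι) / 2) := div_nonneg (Real.exp_pos _).le (by linarith)
  calc (1 + ξ) * (2 : ℝ) ^ (-hd ι) * ((1 + ξ) * VV (hd ι) * FF (hd ι) (tC (hd ι) / 2))
      ≤ (1 + ξ) * (0.4361 * Real.exp (0.0427 * hd ι) * vp (hd ι)) *
          ((1 + ξ) * (2 * lb (hd ι)) * (0.635 * Real.exp (-(0.1839 * hd ι)))) := by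
        have := cc1_le hv
        have := prima_jt hv
        rw [VV]
        gcongr
    _ = 2 * 0.4361 * 0.635 * ((1 + ξ) ^ 2 * lb (hd ι) * vp (hd ι) *
          (Real.exp (0.0427 * hd ι) * Real.exp (-(0.1839 * hd ι)))) := by ring
    _ ≤ _ := by rw [x, e]; nlinarith

theorem E1_sup (ha : Fintype.card τ ≤ KK ι) (hh : Hf h) {U : Matrix τ ι ℝ}
    (hU : ∀ i, U i ∈ AA ι) :
    Esh (CU τ 1) Λ h U ≤ ENNReal.ofReal ((1 + ξ) * (mSup.ev (hd ι) * vp (hd ι))) ∧
    Esh (CU τ 1) Λ h U ≤ ENNReal.ofReal ((1 + ξ) ^ 2) := by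
  have := R.sf
  have _ := hd5
  have hv := hd_ge hn
  have v0 : 0 < hd ι := by linarith
  have hξ := G.nonneg
  have ha3 : (Fintype.card τ : ℝ) ≤ hd ι / 3 := le_trans (by exact_mod_cast ha) KK_le
  obtain ⟨E, hE⟩ : ∃ E : ℝ, E = Real.exp (-0.54 + -(0.1471 * hd ι)) := ⟨_, rfl⟩
  have E0 : 0 < E := by rw [hE]; exact Real.exp_pos _
  have pt : ∀ κ ∈ CU τ 1, cor Λ h (lv κ U) ≤
      ENNReal.ofReal ((1 + ξ) * (2 : ℝ) ^ (-hd ι) * E) := by
    intro κ hκ
    obtain ⟨i, ε, hε, hl⟩ := prima_lv_one (ι := ι) hκ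
    refine (G.cor_le hn hh _).trans (prima_ofReal (by positivity) ?_)
    refine ENNReal.ofReal_le_ofReal ?_
    rw [hE, gs, hl, nx_smul]
    refine Real.exp_le_exp.2 ?_
    have e2 : ε ^ 2 = 1 := by rcases hε with rfl | rfl <;> norm_num
    have a1 := ((mem_AA hn).1 (hU i)).1
    have a2 := tC_le hv
    have a3 : tC (hd ι) * hd ι = 0.3678 * hd ι + 1.35 := by rw [tC]; field_simp
    have a4 : tC (hd ι) * (0.8 * hd ι) ≤ th (hd ι) * nx (U i) :=
      mul_le_mul a2 a1 (by positivity) (by have := th_ge hv; linarith)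
    rw [e2]
    nlinarith
  have tot : Esh (CU τ 1) Λ h U ≤
      ENNReal.ofReal (4 * (hd ι / 3) * (2 : ℝ) ^ (-hd ι) * ((1 + ξ) * E)) := by
    have c := cs_CU_le (τ := τ) (j := 1) (by positivity) pt
    have c2 := prima_ofReal (a := 2) (by norm_num) c
    rw [ENNReal.ofReal_ofNat, ff_one] at c2
    refine le_trans c2 (ENNReal.ofReal_le_ofReal ?_)
    have q : 0 ≤ (1 + ξ) * (2 : ℝ) ^ (-hd ι) * E := by positivity
    have q2 := mul_le_mul_of_nonneg_right ha3 q
    simp only [Nat.factorial_one, Nat.cast_one, pow_one, div_one]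
    linarith
  refine ⟨tot.trans (ENNReal.ofReal_le_ofReal ?_), tot.trans (ENNReal.ofReal_le_ofReal ?_)⟩
  · have e : mSup.ev (hd ι) = 0.0541 * sg (hd ι) ^ 2 * Real.exp (-(0.1044 * hd ι)) := by
      simp only [mSup, Mono.ev]
      norm_num
    have x : Real.exp (0.0427 * hd ι) * E = Real.exp (-0.54) * Real.exp (-(0.1044 * hd ι)) := by
      rw [hE, ← Real.exp_add, ← Real.exp_add]; congr 1; ring
    have x3 : Real.exp (-0.54) ≤ 0.584 :=
      prima_exp_neg (x := 0.54) (by norm_num) (by norm_num) (by norm_num)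
    have pv := (vp_pos hv).le
    have q : 0 ≤ (1 + ξ) * sg (hd ι) ^ 2 * vp (hd ι) * Real.exp (-(0.1044 * hd ι)) := by
      positivity
    have q2 := mul_le_mul_of_nonneg_left x3 q
    calc 4 * (hd ι / 3) * (2 : ℝ) ^ (-hd ι) * ((1 + ξ) * E)
        ≤ 4 * (0.0531 * sg (hd ι) ^ 2) * (0.4361 * Real.exp (0.0427 * hd ι) * vp (hd ι)) *
            ((1 + ξ) * E) := by
          have := cc1_le hv
          have := third_le hv
          gcongr
      _ = 4 * 0.0531 * 0.4361 * ((1 + ξ) * sg (hd ι) ^ 2 * vp (hd ι) *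
            (Real.exp (0.0427 * hd ι) * E)) := by ring
      _ ≤ _ := by rw [x, e]; nlinarith
  · have E1 : E ≤ 1 := by rw [hE]; exact Real.exp_le_one_iff.2 (by linarith)
    have t := prima_two hv
    calc 4 * (hd ι / 3) * (2 : ℝ) ^ (-hd ι) * ((1 + ξ) * E) ≤ 1 * ((1 + ξ) * 1) := by gcongr
      _ ≤ _ := by nlinarith

end Pool.Agent.Eps.P
end
end
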