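import Pool.Agent.Lib.MP_3bda03_nt.P.Theta
import Pool.Agent.Lib.MP_3bda03_nt.P.Mom

-- part Pool.Agent.Lib.MP_3bda03_nt.P.PrimB1x
section

/-!
Numerical bounds for the terms quadratic in the test function.
-/

set_option autoImplicit false

noncomputable section

open MeasureTheory Matrix
open scoped ENNReal

namespace Pool.Agent.Eps.P

open Pool.Agent.Eps.H

section num

variable {v : ℝ}

theorem primB1_log_ge {c x : ℝ} (h0 : 0 ≤ c) (h1 : c ≤ 1)
    (h : 1 + c + c ^ 2 / 2 + c ^ 3 / 6 + c ^ 4 / 24 + c ^ 5 / 100 ≤ x) : c ≤ Real.log x := by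
  have hb := Real.exp_bound' h0 h1 (n := 5) (by norm_num)
  simp only [Finset.sum_range_succ, Finset.sum_range_zero, Nat.factorial] at hb
  norm_num at hb
  have hx : 0 < x := by
    have : 0 < 1 + c + c ^ 2 / 2 + c ^ 3 / 6 + c ^ 4 / 24 + c ^ 5 / 100 := by positivity
    linarith
  rw [Real.le_log_iff_exp_le hx]
  linarith

theorem primB1_log_le {c x : ℝ} (h0 : 0 ≤ c) (hx : 0 < x)
    (h : x ≤ 1 + c + c ^ 2 / 2 + c ^ 3 / 6 + c ^ 4 / 24) : Real.log x ≤ c := by
  have hb := Real.sum_le_exp_of_nonneg h0 5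
  simp only [Finset.sum_range_succ, Finset.sum_range_zero, Nat.factorial] at hb
  norm_num at hb
  rw [Real.log_le_iff_le_exp hx]
  linarith

theorem primB1_E2 : 2 / 3 + chE (2 / 3) (2 / 3) 1 - 1 / 3 ≤ -0.2876 := by
  have h := primB1_log_ge (c := 0.2876) (x := 4 / 3) (by norm_num) (by norm_num) (by norm_num)
  have e : (2 / 3 + ((1 : ℕ) : ℝ) * (2 / 3) : ℝ) = 4 / 3 := by norm_num
  unfold chE
  rw [e]
  norm_num at h ⊢
  linarith

theorem primB1_E3 : 0.63 + chE 0.7 0.63 2 - 0.225 ≤ -0.5112 := by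
  have h := primB1_log_ge (c := 0.3162) (x := 0.7 * 1.96) (by norm_num) (by norm_num)
    (by norm_num)
  rw [Real.log_mul (by norm_num) (by norm_num)] at h
  have e : (0.7 + ((2 : ℕ) : ℝ) * 0.63 : ℝ) = 1.96 := by norm_num
  unfold chE
  rw [e]
  push_cast
  linarith

theorem primB1_E4 : 0.63 + chE 0.7 0.63 4 ≤ -0.6693 := by
  have h := primB1_log_ge (c := 0.0993) (x := 0.7 ^ 3 * 3.22) (by norm_num) (by norm_num)
    (by norm_num)
  rw [Real.log_mul (by norm_num) (by norm_num), Real.log_pow] at h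
  have e : (0.7 + ((4 : ℕ) : ℝ) * 0.63 : ℝ) = 3.22 := by norm_num
  unfold chE
  rw [e]
  push_cast at h ⊢
  linarith

theorem primB1_E5 : 0.63 + chE 0.7 0.63 5 + 0.0838 ≤ -0.7075 := by
  have h := primB1_log_le (c := 0.0787) (x := (0.7 ^ 4 * 3.85)⁻¹) (by norm_num) (by norm_num)
    (by norm_num)
  rw [Real.log_inv, Real.log_mul (by norm_num) (by norm_num), Real.log_pow] at h
  have e : (0.7 + ((5 : ℕ) : ℝ) * 0.63 : ℝ) = 3.85 := by norm_num
  unfold chE
  rw [e]
  push_cast at h ⊢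
  linarith

theorem primB1_pow {x c : ℝ} (hx : 1 ≤ x) (hc : Real.log x ≤ 3 * c) {a : ℕ}
    (ha : (a : ℝ) ≤ v / 3) : x ^ a ≤ Real.exp (c * v) := by
  have h0 : 0 ≤ Real.log x := Real.log_nonneg hx
  have h1 : (0 : ℝ) ≤ a := Nat.cast_nonneg a
  calc x ^ a = Real.exp (a * Real.log x) := by
        rw [Real.exp_nat_mul, Real.exp_log (by linarith)]
    _ ≤ Real.exp (c * v) := by
        apply Real.exp_le_exp.2
        calc (a : ℝ) * Real.log x ≤ v / 3 * Real.log x := mul_le_mul_of_nonneg_right ha h0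
          _ ≤ v / 3 * (3 * c) := mul_le_mul_of_nonneg_left hc (by linarith)
          _ = c * v := by ring

variable (hv : 97 / 2 ≤ v)
include hv

theorem primB1_c2 :
    vp v / (sg v * VV v) * Real.exp (2 / 3 * v) *
      (sg v ^ 1 * Real.exp (v * chE (2 / 3) (2 / 3) 1) *
        FF v (2 / 3 * (2 / 3) / (2 / 3 + ((1 : ℕ) : ℝ) * (2 / 3)))) ≤
      0.75 * (lb v)⁻¹ * Real.exp (-(0.2876 * v)) * vp v := by
  have hl := lb_ge hv
  have hs := sg_ge hv
  have hp := vp_pos hv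
  have e : (2 / 3 * (2 / 3) / (2 / 3 + ((1 : ℕ) : ℝ) * (2 / 3)) : ℝ) = 1 / 3 := by norm_num
  have hE : Real.exp (2 / 3 * v) * Real.exp (v * chE (2 / 3) (2 / 3) 1) *
      Real.exp (-(1 / 3 * v)) ≤ Real.exp (-(0.2876 * v)) := by
    rw [← Real.exp_add, ← Real.exp_add]
    apply Real.exp_le_exp.2
    nlinarith [primB1_E2]
  rw [e]
  unfold FF VV
  calc _ = 0.75 * (lb v)⁻¹ * (Real.exp (2 / 3 * v) * Real.exp (v * chE (2 / 3) (2 / 3) 1) *
        Real.exp (-(1 / 3 * v))) * vp v := by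
        field_simp
        norm_num
    _ ≤ _ := by gcongr

theorem primB1_c3 :
    vp v / (sg v * VV v) * Real.exp (0.63 * v) *
      (sg v ^ 2 * Real.exp (v * chE 0.7 0.63 2) *
        FF v (0.7 * 0.63 / (0.7 + ((2 : ℕ) : ℝ) * 0.63))) ≤
      0.6525 * (lb v)⁻¹ * sg v * Real.exp (-(0.5112 * v)) * vp v := by
  have hl := lb_ge hv
  have hs := sg_ge hv
  have hp := vp_pos hv
  have e : (0.7 * 0.63 / (0.7 + ((2 : ℕ) : ℝ) * 0.63) : ℝ) = 0.225 := by norm_num
  have hE : Real.exp (0.63 * v) * Real.exp (v * chE 0.7 0.63 2) *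
      Real.exp (-(0.225 * v)) ≤ Real.exp (-(0.5112 * v)) := by
    rw [← Real.exp_add, ← Real.exp_add]
    apply Real.exp_le_exp.2
    nlinarith [primB1_E3]
  rw [e]
  unfold FF VV
  calc _ = 20 / 31 * (lb v)⁻¹ * sg v * (Real.exp (0.63 * v) * Real.exp (v * chE 0.7 0.63 2) *
        Real.exp (-(0.225 * v))) * vp v := by
        field_simp
        norm_num
    _ ≤ _ := by
        gcongr
        norm_num

theorem primB1_c4 :
    vp v / (sg v * VV v) * Real.exp (0.63 * v) * (sg v ^ 4 * Real.exp (v * chE 0.7 0.63 4)) ≤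
      0.5 * (lb v)⁻¹ * sg v ^ 3 * Real.exp (-(0.6693 * v)) * vp v := by
  have hl := lb_ge hv
  have hs := sg_ge hv
  have hp := vp_pos hv
  have hE : Real.exp (0.63 * v) * Real.exp (v * chE 0.7 0.63 4) ≤
      Real.exp (-(0.6693 * v)) := by
    rw [← Real.exp_add]
    apply Real.exp_le_exp.2
    nlinarith [primB1_E4]
  unfold VV
  calc _ = 0.5 * (lb v)⁻¹ * sg v ^ 3 * (Real.exp (0.63 * v) * Real.exp (v * chE 0.7 0.63 4)) *
        vp v := by
        field_simp
        norm_num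
    _ ≤ _ := by gcongr

theorem primB1_c5 {a : ℕ} (ha : (a : ℝ) ≤ v / 3) :
    (3 : ℝ) ^ a * (3 ^ a * (vp v / (sg v * VV v) * Real.exp (0.63 * v) *
      (sg v ^ 5 * Real.exp (v * chE 0.7 0.63 5)))) ≤
      4 / 9 * sg v ^ 4 * Real.exp (-(0.7075 * v)) * 7 ^ a * vp v := by
  have hl := lb_ge hv
  have hs := sg_ge hv
  have hp := vp_pos hv
  have h9 : (9 / 7 : ℝ) ^ a ≤ Real.exp (0.0838 * v) :=
    primB1_pow (by norm_num) (le_trans (primB1_log_le (c := 0.2514) (by norm_num) (by norm_num)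
      (by norm_num)) (by norm_num)) ha
  have hE : Real.exp (0.63 * v) * Real.exp (v * chE 0.7 0.63 5) * (9 / 7 : ℝ) ^ a ≤
      Real.exp (-(0.7075 * v)) := by
    refine le_trans (mul_le_mul_of_nonneg_left h9 (by positivity)) ?_
    rw [← Real.exp_add, ← Real.exp_add]
    apply Real.exp_le_exp.2
    nlinarith [primB1_E5]
  have hV : (2 * lb v)⁻¹ ≤ 4 / 9 := by
    rw [inv_le_comm₀ (by linarith) (by norm_num)]
    norm_num
    linarith
  have e3 : (3 : ℝ) ^ a * 3 ^ a = (9 / 7 : ℝ) ^ a * 7 ^ a := by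
    rw [← mul_pow, ← mul_pow]
    norm_num
  unfold VV
  calc _ = (2 * lb v)⁻¹ * sg v ^ 4 * (Real.exp (0.63 * v) * Real.exp (v * chE 0.7 0.63 5)) *
        ((3 : ℝ) ^ a * 3 ^ a) * vp v := by
        field_simp
    _ = (2 * lb v)⁻¹ * sg v ^ 4 * (Real.exp (0.63 * v) * Real.exp (v * chE 0.7 0.63 5) *
        (9 / 7 : ℝ) ^ a) * 7 ^ a * vp v := by
        rw [e3]
        ring
    _ ≤ _ := by gcongr

theorem primB1_cN {a : ℕ} (ha : (a : ℝ) ≤ v / 3) :
    2 * (5 : ℝ) ^ a * (2 * 5 ^ a * ((2 : ℝ) ^ (-v) / VV v * (2 : ℝ) ^ (-(5 * v / 3)))) ≤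
      0.78 * Real.exp (-(0.576 * v)) * 5 ^ a * vp v := by
  have hl := lb_ge hv
  have hp := vp_pos hv
  have h5 : (5 : ℝ) ^ a ≤ Real.exp (0.5365 * v) :=
    primB1_pow (by norm_num) (by linarith [Real.log_five_lt_d9]) ha
  have h2 : (2 : ℝ) ^ (-(5 * v / 3)) ≤ Real.exp (-(1.15524 * v)) := by
    rw [Real.rpow_def_of_pos (by norm_num)]
    apply Real.exp_le_exp.2
    nlinarith [Real.log_two_gt_d9]
  have hc := cc1_le hv
  have hV : (2 * lb v)⁻¹ ≤ 4 / 9 := by
    rw [inv_le_comm₀ (by linarith) (by norm_num)]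
    norm_num
    linarith
  have hE : Real.exp (0.5365 * v) * Real.exp (0.0427 * v) * Real.exp (-(1.15524 * v)) ≤
      Real.exp (-(0.576 * v)) := by
    rw [← Real.exp_add, ← Real.exp_add]
    apply Real.exp_le_exp.2
    nlinarith
  unfold VV
  calc _ = 4 * (2 * lb v)⁻¹ * (5 : ℝ) ^ a * (2 : ℝ) ^ (-v) * (2 : ℝ) ^ (-(5 * v / 3)) *
        5 ^ a := by
        field_simp
        norm_num
    _ ≤ 4 * (4 / 9) * Real.exp (0.5365 * v) * (0.4361 * Real.exp (0.0427 * v) * vp v) *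
        Real.exp (-(1.15524 * v)) * 5 ^ a := by gcongr
    _ = 4 * (4 / 9) * 0.4361 * (Real.exp (0.5365 * v) * Real.exp (0.0427 * v) *
        Real.exp (-(1.15524 * v))) * 5 ^ a * vp v := by ring
    _ ≤ _ := by
        gcongr
        norm_num

theorem primB1_list (ξ : ℝ) (a : ℕ) :
    evA v ξ a LSS = 3.75 * (lb v)⁻¹ * Real.exp (-(0.2876 * v)) * ff 2 a ^ 2 +
      23.2 * (lb v)⁻¹ * sg v * Real.exp (-(0.5112 * v)) * ff 3 a ^ 2 +
      4.45 * (lb v)⁻¹ * sg v ^ 3 * Real.exp (-(0.6693 * v)) * ff 4 a ^ 2 +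
      8.9 * sg v ^ 4 * Real.exp (-(0.7075 * v)) * 7 ^ a +
      15.6 * Real.exp (-(0.576 * v)) * 5 ^ a := by
  unfold LSS
  rw [evA_append, evA_append, evA_append, evA_polA hv, evA_polA hv, evA_polA hv, ff_22, ff_33,
    ff_44]
  simp [evA, At.ev, Mono.ev, c22, c33, c44, ff_zero]
  norm_num
  ring

end num

end Pool.Agent.Eps.P
end
end

-- part Pool.Agent.Lib.MP_3bda03_nt.P.PrimB1
section

/-!
The terms quadratic in the test function.
-/

set_option autoImplicit false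

noncomputable section

open MeasureTheory Matrix
open scoped ENNReal

namespace Pool.Agent.Eps.P

open Pool.Agent.Eps.H

theorem primB1_sq (x y z w u : ℝ≥0∞) :
    (x + y + z + w + u) ^ 2 ≤
      ENNReal.ofReal (5 / 4) * x ^ 2 + 20 * (y ^ 2 + z ^ 2 + w ^ 2 + u ^ 2) := by
  have h54 : ENNReal.ofReal (5 / 4) ≠ 0 := by simp
  rcases eq_or_ne x ∞ with rfl | hx
  · simp [ENNReal.mul_top h54]
  rcases eq_or_ne y ∞ with rfl | hy
  · simp
  rcases eq_or_ne z ∞ with rfl | hz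
  · simp
  rcases eq_or_ne w ∞ with rfl | hw
  · simp
  rcases eq_or_ne u ∞ with rfl | hu
  · simp
  lift x to NNReal using hx
  lift y to NNReal using hy
  lift z to NNReal using hz
  lift w to NNReal using hw
  lift u to NNReal using hu
  have e : ENNReal.ofReal (5 / 4) = ((5 / 4 : NNReal) : ℝ≥0∞) := by
    rw [← ENNReal.ofReal_coe_nnreal]
    norm_num
  rw [e]
  have : ((x + y + z + w + u) ^ 2 : NNReal) ≤
      5 / 4 * x ^ 2 + 20 * (y ^ 2 + z ^ 2 + w ^ 2 + u ^ 2) := by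
    rw [← NNReal.coe_le_coe]
    push_cast
    nlinarith [sq_nonneg ((x : ℝ) - 4 * (y + z + w + u)), sq_nonneg ((y : ℝ) - z),
      sq_nonneg ((y : ℝ) - w), sq_nonneg ((y : ℝ) - u), sq_nonneg ((z : ℝ) - w),
      sq_nonneg ((z : ℝ) - u), sq_nonneg ((w : ℝ) - u)]
  exact_mod_cast this

variable {ι : Type} [Fintype ι] [DecidableEq ι] {Ω : Type} [MeasurableSpace Ω]
  {P : Measure Ω} {g : Ω → Matrix ι ι ℝ} {Λ : Measure (ι → ℝ)} {d : ℕ} {ξ : ℝ}
  {τ : Type} [Fintype τ] [DecidableEq τ] {h : (ι → ℝ) → ℝ}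

omit [DecidableEq ι] in
theorem primB1_split (he : ∀ y, h (-y) = h y) (hz : ∀ y ∈ BB ι, h y = 0) {U : Matrix τ ι ℝ}
    (hU : ∀ i, U i ∈ AA ι) :
    Hs {κ | κ ≠ 0} h U ≤ Hs (CU τ 2) h U + Hs (CU τ 3) h U + Hs (CU τ 4) h U +
      Hs (CG τ 5) h U + Hs (CN τ 2) h U := by
  have h1 : Hs (CU τ 1) h U = 0 := by
    unfold Hs fs'
    rw [cs_CU_one]
    refine Finset.sum_eq_zero fun i _ => ?_
    have e : lv (Pi.single i 1) U = U i := by
      ext j
      simp [lv, cv, vecMul, dotProduct, Pi.single_apply]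
    rw [lv_neg, e]
    simp [he, hz (U i) (hU i).2]
  have hsub : {κ : τ → ℤ | κ ≠ 0} ⊆
      CU τ 1 ∪ (CU τ 2 ∪ CU τ 3 ∪ CU τ 4 ∪ CG τ 5 ∪ CN τ 2) := by
    intro κ hκ
    by_cases hc : κ ∈ CU τ 1
    · exact Or.inl hc
    · have h2 := NE_subset (τ := τ) ⟨hκ, hc⟩
      rw [CG_succ 2, CG_succ 3, CG_succ 4] at h2
      refine Or.inr ?_
      simp only [Set.mem_union] at h2 ⊢
      tauto
  unfold Hs fs' at h1 ⊢
  refine (cs_mono hsub _).trans ((cs_union_le _ _ _).trans ?_)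
  rw [h1, zero_add]
  refine (cs_union_le _ _ _).trans (add_le_add_left ?_ _)
  refine (cs_union_le _ _ _).trans (add_le_add_left ?_ _)
  refine (cs_union_le _ _ _).trans (add_le_add_left ?_ _)
  exact cs_union_le _ _ _

omit [DecidableEq ι] [DecidableEq τ] in
theorem primB1_lint (μ : Measure (Matrix τ ι ℝ)) (S : Set (τ → ℤ))
    {F : (τ → ℤ) → Matrix τ ι ℝ → ℝ≥0∞} (hF : ∀ κ, Measurable (F κ)) (c : ℝ≥0∞) :
    ∫⁻ U, IA U * (c * cs S fun κ => F κ U) ∂μ = c * cs S fun κ => ∫⁻ U, IA U * F κ U ∂μ := by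
  unfold cs
  have hm : ∀ κ : S, Measurable fun U : Matrix τ ι ℝ => IA U * F κ.1 U := fun κ =>
    measurable_IA.mul (hF κ.1)
  rw [← lintegral_tsum fun κ => (hm κ).aemeasurable,
    ← lintegral_const_mul _ (Measurable.tsum hm)]
  refine lintegral_congr fun U => ?_
  rw [ENNReal.tsum_mul_left]
  ring

omit [DecidableEq ι] [DecidableEq τ] in
theorem primB1_meas (hh : Hf h) (κ : τ → ℤ) :
    Measurable fun U : Matrix τ ι ℝ => ENNReal.ofReal (h (lv κ U)) ^ 2 :=
  ((hh.meas.comp (measurable_lv κ)).ennreal_ofReal).pow_const 2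

omit [DecidableEq ι] [DecidableEq τ] in
theorem primB1_dom (hh : Hf h) (μ : Measure (Matrix τ ι ℝ)) (κ : τ → ℤ) {C t B : ℝ} (hC : 0 ≤ C)
    (hd : ∀ y, h y ^ 2 ≤ C * gs t y)
    (hB : ∫⁻ U, IA U * Gs t (lv κ U) ∂μ ≤ ENNReal.ofReal B) :
    ∫⁻ U, IA U * ENNReal.ofReal (h (lv κ U)) ^ 2 ∂μ ≤ ENNReal.ofReal (C * B) := by
  calc _ ≤ ∫⁻ U, ENNReal.ofReal C * (IA U * Gs t (lv κ U)) ∂μ := by
        refine lintegral_mono fun U => ?_
        rw [← ENNReal.ofReal_pow (hh.nonneg _), mul_left_comm, Gs, ← ENNReal.ofReal_mul hC]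
        exact mul_le_mul_right (ENNReal.ofReal_le_ofReal (hd _)) _
    _ = ENNReal.ofReal C * ∫⁻ U, IA U * Gs t (lv κ U) ∂μ :=
        lintegral_const_mul _ (measurable_IA.mul ((measurable_Gs t).comp (measurable_lv κ)))
    _ ≤ ENNReal.ofReal C * ENNReal.ofReal B := mul_le_mul_right hB _
    _ = _ := (ENNReal.ofReal_mul hC).symm

omit [DecidableEq ι] in
theorem primB1_CU (hh : Hf h) (μ : Measure (Matrix τ ι ℝ)) (j : ℕ) {c : ℝ} (hc : 0 ≤ c)
    (hB : ∀ κ ∈ CU τ j, ∫⁻ U, IA U * ENNReal.ofReal (h (lv κ U)) ^ 2 ∂μ ≤ ENNReal.ofReal c) :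
    ∫⁻ U, IA U * Hs (CU τ j) h U ^ 2 ∂μ ≤
      ENNReal.ofReal ((2 ^ j / j.factorial * ff j (Fintype.card τ)) ^ 2 * c) := by
  have h0 : 0 ≤ 2 ^ j / j.factorial * ff j (Fintype.card τ) :=
    mul_nonneg (by positivity) (ff_nonneg _ _)
  calc _ ≤ ∫⁻ U, IA U * (ENNReal.ofReal (2 ^ j / j.factorial * ff j (Fintype.card τ)) *
        cs (CU τ j) fun κ => ENNReal.ofReal (h (lv κ U)) ^ 2) ∂μ := by
        refine lintegral_mono fun U => mul_le_mul_right ?_ _
        simpa [Hs, fs'] using cs_CU_pow_le j 1 fun κ => ENNReal.ofReal (h (lv κ U))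
    _ = _ := primB1_lint μ _ (primB1_meas hh) _
    _ ≤ ENNReal.ofReal (2 ^ j / j.factorial * ff j (Fintype.card τ)) *
        ENNReal.ofReal (2 ^ j / j.factorial * ff j (Fintype.card τ) * c) :=
        mul_le_mul_right (cs_CU_le hc hB) _
    _ = _ := by
        rw [← ENNReal.ofReal_mul h0]
        congr 1
        ring

omit [DecidableEq ι] in
theorem primB1_CG (hh : Hf h) (μ : Measure (Matrix τ ι ℝ)) (j : ℕ) {c : ℝ} (hc : 0 ≤ c)
    (hB : ∀ κ ∈ CG τ j, ∫⁻ U, IA U * ENNReal.ofReal (h (lv κ U)) ^ 2 ∂μ ≤ ENNReal.ofReal c) :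
    ∫⁻ U, IA U * Hs (CG τ j) h U ^ 2 ∂μ ≤
      ENNReal.ofReal (3 ^ Fintype.card τ * (3 ^ Fintype.card τ * c)) := by
  calc _ ≤ ∫⁻ U, IA U * (3 ^ Fintype.card τ *
        cs (CG τ j) fun κ => ENNReal.ofReal (h (lv κ U)) ^ 2) ∂μ := by
        refine lintegral_mono fun U => mul_le_mul_right ?_ _
        exact cs_CG_sq_le j fun κ => ENNReal.ofReal (h (lv κ U))
    _ = _ := primB1_lint μ _ (primB1_meas hh) _
    _ ≤ 3 ^ Fintype.card τ * ENNReal.ofReal (3 ^ Fintype.card τ * c) :=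
        mul_le_mul_right (cs_CG_le hc hB) _
    _ = _ := by
        rw [ENNReal.ofReal_mul (p := 3 ^ Fintype.card τ) (by positivity),
          ENNReal.ofReal_pow (by norm_num)]
        simp

omit [DecidableEq ι] in
theorem primB1_CN (hh : Hf h) (μ : Measure (Matrix τ ι ℝ)) {c p : ℝ} (hc : 0 ≤ c)
    (hp : (Fintype.card τ : ℝ) + 3 ≤ p)
    (hB : ∀ κ ∈ CN τ 2, ∫⁻ U, IA U * ENNReal.ofReal (h (lv κ U)) ^ 2 ∂μ ≤
      ENNReal.ofReal (c * ((2 : ℝ) / mx κ) ^ (2 * p))) :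
    ∫⁻ U, IA U * Hs (CN τ 2) h U ^ 2 ∂μ ≤
      ENNReal.ofReal (2 * 5 ^ Fintype.card τ * (2 * 5 ^ Fintype.card τ * c)) := by
  have hp' : (Fintype.card τ : ℝ) + (2 : ℕ) + 1 ≤ p := by
    push_cast
    linarith
  have hpos : ∀ κ ∈ CN τ 2, 0 < ((2 : ℝ) / mx κ) := fun κ hκ => by
    have : 2 ≤ mx κ := hκ
    have : (0 : ℝ) < mx κ := by exact_mod_cast (by omega : 0 < mx κ)
    positivity
  have hw : cs (CN τ 2) (fun κ => ENNReal.ofReal (((2 : ℝ) / mx κ) ^ p)) ≤
      ENNReal.ofReal (2 * 5 ^ Fintype.card τ) := by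
    have := cs_CN_le (τ := τ) (g := 2) le_rfl
      (f := fun κ => ENNReal.ofReal (((2 : ℝ) / mx κ) ^ p)) (c := 1) zero_le_one hp'
      (fun κ _ => by simp)
    norm_num at this ⊢
    exact this
  calc _ ≤ ∫⁻ U, IA U * (ENNReal.ofReal (2 * 5 ^ Fintype.card τ) *
        cs (CN τ 2) fun κ => ENNReal.ofReal (h (lv κ U)) ^ 2 /
          ENNReal.ofReal (((2 : ℝ) / mx κ) ^ p)) ∂μ := by
        refine lintegral_mono fun U => mul_le_mul_right ?_ _
        refine (cs_sq_le (CN τ 2) (fun κ => ENNReal.ofReal (h (lv κ U)))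
          (fun κ => ENNReal.ofReal (((2 : ℝ) / mx κ) ^ p)) (fun κ hκ => ?_)
          (fun κ _ => ENNReal.ofReal_ne_top)).trans (mul_le_mul_left hw _)
        exact (ENNReal.ofReal_pos.2 (Real.rpow_pos_of_pos (hpos κ hκ) p)).ne'
    _ = _ := primB1_lint μ _ (fun κ => (primB1_meas hh κ).div_const _) _
    _ ≤ ENNReal.ofReal (2 * 5 ^ Fintype.card τ) *
        ENNReal.ofReal (2 * (2 * (2 : ℕ) + 1) ^ Fintype.card τ * c) := by
        refine mul_le_mul_right (cs_CN_le le_rfl hc hp' fun κ hκ => ?_) _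
        have hq := Real.rpow_pos_of_pos (hpos κ hκ) p
        simp only [div_eq_mul_inv (ENNReal.ofReal _ ^ 2), ← mul_assoc]
        have hm : Measurable fun U : Matrix τ ι ℝ => IA U * ENNReal.ofReal (h (lv κ U)) ^ 2 :=
          measurable_IA.mul (primB1_meas hh κ)
        rw [lintegral_mul_const _ hm]
        refine (mul_le_mul_left (hB κ hκ) _).trans (le_of_eq ?_)
        rw [← ENNReal.ofReal_inv_of_pos hq, ← ENNReal.ofReal_mul' (by positivity), two_mul p,
          Real.rpow_add (hpos κ hκ)]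
        congr 1
        push_cast
        field_simp
    _ = _ := by
        rw [← ENNReal.ofReal_mul (by positivity)]
        norm_num

variable (hn : 97 ≤ Fintype.card ι) (R : RL P g Λ d) (G : Good Λ ξ) (hd5 : 5 * hd ι / 3 ≤ d)
include hn R G hd5

theorem Hsq_le (ha : Fintype.card τ ≤ KK ι) (hh : Hf h) (hz : ∀ y ∈ BB ι, h y = 0) :
    ∫⁻ U, IA U * Hs {κ | κ ≠ 0} h U ^ 2 ∂pw τ Λ ≤
      ENNReal.ofReal (((1 + ξ) * VV (hd ι)) ^ Fintype.card τ *
        (evA (hd ι) ξ (Fintype.card τ) LSS * vp (hd ι))) := by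
  have := R.sf
  have hv := hd_ge hn
  have hav : (Fintype.card τ : ℝ) ≤ hd ι / 3 := le_trans (by exact_mod_cast ha) KK_le
  have hl := lb_ge hv
  have hs := sg_ge hv
  have hp := vp_pos hv
  have ht := th_ge hv
  have ht' := th_le hv
  have hξ := G.nonneg
  have hV : 0 < VV (hd ι) := by
    unfold VV
    linarith
  have hM : 0 ≤ ((1 + ξ) * VV (hd ι)) ^ Fintype.card τ := by positivity
  have hC : ∀ t : ℝ, 0 ≤ vp (hd ι) / (sg (hd ι) * VV (hd ι)) * Real.exp (t * hd ι) := fun t => by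
    positivity
  have key : ∀ {C M B D : ℝ}, 0 ≤ M → C * B ≤ D →
      ENNReal.ofReal (C * (M * B)) ≤ ENNReal.ofReal (M * D) := fun hM' hD =>
    ENNReal.ofReal_le_ofReal (by rw [mul_left_comm]; exact mul_le_mul_of_nonneg_left hD hM')
  have w1 := Hf.sq_le_wide hn hh hz (t := 2 / 3) (by linarith)
  have w2 := Hf.sq_le_wide hn hh hz (t := 0.63) (by linarith)
  have S2 := primB1_CU hh (pw τ Λ) 2 (by positivity) fun κ hκ =>
    (primB1_dom hh _ κ (hC _) w1 (G.chain_eq hn (a := 2 / 3) (t := 2 / 3) (m := 1) (by norm_num)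
      (by norm_num) (by norm_num) (by norm_num) hκ)).trans (key hM (primB1_c2 hv))
  have S3 := primB1_CU hh (pw τ Λ) 3 (by positivity) fun κ hκ =>
    (primB1_dom hh _ κ (hC _) w2 (G.chain_eq hn (a := 0.7) (t := 0.63) (m := 2) (by norm_num)
      (by norm_num) (by norm_num) (by norm_num) hκ)).trans (key hM (primB1_c3 hv))
  have S4 := primB1_CU hh (pw τ Λ) 4 (by positivity) fun κ hκ =>
    (primB1_dom hh _ κ (hC _) w2 (G.chain_ge hn (a := 0.7) (t := 0.63) (m := 4) (by norm_num)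
      (by norm_num) (by norm_num) (by norm_num) ⟨hκ.1, hκ.2.ge⟩)).trans (key hM (primB1_c4 hv))
  have S5 := primB1_CG hh (pw τ Λ) 5 (by positivity) fun κ hκ =>
    (primB1_dom hh _ κ (hC _) w2 (G.chain_ge hn (a := 0.7) (t := 0.63) (m := 5) (by norm_num)
      (by norm_num) (by norm_num) (by norm_num) hκ)).trans (key hM le_rfl)
  have SN := primB1_CN hh (pw τ Λ) (p := 5 * hd ι / 6)
    (c := ((1 + ξ) * VV (hd ι)) ^ Fintype.card τ *
      ((2 : ℝ) ^ (-hd ι) / VV (hd ι) * (2 : ℝ) ^ (-(5 * hd ι / 3)))) (by positivity)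
    (by linarith) fun κ hκ => by
      have h2 : 2 ≤ mx κ := hκ
      have h1 : (1 : ℝ) ≤ mx κ := by exact_mod_cast (by omega : 1 ≤ mx κ)
      have w3 : ∀ y, h y ^ 2 ≤ 1 * gs (2 * th (hd ι)) y := fun y => by
        have e : gs (2 * th (hd ι)) y = gs (th (hd ι)) y ^ 2 := by
          unfold gs
          rw [← Real.exp_nat_mul]
          congr 1
          push_cast
          ring
        rw [one_mul, e]
        exact pow_le_pow_left₀ (hh.nonneg y) (hh.le y) 2
      refine (primB1_dom hh _ κ zero_le_one w3 (G.chain_non hn (t := 2 * th (hd ι)) (g0 := 1)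
        (by linarith) one_pos (by linarith) h1)).trans (le_of_eq ?_)
      have e1 : (th (hd ι) / (2 * th (hd ι) * 1 ^ 2)) ^ hd ι = (2 : ℝ) ^ (-hd ι) := by
        rw [Real.rpow_neg (by norm_num), ← Real.inv_rpow (by norm_num)]
        congr 1
        field_simp
      have e2 : ((1 : ℝ) / mx κ) ^ (5 * hd ι / 3) =
          (2 : ℝ) ^ (-(5 * hd ι / 3)) * ((2 : ℝ) / mx κ) ^ (2 * (5 * hd ι / 6)) := by
        rw [show 2 * (5 * hd ι / 6) = 5 * hd ι / 3 by ring, Real.rpow_neg (by norm_num),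
          ← Real.inv_rpow (by norm_num), ← Real.mul_rpow (by norm_num) (by positivity)]
        congr 1
        field_simp
      rw [e1, e2]
      congr 1
      ring
  have hm : ∀ S : Set (τ → ℤ), Measurable fun U : Matrix τ ι ℝ => IA U * Hs S h U ^ 2 := fun S =>
    measurable_IA.mul ((measurable_Hs hh.meas S).pow_const 2)
  have c5 := mul_le_mul_of_nonneg_left (primB1_c5 hv hav) hM
  have cN := mul_le_mul_of_nonneg_left (primB1_cN hv hav) hM
  calc _ ≤ ∫⁻ U, (ENNReal.ofReal (5 / 4) * (IA U * Hs (CU τ 2) h U ^ 2) +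
        20 * (IA U * Hs (CU τ 3) h U ^ 2 + IA U * Hs (CU τ 4) h U ^ 2 +
          IA U * Hs (CG τ 5) h U ^ 2 + IA U * Hs (CN τ 2) h U ^ 2)) ∂pw τ Λ := by
        refine lintegral_mono fun U => ?_
        by_cases hU : ∀ i, U i ∈ AA ι
        · simp only [IA_eq_one hU, one_mul]
          exact (pow_le_pow_left₀ bot_le (primB1_split hh.even hz hU) 2).trans
            (primB1_sq _ _ _ _ _)
        · simp [IA_eq_zero hU]
    _ = ENNReal.ofReal (5 / 4) * ∫⁻ U, IA U * Hs (CU τ 2) h U ^ 2 ∂pw τ Λ +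
        20 * (∫⁻ U, IA U * Hs (CU τ 3) h U ^ 2 ∂pw τ Λ + ∫⁻ U, IA U * Hs (CU τ 4) h U ^ 2 ∂pw τ Λ +
          ∫⁻ U, IA U * Hs (CG τ 5) h U ^ 2 ∂pw τ Λ +
          ∫⁻ U, IA U * Hs (CN τ 2) h U ^ 2 ∂pw τ Λ) := by
        rw [lintegral_add_left ((hm _).const_mul _), lintegral_const_mul _ (hm _),
          lintegral_const_mul _ ((((hm _).fun_add (hm _)).fun_add (hm _)).fun_add (hm _)),
          lintegral_add_right _ (hm _), lintegral_add_right _ (hm _),
          lintegral_add_right _ (hm _)]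
    _ ≤ _ := add_le_add (mul_le_mul_right S2 _)
        (mul_le_mul_right (add_le_add (add_le_add (add_le_add S3 S4) S5) SN) _)
    _ ≤ _ := by
        have e20 : (20 : ℝ≥0∞) = ENNReal.ofReal 20 := by simp
        rw [← ENNReal.ofReal_add (by positivity) (by positivity),
          ← ENNReal.ofReal_add (by positivity) (by positivity),
          ← ENNReal.ofReal_add (by positivity) (by positivity), e20,
          ← ENNReal.ofReal_mul (by norm_num), ← ENNReal.ofReal_mul (by norm_num),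
          ← ENNReal.ofReal_add (by positivity) (by positivity)]
        refine ENNReal.ofReal_le_ofReal ?_
        rw [primB1_list hv]
        simp only [Nat.factorial]
        generalize ((1 + ξ) * VV (hd ι)) ^ Fintype.card τ = M at hM c5 cN ⊢
        have n3 : 0 ≤ M * ((lb (hd ι))⁻¹ * sg (hd ι) ^ 3 * Real.exp (-(0.6693 * hd ι)) *
          ff 4 (Fintype.card τ) ^ 2 * vp (hd ι)) := by positivity
        have n4 : 0 ≤ M * (sg (hd ι) ^ 4 * Real.exp (-(0.7075 * hd ι)) *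
          7 ^ Fintype.card τ * vp (hd ι)) := by positivity
        push_cast
        nlinarith

end Pool.Agent.Eps.P
end
end

-- part Pool.Agent.Lib.MP_3bda03_nt.P.PrimB
section

/-!
The terms quadratic in the test function.
-/

set_option autoImplicit false

noncomputable section

open MeasureTheory Matrix
open scoped ENNReal

namespace Pool.Agent.Eps.P

open Pool.Agent.Eps.H

theorem primB_log_add {x d : ℝ} (hx : 0 < x) (hd : 0 ≤ d) :
    Real.log x + d / (x + d) ≤ Real.log (x + d) := by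
  have hxd : 0 < x + d := by linarith
  have h := Real.log_le_sub_one_of_pos (div_pos hx hxd)
  rw [Real.log_div hx.ne' hxd.ne'] at h
  have h2 : x / (x + d) - 1 = -(d / (x + d)) := by
    field_simp
    ring
  linarith

theorem primB_le_log {c x : ℝ} (h0 : 0 ≤ c) (h1 : c ≤ 1)
    (h : 1 + c + c ^ 2 / 2 + c ^ 3 / 6 + c ^ 4 * 5 / 96 ≤ x) : c ≤ Real.log x := by
  have hx : 0 < x := lt_of_lt_of_le (by positivity) h
  rw [Real.le_log_iff_exp_le hx]
  have h2 := Real.exp_bound' h0 h1 (n := 4) (by norm_num)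
  simp only [Finset.sum_range_succ, Finset.sum_range_zero, Nat.factorial] at h2
  norm_num at h2
  linarith

theorem primB_exp_neg {K c : ℝ} (hc : 0 ≤ c)
    (h : 1 ≤ c * (2.718 * (1 + (K - 1) + (K - 1) ^ 2 / 2))) (hK : 1 ≤ K) :
    Real.exp (-K) ≤ c := by
  have h1 : 1 + (K - 1) + (K - 1) ^ 2 / 2 ≤ Real.exp (K - 1) :=
    Real.quadratic_le_exp_of_nonneg (by linarith)
  have h2 : (2.718 : ℝ) ≤ Real.exp 1 := le_trans (by norm_num) Real.exp_one_gt_d9.le
  have h3 : 2.718 * (1 + (K - 1) + (K - 1) ^ 2 / 2) ≤ Real.exp K := by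
    have : Real.exp K = Real.exp 1 * Real.exp (K - 1) := by
      rw [← Real.exp_add]
      congr 1
      ring
    rw [this]
    exact mul_le_mul h2 h1 (by nlinarith [sq_nonneg (K - 1)]) (Real.exp_pos _).le
  rw [Real.exp_neg, inv_le_iff_one_le_mul₀ (Real.exp_pos K)]
  exact h.trans (mul_le_mul_of_nonneg_left h3 hc)

theorem primB_tC {v : ℝ} (hv : 97 / 2 ≤ v) :
    ∃ d : ℝ, 0 ≤ d ∧ d ≤ 0.013918 ∧ v * d = 0.675 ∧ tC v / 2 = 0.1839 + d := by
  have hv0 : 0 < v := by linarith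
  refine ⟨0.675 / v, by positivity, ?_, by field_simp, ?_⟩
  · rw [div_le_iff₀ hv0]
    linarith
  · unfold tC
    ring

/-- combination of an exponent bound with the factor `FF` -/
theorem primB_FF {v E s s1 B K c : ℝ} (hs : s ≤ s1) (hs1 : s1 < 1)
    (h : v * E - s * v ≤ -(B * v) - K) (hK : Real.exp (-K) ≤ c * (1 - s1)) :
    Real.exp (v * E) * FF v s ≤ c * Real.exp (-(B * v)) := by
  have h1 : 0 < 1 - s := by linarith
  have hc : 0 ≤ c := by
    by_contra hc
    have : c * (1 - s1) < 0 := mul_neg_of_neg_of_pos (not_le.mp hc) (by linarith)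
    linarith [Real.exp_pos (-K)]
  unfold FF
  rw [← mul_div_assoc, ← Real.exp_add, div_le_iff₀ h1]
  calc Real.exp (v * E + -(s * v)) ≤ Real.exp (-K + -(B * v)) :=
        Real.exp_le_exp.mpr (by linarith)
    _ = Real.exp (-K) * Real.exp (-(B * v)) := Real.exp_add _ _
    _ ≤ c * (1 - s) * Real.exp (-(B * v)) :=
        mul_le_mul_of_nonneg_right (hK.trans (mul_le_mul_of_nonneg_left (by linarith) hc))
          (Real.exp_pos _).le
    _ = c * Real.exp (-(B * v)) * (1 - s) := by ring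

theorem primB_n1 {v : ℝ} (hv : 97 / 2 ≤ v) :
    0.84 * (tC v / 2) / (0.84 + (1 : ℕ) * (tC v / 2)) ≤ 0.1602 ∧
    Real.exp (v * chE 0.84 (tC v / 2) 1) *
      FF v (0.84 * (tC v / 2) / (0.84 + (1 : ℕ) * (tC v / 2))) ≤
        0.4001 * Real.exp (-(0.3344 * v)) := by
  obtain ⟨d, d0, d1, hd, ht⟩ := primB_tC hv
  have hv0 : 0 < v := by linarith
  rw [ht]
  have e1 : (0.84 : ℝ) + (1 : ℕ) * (0.1839 + d) = 1.0239 + d := by
    push_cast
    ring
  have hs : 0.84 * (0.1839 + d) / (0.84 + (1 : ℕ) * (0.1839 + d)) ≤ 0.1602 := by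
    rw [e1, div_le_iff₀ (by linarith)]
    linarith
  refine ⟨hs, primB_FF (K := 1.0985) hs (by norm_num) ?_
    (primB_exp_neg (by norm_num) (by norm_num) (by norm_num))⟩
  unfold chE
  rw [e1]
  have l1 : (0.02353 : ℝ) ≤ Real.log 1.0239 :=
    primB_le_log (by norm_num) (by norm_num) (by norm_num)
  have l2 := primB_log_add (x := 1.0239) (by norm_num) d0
  have l3 : 0.9635 * d ≤ d / (1.0239 + d) := by
    rw [le_div_iff₀ (by linarith)]
    nlinarith
  have l4 : 0.15087 + 0.664 * d ≤ 0.84 * (0.1839 + d) / (1.0239 + d) := by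
    rw [le_div_iff₀ (by linarith)]
    nlinarith
  have l5 : 0.02353 + 0.9635 * d ≤ Real.log (1.0239 + d) := by linarith
  have m1 := mul_le_mul_of_nonneg_left l4 hv0.le
  have m2 := mul_le_mul_of_nonneg_left l5 hv0.le
  push_cast
  nlinarith

theorem primB_n2 {v : ℝ} (hv : 97 / 2 ≤ v) :
    0.87 * (tC v / 2) / (0.87 + (2 : ℕ) * (tC v / 2)) ≤ 0.136 ∧
    Real.exp (v * chE 0.87 (tC v / 2) 2) *
      FF v (0.87 * (tC v / 2) / (0.87 + (2 : ℕ) * (tC v / 2))) ≤
        0.2906 * Real.exp (-(0.4633 * v)) := by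
  obtain ⟨d, d0, d1, hd, ht⟩ := primB_tC hv
  have hv0 : 0 < v := by linarith
  rw [ht]
  have e1 : (0.87 : ℝ) + (2 : ℕ) * (0.1839 + d) = 1.2378 + 2 * d := by
    push_cast
    ring
  have hs : 0.87 * (0.1839 + d) / (0.87 + (2 : ℕ) * (0.1839 + d)) ≤ 0.136 := by
    rw [e1, div_le_iff₀ (by linarith)]
    linarith
  refine ⟨hs, primB_FF (K := 1.3925) hs (by norm_num) ?_
    (primB_exp_neg (by norm_num) (by norm_num) (by norm_num))⟩
  unfold chE
  rw [e1]
  have l1 : (0.074045 : ℝ) ≤ Real.log 0.87 + Real.log 1.2378 := by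
    rw [← Real.log_mul (by norm_num) (by norm_num)]
    exact primB_le_log (by norm_num) (by norm_num) (by norm_num)
  have l2 := primB_log_add (x := 1.2378) (d := 2 * d) (by norm_num) (by linarith)
  have l3 : 1.58 * d ≤ 2 * d / (1.2378 + 2 * d) := by
    rw [le_div_iff₀ (by linarith)]
    nlinarith
  have l4 : 0.129255 + 0.483 * d ≤ 0.87 * (0.1839 + d) / (1.2378 + 2 * d) := by
    rw [le_div_iff₀ (by linarith)]
    nlinarith
  have l5 : 0.074045 + 1.58 * d ≤ Real.log 0.87 + Real.log (1.2378 + 2 * d) := by linarith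
  have m1 := mul_le_mul_of_nonneg_left l4 hv0.le
  have m2 := mul_le_mul_of_nonneg_left l5 hv0.le
  push_cast
  nlinarith

theorem primB_n3 {v : ℝ} (hv : 97 / 2 ≤ v) :
    Real.exp (v * chE 0.885 (tC v / 2) 4) ≤ 0.2109 * Real.exp (-(0.5762 * v)) := by
  obtain ⟨d, d0, d1, hd, ht⟩ := primB_tC hv
  have hv0 : 0 < v := by linarith
  rw [ht]
  have e1 : (0.885 : ℝ) + (4 : ℕ) * (0.1839 + d) = 1.6206 + 4 * d := by
    push_cast
    ring
  have hK : Real.exp (-1.61) ≤ 0.2109 :=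
    primB_exp_neg (by norm_num) (by norm_num) (by norm_num)
  refine le_trans ?_ (mul_le_mul_of_nonneg_right hK (Real.exp_pos _).le)
  rw [← Real.exp_add, Real.exp_le_exp]
  unfold chE
  rw [e1]
  have l1 : (0.1162 : ℝ) ≤ 3 * Real.log 0.885 + Real.log 1.6206 := by
    have : Real.log ((0.885 : ℝ) ^ 3) = 3 * Real.log 0.885 := by
      rw [Real.log_pow]
      norm_num
    rw [← this, ← Real.log_mul (by norm_num) (by norm_num)]
    exact primB_le_log (by norm_num) (by norm_num) (by norm_num)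
  have l2 := primB_log_add (x := 1.6206) (d := 4 * d) (by norm_num) (by linarith)
  have l3 : 2.386 * d ≤ 4 * d / (1.6206 + 4 * d) := by
    rw [le_div_iff₀ (by linarith)]
    nlinarith
  have l5 : 0.1162 + 2.386 * d ≤ 3 * Real.log 0.885 + Real.log (1.6206 + 4 * d) := by linarith
  have m2 := mul_le_mul_of_nonneg_left l5 hv0.le
  push_cast
  nlinarith

theorem primB_n4 {v : ℝ} (hv : 97 / 2 ≤ v) :
    (th v / (th v / 2 * 2 ^ 2)) ^ v / VV v ≤ 4 / 9 * Real.exp (-(0.6931 * v)) := by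
  have hv0 : 0 < v := by linarith
  have hth : 0 < th v := lt_of_lt_of_le (by norm_num) (th_ge hv)
  have e1 : th v / (th v / 2 * 2 ^ 2) = 1 / 2 := by
    field_simp
  have hV : 9 / 4 ≤ VV v := by
    have := lb_ge hv
    unfold VV
    linarith
  have h2 : (1 / 2 : ℝ) ^ v ≤ Real.exp (-(0.6931 * v)) := by
    rw [Real.rpow_def_of_pos (by norm_num), Real.exp_le_exp, one_div, Real.log_inv]
    have := Real.log_two_gt_d9
    nlinarith
  rw [e1, div_le_iff₀ (by linarith)]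
  have := Real.exp_pos (-(0.6931 * v))
  nlinarith

theorem primB_evA (v ξ : ℝ) (a : ℕ) : evA v ξ a LE =
    (1 + ξ) * (0.698 * sg v * Real.exp (-(0.2917 * v)) * ff 2 a +
      0.338 * sg v ^ 2 * Real.exp (-(0.4206 * v)) * ff 3 a +
      0.184 * sg v ^ 4 * Real.exp (-(0.5335 * v)) * 3 ^ a +
      0.776 * Real.exp (-(0.6504 * v)) * 5 ^ a) := by
  simp only [evA, LE, At.ev, Mono.ev, List.map, List.sum_cons, List.sum_nil, ff_zero]
  norm_num
  ring

theorem primB_exp {v b c e : ℝ} (h : e = c - b) :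
    Real.exp (b * v) * Real.exp (-(c * v)) = Real.exp (-(e * v)) := by
  rw [← Real.exp_add, h]
  congr 1
  ring

/-- the final comparison of real numbers -/
theorem primB_sum {v ξ : ℝ} (hv : 97 / 2 ≤ v) (hξ : 0 ≤ ξ) (a : ℕ) :
    2 * ((1 + ξ) * (2 : ℝ) ^ (-v)) *
      (2 * ff 2 a * (sg v * (0.4001 * Real.exp (-(0.3344 * v)))) +
        4 / 3 * ff 3 a * (sg v ^ 2 * (0.2906 * Real.exp (-(0.4633 * v)))) +
        3 ^ a * (sg v ^ 4 * (0.2109 * Real.exp (-(0.5762 * v)))) +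
        2 * 5 ^ a * (4 / 9 * Real.exp (-(0.6931 * v)))) ≤ evA v ξ a LE * vp v := by
  have hsg : 0 ≤ sg v := le_trans (by norm_num) (sg_ge hv)
  have f2 := ff_nonneg 2 a
  have f3 := ff_nonneg 3 a
  have hvp := (vp_pos hv).le
  have h1 : 0 ≤ 1 + ξ := by linarith
  refine le_trans (mul_le_mul_of_nonneg_right (mul_le_mul_of_nonneg_left
    (mul_le_mul_of_nonneg_left (cc1_le hv) h1) (by norm_num)) (by positivity)) ?_
  rw [primB_evA, ← primB_exp (v := v) (b := 0.0427) (c := 0.3344) (e := 0.2917) (by norm_num),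
    ← primB_exp (v := v) (b := 0.0427) (c := 0.4633) (e := 0.4206) (by norm_num),
    ← primB_exp (v := v) (b := 0.0427) (c := 0.5762) (e := 0.5335) (by norm_num),
    ← primB_exp (v := v) (b := 0.0427) (c := 0.6931) (e := 0.6504) (by norm_num)]
  have t1 : 0 ≤ ff 2 a * sg v * Real.exp (-(0.3344 * v)) := by positivity
  have t2 : 0 ≤ ff 3 a * sg v ^ 2 * Real.exp (-(0.4633 * v)) := by positivity
  have t3 : 0 ≤ 3 ^ a * sg v ^ 4 * Real.exp (-(0.5762 * v)) := by positivity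
  have t4 : 0 ≤ 5 ^ a * Real.exp (-(0.6931 * v)) := by positivity
  have t0 : 0 ≤ (1 + ξ) * Real.exp (0.0427 * v) * vp v := by positivity
  have key : 2 * 0.4361 *
      (2 * ff 2 a * (sg v * (0.4001 * Real.exp (-(0.3344 * v)))) +
        4 / 3 * ff 3 a * (sg v ^ 2 * (0.2906 * Real.exp (-(0.4633 * v)))) +
        3 ^ a * (sg v ^ 4 * (0.2109 * Real.exp (-(0.5762 * v)))) +
        2 * 5 ^ a * (4 / 9 * Real.exp (-(0.6931 * v)))) ≤
      0.698 * (ff 2 a * sg v * Real.exp (-(0.3344 * v))) +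
        0.338 * (ff 3 a * sg v ^ 2 * Real.exp (-(0.4633 * v))) +
        0.184 * (3 ^ a * sg v ^ 4 * Real.exp (-(0.5762 * v))) +
        0.776 * (5 ^ a * Real.exp (-(0.6931 * v))) := by
    linarith
  have := mul_le_mul_of_nonneg_left key t0
  linarith

variable {ι : Type} [Fintype ι] [DecidableEq ι] {Ω : Type} [MeasurableSpace Ω]
  {P : Measure Ω} {g : Ω → Matrix ι ι ℝ} {Λ : Measure (ι → ℝ)} {d : ℕ} {ξ : ℝ}
  {τ : Type} [Fintype τ] [DecidableEq τ] {h : (ι → ℝ) → ℝ}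

variable (hn : 97 ≤ Fintype.card ι) (R : RL P g Λ d) (G : Good Λ ξ) (hd5 : 5 * hd ι / 3 ≤ d)
include hn R G hd5

theorem Er_le (ha : Fintype.card τ ≤ KK ι) (hh : Hf h) :
    ∫⁻ U, IA U * Esh (NE τ) Λ h U ∂pw τ Λ ≤
      ENNReal.ofReal (((1 + ξ) * VV (hd ι)) ^ Fintype.card τ *
        (evA (hd ι) ξ (Fintype.card τ) LE * vp (hd ι))) := by
  have := R.sf
  have hv := hd_ge hn
  have hξ := G.nonneg
  set v := hd ι with hvdef
  set a := Fintype.card τ with hadef
  set M := ((1 + ξ) * VV v) ^ a with hMdef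
  have hV : 0 ≤ VV v := by
    have := lb_ge hv
    unfold VV
    linarith
  have hM : 0 ≤ M := by positivity
  have hsg : 0 ≤ sg v := le_trans (by norm_num) (sg_ge hv)
  have hth : 0 < th v := lt_of_lt_of_le (by norm_num) (th_ge hv)
  have hav : (a : ℝ) ≤ v / 3 := le_trans (by exact_mod_cast ha) KK_le
  obtain ⟨d', d0, d1, -, ht⟩ := primB_tC hv
  have ht0 : 0 ≤ tC v / 2 := by linarith
  set c : ℝ := (1 + ξ) * (2 : ℝ) ^ (-v) with hcdef
  have hc : 0 ≤ c := by positivity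
  set I : (τ → ℤ) → ℝ≥0∞ := fun κ => ∫⁻ U, IA U * Gs (th v / 2) (lv κ U) ∂pw τ Λ with hI
  have hanti : ∀ κ, I κ ≤ ∫⁻ U, IA U * Gs (tC v / 2) (lv κ U) ∂pw τ Λ := fun κ =>
    lintegral_mono fun U => mul_le_mul_right (Gs_anti hn (by linarith [tC_le hv]) _) _
  have step1 : ∫⁻ U, IA U * Esh (NE τ) Λ h U ∂pw τ Λ ≤ ENNReal.ofReal (2 * c) * cs (NE τ) I := by
    rw [hI, ← lintegral_fs' (pw τ Λ) (NE τ) measurable_IA (measurable_Gs _),
      ← lintegral_const_mul' _ _ ENNReal.ofReal_ne_top]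
    refine lintegral_mono fun U => ?_
    have h1 : fs' (NE τ) (cor Λ h) U ≤ ENNReal.ofReal c * fs' (NE τ) (Gs (th v / 2)) U := by
      unfold fs' cs
      rw [← ENNReal.tsum_mul_left]
      exact ENNReal.tsum_le_tsum fun κ => G.cor_le hn hh _
    unfold Esh
    rw [ENNReal.ofReal_mul (by norm_num), ENNReal.ofReal_ofNat]
    calc IA U * (2 * fs' (NE τ) (cor Λ h) U)
        ≤ IA U * (2 * (ENNReal.ofReal c * fs' (NE τ) (Gs (th v / 2)) U)) := by gcongr
      _ = 2 * ENNReal.ofReal c * (IA U * fs' (NE τ) (Gs (th v / 2)) U) := by ring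
  have step2 : cs (NE τ) I ≤
      cs (CU τ 2) I + cs (CU τ 3) I + cs (CG τ 4) I + cs (CN τ 2) I := by
    refine (cs_mono NE_subset I).trans ((cs_union_le _ _ I).trans ?_)
    gcongr
    rw [CG_succ 2, CG_succ 3, add_assoc]
    refine (cs_union_le _ _ I).trans ?_
    gcongr
    exact cs_union_le _ _ I
  have b1 : cs (CU τ 2) I ≤ ENNReal.ofReal
      (M * (2 * ff 2 a * (sg v * (0.4001 * Real.exp (-(0.3344 * v)))))) := by
    obtain ⟨n1, n2⟩ := primB_n1 hv
    refine (cs_CU_le (c := M * (sg v * (0.4001 * Real.exp (-(0.3344 * v))))) (by positivity)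
      fun κ hκ => ?_).trans (le_of_eq ?_)
    · refine (hanti κ).trans ((G.chain_eq hn (a := 0.84) (m := 1) (by norm_num) ht0
        (by linarith) (by linarith) hκ).trans (ENNReal.ofReal_le_ofReal ?_))
      rw [pow_one, mul_assoc]
      gcongr
    · congr 1
      simp only [Nat.factorial]
      push_cast
      ring
  have b2 : cs (CU τ 3) I ≤ ENNReal.ofReal
      (M * (4 / 3 * ff 3 a * (sg v ^ 2 * (0.2906 * Real.exp (-(0.4633 * v)))))) := by
    obtain ⟨n1, n2⟩ := primB_n2 hv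
    refine (cs_CU_le (c := M * (sg v ^ 2 * (0.2906 * Real.exp (-(0.4633 * v))))) (by positivity)
      fun κ hκ => ?_).trans (le_of_eq ?_)
    · refine (hanti κ).trans ((G.chain_eq hn (a := 0.87) (m := 2) (by norm_num) ht0
        (by linarith) (by linarith) hκ).trans (ENNReal.ofReal_le_ofReal ?_))
      rw [mul_assoc]
      gcongr
    · congr 1
      simp only [Nat.factorial]
      push_cast
      ring
  have b3 : cs (CG τ 4) I ≤ ENNReal.ofReal
      (M * (3 ^ a * (sg v ^ 4 * (0.2109 * Real.exp (-(0.5762 * v)))))) := by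
    have n2 := primB_n3 hv
    refine (cs_CG_le (c := M * (sg v ^ 4 * (0.2109 * Real.exp (-(0.5762 * v))))) (by positivity)
      fun κ hκ => ?_).trans (le_of_eq ?_)
    · refine (hanti κ).trans ((G.chain_ge hn (a := 0.885) (m := 4) (by norm_num) ht0
        (by linarith) (by norm_num) hκ).trans (ENNReal.ofReal_le_ofReal ?_))
      gcongr
    · congr 1
      ring
  have b4 : cs (CN τ 2) I ≤ ENNReal.ofReal
      (M * (2 * 5 ^ a * (4 / 9 * Real.exp (-(0.6931 * v))))) := by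
    have n2 := primB_n4 hv
    refine (cs_CN_le (g := 2) (c := M * (4 / 9 * Real.exp (-(0.6931 * v)))) (p := 5 * v / 3)
      le_rfl (by positivity) (by push_cast; linarith) fun κ hκ => ?_).trans (le_of_eq ?_)
    · have hκ' : (2 : ℝ) ≤ mx κ := by exact_mod_cast (show 2 ≤ mx κ from hκ)
      refine (G.chain_non hn (t := th v / 2) (g0 := 2) (by positivity) (by norm_num)
        (by linarith [th_le hv]) hκ').trans (ENNReal.ofReal_le_ofReal ?_)
      push_cast
      gcongr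
    · congr 1
      push_cast
      ring
  have f2 := ff_nonneg 2 a
  have f3 := ff_nonneg 3 a
  refine step1.trans ((mul_le_mul_right (step2.trans
    (add_le_add (add_le_add (add_le_add b1 b2) b3) b4)) _).trans ?_)
  rw [← ENNReal.ofReal_add (by positivity) (by positivity),
    ← ENNReal.ofReal_add (by positivity) (by positivity),
    ← ENNReal.ofReal_add (by positivity) (by positivity),
    ← ENNReal.ofReal_mul (by positivity)]
  refine ENNReal.ofReal_le_ofReal ?_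
  have := mul_le_mul_of_nonneg_left (primB_sum hv hξ a) hM
  linarith

end Pool.Agent.Eps.P
end
end
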