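import Pool.Agent.Lib.MP_3bda03_nt.P.Mom
import Pool.Agent.Lib.MP_3bda03_nt.P.EnvBx
import Pool.Agent.Lib.MP_3bda03_nt.P.Theta

-- part Pool.Agent.Lib.MP_3bda03_nt.P.Level2x
section

/-!
Numerical lemmas for the second moment on the hole.
-/

set_option autoImplicit false

noncomputable section

open MeasureTheory Matrix
open scoped ENNReal

namespace Pool.Agent.Eps.P

open Pool.Agent.Eps.H

theorem level2_log5 : (1.6092 : ℝ) ≤ Real.log 5 := by
  have h2 := Real.log_two_gt_d9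
  have e : Real.log 5 = 2 * Real.log 2 + Real.log (5 / 4) := by
    rw [show (5 : ℝ) = 2 ^ 2 * (5 / 4) by norm_num, Real.log_mul (by norm_num) (by norm_num),
      Real.log_pow]
    norm_num
  have h3 : (0.223 : ℝ) ≤ Real.log (5 / 4) := by
    rw [Real.le_log_iff_exp_le (by norm_num)]
    have := Real.exp_bound' (x := 0.223) (by norm_num) (by norm_num) (n := 4) (by norm_num)
    refine this.trans ?_
    norm_num [Finset.sum_range_succ, Nat.factorial]
  linarith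

theorem level2_log3 : Real.log 3 ≤ (1.0989 : ℝ) := by
  have h2 := Real.log_two_lt_d9
  have e : Real.log 3 = Real.log 2 + Real.log (3 / 2) := by
    rw [show (3 : ℝ) = 2 * (3 / 2) by norm_num, Real.log_mul (by norm_num) (by norm_num)]
    norm_num
  have h3 : Real.log (3 / 2) ≤ (0.4056 : ℝ) := by
    rw [Real.log_le_iff_le_exp (by norm_num)]
    have := Real.sum_le_exp_of_nonneg (x := 0.4056) (by norm_num) 6
    refine le_trans ?_ this
    norm_num [Finset.sum_range_succ, Nat.factorial]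
  linarith

theorem level2_tail {v ξ x : ℝ} {K : ℕ} (hv : 97 / 2 ≤ v) (hK : v / 3 - 1 < K) (hx : 0 ≤ x)
    (hxl : x ≤ (1 + ξ) * lb v) {j : ℕ} (c : ℝ) (hc : 5 ^ (K + 1) ≤ c * 5 ^ (j + 1)) :
    x ^ (j + 1) / (j + 1).factorial ≤
      c * Real.exp (5 * lb v - 0.5364 * v) * Real.exp (5 * lb v * ξ) := by
  have h5 : Real.exp (0.5364 * v) ≤ (5 : ℝ) ^ (K + 1) := by
    rw [← Real.exp_log (show (0 : ℝ) < 5 ^ (K + 1) by positivity), Real.log_pow]
    refine Real.exp_le_exp.2 ?_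
    have := level2_log5
    push_cast
    nlinarith
  refine (pow_div_factorial_le hx (show (0 : ℝ) < 5 by norm_num) (j + 1)).trans ?_
  rw [div_le_iff₀ (by positivity)]
  have e1 : Real.exp (5 * x) ≤ Real.exp (5 * lb v - 0.5364 * v) * Real.exp (5 * lb v * ξ) *
      Real.exp (0.5364 * v) := by
    rw [← Real.exp_add, ← Real.exp_add]
    refine Real.exp_le_exp.2 ?_
    nlinarith
  refine e1.trans ?_
  have := mul_le_mul_of_nonneg_left (h5.trans hc)
    (show 0 ≤ Real.exp (5 * lb v - 0.5364 * v) * Real.exp (5 * lb v * ξ) by positivity)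
  linarith

theorem level2_geo {v ξ : ℝ} (hv : 97 / 2 ≤ v) (hξ : 0 ≤ ξ) (K : ℕ) {y : ℝ} (hy : 0 ≤ y) :
    ∑ a ∈ Finset.range (K + 1), cw a * (((1 + ξ) * VV v) ^ a * y ^ a) ≤
      Real.exp (y * lb v) * Real.exp (y * lb v * ξ) := by
  have hl := lb_ge hv
  have e : ∀ a : ℕ, cw a * (((1 + ξ) * VV v) ^ a * y ^ a) =
      (y * lb v + y * lb v * ξ) ^ a / a.factorial := fun a => by
    rw [← cw_mul, ← mul_pow, VV]
    congr 2
    ring
  simp_rw [e]
  rw [← Real.exp_add]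
  exact Real.sum_le_exp_of_nonneg (by positivity) _

theorem level2_evTR (v ξ : ℝ) :
    evT v ξ TR = 1 * Real.exp (5 * lb v - 0.5364 * v) * Real.exp (5 * lb v * ξ) := by
  simp [evT, TR, Tm.ev, Mono.ev]

theorem level2_evE1 (v ξ : ℝ) :
    evT v ξ E1 = 1.0001 * Real.exp (-lb v) * Real.exp (lb v * ξ) +
      25 * Real.exp (5 * lb v - 0.5364 * v) * Real.exp (5 * lb v * ξ) := by
  simp [evT, E1, Tm.ev, Mono.ev]
  norm_num

theorem level2_evI0 (v ξ : ℝ) :
    evT v ξ I0 = 8 * Real.exp (-(1.155 * v)) * (Real.exp (2 * lb v) * Real.exp (2 * lb v * ξ)) := by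
  simp [evT, I0, Tm.ev, Mono.ev]
  norm_num
  rw [sub_eq_add_neg, Real.exp_add]
  ring

theorem level2_evI1 (v ξ : ℝ) :
    evT v ξ I1 = 16 * lb v * Real.exp ξ * Real.exp (-(1.155 * v)) *
      (Real.exp (2 * lb v) * Real.exp (2 * lb v * ξ)) := by
  simp [evT, I1, Tm.ev, Mono.ev]
  norm_num
  rw [sub_eq_add_neg, Real.exp_add, add_mul, Real.exp_add, one_mul]
  ring

theorem level2_evLast (v ξ : ℝ) :
    evT v ξ [⟨⟨2010, 1, 0, 0, 6, 0.746⟩, 2, 6⟩] = 2010 * lb v * Real.exp (2 * ξ) *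
      Real.exp (-(0.746 * v)) * (Real.exp (6 * lb v) * Real.exp (6 * lb v * ξ)) := by
  simp [evT, Tm.ev, Mono.ev]
  norm_num
  rw [sub_eq_add_neg, Real.exp_add, add_mul, Real.exp_add]
  ring

theorem level2_evL1 {v : ℝ} (hv : 97 / 2 ≤ v) (ξ : ℝ) :
    evT v ξ L1 = 2 * evT v ξ (toT LPS) + evT v ξ TR + 0.1 * evT v ξ RC + 6 * evT v ξ I0 +
      6 * evT v ξ I1 := by
  simp only [L1, evT_append, evT_scT hv, ev_cM]
  norm_num

theorem level2_evL2 {v : ℝ} (hv : 97 / 2 ≤ v) (ξ : ℝ) :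
    evT v ξ L2 = evT v ξ (toT LPS) + evT v ξ TR + 2 * evT v ξ I0 + 2 * evT v ξ I1 := by
  simp only [L2, evT_append, evT_scT hv, ev_cM]
  norm_num

theorem level2_evRC {v : ℝ} (hv : 97 / 2 ≤ v) (ξ : ℝ) :
    evT v ξ RC = mC2.ev v * (4 * lb v ^ 2) * Real.exp (2 * ξ) * evT v ξ E1 +
      2 * evT v ξ (toT LRH) := by
  have e : Mono.ev v ⟨4, 2, 0, 0, 0, 0⟩ = 4 * lb v ^ 2 := by
    simp [Mono.ev]
  simp only [RC, evT_append, evT_scT hv, ev_cM, Mono.ev_mul hv, e]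
  norm_num

theorem level2_evL3 {v : ℝ} (hv : 97 / 2 ≤ v) (ξ : ℝ) :
    evT v ξ L3 = mT.ev v * 2 * Real.exp (2 * ξ) * evT v ξ E1 + 2.5 * evT v ξ RC +
      3.01 * evT v ξ (toT LSS) + 2.01 * evT v ξ (toT (LE ++ Lfr)) +
      mSup.ev v * Real.exp ξ * evT v ξ (toT LPS) +
      mIv.ev v * 26 * Real.exp (2 * ξ) * evT v ξ I0 +
      mIv.ev v * 40 * Real.exp (2 * ξ) * evT v ξ I1 +
      evT v ξ [⟨⟨2010, 1, 0, 0, 6, 0.746⟩, 2, 6⟩] := by
  simp only [L3, evT_append, evT_scT hv, ev_cM, Mono.ev_mul hv]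
  norm_num

theorem level2_mIv {v : ℝ} (hv : 97 / 2 ≤ v) : 1 ≤ mIv.ev v * vp v := by
  have e : mIv.ev v = 0.4361 * Real.exp (0.7359 * v) := by
    simp [mIv, Mono.ev]
    norm_num
  rw [e]
  exact inv_vp hv

theorem level2_nine {v : ℝ} (hv : 97 / 2 ≤ v) {a : ℕ} (ha : (a : ℝ) ≤ v / 3) :
    (2 : ℝ) ^ a * (16 * 288) * Real.exp (-(1.155 * v)) * (9 ^ a * (2 : ℝ) ^ (-v)) ≤
      6 ^ a * (2010 * Real.exp (-(0.746 * v)) * vp v) := by
  have h3 : (3 : ℝ) ^ a ≤ Real.exp (0.3663 * v) := by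
    rw [← Real.exp_log (show (0 : ℝ) < 3 ^ a by positivity), Real.log_pow]
    refine Real.exp_le_exp.2 ?_
    have h1 := level2_log3
    have h2 : (a : ℝ) * Real.log 3 ≤ a * 1.0989 := mul_le_mul_of_nonneg_left h1 (by positivity)
    linarith
  have h2 := cc1_le hv
  have hp := vp_pos hv
  have e1 : (2 : ℝ) ^ a * 9 ^ a = 6 ^ a * 3 ^ a := by
    rw [← mul_pow, ← mul_pow]
    norm_num
  have e2 : Real.exp (-(0.746 * v)) =
      Real.exp (-(1.155 * v)) * Real.exp (0.3663 * v) * Real.exp (0.0427 * v) := by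
    rw [← Real.exp_add, ← Real.exp_add]
    congr 1
    ring
  have h4 : (3 : ℝ) ^ a * (2 : ℝ) ^ (-v) ≤
      Real.exp (0.3663 * v) * (0.4361 * Real.exp (0.0427 * v) * vp v) :=
    mul_le_mul h3 h2 (by positivity) (by positivity)
  have h5 := mul_le_mul_of_nonneg_left h4
    (show (0 : ℝ) ≤ 6 ^ a * (16 * 288) * Real.exp (-(1.155 * v)) by positivity)
  have h6 : (0 : ℝ) ≤ 6 ^ a * (Real.exp (-(1.155 * v)) * Real.exp (0.3663 * v) *
      Real.exp (0.0427 * v) * vp v) := by positivity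
  calc (2 : ℝ) ^ a * (16 * 288) * Real.exp (-(1.155 * v)) * (9 ^ a * (2 : ℝ) ^ (-v))
      = (2 ^ a * 9 ^ a) * (16 * 288) * Real.exp (-(1.155 * v)) * (2 : ℝ) ^ (-v) := by ring
    _ = 6 ^ a * (16 * 288) * Real.exp (-(1.155 * v)) * (3 ^ a * (2 : ℝ) ^ (-v)) := by
        rw [e1]; ring
    _ ≤ _ := h5
    _ ≤ _ := by
        rw [e2]
        nlinarith

/-- the sum of all the errors of the frames of size at most `K` -/
theorem level2_sum {v ξ s N : ℝ} (hv : 97 / 2 ≤ v) (hξ : 0 ≤ ξ) (hN : 0 ≤ N) {K : ℕ}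
    (hK : (K : ℝ) ≤ v / 3) :
    ∑ a ∈ Finset.range (K + 1), cw a * (((1 + ξ) * VV v) ^ a *
        (evA v ξ a LPS * (2 * s ^ 2 + N + (1 + ξ) * (mSup.ev v * vp v)) +
          2.003 * (evA v ξ a LSS * vp v) + 1.001 * (evA v ξ a (LE ++ Lfr) * vp v) +
          8 * 2 ^ a * Real.exp (-(1.155 * v)) * (3 * s ^ 2 + N + 13 * (1 + ξ) ^ 2)) +
        ((1 + ξ) * VV v) ^ a * 2 ^ a * (16 * lb v * (1 + ξ) * Real.exp (-(1.155 * v))) *
          (6 * s ^ 2 + 2 * N + 40 * (1 + ξ) ^ 2 + 288 * (1 + ξ) * (9 ^ a * (2 : ℝ) ^ (-v)))) +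
      ∑ a ∈ Finset.range (K + 1), cw a * (((1 + ξ) * VV v) ^ a *
        (1.003 * (evA v ξ a LSS * vp v) + 2 * |s| * (evA v ξ a LRH * Real.sqrt (vp v)) +
          1.001 * (evA v ξ a (LE ++ Lfr) * vp v) +
          8 * 2 ^ a * Real.exp (-(1.155 * v)) * (3 * s ^ 2 + N + 13 * (1 + ξ) ^ 2))) ≤
      evT v ξ (toT LPS) * (2 * s ^ 2 + N + Real.exp ξ * (mSup.ev v * vp v)) +
        3.01 * evT v ξ (toT LSS) * vp v + 2.01 * evT v ξ (toT (LE ++ Lfr)) * vp v +
        2 * evT v ξ (toT LRH) * (|s| * Real.sqrt (vp v)) +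
        evT v ξ I0 * (6 * s ^ 2 + 2 * N + 26 * Real.exp (2 * ξ)) +
        evT v ξ I1 * (6 * s ^ 2 + 2 * N + 40 * Real.exp (2 * ξ)) +
        evT v ξ [⟨⟨2010, 1, 0, 0, 6, 0.746⟩, 2, 6⟩] * vp v := by
  have hl := lb_ge hv
  have hp := vp_pos hv
  have hV : 0 ≤ (1 + ξ) * VV v := by
    unfold VV
    positivity
  have hS := Mono.ev_nonneg hv mSup
  have hT : 1 + ξ ≤ Real.exp ξ := by linarith [Real.add_one_le_exp ξ]
  have hT2 : (1 + ξ) ^ 2 ≤ Real.exp (2 * ξ) := by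
    rw [show (2 : ℝ) * ξ = (2 : ℕ) * ξ by norm_num, Real.exp_nat_mul]
    exact pow_le_pow_left₀ (by positivity) hT 2
  set M := (1 + ξ) * VV v with hM
  set E := Real.exp (-(1.155 * v)) with hE
  have hE0 : 0 < E := Real.exp_pos _
  set c1 := 2 * s ^ 2 + N + Real.exp ξ * (mSup.ev v * vp v) with hc1
  set c2 := 8 * E * (6 * s ^ 2 + 2 * N + 26 * Real.exp (2 * ξ)) +
    16 * lb v * Real.exp ξ * E * (6 * s ^ 2 + 2 * N + 40 * Real.exp (2 * ξ)) with hc2
  set c3 := 2010 * lb v * Real.exp (2 * ξ) * Real.exp (-(0.746 * v)) * vp v with hc3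
  have step : ∀ a ∈ Finset.range (K + 1), cw a * (M ^ a *
        (evA v ξ a LPS * (2 * s ^ 2 + N + (1 + ξ) * (mSup.ev v * vp v)) +
          2.003 * (evA v ξ a LSS * vp v) + 1.001 * (evA v ξ a (LE ++ Lfr) * vp v) +
          8 * 2 ^ a * E * (3 * s ^ 2 + N + 13 * (1 + ξ) ^ 2)) +
        M ^ a * 2 ^ a * (16 * lb v * (1 + ξ) * E) *
          (6 * s ^ 2 + 2 * N + 40 * (1 + ξ) ^ 2 + 288 * (1 + ξ) * (9 ^ a * (2 : ℝ) ^ (-v)))) +
      cw a * (M ^ a *
        (1.003 * (evA v ξ a LSS * vp v) + 2 * |s| * (evA v ξ a LRH * Real.sqrt (vp v)) +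
          1.001 * (evA v ξ a (LE ++ Lfr) * vp v) +
          8 * 2 ^ a * E * (3 * s ^ 2 + N + 13 * (1 + ξ) ^ 2))) ≤
      cw a * (M ^ a * evA v ξ a LPS) * c1 + cw a * (M ^ a * evA v ξ a LSS) * (3.01 * vp v) +
        cw a * (M ^ a * evA v ξ a (LE ++ Lfr)) * (2.01 * vp v) +
        cw a * (M ^ a * evA v ξ a LRH) * (2 * (|s| * Real.sqrt (vp v))) +
        cw a * (M ^ a * 2 ^ a) * c2 + cw a * (M ^ a * 6 ^ a) * c3 := by
    intro a ha
    have ha' : (a : ℝ) ≤ v / 3 :=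
      le_trans (by exact_mod_cast Nat.lt_succ_iff.1 (Finset.mem_range.1 ha)) hK
    have w0 : 0 ≤ cw a * M ^ a := mul_nonneg (cw_pos a).le (pow_nonneg hV a)
    have p1 := evA_nonneg hv hξ a LPS
    have p2 := evA_nonneg hv hξ a LSS
    have p3 := evA_nonneg hv hξ a (LE ++ Lfr)
    have q1 : evA v ξ a LPS * (2 * s ^ 2 + N + (1 + ξ) * (mSup.ev v * vp v)) ≤
        evA v ξ a LPS * c1 := by
      refine mul_le_mul_of_nonneg_left ?_ p1
      have := mul_le_mul_of_nonneg_right hT (show 0 ≤ mSup.ev v * vp v by positivity)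
      linarith
    have q2 : 0 ≤ evA v ξ a LSS * vp v := by positivity
    have q3 : 0 ≤ evA v ξ a (LE ++ Lfr) * vp v := by positivity
    have q4 : 8 * 2 ^ a * E * (6 * s ^ 2 + 2 * N + 26 * (1 + ξ) ^ 2) ≤
        8 * 2 ^ a * E * (6 * s ^ 2 + 2 * N + 26 * Real.exp (2 * ξ)) :=
      mul_le_mul_of_nonneg_left (by linarith) (by positivity)
    have q5 : 2 ^ a * (16 * lb v * (1 + ξ) * E) * (6 * s ^ 2 + 2 * N + 40 * (1 + ξ) ^ 2) ≤
        2 ^ a * (16 * lb v * Real.exp ξ * E) * (6 * s ^ 2 + 2 * N + 40 * Real.exp (2 * ξ)) := by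
      gcongr
    have q6 : lb v * (1 + ξ) ^ 2 * (2 ^ a * (16 * 288) * E * (9 ^ a * (2 : ℝ) ^ (-v))) ≤
        lb v * Real.exp (2 * ξ) * (6 ^ a * (2010 * Real.exp (-(0.746 * v)) * vp v)) :=
      mul_le_mul (mul_le_mul_of_nonneg_left hT2 (by positivity)) (level2_nine hv ha')
        (by positivity) (by positivity)
    have key : evA v ξ a LPS * (2 * s ^ 2 + N + (1 + ξ) * (mSup.ev v * vp v)) +
          2.003 * (evA v ξ a LSS * vp v) + 1.001 * (evA v ξ a (LE ++ Lfr) * vp v) +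
          8 * 2 ^ a * E * (3 * s ^ 2 + N + 13 * (1 + ξ) ^ 2) +
        2 ^ a * (16 * lb v * (1 + ξ) * E) *
          (6 * s ^ 2 + 2 * N + 40 * (1 + ξ) ^ 2 + 288 * (1 + ξ) * (9 ^ a * (2 : ℝ) ^ (-v))) +
        (1.003 * (evA v ξ a LSS * vp v) + 2 * |s| * (evA v ξ a LRH * Real.sqrt (vp v)) +
          1.001 * (evA v ξ a (LE ++ Lfr) * vp v) +
          8 * 2 ^ a * E * (3 * s ^ 2 + N + 13 * (1 + ξ) ^ 2)) ≤
      evA v ξ a LPS * c1 + evA v ξ a LSS * (3.01 * vp v) + evA v ξ a (LE ++ Lfr) * (2.01 * vp v) +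
        evA v ξ a LRH * (2 * (|s| * Real.sqrt (vp v))) + 2 ^ a * c2 + 6 ^ a * c3 := by
      rw [hc2, hc3]
      linarith
    have := mul_le_mul_of_nonneg_left key w0
    linarith
  rw [← Finset.sum_add_distrib]
  refine (Finset.sum_le_sum step).trans ?_
  simp only [Finset.sum_add_distrib, ← Finset.sum_mul]
  have b1 := mul_le_mul_of_nonneg_right (sum_evA_le hv hξ K LPS)
    (show 0 ≤ c1 by rw [hc1]; positivity)
  have b2 := mul_le_mul_of_nonneg_right (sum_evA_le hv hξ K LSS)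
    (show 0 ≤ 3.01 * vp v by positivity)
  have b3 := mul_le_mul_of_nonneg_right (sum_evA_le hv hξ K (LE ++ Lfr))
    (show 0 ≤ 2.01 * vp v by positivity)
  have b4 := mul_le_mul_of_nonneg_right (sum_evA_le hv hξ K LRH)
    (show 0 ≤ 2 * (|s| * Real.sqrt (vp v)) by positivity)
  have b5 := mul_le_mul_of_nonneg_right (level2_geo hv hξ K (show (0 : ℝ) ≤ 2 by norm_num))
    (show 0 ≤ c2 by rw [hc2]; positivity)
  have b6 := mul_le_mul_of_nonneg_right (level2_geo hv hξ K (show (0 : ℝ) ≤ 6 by norm_num))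
    (show 0 ≤ c3 by rw [hc3]; positivity)
  rw [← hM] at b1 b2 b3 b4 b5 b6
  have e5 : Real.exp (2 * lb v) * Real.exp (2 * lb v * ξ) * c2 =
      evT v ξ I0 * (6 * s ^ 2 + 2 * N + 26 * Real.exp (2 * ξ)) +
        evT v ξ I1 * (6 * s ^ 2 + 2 * N + 40 * Real.exp (2 * ξ)) := by
    rw [level2_evI0, level2_evI1, hc2, hE]
    ring
  have e6 : Real.exp (6 * lb v) * Real.exp (6 * lb v * ξ) * c3 =
      evT v ξ [⟨⟨2010, 1, 0, 0, 6, 0.746⟩, 2, 6⟩] * vp v := by
    rw [level2_evLast, hc3]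
    ring
  linarith

end Pool.Agent.Eps.P
end
end

-- part Pool.Agent.Lib.MP_3bda03_nt.P.EnvB
section

/-!
Bounds for Fourier transforms of radial functions.
-/

set_option autoImplicit false

noncomputable section

open MeasureTheory Matrix
open scoped ENNReal

namespace Pool.Agent.Eps.P

open Pool.Agent.Eps.H

variable {ι : Type} [Fintype ι] (hn : 97 ≤ Fintype.card ι)
include hn

theorem envb_int {s : ℝ} (h0 : 0 ≤ s) (h1 : s < 1) :
    ∫⁻ y : ι → ℝ, iA y * ENNReal.ofReal (1.024 * gs s y + dl (hd ι)) ≤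
      ENNReal.ofReal (VV (hd ι) * (1.024 * FF (hd ι) s + dl (hd ι))) := by
  have hV := (envb_VV (hd_ge hn)).le
  have hdl : 0 ≤ dl (hd ι) := by unfold dl; positivity
  have hF : 0 ≤ FF (hd ι) s := div_nonneg (Real.exp_pos _).le (by linarith)
  calc ∫⁻ y : ι → ℝ, iA y * ENNReal.ofReal (1.024 * gs s y + dl (hd ι))
      ≤ ∫⁻ y : ι → ℝ, (ENNReal.ofReal 1.024 * (iB y * Gs s y) +
          ENNReal.ofReal (dl (hd ι)) * iB y) := by
        refine lintegral_mono fun y => (mul_le_mul_left (iA_le_iB y) _).trans (le_of_eq ?_)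
        rw [ENNReal.ofReal_add (by unfold gs; positivity) hdl, ENNReal.ofReal_mul (by norm_num), Gs]
        ring
    _ = ENNReal.ofReal 1.024 * (∫⁻ y : ι → ℝ, iB y * Gs s y) +
          ENNReal.ofReal (dl (hd ι)) * volume (BB ι) := by
        rw [lintegral_add_right _ (measurable_iB.const_mul _),
          lintegral_const_mul' _ _ ENNReal.ofReal_ne_top,
          lintegral_const_mul' _ _ ENNReal.ofReal_ne_top]
        congr 2
        exact lintegral_indicator_one measurableSet_BB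
    _ ≤ ENNReal.ofReal 1.024 * ENNReal.ofReal (VV (hd ι) * FF (hd ι) s) +
          ENNReal.ofReal (dl (hd ι)) * ENNReal.ofReal (VV (hd ι)) := by
        rw [volume_BB hn]
        gcongr
        exact lintegral_iB_Gs hn h0 h1
    _ = _ := by
        rw [← ENNReal.ofReal_mul (by norm_num), ← ENNReal.ofReal_mul hdl,
          ← ENNReal.ofReal_add (by positivity) (by positivity)]
        congr 1
        ring

theorem envb_vol : (volume (AA ι)).toReal = VV (hd ι) * (1 - (0.8 : ℝ) ^ hd ι) ∧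
    (volume (AA ι)).toReal ≤ VV (hd ι) := by
  have hv := hd_ge hn
  have hV := (envb_VV hv).le
  have h1 : (0.8 : ℝ) ^ hd ι ≤ 1 := Real.rpow_le_one (by norm_num) (by norm_num) (by linarith)
  have h2 : 0 ≤ (0.8 : ℝ) ^ hd ι := by positivity
  rw [volume_AA hn, ENNReal.toReal_ofReal (mul_nonneg hV (by linarith))]
  exact ⟨rfl, by nlinarith⟩

theorem abs_al_le_Ev (w : ι → ℝ) :
    |al w| ≤ (volume (AA ι)).toReal * Ev (3 / 4) w := by
  have hr := rr_pos (hd_ge hn)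
  have h := abs_ftr_le_Ev hn (prof_ann hn 0) (u := 0.8) (by norm_num)
    (fun ρ hρ => Set.indicator_of_notMem (fun h => absurd h.1 (not_le.2 hρ)) _) w
  have e : ∫ y : ι → ℝ, |((Set.Ico (0.8 * rr (hd ι)) (rr (hd ι))).indicator
      fun ρ => Real.exp (-(0 * (hd ι * ρ / rr (hd ι))))) (nsq y)| = (volume (AA ι)).toReal := by
    refine Eq.trans (integral_congr_ae (Filter.Eventually.of_forall fun y => ?_))
      (integral_indicator_one measurableSet_AA)
    exact (congrArg abs (congrFun envb_rad y)).trans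
      (abs_of_nonneg (Set.indicator_nonneg (fun _ _ => zero_le_one) y))
  rw [e, envb_rad] at h
  exact h.trans (mul_le_mul_of_nonneg_left (Ev_anti hn (by norm_num) (by norm_num) w)
    ENNReal.toReal_nonneg)

theorem abs_al_le_Gx (w : ι → ℝ) : |al w| ≤ VV (hd ι) * Gx w := by
  have hv := hd_ge hn
  have hv0 : 0 < hd ι := by linarith
  have hV := (envb_VV hv).le
  have ha := nx_nonneg hn w
  have ht := envb_t0 hv
  have h := abs_ftr_le_Env hn (prof_ann hn 0) w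
  rw [envb_rad] at h
  have hs0 : 0 ≤ min (4 / 3 * t0 (hd ι) * nx w / hd ι) 0.4 := le_min (by positivity) (by norm_num)
  have h2 := (h.trans (lintegral_mono fun y => ?_)).trans
    (envb_int hn hs0 ((min_le_right _ _).trans_lt (by norm_num)))
  · have h3 := mul_le_mul_of_nonneg_left (envb_FF hv ha) hV
    have h4 : 0 ≤ VV (hd ι) * Gx w := mul_nonneg hV (by unfold Gx gs dx; positivity)
    exact (ENNReal.ofReal_le_ofReal_iff h4).1 (h2.trans (ENNReal.ofReal_le_ofReal h3))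
  · have hy := nx_nonneg hn y
    refine mul_le_mul' (le_of_eq ?_) (ENNReal.ofReal_le_ofReal
      ((Env_le_exp hv (by positivity)).trans ?_))
    · rw [show ((Set.Ico (0.8 * rr (hd ι)) (rr (hd ι))).indicator
        fun ρ => Real.exp (-(0 * (hd ι * ρ / rr (hd ι))))) (nsq y) = _ from congrFun envb_rad y, iA]
      by_cases hA : y ∈ AA ι <;> simp [hA]
    · have h5 : min (4 / 3 * t0 (hd ι) * nx w / hd ι) 0.4 * nx y ≤
          (0.965 - 2.33 / hd ι) * (th (hd ι) ^ 2 * (nx y / hd ι) * nx w) := by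
        have h6 := mul_le_mul_of_nonneg_right (t0_le hv)
          (show 0 ≤ 4 / 3 * (nx y / hd ι * nx w) by positivity)
        refine (mul_le_mul_of_nonneg_right (min_le_left _ _) hy).trans
          ((le_of_eq ?_).trans (h6.trans (le_of_eq ?_))) <;> ring
      have h7 := Real.exp_le_exp.2 (neg_le_neg h5)
      rw [gs]
      linarith

theorem abs_al_le_al0 {w : ι → ℝ} (hw : w ∈ AA ι) : |al w| ≤ al0 (hd ι) := by
  have hv := hd_ge hn
  have hv0 : 0 < hd ι := by linarith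
  have hl := lb_ge hv
  have h1 := ((mem_AA hn).1 hw).1
  have h2 : 0.1044 * hd ι + 0.3104 ≤ tx (hd ι) * nx w := by
    have e : tx (hd ι) * (0.8 * hd ι) = 0.1044 * hd ι + 0.3104 := by
      unfold tx; field_simp; norm_num; ring
    rw [← e]
    exact mul_le_mul_of_nonneg_left h1 (by unfold tx; positivity)
  have he := Real.exp_pos (-(0.1044 * hd ι))
  have h3 : Real.exp (-0.3104) ≤ 0.7345 := envb_exp_neg (by norm_num) (by norm_num)
  have h4 : gs (tx (hd ι)) w ≤ Real.exp (-(0.1044 * hd ι)) * 0.7345 := by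
    refine le_trans ?_ (mul_le_mul_of_nonneg_left h3 he.le)
    rw [← Real.exp_add]
    exact Real.exp_le_exp.2 (by linarith)
  have h5 : dx (hd ι) ≤ 0.001 * Real.exp (-(0.1044 * hd ι)) := by
    have h6 := envb_small hv (a := 0.2956) (by norm_num)
    have e : Real.exp (-(0.4 * hd ι)) =
        Real.exp (-(0.2956 * hd ι)) * Real.exp (-(0.1044 * hd ι)) := by
      rw [← Real.exp_add]; congr 1; ring
    rw [dx, e]
    nlinarith
  have h7 : Gx w ≤ 0.755 * Real.exp (-(0.1044 * hd ι)) := by unfold Gx; linarith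
  refine (abs_al_le_Gx hn w).trans ((mul_le_mul_of_nonneg_left h7 (envb_VV hv).le).trans
    (le_of_eq ?_))
  unfold VV al0
  ring

theorem wA_bounds {w : ι → ℝ} (hw : w ∈ AA ι) :
    0.989 ≤ wA w ∧ wA w ≤ Real.exp (al0 (hd ι)) ∧ wA w ≤ 1.011 := by
  have h1 := abs_le.1 (abs_al_le_al0 hn hw)
  have h2 := (al0_le (hd_ge hn)).1
  have h3 : wA w ≤ Real.exp (al0 (hd ι)) := Real.exp_le_exp.2 (by linarith [h1.1])
  have h4 := Real.exp_bound_div_one_sub_of_interval (x := 0.0108) (by norm_num) (by norm_num)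
  refine ⟨?_, h3, h3.trans ((Real.exp_le_exp.2 h2).trans (h4.trans (by norm_num)))⟩
  have := Real.add_one_le_exp (-al w)
  unfold wA
  linarith [h1.2]

theorem abs_ftr_sq_le {φ : ℝ → ℝ} (hφ : Tst ι φ) (w : ι → ℝ) :
    |ftr (fun x : ι → ℝ => rad φ x ^ 2) w| ≤ Nz (rad φ : (ι → ℝ) → ℝ) / 2 * Ev 1 w := by
  have h := abs_ftr_le_Ev hn (hφ.prof.mul hφ.prof) zero_le_one
    (fun ρ hρ => by rw [hφ.zero ρ (by linarith), mul_zero]) w
  have e1 : (rad fun ρ => φ ρ * φ ρ : (ι → ℝ) → ℝ) = fun x => rad φ x ^ 2 := by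
    funext x; simp [rad, sq]
  have e2 : ∫ y : ι → ℝ, |φ (nsq y) * φ (nsq y)| = Nz (rad φ : (ι → ℝ) → ℝ) / 2 := by
    simp only [Nz, rad, sq, abs_mul_self]
    ring
  rwa [e1, e2] at h

theorem abs_PP2_le {φ : ℝ → ℝ} (hφ : Tst ι φ) :
    2 * |PP2 (rad φ : (ι → ℝ) → ℝ)| ≤ mUnit.ev (hd ι) * Nz (rad φ : (ι → ℝ) → ℝ) := by
  have hv := hd_ge hn
  have hl := lb_ge hv
  have ht := envb_t0 hv
  obtain ⟨u1, u2⟩ := envb_unit hv
  have hN : 0 ≤ Nz (rad φ : (ι → ℝ) → ℝ) :=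
    mul_nonneg zero_le_two (integral_nonneg fun y => sq_nonneg _)
  have he := Real.exp_pos (-(0.1305 * hd ι))
  have e : mUnit.ev (hd ι) = 1.376 * lb (hd ι) * Real.exp (-(0.1305 * hd ι)) := by
    simp only [mUnit, Mono.ev]
    norm_num
  generalize hC : Nz (rad φ : (ι → ℝ) → ℝ) = N at hN ⊢
  have h1 : ENNReal.ofReal |PP2 (rad φ : (ι → ℝ) → ℝ)| ≤ ENNReal.ofReal (1.011 * (N / 2)) *
      ENNReal.ofReal (VV (hd ι) * (1.024 * FF (hd ι) (4 / 3 * t0 (hd ι)) + dl (hd ι))) := by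
    rw [← Real.enorm_eq_ofReal_abs]
    refine (enorm_integral_le_lintegral_enorm _).trans (le_trans ?_
      (mul_le_mul_right (envb_int hn (by positivity) u1) _))
    rw [← lintegral_const_mul' _ _ ENNReal.ofReal_ne_top, ← lintegral_indicator measurableSet_AA]
    refine lintegral_mono fun y => ?_
    by_cases hy : y ∈ AA ι
    · obtain ⟨w1, -, w2⟩ := wA_bounds hn hy
      have h2 := (abs_ftr_sq_le hn hφ y).trans
        (mul_le_mul_of_nonneg_left (Ev_one_le_gs hn y) (by rw [hC]; positivity))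
      rw [Set.indicator_of_mem hy, iA, Set.indicator_of_mem hy, Pi.one_apply, one_mul,
        Real.enorm_eq_ofReal_abs, ← ENNReal.ofReal_mul (by positivity), abs_mul,
        abs_of_nonneg (show 0 ≤ wA y by linarith), mul_assoc, ← hC]
      exact ENNReal.ofReal_le_ofReal (mul_le_mul w2 h2 (abs_nonneg _) (by norm_num))
    · rw [Set.indicator_of_notMem hy]
      exact zero_le
  have h3 := mul_le_mul_of_nonneg_left u2 (envb_VV hv).le
  rw [← ENNReal.ofReal_mul (by positivity)] at h1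
  have h4 := (ENNReal.ofReal_le_ofReal_iff (by have := envb_VV hv; positivity)).1 (h1.trans
    (ENNReal.ofReal_le_ofReal (mul_le_mul_of_nonneg_left h3 (by positivity))))
  have h5 : 0 ≤ lb (hd ι) * Real.exp (-(0.1305 * hd ι)) * N := by positivity
  rw [e]
  unfold VV at h4
  linarith

theorem LL_bounds : 0 ≤ LL ι ∧ LL ι ≤ VV (hd ι) * Real.exp (al0 (hd ι)) := by
  refine ⟨integral_nonneg fun y => (Real.exp_pos _).le, (le_abs_self _).trans ?_⟩
  have h := norm_setIntegral_le_of_norm_le_const (μ := volume) (s := AA ι) (f := wA)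
    (C := Real.exp (al0 (hd ι))) (by rw [volume_AA hn]; exact ENNReal.ofReal_lt_top)
    fun x hx => by
      rw [Real.norm_of_nonneg (show 0 ≤ wA x from (Real.exp_pos _).le)]
      exact (wA_bounds hn hx).2.1
  refine h.trans ?_
  rw [mul_comm]
  exact mul_le_mul_of_nonneg_right (envb_vol hn).2 (Real.exp_pos _).le

theorem exp_lA_le : Real.exp (-lA ι) ≤ mE.ev (hd ι) := by
  have e : mE.ev (hd ι) = 1.0001 * Real.exp (-lb (hd ι)) := by
    simp only [mE, Mono.ev]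
    norm_num
  have e2 : -lA ι = lb (hd ι) * (0.8 : ℝ) ^ hd ι + -lb (hd ι) := by
    rw [lA, (envb_vol hn).1, VV]; ring
  rw [e, e2, Real.exp_add]
  exact mul_le_mul_of_nonneg_right (core_small (hd_ge hn)) (Real.exp_pos _).le

theorem one_le_amp : 1 ≤ amp.ev (hd ι) * DD ι := by
  have hv := hd_ge hn
  have hl := lb_ge hv
  have e : amp.ev (hd ι) = Real.exp (0.0125 + 2 * lb (hd ι)) := by
    simp only [amp, Mono.ev]
    norm_num
  have h1 := (envb_vol hn).2
  have h2 := (LL_bounds hn).2.trans (mul_le_mul_of_nonneg_left (exp_al0 hv).1 (envb_VV hv).le)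
  have e2 : VV (hd ι) * (1 + 0.0125 / lb (hd ι)) = 2 * lb (hd ι) + 0.025 := by
    unfold VV; field_simp; norm_num; ring
  rw [e, DD, ← Real.exp_add]
  refine Real.one_le_exp ?_
  rw [e2] at h2
  unfold lA
  unfold VV at h1
  linarith

variable {τ : Type} [Fintype τ] [DecidableEq τ]

theorem measurable_Gam2 : Measurable (Gam2 : Matrix τ ι ℝ → ℝ≥0∞) := by
  exact measurable_fs' _ (measurable_Ev _).ennreal_ofReal

theorem measurable_XG : Measurable (XG : Matrix τ ι ℝ → ℝ≥0∞) := by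
  exact ((measurable_fs' _ (((measurable_gs _).const_mul _).add_const _).ennreal_ofReal).add
    (measurable_fs' _ (measurable_Ev _).ennreal_ofReal)).add_const _

/-- the multiples of the rows -/
theorem fs'_mult_le {U : Matrix τ ι ℝ} (hU : ∀ i, U i ∈ AA ι) :
    fs' (NE τ \ CS τ) (fun w => ENNReal.ofReal (Ev (3 / 4) w)) U ≤
      ENNReal.ofReal (2 * Fintype.card τ * om2 (hd ι)) := by
  have ho : 0 ≤ om2 (hd ι) := by unfold om2; positivity
  have hs : NE τ \ CS τ ⊆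
      Set.range (fun x : τ × ℕ => (Pi.single x.1 ((x.2 + 2 : ℕ) : ℤ) : τ → ℤ)) ∪
      Set.range fun x : τ × ℕ => -(Pi.single x.1 ((x.2 + 2 : ℕ) : ℤ) : τ → ℤ) := fun κ h => by
    obtain ⟨i, g, e | e⟩ := mem_NE_diff h
    · exact Or.inl ⟨(i, g), e.symm⟩
    · exact Or.inr ⟨(i, g), e.symm⟩
  have h1 : ∑' x : τ × ℕ, ENNReal.ofReal (Ev (3 / 4) (lv (Pi.single x.1 ((x.2 + 2 : ℕ) : ℤ)) U)) ≤
      ENNReal.ofReal (Fintype.card τ * om2 (hd ι)) := by
    rw [ENNReal.tsum_prod', tsum_fintype, ENNReal.ofReal_mul (Nat.cast_nonneg _),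
      ENNReal.ofReal_natCast, ← nsmul_eq_mul, ← Finset.card_univ]
    refine Finset.sum_le_card_nsmul _ _ _ fun i _ => ?_
    simp only [envb_lv, Int.cast_natCast]
    exact tsum_Ev_mul_le hn (hU i)
  refine (cs_mono hs _).trans ((cs_union_le _ _ _).trans
    ((add_le_add (envb_range _ _) (envb_range _ _)).trans ?_))
  simp only [lv_neg, Ev_neg]
  refine (add_le_add h1 h1).trans (le_of_eq ?_)
  rw [← ENNReal.ofReal_add (by positivity) (by positivity)]
  congr 1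
  ring

theorem Gam_le {U : Matrix τ ι ℝ} (hU : ∀ i, U i ∈ AA ι) :
    Gam U ≤ Gam2 U + ENNReal.ofReal (Fintype.card τ * g1 (hd ι)) := by
  have ho : 0 ≤ om2 (hd ι) := by unfold om2; positivity
  have ho1 : 0 ≤ om1 (hd ι) := by unfold om1; positivity
  have hs : {κ : τ → ℤ | κ ≠ 0} ⊆ CS τ ∪ (CU τ 1 ∪ NE τ \ CS τ) := fun κ h => by
    by_cases h1 : κ ∈ CS τ
    · exact Or.inl h1
    by_cases h2 : κ ∈ CU τ 1
    · exact Or.inr (Or.inl h2)
    · exact Or.inr (Or.inr ⟨⟨h, h2⟩, h1⟩)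
  have h1 : cs (CU τ 1) (fun κ => ENNReal.ofReal (Ev (3 / 4) (lv κ U))) ≤
      ENNReal.ofReal (Fintype.card τ * (2 * om1 (hd ι))) := by
    rw [cs_CU_one, ENNReal.ofReal_mul (Nat.cast_nonneg _), ENNReal.ofReal_natCast, ← nsmul_eq_mul,
      ← Finset.card_univ]
    refine Finset.sum_le_card_nsmul _ _ _ fun i _ => ?_
    rw [lv_neg, Ev_neg, envb_lv, Int.cast_one, one_smul, two_mul, ENNReal.ofReal_add ho1 ho1]
    have := ENNReal.ofReal_le_ofReal (Ev_le_om1 hn (hU i))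
    exact add_le_add this this
  refine (cs_mono hs _).trans ((cs_union_le _ _ _).trans (add_le_add le_rfl
    ((cs_union_le _ _ _).trans ((add_le_add h1 (fs'_mult_le hn hU)).trans ?_))))
  rw [← ENNReal.ofReal_add (by positivity) (by positivity)]
  refine ENNReal.ofReal_le_ofReal ?_
  have := mul_le_mul_of_nonneg_left (om_le_g1 (hd_ge hn))
    (Nat.cast_nonneg (α := ℝ) (Fintype.card τ))
  linarith

theorem Gam_ne_top [DecidableEq ι] (hb : Fintype.card τ ≤ KK ι) {U : Matrix τ ι ℝ}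
    (hU : LinearIndependent ℝ fun i => U i) : Gam U ≠ ∞ := by
  have hv := hd_ge hn
  have hv0 : 0 < hd ι := by linarith
  have hr := rr_pos hv
  have ht : 0 < th (hd ι) := lt_of_lt_of_le (by norm_num) (th_ge hv)
  obtain ⟨c, hc, h⟩ := envb_coer hU
  have hb' : (Fintype.card τ : ℝ) ≤ hd ι / 3 := (Nat.cast_le.2 hb).trans KK_le
  have hs := (ana_summable_rpow (g := (1 : Matrix τ τ ℝ)) (by simp) (σ := 0.45 * hd ι)
    (by linarith)).mul_left (4.14 * (0.45 * hd ι /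
      (Real.exp 1 * (th (hd ι) ^ 2 * (3 / 4) * (hd ι * c / rr (hd ι))))) ^ (0.45 * hd ι))
  refine ne_top_of_le_ne_top hs.tsum_ofReal_ne_top (ENNReal.tsum_le_tsum fun κ => ?_)
  have h1 : 0 < nsq (cv κ.1) := lt_of_lt_of_le one_pos (ana_one_le κ.2)
  have h2 : th (hd ι) ^ 2 * (3 / 4) * (hd ι * c / rr (hd ι)) * nsq (cv κ.1) ≤
      th (hd ι) ^ 2 * (3 / 4) * nx (lv κ.1 U) := by
    rw [mul_assoc _ _ (nsq _), nx, div_mul_eq_mul_div, mul_assoc (hd ι)]
    gcongr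
    exact h _
  refine ENNReal.ofReal_le_ofReal ((Env_anti hv (by positivity) h2).trans
    ((Env_le_pow hv (by positivity)).trans (le_of_eq ?_)))
  rw [lv, Matrix.vecMul_one, Real.rpow_neg h1.le, ← Real.inv_rpow h1.le, mul_assoc 4.14,
    ← Real.mul_rpow (by positivity) (by positivity)]
  congr 2
  field_simp

omit hn [Fintype τ] [DecidableEq τ] in
/-- sums over the combinations of a signed sub-tuple -/
theorem envb_sub {a b : ℕ} {f : Fin b → Fin a} (hf : Function.Injective f) (ε : Fin b → ℤˣ)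
    (U : Matrix (Fin a) ι ℝ) (F : (ι → ℝ) → ℝ≥0∞) :
    fs' (CS (Fin b)) F (Matrix.of fun i => (((ε i : ℤˣ) : ℤ) : ℝ) • U (f i)) ≤
      fs' (CS (Fin a)) F U := by
  have hs : ∀ κ : CS (Fin b),
      Function.extend f (fun i => ((ε i : ℤˣ) : ℤ) * κ.1 i) 0 ∈ CS (Fin a) := fun κ => by
    refine le_trans (show 2 ≤ spt κ.1 from κ.2) (Finset.card_le_card_of_injOn f
      (fun i hi => ?_) hf.injOn)
    simp only [Finset.coe_filter, Finset.mem_univ, true_and, Set.mem_ofPred_eq] at hi ⊢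
    rw [hf.extend_apply]
    exact mul_ne_zero (ε i).ne_zero hi
  have hi : Function.Injective fun κ => (⟨_, hs κ⟩ : CS (Fin a)) := fun κ κ' e => by
    refine Subtype.ext (funext fun i => ?_)
    have h1 := congrFun (congrArg Subtype.val e) (f i)
    simp only [hf.extend_apply] at h1
    exact mul_left_cancel₀ (ε i).ne_zero h1
  have h := ENNReal.tsum_comp_le_tsum_of_injective hi fun κ => F (lv κ.1 U)
  refine le_trans (le_of_eq (tsum_congr fun κ => congrArg F (funext fun x => ?_))) h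
  simp only [lv, Matrix.vecMul, dotProduct, cv]
  refine Fintype.sum_of_injective f hf _ _ (fun j hj => ?_) fun i => ?_
  · rw [Function.extend_apply' _ _ _ hj]
    simp
  · rw [hf.extend_apply]
    simp [mul_assoc, mul_left_comm]

theorem her_nice [DecidableEq ι] :
    Her (fun (a : ℕ) (U : Matrix (Fin a) ι ℝ) => nice U) := by
  refine ⟨fun U => ?_, fun a b f ε U hf h => le_trans (envb_sub hf ε U _) h, fun a =>
    measurableSet_le (measurable_Gam2 hn) measurable_const⟩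
  have : IsEmpty (CS (Fin 0)) := ⟨fun κ => by simpa [CS, spt] using κ.2⟩
  simp [nice, Gam2, fs', cs]

end Pool.Agent.Eps.P
end
end

-- part Pool.Agent.Lib.MP_3bda03_nt.P.CondG
section

/-!
Summation formula on the layers and the bounds for the layer measure.
-/

set_option autoImplicit false
set_option linter.unusedSectionVars false

noncomputable section

open MeasureTheory Matrix
open scoped ENNReal

namespace Pool.Agent.Eps.P

open Pool.Agent.Eps.H

variable {α β ι : Type} [Fintype α] [DecidableEq α] [Fintype β] [DecidableEq β] [Fintype ι]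
  [DecidableEq ι] (e : α ⊕ β ≃ ι)

theorem condG_split (f : (α → ℤ) → ℝ≥0∞) : ∑' κ, f κ = f 0 + cs {κ | κ ≠ 0} f := by
  rw [ENNReal.tsum_eq_add_tsum_ite 0, cs, tsum_subtype]
  congr 1
  refine tsum_congr fun κ => ?_
  by_cases h : κ = 0 <;> simp [h]

theorem condG_sum {X : Matrix α ι ℝ} {f : (ι → ℝ) → ℝ} {c0 c ξ : ℝ} (hc : 0 ≤ c) (hξ : 0 ≤ ξ)
    (h0 : |f 0| ≤ c0) (h : ∀ w, |f w| ≤ c * Ev (3 / 4) w) (hG : Gam X ≤ ENNReal.ofReal ξ) :
    ∑' κ : α → ℤ, ENNReal.ofReal |f (lv κ X)| ≤ ENNReal.ofReal (c0 + c * ξ) := by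
  rw [condG_split, lv_zero, ENNReal.ofReal_add ((abs_nonneg _).trans h0) (mul_nonneg hc hξ),
    ENNReal.ofReal_mul hc]
  refine add_le_add (ENNReal.ofReal_le_ofReal h0) (le_trans ?_ (mul_le_mul_right hG _))
  unfold Gam fs' cs
  rw [← ENNReal.tsum_mul_left]
  refine ENNReal.tsum_le_tsum fun κ => ?_
  rw [← ENNReal.ofReal_mul hc]
  exact ENNReal.ofReal_le_ofReal (h _)

theorem condG_summable {A : Type} {f : A → ℝ} (h : ∑' a, ENNReal.ofReal |f a| ≠ ∞) :
    Summable fun a => |f a| :=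
  (ENNReal.summable_toReal h).congr fun _ => ENNReal.toReal_ofReal (abs_nonneg _)

theorem condG_meas {φ : ℝ → ℝ} (hφ : Prof φ) : Measurable (rad φ : (ι → ℝ) → ℝ) :=
  hφ.meas.comp measurable_nsq

theorem condG_lam (X : Matrix α ι ℝ) {φ : ℝ → ℝ} (h0 : ∀ ρ, 0 ≤ φ ρ) (ξ : α → ℝ) :
    0 ≤ lam e X (fun y => φ (nsq y)) ξ :=
  integral_nonneg fun _ => h0 _

theorem condG_prof {c : ℝ} (hc : 0 < c) : Prof fun ρ => Real.exp (-c * ρ) := by
  have h : Continuous fun ρ : ℝ => Real.exp (-c * ρ) := by fun_prop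
  refine ⟨h.measurable, ?_, 1, c, hc, fun ρ _ => ?_⟩
  · exact Set.countable_empty.mono fun ρ k => k h.continuousAt
  · rw [abs_of_pos (Real.exp_pos _), one_mul]

theorem condG_ann (s : ℝ) (y : ι → ℝ) :
    rad ((Set.Ico (0.8 * rr (hd ι)) (rr (hd ι))).indicator
      fun ρ => Real.exp (-(s * (hd ι * ρ / rr (hd ι))))) y = (AA ι).indicator (gs s) y := by
  by_cases h : y ∈ AA ι
  · rw [Set.indicator_of_mem h]
    exact Set.indicator_of_mem (s := Set.Ico _ _) h _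
  · rw [Set.indicator_of_notMem h]
    exact Set.indicator_of_notMem (s := Set.Ico _ _) h _

variable [Nonempty β] {X : Matrix α ι ℝ} (hX : (blk e X).det ≠ 0)
include hX

theorem condG_surj (z : ι → ℝ) : ∃ ξ z', z = layer e X ξ z' := by
  have h : IsUnit (dual (HX e X)).det := by
    rw [det_dual]
    exact (fr_unit e hX).inv
  refine ⟨fun a => (z ᵥ* (dual (HX e X))⁻¹) (e (Sum.inl a)),
    fun b => (z ᵥ* (dual (HX e X))⁻¹) (e (Sum.inr b)), ?_⟩
  have h1 : (fun i => Sum.elim (fun a => (z ᵥ* (dual (HX e X))⁻¹) (e (Sum.inl a)))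
      (fun b => (z ᵥ* (dual (HX e X))⁻¹) (e (Sum.inr b))) (e.symm i)) =
      z ᵥ* (dual (HX e X))⁻¹ := funext fun i => by
    obtain ⟨s, rfl⟩ := e.surjective i
    cases s <;> simp
  rw [layer, h1, Matrix.vecMul_vecMul, Matrix.nonsing_inv_mul _ h, Matrix.vecMul_one]

theorem condG_shift {φ : ℝ → ℝ} (hφ : Prof φ) (h0 : ∀ ρ, 0 ≤ φ ρ) (ξ : α → ℝ) (z : β → ℝ) :
    ∫⁻ y, ENNReal.ofReal (rad φ (y + layer e X ξ z)) ∂Lam e X =
      ENNReal.ofReal (∑' m : α → ℤ, lam e X (fun y => φ (nsq y)) (ξ + cv m)) := by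
  have hm : Measurable fun y : ι → ℝ => ENNReal.ofReal (rad φ (y + layer e X ξ z)) :=
    (fr_mc (condG_meas hφ) (measurable_add_const _)).ennreal_ofReal
  rw [lintegral_Lam e X hm, ENNReal.ofReal_tsum_of_nonneg
    (fun m => condG_lam e X h0 _) (summable_lam e hX hφ ξ)]
  refine tsum_congr fun m => ?_
  rw [lam, ofReal_integral_eq_lintegral_ofReal (integrable_layer e hX hφ _)
    (ae_of_all _ fun _ => h0 _)]
  refine Eq.trans (lintegral_congr fun z' => ?_) (lintegral_add_right_eq_self _ z)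
  rw [← layer_add, add_comm ξ]
  rfl

theorem lam_poisson {φ : ℝ → ℝ} (hφ : Prof φ) (h0 : ∀ ρ, 0 ≤ φ ρ)
    (hs : Summable fun κ : α → ℤ => |ftr (rad φ) (lv κ X)|) :
    ∫⁻ y, ENNReal.ofReal (rad φ y) ∂Lam e X ≠ ∞ ∧
    HasSum (fun κ : α → ℤ => ftr (rad φ) (lv κ X))
      (∫⁻ y, ENNReal.ofReal (rad φ y) ∂Lam e X).toReal := by
  have h1 := condG_shift e hX hφ h0 0 0
  have h2 : layer e X 0 0 = 0 := by
    have := layer_smul e X 0 0 0
    simpa using this
  simp only [h2, add_zero] at h1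
  rw [h1]
  refine ⟨ENNReal.ofReal_ne_top, ?_⟩
  rw [ENNReal.toReal_ofReal (tsum_nonneg fun m => condG_lam e X h0 _)]
  have h3 := layer_poisson e hX hφ hs 0
  simp only [dotProduct_zero, mul_zero, Real.cos_zero, mul_one] at h3
  exact h3

theorem lam_poisson_le {φ : ℝ → ℝ} (hφ : Prof φ) (h0 : ∀ ρ, 0 ≤ φ ρ) (z : ι → ℝ) :
    ∫⁻ y, ENNReal.ofReal (rad φ (y + z)) ∂Lam e X ≤
      ∑' κ : α → ℤ, ENNReal.ofReal |ftr (rad φ) (lv κ X)| := by
  by_cases h : ∑' κ : α → ℤ, ENNReal.ofReal |ftr (rad φ) (lv κ X)| = ∞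
  · rw [h]
    exact le_top
  have hs := condG_summable h
  obtain ⟨ξ, z, rfl⟩ := condG_surj e hX z
  rw [condG_shift e hX hφ h0, ← ENNReal.ofReal_tsum_of_nonneg (fun _ => abs_nonneg _) hs]
  refine ENNReal.ofReal_le_ofReal (hasSum_le (fun κ => ?_) (layer_poisson e hX hφ hs ξ) hs.hasSum)
  refine (le_abs_self _).trans ?_
  rw [abs_mul]
  exact mul_le_of_le_one_right (abs_nonneg _) (Real.abs_cos_le_one _)

theorem condG_gauss (hn : 97 ≤ Fintype.card ι) (hb : Fintype.card α ≤ KK ι) {ξ : ℝ} (hξ : 0 ≤ ξ)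
    (hG : Gam X ≤ ENNReal.ofReal ξ) {t : ℝ} (ht : 0 < t) (z : ι → ℝ) :
    ∫⁻ y, Gs t (y + z) ∂Lam e X ≤ ENNReal.ofReal
      ((1 + ξ) * (th (hd ι) / t) ^ hd ι * (max 1 (3 * t / 4)) ^ (hd ι / 6)) := by
  have hv := hd_ge hn
  have hr := rr_pos hv
  have hth : 0 < th (hd ι) := lt_of_lt_of_le (by norm_num) (th_ge hv)
  have hc : 0 < t * hd ι / rr (hd ι) := by
    have : 0 < hd ι := by linarith
    positivity
  have h1 : (rad fun ρ => Real.exp (-(t * hd ι / rr (hd ι)) * ρ)) = (gs t : (ι → ℝ) → ℝ) := by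
    funext y
    exact congrArg Real.exp (by unfold nx; ring)
  have h2 := lam_poisson_le e hX (condG_prof hc) (fun _ => (Real.exp_pos _).le) z
  rw [h1] at h2
  refine le_trans h2 ?_
  have hp : 0 ≤ (th (hd ι) / t) ^ hd ι := by positivity
  have h3 : ∀ w : ι → ℝ, ENNReal.ofReal |ftr (gs t) w| =
      ENNReal.ofReal ((th (hd ι) / t) ^ hd ι) * Gs (th (hd ι) ^ 2 / t) w := fun w => by
    have k : 0 ≤ gs (th (hd ι) ^ 2 / t) w := (Real.exp_pos _).le
    rw [ftr_gs hn ht, abs_of_nonneg (mul_nonneg hp k), ENNReal.ofReal_mul hp]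
    rfl
  simp only [h3]
  rw [ENNReal.tsum_mul_left]
  have hs : 0 < th (hd ι) ^ 2 / t := by positivity
  have h4 := vth_scale hn (li_of_blk e hX) hs
    (le_mul_of_one_le_left hs.le (le_max_left 1 (3 * t / 4)))
  rw [mul_div_assoc, div_self hs.ne', mul_one] at h4
  have h5 : vth (max 1 (3 * t / 4) * (th (hd ι) ^ 2 / t)) X ≤ ENNReal.ofReal (1 + ξ) := by
    rw [vth_eq, ENNReal.ofReal_add zero_le_one hξ, ENNReal.ofReal_one]
    refine add_le_add_right (le_trans ?_ hG) _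
    refine ENNReal.tsum_le_tsum fun κ => ENNReal.ofReal_le_ofReal (gs_le_Ev hn ?_ _)
    refine le_trans (le_of_eq ?_) (mul_le_mul_of_nonneg_right (le_max_right _ _) hs.le)
    field_simp
  have h6 : max 1 (3 * t / 4) ^ ((Fintype.card α : ℝ) / 2) ≤ max 1 (3 * t / 4) ^ (hd ι / 6) := by
    refine Real.rpow_le_rpow_of_exponent_le (le_max_left _ _) ?_
    have k1 : (Fintype.card α : ℝ) ≤ KK ι := Nat.cast_le.2 hb
    have k2 := KK_le (ι := ι)
    linarith
  refine (mul_le_mul_right (h4.trans (mul_le_mul' (ENNReal.ofReal_le_ofReal h6) h5)) _).trans ?_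
  rw [← ENNReal.ofReal_mul (by positivity), ← ENNReal.ofReal_mul hp]
  exact le_of_eq (congrArg _ (by ring))

theorem condG_rad (hn : 97 ≤ Fintype.card ι) {ξ : ℝ} (hξ : 0 ≤ ξ)
    (hG : Gam X ≤ ENNReal.ofReal ξ) {s : ℝ} (h0 : 0 ≤ s) (h1 : s < 1) :
    ∫⁻ y, iA y * Gs s y ∂Lam e X ≤ ENNReal.ofReal ((1 + ξ) * VV (hd ι) * FF (hd ι) s) := by
  have hφ := prof_ann hn s
  set φ : ℝ → ℝ := (Set.Ico (0.8 * rr (hd ι)) (rr (hd ι))).indicator
    fun ρ => Real.exp (-(s * (hd ι * ρ / rr (hd ι)))) with hdef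
  have hp : ∀ ρ, 0 ≤ φ ρ := fun ρ => Set.indicator_nonneg (fun _ _ => (Real.exp_pos _).le) _
  have h2 : ∀ y : ι → ℝ, ENNReal.ofReal (rad φ y) = iA y * Gs s y := fun y => by
    rw [hdef, condG_ann]
    by_cases h : y ∈ AA ι <;> simp [iA, Gs, h]
  have h3 := lam_poisson_le e hX hφ hp 0
  simp only [add_zero, h2] at h3
  have hI : ∫ y : ι → ℝ, |φ (nsq y)| = ∫ y : ι → ℝ, rad φ y :=
    integral_congr_ae (ae_of_all _ fun y => abs_of_nonneg (hp _))
  have hI0 : 0 ≤ ∫ y : ι → ℝ, rad φ y := integral_nonneg fun y => hp _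
  have h4 := condG_sum (f := ftr (rad φ)) (c0 := ∫ y : ι → ℝ, rad φ y) hI0 hξ
    (by rw [ftr_zero, abs_of_nonneg hI0]) (fun w => by
      have k := abs_ftr_le_Ev hn hφ (u := 0.8) (by norm_num)
        (fun ρ hρ => Set.indicator_of_notMem (fun h => absurd h.1 (not_le.2 hρ)) _) w
      rw [hI] at k
      exact k.trans (mul_le_mul_of_nonneg_left
        (Ev_anti hn (by norm_num) (by norm_num) w) hI0)) hG
  refine (h3.trans h4).trans ?_
  have h5 : ENNReal.ofReal (∫ y : ι → ℝ, rad φ y) ≤ ENNReal.ofReal (VV (hd ι) * FF (hd ι) s) := by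
    rw [ofReal_integral_eq_lintegral_ofReal (f := rad φ) hφ.integrable (ae_of_all _ fun y => hp _)]
    refine le_trans (lintegral_mono fun y => ?_) (lintegral_iB_Gs hn h0 h1)
    exact (h2 y).le.trans (mul_le_mul_left (iA_le_iB y) _)
  rw [mul_assoc, ENNReal.ofReal_mul (by linarith), ← mul_one_add, mul_comm,
    ENNReal.ofReal_mul (by linarith)]
  exact mul_le_mul_right h5 _

theorem condG_lens (hn : 97 ≤ Fintype.card ι) {ξ : ℝ} (hξ : 0 ≤ ξ)
    (hG : Gam X ≤ ENNReal.ofReal ξ) {u : ι → ℝ} (hu : u ∈ AA ι) :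
    ∫⁻ y, iB y * iB (y + u) ∂Lam e X ≤
      ENNReal.ofReal ((1 + ξ) ^ 2 * VV (hd ι) * eL (hd ι) 1) * Gs (1 / 3) u := by
  set ρ := rr (hd ι) - nsq u / 4 with hρ
  have h1 : 3 / 4 * rr (hd ι) ≤ ρ := by
    have := hu.2
    linarith
  have hφ := prof_Iio hn ρ
  have hp : ∀ x, 0 ≤ (Set.Iio ρ).indicator (1 : ℝ → ℝ) x := fun x =>
    Set.indicator_nonneg (fun _ _ => zero_le_one) _
  have h2 := lam_poisson_le e hX hφ hp ((1 / 2 : ℝ) • u)
  have h3 := lens_vol hn (x := 1) zero_le_one (by norm_num) u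
  rw [← hρ, show (1 : ℝ) / (4 - 1) = 1 / 3 by norm_num] at h3
  have hfin : volume {y : ι → ℝ | nsq y < ρ} ≠ ∞ :=
    ne_top_of_le_ne_top (ENNReal.mul_ne_top ENNReal.ofReal_ne_top ENNReal.ofReal_ne_top) h3
  set W := (volume {y : ι → ℝ | nsq y < ρ}).toReal with hW
  have hW0 : 0 ≤ W := ENNReal.toReal_nonneg
  have hms : MeasurableSet {y : ι → ℝ | nsq y < ρ} :=
    measurableSet_lt measurable_nsq measurable_const
  have h4 := condG_sum (f := ftr (rad ((Set.Iio ρ).indicator 1))) (c0 := W) (c := 2 * W)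
    (by positivity) hξ (by
      have k : (rad ((Set.Iio ρ).indicator 1) : (ι → ℝ) → ℝ) =
          {y : ι → ℝ | nsq y < ρ}.indicator 1 := funext fun y => by
        by_cases h : nsq y < ρ <;> simp [rad, h]
      rw [ftr_zero, k, integral_indicator_one hms, abs_of_nonneg measureReal_nonneg]
      exact le_rfl) (abs_ftr_ball_le hn h1) hG
  have h5 : ENNReal.ofReal (W + 2 * W * ξ) ≤ ENNReal.ofReal ((1 + ξ) ^ 2) * ENNReal.ofReal W := by
    rw [← ENNReal.ofReal_mul (by positivity)]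
    exact ENNReal.ofReal_le_ofReal (by nlinarith [mul_nonneg hW0 (sq_nonneg ξ)])
  rw [hW, ENNReal.ofReal_toReal hfin] at h5
  refine le_trans (lintegral_mono fun y => ?_) ((h2.trans (h4.trans h5)).trans ?_)
  · by_cases k1 : y ∈ BB ι
    · by_cases k2 : y + u ∈ BB ι
      · have := lens_subset hn u y k1 k2
        rw [rad, Set.indicator_of_mem (s := Set.Iio ρ) this]
        simp [iB, k1, k2]
      · simp [iB, k2]
    · simp [iB, k1]
  · rw [mul_assoc, ENNReal.ofReal_mul (by positivity), mul_assoc]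
    exact mul_le_mul_right h3 _

theorem condG_lo (hn : 97 ≤ Fintype.card ι) {ξ : ℝ} (hξ : 0 ≤ ξ)
    (hG : Gam X ≤ ENNReal.ofReal ξ) :
    ENNReal.ofReal (1 - ξ) * volume (AA ι) ≤ Lam e X (AA ι) := by
  have hφ := prof_ann hn 0
  set φ : ℝ → ℝ := (Set.Ico (0.8 * rr (hd ι)) (rr (hd ι))).indicator
    fun ρ => Real.exp (-(0 * (hd ι * ρ / rr (hd ι)))) with hdef
  have hp : ∀ ρ, 0 ≤ φ ρ := fun ρ => Set.indicator_nonneg (fun _ _ => (Real.exp_pos _).le) _
  have h1 : (rad φ : (ι → ℝ) → ℝ) = (AA ι).indicator 1 := funext fun y => by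
    rw [hdef, condG_ann]
    by_cases h : y ∈ AA ι <;> simp [gs, h]
  have hfin : volume (AA ι) ≠ ∞ := by
    rw [volume_AA hn]
    exact ENNReal.ofReal_ne_top
  set W := (volume (AA ι)).toReal with hW
  have hW0 : 0 ≤ W := ENNReal.toReal_nonneg
  have h2 : al (0 : ι → ℝ) = W := by
    rw [al, ftr_zero, integral_indicator_one measurableSet_AA]
    rfl
  have h3 := condG_sum (f := al) (c0 := W) hW0 hξ (by rw [h2, abs_of_nonneg hW0])
    (abs_al_le_Ev hn) hG
  have hs := condG_summable (ne_top_of_le_ne_top ENNReal.ofReal_ne_top h3)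
  rw [← ENNReal.ofReal_tsum_of_nonneg (fun _ => abs_nonneg _) hs,
    ENNReal.ofReal_le_ofReal_iff (by positivity)] at h3
  have h4 := lam_poisson e hX hφ hp (by rw [h1]; exact hs)
  have h5 : ∫⁻ y, ENNReal.ofReal (rad φ y) ∂Lam e X = Lam e X (AA ι) := by
    rw [← lintegral_indicator_one measurableSet_AA, h1]
    refine lintegral_congr fun y => ?_
    by_cases h : y ∈ AA ι <;> simp [h]
  rw [h5, h1] at h4
  have h6 := le_hasSum (h4.2.add hs.hasSum) 0 fun κ _ => by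
    have := neg_abs_le (al (lv κ X))
    change 0 ≤ al (lv κ X) + |al (lv κ X)|
    linarith
  change al (lv 0 X) + |al (lv 0 X)| ≤ _ at h6
  rw [lv_zero, h2, abs_of_nonneg hW0] at h6
  rw [← ENNReal.ofReal_toReal hfin, ← ENNReal.ofReal_toReal h4.1, mul_comm,
    ← ENNReal.ofReal_mul hW0]
  exact ENNReal.ofReal_le_ofReal (by linarith)

theorem good_cond (hn : 97 ≤ Fintype.card ι) (hb : Fintype.card α ≤ KK ι) {ξ : ℝ} (hξ : 0 ≤ ξ)
    (hG : Gam X ≤ ENNReal.ofReal ξ) : Good (Lam e X) ξ :=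
  ⟨hξ, fun _ ht => condG_gauss e hX hn hb hξ hG ht, fun _ => condG_rad e hX hn hξ hG,
    fun _ => condG_lens e hX hn hξ hG, condG_lo e hX hn hξ hG⟩

end Pool.Agent.Eps.P
end
end

-- part Pool.Agent.Lib.MP_3bda03_nt.P.Pt1
section

/-!
The moments of the layer measure of one frame.
-/

set_option autoImplicit false
set_option linter.unusedSectionVars false

noncomputable section

open MeasureTheory Matrix
open scoped ENNReal

namespace Pool.Agent.Eps.P

open Pool.Agent.Eps.H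

variable {α β ι : Type} [Fintype α] [DecidableEq α] [Fintype β] [DecidableEq β] [Fintype ι]
  [DecidableEq ι] (e : α ⊕ β ≃ ι) {φ : ℝ → ℝ}

/-- half the mass of the annulus -/
def xV (X : Matrix α ι ℝ) : ℝ := (Lam e X (AA ι)).toReal / 2

/-- the centred mean -/
def sV (h : (ι → ℝ) → ℝ) (m : ℝ) (X : Matrix α ι ℝ) : ℝ :=
  (m1 (Lam e X) h).toReal - (ctr h - m)

/-- the noise -/
def NV (h : (ι → ℝ) → ℝ) (X : Matrix α ι ℝ) : ℝ := (NN (Lam e X) h).toReal

include e in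
theorem card_beta : Fintype.card β = Fintype.card ι - Fintype.card α := by
  rw [fr_card e]
  omega

theorem pt1_split {f : (α → ℤ) → ℝ} {S : ℝ} (h : HasSum f S) (he : ∀ κ, f (-κ) = f κ) :
    ∃ r : ℝ, S = f 0 + 2 * ∑ i, f (Pi.single i 1) + r ∧
      ENNReal.ofReal |r| ≤ cs (NE α) fun κ => ENNReal.ofReal |f κ| := by
  let j : Option (α ⊕ α) → α → ℤ := fun o =>
    o.elim 0 (Sum.elim (fun i => Pi.single i 1) fun i => -Pi.single i 1)
  have hj : Function.Injective j := by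
    rintro (_ | a | a) (_ | b | b) k
    · rfl
    · simpa [j] using congrFun k b
    · simpa [j] using congrFun k b
    · simpa [j] using congrFun k a
    · have := congrFun k a
      by_cases hab : a = b
      · rw [hab]
      · simp [j, hab] at this
    · have := congrFun k a
      by_cases hab : a = b <;> simp [j, hab] at this
    · simpa [j] using congrFun k a
    · have := congrFun k a
      by_cases hab : a = b <;> simp [j, hab] at this
    · have := congrFun k a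
      by_cases hab : a = b
      · rw [hab]
      · simp [j, hab] at this
  have hr : (NE α)ᶜ = Set.range j := by
    ext κ
    simp only [NE, Set.mem_compl_iff, Set.mem_ofPred_eq, not_and_or, not_not, mem_CU_one]
    constructor
    · rintro (rfl | ⟨i, rfl | rfl⟩)
      · exact ⟨none, rfl⟩
      · exact ⟨some (Sum.inl i), rfl⟩
      · exact ⟨some (Sum.inr i), rfl⟩
    · rintro ⟨_ | i | i, rfl⟩
      · exact Or.inl rfl
      · exact Or.inr ⟨i, Or.inl rfl⟩
      · exact Or.inr ⟨i, Or.inr rfl⟩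
  have h1 := Summable.tsum_add_tsum_compl (f := f) (s := NE α) (h.summable.subtype _)
    (h.summable.subtype _)
  refine ⟨∑' κ : NE α, f κ, ?_, ?_⟩
  · rw [hr, tsum_range f hj, tsum_fintype fun o => f (j o), Fintype.sum_option, Fintype.sum_sum_type,
      h.tsum_eq] at h1
    simp only [j, Option.elim, Sum.elim_inl, Sum.elim_inr, he] at h1
    linarith
  · have h2 : Summable fun κ : NE α => |f κ| := (h.summable.subtype _).abs
    rw [cs, ← ENNReal.ofReal_tsum_of_nonneg (fun _ => abs_nonneg _) h2]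
    have h3 := norm_tsum_le_tsum_norm (f := fun κ : NE α => f κ) (by simpa only [Real.norm_eq_abs])
    simp only [Real.norm_eq_abs] at h3
    exact ENNReal.ofReal_le_ofReal h3

theorem pt1_lv_single (X : Matrix α ι ℝ) (i : α) : lv (Pi.single i 1) X = X i := by
  have : cv (Pi.single i 1 : α → ℤ) = Pi.single i 1 := funext fun a => by
    by_cases h : a = i <;> simp [cv, h]
  rw [lv, this, Matrix.single_one_vecMul]
  rfl

theorem pt1_mul {S : Set (α → ℤ)} {X : Matrix α ι ℝ} {f g : (ι → ℝ) → ℝ} {c : ℝ} (hc : 0 ≤ c)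
    (h : ∀ w, |f w| ≤ c * g w) : (cs S fun κ => ENNReal.ofReal |f (lv κ X)|) ≤
      ENNReal.ofReal c * fs' S (fun w => ENNReal.ofReal (g w)) X := by
  unfold fs' cs
  rw [← ENNReal.tsum_mul_left]
  refine ENNReal.tsum_le_tsum fun κ => ?_
  rw [← ENNReal.ofReal_mul hc]
  exact ENNReal.ofReal_le_ofReal (h _)

theorem pt1_CS_ne {κ : α → ℤ} (h : κ ∈ CS α) : κ ≠ 0 := (CS_subset h).1

theorem pt1_om2 (v : ℝ) : 0 ≤ om2 v := by
  unfold om2
  positivity

theorem pt1_Nz (h : (ι → ℝ) → ℝ) : 0 ≤ Nz h :=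
  mul_nonneg zero_le_two (integral_nonneg fun _ => sq_nonneg _)

variable (hn : 97 ≤ Fintype.card ι) (hb : Fintype.card α ≤ KK ι) {X : Matrix α ι ℝ}
  (hX : (blk e X).det ≠ 0) (hA : ∀ i, X i ∈ AA ι)
include hn hb hX hA

theorem pt1_ne : Nonempty β := by
  have := card_beta e
  unfold KK at hb
  exact Fintype.card_pos_iff.1 (by omega)

theorem pt1_Gam : Gam X ≠ ∞ := by
  have := pt1_ne e hn hb hX hA
  exact Gam_ne_top hn hb (li_of_blk e hX)

theorem pt1_cover {f : (ι → ℝ) → ℝ} {c : ℝ} (hc : 0 ≤ c) (h2 : ∀ w, |f w| ≤ c * Ev (3 / 4) w) :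
    (cs (NE α) fun κ => ENNReal.ofReal |f (lv κ X)|) ≤ ENNReal.ofReal c *
      (Gam2 X + ENNReal.ofReal (2 * Fintype.card α * om2 (hd ι))) ∧
    ((∀ w, |f w| ≤ c * Gx w) →
      (cs (NE α) fun κ => ENNReal.ofReal |f (lv κ X)|) ≤ ENNReal.ofReal c * XG X) := by
  have k1 : (cs (NE α) fun κ => ENNReal.ofReal |f (lv κ X)|) ≤
      (cs (CS α) fun κ => ENNReal.ofReal |f (lv κ X)|) +
        ENNReal.ofReal c * ENNReal.ofReal (2 * Fintype.card α * om2 (hd ι)) := by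
    refine (cs_mono (T := CS α ∪ (NE α \ CS α)) (fun κ hκ => ?_) _).trans
      ((cs_union_le _ _ _).trans (add_le_add_right ((pt1_mul hc h2).trans
        (mul_le_mul_right (fs'_mult_le hn hA) _)) _))
    by_cases k : κ ∈ CS α
    · exact Or.inl k
    · exact Or.inr ⟨hκ, k⟩
  refine ⟨k1.trans ?_, fun h1 => k1.trans ?_⟩
  · rw [mul_add]
    exact add_le_add_left (pt1_mul hc h2) _
  · rw [XG, mul_add, mul_add]
    refine add_le_add_left ((cs_mono (T := CU α 2 ∪ (CS α \ CU α 2)) (fun κ hκ => ?_) _).trans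
      ((cs_union_le _ _ _).trans (add_le_add (pt1_mul hc h1) (pt1_mul hc h2)))) _
    by_cases k : κ ∈ CU α 2
    · exact Or.inl k
    · exact Or.inr ⟨hκ, k⟩

theorem pt1_sum {f : (ι → ℝ) → ℝ} {c : ℝ} (hc : 0 ≤ c) (h0 : |f 0| ≤ c)
    (h : ∀ w, |f w| ≤ c * Ev (3 / 4) w) :
    ∑' κ : α → ℤ, ENNReal.ofReal |f (lv κ X)| ≤ ENNReal.ofReal c * (1 + Gam X) := by
  have hG := pt1_Gam e hn hb hX hA
  refine (condG_sum hc ENNReal.toReal_nonneg h0 h (ENNReal.ofReal_toReal hG).ge).trans_eq ?_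
  rw [← mul_one_add, ENNReal.ofReal_mul hc, ENNReal.ofReal_add zero_le_one ENNReal.toReal_nonneg,
    ENNReal.ofReal_one, ENNReal.ofReal_toReal hG]

/-- the summation formula with the signed basis vectors taken out -/
theorem pt1_poisson {ψ : ℝ → ℝ} (hψ : Prof ψ) (h0 : ∀ ρ, 0 ≤ ψ ρ)
    (h : ∀ w : ι → ℝ, |ftr (rad ψ) w| ≤ (∫ y : ι → ℝ, rad ψ y) * Ev (3 / 4) w) :
    ∫⁻ y, ENNReal.ofReal (rad ψ y) ∂Lam e X ≤
      ENNReal.ofReal (∫ y : ι → ℝ, rad ψ y) * (1 + Gam X) ∧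
    ∃ r : ℝ, (∫⁻ y, ENNReal.ofReal (rad ψ y) ∂Lam e X).toReal =
        (∫ y : ι → ℝ, rad ψ y) + 2 * ∑ i, ftr (rad ψ) (X i) + r ∧
      ENNReal.ofReal |r| ≤ cs (NE α) fun κ => ENNReal.ofReal |ftr (rad ψ) (lv κ X)| := by
  have := pt1_ne e hn hb hX hA
  have hI : 0 ≤ ∫ y : ι → ℝ, rad ψ y := integral_nonneg fun _ => h0 _
  have h1 := pt1_sum e hn hb hX hA hI (by rw [ftr_zero, abs_of_nonneg hI]) h
  have h2 := lam_poisson_le e hX hψ h0 0
  simp only [add_zero] at h2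
  refine ⟨h2.trans h1, ?_⟩
  have h3 := lam_poisson e hX hψ h0 (condG_summable (ne_top_of_le_ne_top
    (ENNReal.mul_ne_top ENNReal.ofReal_ne_top
      (ENNReal.add_ne_top.2 ⟨ENNReal.one_ne_top, pt1_Gam e hn hb hX hA⟩)) h1))
  have h4 := pt1_split h3.2 fun κ => by rw [lv_neg, ftr_neg]
  simp only [lv_zero, ftr_zero, pt1_lv_single] at h4
  exact h4

theorem XG_ne_top : XG X ≠ ∞ := by
  have hv := hd_ge hn
  have h1 : fs' (CU α 2) (fun w => ENNReal.ofReal (Gx w)) X ≠ ∞ := by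
    have hdx : 0 ≤ dx (hd ι) := by
      unfold dx
      positivity
    refine ne_top_of_le_ne_top ENNReal.ofReal_ne_top
      (cs_CU_le (c := 1.024 + dx (hd ι)) (by positivity) fun κ _ => ENNReal.ofReal_le_ofReal ?_)
    have k1 : 0 ≤ tx (hd ι) := by
      have : 0 < hd ι := by linarith
      unfold tx
      positivity
    have k2 : gs (tx (hd ι)) (lv κ X) ≤ 1 :=
      Real.exp_le_one_iff.2 (neg_nonpos.2 (mul_nonneg k1 (nx_nonneg hn _)))
    unfold Gx
    linarith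
  refine ENNReal.add_ne_top.2 ⟨ENNReal.add_ne_top.2 ⟨h1, ?_⟩, ENNReal.ofReal_ne_top⟩
  exact ne_top_of_le_ne_top (pt1_Gam e hn hb hX hA) (cs_mono (fun κ hκ => pt1_CS_ne hκ.1) _)

theorem pt_x : ∃ x2 : ℝ, xV e X = lA ι + ∑ i, al (X i) + x2 ∧
    ENNReal.ofReal |x2| ≤ ENNReal.ofReal (lb (hd ι)) * XG X ∧
    (nice X → |x2| ≤ 0.4826) := by
  have hv := hd_ge hn
  have hl : 0 < lb (hd ι) := lt_of_lt_of_le (by norm_num) (lb_ge hv)
  have hφ := prof_ann hn 0
  set φ : ℝ → ℝ := (Set.Ico (0.8 * rr (hd ι)) (rr (hd ι))).indicator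
    fun ρ => Real.exp (-(0 * (hd ι * ρ / rr (hd ι)))) with hdef
  have hp : ∀ ρ, 0 ≤ φ ρ := fun ρ => Set.indicator_nonneg (fun _ _ => (Real.exp_pos _).le) _
  have h1 : (rad φ : (ι → ℝ) → ℝ) = (AA ι).indicator 1 := funext fun y => by
    rw [hdef, condG_ann]
    by_cases h : y ∈ AA ι <;> simp [gs, h]
  have h2 : ∫ y : ι → ℝ, rad φ y = (volume (AA ι)).toReal := by
    rw [h1, integral_indicator_one measurableSet_AA]
    rfl
  have h5 : ∫⁻ y, ENNReal.ofReal (rad φ y) ∂Lam e X = Lam e X (AA ι) := by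
    rw [← lintegral_indicator_one measurableSet_AA, h1]
    refine lintegral_congr fun y => ?_
    by_cases h : y ∈ AA ι <;> simp [h]
  obtain ⟨-, r, k1, k2⟩ := pt1_poisson e hn hb hX hA hφ hp fun w => by
    rw [h2, h1]
    exact abs_al_le_Ev hn w
  rw [h5, h2, h1] at k1
  rw [h1] at k2
  have hV : (volume (AA ι)).toReal ≤ VV (hd ι) := by
    rw [volume_AA hn]
    refine ENNReal.toReal_le_of_le_ofReal (by unfold VV; positivity)
      (ENNReal.ofReal_le_ofReal (mul_le_of_le_one_right (by unfold VV; positivity) ?_))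
    have : 0 ≤ (0.8 : ℝ) ^ hd ι := by positivity
    linarith
  have h6 := pt1_cover e hn hb hX hA (f := al) (c := VV (hd ι)) (by unfold VV; positivity)
    fun w => (abs_al_le_Ev hn w).trans
      (mul_le_mul_of_nonneg_right hV (Ev_nonneg hn (by norm_num) w))
  have h7 : ∀ B : ℝ≥0∞, ENNReal.ofReal |r| ≤ ENNReal.ofReal (VV (hd ι)) * B →
      ENNReal.ofReal |r / 2| ≤ ENNReal.ofReal (lb (hd ι)) * B := fun B hB => by
    have := mul_le_mul_right hB (ENNReal.ofReal (1 / 2))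
    rw [← mul_assoc, ← ENNReal.ofReal_mul (by norm_num), ← ENNReal.ofReal_mul (by norm_num),
      show 1 / 2 * VV (hd ι) = lb (hd ι) by unfold VV; ring] at this
    rwa [abs_div, abs_two, div_eq_inv_mul, ← one_div]
  refine ⟨r / 2, ?_, h7 _ (k2.trans (h6.2 (abs_al_le_Gx hn))), fun hg => ?_⟩
  · unfold xV lA al
    linarith
  · have h8 := (h7 _ (k2.trans h6.1)).trans (mul_le_mul_right (add_le_add_left hg _) _)
    have ho := pt1_om2 (hd ι)
    have hx : 0 ≤ xi2 (hd ι) := by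
      unfold xi2
      positivity
    rw [← ENNReal.ofReal_add hx (by positivity), ← ENNReal.ofReal_mul hl.le,
      ENNReal.ofReal_le_ofReal_iff (by positivity)] at h8
    have k3 : lb (hd ι) * xi2 (hd ι) = 0.4825 := by
      unfold xi2
      field_simp
    have k4 := lex_small hv
    have k5 : (Fintype.card α : ℝ) ≤ hd ι / 3 := (Nat.cast_le.2 hb).trans KK_le
    have k6 := mul_le_mul_of_nonneg_left k5 (show 0 ≤ 2 * lb (hd ι) * om2 (hd ι) by positivity)
    nlinarith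

variable (hφ : Tst ι φ)
include hφ

theorem pt_s (m : ℝ) : m1 (Lam e X) (rad φ) ≠ ∞ ∧ S2a (rad φ) X ≠ ∞ ∧
    ∃ s2 : ℝ, sV e (rad φ) m X = s1 (rad φ) m X + s2 ∧ ENNReal.ofReal |s2| ≤ S2a (rad φ) X := by
  have hr := rr_pos (hd_ge hn)
  have hI : ∫ y : ι → ℝ, |φ (nsq y)| = ∫ y : ι → ℝ, rad φ y :=
    integral_congr_ae (ae_of_all _ fun y => abs_of_nonneg (hφ.nonneg _))
  have h1 : ∀ w : ι → ℝ, |ftr (rad φ) w| ≤ (∫ y : ι → ℝ, rad φ y) * Ev (3 / 4) w := fun w => by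
    rw [← hI]
    exact abs_ftr_le_Ev hn hφ.prof (by norm_num) (fun ρ hρ => hφ.zero ρ (by linarith)) w
  have hG := pt1_Gam e hn hb hX hA
  obtain ⟨k0, r, k1, k2⟩ := pt1_poisson e hn hb hX hA hφ.prof hφ.nonneg h1
  refine ⟨ne_top_of_le_ne_top (ENNReal.mul_ne_top ENNReal.ofReal_ne_top
    (ENNReal.add_ne_top.2 ⟨ENNReal.one_ne_top, hG⟩)) k0, ?_, r, ?_, k2⟩
  · refine ne_top_of_le_ne_top (ENNReal.mul_ne_top ENNReal.ofReal_ne_top hG)
      ((pt1_mul (integral_nonneg fun _ => hφ.nonneg _) h1).trans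
        (mul_le_mul_right (cs_mono (fun κ hκ => hκ.1) _) _))
  · unfold sV ctr s1 m1
    linarith

omit hb hX in
theorem abs_N1_le : |N1 (rad φ) X| ≤
    Nz (rad φ : (ι → ℝ) → ℝ) * Real.exp (Fintype.card α * g1 (hd ι)) := by
  have hv := hd_ge hn
  have hN := pt1_Nz (rad φ : (ι → ℝ) → ℝ)
  have h1 : |∑ i, ftr (fun x : ι → ℝ => rad φ x ^ 2) (X i)| ≤
      Fintype.card α * (Nz (rad φ : (ι → ℝ) → ℝ) / 2 * om1 (hd ι)) := by
    refine (Finset.abs_sum_le_sum_abs _ _).trans ((Finset.sum_le_card_nsmul _ _ _ fun i _ =>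
      (abs_ftr_sq_le hn hφ (X i)).trans (mul_le_mul_of_nonneg_left
        ((Ev_anti hn (by norm_num) (by norm_num) _).trans (Ev_le_om1 hn (hA i)))
        (by positivity))).trans_eq ?_)
    rw [nsmul_eq_mul, Finset.card_univ]
  have h2 := om_le_g1 hv
  have h3 := pt1_om2 (hd ι)
  have h4 := Real.add_one_le_exp (Fintype.card α * g1 (hd ι))
  have h5 : (Fintype.card α : ℝ) * (2 * om1 (hd ι)) ≤ Fintype.card α * g1 (hd ι) :=
    mul_le_mul_of_nonneg_left (by linarith) (Nat.cast_nonneg _)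
  have h6 := mul_le_mul_of_nonneg_left ((add_le_add_left h5 1).trans h4) hN
  unfold N1
  refine (abs_add_le _ _).trans ?_
  rw [abs_of_nonneg hN, abs_mul, abs_of_pos (show (0 : ℝ) < 4 by norm_num)]
  linarith

theorem pt_N : NN (Lam e X) (rad φ) ≠ ∞ ∧
    NN (Lam e X) (rad φ) ≤ ENNReal.ofReal (Nz (rad φ : (ι → ℝ) → ℝ)) * (1 + Gam X) ∧
    ∃ N2 : ℝ, NV e (rad φ) X = N1 (rad φ) X + N2 ∧
      ENNReal.ofReal |N2| ≤ ENNReal.ofReal (Nz (rad φ : (ι → ℝ) → ℝ)) * XG X := by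
  have hN := pt1_Nz (rad φ : (ι → ℝ) → ℝ)
  have h0 : (rad fun ρ => φ ρ * φ ρ) = fun x : ι → ℝ => rad φ x ^ 2 := funext fun x => (sq _).symm
  have hI : ∫ y : ι → ℝ, rad φ y ^ 2 = Nz (rad φ : (ι → ℝ) → ℝ) / 2 := by
    unfold Nz
    ring
  have h1 : ∀ w : ι → ℝ, |ftr (fun x : ι → ℝ => rad φ x ^ 2) w| ≤
      Nz (rad φ : (ι → ℝ) → ℝ) / 2 * Ev (3 / 4) w := fun w => (abs_ftr_sq_le hn hφ w).trans
    (mul_le_mul_of_nonneg_left (Ev_anti hn (by norm_num) (by norm_num) _) (by positivity))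
  have h2 : ∀ w : ι → ℝ, |ftr (fun x : ι → ℝ => rad φ x ^ 2) w| ≤
      Nz (rad φ : (ι → ℝ) → ℝ) / 2 * Gx w := fun w => (abs_ftr_sq_le hn hφ w).trans
    (mul_le_mul_of_nonneg_left (Ev_one_le_Gx hn _) (by positivity))
  obtain ⟨k0, r, k1, k2⟩ := pt1_poisson e hn hb hX hA (hφ.prof.mul hφ.prof)
    (fun _ => mul_self_nonneg _) (by rw [h0, hI]; exact h1)
  rw [h0, hI] at k0 k1
  rw [h0] at k2
  have h3 : NN (Lam e X) (rad φ) = 2 * ∫⁻ y, ENNReal.ofReal (rad φ y ^ 2) ∂Lam e X := by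
    unfold NN
    congr 1
    refine lintegral_congr fun y => ?_
    rw [sq]
    exact (ENNReal.ofReal_mul (hφ.nonneg _)).symm
  have h4 : ∀ B : ℝ≥0∞, 2 * (ENNReal.ofReal (Nz (rad φ : (ι → ℝ) → ℝ) / 2) * B) =
      ENNReal.ofReal (Nz (rad φ : (ι → ℝ) → ℝ)) * B := fun B => by
    rw [← mul_assoc, ← ENNReal.ofReal_ofNat 2, ← ENNReal.ofReal_mul (by norm_num)]
    congr 2
    ring
  have h5 : NN (Lam e X) (rad φ) ≤ ENNReal.ofReal (Nz (rad φ : (ι → ℝ) → ℝ)) * (1 + Gam X) := by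
    rw [h3, ← h4]
    exact mul_le_mul_right k0 _
  refine ⟨ne_top_of_le_ne_top (ENNReal.mul_ne_top ENNReal.ofReal_ne_top
    (ENNReal.add_ne_top.2 ⟨ENNReal.one_ne_top, pt1_Gam e hn hb hX hA⟩)) h5, h5, 2 * r, ?_, ?_⟩
  · rw [NV, h3, ENNReal.toReal_mul, k1, N1, ENNReal.toReal_ofNat]
    ring
  · rw [abs_mul, abs_two, ENNReal.ofReal_mul zero_le_two, ENNReal.ofReal_ofNat, ← h4]
    exact mul_le_mul_right (k2.trans ((pt1_cover e hn hb hX hA (by positivity) h1).2 h2)) _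

end Pool.Agent.Eps.P
end
end
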