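import Pool.Agent.Lib.MP_3bda03_nt.P.PrimC1
import Pool.Agent.Lib.MP_3bda03_nt.P.PrimA
import Pool.Agent.Lib.MP_3bda03_nt.P.PrimB
import Pool.Agent.Lib.MP_3bda03_nt.P.Pt1

-- part Pool.Agent.Lib.MP_3bda03_nt.P.PrimC
section

/-!
Fractional relations.
-/

set_option autoImplicit false

noncomputable section

open MeasureTheory Matrix
open scoped ENNReal

namespace Pool.Agent.Eps.P

open Pool.Agent.Eps.H

variable {ι : Type} [Fintype ι] [DecidableEq ι] {Ω : Type} [MeasurableSpace Ω]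
  {P : Measure Ω} {g : Ω → Matrix ι ι ℝ} {Λ : Measure (ι → ℝ)} {d : ℕ} {ξ : ℝ}
  {τ : Type} [Fintype τ] [DecidableEq τ] {h : (ι → ℝ) → ℝ}

omit [Fintype ι] [DecidableEq ι] [Fintype τ] [DecidableEq τ] in
theorem primc_snc (Z : Matrix (τ ⊕ Unit) ι ℝ) : snc Z.toRows₁ (Z (Sum.inr ())) = Z := by
  ext i j
  rcases i with i | i <;> rfl

omit [Fintype ι] [DecidableEq ι] [Fintype τ] [DecidableEq τ] in
theorem primc_meas {A : Type} [MeasurableSpace A] {U : A → Matrix τ ι ℝ} {w : A → ι → ℝ}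
    (hU : Measurable U) (hw : Measurable w) : Measurable fun x => snc (U x) (w x) :=
  measurable_mx.2 fun a j => by
    rcases a with a | a
    · exact measurable_mx.1 hU a j
    · exact measurable_pi_iff.1 hw j

omit [Fintype ι] [DecidableEq ι] [Fintype τ] [DecidableEq τ] in
theorem primc_rows : Measurable fun Z : Matrix (τ ⊕ Unit) ι ℝ => Z.toRows₁ :=
  measurable_mx.2 fun a j => measurable_mx.1 measurable_id (Sum.inl a) j

omit [DecidableEq ι] [DecidableEq τ] in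
theorem primc_IA (U : Matrix τ ι ℝ) (y : ι → ℝ) : IA (snc U y) = IA U * iA y := by
  rw [IA, Fintype.prod_sum_type, Fintype.prod_unique (fun a : Unit => iA (snc U y (Sum.inr a)))]
  rfl

theorem primc_mc {A B C : Type} [MeasurableSpace A] [MeasurableSpace B] [MeasurableSpace C]
    {g : B → C} {f : A → B} (hg : Measurable g) (hf : Measurable f) :
    Measurable fun x => g (f x) := hg.comp hf

omit [DecidableEq ι] in
theorem primc_Hs (hh : Hf h) (U : Matrix τ ι ℝ) : Hs {κ | κ ≠ 0} h U ≤ vth (th (hd ι)) U := by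
  rw [vth_eq]
  refine le_trans ?_ le_add_self
  exact ENNReal.tsum_le_tsum fun κ => ENNReal.ofReal_le_ofReal (hh.le _)

variable (hn : 97 ≤ Fintype.card ι) (R : RL P g Λ d) (G : Good Λ ξ) (hd5 : 5 * hd ι / 3 ≤ d)
include hn R G hd5

omit [DecidableEq ι] R hd5 in
theorem primc_m1 (hh : Hf h) : m1 Λ h ≤ ENNReal.ofReal (1 + ξ) := by
  have h0 : 0 < th (hd ι) := lt_of_lt_of_le (by norm_num) (th_ge (hd_ge hn))
  have h1 := G.gauss (th (hd ι)) h0 0
  rw [div_self h0.ne', Real.one_rpow, max_eq_left (by linarith [th_le (hd_ge hn)]),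
    Real.one_rpow, mul_one, mul_one] at h1
  refine le_trans (lintegral_mono fun y => ?_) h1
  rw [add_zero]
  exact ENNReal.ofReal_le_ofReal (hh.le y)

omit [DecidableEq ι] R hd5 in
theorem primc_NN (hh : Hf h) : NN Λ h ≠ ∞ := by
  have h0 : 0 ≤ th (hd ι) := le_trans (by norm_num) (th_ge (hd_ge hn))
  refine ENNReal.mul_ne_top (by simp) (ne_top_of_le_ne_top ENNReal.ofReal_ne_top
    (le_trans (lintegral_mono fun y => ?_) (primc_m1 hn G hh)))
  exact mul_le_of_le_one_right' ((ENNReal.ofReal_le_ofReal (hh.le y)).trans (Gs_le_one hn h0 y))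

omit [DecidableEq ι] [DecidableEq τ] R G in
theorem primc_d (ha : Fintype.card τ ≤ KK ι) : Fintype.card τ + 5 ≤ d := by
  have h1 : (Fintype.card τ : ℝ) ≤ KK ι := Nat.cast_le.2 ha
  have h2 := KK_le (ι := ι)
  have h3 := hd_ge hn
  have : ((Fintype.card τ + 5 : ℕ) : ℝ) ≤ d := by push_cast; linarith
  exact Nat.cast_le.1 this

/-- the second moment for a frame with one more row -/
theorem primc_TT (ha : Fintype.card τ ≤ KK ι) (hh : Hf h) (c : ℝ)
    {F : Matrix (τ ⊕ Unit) ι ℝ → ℝ≥0∞} (hF : Measurable F) :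
    TT P g (fun ω => YY h c (g ω)) F ≤ ∫⁻ Z, F Z *
      (ENNReal.ofReal (5 * ((m1 Λ h).toReal - c) ^ 2 + 2 * (NN Λ h).toReal + 12 * (1 + ξ) ^ 2) +
        ENNReal.ofReal (7 * (1 + ξ)) * vth (th (hd ι)) Z ^ 2) ∂pw (τ ⊕ Unit) Λ := by
  have := R.sf
  have hd' := primc_d hn hd5 ha
  have hc : Fintype.card (τ ⊕ Unit) = Fintype.card τ + 1 := by simp
  have hξ := G.nonneg
  have hi : ENNReal.ofReal (imp (Fintype.card (τ ⊕ Unit) + 2) d) ≤ 1 := by
    rw [ENNReal.ofReal_le_one, imp, div_le_one (by positivity), ← pow_succ']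
    exact pow_le_pow_right₀ one_le_two (by omega)
  refine (second_le R (by omega) hh.meas hh.nonneg (T := 1 + ξ) (by linarith)
    (primc_m1 hn G hh) c hF).trans ?_
  refine (add_le_add le_rfl (mul_le_of_le_one_left' hi)).trans ?_
  have m0 : Measurable fun U => F U * (2 * ENNReal.ofReal (((m1 Λ h).toReal - c) ^ 2) +
      2 * Hs {κ | κ ≠ 0} h U ^ 2 + Dfun Λ h U) := hF.mul ((measurable_const.add
    (((measurable_Hs hh.meas _).pow_const 2).const_mul 2)).add (measurable_Dfun hh.meas))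
  rw [← lintegral_add_left m0]
  refine lintegral_mono_ae ((R.ae_li (τ := τ ⊕ Unit) (by omega)).mono fun Z hZ => ?_)
  have h1 := primc_Hs hh Z
  have h2 := Dfun_le hn R G hd5 (by omega) hh hZ
  rw [← mul_add]
  refine mul_le_mul' le_rfl ?_
  have h3 : (1 : ℝ≥0∞) ≤ ENNReal.ofReal (1 + ξ) := ENNReal.one_le_ofReal.2 (by linarith)
  rw [ENNReal.ofReal_add (by positivity) (by positivity),
    ENNReal.ofReal_add (by positivity) (by positivity), ENNReal.ofReal_mul (by norm_num),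
    ENNReal.ofReal_mul (by norm_num), ENNReal.ofReal_mul (by norm_num),
    ENNReal.ofReal_mul (by norm_num), ENNReal.ofReal_toReal (primc_NN hn G hh)]
  simp only [ENNReal.ofReal_ofNat]
  generalize ENNReal.ofReal (((m1 Λ h).toReal - c) ^ 2) = S
  generalize ENNReal.ofReal ((1 + ξ) ^ 2) = T
  have h4 : Hs {κ | κ ≠ 0} h Z ^ 2 ≤ ENNReal.ofReal (1 + ξ) * vth (th (hd ι)) Z ^ 2 :=
    (pow_le_pow_left' h1 2).trans (le_mul_of_one_le_left' h3)
  calc _ = 5 * S + 12 * T + 5 * Hs {κ | κ ≠ 0} h Z ^ 2 + 2 * Dfun Λ h Z := by ring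
    _ ≤ 5 * S + 12 * T + 5 * (ENNReal.ofReal (1 + ξ) * vth (th (hd ι)) Z ^ 2) +
        2 * (NN Λ h + ENNReal.ofReal (1 + ξ) * vth (th (hd ι)) Z ^ 2) := by gcongr
    _ = _ := by ring

/-- removal of the fractional relation -/
theorem primc_frac (ha : Fintype.card τ ≤ KK ι) (q : ℕ) (κ : τ → Fin (q + 2)) {A B : ℝ}
    (hA : 0 ≤ A) (hB : 0 ≤ B) :
    ∫⁻ Z, Fq q κ Z * (ENNReal.ofReal A + ENNReal.ofReal B * vth (th (hd ι)) Z ^ 2)
        ∂pw (τ ⊕ Unit) Λ ≤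
      ((q + 2 : ℕ) : ℝ≥0∞) ^ 2 * (((q + 2 : ℕ) : ℝ≥0∞) ^ d)⁻¹ *
        ENNReal.ofReal (((1 + ξ) * VV (hd ι)) ^ (Fintype.card τ + 1) *
          (A + B * (2 + 4 * 9 ^ (Fintype.card τ + 1) * (2 : ℝ) ^ (-hd ι)))) := by
  have := R.sf
  have hd' := primc_d hn hd5 ha
  have hc : Fintype.card (τ ⊕ Unit) = Fintype.card τ + 1 := by simp
  have h0 : 0 < th (hd ι) := lt_of_lt_of_le (by norm_num) (th_ge (hd_ge hn))
  have hV : 0 ≤ (1 + ξ) * VV (hd ι) :=
    mul_nonneg (by linarith [G.nonneg]) (by rw [VV]; linarith [lb_ge (hd_ge hn)])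
  set Ψ : Matrix (τ ⊕ Unit) ι ℝ → ℝ≥0∞ := fun Z =>
    IA Z * (ENNReal.ofReal A + ENNReal.ofReal B * vth (th (hd ι)) Z ^ 2) with hΨ
  have mΨ : Measurable Ψ := measurable_IA.mul
    (measurable_const.add (((measurable_vth _).pow_const 2).const_mul _))
  have m2 : Measurable fun Z : Matrix (τ ⊕ Unit) ι ℝ => Ψ (snc Z.toRows₁
      (((q + 2 : ℕ) : ℝ) • Z (Sum.inr ()) + lv (zr κ) Z.toRows₁)) :=
    primc_mc mΨ (primc_meas primc_rows (((measurable_row (Sum.inr ())).const_smul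
      ((q + 2 : ℕ) : ℝ)).add
      (primc_mc (measurable_lv _) primc_rows)))
  have h1 : (1 : ℝ≥0∞) ≤ ((q + 2 : ℕ) : ℝ≥0∞) ^ 2 :=
    one_le_pow₀ (by exact_mod_cast (by omega : 1 ≤ q + 2))
  calc _ ≤ ∫⁻ Z, ((q + 2 : ℕ) : ℝ≥0∞) ^ 2 * Ψ (snc Z.toRows₁
        (((q + 2 : ℕ) : ℝ) • Z (Sum.inr ()) + lv (zr κ) Z.toRows₁)) ∂pw (τ ⊕ Unit) Λ := by
        refine lintegral_mono_ae ((R.ae_li (τ := τ ⊕ Unit) (by omega)).mono fun Z hZ => ?_)
        have h2 := vth_coset hn (U := Z.toRows₁) h0 (q := q + 2) (by omega) (zr κ)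
          (w := Z (Sum.inr ())) (by rw [primc_snc]; exact hZ)
        rw [primc_snc] at h2
        simp only [hΨ, primc_IA, Fq]
        rw [mul_left_comm, mul_add (((q + 2 : ℕ) : ℝ≥0∞) ^ 2), mul_left_comm, ← mul_pow]
        gcongr
        exact le_mul_of_one_le_left' h1
    _ = ((q + 2 : ℕ) : ℝ≥0∞) ^ 2 * ∫⁻ U, ∫⁻ y, Ψ (snc U
        (((q + 2 : ℕ) : ℝ) • y + lv (zr κ) U)) ∂Λ ∂pw τ Λ := by
        rw [lintegral_const_mul _ m2, lintegral_pw_snc _ m2]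
        rfl
    _ ≤ ((q + 2 : ℕ) : ℝ≥0∞) ^ 2 * ((((q + 2 : ℕ) : ℝ≥0∞) ^ d)⁻¹ *
        ∫⁻ Z, Ψ Z ∂pw (τ ⊕ Unit) Λ) := by
        rw [lintegral_pw_snc _ mΨ]
        gcongr
        have m4 : Measurable fun p : Matrix τ ι ℝ × (ι → ℝ) => Ψ (snc p.1 p.2) :=
          primc_mc mΨ (primc_meas measurable_fst measurable_snd)
        exact R.frac (by omega) (by omega) (zr κ) (fun U y => Ψ (snc U y)) m4
    _ ≤ _ := by
        rw [← mul_assoc]
        gcongr
        have e : ∀ Z, Ψ Z = ENNReal.ofReal A * IA Z +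
            ENNReal.ofReal B * (IA Z * vth (th (hd ι)) Z ^ 2) := fun Z => by
          simp only [hΨ]; ring
        have m3 : Measurable fun Z : Matrix (τ ⊕ Unit) ι ℝ => IA Z * vth (th (hd ι)) Z ^ 2 :=
          measurable_IA.mul ((measurable_vth _).pow_const 2)
        simp only [e]
        rw [lintegral_add_left (measurable_IA.const_mul _), lintegral_const_mul _ measurable_IA,
          lintegral_const_mul _ m3]
        have k1 := G.lintegral_IA (τ := τ ⊕ Unit) hn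
        have k2 := vth_sq_le (τ := τ ⊕ Unit) hn R G hd5 (by omega)
        rw [hc] at k1 k2
        refine (add_le_add (mul_le_mul' le_rfl k1) (mul_le_mul' le_rfl k2)).trans (le_of_eq ?_)
        rw [← ENNReal.ofReal_mul hA, ← ENNReal.ofReal_mul hB,
          ← ENNReal.ofReal_add (by positivity) (by positivity)]
        congr 1
        ring

theorem TI_le (ha : Fintype.card τ ≤ KK ι) (hh : Hf h) (c : ℝ) :
    TI P g (fun ω => YY h c (g ω)) τ ≤
      ENNReal.ofReal (((1 + ξ) * VV (hd ι)) ^ Fintype.card τ * 2 ^ Fintype.card τ *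
        (16 * lb (hd ι) * (1 + ξ) * Real.exp (-(1.155 * hd ι))) *
        (6 * ((m1 Λ h).toReal - c) ^ 2 + 2 * (NN Λ h).toReal + 40 * (1 + ξ) ^ 2 +
          288 * (1 + ξ) * (9 ^ Fintype.card τ * (2 : ℝ) ^ (-hd ι)))) := by
  have hd' := primc_d hn hd5 ha
  have hξ := G.nonneg
  have hl : 0 ≤ lb (hd ι) := by linarith [lb_ge (hd_ge hn)]
  have hV : 0 ≤ (1 + ξ) * VV (hd ι) := mul_nonneg (by linarith) (by rw [VV]; linarith)
  set E : ℝ := ((1 + ξ) * VV (hd ι)) ^ (Fintype.card τ + 1) *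
    (5 * ((m1 Λ h).toReal - c) ^ 2 + 2 * (NN Λ h).toReal + 12 * (1 + ξ) ^ 2 +
      7 * (1 + ξ) * (2 + 4 * 9 ^ (Fintype.card τ + 1) * (2 : ℝ) ^ (-hd ι))) with hE
  have hE0 : 0 ≤ E := by positivity
  have h1 : ∀ q : ℕ, ∑' κ : τ → Fin (q + 2), TT P g (fun ω => YY h c (g ω)) (Fq q κ) ≤
      ((q + 2 : ℕ) : ℝ≥0∞) ^ (Fintype.card τ + 2) * (((q + 2 : ℕ) : ℝ≥0∞) ^ d)⁻¹ *
        ENNReal.ofReal E := by
    intro q
    refine (ENNReal.tsum_le_tsum fun κ => (primc_TT hn R G hd5 ha hh c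
      (measurable_Fq q κ)).trans (primc_frac hn R G hd5 ha q κ (by positivity)
        (by positivity))).trans (le_of_eq ?_)
    rw [tsum_fintype, Finset.sum_const, Finset.card_univ, Fintype.card_fun, Fintype.card_fin,
      nsmul_eq_mul, Nat.cast_pow]
    ring
  refine (ENNReal.tsum_le_tsum h1).trans ?_
  rw [ENNReal.tsum_mul_right]
  refine (mul_le_mul' ((tsum_pow_le (by omega)).trans
    (ENNReal.ofReal_le_ofReal (imp_le hd5))) le_rfl).trans ?_
  rw [← ENNReal.ofReal_mul (by positivity)]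
  refine ENNReal.ofReal_le_ofReal ?_
  have e : 2 * 2 ^ (Fintype.card τ + 2) * Real.exp (-(1.155 * hd ι)) * E =
      ((1 + ξ) * VV (hd ι)) ^ Fintype.card τ * 2 ^ Fintype.card τ *
        (16 * lb (hd ι) * (1 + ξ) * Real.exp (-(1.155 * hd ι))) *
        (5 * ((m1 Λ h).toReal - c) ^ 2 + 2 * (NN Λ h).toReal + (12 * (1 + ξ) ^ 2 + 14 * (1 + ξ)) +
          252 * (1 + ξ) * (9 ^ Fintype.card τ * (2 : ℝ) ^ (-hd ι))) := by
    rw [hE, pow_succ ((1 + ξ) * VV (hd ι)), VV]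
    ring
  rw [e]
  gcongr
  · norm_num
  · nlinarith
  · norm_num

end Pool.Agent.Eps.P
end
end

-- part Pool.Agent.Lib.MP_3bda03_nt.P.Level2A1
section

/-!
The terms of the sieve on the test side, one size at a time.
-/

set_option autoImplicit false

noncomputable section

open MeasureTheory Matrix
open scoped ENNReal

namespace Pool.Agent.Eps.P

open Pool.Agent.Eps.H

variable {ι : Type} [Fintype ι] [DecidableEq ι] {Ω : Type} [MeasurableSpace Ω]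
  {P : Measure Ω} {g : Ω → Matrix ι ι ℝ} {Λ : Measure (ι → ℝ)} {d : ℕ} {ξ : ℝ}
  {τ : Type} [Fintype τ] [DecidableEq τ] {h : (ι → ℝ) → ℝ}

private theorem level2a1_real {X I0 A2 RH IH2 E1 Er Ef N s b T io e M x1 x2 x3 x4 : ℝ}
    (hI0 : 0 ≤ I0) (hI0M : I0 ≤ M) (hRH0 : 0 ≤ RH) (hRH : RH ≤ M * x2)
    (hH0 : 0 ≤ IH2) (hH : IH2 ≤ M * x1) (hE1 : E1 ≤ T ^ 2 * I0)
    (hEr0 : 0 ≤ Er) (hEr : Er ≤ M * x3) (hEf0 : 0 ≤ Ef) (hEf : Ef ≤ M * x4) (hN : 0 ≤ N)
    (hb0 : 0 ≤ b) (hb : b ≤ |s| + 2 * T) (hio0 : 0 ≤ io) (hio : io ≤ 0.001) (hioe : io ≤ e)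
    (hcs : 2 * b * (A2 + RH) ≤ 2 * IH2 + b ^ 2 / 2 * I0)
    (h : |X - (IH2 + 2 * s * (A2 + RH) + s ^ 2 * I0 + (N * I0 + E1 + Er + Ef))| ≤
      io * (IH2 + 2 * b * (A2 + RH) + b ^ 2 * I0 + (N * I0 + E1 + Er + Ef))) :
    |X - (I0 * (s ^ 2 + N) + E1 + 2 * s * A2)| ≤
      M * (1.003 * x1 + 2 * |s| * x2 + 1.001 * (x3 + x4) + e * (3 * s ^ 2 + N + 13 * T ^ 2)) := by
  have hb2 : b ^ 2 ≤ 2 * s ^ 2 + 8 * T ^ 2 := by
    have h1 : b ^ 2 ≤ (|s| + 2 * T) ^ 2 := pow_le_pow_left₀ hb0 hb 2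
    nlinarith [sq_abs s, sq_nonneg (|s| - 2 * T)]
  obtain ⟨W, hW⟩ : ∃ W : ℝ, W = 3 * s ^ 2 + N + 13 * T ^ 2 := ⟨_, rfl⟩
  have hW0 : 0 ≤ W := by rw [hW]; positivity
  rw [← hW]
  have h1 : IH2 + 2 * b * (A2 + RH) + b ^ 2 * I0 + (N * I0 + E1 + Er + Ef) ≤
      3 * IH2 + W * I0 + Er + Ef := by
    have h2 : b ^ 2 * I0 ≤ (2 * s ^ 2 + 8 * T ^ 2) * I0 := mul_le_mul_of_nonneg_right hb2 hI0
    rw [hW]
    nlinarith
  have h2 : io * (IH2 + 2 * b * (A2 + RH) + b ^ 2 * I0 + (N * I0 + E1 + Er + Ef)) ≤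
      0.003 * IH2 + e * (W * M) + 0.001 * (Er + Ef) := by
    have h3 := mul_le_mul_of_nonneg_left h1 hio0
    have h4 : io * IH2 ≤ 0.001 * IH2 := mul_le_mul_of_nonneg_right hio hH0
    have h5 : io * (Er + Ef) ≤ 0.001 * (Er + Ef) :=
      mul_le_mul_of_nonneg_right hio (add_nonneg hEr0 hEf0)
    have h6 : io * (W * I0) ≤ e * (W * M) :=
      mul_le_mul hioe (mul_le_mul_of_nonneg_left hI0M hW0) (mul_nonneg hW0 hI0) (hio0.trans hioe)
    nlinarith
  have h3 : |2 * s * RH| ≤ 2 * |s| * (M * x2) := by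
    rw [abs_mul, abs_mul, abs_of_nonneg hRH0, abs_two]
    exact mul_le_mul_of_nonneg_left hRH (by positivity)
  have h4 := abs_le.1 (h.trans h2)
  have h5 := abs_le.1 h3
  have e1 : M * (1.003 * x1 + 2 * |s| * x2 + 1.001 * (x3 + x4) + e * W) =
      1.003 * (M * x1) + 2 * |s| * (M * x2) + 1.001 * (M * x3 + M * x4) + e * (W * M) := by ring
  rw [e1, abs_le]
  constructor <;> nlinarith [h4.1, h4.2, h5.1, h5.2]

private theorem level2a1_pt {b : ℝ} (hb : 0 ≤ b) (H : ℝ≥0∞) :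
    ENNReal.ofReal (2 * b) * H ≤ 2 * H ^ 2 + ENNReal.ofReal (b ^ 2 / 2) := by
  rcases eq_or_ne H ∞ with rfl | hH
  · have : (2 : ℝ≥0∞) * ∞ ^ 2 = ∞ := by simp
    rw [this]
    simp
  · obtain ⟨x, hx0, rfl⟩ : ∃ x : ℝ, 0 ≤ x ∧ H = ENNReal.ofReal x :=
      ⟨H.toReal, ENNReal.toReal_nonneg, (ENNReal.ofReal_toReal hH).symm⟩
    rw [← ENNReal.ofReal_mul (by positivity), ← ENNReal.ofReal_pow hx0,
      show (2 : ℝ≥0∞) = ENNReal.ofReal 2 by simp, ← ENNReal.ofReal_mul (by norm_num),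
      ← ENNReal.ofReal_add (by positivity) (by positivity)]
    exact ENNReal.ofReal_le_ofReal (by nlinarith [sq_nonneg (x - b / 2)])

private theorem level2a1_cs {α : Type} [MeasurableSpace α] {μ : Measure α} {F H : α → ℝ≥0∞}
    (hF : Measurable F) (hH : Measurable H) {b : ℝ} (hb : 0 ≤ b)
    (f0 : ∫⁻ U, F U ∂μ ≠ ∞) (fH2 : ∫⁻ U, F U * H U ^ 2 ∂μ ≠ ∞) :
    2 * b * (∫⁻ U, F U * H U ∂μ).toReal ≤
      2 * (∫⁻ U, F U * H U ^ 2 ∂μ).toReal + b ^ 2 / 2 * (∫⁻ U, F U ∂μ).toReal := by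
  have h1 : ENNReal.ofReal (2 * b) * ∫⁻ U, F U * H U ∂μ ≤
      2 * ∫⁻ U, F U * H U ^ 2 ∂μ + ENNReal.ofReal (b ^ 2 / 2) * ∫⁻ U, F U ∂μ := by
    rw [← lintegral_const_mul _ (hF.fun_mul hH), ← lintegral_const_mul _ (hF.fun_mul (hH.pow_const 2)),
      ← lintegral_const_mul _ hF,
      ← lintegral_add_left ((hF.fun_mul (hH.pow_const 2)).const_mul 2)]
    refine lintegral_mono fun U => ?_
    calc ENNReal.ofReal (2 * b) * (F U * H U) = F U * (ENNReal.ofReal (2 * b) * H U) := by ring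
      _ ≤ F U * (2 * H U ^ 2 + ENNReal.ofReal (b ^ 2 / 2)) :=
        mul_le_mul_right (level2a1_pt hb (H U)) _
      _ = 2 * (F U * H U ^ 2) + ENNReal.ofReal (b ^ 2 / 2) * F U := by ring
  have f1 : (2 : ℝ≥0∞) * ∫⁻ U, F U * H U ^ 2 ∂μ ≠ ∞ := ENNReal.mul_ne_top (by simp) fH2
  have f2 : ENNReal.ofReal (b ^ 2 / 2) * ∫⁻ U, F U ∂μ ≠ ∞ :=
    ENNReal.mul_ne_top ENNReal.ofReal_ne_top f0
  have h2 := ENNReal.toReal_mono (ENNReal.add_ne_top.2 ⟨f1, f2⟩) h1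
  rw [ENNReal.toReal_add f1 f2, ENNReal.toReal_mul, ENNReal.toReal_mul, ENNReal.toReal_mul,
    ENNReal.toReal_ofReal (by positivity), ENNReal.toReal_ofReal (by positivity)] at h2
  simpa using h2

private theorem level2a1_imp {a d : ℕ} (h : a + 20 ≤ d) :
    0 ≤ imp (a + 2) d ∧ imp (a + 2) d ≤ 0.001 := by
  unfold imp
  refine ⟨by positivity, ?_⟩
  obtain ⟨k, rfl⟩ := Nat.exists_eq_add_of_le h
  rw [div_le_iff₀ (by positivity), pow_add, pow_add, pow_add]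
  have h1 : (1 : ℝ) ≤ 2 ^ k := one_le_pow₀ (by norm_num)
  have h2 : (0 : ℝ) < 2 ^ a := by positivity
  nlinarith [mul_le_mul_of_nonneg_left h1 h2.le]

private theorem level2a1_cast (a : ℕ) :
    (((2 * a * (a - 1) : ℕ) : ℝ≥0∞)).toReal = 2 * (a : ℝ) * (a - 1) := by
  rw [ENNReal.toReal_natCast]
  rcases a with _ | a
  · simp
  · simp only [Nat.add_sub_cancel]
    push_cast
    ring

private theorem level2a1_le {x : ℝ≥0∞} {y : ℝ} (h : x ≤ ENNReal.ofReal y) (hy : 0 ≤ y) :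
    x ≠ ∞ ∧ x.toReal ≤ y :=
  ⟨ne_top_of_le_ne_top ENNReal.ofReal_ne_top h, ENNReal.toReal_le_of_le_ofReal hy h⟩

variable (hn : 97 ≤ Fintype.card ι) (R : RL P g Λ d) (G : Good Λ ξ) (hd5 : 5 * hd ι / 3 ≤ d)
include hn R G hd5

theorem good_term {a : ℕ} (ha : a ≤ KK ι) (hh : Hf h) (hz : ∀ y ∈ BB ι, h y = 0) (c : ℝ)
    {s N M0 : ℝ} (hs : s = (m1 Λ h).toReal - c) (hN : N = (NN Λ h).toReal)
    (hM : M0 = (Λ (AA ι)).toReal) :
    TT P g (fun ω => YY h c (g ω)) (goodF (fun _ _ => True) a) ≠ ∞ ∧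
    |(TT P g (fun ω => YY h c (g ω)) (goodF (fun _ _ => True) a)).toReal -
        (M0 ^ a * (s ^ 2 + N) + 4 * a * M0 ^ (a - 1) * (JT Λ h).toReal +
          2 * a * (a - 1) * M0 ^ (a - 2) * (2 * s * (JC Λ h).toReal))| ≤
      ((1 + ξ) * VV (hd ι)) ^ a *
        (1.003 * (evA (hd ι) ξ a LSS * vp (hd ι)) +
          2 * |s| * (evA (hd ι) ξ a LRH * Real.sqrt (vp (hd ι))) +
          1.001 * (evA (hd ι) ξ a (LE ++ Lfr) * vp (hd ι)) +
          8 * 2 ^ a * Real.exp (-(1.155 * hd ι)) * (3 * s ^ 2 + N + 13 * (1 + ξ) ^ 2)) := by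
  have := R.sf
  have hv : 97 / 2 ≤ hd ι := hd_ge hn
  have hξ : 0 ≤ ξ := G.nonneg
  have hca : Fintype.card (Fin a) = a := Fintype.card_fin a
  have ha' : Fintype.card (Fin a) ≤ KK ι := by rw [hca]; exact ha
  have hgF : (goodF (fun _ _ => True) a : Matrix (Fin a) ι ℝ → ℝ≥0∞) = IA := by
    funext U
    simp only [goodF]
    rw [ind_pos trivial, mul_one]
  have had : a + 20 ≤ d := by
    have h1 : (a : ℝ) ≤ KK ι := by exact_mod_cast ha
    have h2 : (KK ι : ℝ) ≤ hd ι / 3 := KK_le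
    have h3 : ((a + 20 : ℕ) : ℝ) ≤ d := by push_cast; linarith
    exact_mod_cast h3
  have hd4 : Fintype.card (Fin a) + 4 ≤ d := by rw [hca]; omega
  have hV : 0 ≤ VV (hd ι) := by
    have := lb_ge hv
    unfold VV
    linarith
  have hM0 : 0 ≤ (1 + ξ) * VV (hd ι) := mul_nonneg (by linarith) hV
  have hMa : 0 ≤ ((1 + ξ) * VV (hd ι)) ^ a := pow_nonneg hM0 a
  have hvp : 0 < vp (hd ι) := vp_pos hv
  obtain ⟨fm, hm⟩ := level2a1_le (G.m1_le hn hh) (by linarith)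
  have fN : NN Λ h ≠ ∞ := ne_top_of_le_ne_top ENNReal.ofReal_ne_top (G.NN_le hn hh)
  have fA : Λ (AA ι) ≠ ∞ := ne_top_of_le_ne_top ENNReal.ofReal_ne_top (G.mass hn)
  have fJC : JC Λ h ≠ ∞ :=
    ne_top_of_le_ne_top ENNReal.ofReal_ne_top (JC_le hn R G hd5 hh hz)
  have fJT : JT Λ h ≠ ∞ := ne_top_of_le_ne_top ENNReal.ofReal_ne_top (JT_le hn R G hd5 hh)
  have mIA : Measurable (IA : Matrix (Fin a) ι ℝ → ℝ≥0∞) := measurable_IA
  have e0 : ∫⁻ U, IA U ∂pw (Fin a) Λ = Λ (AA ι) ^ a := by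
    have h1 := lintegral_pw_prod (Λ := Λ) (τ := Fin a) (fun _ => iA) (fun _ => measurable_iA)
    simp only [lintegral_iA, Finset.prod_const, Finset.card_univ, Fintype.card_fin] at h1
    exact h1
  obtain ⟨f0, hI0M⟩ := level2a1_le (G.lintegral_IA (τ := Fin a) hn) (by rw [hca]; exact hMa)
  rw [hca] at hI0M
  obtain ⟨fRH, hRH⟩ := level2a1_le (Hr_le hn R G hd5 ha' hh hz) (by
    rw [hca]
    exact mul_nonneg hMa (mul_nonneg (evA_nonneg hv hξ _ _) (Real.sqrt_nonneg _)))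
  obtain ⟨fH2, hH2⟩ := level2a1_le (Hsq_le hn R G hd5 ha' hh hz) (by
    rw [hca]
    exact mul_nonneg hMa (mul_nonneg (evA_nonneg hv hξ _ _) hvp.le))
  obtain ⟨fEr, hEr⟩ := level2a1_le (Er_le hn R G hd5 ha' hh) (by
    rw [hca]
    exact mul_nonneg hMa (mul_nonneg (evA_nonneg hv hξ _ _) hvp.le))
  obtain ⟨fEf, hEf⟩ := level2a1_le (Efr_int hn R G hd5 ha' hh) (by
    rw [hca]
    exact mul_nonneg hMa (mul_nonneg (evA_nonneg hv hξ _ _) hvp.le))
  rw [hca] at hRH hH2 hEr hEf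
  have eA2 := H2_eq (τ := Fin a) hn R G hd5 hh
  have eE1 := E1_eq (τ := Fin a) hn R G hd5 hh
  rw [hca] at eA2 eE1
  have fA2 : ∫⁻ U, IA U * Hs (CU (Fin a) 2) h U ∂pw (Fin a) Λ ≠ ∞ := by
    rw [eA2]
    exact ENNReal.mul_ne_top (ENNReal.mul_ne_top (ENNReal.natCast_ne_top _)
      (ENNReal.pow_ne_top fA)) fJC
  have fE1 : ∫⁻ U, IA U * Esh (CU (Fin a) 1) Λ h U ∂pw (Fin a) Λ ≠ ∞ := by
    rw [eE1]
    exact ENNReal.mul_ne_top (ENNReal.mul_ne_top (ENNReal.natCast_ne_top _)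
      (ENNReal.pow_ne_top fA)) fJT
  have hE1 : (∫⁻ U, IA U * Esh (CU (Fin a) 1) Λ h U ∂pw (Fin a) Λ).toReal ≤
      (1 + ξ) ^ 2 * (∫⁻ U, IA U ∂pw (Fin a) Λ).toReal := by
    have h1 : ∫⁻ U, IA U * Esh (CU (Fin a) 1) Λ h U ∂pw (Fin a) Λ ≤
        ENNReal.ofReal ((1 + ξ) ^ 2) * ∫⁻ U, IA U ∂pw (Fin a) Λ := by
      rw [← lintegral_const_mul _ mIA]
      refine lintegral_mono fun U => ?_
      by_cases hU : ∀ i, U i ∈ AA ι
      · rw [IA_eq_one hU, one_mul, mul_one]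
        exact (E1_sup hn R G hd5 ha' hh hU).2
      · rw [IA_eq_zero hU, zero_mul, mul_zero]
    have h2 := ENNReal.toReal_mono (ENNReal.mul_ne_top ENNReal.ofReal_ne_top f0) h1
    rwa [ENNReal.toReal_mul, ENNReal.toReal_ofReal (by positivity)] at h2
  have eH : ∫⁻ U, IA U * Hs {κ | κ ≠ 0} h U ∂pw (Fin a) Λ =
      ∫⁻ U, IA U * Hs (CU (Fin a) 2) h U ∂pw (Fin a) Λ +
        ∫⁻ U, IA U * Hs (NE (Fin a) \ CU (Fin a) 2) h U ∂pw (Fin a) Λ := by
    rw [← lintegral_add_left (mIA.fun_mul (measurable_Hs hh.meas _))]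
    exact lintegral_congr fun U => Hs_split hh.even hz U
  have eD : ∫⁻ U, IA U * Dfun Λ h U ∂pw (Fin a) Λ =
      NN Λ h * ∫⁻ U, IA U ∂pw (Fin a) Λ +
        ∫⁻ U, IA U * Esh (CU (Fin a) 1) Λ h U ∂pw (Fin a) Λ +
        ∫⁻ U, IA U * Esh (NE (Fin a)) Λ h U ∂pw (Fin a) Λ +
        ∫⁻ U, IA U * Efr Λ h U ∂pw (Fin a) Λ := by
    rw [← lintegral_const_mul _ mIA, ← lintegral_add_left (mIA.const_mul _),
      ← lintegral_add_right _ (mIA.fun_mul (measurable_Esh hh.meas _)),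
      ← lintegral_add_right _ (mIA.fun_mul (measurable_Efr hh.meas))]
    refine lintegral_congr fun U => ?_
    rw [Dfun_eq hh.even, Esh_split]
    ring
  have fNI : NN Λ h * ∫⁻ U, IA U ∂pw (Fin a) Λ ≠ ∞ := ENNReal.mul_ne_top fN f0
  have fD : ∫⁻ U, IA U * Dfun Λ h U ∂pw (Fin a) Λ ≠ ∞ := by
    rw [eD]
    exact ENNReal.add_ne_top.2 ⟨ENNReal.add_ne_top.2 ⟨ENNReal.add_ne_top.2 ⟨fNI, fE1⟩, fEr⟩, fEf⟩
  obtain ⟨_, fT, hT⟩ := second_two R hd4 hh.meas hh.nonneg fm c mIA rfl rfl rfl rfl f0 fH2 fD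
  have hb0 : 0 ≤ (m1 Λ h).toReal + |c| := add_nonneg ENNReal.toReal_nonneg (abs_nonneg c)
  have hcs := level2a1_cs (μ := pw (Fin a) Λ) mIA (measurable_Hs hh.meas {κ | κ ≠ 0}) hb0 f0 fH2
  rw [eH, ENNReal.toReal_add fA2 fRH] at hcs
  rw [eH, eD, ENNReal.toReal_add fA2 fRH,
    ENNReal.toReal_add (ENNReal.add_ne_top.2 ⟨ENNReal.add_ne_top.2 ⟨fNI, fE1⟩, fEr⟩) fEf,
    ENNReal.toReal_add (ENNReal.add_ne_top.2 ⟨fNI, fE1⟩) fEr, ENNReal.toReal_add fNI fE1,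
    ENNReal.toReal_mul, ← hs, ← hN, hca] at hT
  have hb : (m1 Λ h).toReal + |c| ≤ |s| + 2 * (1 + ξ) := by
    have h1 : c = (m1 Λ h).toReal - s := by rw [hs]; ring
    have h2 : |c| ≤ (m1 Λ h).toReal + |s| := by
      rw [h1]
      refine (abs_sub _ _).trans ?_
      rw [abs_of_nonneg ENNReal.toReal_nonneg]
    linarith
  have hio := level2a1_imp had
  have hioe : imp (a + 2) d ≤ 8 * 2 ^ a * Real.exp (-(1.155 * hd ι)) := by
    refine (imp_le hd5).trans (le_of_eq ?_)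
    ring
  have key := level2a1_real ENNReal.toReal_nonneg hI0M ENNReal.toReal_nonneg hRH
    ENNReal.toReal_nonneg hH2 hE1 ENNReal.toReal_nonneg hEr ENNReal.toReal_nonneg hEf
    (by rw [hN]; exact ENNReal.toReal_nonneg) hb0 hb hio.1 hio.2 hioe hcs hT
  rw [hgF]
  refine ⟨fT, ?_⟩
  rw [e0, eA2, eE1, ENNReal.toReal_mul, ENNReal.toReal_mul, ENNReal.toReal_mul,
    ENNReal.toReal_mul, level2a1_cast, ENNReal.toReal_natCast, ENNReal.toReal_pow,
    ENNReal.toReal_pow, ENNReal.toReal_pow, ← hM] at key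
  rw [evA_append, add_mul (evA (hd ι) ξ a LE)]
  convert key using 3
  · push_cast
    ring

end Pool.Agent.Eps.P
end
end

-- part Pool.Agent.Lib.MP_3bda03_nt.P.Level2A
section

/-!
The terms of the sieve on the test side, one size at a time.
-/

set_option autoImplicit false

noncomputable section

open MeasureTheory Matrix
open scoped ENNReal

namespace Pool.Agent.Eps.P

open Pool.Agent.Eps.H

variable {ι : Type} [Fintype ι] [DecidableEq ι] {Ω : Type} [MeasurableSpace Ω]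
  {P : Measure Ω} {g : Ω → Matrix ι ι ℝ} {Λ : Measure (ι → ℝ)} {d : ℕ} {ξ : ℝ}
  {τ : Type} [Fintype τ] [DecidableEq τ] {h : (ι → ℝ) → ℝ}

variable (hn : 97 ≤ Fintype.card ι) (R : RL P g Λ d) (G : Good Λ ξ) (hd5 : 5 * hd ι / 3 ≤ d)
include hn R G hd5

theorem level2A_int (ha : Fintype.card τ ≤ KK ι) (hh : Hf h) (hz : ∀ y ∈ BB ι, h y = 0)
    {F : Matrix τ ι ℝ → ℝ≥0∞} (hF : Measurable F) (hle : ∀ U, F U ≤ IA U) {p x e k : ℝ}
    (hp : 0 ≤ p) (hx : 0 ≤ x) (he0 : 0 ≤ e) (hk : 0 ≤ k)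
    (hI : ∫⁻ U, F U ∂pw τ Λ ≤ ENNReal.ofReal (((1 + ξ) * VV (hd ι)) ^ Fintype.card τ * p))
    (he : ∀ U : Matrix τ ι ℝ, (∀ i, U i ∈ AA ι) → Esh (CU τ 1) Λ h U ≤ ENNReal.ofReal e) :
    ∫⁻ U, F U * (ENNReal.ofReal x + ENNReal.ofReal k * Hs {κ | κ ≠ 0} h U ^ 2 + Dfun Λ h U)
        ∂pw τ Λ ≤
      ENNReal.ofReal (((1 + ξ) * VV (hd ι)) ^ Fintype.card τ *
        (p * (x + (NN Λ h).toReal + e) + k * (evA (hd ι) ξ (Fintype.card τ) LSS * vp (hd ι)) +
          evA (hd ι) ξ (Fintype.card τ) (LE ++ Lfr) * vp (hd ι))) := by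
  have := R.sf
  have hv := hd_ge hn
  have hN : NN Λ h ≠ ∞ := ne_top_of_le_ne_top ENNReal.ofReal_ne_top (G.NN_le hn hh)
  have m1 : Measurable fun U : Matrix τ ι ℝ => IA U * Hs {κ | κ ≠ 0} h U ^ 2 :=
    measurable_IA.mul ((measurable_Hs hh.meas _).pow_const 2)
  have m2 : Measurable fun U : Matrix τ ι ℝ => IA U * Esh (NE τ) Λ h U :=
    measurable_IA.mul (measurable_Esh hh.meas _)
  have m3 : Measurable fun U : Matrix τ ι ℝ => IA U * Efr Λ h U :=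
    measurable_IA.mul (measurable_Efr hh.meas)
  have n0 : 0 ≤ (NN Λ h).toReal := ENNReal.toReal_nonneg
  have hM : 0 ≤ ((1 + ξ) * VV (hd ι)) ^ Fintype.card τ := by
    have := G.nonneg
    have := lb_ge hv
    unfold VV
    positivity
  have e1 := evA_nonneg hv G.nonneg (Fintype.card τ) LSS
  have e2 := evA_nonneg hv G.nonneg (Fintype.card τ) LE
  have e3 := evA_nonneg hv G.nonneg (Fintype.card τ) Lfr
  have e4 := (vp_pos hv).le
  calc _ ≤ ∫⁻ U, ENNReal.ofReal (x + (NN Λ h).toReal + e) * F U +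
          ENNReal.ofReal k * (IA U * Hs {κ | κ ≠ 0} h U ^ 2) + IA U * Esh (NE τ) Λ h U +
          IA U * Efr Λ h U ∂pw τ Λ := by
        refine lintegral_mono fun U => ?_
        by_cases hU : ∀ i, U i ∈ AA ι
        · rw [Dfun_eq hh.even, Esh_split, ENNReal.ofReal_add (by positivity) he0,
            ENNReal.ofReal_add hx n0, ENNReal.ofReal_toReal hN]
          calc _ = (ENNReal.ofReal x + NN Λ h + Esh (CU τ 1) Λ h U) * F U +
                ENNReal.ofReal k * (F U * Hs {κ | κ ≠ 0} h U ^ 2) + F U * Esh (NE τ) Λ h U +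
                F U * Efr Λ h U := by ring
            _ ≤ _ := by
              have := hle U
              have := he U hU
              gcongr
        · have l := hle U
          rw [IA_eq_zero hU, nonpos_iff_eq_zero] at l
          rw [l, zero_mul]
          exact zero_le
    _ = ENNReal.ofReal (x + (NN Λ h).toReal + e) * ∫⁻ U, F U ∂pw τ Λ +
          ENNReal.ofReal k * ∫⁻ U, IA U * Hs {κ | κ ≠ 0} h U ^ 2 ∂pw τ Λ +
          ∫⁻ U, IA U * Esh (NE τ) Λ h U ∂pw τ Λ + ∫⁻ U, IA U * Efr Λ h U ∂pw τ Λ := by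
        rw [lintegral_add_right _ m3, lintegral_add_right _ m2,
          lintegral_add_right _ (m1.const_mul _), lintegral_const_mul _ hF,
          lintegral_const_mul _ m1]
    _ ≤ _ := by
        refine (add_le_add (add_le_add (add_le_add (mul_le_mul_right hI _)
          (mul_le_mul_right (Hsq_le hn R G hd5 ha hh hz) _)) (Er_le hn R G hd5 ha hh))
          (Efr_int hn R G hd5 ha hh)).trans (le_of_eq ?_)
        rw [← ENNReal.ofReal_mul (by positivity), ← ENNReal.ofReal_mul hk,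
          ← ENNReal.ofReal_add (by positivity) (by positivity),
          ← ENNReal.ofReal_add (by positivity) (by positivity),
          ← ENNReal.ofReal_add (by positivity) (by positivity), evA_append]
        congr 1
        ring

theorem bad_term {a : ℕ} (ha : a ≤ KK ι) (hh : Hf h) (hz : ∀ y ∈ BB ι, h y = 0) (c : ℝ)
    {s N : ℝ} (hs : s = (m1 Λ h).toReal - c) (hN : N = (NN Λ h).toReal) :
    TT P g (fun ω => YY h c (g ω)) (badF (fun _ _ => True) (KK ι) a) ≤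
      ENNReal.ofReal (((1 + ξ) * VV (hd ι)) ^ a *
        (evA (hd ι) ξ a LPS * (2 * s ^ 2 + N + (1 + ξ) * (mSup.ev (hd ι) * vp (hd ι))) +
          2.003 * (evA (hd ι) ξ a LSS * vp (hd ι)) +
          1.001 * (evA (hd ι) ξ a (LE ++ Lfr) * vp (hd ι)) +
          8 * 2 ^ a * Real.exp (-(1.155 * hd ι)) * (3 * s ^ 2 + N + 13 * (1 + ξ) ^ 2))) := by
  have := R.sf
  have hv := hd_ge hn
  have hξ := G.nonneg
  have ha' : Fintype.card (Fin a) ≤ KK ι := by rwa [Fintype.card_fin]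
  have hda : a + 13 ≤ d := by
    have h1 : (a : ℝ) ≤ KK ι := by exact_mod_cast ha
    have h2 := KK_le (ι := ι)
    have : (a : ℝ) + 13 ≤ d := by linarith
    exact_mod_cast this
  have hF := measurable_badF (ι := ι) her_true (KK ι) a
  have hle : ∀ U, badF (ι := ι) (fun _ _ => True) (KK ι) a U ≤ IA U := fun U =>
    mul_le_of_le_one_right' (ind_le_one _)
  have e0 := evA_nonneg hv hξ a LPS
  have e1 := evA_nonneg hv hξ a LSS
  have e2 := evA_nonneg hv hξ a (LE ++ Lfr)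
  have e3 := Mono.ev_nonneg hv mSup
  have e4 := (vp_pos hv).le
  have n0 : 0 ≤ N := hN ▸ ENNReal.toReal_nonneg
  have hM : 0 ≤ ((1 + ξ) * VV (hd ι)) ^ a := by
    have := lb_ge hv
    unfold VV
    positivity
  have h1 := level2A_int hn R G hd5 ha' hh hz hF hle (x := 2 * s ^ 2) (k := 2) e0 (by positivity)
    (by positivity) zero_le_two (by rw [Fintype.card_fin]; exact bad_le hn R G hd5 ha)
    fun U hU => (E1_sup hn R G hd5 ha' hh hU).1
  have h2 := level2A_int hn R G hd5 ha' hh hz hF hle (x := 3 * s ^ 2 + 12 * (1 + ξ) ^ 2) (k := 3)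
    zero_le_one (by positivity) (by positivity) zero_le_three
    (by rw [mul_one]; exact (lintegral_mono hle).trans (G.lintegral_IA hn))
    fun U hU => (E1_sup hn R G hd5 ha' hh hU).2
  have h3 := second_le R (τ := Fin a) (by rw [Fintype.card_fin]; omega) hh.meas hh.nonneg
    (T := 1 + ξ) (by positivity) (G.m1_le hn hh) c hF
  rw [ENNReal.ofReal_mul zero_le_two, ENNReal.ofReal_ofNat] at h1
  rw [ENNReal.ofReal_add (by positivity) (by positivity), ENNReal.ofReal_mul zero_le_three,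
    ENNReal.ofReal_mul (by norm_num), ENNReal.ofReal_ofNat, ENNReal.ofReal_ofNat] at h2
  simp only [add_right_comm _ (12 * ENNReal.ofReal ((1 + ξ) ^ 2))] at h2 h3
  rw [Fintype.card_fin, ← hN] at h1 h2
  rw [Fintype.card_fin, ← hs] at h3
  have i0 : 0 ≤ imp (a + 2) d := by unfold imp; positivity
  have i1 : imp (a + 2) d ≤ 8 * 2 ^ a * Real.exp (-(1.155 * hd ι)) :=
    (imp_le hd5).trans (le_of_eq (by ring))
  have i2 : imp (a + 2) d ≤ 0.001 := by
    have : (2 : ℝ) ^ (a + 13) ≤ 2 ^ d := pow_le_pow_right₀ one_le_two hda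
    have h0 : (0 : ℝ) < 2 ^ a := by positivity
    rw [imp, div_le_iff₀ (by positivity), pow_add]
    rw [pow_add] at this
    linarith
  refine h3.trans ((add_le_add h1 (mul_le_mul_right h2 _)).trans ?_)
  rw [← ENNReal.ofReal_mul i0, ← ENNReal.ofReal_add (by positivity) (by positivity)]
  refine ENNReal.ofReal_le_ofReal ?_
  rw [mul_left_comm (imp _ _), ← mul_add]
  refine mul_le_mul_of_nonneg_left ?_ hM
  have j1 := mul_le_mul_of_nonneg_right i2 (mul_nonneg e1 e4)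
  have j2 := mul_le_mul_of_nonneg_right i2 (mul_nonneg e2 e4)
  have j3 := mul_le_mul_of_nonneg_right i1
    (show 0 ≤ 3 * s ^ 2 + N + 13 * (1 + ξ) ^ 2 by positivity)
  linarith

end Pool.Agent.Eps.P
end
end

-- part Pool.Agent.Lib.MP_3bda03_nt.P.Level2
section

/-!
The second moment on the hole, given a good intensity measure.
-/

set_option autoImplicit false

noncomputable section

open MeasureTheory Matrix
open scoped ENNReal

namespace Pool.Agent.Eps.P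

open Pool.Agent.Eps.H

variable {ι : Type} [Fintype ι] [DecidableEq ι] {Ω : Type} [MeasurableSpace Ω]
  {P : Measure Ω} {g : Ω → Matrix ι ι ℝ} {Λ : Measure (ι → ℝ)} {d : ℕ} {ξ : ℝ}
  {τ : Type} [Fintype τ] [DecidableEq τ] {h : (ι → ℝ) → ℝ}

variable (hn : 97 ≤ Fintype.card ι) (R : RL P g Λ d) (G : Good Λ ξ) (hd5 : 5 * hd ι / 3 ≤ d)
include hn R G hd5

omit hd5 in
theorem level2_x_le : (Λ (AA ι)).toReal / 2 ≤ (1 + ξ) * lb (hd ι) := by
  have := R.sf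
  have hl := lb_ge (hd_ge hn)
  have hξ := G.nonneg
  have h1 := ENNReal.toReal_le_of_le_ofReal (by unfold VV; positivity) (G.mass hn)
  unfold VV at h1
  linarith

theorem abs_TK_le_E1 {j : ℕ} (h1 : KK ι ≤ j + 2) :
    |TK j ((Λ (AA ι)).toReal / 2)| ≤ evT (hd ι) ξ E1 := by
  have := R.sf
  have hx : 0 ≤ (Λ (AA ι)).toReal / 2 := by positivity
  have h2 := abs_TK_sub_le j hx
  have h3 := level2_tail (hd_ge hn) KK_gt hx (level2_x_le hn R G) (j := j) 25 (by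
    have : (5 : ℝ) ^ (KK ι + 1) ≤ 5 ^ (j + 1 + 2) := pow_le_pow_right₀ (by norm_num) (by omega)
    rw [pow_add _ (j + 1)] at this
    linarith)
  have h4 := G.exp_neg_le hn
  have h5 := Real.exp_pos (-((Λ (AA ι)).toReal / 2))
  rw [level2_evE1]
  rw [abs_le] at h2 ⊢
  constructor <;> linarith [h2.1, h2.2]

theorem abs_TK_sub_le_TR :
    |TK (KK ι) ((Λ (AA ι)).toReal / 2) - Real.exp (-((Λ (AA ι)).toReal / 2))| ≤
      evT (hd ι) ξ TR := by
  have hx : 0 ≤ (Λ (AA ι)).toReal / 2 := by positivity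
  rw [level2_evTR]
  exact (abs_TK_sub_le _ hx).trans
    (level2_tail (hd_ge hn) KK_gt hx (level2_x_le hn R G) 1 (by rw [one_mul]))

theorem level2 (hh : Hf h) (hz : ∀ y ∈ BB ι, h y = 0) (c : ℝ) {s N : ℝ}
    (hs : s = (m1 Λ h).toReal - c) (hN : N = (NN Λ h).toReal) :
    ∫⁻ ω, hole (g ω) * YY h c (g ω) ∂P ≠ ∞ ∧
    |(∫⁻ ω, hole (g ω) * YY h c (g ω) ∂P).toReal -
        Real.exp (-((Λ (AA ι)).toReal / 2)) * (s ^ 2 + N)| ≤
      evT (hd ι) ξ L1 * s ^ 2 + evT (hd ι) ξ L2 * N + evT (hd ι) ξ L3 * vp (hd ι) := by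
  have hv := hd_ge hn
  have hξ := G.nonneg
  have hN0 : 0 ≤ N := hN ▸ ENNReal.toReal_nonneg
  have hl := lb_ge hv
  have hp := vp_pos hv
  have hV : 0 ≤ (1 + ξ) * VV (hd ι) := by
    unfold VV
    positivity
  have hS := Mono.ev_nonneg hv mSup
  have hK2 : 2 ≤ KK ι := by
    unfold KK
    omega
  have hg := fun a (ha : a ≤ KK ι) => good_term hn R G hd5 ha hh hz c hs hN rfl
  obtain ⟨f1, f2⟩ := sieve_int hn her_true (KK ι) R.meas R.det
    ((measurable_YY hh.meas hh.nonneg c).comp R.meas) (fun a ha => (hg a ha).1)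
    (B := fun a => ((1 + ξ) * VV (hd ι)) ^ a *
        (evA (hd ι) ξ a LPS * (2 * s ^ 2 + N + (1 + ξ) * (mSup.ev (hd ι) * vp (hd ι))) +
          2.003 * (evA (hd ι) ξ a LSS * vp (hd ι)) +
          1.001 * (evA (hd ι) ξ a (LE ++ Lfr) * vp (hd ι)) +
          8 * 2 ^ a * Real.exp (-(1.155 * hd ι)) * (3 * s ^ 2 + N + 13 * (1 + ξ) ^ 2)) +
        ((1 + ξ) * VV (hd ι)) ^ a * 2 ^ a *
          (16 * lb (hd ι) * (1 + ξ) * Real.exp (-(1.155 * hd ι))) *
          (6 * s ^ 2 + 2 * N + 40 * (1 + ξ) ^ 2 + 288 * (1 + ξ) * (9 ^ a * (2 : ℝ) ^ (-hd ι))))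
    (fun a _ => by
      have p1 := evA_nonneg hv hξ a LPS
      have p2 := evA_nonneg hv hξ a LSS
      have p3 := evA_nonneg hv hξ a (LE ++ Lfr)
      positivity)
    (fun a ha => by
      have p1 := evA_nonneg hv hξ a LPS
      have p2 := evA_nonneg hv hξ a LSS
      have p3 := evA_nonneg hv hξ a (LE ++ Lfr)
      have t1 := TI_le (τ := Fin a) hn R G hd5 (by simpa using ha) hh c
      rw [Fintype.card_fin, ← hs, ← hN] at t1
      rw [ENNReal.ofReal_add (by positivity) (by positivity)]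
      exact add_le_add (bad_term hn R G hd5 ha hh hz c hs hN) t1)
  refine ⟨f1, ?_⟩
  have hsum := level2_sum (s := s) hv hξ hN0 (KK_le (ι := ι))
  set x := (Λ (AA ι)).toReal / 2 with hx
  have ex : (Λ (AA ι)).toReal = 2 * x := by rw [hx]; ring
  have alt := alt_sum (KK ι) hK2 x (s ^ 2 + N) (JT Λ h).toReal (2 * s * (JC Λ h).toReal)
  have f3 : |∑ a ∈ Finset.range (KK ι + 1), (-1) ^ a * cw a *
        (TT P g (fun ω => YY h c (g ω)) (goodF (fun _ _ => True) a)).toReal -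
      (TK (KK ι) x * (s ^ 2 + N) - 2 * TK (KK ι - 1) x * (JT Λ h).toReal +
        TK (KK ι - 2) x * (2 * s * (JC Λ h).toReal) / 2)| ≤
      ∑ a ∈ Finset.range (KK ι + 1), cw a * (((1 + ξ) * VV (hd ι)) ^ a *
        (1.003 * (evA (hd ι) ξ a LSS * vp (hd ι)) +
          2 * |s| * (evA (hd ι) ξ a LRH * Real.sqrt (vp (hd ι))) +
          1.001 * (evA (hd ι) ξ a (LE ++ Lfr) * vp (hd ι)) +
          8 * 2 ^ a * Real.exp (-(1.155 * hd ι)) * (3 * s ^ 2 + N + 13 * (1 + ξ) ^ 2))) := by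
    rw [← alt, ← Finset.sum_sub_distrib]
    refine (Finset.abs_sum_le_sum_abs _ _).trans (Finset.sum_le_sum fun a ha => ?_)
    have t := (hg a (Nat.lt_succ_iff.1 (Finset.mem_range.1 ha))).2
    rw [ex] at t
    rw [← mul_sub, abs_mul, abs_mul, abs_pow, abs_neg, abs_one, one_pow, one_mul,
      abs_of_pos (cw_pos a)]
    exact mul_le_mul_of_nonneg_left t (cw_pos a).le
  have g1 := abs_TK_sub_le_TR hn R G hd5
  have g2 := abs_TK_le_E1 hn R G hd5 (j := KK ι - 1) (by omega)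
  have g3 := abs_TK_le_E1 hn R G hd5 (j := KK ι - 2) (by omega)
  rw [← hx] at g1 g2 g3
  have hT : 1 + ξ ≤ Real.exp ξ := by linarith [Real.add_one_le_exp ξ]
  have hT2 : (1 + ξ) ^ 2 ≤ Real.exp (2 * ξ) := by
    rw [show (2 : ℝ) * ξ = (2 : ℕ) * ξ by norm_num, Real.exp_nat_mul]
    exact pow_le_pow_left₀ (by positivity) hT 2
  have hmT := Mono.ev_nonneg hv mT
  have hmC := Mono.ev_nonneg hv mC2
  have hE1 := evT_nonneg hv ξ E1
  have j1 : (JT Λ h).toReal ≤ Real.exp (2 * ξ) * (mT.ev (hd ι) * vp (hd ι)) :=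
    (ENNReal.toReal_le_of_le_ofReal (by positivity) (JT_le hn R G hd5 hh)).trans
      (mul_le_mul_of_nonneg_right hT2 (by positivity))
  have j2 : (JC Λ h).toReal ≤
      Real.exp (2 * ξ) * (4 * lb (hd ι) ^ 2) * (mC2.ev (hd ι) * Real.sqrt (vp (hd ι))) := by
    refine (ENNReal.toReal_le_of_le_ofReal (by positivity) (JC_le hn R G hd5 hh hz)).trans
      (mul_le_mul_of_nonneg_right ?_ (by positivity))
    rw [mul_pow, VV, show (2 * lb (hd ι)) ^ 2 = 4 * lb (hd ι) ^ 2 by ring]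
    exact mul_le_mul_of_nonneg_right hT2 (by positivity)
  have k1 : |(TK (KK ι) x - Real.exp (-x)) * (s ^ 2 + N)| ≤ evT (hd ι) ξ TR * (s ^ 2 + N) := by
    rw [abs_mul, abs_of_nonneg (show 0 ≤ s ^ 2 + N by positivity)]
    exact mul_le_mul_of_nonneg_right g1 (by positivity)
  have k2 : |TK (KK ι - 1) x * (JT Λ h).toReal| ≤
      evT (hd ι) ξ E1 * (Real.exp (2 * ξ) * (mT.ev (hd ι) * vp (hd ι))) := by
    rw [abs_mul, abs_of_nonneg ENNReal.toReal_nonneg]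
    exact mul_le_mul g2 j1 ENNReal.toReal_nonneg hE1
  have k3 : |TK (KK ι - 2) x * (s * (JC Λ h).toReal)| ≤ evT (hd ι) ξ E1 * (|s| *
      (Real.exp (2 * ξ) * (4 * lb (hd ι) ^ 2) * (mC2.ev (hd ι) * Real.sqrt (vp (hd ι))))) := by
    rw [abs_mul, abs_mul, abs_of_nonneg ENNReal.toReal_nonneg]
    exact mul_le_mul g3 (mul_le_mul_of_nonneg_left j2 (abs_nonneg s)) (by positivity) hE1
  have am : |s| * Real.sqrt (vp (hd ι)) ≤ 0.1 * s ^ 2 + 2.5 * vp (hd ι) := by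
    have e1 := sq_abs s
    have e2 := Real.sq_sqrt hp.le
    nlinarith [sq_nonneg (|s| - 5 * Real.sqrt (vp (hd ι)))]
  have k4 := mul_le_mul_of_nonneg_left am (evT_nonneg hv ξ RC)
  have k5 := mul_le_mul_of_nonneg_left (level2_mIv hv)
    (show 0 ≤ evT (hd ι) ξ I0 * (26 * Real.exp (2 * ξ)) from
      mul_nonneg (evT_nonneg hv ξ I0) (by positivity))
  have k6 := mul_le_mul_of_nonneg_left (level2_mIv hv)
    (show 0 ≤ evT (hd ι) ξ I1 * (40 * Real.exp (2 * ξ)) from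
      mul_nonneg (evT_nonneg hv ξ I1) (by positivity))
  have k7 : evT (hd ι) ξ RC * (|s| * Real.sqrt (vp (hd ι))) =
      evT (hd ι) ξ E1 * (|s| * (Real.exp (2 * ξ) * (4 * lb (hd ι) ^ 2) *
        (mC2.ev (hd ι) * Real.sqrt (vp (hd ι))))) +
      2 * evT (hd ι) ξ (toT LRH) * (|s| * Real.sqrt (vp (hd ι))) := by
    rw [level2_evRC hv]
    ring
  rw [level2_evL1 hv, level2_evL2 hv, level2_evL3 hv]
  simp only [Function.comp_def] at f2
  rw [abs_le] at f2 f3 k1 k2 k3 ⊢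
  constructor <;> linarith [f2.1, f2.2, f3.1, f3.2, k1.1, k1.2, k2.1, k2.2, k3.1, k3.2]

end Pool.Agent.Eps.P
end
end
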