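import Pool.Agent.Lib.MP_3bda03_nt.P.PtErr1
import Pool.Agent.Lib.MP_3bda03_nt.P.FreeB
import Pool.Agent.Lib.MP_3bda03_nt.P.FreeA
import Pool.Agent.Lib.MP_3bda03_nt.P.Level2

-- part Pool.Agent.Lib.MP_3bda03_nt.P.PtErr
section

/-!
The error of the conditional moment for one nice frame.
-/

set_option autoImplicit false

noncomputable section

open MeasureTheory Matrix
open scoped ENNReal

namespace Pool.Agent.Eps.P

open Pool.Agent.Eps.H

variable {α ι : Type} [Fintype α] [DecidableEq α] [Fintype ι] [DecidableEq ι] {φ : ℝ → ℝ}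

theorem pterr_S2L : ∀ t ∈ S2L, t.c = 0 := by
  intro t ht
  simp only [S2L, polD, List.mem_append, List.mem_map, List.mem_cons, List.not_mem_nil,
    or_false] at ht
  rcases ht with (⟨_, _, rfl⟩ | ⟨_, _, rfl⟩) | rfl | rfl <;> rfl

/-- an affine function of the level -/
def pterr_F (c0 c1 : ℝ) (X : Matrix α ι ℝ) : ℝ≥0∞ :=
  ENNReal.ofReal c0 + ENNReal.ofReal c1 * Gam2 X

omit [DecidableEq ι] in
theorem pterr_meas (hn : 97 ≤ Fintype.card ι) (c0 c1 : ℝ) :
    Measurable (pterr_F c0 c1 : Matrix α ι ℝ → ℝ≥0∞) :=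
  measurable_const.add (measurable_const.mul (measurable_Gam2 hn))

omit [DecidableEq ι] in
theorem pterr_joint (hn : 97 ≤ Fintype.card ι) (hb : Fintype.card α ≤ KK ι) {c0 c1 B : ℝ}
    (h0 : 0 ≤ c0) (h1 : 0 ≤ c1) (hB : c0 + c1 * evD (hd ι) (Fintype.card α) GAM ≤ B) :
    Joint (pterr_F c0 c1 : Matrix α ι ℝ → ℝ≥0∞) B :=
  ((joint_const hn h0).add hn ((joint_Gam2 hn hb).const_mul hn h1 (measurable_Gam2 hn))
    measurable_const (measurable_const.mul (measurable_Gam2 hn))).mono (fun _ => le_rfl) hn hB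

omit [DecidableEq α] [DecidableEq ι] in
theorem pterr_pt {c0 c1 E y : ℝ} (h0 : 0 ≤ c0) (h1 : 0 ≤ c1) (hy : 0 ≤ y) {X : Matrix α ι ℝ}
    (hX : Gam2 X ≠ ∞) (hE : E ≤ c0 + c1 * (Gam2 X).toReal) :
    ENNReal.ofReal (E * y) ≤ pterr_F c0 c1 X * ENNReal.ofReal y := by
  have h2 : ENNReal.ofReal (c0 + c1 * (Gam2 X).toReal) = pterr_F c0 c1 X := by
    rw [ENNReal.ofReal_add h0 (mul_nonneg h1 ENNReal.toReal_nonneg), ENNReal.ofReal_mul h1,
      ENNReal.ofReal_toReal hX, pterr_F]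
  rw [← h2, ← ENNReal.ofReal_mul (add_nonneg h0 (mul_nonneg h1 ENNReal.toReal_nonneg))]
  exact ENNReal.ofReal_le_ofReal (mul_le_mul_of_nonneg_right hE hy)

theorem pterr_sq {c : ℝ} (hc : 0 ≤ c) (S : ℝ≥0∞) :
    ENNReal.ofReal (c * S.toReal ^ 2) ≤ ENNReal.ofReal c * S ^ 2 := by
  rw [ENNReal.ofReal_mul hc, ← ENNReal.toReal_pow]
  exact mul_le_mul_right ENNReal.ofReal_toReal_le _

omit [DecidableEq ι] in
theorem pterr_const (hn : 97 ≤ Fintype.card ι) {F : Matrix α ι ℝ → ℝ≥0∞} {B y : ℝ}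
    (hJ : Joint F B) (hF : Measurable F) :
    ∫⁻ X, IA X * F X * ENNReal.ofReal y ≤
      ENNReal.ofReal (VV (hd ι) ^ Fintype.card α * (B * y)) := by
  have hV := basic1_V (hd_ge hn)
  rw [lintegral_mul_const _ (measurable_IA.fun_mul hF), ← mul_assoc,
    ENNReal.ofReal_mul (mul_nonneg (pow_nonneg hV.le _) hJ.1)]
  exact mul_le_mul_left hJ.2.1 _

variable (hn : 97 ≤ Fintype.card ι) (hb : Fintype.card α ≤ KK ι) (hφ : Tst ι φ)
include hn hb hφ

/-- the mean of that error over nice frames -/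
theorem err_int (m : ℝ) :
    ∫⁻ X : Matrix α ι ℝ, IA X * ind (nice X) * ENNReal.ofReal
      (evT (hd ι) ((Gam2 X).toReal + Fintype.card α * g1 (hd ι)) L1 *
          (1.15 * s1 (rad φ) m X ^ 2) +
        0.00767 * (1 + ((|tilt 3 5| : ℚ) : ℝ) / lb (hd ι)) ^ Fintype.card α *
          (S2a (rad φ) X).toReal ^ 2 +
        evT (hd ι) ((Gam2 X).toReal + Fintype.card α * g1 (hd ι)) (scT (cM 1) 1 L2) *
          Nz (rad φ : (ι → ℝ) → ℝ) +
        evT (hd ι) ((Gam2 X).toReal + Fintype.card α * g1 (hd ι)) L3 * vp (hd ι)) ≤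
      ENNReal.ofReal (VV (hd ι) ^ Fintype.card α *
        (evD (hd ι) (Fintype.card α) AY * Yb (hd ι) m (Fintype.card α) +
          evD (hd ι) (Fintype.card α) AN * Nz (rad φ : (ι → ℝ) → ℝ) +
          evD (hd ι) (Fintype.card α) AP * vp (hd ι))) := by
  have hv := hd_ge hn
  have hh := hφ.hf hn
  have hV := basic1_V hv
  have hp := vp_pos hv
  have hN : 0 ≤ Nz (rad φ : (ι → ℝ) → ℝ) :=
    mul_nonneg zero_le_two (integral_nonneg fun _ => sq_nonneg _)
  have hY : 0 ≤ Yb (hd ι) m (Fintype.card α) := by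
    unfold Yb
    positivity
  have hx : 0 ≤ xi2 (hd ι) := div_nonneg (by norm_num) (mom_lb_pos hv).le
  obtain ⟨a0, a1, ha0, ha1, ha2, ha3⟩ := evT_lift_le hv (Fintype.card α) L_small.1
  obtain ⟨b0, b1, hb0, hb1, hb2, hb3⟩ := evT_lift_le hv (Fintype.card α) L_small.2.1
  obtain ⟨c0, c1, hc0, hc1, hc2, hc3⟩ := evT_lift_le hv (Fintype.card α) L_small.2.2
  have JA := pterr_joint (α := α) hn hb ha0 ha1 ha2
  have JB := pterr_joint (α := α) hn hb hb0 hb1 hb2
  have JC := pterr_joint (α := α) hn hb hc0 hc1 hc2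
  set κ : ℝ := 0.00767 * (1 + ((|tilt 3 5| : ℚ) : ℝ) / lb (hd ι)) ^ Fintype.card α with hκ
  have hκ0 : 0 ≤ κ := mul_nonneg (by norm_num) (pow_nonneg (mom_tilt_pos hv _) _)
  have m1 : Measurable fun X : Matrix α ι ℝ =>
      IA X * pterr_F a0 a1 X * ENNReal.ofReal (1.15 * s1 (rad φ) m X ^ 2) :=
    (measurable_IA.mul (pterr_meas hn _ _)).mul
      (measurable_const.mul ((measurable_s1 hn hh m).pow_const 2)).ennreal_ofReal
  have m2 : Measurable fun X : Matrix α ι ℝ => IA X * S2a (rad φ) X ^ 2 :=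
    measurable_IA.mul ((measurable_S2a hn hh).pow_const 2)
  have m3 : Measurable fun X : Matrix α ι ℝ =>
      IA X * pterr_F b0 b1 X * ENNReal.ofReal (Nz (rad φ : (ι → ℝ) → ℝ)) :=
    (measurable_IA.mul (pterr_meas hn _ _)).mul measurable_const
  have e1 := joint_s1 hn JA (pterr_meas hn _ _) hh m
  have e2 : ∫⁻ X : Matrix α ι ℝ, ENNReal.ofReal κ * (IA X * S2a (rad φ) X ^ 2) ≤
      ENNReal.ofReal (VV (hd ι) ^ Fintype.card α *
        (κ * evD (hd ι) (Fintype.card α) S2L * vp (hd ι))) := by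
    rw [lintegral_const_mul _ m2]
    refine (mul_le_mul_right (S2a_sq_le hn hh hb) _).trans (le_of_eq ?_)
    rw [← ENNReal.ofReal_mul hκ0]
    congr 1
    ring
  have e3 := pterr_const (y := Nz (rad φ : (ι → ℝ) → ℝ)) hn JB (pterr_meas hn _ _)
  have e4 := pterr_const (y := vp (hd ι)) hn JC (pterr_meas hn _ _)
  have hAP : evD (hd ι) (Fintype.card α) AP =
      evD (hd ι) (Fintype.card α) (liftT L3) + κ * evD (hd ι) (Fintype.card α) S2L := by
    rw [AP, evD_append, evD_scD hv _ _ _ pterr_S2L, ev_cM, hκ]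
    congr 3
    rw [abs_of_nonneg (by norm_num)]
    norm_num
  calc _ ≤ ∫⁻ X : Matrix α ι ℝ,
        (IA X * pterr_F a0 a1 X * ENNReal.ofReal (1.15 * s1 (rad φ) m X ^ 2) +
          ENNReal.ofReal κ * (IA X * S2a (rad φ) X ^ 2) +
          IA X * pterr_F b0 b1 X * ENNReal.ofReal (Nz (rad φ : (ι → ℝ) → ℝ)) +
          IA X * pterr_F c0 c1 X * ENNReal.ofReal (vp (hd ι))) := by
        refine lintegral_mono fun X => ?_
        by_cases hg : nice X
        · have hf : Gam2 X ≠ ∞ := ne_top_of_le_ne_top ENNReal.ofReal_ne_top hg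
          have hl : (Gam2 X).toReal ≤ xi2 (hd ι) := ENNReal.toReal_le_of_le_ofReal hx hg
          have p1 := pterr_pt (y := 1.15 * s1 (rad φ) m X ^ 2) ha0 ha1 (by positivity) hf
            (ha3 _ ENNReal.toReal_nonneg hl)
          have p2 := pterr_sq hκ0 (S2a (rad φ) X)
          have p3 := pterr_pt hb0 hb1 hN hf (hb3 _ ENNReal.toReal_nonneg hl)
          have p4 := pterr_pt hc0 hc1 hp.le hf (hc3 _ ENNReal.toReal_nonneg hl)
          rw [ind_pos hg, mul_one]
          refine (mul_le_mul_right ((ENNReal.ofReal_add_le.trans (add_le_add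
            (ENNReal.ofReal_add_le.trans (add_le_add (ENNReal.ofReal_add_le.trans
              (add_le_add p1 p2)) p3)) p4))) _).trans (le_of_eq ?_)
          ring
        · rw [ind_neg hg, mul_zero, zero_mul]
          exact zero_le
    _ ≤ _ := by
        rw [lintegral_add_left ((m1.fun_add (measurable_const.fun_mul m2)).fun_add m3),
          lintegral_add_left (m1.fun_add (measurable_const.fun_mul m2)), lintegral_add_left m1]
        refine (add_le_add (add_le_add (add_le_add e1 e2) e3) e4).trans (le_of_eq ?_)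
        have n1 := evD_nonneg hv (Fintype.card α) (liftT L1)
        have n2 := evD_nonneg hv (Fintype.card α) S2L
        have n3 := evD_nonneg hv (Fintype.card α) (liftT (scT (cM 1) 1 L2))
        have n4 := evD_nonneg hv (Fintype.card α) (liftT L3)
        rw [hAP, AY, AN]
        generalize evD (hd ι) (Fintype.card α) (liftT L1) = x1 at n1 ⊢
        generalize evD (hd ι) (Fintype.card α) S2L = x2 at n2 ⊢
        generalize evD (hd ι) (Fintype.card α) (liftT (scT (cM 1) 1 L2)) = x3 at n3 ⊢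
        generalize evD (hd ι) (Fintype.card α) (liftT L3) = x4 at n4 ⊢
        rw [← ENNReal.ofReal_add (by positivity) (by positivity),
          ← ENNReal.ofReal_add (by positivity) (by positivity),
          ← ENNReal.ofReal_add (by positivity) (by positivity)]
        congr 1
        ring

end Pool.Agent.Eps.P
end
end

-- part Pool.Agent.Lib.MP_3bda03_nt.P.FreeC
section

/-!
Free frames that the dual sieve rejects.
-/

set_option autoImplicit false

noncomputable section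

open MeasureTheory Matrix
open scoped ENNReal

namespace Pool.Agent.Eps.P

open Pool.Agent.Eps.H

variable {ι : Type} [Fintype ι] {τ : Type} [Fintype τ] [DecidableEq τ] {h : (ι → ℝ) → ℝ}

theorem freeC_log6 : (1.7916 : ℝ) ≤ Real.log 6 := by
  have h1 : Real.log (4 / 3) ≤ 0.2878 := by
    rw [Real.log_le_iff_le_exp (by norm_num)]
    refine le_trans ?_ (Real.sum_le_exp_of_nonneg (by norm_num) 5)
    norm_num [Finset.sum_range_succ, Nat.factorial]
  have h2 : Real.log 6 + Real.log (4 / 3) = 3 * Real.log 2 := by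
    rw [← Real.log_mul (by norm_num) (by norm_num), show (6 * (4 / 3) : ℝ) = 2 ^ 3 by norm_num,
      Real.log_pow]
    norm_num
  linarith [Real.log_two_gt_d9]

theorem freeC_one_le {x : ℝ≥0∞} {a : ℝ} (ha : 0 < a) (h : ENNReal.ofReal a ≤ x) (p : ℕ) :
    1 ≤ ENNReal.ofReal (a⁻¹ ^ p) * x ^ p := by
  refine le_trans (le_of_eq ?_) (mul_le_mul_right (pow_le_pow_left' h p) _)
  rw [← ENNReal.ofReal_pow ha.le, ← ENNReal.ofReal_mul (by positivity), ← mul_pow,
    inv_mul_cancel₀ ha.ne', one_pow, ENNReal.ofReal_one]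

theorem freeC_sign {κ : τ → ℤ} (h : mx κ ≤ 1) {x : τ} (hx : κ x ≠ 0) : κ x = 1 ∨ κ x = -1 := by
  have := le_mx κ x
  omega

theorem freeC_chf {v : ℝ} (m : ℕ) {t : ℝ} (h0 : 0 ≤ t) (h1 : t < 1) : 0 ≤ chf v m t := by
  induction m generalizing t with
  | zero => exact div_nonneg (Real.exp_pos _).le (by linarith)
  | succ m ih =>
    exact mul_nonneg (div_nonneg (Real.exp_pos _).le (by linarith))
      (ih (by nlinarith) (by nlinarith))

omit [DecidableEq τ] in
theorem freeC_meas {f : (ι → ℝ) → ℝ≥0∞} (hf : Measurable f) (κ : τ → ℤ) :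
    Measurable fun U : Matrix τ ι ℝ => f (lv κ U) := hf.comp (measurable_lv κ)

variable (hn : 97 ≤ Fintype.card ι) (hb : Fintype.card τ ≤ KK ι)
include hn

theorem freeC_iB_neg (y : ι → ℝ) : iB (-y) = iB y := by
  simp only [iB, Set.indicator, mem_BB hn, nx_neg, Pi.one_apply]

theorem freeC_aff {m : ℕ} {κ : τ → ℤ} (hκ : κ ∈ CG τ (m + 1)) {t a d : ℝ} (h0 : 0 ≤ t) (h1 : t < 1)
    (ha : 0 ≤ a) (hd' : 0 ≤ d) :
    Joint (fun U : Matrix τ ι ℝ => ENNReal.ofReal a * Gs t (lv κ U) + ENNReal.ofReal d)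
      (a * chf (hd ι) m t + d) :=
  ((joint_unit hn hκ h0 h1).const_mul hn ha (freeC_meas (measurable_Gs t) κ)).add hn
    (joint_const hn hd') ((freeC_meas (measurable_Gs t) κ).const_mul _) measurable_const

theorem freeC_two : Joint (fs' (CU τ 2) iB : Matrix τ ι ℝ → ℝ≥0∞)
    (2 * ff 2 (Fintype.card τ) * (1.5 * Real.exp (-(0.2787 * hd ι)))) := by
  have f2 := ff_nonneg 2 (Fintype.card τ)
  refine joint_fs' hn measurable_iB (bd := fun _ => 1.5 * Real.exp (-(0.2787 * hd ι)))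
    (fun κ hκ => joint_peel hn (by positivity) (fun i => ?_) fun e => ?_) (by positivity)
    ((cs_CU_le (by positivity) fun _ _ => le_rfl).trans (le_of_eq (by norm_num)))
  · obtain ⟨l, k, h1, h2, h3, h4, -⟩ := exists_list (j := 1) hκ.2.ge i
    refine ⟨l, k, fun j => if j = 0 then iB else Gs (1 / 3), fun _ => eL (hd ι) 1,
      En (hd ι) (1 / 3), h2, h4, rfl, fun j => ?_, fun _ => (Real.exp_pos _).le,
      freeC_chf (v := hd ι) 0 (by norm_num) (by norm_num), fun j hj z => ?_, fun ρ μ hρ z => ?_,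
      by simpa [h1] using chf_tri (hd_ge hn)⟩
    · dsimp only
      split_ifs
      exacts [measurable_iB, measurable_Gs _]
    · obtain rfl : j = 0 := by omega
      have a := fun z : ι → ℝ => lens_le hn (x := 1) zero_le_one (by norm_num) z
      rw [show (1 / (4 - 1) : ℝ) = 1 / 3 by norm_num] at a
      simp only [if_true, zero_add, one_ne_zero, if_false]
      rcases freeC_sign hκ.1 (h3 l[0] (by simp)) with e | e <;> rw [e]
      · refine le_trans (lintegral_mono fun u => ?_) (a z)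
        rw [Int.cast_one, one_smul]
        exact mul_le_mul_left (iA_le_iB u) _
      · refine le_trans (lintegral_mono fun u => ?_) ((a (-z)).trans (le_of_eq ?_))
        · rw [← freeC_iB_neg hn (u + -z), neg_add, neg_neg, Int.cast_neg, Int.cast_one, neg_smul,
            one_smul]
          exact mul_le_mul_left (iA_le_iB u) _
        · simp only [Gs, gs, nx_neg]
    · have e : ((κ k : ℝ)) ^ 2 = 1 := by
        rcases freeC_sign hκ.1 (h3 k (by simp)) with e | e <;> simp [e]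
      have a := (End.smul hn hρ (t := 1 / 3) (c := κ k) (by norm_num)
        (by exact_mod_cast h3 k (by simp)) z).1
      rw [e, mul_one] at a
      simpa [h1] using a (by norm_num)
  · have := hκ.2
    simp [e, spt] at this

theorem freeC_three : Joint (fs' (CG τ 3) iB : Matrix τ ι ℝ → ℝ≥0∞)
    (3 ^ Fintype.card τ * (3.284 * Real.exp (-(0.4375 * hd ι)))) :=
  joint_fs' hn measurable_iB (bd := fun _ => 3.284 * Real.exp (-(0.4375 * hd ι)))
    (fun κ hκ => ((joint_unit hn hκ (t := 1 / 2) (by norm_num) (by norm_num)).const_mul hn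
      (Real.exp_pos _).le (freeC_meas (measurable_Gs _) κ)).mono
        (fun _ => iB_le_Gs hn (by norm_num) _) hn (chf_r3 (hd_ge hn)))
    (by positivity) (cs_CG_le (by positivity) fun _ _ => le_rfl)

include hb

theorem freeC_big : Joint (fs' (CN τ 2) iB : Matrix τ ι ℝ → ℝ≥0∞)
    (2 * 5 ^ Fintype.card τ * (sg (hd ι) * Real.exp (-(0.5862 * hd ι)))) := by
  have hv := hd_ge hn
  have hs : 0 ≤ sg (hd ι) := le_trans (by norm_num) (sg_ge hv)
  have hk : (Fintype.card τ : ℝ) ≤ hd ι / 3 := le_trans (by exact_mod_cast hb) KK_le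
  refine joint_fs' hn measurable_iB (bd := fun κ => sg (hd ι) * Real.exp (-(0.5862 * hd ι)) *
    (((2 : ℕ) : ℝ) / mx κ) ^ (2 * hd ι)) (fun κ hκ => ?_) (by positivity)
    ((cs_CN_le le_rfl (by positivity) (by push_cast; linarith) fun _ _ => le_rfl).trans
      (le_of_eq (by norm_num)))
  have h2 : 2 ≤ mx κ := hκ
  obtain ⟨k, hk⟩ := exists_mx (κ := κ) (by omega)
  have k0 : κ k ≠ 0 := by omega
  have e : ((κ k : ℝ)) ^ 2 = (mx κ : ℝ) ^ 2 := by
    rw [← hk, Nat.cast_natAbs, Int.cast_abs, sq_abs]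
  have m2 : (2 : ℝ) ≤ mx κ := by exact_mod_cast h2
  refine ((joint_peel hn (G0 := Gs 1) (bd := sg (hd ι) * Real.exp (-(hd ι / 5)) *
    (4 / 5 + 1 * (κ k : ℝ) ^ 2) ^ (-hd ι)) (by positivity) (fun i => ⟨[], k, fun _ => Gs 1,
      fun _ => 0, _, by simp, by simp, rfl, fun _ => measurable_Gs _, fun _ => le_rfl,
      by positivity, fun j hj => absurd hj (by simp), fun ρ μ hρ z =>
        (End.smul hn hρ zero_le_one (by exact_mod_cast k0) z).2, by simp⟩)
    fun e => k0 (congrFun e k)).const_mul hn (Real.exp_pos _).le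
      (freeC_meas (measurable_Gs _) κ)).mono (fun _ => iB_le_Gs hn zero_le_one _) hn ?_
  have a1 : (4 / 5 + 1 * (κ k : ℝ) ^ 2) ^ (-hd ι) ≤
      Real.exp (-(Real.log 2 * (2 * hd ι))) * (((2 : ℕ) : ℝ) / mx κ) ^ (2 * hd ι) := by
    rw [e, Nat.cast_ofNat, Real.div_rpow (by norm_num) (by linarith),
      Real.rpow_def_of_pos two_pos, ← mul_div_assoc, ← Real.exp_add, neg_add_cancel, Real.exp_zero,
      Real.rpow_mul (by linarith), Real.rpow_two, one_div, ← Real.rpow_neg (by positivity)]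
    exact Real.rpow_le_rpow_of_nonpos (by positivity) (by linarith) (by linarith)
  have a2 : Real.exp (1 * hd ι) * Real.exp (-(hd ι / 5)) * Real.exp (-(Real.log 2 * (2 * hd ι))) ≤
      Real.exp (-(0.5862 * hd ι)) := by
    rw [← Real.exp_add, ← Real.exp_add, Real.exp_le_exp]
    nlinarith [Real.log_two_gt_d9]
  calc _ ≤ Real.exp (1 * hd ι) * (sg (hd ι) * Real.exp (-(hd ι / 5)) *
        (Real.exp (-(Real.log 2 * (2 * hd ι))) * (((2 : ℕ) : ℝ) / mx κ) ^ (2 * hd ι))) := by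
        gcongr
    _ = sg (hd ι) * (Real.exp (1 * hd ι) * Real.exp (-(hd ι / 5)) *
        Real.exp (-(Real.log 2 * (2 * hd ι)))) * (((2 : ℕ) : ℝ) / mx κ) ^ (2 * hd ι) := by ring
    _ ≤ _ := by gcongr

theorem joint_rel :
    Joint (fun U : Matrix τ ι ℝ => ind (rel U)) (evD (hd ι) (Fintype.card τ) REL) := by
  have m := fun S : Set (τ → ℤ) => measurable_fs' S (measurable_iB (ι := ι))
  refine (((((freeC_two hn).add hn (freeC_three hn) (m _) (m _)).add hn (freeC_big hn hb)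
    ((m _).add (m _)) (m _)).const_mul hn (c := 1 / 2) (by norm_num)
      (((m _).add (m _)).add (m _))).mono (fun U => ?_) hn (le_of_eq ?_))
  · by_cases h : rel U
    swap
    · rw [ind_neg h]
      exact zero_le
    obtain ⟨κ, h1, h2⟩ := h
    have a1 := ind_le_half (S := NE τ) (fun e => e.1 rfl) (fun _ e => neg_mem_NE.2 e)
      (f := fun κ => iB (lv κ U)) (fun κ => by
        rw [← freeC_iB_neg hn (lv κ U), lv, lv, ← neg_vecMul]
        congr 2
        funext i
        simp [cv]) h1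
    have a2 : 1 ≤ iB (lv κ U) := le_trans (le_of_eq (Set.indicator_of_mem h2 1).symm) (iA_le_iB _)
    have a3 := ((mul_le_mul_right a2 2).trans a1).trans ((cs_mono NE_subset _).trans
      (cs_union_le _ _ _))
    rw [CG_succ 2] at a3
    refine (ind_le_one _).trans (le_trans (le_of_eq ?_)
      (mul_le_mul_right (a3.trans (add_le_add_left (cs_union_le _ _ _) _)) _))
    rw [mul_one, ← ENNReal.ofReal_ofNat 2, ← ENNReal.ofReal_mul (by norm_num)]
    norm_num
  · simp [evD, Dt.ev, Mono.ev, REL, ff_zero]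
    norm_num
    ring

theorem joint_fail :
    Joint (fun U : Matrix τ ι ℝ => ind (¬ nice U)) (evD (hd ι) (Fintype.card τ) FAIL) := by
  have hv := hd_ge hn
  have hl : 0 < lb (hd ι) := lt_of_lt_of_le (by norm_num) (lb_ge hv)
  have f2 := ff_nonneg 2 (Fintype.card τ)
  have f3 := ff_nonneg 3 (Fintype.card τ)
  have d0 : 0 ≤ dl (hd ι) := by unfold dl; positivity
  have t1 : 0 ≤ t0 (hd ι) := by unfold t0; positivity
  have t2 : t0 (hd ι) ≤ 0.11 := by
    have : 0.43 / hd ι ≤ 0.01 := by rw [div_le_iff₀ (by linarith)]; linarith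
    unfold t0
    linarith
  have mE := (measurable_Ev (ι := ι) (3 / 4)).ennreal_ofReal
  have m := fun S : Set (τ → ℤ) => measurable_fs' S mE
  have mp := fun (S : Set (τ → ℤ)) (p : ℕ) => measurable_fs' S (mE.pow_const p)
  have pw : ∀ (p : ℕ) (a b : ℝ), 0 ≤ a → 0 ≤ b → (∀ x d : ℝ, 0 ≤ x → 0 ≤ d →
      (x + d) ^ p ≤ a * x ^ p + b * d ^ p) → ∀ w : ι → ℝ, ENNReal.ofReal (Ev (3 / 4) w) ^ p ≤
      ENNReal.ofReal (a * 1.024 ^ p) * Gs (p * t0 (hd ι)) w +
        ENNReal.ofReal (b * dl (hd ι) ^ p) := fun p a b ha hb' h w => by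
    have g0 : 0 ≤ gs (t0 (hd ι)) w := (Real.exp_pos _).le
    have g1 : gs (p * t0 (hd ι)) w = gs (t0 (hd ι)) w ^ p := by
      rw [gs, gs, ← Real.exp_nat_mul]
      congr 1
      ring
    rw [← ENNReal.ofReal_pow (Ev_nonneg hn (by norm_num) w), Gs, g1,
      ← ENNReal.ofReal_mul (by positivity), ← ENNReal.ofReal_add (by positivity) (by positivity)]
    refine ENNReal.ofReal_le_ofReal ((pow_le_pow_left₀ (Ev_nonneg hn (by norm_num) w)
      (Ev_le_gs hn w) p).trans ((h _ _ (by positivity) d0).trans (le_of_eq ?_)))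
    rw [mul_pow, mul_assoc]
  have j2 : Joint (fs' (CU τ 2) (fun w => ENNReal.ofReal (Ev (3 / 4) w) ^ 3) :
      Matrix τ ι ℝ → ℝ≥0∞) _ :=
    joint_fs' hn (mE.pow_const 3) (bd := fun _ => 0.36 * Real.exp (-(0.5011 * hd ι)))
      (fun κ hκ => (freeC_aff hn (m := 1) ⟨hκ.1, hκ.2.ge⟩ (t := 3 * t0 (hd ι)) (by linarith)
        (by linarith) (by positivity) (by positivity)).mono (fun U => pw 3 1.0201 10201
          (by norm_num) (by norm_num) (fun x d hx hd' => by
            nlinarith [mul_nonneg (sq_nonneg (x - 100 * d)) hx,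
              mul_nonneg (sq_nonneg (x - 100 * d)) hd']) _) hn (chf_F2 hv))
      (by positivity) (cs_CU_le (by positivity) fun _ _ => le_rfl)
  have j3 : Joint (fs' (CU τ 3) (fun w => ENNReal.ofReal (Ev (3 / 4) w) ^ 2) :
      Matrix τ ι ℝ → ℝ≥0∞) _ :=
    joint_fs' hn (mE.pow_const 2) (bd := fun _ => 0.35 * Real.exp (-(0.4859 * hd ι)))
      (fun κ hκ => (freeC_aff hn (m := 2) ⟨hκ.1, hκ.2.ge⟩ (t := 2 * t0 (hd ι)) (by linarith)
        (by linarith) (by positivity) (by positivity)).mono (fun U => pw 2 1.01 101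
          (by norm_num) (by norm_num) (fun x d _ _ => by
            nlinarith [sq_nonneg (x - 100 * d)]) _) hn (chf_F3 hv))
      (by positivity) (cs_CU_le (by positivity) fun _ _ => le_rfl)
  have j4 := (((joint_G4 (τ := τ) hn).add hn (joint_G5 hn) (m _) (m _)).add hn (joint_GM hn)
    ((m _).add (m _)) (m _)).add hn (joint_GN hn hb) (((m _).add (m _)).add (m _)) (m _)
  refine (((j2.const_mul hn (c := (0.28 / lb (hd ι))⁻¹ ^ 3 *
      (2 ^ 2 / (2 : ℕ).factorial * ff 2 (Fintype.card τ)) ^ 2) (by positivity) (mp _ _)).add hn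
    (j3.const_mul hn (c := (0.09 / lb (hd ι))⁻¹ ^ 2 *
      (2 ^ 3 / (3 : ℕ).factorial * ff 3 (Fintype.card τ)) ^ 1) (by positivity) (mp _ _))
    ((mp _ _).const_mul _) ((mp _ _).const_mul _)).add hn
    (j4.const_mul hn (c := (0.1125 / lb (hd ι))⁻¹ ^ 1) (by positivity)
      ((((m _).add (m _)).add (m _)).add (m _)))
    (((mp _ _).const_mul _).add ((mp _ _).const_mul _))
    (((((m _).add (m _)).add (m _)).add (m _)).const_mul _)).mono (fun U => ?_) hn ?_
  · by_cases h : nice U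
    · rw [ind_neg (not_not.2 h)]
      exact zero_le
    refine (ind_le_one _).trans ?_
    have key : ∀ (j p : ℕ) (a : ℝ), 0 < a → ENNReal.ofReal a ≤
        fs' (CU τ j) (fun w => ENNReal.ofReal (Ev (3 / 4) w)) U → 1 ≤ ENNReal.ofReal (a⁻¹ ^ (p + 1) *
          (2 ^ j / j.factorial * ff j (Fintype.card τ)) ^ p) *
            fs' (CU τ j) (fun w => ENNReal.ofReal (Ev (3 / 4) w) ^ (p + 1)) U := fun j p a ha e => by
      have := ff_nonneg j (Fintype.card τ)
      rw [ENNReal.ofReal_mul (by positivity), ENNReal.ofReal_pow (p := 2 ^ j / _ * _)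
        (by positivity), mul_assoc]
      exact (freeC_one_le ha e _).trans (mul_le_mul_right (cs_CU_pow_le j p _) _)
    by_cases h2 : ENNReal.ofReal (0.28 / lb (hd ι)) ≤
        fs' (CU τ 2) (fun w => ENNReal.ofReal (Ev (3 / 4) w)) U
    · exact (key 2 2 _ (by positivity) h2).trans (le_self_add.trans le_self_add)
    by_cases h3 : ENNReal.ofReal (0.09 / lb (hd ι)) ≤
        fs' (CU τ 3) (fun w => ENNReal.ofReal (Ev (3 / 4) w)) U
    · exact (key 3 1 _ (by positivity) h3).trans (le_add_self.trans le_self_add)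
    refine le_trans ((freeC_one_le (a := 0.1125 / lb (hd ι)) (by positivity)
      (le_of_not_ge fun h4 => h ?_) 1).trans (mul_le_mul_right (pow_one _).le _)) le_add_self
    have e : xi2 (hd ι) = 0.28 / lb (hd ι) + (0.09 / lb (hd ι) + 0.1125 / lb (hd ι)) := by
      unfold xi2
      ring
    rw [nice, e, ENNReal.ofReal_add (by positivity) (by positivity),
      ENNReal.ofReal_add (by positivity) (by positivity)]
    refine le_trans ?_ (add_le_add (le_of_not_ge h2) (add_le_add (le_of_not_ge h3) h4))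
    simp only [Gam2, fs']
    refine (cs_mono CS_cover _).trans ((cs_union_le _ _ _).trans ?_)
    refine (add_le_add_left (cs_union_le _ _ _) _).trans ?_
    rw [CG_succ 2, CG_succ 3, CG_succ 4]
    refine (add_le_add_left (add_le_add_left ((cs_union_le _ _ _).trans (add_le_add_right
      ((cs_union_le _ _ _).trans (add_le_add_right (cs_union_le _ _ _) _)) _)) _) _).trans
        (le_of_eq ?_)
    simp only [add_assoc]
  · rw [FAIL, evD_append, evD_append, evD_polD hv, evD_polD hv, evD_scD hv _ _ _ (by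
      simp [G4, G5, GM, GN])]
    have g := evD_nonneg hv (Fintype.card τ) [G4, G5, GM, GN]
    have e : evD (hd ι) (Fintype.card τ) [G4, G5, GM, GN] = G4.ev (hd ι) (Fintype.card τ) +
        G5.ev (hd ι) (Fintype.card τ) + GM.ev (hd ι) (Fintype.card τ) +
          GN.ev (hd ι) (Fintype.card τ) := by
      simp [evD, add_assoc]
    have e2 : (c222.map fun x => ((|x.1| : ℚ) : ℝ) * ff x.2 (Fintype.card τ)).sum =
        ff 2 (Fintype.card τ) ^ 3 := by
      rw [ff_222]
      simp [c222, add_assoc]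
    have e3 : (c33.map fun x => ((|x.1| : ℚ) : ℝ) * ff x.2 (Fintype.card τ)).sum =
        ff 3 (Fintype.card τ) ^ 2 := by
      rw [ff_33]
      simp [c33, add_assoc]
    rw [← e, e2, e3]
    simp only [Mono.ev, inv_div]
    norm_num [Nat.factorial]
    have p2 : 0 ≤ lb (hd ι) ^ 3 * Real.exp (-(5011 / 10000 * hd ι)) * ff 2 (Fintype.card τ) ^ 3 := by
      positivity
    have p3 : 0 ≤ lb (hd ι) ^ 2 * Real.exp (-(4859 / 10000 * hd ι)) * ff 3 (Fintype.card τ) ^ 2 := by
      positivity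
    nlinarith [mul_nonneg hl.le g]

omit hb in
theorem one_le_SZ {b : ℕ} (h : KK ι ≤ b) : 1 ≤ evD (hd ι) b SZ := by
  have h1 : hd ι / 3 ≤ (b + 1 : ℕ) := by
    have : (KK ι : ℝ) ≤ b := by exact_mod_cast h
    push_cast
    linarith [KK_gt (ι := ι)]
  have h2 : Real.exp (0.5972 * hd ι) ≤ 6 ^ (b + 1) := by
    rw [← Real.exp_log (show (0 : ℝ) < 6 by norm_num), ← Real.exp_nat_mul, Real.exp_le_exp]
    nlinarith [freeC_log6, hd_ge hn]
  have h3 : evD (hd ι) b SZ = 6 ^ (b + 1) / Real.exp (0.5972 * hd ι) := by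
    simp [evD, Dt.ev, Mono.ev, SZ, ff_zero, Real.exp_neg]
    norm_num
    ring
  rw [h3, one_le_div (Real.exp_pos _)]
  exact h2

theorem joint_bad :
    Joint (fun U : Matrix τ ι ℝ => ind (Fintype.card τ = KK ι ∨ rel U ∨ ¬ nice U))
      (evD (hd ι) (Fintype.card τ) BAD) := by
  have m1 := measurable_ind (measurableSet_rel (ι := ι) (τ := τ))
  have m2 : Measurable fun U : Matrix τ ι ℝ => ind (¬ nice U) :=
    measurable_ind (measurableSet_le (measurable_Gam2 hn) measurable_const).compl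
  have j : Joint (fun _ : Matrix τ ι ℝ => ind (Fintype.card τ = KK ι))
      (evD (hd ι) (Fintype.card τ) SZ) := by
    by_cases h : Fintype.card τ = KK ι
    · exact (joint_const hn zero_le_one).mono (fun _ => by simpa using ind_le_one _) hn
        (one_le_SZ hn h.ge)
    · exact (joint_const hn le_rfl).mono (fun _ => by simp [ind_neg h]) hn
        (evD_nonneg (hd_ge hn) _ _)
  rw [BAD, evD_append, evD_append]
  refine (((joint_rel hn hb).add hn j m1 measurable_const).add hn (joint_fail hn hb)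
    (m1.add measurable_const) m2).mono (fun U => ?_) hn le_rfl
  by_cases h : Fintype.card τ = KK ι ∨ rel U ∨ ¬ nice U
  · rw [ind_pos h]
    rcases h with h | h | h <;> rw [ind_pos h]
    exacts [le_add_self.trans le_self_add, le_self_add.trans le_self_add, le_add_self]
  · rw [ind_neg h]
    exact zero_le

end Pool.Agent.Eps.P
end
end

-- part Pool.Agent.Lib.MP_3bda03_nt.P.Level3A1
section

/-!
The error of the dual sieve, one size at a time.
-/

set_option autoImplicit false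

noncomputable section

open MeasureTheory Matrix
open scoped ENNReal

namespace Pool.Agent.Eps.P

open Pool.Agent.Eps.H

variable {ι : Type} [Fintype ι] [DecidableEq ι] {φ : ℝ → ℝ}

/-- the weight: no dual vector in the annulus, times the squared deviation -/
def WW (h : (ι → ℝ) → ℝ) (m : ℝ) (g : Matrix ι ι ℝ) : ℝ≥0∞ :=
  hole (dual g) * YY h (ctr h - m) (dual g)

theorem exists_split {b : ℕ} (hb : b ≤ Fintype.card ι) :
    Nonempty (Fin b ⊕ Fin (Fintype.card ι - b) ≃ ι) := by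
  refine Fintype.card_eq.1 ?_
  rw [Fintype.card_sum, Fintype.card_fin, Fintype.card_fin]
  omega

theorem level3A1_ev1 (v : ℝ) (b : ℕ) : evD v b [⟨⟨4700, 1, 0, 0, 0, 1.1157⟩, 0, 2, 0⟩] =
    4700 * lb v * Real.exp (-(1.1157 * v)) * 2 ^ b := by
  simp [evD, Dt.ev, Mono.ev, ff_zero]

theorem level3A1_ev2 (v : ℝ) (b : ℕ) :
    evD v b [⟨mIv.mul ⟨10400, 1, 0, 0, 0, 1.155⟩, 0, 2, 0⟩,
      ⟨⟨28200, 1, 0, 0, 0, 0.746⟩, 0, 6, 0⟩] =
    0.4361 * 10400 * lb v * Real.exp (-(0.4191 * v)) * 2 ^ b +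
      28200 * lb v * Real.exp (-(0.746 * v)) * 6 ^ b := by
  simp [evD, Dt.ev, Mono.ev, Mono.mul, mIv, ff_zero]
  norm_num

theorem level3A1_three {v : ℝ} {b : ℕ} (hb : (b : ℝ) ≤ v / 3) :
    (3 : ℝ) ^ b ≤ Real.exp (0.36622 * v) := by
  have h1 : (3 : ℝ) ≤ Real.exp 1.09866 := by
    refine le_trans ?_ (Real.sum_le_exp_of_nonneg (by norm_num) 10)
    norm_num [Finset.sum_range_succ, Nat.factorial]
  refine (pow_le_pow_left₀ (by norm_num) h1 b).trans ?_
  rw [← Real.exp_nat_mul]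
  exact Real.exp_le_exp.2 (by linarith)

theorem level3A1_num {v : ℝ} (hv : 97 / 2 ≤ v) {b : ℕ} (hb : (b : ℝ) ≤ v / 3) (m : ℝ) :
    2 ^ b * (16 * lb v * Real.exp (-(1.155 * v))) *
      (2 * (47 + 288 * (9 ^ b * (2 : ℝ) ^ (-v))) +
        (6 * m ^ 2 + 12) * (46 + 288 * (9 ^ b * (2 : ℝ) ^ (-v)))) ≤
    4700 * lb v * Real.exp (-(1.1157 * v)) * 2 ^ b * Yb v m b +
      (0.4361 * 10400 * lb v * Real.exp (-(0.4191 * v)) * 2 ^ b +
        28200 * lb v * Real.exp (-(0.746 * v)) * 6 ^ b) * vp v := by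
  have hl : 0 < lb v := lt_of_lt_of_le (by norm_num) (lb_ge hv)
  have hp := vp_pos hv
  have h3 := level3A1_three hb
  have hY : 6.9 * m ^ 2 ≤ Yb v m b := by
    have : 0 < VV v := by unfold VV; positivity
    unfold Yb
    exact le_add_of_nonneg_right (by positivity)
  have hE : 9 ^ b * (2 : ℝ) ^ (-v) ≤ Real.exp (0.0393 * v) := by
    have a : (9 : ℝ) ^ b ≤ Real.exp (0.36622 * v) * Real.exp (0.36622 * v) := by
      rw [show (9 : ℝ) = 3 * 3 by norm_num, mul_pow]
      exact mul_le_mul h3 h3 (by positivity) (by positivity)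
    refine (mul_le_mul_of_nonneg_right a (by positivity)).trans ?_
    rw [Real.rpow_def_of_pos (by norm_num), ← Real.exp_add, ← Real.exp_add]
    refine Real.exp_le_exp.2 ?_
    nlinarith [Real.log_two_gt_d9]
  have h1 : 1 ≤ Real.exp (0.0393 * v) := Real.one_le_exp (by linarith)
  have e1 : Real.exp (-(1.1157 * v)) = Real.exp (-(1.155 * v)) * Real.exp (0.0393 * v) := by
    rw [← Real.exp_add]; congr 1; ring
  have e2 : Real.exp (-(0.4191 * v)) = Real.exp (-(1.155 * v)) * Real.exp (0.7359 * v) := by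
    rw [← Real.exp_add]; congr 1; ring
  have e3 : Real.exp (-(0.746 * v)) =
      Real.exp (-(1.155 * v)) * (Real.exp (0.3663 * v) * Real.exp (0.0427 * v)) := by
    rw [← Real.exp_add, ← Real.exp_add]; congr 1; ring
  have h4 : 9 ^ b * (2 : ℝ) ^ (-v) ≤
      3 ^ b * (0.4361 * (Real.exp (0.3663 * v) * Real.exp (0.0427 * v)) * vp v) := by
    have a : (3 : ℝ) ^ b ≤ Real.exp (0.3663 * v) := h3.trans (Real.exp_le_exp.2 (by linarith))
    have c := mul_le_mul a (cc1_le hv) (by positivity) (by positivity)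
    rw [show (9 : ℝ) = 3 * 3 by norm_num, mul_pow, mul_assoc]
    refine mul_le_mul_of_nonneg_left (c.trans (le_of_eq (by ring))) (by positivity)
  have h5 := inv_vp hv
  rw [e1, e2, e3, show (6 : ℝ) ^ b = 2 ^ b * 3 ^ b by rw [← mul_pow]; norm_num]
  have hA : 0 < 2 ^ b * lb v * Real.exp (-(1.155 * v)) := by positivity
  have hm := sq_nonneg m
  have k1 : m ^ 2 * (46 + 288 * (9 ^ b * (2 : ℝ) ^ (-v))) ≤
      m ^ 2 * (334 * Real.exp (0.0393 * v)) := mul_le_mul_of_nonneg_left (by linarith) hm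
  have k2 : Real.exp (0.0393 * v) * (6.9 * m ^ 2) ≤ Real.exp (0.0393 * v) * Yb v m b :=
    mul_le_mul_of_nonneg_left hY (by positivity)
  have k3 : 0 ≤ Real.exp (0.0393 * v) * m ^ 2 := by positivity
  have k4 : 0 ≤ 3 ^ b * (Real.exp (0.3663 * v) * Real.exp (0.0427 * v)) * vp v := by positivity
  have key : 16 * (2 * (47 + 288 * (9 ^ b * (2 : ℝ) ^ (-v))) +
        (6 * m ^ 2 + 12) * (46 + 288 * (9 ^ b * (2 : ℝ) ^ (-v)))) ≤
      4700 * Real.exp (0.0393 * v) * Yb v m b + (0.4361 * 10400 * Real.exp (0.7359 * v) +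
        28200 * (Real.exp (0.3663 * v) * Real.exp (0.0427 * v)) * 3 ^ b) * vp v := by
    nlinarith
  have := mul_le_mul_of_nonneg_left key hA.le
  refine le_trans (le_of_eq (by ring)) (this.trans (le_of_eq (by ring)))

theorem level3A1_hf0 : Hf (fun _ => 0 : (ι → ℝ) → ℝ) :=
  ⟨measurable_const, fun _ => le_rfl, fun _ => rfl, fun _ => (Real.exp_pos _).le⟩

variable (hn : 97 ≤ Fintype.card ι) (hφ : Tst ι φ)
include hn hφ

theorem measurable_WW (m : ℝ) : Measurable (WW (rad φ : (ι → ℝ) → ℝ) m) := by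
  have hh := hφ.hf hn
  exact (measurable_hole.comp measurable_dual).mul
    ((measurable_YY hh.meas hh.nonneg _).comp measurable_dual)

theorem YY_dual_le (m : ℝ) {g : Matrix ι ι ℝ} (hg : |g.det| = 1) :
    YY (rad φ) (ctr (rad φ : (ι → ℝ) → ℝ) - m) (dual g) ≤
      2 * YY (gs (th (hd ι))) 0 g + ENNReal.ofReal (6 * m ^ 2 + 12) * YY (fun _ => 0) 1 g := by
  have hh := hφ.hf hn
  have hg0 : g.det ≠ 0 := abs_ne_zero.1 (hg ▸ one_ne_zero)
  have hd0 : (dual g).det ≠ 0 := by rw [det_dual]; exact inv_ne_zero hg0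
  have eg : ∀ y : ι → ℝ, gs (th (hd ι)) y = Real.exp (-Real.pi * 1 * nsq y) := fun y => by
    rw [← gs_th hn, mul_one]
  have s1 := hasSum_theta hg0 one_pos
  have s2 := hasSum_theta hd0 one_pos
  have e : theta g 1 = theta (dual g) 1 := by
    rw [theta_dual hg0 one_pos, hg]; simp
  have x1 : XX (gs (th (hd ι))) g = theta g 1 - 1 := by
    unfold XX
    simp only [eg]
    exact s1.tsum_eq
  have x0 : 0 ≤ XX (rad φ) (dual g) := tsum_nonneg fun k => hh.nonneg _
  have x2 : XX (rad φ) (dual g) ≤ XX (gs (th (hd ι))) g := by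
    have hle : ∀ k : {k : ι → ℤ // k ≠ 0}, rad φ (lv k.1 (dual g)) ≤
        Real.exp (-Real.pi * 1 * nsq (lv k.1 (dual g))) := fun k => (hh.le _).trans (eg _).le
    rw [x1, e, ← s2.tsum_eq]
    exact Summable.tsum_le_tsum hle
      (Summable.of_nonneg_of_le (fun k => hh.nonneg _) hle s2.summable) s2.summable
  have x3 : YY (fun _ => 0) 1 g = 1 := by simp [YY, XX]
  have hc := ctr_sq_le hn hh m
  rw [x3, mul_one]
  unfold YY
  rw [show (2 : ℝ≥0∞) = ENNReal.ofReal 2 by simp, ← ENNReal.ofReal_mul (by norm_num),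
    ← ENNReal.ofReal_add (by positivity) (by positivity)]
  refine ENNReal.ofReal_le_ofReal ?_
  nlinarith [sq_nonneg (XX (rad φ) (dual g) + (ctr (rad φ : (ι → ℝ) → ℝ) - m)),
    mul_le_mul x2 x2 x0 (x0.trans x2)]

theorem dual_TI (m : ℝ) {b : ℕ} (hb : b ≤ KK ι) :
    TI (mu ι) (fun g => g) (WW (rad φ) m) (Fin b) ≤ ENNReal.ofReal (VV (hd ι) ^ b *
      (evD (hd ι) b [⟨⟨4700, 1, 0, 0, 0, 1.1157⟩, 0, 2, 0⟩] * Yb (hd ι) m b +
        evD (hd ι) b [⟨mIv.mul ⟨10400, 1, 0, 0, 0, 1.155⟩, 0, 2, 0⟩,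
          ⟨⟨28200, 1, 0, 0, 0, 0.746⟩, 0, 6, 0⟩] * vp (hd ι))) := by
  have hv := hd_ge hn
  have hl : 0 < lb (hd ι) := lt_of_lt_of_le (by norm_num) (lb_ge hv)
  have hV : 0 < VV (hd ι) := by unfold VV; positivity
  have hd5 : 5 * hd ι / 3 ≤ (Fintype.card ι : ℕ) := by
    have : (Fintype.card ι : ℝ) = 2 * hd ι := by unfold hd; ring
    linarith
  have hb' : Fintype.card (Fin b) ≤ KK ι := by rwa [Fintype.card_fin]
  have hg := hf_gs (ι := ι) hn
  have t1 := TI_le hn rl_mu (good_volume hn) hd5 hb' hg 0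
  have t2 := TI_le hn rl_mu (good_volume hn) hd5 hb' level3A1_hf0 1
  obtain ⟨i1, i2, i3, i4⟩ := hg.integrable hn
  have a1 : (m1 volume (gs (th (hd ι)) : (ι → ℝ) → ℝ)).toReal ≤ 1 := by
    unfold m1
    rw [← ofReal_integral_eq_lintegral_ofReal i1 (Filter.Eventually.of_forall hg.nonneg),
      ENNReal.toReal_ofReal (integral_nonneg hg.nonneg)]
    exact i3
  have a2 : (NN volume (gs (th (hd ι)) : (ι → ℝ) → ℝ)).toReal ≤ 1 / 2 := by
    unfold NN
    have : ∀ y : ι → ℝ, ENNReal.ofReal (gs (th (hd ι)) y) * ENNReal.ofReal (gs (th (hd ι)) y) =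
        ENNReal.ofReal (gs (th (hd ι)) y ^ 2) := fun y => by
      rw [← ENNReal.ofReal_mul (hg.nonneg y), sq]
    simp only [this]
    rw [← ofReal_integral_eq_lintegral_ofReal i2
      (Filter.Eventually.of_forall fun y => sq_nonneg _), ENNReal.toReal_mul,
      ENNReal.toReal_ofReal (integral_nonneg fun y => sq_nonneg _)]
    have : (2 : ℝ) ^ (-hd ι) ≤ (2 : ℝ) ^ (-2 : ℝ) :=
      Real.rpow_le_rpow_of_exponent_le (by norm_num) (by linarith)
    norm_num at this ⊢
    linarith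
  have a3 : (m1 volume (fun _ => 0 : (ι → ℝ) → ℝ)).toReal = 0 := by simp [m1]
  have a4 : (NN volume (fun _ => 0 : (ι → ℝ) → ℝ)).toReal = 0 := by simp [NN]
  have split : TI (mu ι) (fun g => g) (WW (rad φ) m) (Fin b) ≤
      2 * TI (mu ι) (fun g => g) (fun g => YY (gs (th (hd ι))) 0 g) (Fin b) +
        ENNReal.ofReal (6 * m ^ 2 + 12) *
          TI (mu ι) (fun g => g) (fun g => YY (fun _ => 0) 1 g) (Fin b) := by
    unfold TI
    rw [← ENNReal.tsum_mul_left, ← ENNReal.tsum_mul_left, ← ENNReal.tsum_add]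
    refine ENNReal.tsum_le_tsum fun q => ?_
    rw [← ENNReal.tsum_mul_left, ← ENNReal.tsum_mul_left, ← ENNReal.tsum_add]
    refine ENNReal.tsum_le_tsum fun κ => ?_
    rw [← TT_add measurable_id' (measurable_YY hg.meas hg.nonneg 0) _ _ (measurable_Fq q κ)
      (measurable_YY measurable_const (fun _ => le_rfl) 1)]
    refine TT_mono (fun _ => le_rfl) (ae_mu_det.mono fun g hg => ?_)
    refine le_trans ?_ (YY_dual_le hn hφ m hg)
    exact mul_le_of_le_one_left' (ind_le_one _)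
  rw [a3, a4] at t2
  simp only [Fintype.card_fin, add_zero, one_mul, mul_one, one_pow] at t1 t2
  have hA : 0 ≤ VV (hd ι) ^ b * 2 ^ b * (16 * lb (hd ι) * Real.exp (-(1.155 * hd ι))) := by
    positivity
  have t1' : TI (mu ι) (fun g => g) (fun g => YY (gs (th (hd ι))) 0 g) (Fin b) ≤ ENNReal.ofReal
      (VV (hd ι) ^ b * 2 ^ b * (16 * lb (hd ι) * Real.exp (-(1.155 * hd ι))) *
        (47 + 288 * (9 ^ b * (2 : ℝ) ^ (-hd ι)))) := by
    refine t1.trans (ENNReal.ofReal_le_ofReal (mul_le_mul_of_nonneg_left ?_ hA))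
    have : 0 ≤ (m1 volume (gs (th (hd ι)) : (ι → ℝ) → ℝ)).toReal := ENNReal.toReal_nonneg
    nlinarith
  have t2' : TI (mu ι) (fun g => g) (fun g => YY (fun _ => 0) 1 g) (Fin b) ≤ ENNReal.ofReal
      (VV (hd ι) ^ b * 2 ^ b * (16 * lb (hd ι) * Real.exp (-(1.155 * hd ι))) *
        (46 + 288 * (9 ^ b * (2 : ℝ) ^ (-hd ι)))) :=
    t2.trans (ENNReal.ofReal_le_ofReal (le_of_eq (by ring)))
  refine split.trans ((add_le_add (mul_le_mul_right t1' _) (mul_le_mul_right t2' _)).trans ?_)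
  rw [show (2 : ℝ≥0∞) = ENNReal.ofReal 2 by simp, ← ENNReal.ofReal_mul (by norm_num),
    ← ENNReal.ofReal_mul (by positivity), ← ENNReal.ofReal_add (by positivity) (by positivity),
    level3A1_ev1, level3A1_ev2]
  refine ENNReal.ofReal_le_ofReal ?_
  have hbv : (b : ℝ) ≤ hd ι / 3 := le_trans (by exact_mod_cast hb) KK_le
  have := mul_le_mul_of_nonneg_left (level3A1_num hv hbv m) (pow_pos hV b).le
  exact le_trans (le_of_eq (by ring)) this

end Pool.Agent.Eps.P
end
end

-- part Pool.Agent.Lib.MP_3bda03_nt.P.Level3C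
section

/-!
The main term.
-/

set_option autoImplicit false

noncomputable section

open MeasureTheory Matrix
open scoped ENNReal

namespace Pool.Agent.Eps.P

open Pool.Agent.Eps.H

section aux
variable {ι τ : Type} [Fintype ι] [Fintype τ] [DecidableEq τ]

theorem l3c_prod {ρ f : (ι → ℝ) → ℝ} (hρ : Integrable ρ) (hf : Integrable fun y => ρ y * f y)
    (S : Finset τ) :
    Integrable (fun U : Matrix τ ι ℝ => (∏ k, ρ (U k)) * ∏ k ∈ S, f (U k)) ∧
    ∫ U : Matrix τ ι ℝ, (∏ k, ρ (U k)) * ∏ k ∈ S, f (U k) =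
      (∫ y, ρ y * f y) ^ S.card * (∫ y, ρ y) ^ (Fintype.card τ - S.card) := by
  have e : (fun U : Matrix τ ι ℝ => (∏ k, ρ (U k)) * ∏ k ∈ S, f (U k)) =
      fun U : τ → ι → ℝ => ∏ k, (fun k y => ρ y * if k ∈ S then f y else 1) k (U k) := by
    funext U
    rw [Finset.prod_mul_distrib, Finset.prod_ite_mem, Finset.univ_inter]
  have hi : ∀ k : τ, Integrable fun y => ρ y * if k ∈ S then f y else 1 := fun k => by
    split_ifs
    · exact hf
    · simpa only [mul_one] using hρ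
  rw [e]
  refine ⟨Integrable.fintype_prod (μ := fun _ : τ => (volume : Measure (ι → ℝ))) hi, ?_⟩
  refine (integral_fintype_prod_volume_eq_prod (E := fun _ : τ => ι → ℝ)
    (fun k y => ρ y * if k ∈ S then f y else 1)).trans ?_
  have e2 : ∀ k : τ, (∫ y, ρ y * if k ∈ S then f y else 1) =
      if k ∈ S then ∫ y, ρ y * f y else ∫ y, ρ y := fun k => by
    split_ifs
    · rfl
    · simp only [mul_one]
  simp only [e2]
  rw [Finset.prod_ite, Finset.prod_const, Finset.prod_const, Finset.filter_mem_eq_inter,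
    Finset.univ_inter, Finset.filter_not, Finset.filter_mem_eq_inter, Finset.univ_inter,
    Finset.card_univ_sdiff]

theorem l3c_zero {ρ : (ι → ℝ) → ℝ} (hρ : Integrable ρ) :
    Integrable (fun U : Matrix τ ι ℝ => ∏ k, ρ (U k)) ∧
    ∫ U : Matrix τ ι ℝ, ∏ k, ρ (U k) = (∫ y, ρ y) ^ Fintype.card τ := by
  have h := l3c_prod (τ := τ) (f := fun _ => 1) hρ (by simpa only [mul_one] using hρ) ∅
  simpa only [Finset.prod_empty, mul_one, Finset.card_empty, pow_zero, one_mul, Nat.sub_zero]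
    using h

theorem l3c_one {ρ f : (ι → ℝ) → ℝ} (hρ : Integrable ρ) (hf : Integrable fun y => ρ y * f y) :
    Integrable (fun U : Matrix τ ι ℝ => (∏ k, ρ (U k)) * ∑ i, f (U i)) ∧
    ∫ U : Matrix τ ι ℝ, (∏ k, ρ (U k)) * ∑ i, f (U i) =
      Fintype.card τ * (∫ y, ρ y * f y) * (∫ y, ρ y) ^ (Fintype.card τ - 1) := by
  have h : ∀ i : τ, Integrable (fun U : Matrix τ ι ℝ => (∏ k, ρ (U k)) * f (U i)) ∧
      ∫ U : Matrix τ ι ℝ, (∏ k, ρ (U k)) * f (U i) =
        (∫ y, ρ y * f y) * (∫ y, ρ y) ^ (Fintype.card τ - 1) := fun i => by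
    simpa only [Finset.prod_singleton, Finset.card_singleton, pow_one] using l3c_prod hρ hf {i}
  simp only [Finset.mul_sum]
  refine ⟨integrable_finsetSum _ fun i _ => (h i).1, ?_⟩
  rw [integral_finsetSum _ fun i _ => (h i).1, Finset.sum_congr rfl fun i _ => (h i).2,
    Finset.sum_const, Finset.card_univ, nsmul_eq_mul, mul_assoc]

theorem l3c_two {ρ f : (ι → ℝ) → ℝ} (hρ : Integrable ρ) (hf : Integrable fun y => ρ y * f y) :
    Integrable (fun U : Matrix τ ι ℝ =>
      (∏ k, ρ (U k)) * ∑ i, ∑ j ∈ Finset.univ.erase i, f (U i) * f (U j)) ∧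
    ∫ U : Matrix τ ι ℝ, (∏ k, ρ (U k)) * ∑ i, ∑ j ∈ Finset.univ.erase i, f (U i) * f (U j) =
      Fintype.card τ * ((Fintype.card τ : ℝ) - 1) * (∫ y, ρ y * f y) ^ 2 *
        (∫ y, ρ y) ^ (Fintype.card τ - 2) := by
  have h : ∀ i : τ, ∀ j ∈ Finset.univ.erase i,
      Integrable (fun U : Matrix τ ι ℝ => (∏ k, ρ (U k)) * (f (U i) * f (U j))) ∧
      ∫ U : Matrix τ ι ℝ, (∏ k, ρ (U k)) * (f (U i) * f (U j)) =
        (∫ y, ρ y * f y) ^ 2 * (∫ y, ρ y) ^ (Fintype.card τ - 2) := fun i j hj => by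
    have hne : i ≠ j := (Finset.ne_of_mem_erase hj).symm
    simpa only [Finset.prod_pair hne, Finset.card_pair hne] using l3c_prod hρ hf {i, j}
  simp only [Finset.mul_sum]
  have h1 : ∀ i : τ, Integrable fun U : Matrix τ ι ℝ =>
      ∑ j ∈ Finset.univ.erase i, (∏ k, ρ (U k)) * (f (U i) * f (U j)) := fun i =>
    integrable_finsetSum _ fun j hj => (h i j hj).1
  refine ⟨integrable_finsetSum _ fun i _ => h1 i, ?_⟩
  have h2 : ∀ i : τ, ∫ U : Matrix τ ι ℝ,
      ∑ j ∈ Finset.univ.erase i, (∏ k, ρ (U k)) * (f (U i) * f (U j)) =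
        ((Fintype.card τ : ℝ) - 1) * ((∫ y, ρ y * f y) ^ 2 *
          (∫ y, ρ y) ^ (Fintype.card τ - 2)) := fun i => by
    rw [integral_finsetSum _ fun j hj => (h i j hj).1,
      Finset.sum_congr rfl fun j hj => (h i j hj).2, Finset.sum_const,
      Finset.card_erase_of_mem (Finset.mem_univ i), Finset.card_univ, nsmul_eq_mul,
      Nat.cast_pred (Fintype.card_pos_iff.2 ⟨i⟩)]
  rw [integral_finsetSum _ fun i _ => h1 i, Finset.sum_congr rfl fun i _ => h2 i,
    Finset.sum_const, Finset.card_univ, nsmul_eq_mul]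
  ring

omit [Fintype ι] in
theorem l3c_sq (a : τ → ℝ) :
    (∑ i, a i) ^ 2 = ∑ i, a i ^ 2 + ∑ i, ∑ j ∈ Finset.univ.erase i, a i * a j := by
  rw [sq, Finset.sum_mul_sum, ← Finset.sum_add_distrib]
  refine Finset.sum_congr rfl fun i _ => ?_
  rw [← Finset.add_sum_erase _ _ (Finset.mem_univ i), sq]

theorem l3c_abs_ftr (F : (ι → ℝ) → ℝ) (hF : Integrable F) (w : ι → ℝ) :
    |ftr F w| ≤ ∫ y, |F y| := by
  unfold ftr
  refine (abs_integral_le_integral_abs).trans (integral_mono_of_nonneg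
    (Filter.Eventually.of_forall fun y => abs_nonneg _) hF.abs
    (Filter.Eventually.of_forall fun y => ?_))
  simp only [abs_mul]
  exact mul_le_of_le_one_right (abs_nonneg _) (Real.abs_cos_le_one _)

theorem l3c_meas_wA : Measurable (wA : (ι → ℝ) → ℝ) := by
  unfold wA al
  exact (measurable_ftr (measurable_one.indicator measurableSet_AA)).neg.exp

theorem l3c_int (hn : 97 ≤ Fintype.card ι) {g : (ι → ℝ) → ℝ} (hg : Measurable g) {C : ℝ}
    (hC : ∀ y, |g y| ≤ C) :
    (Integrable fun y => (AA ι).indicator wA y * g y) ∧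
      ∫ y, (AA ι).indicator wA y * g y = ∫ y in AA ι, wA y * g y := by
  have e : (fun y => (AA ι).indicator wA y * g y) = (AA ι).indicator fun y => wA y * g y := by
    funext y
    rw [Set.indicator_mul_left]
  rw [e, integral_indicator measurableSet_AA, integrable_indicator_iff measurableSet_AA]
  refine ⟨Measure.integrableOn_of_bounded (M := 1.011 * C) ?_
    (l3c_meas_wA.mul hg).aestronglyMeasurable ?_, rfl⟩
  · rw [volume_AA hn]
    exact ENNReal.ofReal_ne_top
  · refine (ae_restrict_iff' measurableSet_AA).2 (Filter.Eventually.of_forall fun y hy => ?_)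
    have h := wA_bounds hn hy
    rw [Real.norm_eq_abs, abs_mul, abs_of_nonneg (by linarith [h.1])]
    exact mul_le_mul h.2.2 (hC y) (abs_nonneg _) (by norm_num)

theorem l3c_add {X : Type} [MeasurableSpace X] {μ : Measure X} {a b c d e : X → ℝ}
    (ha : Integrable a μ) (hb : Integrable b μ) (hc : Integrable c μ) (hd : Integrable d μ)
    (he : Integrable e μ) : ∫ x, a x + b x + c x + d x + e x ∂μ =
      ∫ x, a x ∂μ + ∫ x, b x ∂μ + ∫ x, c x ∂μ + ∫ x, d x ∂μ + ∫ x, e x ∂μ := by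
  have h1 : Integrable (fun x => a x + b x) μ := ha.add hb
  have h2 : Integrable (fun x => a x + b x + c x) μ := h1.add hc
  have h3 : Integrable (fun x => a x + b x + c x + d x) μ := h2.add hd
  rw [integral_add h3 he, integral_add h2 hd, integral_add h1 hc, integral_add ha hb]

omit [DecidableEq τ] in
theorem l3c_IA (U : Matrix τ ι ℝ) :
    (IA U).toReal * ∏ i, wA (U i) = ∏ i, (AA ι).indicator wA (U i) := by
  by_cases h : ∀ i, U i ∈ AA ι
  · rw [IA_eq_one h, ENNReal.toReal_one, one_mul]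
    exact Finset.prod_congr rfl fun i _ => (Set.indicator_of_mem (h i) _).symm
  · rw [IA_eq_zero h, ENNReal.toReal_zero, zero_mul]
    obtain ⟨i, hi⟩ := not_forall.1 h
    exact (Finset.prod_eq_zero (Finset.mem_univ i) (Set.indicator_of_notMem hi _)).symm

theorem l3c_Nz (h : (ι → ℝ) → ℝ) : 0 ≤ Nz h :=
  mul_nonneg zero_le_two (integral_nonneg fun _ => sq_nonneg _)

theorem l3c_cw (b : ℕ) : cw (b + 1) * ((b : ℝ) + 1) = cw b / 2 := by
  unfold cw
  rw [Nat.factorial_succ, pow_succ]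
  push_cast
  have : (b.factorial : ℝ) ≠ 0 := Nat.cast_ne_zero.2 (Nat.factorial_ne_zero b)
  field_simp

theorem l3c_sum0 (L : ℝ) :
    HasSum (fun b : ℕ => (-1) ^ b * cw b * L ^ b) (Real.exp (-(L / 2))) := by
  have h := hasSum_ff 0 (-(L / 2))
  rw [pow_zero, one_mul] at h
  have e : (fun b : ℕ => (-1) ^ b * cw b * L ^ b) =
      fun a : ℕ => (-(L / 2)) ^ a / a.factorial * ff 0 a := by
    funext a
    rw [ff_zero, mul_one, ← cw_mul, show 2 * -(L / 2) = -1 * L by ring, mul_pow]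
    ring
  rwa [e]

theorem l3c_sum1 (L : ℝ) :
    HasSum (fun b : ℕ => (-1) ^ b * cw b * (b * L ^ (b - 1))) (-(Real.exp (-(L / 2)) / 2)) := by
  rw [← hasSum_nat_add_iff' 1]
  have e : (fun b : ℕ => (-1) ^ (b + 1) * cw (b + 1) * (((b + 1 : ℕ) : ℝ) * L ^ (b + 1 - 1))) =
      fun b : ℕ => -(1 / 2) * ((-1) ^ b * cw b * L ^ b) := by
    funext b
    have h := l3c_cw b
    rw [Nat.add_sub_cancel, pow_succ]
    push_cast
    linear_combination (-((-1) ^ b * L ^ b)) * h
  rw [e]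
  have h := (l3c_sum0 L).mul_left (-(1 / 2))
  simp only [Finset.sum_range_one, Nat.cast_zero, zero_mul, mul_zero, sub_zero]
  rwa [show -(Real.exp (-(L / 2)) / 2) = -(1 / 2) * Real.exp (-(L / 2)) by ring]

theorem l3c_sum2 (L : ℝ) :
    HasSum (fun b : ℕ => (-1) ^ b * cw b * (b * ((b : ℝ) - 1) * L ^ (b - 2)))
      (Real.exp (-(L / 2)) / 4) := by
  rw [← hasSum_nat_add_iff' 1]
  have e : (fun b : ℕ => (-1) ^ (b + 1) * cw (b + 1) *
      (((b + 1 : ℕ) : ℝ) * (((b + 1 : ℕ) : ℝ) - 1) * L ^ (b + 1 - 2))) =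
      fun b : ℕ => -(1 / 2) * ((-1) ^ b * cw b * (b * L ^ (b - 1))) := by
    funext b
    have h := l3c_cw b
    rw [show b + 1 - 2 = b - 1 by omega, pow_succ]
    push_cast
    linear_combination (-((-1) ^ b * (b * L ^ (b - 1)))) * h
  rw [e]
  have h := (l3c_sum1 L).mul_left (-(1 / 2))
  simp only [Finset.sum_range_one, Nat.cast_zero, zero_mul, mul_zero, sub_zero]
  rwa [show Real.exp (-(L / 2)) / 4 = -(1 / 2) * -(Real.exp (-(L / 2)) / 2) by ring]

end aux

variable {ι : Type} [Fintype ι] [DecidableEq ι] {φ : ℝ → ℝ}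

variable {τ : Type} [Fintype τ] [DecidableEq τ] (hn : 97 ≤ Fintype.card ι) (hφ : Tst ι φ)
include hn hφ

theorem measurable_Phi1 (m : ℝ) : Measurable (Phi1 (rad φ) m : Matrix τ ι ℝ → ℝ) := by
  have hh := hφ.hf hn
  unfold Phi1 N1
  refine (measurable_const.mul (Finset.measurable_prod _ fun i _ =>
    l3c_meas_wA.comp (measurable_pi_apply i))).mul (((measurable_s1 hn hh m).pow_const 2).add
      (measurable_const.add (measurable_const.mul (Finset.measurable_sum _ fun i _ => ?_))))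
  exact (measurable_ftr (hh.meas.pow_const 2)).comp (measurable_pi_apply i)

theorem main_eq (m : ℝ) :
    Integrable (fun U : Matrix τ ι ℝ => (IA U).toReal * Phi1 (rad φ) m U) ∧
    ∫ U : Matrix τ ι ℝ, (IA U).toReal * Phi1 (rad φ) m U =
      Mb (rad φ : (ι → ℝ) → ℝ) m (Fintype.card τ) := by
  have hh := hφ.hf hn
  obtain ⟨i1, i2, -, -⟩ := hh.integrable hn
  generalize (rad φ : (ι → ℝ) → ℝ) = h at hh i1 i2 ⊢
  have m1 := measurable_ftr hh.meas
  have a0 := l3c_int hn (g := fun _ => 1) measurable_const (C := 1) fun _ => by simp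
  simp only [mul_one] at a0
  have a1 := l3c_int hn m1 (l3c_abs_ftr h i1)
  have a2 := l3c_int hn (m1.pow_const 2) (C := (∫ y, |h y|) ^ 2) fun y => by
    rw [abs_pow]
    exact pow_le_pow_left₀ (abs_nonneg _) (l3c_abs_ftr h i1 y) 2
  have a3 := l3c_int hn (measurable_ftr (hh.meas.pow_const 2)) (l3c_abs_ftr _ i2)
  have b0 := l3c_zero (τ := τ) a0.1
  have b1 := l3c_one (τ := τ) a0.1 a1.1
  have b2 := l3c_one (τ := τ) (f := fun y => ftr h y ^ 2) a0.1 a2.1
  have b3 := l3c_one (τ := τ) a0.1 a3.1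
  have b4 := l3c_two (τ := τ) a0.1 a1.1
  rw [a0.2] at b0 b1 b2 b3 b4
  rw [a1.2] at b1 b4
  rw [a2.2] at b2
  rw [a3.2] at b3
  have e : (fun U : Matrix τ ι ℝ => (IA U).toReal * Phi1 h m U) = fun U : Matrix τ ι ℝ =>
      Real.exp (-lA ι) * (((m + PP h) ^ 2 + Nz h) * (∏ k, (AA ι).indicator wA (U k)) +
        4 * (m + PP h) * ((∏ k, (AA ι).indicator wA (U k)) * ∑ i, ftr h (U i)) +
        4 * ((∏ k, (AA ι).indicator wA (U k)) * ∑ i, ftr h (U i) ^ 2) +
        4 * ((∏ k, (AA ι).indicator wA (U k)) * ∑ i, ftr (fun x => h x ^ 2) (U i)) +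
        4 * ((∏ k, (AA ι).indicator wA (U k)) *
          ∑ i, ∑ j ∈ Finset.univ.erase i, ftr h (U i) * ftr h (U j))) := by
    funext U
    have k := l3c_sq fun i => ftr h (U i)
    rw [← l3c_IA]
    unfold Phi1 s1 N1
    linear_combination (4 * Real.exp (-lA ι) * (IA U).toReal * ∏ i, wA (U i)) * k
  rw [e]
  have c0 := b0.1.const_mul ((m + PP h) ^ 2 + Nz h)
  have c1 := b1.1.const_mul (4 * (m + PP h))
  have c2 := b2.1.const_mul 4
  have c3 := b3.1.const_mul 4
  have c4 := b4.1.const_mul 4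
  refine ⟨((((c0.add c1).add c2).add c3).add c4).const_mul _, ?_⟩
  rw [integral_const_mul, l3c_add c0 c1 c2 c3 c4,
    integral_const_mul, integral_const_mul, integral_const_mul, integral_const_mul,
    integral_const_mul, b0.2, b1.2, b2.2, b3.2, b4.2]
  unfold Mb LL QQ PP2
  rw [show (∫ y in AA ι, wA y * ftr h y) = PP h from rfl]
  ring

/-- the main term against a class -/
theorem joint_Phi1 {F : Matrix τ ι ℝ → ℝ≥0∞} {bd : ℝ} (hJ : Joint F bd) (hF : Measurable F)
    (m : ℝ) :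
    ∫⁻ U, IA U * F U * ENNReal.ofReal |Phi1 (rad φ) m U| ≤ ENNReal.ofReal
      (VV (hd ι) ^ Fintype.card τ *
        (mE.ev (hd ι) * (1 + 0.0125 / lb (hd ι)) ^ Fintype.card τ * bd *
            Yb (hd ι) m (Fintype.card τ) +
          mE.ev (hd ι) * (1 + 0.052 / lb (hd ι)) ^ Fintype.card τ * bd *
            Nz (rad φ : (ι → ℝ) → ℝ))) := by
  have hh := hφ.hf hn
  have hv := hd_ge hn
  have hl : 0 < lb (hd ι) := lt_of_lt_of_le (by norm_num) (lb_ge hv)
  have hV : 0 ≤ VV (hd ι) ^ Fintype.card τ := pow_nonneg (mul_pos two_pos hl).le _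
  have hE := Mono.ev_nonneg hv mE
  have hN := l3c_Nz (rad φ : (ι → ℝ) → ℝ)
  obtain ⟨A, hA⟩ : ∃ A, A = mE.ev (hd ι) * (1 + 0.0125 / lb (hd ι)) ^ Fintype.card τ := ⟨_, rfl⟩
  obtain ⟨B, hB⟩ : ∃ B, B = mE.ev (hd ι) * (1 + 0.052 / lb (hd ι)) ^ Fintype.card τ := ⟨_, rfl⟩
  have hA0 : 0 ≤ A := by
    rw [hA]
    positivity
  have hB0 : 0 ≤ B := by
    rw [hB]
    positivity
  rw [← hA, ← hB]
  have pt : ∀ U : Matrix τ ι ℝ, IA U * F U * ENNReal.ofReal |Phi1 (rad φ) m U| ≤
      ENNReal.ofReal A * (IA U * F U * ENNReal.ofReal (1.15 * s1 (rad φ) m U ^ 2)) +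
        ENNReal.ofReal (B * Nz (rad φ : (ι → ℝ) → ℝ)) * (IA U * F U) := fun U => by
    by_cases h : ∀ i, U i ∈ AA ι
    · have h1 : |Phi1 (rad φ) m U| ≤
          A * (1.15 * s1 (rad φ) m U ^ 2) + B * Nz (rad φ : (ι → ℝ) → ℝ) := by
        have w0 : 0 ≤ ∏ i, wA (U i) := Finset.prod_nonneg fun i _ => (Real.exp_pos _).le
        have w1 : ∏ i, wA (U i) ≤ Real.exp (al0 (hd ι)) ^ Fintype.card τ := by
          rw [← Finset.card_univ, ← Finset.prod_const]
          exact Finset.prod_le_prod (fun i _ => (Real.exp_pos _).le)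
            fun i _ => (wA_bounds hn (h i)).2.1
        have w2 : Real.exp (-lA ι) * ∏ i, wA (U i) ≤
            mE.ev (hd ι) * Real.exp (al0 (hd ι)) ^ Fintype.card τ :=
          mul_le_mul (exp_lA_le hn) w1 w0 hE
        have w3 : mE.ev (hd ι) * Real.exp (al0 (hd ι)) ^ Fintype.card τ ≤ A := by
          rw [hA]
          exact mul_le_mul_of_nonneg_left
            (pow_le_pow_left₀ (Real.exp_pos _).le (exp_al0 hv).1 _) hE
        have w4 : mE.ev (hd ι) * Real.exp (al0 (hd ι)) ^ Fintype.card τ *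
            Real.exp (Fintype.card τ * g1 (hd ι)) ≤ B := by
          rw [hB, Real.exp_nat_mul, mul_assoc, ← mul_pow, ← Real.exp_add]
          exact mul_le_mul_of_nonneg_left
            (pow_le_pow_left₀ (Real.exp_pos _).le (exp_al0_g1 hv) _) hE
        have w5 := abs_N1_le hn h hφ
        have w6 : 0 ≤ Real.exp (-lA ι) * ∏ i, wA (U i) := mul_nonneg (Real.exp_pos _).le w0
        have w7 : |s1 (rad φ) m U ^ 2 + N1 (rad φ) U| ≤ s1 (rad φ) m U ^ 2 +
            Nz (rad φ : (ι → ℝ) → ℝ) * Real.exp (Fintype.card τ * g1 (hd ι)) :=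
          (abs_add_le _ _).trans (add_le_add (abs_of_nonneg (sq_nonneg _)).le w5)
        unfold Phi1
        rw [abs_mul, abs_of_nonneg w6]
        refine (mul_le_mul w2 w7 (abs_nonneg _) (w6.trans w2)).trans ?_
        have w8 := mul_le_mul_of_nonneg_right w3 (sq_nonneg (s1 (rad φ) m U))
        have w9 := mul_le_mul_of_nonneg_right w4 hN
        have w10 := mul_nonneg hA0 (sq_nonneg (s1 (rad φ) m U))
        linarith
      refine (mul_le_mul_right (ENNReal.ofReal_le_ofReal h1) _).trans (le_of_eq ?_)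
      rw [ENNReal.ofReal_add (by positivity) (by positivity), ENNReal.ofReal_mul hA0]
      ring
    · simp only [IA_eq_zero h, zero_mul, zero_le]
  have mF : Measurable fun U : Matrix τ ι ℝ => IA U * F U := measurable_IA.mul hF
  have mS : Measurable fun U : Matrix τ ι ℝ =>
      IA U * F U * ENNReal.ofReal (1.15 * s1 (rad φ) m U ^ 2) :=
    mF.mul (((measurable_s1 hn hh m).pow_const 2).const_mul _).ennreal_ofReal
  refine (lintegral_mono pt).trans ?_
  rw [lintegral_add_left (mS.const_mul _), lintegral_const_mul _ mS, lintegral_const_mul _ mF]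
  refine (add_le_add (mul_le_mul_right (joint_s1 hn hJ hF hh m) _)
    (mul_le_mul_right hJ.2.1 _)).trans (le_of_eq ?_)
  have hY : 0 ≤ Yb (hd ι) m (Fintype.card τ) := by
    unfold Yb
    have := vp_pos hv
    have : 0 < VV (hd ι) := mul_pos two_pos hl
    positivity
  have hb := hJ.1
  rw [← ENNReal.ofReal_mul hA0, ← ENNReal.ofReal_mul (mul_nonneg hB0 hN),
    ← ENNReal.ofReal_add (by positivity) (by positivity)]
  congr 1
  ring

theorem abs_Mb_le (m : ℝ) {b : ℕ} (hb : KK ι ≤ b) :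
    |Mb (rad φ : (ι → ℝ) → ℝ) m b| ≤ VV (hd ι) ^ b *
      (evD (hd ι) b TY * Yb (hd ι) m b + evD (hd ι) b TN * Nz (rad φ : (ι → ℝ) → ℝ)) := by
  have hv := hd_ge hn
  have hl : 0 < lb (hd ι) := lt_of_lt_of_le (by norm_num) (lb_ge hv)
  have hV : 0 < VV (hd ι) := mul_pos two_pos hl
  have hE := Mono.ev_nonneg hv mE
  have hN := l3c_Nz (rad φ : (ι → ℝ) → ℝ)
  have hY : 0 ≤ Yb (hd ι) m b := by
    unfold Yb
    have := vp_pos hv
    positivity
  obtain ⟨i1, i2⟩ := main_eq (τ := Fin b) hn hφ m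
  have j := joint_Phi1 (τ := Fin b) hn hφ (joint_const hn zero_le_one) measurable_const m
  rw [Fintype.card_fin] at i2 j
  have k : ENNReal.ofReal |Mb (rad φ : (ι → ℝ) → ℝ) m b| ≤
      ∫⁻ U : Matrix (Fin b) ι ℝ, IA U * ENNReal.ofReal 1 * ENNReal.ofReal |Phi1 (rad φ) m U| := by
    rw [← i2]
    refine (ENNReal.ofReal_le_ofReal abs_integral_le_integral_abs).trans ?_
    rw [ofReal_integral_eq_lintegral_ofReal i1.abs
      (Filter.Eventually.of_forall fun _ => abs_nonneg _)]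
    refine lintegral_mono fun U => ?_
    by_cases h : ∀ i, U i ∈ AA ι
    · simp only [IA_eq_one h, ENNReal.toReal_one, one_mul, ENNReal.ofReal_one, le_refl]
    · simp only [IA_eq_zero h, ENNReal.toReal_zero, zero_mul, abs_zero, ENNReal.ofReal_zero,
        le_refl]
  have k2 := (ENNReal.ofReal_le_ofReal_iff (by positivity)).1 (k.trans j)
  refine k2.trans (mul_le_mul_of_nonneg_left ?_ (pow_nonneg hV.le _))
  have hS := one_le_SZ hn hb
  have hc : ∀ t ∈ SZ, t.c = 0 := by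
    intro t ht
    rw [SZ, List.mem_singleton] at ht
    rw [ht]
  have e1 : ((|(0.0125 : ℚ)| : ℚ) : ℝ) = 0.0125 := by norm_num
  have e2 : ((|(0.052 : ℚ)| : ℚ) : ℝ) = 0.052 := by norm_num
  rw [TY, TN, evD_scD hv b mE _ hc, evD_scD hv b mE _ hc, e1, e2]
  gcongr

omit hn hφ in
theorem hasSum_Mb (h : (ι → ℝ) → ℝ) (m : ℝ) :
    HasSum (fun b : ℕ => (-1) ^ b * cw b * Mb h m b)
      (DD ι * (m ^ 2 + Nz h - 2 * QQ h - 2 * PP2 h)) := by
  have h0 := (l3c_sum0 (LL ι)).mul_left ((m + PP h) ^ 2 + Nz h)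
  have h1 := (l3c_sum1 (LL ι)).mul_left (4 * ((m + PP h) * PP h + QQ h + PP2 h))
  have h2 := (l3c_sum2 (LL ι)).mul_left (4 * PP h ^ 2)
  have h3 := ((h0.add h1).add h2).mul_left (Real.exp (-lA ι))
  have e1 : DD ι * (m ^ 2 + Nz h - 2 * QQ h - 2 * PP2 h) = Real.exp (-lA ι) *
      (((m + PP h) ^ 2 + Nz h) * Real.exp (-(LL ι / 2)) +
        4 * ((m + PP h) * PP h + QQ h + PP2 h) * -(Real.exp (-(LL ι / 2)) / 2) +
        4 * PP h ^ 2 * (Real.exp (-(LL ι / 2)) / 4)) := by
    rw [DD, neg_add, Real.exp_add]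
    ring
  rw [e1]
  have e2 : (fun b : ℕ => (-1) ^ b * cw b * Mb h m b) = fun b : ℕ => Real.exp (-lA ι) *
      (((m + PP h) ^ 2 + Nz h) * ((-1) ^ b * cw b * LL ι ^ b) +
        4 * ((m + PP h) * PP h + QQ h + PP2 h) * ((-1) ^ b * cw b * (b * LL ι ^ (b - 1))) +
        4 * PP h ^ 2 * ((-1) ^ b * cw b * (b * ((b : ℝ) - 1) * LL ι ^ (b - 2)))) := by
    funext b
    unfold Mb
    ring
  rw [e2]
  exact h3

end Pool.Agent.Eps.P
end
end
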