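import Pool.Agent.Lib.MP_3bda03_nt.P.Level3A
import Pool.Agent.Lib.MP_3bda03_nt.P.Level3C
import Pool.Agent.Lib.MP_3bda03_nt.T.Rad

-- part Pool.Agent.Lib.MP_3bda03_nt.P.Level3B1
section

/-!
The terms of the dual sieve, one size at a time.
-/

set_option autoImplicit false

noncomputable section

open MeasureTheory Matrix
open scoped ENNReal

namespace Pool.Agent.Eps.P

open Pool.Agent.Eps.H

variable {ι : Type} [Fintype ι] [DecidableEq ι] {φ : ℝ → ℝ}

variable (hn : 97 ≤ Fintype.card ι) (hφ : Tst ι φ)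
include hn hφ

omit [DecidableEq ι] hφ in
theorem l3b1_BY (b : ℕ) : evD (hd ι) b BY =
    mE.ev (hd ι) * (1 + 0.0125 / lb (hd ι)) ^ b * (lb (hd ι) * Real.exp 0.4826) *
      evD (hd ι) b XGL + mE.ev (hd ι) * (1 + 0.0125 / lb (hd ι)) ^ b * evD (hd ι) b CB := by
  have hv := hd_ge hn
  have h1 : ∀ t ∈ XGL, t.c = 0 := by
    simp [XGL, GX, G3, G4, G5, GM, GN, GO]
  have h2 : ∀ t ∈ CB, t.c = 0 := by simp [CB]
  have e1 : (((|(0.0125 : ℚ)| : ℚ)) : ℝ) = 0.0125 := by norm_num [abs_of_pos]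
  have e2 : (⟨1, 1, 0, 0.4826, 0, 0⟩ : Mono).ev (hd ι) = lb (hd ι) * Real.exp 0.4826 := by
    simp only [Mono.ev]
    norm_num
  rw [BY, evD_append, evD_scD hv b _ _ h1, evD_scD hv b _ _ h2, Mono.ev_mul hv, e1, e2]
  ring

omit [DecidableEq ι] hφ in
theorem l3b1_BN (b : ℕ) : evD (hd ι) b BN =
    mE.ev (hd ι) * (1 + 0.052 / lb (hd ι)) ^ b * (1.43 * lb (hd ι) * Real.exp 0.4826) *
      evD (hd ι) b XGL + mE.ev (hd ι) * (1 + 0.0125 / lb (hd ι)) ^ b * evD (hd ι) b XGL := by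
  have hv := hd_ge hn
  have h1 : ∀ t ∈ XGL, t.c = 0 := by
    simp [XGL, GX, G3, G4, G5, GM, GN, GO]
  have e1 : (((|(0.0125 : ℚ)| : ℚ)) : ℝ) = 0.0125 := by norm_num [abs_of_pos]
  have e3 : (((|(0.052 : ℚ)| : ℚ)) : ℝ) = 0.052 := by norm_num [abs_of_pos]
  have e2 : (⟨1.43, 1, 0, 0.4826, 0, 0⟩ : Mono).ev (hd ι) =
      1.43 * lb (hd ι) * Real.exp 0.4826 := by
    simp only [Mono.ev]
    norm_num [abs_of_pos]
  rw [BN, evD_append, evD_scD hv b _ _ h1, evD_scD hv b _ _ h1, Mono.ev_mul hv, e1, e2, e3]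
  ring

omit [DecidableEq ι] hφ in
theorem l3b1_BP (b : ℕ) : evD (hd ι) b BP =
    mE.ev (hd ι) * (1 + 0.0125 / lb (hd ι)) ^ b * 7 * evD (hd ι) b S2L +
      mE.ev (hd ι) * (1 + 0.0125 / lb (hd ι)) ^ b * evD (hd ι) b CA := by
  have hv := hd_ge hn
  have h1 : ∀ t ∈ S2L, t.c = 0 := by
    simp [S2L, polD, c22, c33]
  have h2 : ∀ t ∈ CA, t.c = 0 := by simp [CA]
  have e1 : (((|(0.0125 : ℚ)| : ℚ)) : ℝ) = 0.0125 := by norm_num [abs_of_pos]
  have e2 : (((|(7 : ℚ)| : ℚ)) : ℝ) = 7 := by norm_num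
  rw [BP, evD_append, evD_scD hv b _ _ h1, evD_scD hv b _ _ h2, Mono.ev_mul hv, ev_cM, e1, e2]
  ring

theorem phi_int {α β : Type} [Fintype α] [DecidableEq α] [Fintype β] [DecidableEq β]
    (e : α ⊕ β ≃ ι) (hb : Fintype.card α ≤ KK ι) (m : ℝ) :
    ∫⁻ X : Matrix α ι ℝ, IA X * ind (nice X) * ENNReal.ofReal
      |Real.exp (-xV e X) * (sV e (rad φ) m X ^ 2 + NV e (rad φ) X) - Phi1 (rad φ) m X| ≤
      ENNReal.ofReal (VV (hd ι) ^ Fintype.card α *
        (evD (hd ι) (Fintype.card α) BY * Yb (hd ι) m (Fintype.card α) +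
          evD (hd ι) (Fintype.card α) BN * Nz (rad φ : (ι → ℝ) → ℝ) +
          evD (hd ι) (Fintype.card α) BP * vp (hd ι))) := by
  have hv := hd_ge hn
  have hh := hφ.hf hn
  have hl := mom_lb_pos hv
  have hE := Mono.ev_nonneg hv mE
  have hN : 0 ≤ Nz (rad φ : (ι → ℝ) → ℝ) := by
    unfold Nz
    exact mul_nonneg (by norm_num) (integral_nonneg fun y => sq_nonneg _)
  have hV : 0 < VV (hd ι) := by unfold VV; positivity
  have hvp := vp_pos hv
  have hY : 0 ≤ Yb (hd ι) m (Fintype.card α) := by unfold Yb; positivity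
  have hX0 := evD_nonneg hv (Fintype.card α) XGL
  have hA0 := evD_nonneg hv (Fintype.card α) CA
  have hB0 := evD_nonneg hv (Fintype.card α) CB
  have hS0 := evD_nonneg hv (Fintype.card α) S2L
  have mI : Measurable (IA : Matrix α ι ℝ → ℝ≥0∞) := measurable_IA
  have mX : Measurable (XG : Matrix α ι ℝ → ℝ≥0∞) := measurable_XG hn
  have mS : Measurable (S2a (rad φ) : Matrix α ι ℝ → ℝ≥0∞) := measurable_S2a hn hh
  have ms : Measurable (s1 (rad φ) m : Matrix α ι ℝ → ℝ) := measurable_s1 hn hh m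
  have j1 := joint_s1 hn (joint_XG hn hb) mX hh m
  have j2 := cross_le hn hh hb m
  have j3 := S2a_sq_le hn hh hb
  have j4 := (joint_XG hn hb).2.1
  rw [l3b1_BY hn, l3b1_BN hn, l3b1_BP hn]
  set c1 := mE.ev (hd ι) * (1 + 0.0125 / lb (hd ι)) ^ Fintype.card α with hc1
  set c2 := mE.ev (hd ι) * (1 + 0.052 / lb (hd ι)) ^ Fintype.card α *
    (1.43 * lb (hd ι) * Real.exp 0.4826) with hc2
  set a := lb (hd ι) * Real.exp 0.4826 with ha
  set N := Nz (rad φ : (ι → ℝ) → ℝ) with hNd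
  have h1 : 0 ≤ c1 := by positivity
  have h2 : 0 ≤ c2 := by positivity
  have h3 : 0 ≤ a := by positivity
  have m1 : Measurable fun U : Matrix α ι ℝ =>
      IA U * XG U * ENNReal.ofReal (1.15 * s1 (rad φ) m U ^ 2) :=
    (mI.mul mX).mul ((ms.pow_const 2).const_mul _).ennreal_ofReal
  have m2 : Measurable fun U : Matrix α ι ℝ =>
      IA U * (2 * ENNReal.ofReal |s1 (rad φ) m U| * S2a (rad φ) U) :=
    mI.mul (((continuous_abs.measurable.comp ms).ennreal_ofReal.const_mul _).mul mS)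
  have m3 : Measurable fun U : Matrix α ι ℝ => IA U * S2a (rad φ) U ^ 2 :=
    mI.mul (mS.pow_const 2)
  have m4 : Measurable fun U : Matrix α ι ℝ => IA U * XG U := mI.mul mX
  have key : ∀ᵐ X : Matrix α ι ℝ, IA X * ind (nice X) * ENNReal.ofReal
      |Real.exp (-xV e X) * (sV e (rad φ) m X ^ 2 + NV e (rad φ) X) - Phi1 (rad φ) m X| ≤
      ENNReal.ofReal (c1 * a) * (IA X * XG X * ENNReal.ofReal (1.15 * s1 (rad φ) m X ^ 2)) +
        ENNReal.ofReal c1 * (IA X * (2 * ENNReal.ofReal |s1 (rad φ) m X| * S2a (rad φ) X)) +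
        ENNReal.ofReal (c1 * 7) * (IA X * S2a (rad φ) X ^ 2) +
        ENNReal.ofReal (c1 * N + c2 * N) * (IA X * XG X) := by
    filter_upwards [ae_blk e] with X hX
    by_cases hA : ∀ i, X i ∈ AA ι
    · by_cases hg : nice X
      · have h := pt_phi e hn hb hX hA hφ hg m
        rw [IA_eq_one hA, ind_pos hg, one_mul, one_mul]
        refine h.trans (le_of_eq ?_)
        rw [ENNReal.ofReal_add (by positivity) (by positivity), ENNReal.ofReal_mul h1,
          ENNReal.ofReal_mul h1, ENNReal.ofReal_mul h1, ENNReal.ofReal_ofNat]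
        ring
      · rw [ind_neg hg, mul_zero, zero_mul]
        exact zero_le
    · rw [IA_eq_zero hA, zero_mul, zero_mul]
      exact zero_le
  refine (lintegral_mono_ae key).trans ?_
  rw [lintegral_add_right _ (m4.const_mul _), lintegral_add_right _ (m3.const_mul _),
    lintegral_add_right _ (m2.const_mul _), lintegral_const_mul _ m1, lintegral_const_mul _ m2,
    lintegral_const_mul _ m3, lintegral_const_mul _ m4]
  refine (add_le_add (add_le_add (add_le_add (mul_le_mul_right j1 _) (mul_le_mul_right j2 _))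
    (mul_le_mul_right j3 _)) (mul_le_mul_right j4 _)).trans (le_of_eq ?_)
  rw [← ENNReal.ofReal_mul (by positivity), ← ENNReal.ofReal_mul (by positivity),
    ← ENNReal.ofReal_mul (by positivity), ← ENNReal.ofReal_mul (by positivity),
    ← ENNReal.ofReal_add (by positivity) (by positivity),
    ← ENNReal.ofReal_add (by positivity) (by positivity),
    ← ENNReal.ofReal_add (by positivity) (by positivity)]
  congr 1
  ring

end Pool.Agent.Eps.P
end
end

-- part Pool.Agent.Lib.MP_3bda03_nt.P.Level3B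
section

/-!
The terms of the dual sieve, one size at a time.
-/

set_option autoImplicit false

noncomputable section

open MeasureTheory Matrix
open scoped ENNReal

namespace Pool.Agent.Eps.P

open Pool.Agent.Eps.H

theorem level3B_abs {X : Type} [MeasurableSpace X] {μ : Measure X} {u : X → ℝ≥0∞} {f : X → ℝ}
    {B : ℝ} (hu : Measurable u) (hf : Integrable f μ) (h1 : ∀ᵐ x ∂μ, u x ≠ ∞) (hB : 0 ≤ B)
    (h2 : ∫⁻ x, ENNReal.ofReal |(u x).toReal - f x| ∂μ ≤ ENNReal.ofReal B) :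
    ∫⁻ x, u x ∂μ ≠ ∞ ∧ |(∫⁻ x, u x ∂μ).toReal - ∫ x, f x ∂μ| ≤ B := by
  have hm : AEStronglyMeasurable (fun x => (u x).toReal - f x) μ :=
    hu.ennreal_toReal.aestronglyMeasurable.sub hf.1
  have hd : Integrable (fun x => (u x).toReal - f x) μ := by
    refine ⟨hm, ?_⟩
    rw [hasFiniteIntegral_iff_norm]
    exact h2.trans_lt ENNReal.ofReal_lt_top
  have hi : Integrable (fun x => (u x).toReal) μ := (hd.add hf).congr (ae_of_all _ fun x => by simp)
  refine ⟨?_, ?_⟩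
  · rw [← lintegral_congr_ae (h1.mono fun x hx => ENNReal.ofReal_toReal hx)]
    exact hi.lintegral_lt_top.ne
  · rw [← integral_toReal hu.aemeasurable (h1.mono fun x hx => hx.lt_top), ← integral_sub hi hf]
    exact (norm_integral_le_lintegral_norm fun x => (u x).toReal - f x).trans
      (ENNReal.toReal_le_of_le_ofReal hB h2)

theorem level3B_sum {X : Type} [MeasurableSpace X] {μ : Measure X} {u a b c : X → ℝ≥0∞}
    {f : X → ℝ} {A B C D ε : ℝ} {κ : ℝ≥0∞} (hu : Measurable u) (hf : Integrable f μ)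
    (ha : Measurable a) (hb : Measurable b)
    (key : ∀ᵐ x ∂μ, u x ≠ ∞ ∧ ENNReal.ofReal |(u x).toReal - f x| ≤ a x + (b x + c x))
    (hA : ∫⁻ x, a x ∂μ ≤ ENNReal.ofReal A) (hB : ∫⁻ x, b x ∂μ ≤ ENNReal.ofReal B)
    (hC : ∫⁻ x, c x ∂μ ≤ ENNReal.ofReal C)
    (hD : ∫⁻ x, ENNReal.ofReal |f x| ∂μ ≤ ENNReal.ofReal D) (A0 : 0 ≤ A) (B0 : 0 ≤ B)
    (C0 : 0 ≤ C) (D0 : 0 ≤ D) (ε0 : 0 ≤ ε) (h1 : κ ≤ 1) (h2 : 1 ≤ κ + ENNReal.ofReal ε) :
    κ * ∫⁻ x, u x ∂μ ≠ ∞ ∧ |(κ * ∫⁻ x, u x ∂μ).toReal - ∫ x, f x ∂μ| ≤ A + (B + C) + ε * D := by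
  obtain ⟨k1, k2⟩ := level3B_abs (B := A + (B + C)) hu hf (key.mono fun x hx => hx.1)
    (by positivity) (by
      refine (lintegral_mono_ae (key.mono fun x hx => hx.2)).trans ?_
      rw [lintegral_add_left ha, lintegral_add_left hb, ENNReal.ofReal_add A0 (add_nonneg B0 C0),
        ENNReal.ofReal_add B0 C0]
      exact add_le_add hA (add_le_add hB hC))
  have hκ : κ ≠ ∞ := ne_top_of_le_ne_top ENNReal.one_ne_top h1
  refine ⟨ENNReal.mul_ne_top hκ k1, ?_⟩
  have k3 : |∫ x, f x ∂μ| ≤ D :=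
    (norm_integral_le_lintegral_norm f).trans (ENNReal.toReal_le_of_le_ofReal D0 hD)
  have k4 : κ.toReal ≤ 1 := ENNReal.toReal_le_of_le_ofReal zero_le_one (by simpa using h1)
  have k5 : 1 ≤ κ.toReal + ε := by
    have := ENNReal.toReal_mono (ENNReal.add_ne_top.2 ⟨hκ, ENNReal.ofReal_ne_top⟩) h2
    rwa [ENNReal.toReal_add hκ ENNReal.ofReal_ne_top, ENNReal.toReal_ofReal ε0,
      ENNReal.toReal_one] at this
  have k6 : 0 ≤ κ.toReal := ENNReal.toReal_nonneg
  rw [ENNReal.toReal_mul]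
  generalize (∫⁻ x, u x ∂μ).toReal = J at *
  generalize ∫ x, f x ∂μ = M at *
  generalize κ.toReal = t at *
  calc |t * J - M| = |t * (J - M) + (t - 1) * M| := by ring_nf
    _ ≤ t * |J - M| + (1 - t) * |M| := by
      refine (abs_add_le _ _).trans (le_of_eq ?_)
      rw [abs_mul, abs_mul, abs_of_nonneg k6, abs_sub_comm t, abs_of_nonneg (sub_nonneg.2 k4)]
    _ ≤ 1 * (A + (B + C)) + ε * D :=
      add_le_add (mul_le_mul k4 k2 (abs_nonneg _) zero_le_one)
        (mul_le_mul (by linarith) k3 (abs_nonneg _) ε0)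
    _ = _ := by rw [one_mul]

theorem level3B_cont (v : ℝ) (L : List Tm) : Continuous fun ξ => evT v ξ L := by
  induction L with
  | nil => simpa [evT] using continuous_const
  | cons t L ih =>
    simp only [evT, List.map_cons, List.sum_cons] at ih ⊢
    refine Continuous.add ?_ ih
    unfold Tm.ev
    fun_prop

theorem level3B_c : ∀ t ∈ FAIL ++ IMP, t.c = 0 := by
  intro t ht
  simp only [FAIL, IMP, polD, scD, List.mem_append, List.mem_map, List.mem_singleton] at ht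
  rcases ht with ((⟨x, -, rfl⟩ | ⟨x, -, rfl⟩) | ⟨x, -, rfl⟩) | rfl <;> rfl

theorem level3B_imp {v : ℝ} {b d : ℕ} (h : 5 * v / 3 ≤ d) : imp b d ≤ evD v b IMP := by
  refine (imp_le h).trans (le_of_eq ?_)
  simp [evD, IMP, Dt.ev, Mono.ev, ff_zero]
  norm_num
  ring

variable {ι : Type} [Fintype ι] [DecidableEq ι] {φ : ℝ → ℝ}

variable (hn : 97 ≤ Fintype.card ι) (hφ : Tst ι φ)
include hn hφ

theorem dual_good (m : ℝ) {b : ℕ} (hb : b ≤ KK ι) :
    TT (mu ι) (fun g => g) (WW (rad φ) m) (goodF (fun _ U => nice U) b) ≠ ∞ ∧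
    |(TT (mu ι) (fun g => g) (WW (rad φ) m) (goodF (fun _ U => nice U) b)).toReal -
        Mb (rad φ : (ι → ℝ) → ℝ) m b| ≤ VV (hd ι) ^ b *
      (evD (hd ι) b (AY ++ BY ++ CY) * Yb (hd ι) m b +
        evD (hd ι) b (AN ++ BN ++ CNz) * Nz (rad φ : (ι → ℝ) → ℝ) +
        evD (hd ι) b (AP ++ BP) * vp (hd ι)) := by
  have hv := hd_ge hn
  have hK : b ≤ Fintype.card ι / 6 := hb
  obtain ⟨e⟩ := exists_split (ι := ι) (b := b) (by omega)
  have : Nonempty (Fin (Fintype.card ι - b)) := ⟨⟨0, by omega⟩⟩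
  have hb' : Fintype.card (Fin b) ≤ KK ι := by rwa [Fintype.card_fin]
  have hh := hφ.hf hn
  have hnice : MeasurableSet {U : Matrix (Fin b) ι ℝ | nice U} := (her_nice hn).meas b
  have hW : Measurable fun g : Matrix ι ι ℝ =>
      hole g * YY (rad φ) (ctr (rad φ : (ι → ℝ) → ℝ) - m) g :=
    measurable_hole.mul (measurable_YY hh.meas hh.nonneg _)
  have hG := measurable_goodF (her_nice (ι := ι) hn) b
  have hT : TT (mu ι) (fun g => g) (WW (rad φ) m) (goodF (fun _ U => nice U) b) = _ :=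
    frame_cond e hG hW fun γ g => congrArg₂ (· * ·) (linv_hole γ g) (linv_YY _ _ γ g)
  obtain ⟨hI, hM⟩ := main_eq (τ := Fin b) hn hφ m
  have hP := measurable_Phi1 (τ := Fin b) hn hφ m
  have e1 := err_int hn hb' hφ m
  have e2 := phi_int hn hφ e hb' m
  have e3 := joint_Phi1 hn hφ (joint_fail hn hb') (measurable_ind hnice.compl) m
  have e4 := joint_Phi1 (τ := Fin b) hn hφ (joint_const hn zero_le_one) measurable_const m
  have hc1 := one_le_cc e (by rw [Fintype.card_fin]; omega)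
  have hc2 := cc_le_one e
  have hl : 0 < lb (hd ι) := lt_of_lt_of_le (by norm_num) (lb_ge hv)
  have hV : 0 < VV (hd ι) := by unfold VV; positivity
  have hvp := vp_pos hv
  have hY : 0 ≤ Yb (hd ι) m b := by unfold Yb; positivity
  have hN : 0 ≤ Nz (rad φ : (ι → ℝ) → ℝ) :=
    mul_nonneg zero_le_two (integral_nonneg fun _ => sq_nonneg _)
  have hE := Mono.ev_nonneg hv mE
  have hD := evD_nonneg hv b
  have himp : imp b (Fintype.card ι) ≤ evD (hd ι) b IMP := level3B_imp (by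
    unfold hd; have := Nat.cast_nonneg (α := ℝ) (Fintype.card ι); linarith)
  have himp0 : 0 ≤ imp b (Fintype.card ι) := by unfold imp; positivity
  simp only [Fintype.card_fin] at e1 e2 e3 e4 hM hc1
  set E1 : Matrix (Fin b) ι ℝ → ℝ := fun X =>
    evT (hd ι) ((Gam2 X).toReal + b * g1 (hd ι)) L1 * (1.15 * s1 (rad φ) m X ^ 2) +
      0.00767 * (1 + ((|tilt 3 5| : ℚ) : ℝ) / lb (hd ι)) ^ b * (S2a (rad φ) X).toReal ^ 2 +
      evT (hd ι) ((Gam2 X).toReal + b * g1 (hd ι)) (scT (cM 1) 1 L2) *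
        Nz (rad φ : (ι → ℝ) → ℝ) +
      evT (hd ι) ((Gam2 X).toReal + b * g1 (hd ι)) L3 * vp (hd ι) with hE1
  have mE1 : Measurable E1 := by
    have h1 : Measurable fun X : Matrix (Fin b) ι ℝ => (Gam2 X).toReal + b * g1 (hd ι) :=
      (measurable_Gam2 hn).ennreal_toReal.add_const _
    have h2 : ∀ L, Measurable fun X : Matrix (Fin b) ι ℝ =>
        evT (hd ι) ((Gam2 X).toReal + b * g1 (hd ι)) L :=
      fun L => (level3B_cont _ L).measurable.comp h1
    exact ((((h2 _).mul (((measurable_s1 hn hh m).pow_const 2).const_mul _)).add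
      (((measurable_S2a hn hh).ennreal_toReal.pow_const 2).const_mul _)).add
      ((h2 _).mul_const _)).add ((h2 _).mul_const _)
  have key : ∀ X : Matrix (Fin b) ι ℝ, (blk e X).det ≠ 0 →
      goodF (fun _ U => nice U) b X * ∫⁻ ω, hole (gX e X ω) *
        YY (rad φ) (ctr (rad φ : (ι → ℝ) → ℝ) - m) (gX e X ω) ∂PX _ _ ≠ ∞ ∧
      ENNReal.ofReal |(goodF (fun _ U => nice U) b X * ∫⁻ ω, hole (gX e X ω) *
        YY (rad φ) (ctr (rad φ : (ι → ℝ) → ℝ) - m) (gX e X ω) ∂PX _ _).toReal -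
        (IA X).toReal * Phi1 (rad φ) m X| ≤
      IA X * ind (nice X) * ENNReal.ofReal (E1 X) +
        (IA X * ind (¬ nice X) * ENNReal.ofReal |Phi1 (rad φ) m X| +
        IA X * ind (nice X) * ENNReal.ofReal
          |Real.exp (-xV e X) * (sV e (rad φ) m X ^ 2 + NV e (rad φ) X) - Phi1 (rad φ) m X|) := by
    intro X hX
    unfold goodF
    by_cases hA : ∀ i, X i ∈ AA ι
    · by_cases hg : nice X
      · obtain ⟨k1, k2⟩ := pt_err e hn hb' hφ hX hA hg m rfl
        simp only [Fintype.card_fin] at k2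
        simp only [IA_eq_one hA, ind_pos hg, ind_neg (not_not.2 hg), one_mul, mul_zero, zero_mul,
          zero_add, ENNReal.toReal_one]
        refine ⟨k1, le_trans (ENNReal.ofReal_le_ofReal ?_) ENNReal.ofReal_add_le⟩
        exact (abs_sub_le _ _ _).trans (add_le_add_left k2 _)
      · simp [IA_eq_one hA, ind_neg hg, ind_pos hg]
    · simp [IA_eq_zero hA]
  have d1 := hD AY; have d2 := hD AN; have d3 := hD AP; have d4 := hD BY; have d5 := hD BN
  have d6 := hD BP; have d7 := hD FAIL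
  obtain ⟨k1, k2⟩ := level3B_sum (hG.mul (measurable_cond e hW)) hI
    ((measurable_IA.mul (measurable_ind hnice)).mul mE1.ennreal_ofReal)
    ((measurable_IA.mul (measurable_ind hnice.compl)).mul hP.abs.ennreal_ofReal)
    ((ae_blk e).mono key) e1 e3 e2 (le_trans (lintegral_mono fun X => by
      by_cases hA : ∀ i, X i ∈ AA ι
      · simp [IA_eq_one hA]
      · simp [IA_eq_zero hA]) e4) (by positivity) (by positivity) (by positivity)
    (by positivity) himp0 hc2 hc1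
  rw [hT]
  refine ⟨k1, ?_⟩
  rw [← hM]
  refine k2.trans ?_
  have c1 : ((|(0.0125 : ℚ)| : ℚ) : ℝ) = 0.0125 := by norm_num [abs_of_pos]
  have c2 : ((|(0.052 : ℚ)| : ℚ) : ℝ) = 0.052 := by norm_num [abs_of_pos]
  simp only [evD_append, CY, CNz, evD_scD hv b _ _ level3B_c, c1, c2]
  refine (add_le_add_right (mul_le_mul_of_nonneg_right himp (by positivity)) _).trans
    (le_of_eq ?_)
  ring

end Pool.Agent.Eps.P
end
end

-- part Pool.Agent.Lib.MP_3bda03_nt.P.Level3
section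

/-!
The second moment on the two holes.
-/

set_option autoImplicit false

noncomputable section

open MeasureTheory Matrix
open scoped ENNReal

namespace Pool.Agent.Eps.P

open Pool.Agent.Eps.H

variable {ι : Type} [Fintype ι] [DecidableEq ι] {φ : ℝ → ℝ}

theorem level3_tail {f e : ℕ → ℝ} {S x E : ℝ} (hf : HasSum f S) (K : ℕ)
    (h1 : |x - ∑ a ∈ Finset.range (K + 1), f a| ≤ ∑ a ∈ Finset.range (K + 1), e a)
    (h2 : ∀ a, K < a → |f a| ≤ e a) (h3 : ∀ n, ∑ a ∈ Finset.range n, e a ≤ E) :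
    |x - S| ≤ E := by
  have h4 : ∀ n, K + 1 ≤ n →
      |x - ∑ a ∈ Finset.range n, f a| ≤ ∑ a ∈ Finset.range n, e a := by
    intro n hn
    induction n, hn using Nat.le_induction with
    | base => exact h1
    | succ n hn ih =>
      rw [Finset.sum_range_succ, Finset.sum_range_succ, ← sub_sub]
      exact (abs_sub _ _).trans (add_le_add ih (h2 n hn))
  refine le_of_tendsto ((hf.tendsto_sum_nat.const_sub x).abs) ?_
  filter_upwards [Filter.eventually_ge_atTop (K + 1)] with n hn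
  exact (h4 n hn).trans (h3 n)

theorem level3_abs (a : ℕ) (x : ℝ) : |(-1) ^ a * cw a * x| = cw a * |x| := by
  rw [abs_mul, abs_mul, abs_pow, abs_neg, abs_one, one_pow, one_mul, abs_of_pos (cw_pos a)]

theorem level3_fin {T M B C : ℕ → ℝ} {x : ℝ} (K : ℕ)
    (h1 : |x - ∑ a ∈ Finset.range (K + 1), (-1) ^ a * cw a * T a| ≤
      ∑ a ∈ Finset.range (K + 1), cw a * B a) (h2 : ∀ a ≤ K, |T a - M a| ≤ C a) :
    |x - ∑ a ∈ Finset.range (K + 1), (-1) ^ a * cw a * M a| ≤
      ∑ a ∈ Finset.range (K + 1), cw a * (B a + C a) := by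
  have h3 : |∑ a ∈ Finset.range (K + 1), (-1) ^ a * cw a * T a -
      ∑ a ∈ Finset.range (K + 1), (-1) ^ a * cw a * M a| ≤
      ∑ a ∈ Finset.range (K + 1), cw a * C a := by
    rw [← Finset.sum_sub_distrib]
    refine (Finset.abs_sum_le_sum_abs _ _).trans (Finset.sum_le_sum fun a ha => ?_)
    rw [← mul_sub, level3_abs]
    exact mul_le_mul_of_nonneg_left (h2 a (Nat.lt_succ_iff.1 (Finset.mem_range.1 ha)))
      (cw_pos a).le
  simp only [mul_add, Finset.sum_add_distrib]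
  exact (abs_sub_le _ _ _).trans (add_le_add h1 h3)

/-- the error at the size `b` for three lists -/
def level3_er (v m N : ℝ) (A B C : List Dt) (b : ℕ) : ℝ :=
  VV v ^ b * (evD v b A * Yb v m b + evD v b B * N + evD v b C * vp v)

theorem level3_er_append (v m N : ℝ) (A B C A' B' C' : List Dt) (b : ℕ) :
    level3_er v m N (A ++ A') (B ++ B') (C ++ C') b =
      level3_er v m N A B C b + level3_er v m N A' B' C' b := by
  simp only [level3_er, evD_append]
  ring

theorem level3_er_nonneg {v N : ℝ} (hv : 97 / 2 ≤ v) (hN : 0 ≤ N) (m : ℝ) (A B C : List Dt)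
    (b : ℕ) : 0 ≤ level3_er v m N A B C b := by
  have h1 := evD_nonneg hv b A
  have h2 := evD_nonneg hv b B
  have h3 := evD_nonneg hv b C
  have h4 := vp_pos hv
  have h5 : 0 < VV v := by
    have := lb_ge hv
    unfold VV
    linarith
  unfold level3_er Yb
  positivity

theorem level3_er_sum {v N : ℝ} (hv : 97 / 2 ≤ v) (hN : 0 ≤ N) (m : ℝ) (A B C : List Dt)
    (S : Finset ℕ) : ∑ b ∈ S, cw b * level3_er v m N A B C b ≤
      6.9 * evL v (s0L A) * m ^ 2 + evL v (s0L B) * N +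
        (1.38 * evL v (sWL A) + evL v (s0L C)) * vp v := by
  have e : ∀ b, cw b * level3_er v m N A B C b = cw b * (VV v ^ b * (evD v b A * Yb v m b)) +
      cw b * (VV v ^ b * evD v b B) * N + cw b * (VV v ^ b * evD v b C) * vp v := fun b => by
    unfold level3_er
    ring
  have h1 := sum_evD_Yb_le hv S A m
  have h2 := mul_le_mul_of_nonneg_right (sum_evD_le hv S B) hN
  have h3 := mul_le_mul_of_nonneg_right (sum_evD_le hv S C) (vp_pos hv).le
  rw [Finset.sum_congr rfl fun b _ => e b, Finset.sum_add_distrib, Finset.sum_add_distrib,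
    ← Finset.sum_mul, ← Finset.sum_mul]
  linarith

theorem level3_split (v m N : ℝ) (b : ℕ) : level3_er v m N LY LN LP b =
    level3_er v m N ZY ZN ZP b + level3_er v m N (AY ++ BY ++ CY) (AN ++ BN ++ CNz) (AP ++ BP) b +
      level3_er v m N TY TN [] b := by
  rw [← level3_er_append, ← level3_er_append, LY, LN, LP]
  simp only [List.append_assoc, List.append_nil]

omit [DecidableEq ι] in
theorem level3_Nz (h : (ι → ℝ) → ℝ) : 0 ≤ Nz h :=
  mul_nonneg zero_le_two (integral_nonneg fun _ => sq_nonneg _)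

omit [DecidableEq ι] in
theorem level3_zero : Tst ι (fun _ => 0) :=
  ⟨⟨measurable_const, by simp [continuousAt_const], 0, 1, one_pos, by simp⟩, fun _ => le_rfl,
    fun _ _ => (Real.exp_pos _).le, fun _ _ => rfl⟩

theorem level3_dec {v : ℝ} (hv : 97 / 2 ≤ v) : 0 < dec v ∧ dec v ≤ 1 :=
  ⟨Real.exp_pos _, Real.exp_le_one_iff.2 (by linarith)⟩

variable (hn : 97 ≤ Fintype.card ι)
include hn

theorem moment (hφ : Tst ι φ) (m : ℝ) :
    ∫⁻ g, hole g * WW (rad φ) m g ∂mu ι ≠ ∞ ∧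
    |(∫⁻ g, hole g * WW (rad φ) m g ∂mu ι).toReal -
        DD ι * (m ^ 2 + Nz (rad φ : (ι → ℝ) → ℝ) - 2 * QQ (rad φ : (ι → ℝ) → ℝ) -
          2 * PP2 (rad φ : (ι → ℝ) → ℝ))| ≤
      DD ι * (evL (hd ι) etaL * m ^ 2 +
        evL (hd ι) (scL amp (s0L LN)) * Nz (rad φ : (ι → ℝ) → ℝ) +
        evL (hd ι) epsL * vp (hd ι)) := by
  have hv := hd_ge hn
  have hN := level3_Nz (rad φ : (ι → ℝ) → ℝ)
  obtain ⟨h1, h2⟩ := sieve_int hn (her_nice hn) (KK ι) (P := mu ι) (g := fun g => g)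
    measurable_id (rl_mu (ι := ι)).det (measurable_WW hn hφ m)
    (fun a ha => (dual_good hn hφ m ha).1)
    (B := level3_er (hd ι) m (Nz (rad φ : (ι → ℝ) → ℝ)) ZY ZN ZP)
    (fun a _ => level3_er_nonneg hv hN m _ _ _ a) fun a ha => dual_bad hn hφ m ha
  refine ⟨h1, ?_⟩
  have h3 := level3_fin (KK ι) h2 (M := Mb (rad φ : (ι → ℝ) → ℝ) m)
    (C := level3_er (hd ι) m (Nz (rad φ : (ι → ℝ) → ℝ)) (AY ++ BY ++ CY) (AN ++ BN ++ CNz)
      (AP ++ BP)) fun a ha => (dual_good hn hφ m ha).2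
  have h4 := level3_tail (hasSum_Mb (rad φ : (ι → ℝ) → ℝ) m) (KK ι)
    (e := fun b => cw b * level3_er (hd ι) m (Nz (rad φ : (ι → ℝ) → ℝ)) LY LN LP b)
    (h3.trans (Finset.sum_le_sum fun a _ => mul_le_mul_of_nonneg_left (by
      rw [level3_split]
      exact le_add_of_nonneg_right (level3_er_nonneg hv hN m _ _ _ a)) (cw_pos a).le))
    (fun a ha => by
      rw [level3_abs]
      refine mul_le_mul_of_nonneg_left ((abs_Mb_le hn hφ m ha.le).trans ?_) (cw_pos a).le
      rw [level3_split]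
      refine le_trans (le_of_eq ?_) (le_add_of_nonneg_left
        (add_nonneg (level3_er_nonneg hv hN m _ _ _ a) (level3_er_nonneg hv hN m _ _ _ a)))
      rw [level3_er, show evD (hd ι) a [] = 0 from rfl, zero_mul, add_zero])
    fun n => level3_er_sum hv hN m LY LN LP _
  have k1 := evL_nonneg hv (s0L LY)
  have k2 := evL_nonneg hv (s0L LN)
  have k3 := evL_nonneg hv (sWL LY)
  have k4 := evL_nonneg hv (s0L LP)
  have k5 := vp_pos hv
  refine h4.trans ((le_mul_of_one_le_left (by positivity) (one_le_amp hn)).trans (le_of_eq ?_))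
  rw [etaL, epsL, evL_append, evL_scL hv, evL_scL hv, evL_scL hv, evL_scL hv, Mono.ev_mul hv,
    Mono.ev_mul hv, ev_cM, ev_cM, show ((|6.9| : ℚ) : ℝ) = 6.9 by norm_num [abs_of_pos],
    show ((|1.38| : ℚ) : ℝ) = 1.38 by norm_num [abs_of_pos]]
  ring

theorem moment_le (hφ : Tst ι φ) (m : ℝ) :
    ∫⁻ g, hole g * WW (rad φ) m g ∂mu ι ≤ ENNReal.ofReal (DD ι *
      ((1 + 0.009 * dec (hd ι)) * (Nz (rad φ : (ι → ℝ) → ℝ) + m ^ 2) +
        0.1 * dec (hd ι) * vp (hd ι))) := by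
  have hv := hd_ge hn
  have hN := level3_Nz (rad φ : (ι → ℝ) → ℝ)
  obtain ⟨h1, h2⟩ := moment hn hφ m
  rw [← ENNReal.ofReal_toReal h1]
  refine ENNReal.ofReal_le_ofReal
    ((sub_le_iff_le_add'.1 (abs_le.1 h2).2).trans ?_)
  rw [← mul_add]
  refine mul_le_mul_of_nonneg_left ?_ (Real.exp_pos _).le
  have k1 := mul_le_mul_of_nonneg_right (num_eta hv) (sq_nonneg m)
  have k2 := mul_le_mul_of_nonneg_right (num_etaN hv) hN
  have k3 := mul_le_mul_of_nonneg_right (num_eps hv) (vp_pos hv).le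
  have k4 := QQ_nonneg (h := (rad φ : (ι → ℝ) → ℝ)) hn
  have k5 := abs_PP2_le hn hφ
  have k6 := neg_abs_le (PP2 (rad φ : (ι → ℝ) → ℝ))
  rw [etaNL, evL_append, evL_cons, evL_nil] at k2
  linarith

theorem mass_ge :
    ENNReal.ofReal (DD ι * (1 - 0.0091 * dec (hd ι))) ≤ ∫⁻ g, hole g * hole (dual g) ∂mu ι := by
  have hv := hd_ge hn
  obtain ⟨h1, h2⟩ := moment hn (level3_zero (ι := ι)) 1
  have e0 : (rad (fun _ => 0) : (ι → ℝ) → ℝ) = fun _ => 0 := rfl
  have e1 : ∀ g : Matrix ι ι ℝ, WW (fun _ : ι → ℝ => 0) 1 g = hole (dual g) := fun g => by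
    simp [WW, YY, XX, ctr, PP, ftr]
  have e2 : Nz (fun _ : ι → ℝ => (0 : ℝ)) = 0 := by simp [Nz]
  have e3 : QQ (fun _ : ι → ℝ => (0 : ℝ)) = 0 := by simp [QQ, ftr]
  have e4 : PP2 (fun _ : ι → ℝ => (0 : ℝ)) = 0 := by simp [PP2, ftr]
  simp only [e0, e1, e2, e3, e4] at h1 h2
  rw [← ENNReal.ofReal_toReal h1]
  refine ENNReal.ofReal_le_ofReal (le_trans ?_ (neg_le_sub_iff_le_add'.1 (abs_le.1 h2).1 |>
    sub_le_iff_le_add'.2))
  rw [← mul_sub]
  refine mul_le_mul_of_nonneg_left ?_ (Real.exp_pos _).le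
  obtain ⟨d0, d1⟩ := level3_dec hv
  have k1 := num_eta hv
  have k3 := mul_le_mul (num_eps hv) ((vp_small hv).trans
    (mul_le_of_le_one_right (by norm_num) d1)) (vp_pos hv).le (by positivity)
  linarith

end Pool.Agent.Eps.P
end
end

-- part Pool.Agent.Lib.MP_3bda03_nt.P.Main
section

/-!
Existence of a lattice with two holes and small deviations.
-/

set_option autoImplicit false

noncomputable section

open MeasureTheory Matrix
open scoped ENNReal

namespace Pool.Agent.Eps.P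

open Pool.Agent.Eps.H

section
variable {ι : Type} [Fintype ι]

theorem main_exp : (0.8 : ℝ) ≤ Real.exp (-0.2231) := by
  have h := Real.exp_bound' (x := 0.2231) (by norm_num) (by norm_num) (n := 4) (by norm_num)
  have h2 : Real.exp 0.2231 ≤ 1.25 := by
    refine h.trans ?_
    simp only [Finset.sum_range_succ, Finset.sum_range_zero, Nat.factorial]
    norm_num
  rw [Real.exp_neg, le_inv_comm₀ (by norm_num) (Real.exp_pos _)]
  refine h2.trans ?_
  norm_num

theorem main_dec {v : ℝ} (hv : 97 / 2 ≤ v) : dec v ≤ 1 := by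
  unfold dec
  rw [Real.exp_le_one_iff]
  linarith

theorem main_ind_le (r : ℝ) (g : Matrix ι ι ℝ) :
    ind (∃ k : ι → ℤ, k ≠ 0 ∧ nsq (lv k g) < r) ≤
      ∑' k : {k : ι → ℤ // k ≠ 0},
        ({y : ι → ℝ | nsq y < r}.indicator (1 : (ι → ℝ) → ℝ≥0∞)) (lv k.1 g) := by
  by_cases h : ∃ k : ι → ℤ, k ≠ 0 ∧ nsq (lv k g) < r
  · rw [ind_pos h]
    obtain ⟨k, hk, hr⟩ := h
    refine le_trans ?_ (ENNReal.le_tsum (⟨k, hk⟩ : {k : ι → ℤ // k ≠ 0}))
    rw [Set.indicator_of_mem (show lv k g ∈ {y : ι → ℝ | nsq y < r} from hr)]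
    rfl
  · rw [ind_neg h]
    exact zero_le

theorem main_ftr_mul (c : ℝ) (f : (ι → ℝ) → ℝ) (w : ι → ℝ) :
    ftr (fun y => c * f y) w = c * ftr f w := by
  unfold ftr
  rw [← integral_const_mul]
  refine integral_congr_ae (Filter.Eventually.of_forall fun y => ?_)
  simp only [mul_assoc]

theorem main_ctr_mul (c : ℝ) (f : (ι → ℝ) → ℝ) : ctr (fun y => c * f y) = c * ctr f := by
  unfold ctr PP
  rw [mul_sub, integral_const_mul, ← integral_const_mul c (fun y => wA y * ftr f y)]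
  congr 1
  refine integral_congr_ae (Filter.Eventually.of_forall fun y => ?_)
  simp only [main_ftr_mul]
  ring

theorem main_Nz_mul (c : ℝ) (f : (ι → ℝ) → ℝ) : Nz (fun y => c * f y) = c ^ 2 * Nz f := by
  unfold Nz
  simp only [mul_pow]
  rw [integral_const_mul]
  ring

theorem main_XX_mul (c : ℝ) (f : (ι → ℝ) → ℝ) (g : Matrix ι ι ℝ) :
    XX (fun y => c * f y) g = c * XX f g := by
  unfold XX
  rw [tsum_mul_left]

theorem main_WW_mul [DecidableEq ι] (c : ℝ) (f : (ι → ℝ) → ℝ) (m : ℝ) (g : Matrix ι ι ℝ) :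
    WW (fun y => c * f y) (c * m) g = ENNReal.ofReal (c ^ 2) * WW f m g := by
  unfold WW YY
  rw [main_XX_mul, main_ctr_mul, mul_left_comm, ← ENNReal.ofReal_mul (sq_nonneg c)]
  congr 2
  ring

variable {R : Type} [MeasurableSpace R] {h : R → ℝ → ℝ}

theorem main_meas_rad (hhm : Measurable (Function.uncurry h)) :
    Measurable fun p : R × (ι → ℝ) => rad (h p.1) p.2 :=
  hhm.comp (measurable_fst.prodMk (measurable_nsq.comp measurable_snd))

theorem main_meas_XX (hhm : Measurable (Function.uncurry h)) :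
    Measurable fun p : Matrix ι ι ℝ × R => XX (rad (h p.2)) p.1 := by
  unfold XX
  refine Measurable.tsum fun k => ?_
  exact (main_meas_rad hhm).comp (measurable_snd.prodMk ((measurable_lv k.1).comp measurable_fst))

theorem main_meas_ftr (hhm : Measurable (Function.uncurry h)) :
    Measurable fun p : R × (ι → ℝ) => ftr (rad (h p.1)) p.2 := by
  unfold ftr
  have h1 : Measurable fun q : (R × (ι → ℝ)) × (ι → ℝ) =>
      rad (h q.1.1) q.2 * Real.cos (2 * Real.pi * (q.1.2 ⬝ᵥ q.2)) := by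
    refine Measurable.mul ((main_meas_rad hhm).comp
      ((measurable_fst.comp measurable_fst).prodMk measurable_snd)) ?_
    refine Real.measurable_cos.comp (Measurable.const_mul ?_ _)
    unfold dotProduct
    refine Finset.measurable_sum _ fun i _ => Measurable.mul ?_ ?_
    · exact (measurable_pi_apply i).comp (measurable_snd.comp measurable_fst)
    · exact (measurable_pi_apply i).comp measurable_snd
  exact h1.stronglyMeasurable.integral_prod_right'.measurable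

theorem main_meas_wA : Measurable (wA : (ι → ℝ) → ℝ) := by
  unfold wA al
  exact Real.measurable_exp.comp
    (measurable_ftr (measurable_one.indicator measurableSet_AA)).neg

theorem main_meas_ctr (hhm : Measurable (Function.uncurry h)) :
    Measurable fun x : R => ctr (rad (h x) : (ι → ℝ) → ℝ) := by
  unfold ctr PP
  refine Measurable.sub ?_ ?_
  · exact (main_meas_rad hhm).stronglyMeasurable.integral_prod_right'.measurable
  · have h1 : Measurable fun p : R × (ι → ℝ) => wA p.2 * ftr (rad (h p.1)) p.2 :=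
      (main_meas_wA.comp measurable_snd).mul (main_meas_ftr hhm)
    exact h1.stronglyMeasurable.integral_prod_right'.measurable

theorem main_meas_dev {β m : R → ℝ} (hβ : Measurable β) (hm : Measurable m)
    (hhm : Measurable (Function.uncurry h)) :
    Measurable fun p : Matrix ι ι ℝ × R => ENNReal.ofReal
      (β p.2 * (XX (rad (h p.2)) p.1 - ctr (rad (h p.2) : (ι → ℝ) → ℝ) + m p.2) ^ 2) := by
  refine ENNReal.measurable_ofReal.comp ((hβ.comp measurable_snd).mul (Measurable.pow_const ?_ 2))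
  exact ((main_meas_XX hhm).sub ((main_meas_ctr hhm).comp measurable_snd)).add
    (hm.comp measurable_snd)

theorem main_far {g : Matrix ι ι ℝ} (h1 : hole g ≠ 0)
    (h2 : ¬ ∃ k : ι → ℤ, k ≠ 0 ∧ nsq (lv k g) < 0.8 * rr (hd ι)) (k : ι → ℤ) (hk : k ≠ 0) :
    rr (hd ι) ≤ nsq (lv k g) := by
  have h3 : ∀ k : ι → ℤ, lv k g ∉ AA ι := by
    by_contra h3
    exact h1 (ind_neg h3)
  by_contra h4
  refine h3 k ⟨?_, not_le.1 h4⟩
  by_contra h5
  exact h2 ⟨k, hk, not_le.1 h5⟩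

/-- the mean of an invariant function against the two holes is unchanged by duality -/
theorem main_swap [DecidableEq ι] {Q : Matrix ι ι ℝ → ℝ≥0∞} (hQ : Measurable Q) (hi : LInv Q) :
    ∫⁻ g, hole g * hole (dual g) * Q g ∂mu ι =
      ∫⁻ g, hole g * hole (dual g) * Q (dual g) ∂mu ι := by
  have hm : Measurable fun g : Matrix ι ι ℝ => hole g * hole (dual g) * Q g :=
    (measurable_hole.mul (measurable_hole.comp measurable_dual)).mul hQ
  have hl : LInv fun g : Matrix ι ι ℝ => hole g * hole (dual g) * Q g := by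
    intro γ g
    have h2 := (linv_hole (ι := ι)).comp_dual γ g
    simp only at h2 ⊢
    rw [linv_hole γ g, h2, hi γ g]
  rw [← lintegral_mu_dual hm hl]
  refine lintegral_congr_ae (ae_mu_det.mono fun g hg => ?_)
  have hd0 : g.det ≠ 0 := by
    intro h0
    rw [h0, abs_zero] at hg
    exact zero_ne_one hg
  simp only
  rw [dual_dual hd0, mul_comm (hole (dual g))]

end

variable {ι : Type} [Fintype ι] [DecidableEq ι] (hn : 97 ≤ Fintype.card ι)
include hn

theorem short_le :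
    ∫⁻ g, ind (∃ k : ι → ℤ, k ≠ 0 ∧ nsq (lv k g) < 0.8 * rr (hd ι)) +
        ind (∃ k : ι → ℤ, k ≠ 0 ∧ nsq (lv k (dual g)) < 0.8 * rr (hd ι)) ∂mu ι ≤
      ENNReal.ofReal (DD ι * (0.001 * dec (hd ι))) := by
  have hv := hd_ge hn
  have hS : MeasurableSet {y : ι → ℝ | nsq y < 0.8 * rr (hd ι)} :=
    measurableSet_lt measurable_nsq measurable_const
  have hf : Measurable ({y : ι → ℝ | nsq y < 0.8 * rr (hd ι)}.indicator (1 : (ι → ℝ) → ℝ≥0∞)) :=
    measurable_one.indicator hS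
  refine (lintegral_mono fun g => add_le_add (main_ind_le _ g) (main_ind_le _ (dual g))).trans ?_
  rw [lintegral_add_left (sgl_measurable_sum _ hf), siegel (by omega) _ hf,
    siegel_dual (by omega) _ hf, lintegral_indicator_one hS, volume_core hn]
  have hlb : 0 ≤ lb (hd ι) := le_trans (by norm_num) (lb_ge hv)
  have hV : 0 ≤ VV (hd ι) * (0.8 : ℝ) ^ hd ι :=
    mul_nonneg (by unfold VV; linarith) (Real.rpow_nonneg (by norm_num) _)
  rw [← ENNReal.ofReal_add hV hV]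
  refine ENNReal.ofReal_le_ofReal ?_
  have h1 : (0.8 : ℝ) ^ hd ι ≤ Real.exp (-0.2231 * hd ι) := by
    rw [Real.exp_mul]
    exact Real.rpow_le_rpow (by norm_num) main_exp (by linarith)
  have h2 : Mono.ev (hd ι) ⟨4, 1, 0, 0, 0, 0.2231⟩ =
      4 * lb (hd ι) * Real.exp (-0.2231 * hd ι) := by
    unfold Mono.ev
    simp only [zpow_one, pow_zero, mul_one, Rat.cast_zero, zero_mul, add_zero, zero_sub]
    norm_num
  have h3 := num_short hv
  have h4 : evL (hd ι) shortL = amp.ev (hd ι) * (4 * lb (hd ι) * Real.exp (-0.2231 * hd ι)) := by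
    unfold evL shortL
    simp only [List.map_cons, List.map_nil, List.sum_cons, List.sum_nil, add_zero]
    rw [Mono.ev_mul hv, h2]
  have h5 := one_le_amp hn
  have hD : 0 < DD ι := Real.exp_pos _
  have h6 : 0 ≤ 4 * lb (hd ι) * Real.exp (-0.2231 * hd ι) := by positivity
  calc VV (hd ι) * (0.8 : ℝ) ^ hd ι + VV (hd ι) * (0.8 : ℝ) ^ hd ι
      = 4 * lb (hd ι) * (0.8 : ℝ) ^ hd ι := by unfold VV; ring
    _ ≤ 4 * lb (hd ι) * Real.exp (-0.2231 * hd ι) :=
        mul_le_mul_of_nonneg_left h1 (by positivity)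
    _ ≤ amp.ev (hd ι) * DD ι * (4 * lb (hd ι) * Real.exp (-0.2231 * hd ι)) :=
        le_mul_of_one_le_left h6 h5
    _ = DD ι * evL (hd ι) shortL := by rw [h4]; ring
    _ ≤ DD ι * (0.001 * dec (hd ι)) := mul_le_mul_of_nonneg_left h3 hD.le

/-- the second moment for a test with its own envelope constant -/
theorem moment_env {h : ℝ → ℝ} {C : ℝ} (hp : Prof h)
    (hC : ∀ ρ, 0 ≤ h ρ ∧ h ρ ≤ C * Real.exp (-(Real.pi * ρ)))
    (hz : ∀ ρ, ρ < rr (hd ι) → h ρ = 0) (m : ℝ) :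
    ∫⁻ g, hole g * WW (rad h) m g ∂mu ι ≤ ENNReal.ofReal (DD ι *
      ((1 + 0.009 * dec (hd ι)) * (Nz (rad h : (ι → ℝ) → ℝ) + m ^ 2) +
        0.1 * dec (hd ι) * vp (hd ι) * C ^ 2)) := by
  have hC0 : 0 ≤ C := by
    have h1 := (hC 0).1.trans (hC 0).2
    exact nonneg_of_mul_nonneg_left h1 (Real.exp_pos _)
  have key : ∀ c, C < c → ∫⁻ g, hole g * WW (rad h) m g ∂mu ι ≤ ENNReal.ofReal (DD ι *
      ((1 + 0.009 * dec (hd ι)) * (Nz (rad h : (ι → ℝ) → ℝ) + m ^ 2) +
        0.1 * dec (hd ι) * vp (hd ι) * c ^ 2)) := by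
    intro c hc
    have hc0 : 0 < c := lt_of_le_of_lt hC0 hc
    have hT : Tst ι fun ρ => c⁻¹ * h ρ := by
      refine ⟨hp.const_mul _, fun ρ => mul_nonneg (inv_nonneg.2 hc0.le) (hC ρ).1,
        fun ρ _ => ?_, fun ρ hρ => by rw [hz ρ hρ, mul_zero]⟩
      rw [inv_mul_le_iff₀ hc0]
      exact (hC ρ).2.trans (mul_le_mul_of_nonneg_right hc.le (Real.exp_pos _).le)
    have e1 : (rad h : (ι → ℝ) → ℝ) = fun y => c * rad (fun ρ => c⁻¹ * h ρ) y := by
      funext y
      unfold rad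
      rw [mul_inv_cancel_left₀ hc0.ne']
    have e2 : m = c * (c⁻¹ * m) := by rw [mul_inv_cancel_left₀ hc0.ne']
    have h2 := moment_le hn hT (c⁻¹ * m)
    generalize (rad (fun ρ => c⁻¹ * h ρ) : (ι → ℝ) → ℝ) = f at e1 h2
    generalize c⁻¹ * m = m' at e2 h2
    rw [e1, e2, main_Nz_mul]
    simp only [main_WW_mul]
    have e3 : ∀ g : Matrix ι ι ℝ, hole g * (ENNReal.ofReal (c ^ 2) * WW f m' g) =
        ENNReal.ofReal (c ^ 2) * (hole g * WW f m' g) := fun g => mul_left_comm _ _ _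
    simp only [e3]
    rw [lintegral_const_mul' _ _ ENNReal.ofReal_ne_top]
    refine (mul_le_mul_right h2 _).trans ?_
    rw [← ENNReal.ofReal_mul (sq_nonneg c)]
    refine ENNReal.ofReal_le_ofReal (le_of_eq ?_)
    ring
  have hcont : Continuous fun c : ℝ => ENNReal.ofReal (DD ι *
      ((1 + 0.009 * dec (hd ι)) * (Nz (rad h : (ι → ℝ) → ℝ) + m ^ 2) +
        0.1 * dec (hd ι) * vp (hd ι) * c ^ 2)) :=
    ENNReal.continuous_ofReal.comp (by fun_prop)
  exact ge_of_tendsto ((hcont.tendsto C).mono_left (nhdsWithin_le_nhds (s := Set.Ioi C)))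
    (eventually_mem_nhdsWithin.mono fun c hc => key c hc)

theorem exists_good {R : Type} [MeasurableSpace R] (π : Measure R) [SFinite π] {β m C : R → ℝ}
    {h : R → ℝ → ℝ} (hβ : Measurable β) (hβ0 : ∀ x, 0 ≤ β x) (hm : Measurable m)
    (hCm : Measurable C) (hhm : Measurable (Function.uncurry h)) (hp : ∀ x, Prof (h x))
    (hC : ∀ x ρ, 0 ≤ h x ρ ∧ h x ρ ≤ C x * Real.exp (-(Real.pi * ρ)))
    (hz : ∀ x ρ, ρ < rr (hd ι) → h x ρ = 0) {T : ℝ}
    (H : ∫⁻ x, ENNReal.ofReal (2 * (β x * ((1 + 0.009 * dec (hd ι)) *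
        (Nz (rad (h x) : (ι → ℝ) → ℝ) + m x ^ 2) + 0.1 * dec (hd ι) * vp (hd ι) * C x ^ 2))) ∂π <
      ENNReal.ofReal ((1 - 0.0101 * dec (hd ι)) * T)) :
    ∃ g : Matrix ι ι ℝ, |g.det| = 1 ∧ (∀ k : ι → ℤ, k ≠ 0 → rr (hd ι) ≤ nsq (lv k g)) ∧
      (∀ k : ι → ℤ, k ≠ 0 → rr (hd ι) ≤ nsq (lv k (dual g))) ∧
      ∫⁻ x, ENNReal.ofReal
          (β x * (XX (rad (h x)) g - ctr (rad (h x) : (ι → ℝ) → ℝ) + m x) ^ 2) ∂π +
        ∫⁻ x, ENNReal.ofReal
          (β x * (XX (rad (h x)) (dual g) - ctr (rad (h x) : (ι → ℝ) → ℝ) + m x) ^ 2) ∂π <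
        ENNReal.ofReal T := by
  by_contra hne
  have hv := hd_ge hn
  have hd1 := main_dec hv
  have hd0 : 0 < dec (hd ι) := Real.exp_pos _
  have hD : 0 < DD ι := Real.exp_pos _
  have hT : 0 < T := by
    have h1 : 0 < (1 - 0.0101 * dec (hd ι)) * T := ENNReal.ofReal_pos.1 (lt_of_le_of_lt zero_le H)
    exact (pos_iff_pos_of_mul_pos h1).1 (by linarith)
  have hdev := main_meas_dev (ι := ι) hβ hm hhm
  obtain ⟨Q, hQ⟩ : ∃ Q : Matrix ι ι ℝ → ℝ≥0∞, Q = fun g => ∫⁻ x, ENNReal.ofReal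
      (β x * (XX (rad (h x)) g - ctr (rad (h x) : (ι → ℝ) → ℝ) + m x) ^ 2) ∂π := ⟨_, rfl⟩
  have hQm : Measurable Q := by
    rw [hQ]
    exact hdev.lintegral_prod_right'
  have hQi : LInv Q := by
    intro γ g
    rw [hQ]
    simp only [linv_XX _ γ g]
  obtain ⟨S, hS⟩ : ∃ S : Matrix ι ι ℝ → ℝ≥0∞, S = fun g =>
      ind (∃ k : ι → ℤ, k ≠ 0 ∧ nsq (lv k g) < 0.8 * rr (hd ι)) +
        ind (∃ k : ι → ℤ, k ≠ 0 ∧ nsq (lv k (dual g)) < 0.8 * rr (hd ι)) := ⟨_, rfl⟩
  have hSle : ∫⁻ g, S g ∂mu ι ≤ ENNReal.ofReal (DD ι * (0.001 * dec (hd ι))) := by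
    rw [hS]
    exact short_le hn
  have hh : Measurable fun g : Matrix ι ι ℝ => hole g * hole (dual g) :=
    measurable_hole.mul (measurable_hole.comp measurable_dual)
  have hle1 : ∀ g : Matrix ι ι ℝ, hole g * hole (dual g) ≤ 1 := fun g =>
    mul_le_one' (ind_le_one _) (ind_le_one _)
  have hpt : ∀ᵐ g ∂mu ι, ENNReal.ofReal T * (hole g * hole (dual g)) ≤
      (hole g * hole (dual g) * Q g + hole g * hole (dual g) * Q (dual g)) +
        ENNReal.ofReal T * S g := by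
    refine ae_mu_det.mono fun g hg => ?_
    by_cases h1 : ∃ k : ι → ℤ, k ≠ 0 ∧ nsq (lv k g) < 0.8 * rr (hd ι)
    · refine le_add_left (mul_le_mul_right ((hle1 g).trans ?_) _)
      rw [hS]
      simp only [ind_pos h1]
      exact le_self_add
    by_cases h2 : ∃ k : ι → ℤ, k ≠ 0 ∧ nsq (lv k (dual g)) < 0.8 * rr (hd ι)
    · refine le_add_left (mul_le_mul_right ((hle1 g).trans ?_) _)
      rw [hS]
      simp only [ind_pos h2]
      exact le_add_self
    by_cases h3 : hole g = 0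
    · rw [h3, zero_mul, mul_zero]
      exact zero_le
    by_cases h4 : hole (dual g) = 0
    · rw [h4, mul_zero, mul_zero]
      exact zero_le
    refine le_add_right ?_
    rw [← mul_add, mul_comm]
    refine mul_le_mul_right ?_ _
    by_contra h5
    refine hne ⟨g, hg, main_far h3 h1, main_far h4 h2, ?_⟩
    rw [hQ] at h5
    exact not_le.1 h5
  have hint := lintegral_mono_ae hpt
  have hm1 : Measurable fun g : Matrix ι ι ℝ => hole g * hole (dual g) * Q g := hh.mul hQm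
  have hm2 : Measurable fun g : Matrix ι ι ℝ =>
      hole g * hole (dual g) * Q g + hole g * hole (dual g) * Q (dual g) :=
    hm1.add (hh.mul (hQm.comp measurable_dual))
  rw [lintegral_const_mul' _ _ ENNReal.ofReal_ne_top, lintegral_add_left hm2,
    lintegral_add_left hm1, main_swap hQm hQi,
    lintegral_const_mul' _ _ ENNReal.ofReal_ne_top] at hint
  obtain ⟨E, hE⟩ : ∃ E : R → ℝ, E = fun x => (1 + 0.009 * dec (hd ι)) *
      (Nz (rad (h x) : (ι → ℝ) → ℝ) + m x ^ 2) + 0.1 * dec (hd ι) * vp (hd ι) * C x ^ 2 :=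
    ⟨_, rfl⟩
  have H' : ∫⁻ x, ENNReal.ofReal (2 * (β x * E x)) ∂π <
      ENNReal.ofReal ((1 - 0.0101 * dec (hd ι)) * T) := by
    rw [hE]
    exact H
  have hmom : ∫⁻ g, hole g * hole (dual g) * Q (dual g) ∂mu ι ≤
      ∫⁻ x, ENNReal.ofReal (DD ι * (β x * E x)) ∂π := by
    have e1 : ∀ g : Matrix ι ι ℝ, hole g * hole (dual g) * Q (dual g) =
        ∫⁻ x, hole g * hole (dual g) * ENNReal.ofReal (β x * (XX (rad (h x)) (dual g) -
          ctr (rad (h x) : (ι → ℝ) → ℝ) + m x) ^ 2) ∂π := by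
      intro g
      rw [lintegral_const_mul' _ _ (ne_top_of_le_ne_top ENNReal.one_ne_top (hle1 g)), hQ]
    simp only [e1]
    have hj : Measurable fun p : Matrix ι ι ℝ × R => hole p.1 * hole (dual p.1) *
        ENNReal.ofReal (β p.2 * (XX (rad (h p.2)) (dual p.1) -
          ctr (rad (h p.2) : (ι → ℝ) → ℝ) + m p.2) ^ 2) :=
      (hh.comp measurable_fst).mul
        (hdev.comp ((measurable_dual.comp measurable_fst).prodMk measurable_snd))
    rw [lintegral_lintegral_swap hj.aemeasurable]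
    refine lintegral_mono fun x => ?_
    have e2 : ∀ g : Matrix ι ι ℝ, hole g * hole (dual g) * ENNReal.ofReal (β x *
        (XX (rad (h x)) (dual g) - ctr (rad (h x) : (ι → ℝ) → ℝ) + m x) ^ 2) =
        ENNReal.ofReal (β x) * (hole g * WW (rad (h x)) (m x) g) := by
      intro g
      unfold WW YY
      rw [ENNReal.ofReal_mul (hβ0 x), ← sub_add]
      ring
    simp only [e2]
    rw [lintegral_const_mul' _ _ ENNReal.ofReal_ne_top]
    refine (mul_le_mul_right (moment_env hn (hp x) (hC x) (hz x) (m x)) _).trans ?_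
    rw [← ENNReal.ofReal_mul (hβ0 x), hE]
    refine ENNReal.ofReal_le_ofReal (le_of_eq ?_)
    ring
  have htwo : ∫⁻ x, ENNReal.ofReal (DD ι * (β x * E x)) ∂π +
      ∫⁻ x, ENNReal.ofReal (DD ι * (β x * E x)) ∂π <
      ENNReal.ofReal (DD ι * ((1 - 0.0101 * dec (hd ι)) * T)) := by
    have e1 : ∀ x, (2 : ℝ≥0∞) * ENNReal.ofReal (DD ι * (β x * E x)) =
        ENNReal.ofReal (DD ι) * ENNReal.ofReal (2 * (β x * E x)) := by
      intro x
      rw [← ENNReal.ofReal_mul hD.le, ← ENNReal.ofReal_ofNat 2,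
        ← ENNReal.ofReal_mul (by norm_num : (0 : ℝ) ≤ 2)]
      congr 1
      ring
    rw [← two_mul, ← lintegral_const_mul' _ _ (by norm_num : (2 : ℝ≥0∞) ≠ ∞)]
    simp only [e1]
    rw [lintegral_const_mul' _ _ ENNReal.ofReal_ne_top, ENNReal.ofReal_mul hD.le]
    exact ENNReal.mul_lt_mul_right (ENNReal.ofReal_pos.2 hD).ne' ENNReal.ofReal_ne_top H'
  have hfin : ENNReal.ofReal T * ENNReal.ofReal (DD ι * (1 - 0.0091 * dec (hd ι))) <
      ENNReal.ofReal (DD ι * ((1 - 0.0101 * dec (hd ι)) * T)) +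
        ENNReal.ofReal T * ENNReal.ofReal (DD ι * (0.001 * dec (hd ι))) := by
    refine lt_of_le_of_lt ((mul_le_mul_right (mass_ge hn) _).trans (hint.trans
      (add_le_add (add_le_add hmom hmom) (mul_le_mul_right hSle _)))) ?_
    exact ENNReal.add_lt_add_right (ENNReal.mul_ne_top ENNReal.ofReal_ne_top
      ENNReal.ofReal_ne_top) htwo
  have hp1 : 0 ≤ DD ι * ((1 - 0.0101 * dec (hd ι)) * T) :=
    mul_nonneg hD.le (mul_nonneg (by linarith) hT.le)
  have hp2 : 0 ≤ T * (DD ι * (0.001 * dec (hd ι))) := by positivity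
  rw [← ENNReal.ofReal_mul hT.le, ← ENNReal.ofReal_mul hT.le, ← ENNReal.ofReal_add hp1 hp2] at hfin
  refine absurd hfin (not_lt.2 (ENNReal.ofReal_le_ofReal (le_of_eq ?_)))
  ring

end Pool.Agent.Eps.P
end
end

-- part Pool.Agent.Lib.MP_3bda03_nt.P.Final
section

/-!
The sieve in the form used by the test family.
-/

set_option autoImplicit false

noncomputable section

open MeasureTheory Matrix
open scoped ENNReal

namespace Pool.Agent.Eps.P

open Pool.Agent.Eps.H

theorem sieve {n : ℕ} (hn : 97 ≤ n) : Pool.Agent.Eps.T.Sieve n := by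
  intro r hr hV
  have hc : 97 ≤ Fintype.card (Fin n) := by rwa [Fintype.card_fin]
  have hv : hd (Fin n) = (n : ℝ) / 2 := by rw [hd, Fintype.card_fin]
  have hv1 : 97 / 2 ≤ hd (Fin n) := hd_ge hc
  rw [← hv] at hV ⊢
  have hv0 : 0 < hd (Fin n) := by linarith
  have hrr : r = rr (hd (Fin n)) := by
    have h1 := rr_pow hv1
    have h2 : (Real.pi * r) ^ hd (Fin n) / Real.Gamma (hd (Fin n) + 1) = VV (hd (Fin n)) := hV
    have h3 := Real.Gamma_pos_of_pos (show 0 < hd (Fin n) + 1 by linarith)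
    rw [← h1, div_left_inj' h3.ne'] at h2
    have h4 := (Real.rpow_left_inj (mul_pos Real.pi_pos hr).le
      (mul_pos Real.pi_pos (rr_pos hv1)).le hv0.ne').1 h2
    exact mul_left_cancel₀ Real.pi_ne_zero h4
  subst hrr
  have hvp : T.varpi (hd (Fin n)) (rr (hd (Fin n))) = vp (hd (Fin n)) := rfl
  have hdec : T.dec (hd (Fin n)) = dec (hd (Fin n)) := rfl
  rw [hvp, hdec]
  have hd0 : 0 < dec (hd (Fin n)) := Real.exp_pos _
  have hd1 : dec (hd (Fin n)) ≤ 1 := Real.exp_le_one_iff.2 (by linarith)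
  have hvp0 := vp_pos hv1
  have hA : T.ann (Fin n) (rr (hd (Fin n))) = AA (Fin n) := by
    ext y
    simp only [T.ann, AA, Set.mem_ofPred_eq]
    norm_num
  have hwm : Measurable (wA : (Fin n → ℝ) → ℝ) :=
    (measurable_ftr (measurable_one.indicator measurableSet_AA)).neg.exp
  refine ⟨fun y => min (wA y) (51 / 50), hwm.min measurable_const,
    fun y => ⟨le_min (Real.exp_pos _).le (by norm_num), min_le_right _ _⟩, ?_⟩
  intro π _ β m C h Λ hβ hm hCm hhm hβ0 hp hC hz H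
  have hctr : ∀ φ : ℝ → ℝ, T.ctr (rr (hd (Fin n))) (fun y : Fin n → ℝ => min (wA y) (51 / 50)) φ =
      ctr (rad φ : (Fin n → ℝ) → ℝ) := by
    intro φ
    rw [T.ctr, hA, ctr, PP]
    congr 1
    refine setIntegral_congr_fun measurableSet_AA fun y hy => ?_
    have h1 := (wA_bounds hc hy).2.2
    show min (wA y) (51 / 50) * _ = wA y * _
    rw [min_eq_left (by linarith)]
    rfl
  set d := dec (hd (Fin n)) with hdd
  have hq : 0 < 1 - 1 / 250 * d := by linarith
  have hq' : 0 < 1 - 0.0101 * d := by linarith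
  have H' : ∫⁻ x, ENNReal.ofReal (2 * (β x * ((1 + 0.009 * d) *
      (Nz (rad (h x) : (Fin n → ℝ) → ℝ) + m x ^ 2) + 0.1 * d * vp (hd (Fin n)) * C x ^ 2))) ∂π <
      ENNReal.ofReal ((1 - 0.0101 * d) * Λ) := by
    have e1 : ENNReal.ofReal ((1 - 0.0101 * d) * Λ) =
        ENNReal.ofReal ((1 - 0.0101 * d) / (1 - 1 / 250 * d)) *
          ENNReal.ofReal ((1 - 1 / 250 * d) * Λ) := by
      rw [← ENNReal.ofReal_mul (div_pos hq' hq).le]
      rw [← mul_assoc, div_mul_cancel₀ _ hq.ne']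
    rw [e1]
    refine lt_of_le_of_lt ?_ (ENNReal.mul_lt_mul_right
      (ENNReal.ofReal_pos.2 (div_pos hq' hq)).ne' ENNReal.ofReal_ne_top H)
    rw [← lintegral_const_mul' _ _ ENNReal.ofReal_ne_top]
    refine lintegral_mono fun x => ?_
    rw [← ENNReal.ofReal_mul (div_pos hq' hq).le]
    refine ENNReal.ofReal_le_ofReal ?_
    have hN : T.Nn (Fin n) (h x) = Nz (rad (h x) : (Fin n → ℝ) → ℝ) := rfl
    rw [hN, div_mul_eq_mul_div, le_div_iff₀ hq]
    have hN0 : 0 ≤ Nz (rad (h x) : (Fin n → ℝ) → ℝ) + m x ^ 2 :=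
      add_nonneg (mul_nonneg zero_le_two (integral_nonneg fun y => sq_nonneg _)) (sq_nonneg _)
    have hW : 0 ≤ d * vp (hd (Fin n)) * C x ^ 2 := by positivity
    have k1 : (1 + 0.009 * d) * (1 - 1 / 250 * d) ≤ (1 - 0.0101 * d) * (1 + 1 / 50 * d) := by
      nlinarith
    have k2 : 0.1 * (1 - 1 / 250 * d) ≤ (1 - 0.0101 * d) * (3 / 25) := by linarith
    have k3 := mul_le_mul_of_nonneg_right k1 hN0
    have k4 := mul_le_mul_of_nonneg_right k2 hW
    have k5 := mul_le_mul_of_nonneg_left (add_le_add k3 k4) (mul_nonneg zero_le_two (hβ0 x))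
    refine le_trans (le_of_eq ?_) (k5.trans (le_of_eq ?_)) <;> ring
  obtain ⟨g, hg, h1, h2, h3⟩ := exists_good hc π hβ hβ0 hm hCm hhm hp
    (fun x ρ => by simpa only [neg_mul] using hC x ρ) hz H'
  refine ⟨g, hg, fun k hk => ⟨h1 k hk, h2 k hk⟩, ?_⟩
  simp only [T.Qf, hctr]
  exact h3.le

end Pool.Agent.Eps.P
end
end
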