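import Pool.Agent.Lib.MP_3bda03_nt.P.Level3C

/-!
The error of the dual sieve, one size at a time.
-/

set_option autoImplicit false

noncomputable section

open MeasureTheory Matrix
open scoped ENNReal

namespace Pool.Agent.Eps.P

open Pool.Agent.Eps.H

variable {ι : Type} [Fintype ι] [DecidableEq ι] {φ : ℝ → ℝ}

variable (hn : 97 ≤ Fintype.card ι) (hφ : Tst ι φ)
include hn hφ

/-- the frames that carry the error, after dropping the hole -/
theorem level3a_bad (m : ℝ) {b : ℕ} (hb : b ≤ KK ι) :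
    TT (mu ι) (fun g => g) (WW (rad φ) m) (badF (fun _ U => nice U) (KK ι) b) ≤
      ENNReal.ofReal (VV (hd ι) ^ b * (evD (hd ι) b BAD * Yb (hd ι) m b)) +
      ENNReal.ofReal 7.67 * ENNReal.ofReal (VV (hd ι) ^ b * (evD (hd ι) b S2L * vp (hd ι))) +
      ENNReal.ofReal (1.0001 * Nz (rad φ : (ι → ℝ) → ℝ)) *
        (ENNReal.ofReal ((1 + 0.038 / lb (hd ι)) ^ b) *
          ENNReal.ofReal (VV (hd ι) ^ b * evD (hd ι) b BAD) +
        ENNReal.ofReal (VV (hd ι) ^ b * evD (hd ι) b XGL)) := by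
  have hK : KK ι < Fintype.card ι := Nat.div_lt_self (by omega) (by norm_num)
  obtain ⟨e⟩ := exists_split (hb.trans hK.le)
  haveI : Nonempty (Fin (Fintype.card ι - b)) := ⟨⟨0, by omega⟩⟩
  have hb' : Fintype.card (Fin b) ≤ KK ι := by rwa [Fintype.card_fin]
  have hh := hφ.hf hn
  have hB : Measurable fun U : Matrix (Fin b) ι ℝ =>
      ind (Fintype.card (Fin b) = KK ι ∨ rel U ∨ ¬ nice U) := measurable_ind
    ((MeasurableSet.const _).union (measurableSet_rel.union ((her_nice hn).meas b).compl))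
  have h1 := joint_s1 hn (joint_bad hn hb') hB hh m
  have h2 := S2a_sq_le hn hh hb'
  have h3 := (joint_bad hn hb').2.1
  have h4 := (joint_XG hn hb').2.1
  have hs : Measurable fun U : Matrix (Fin b) ι ℝ =>
      ENNReal.ofReal (1.15 * s1 (rad φ) m U ^ 2) :=
    (((measurable_s1 hn hh m).pow_const 2).const_mul _).ennreal_ofReal
  have hS : Measurable fun U : Matrix (Fin b) ι ℝ => IA U * S2a (rad φ) U ^ 2 :=
    measurable_IA.mul ((measurable_S2a hn hh).pow_const 2)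
  have hX : Measurable fun U : Matrix (Fin b) ι ℝ => IA U * XG U :=
    measurable_IA.mul (measurable_XG hn)
  have hI : Measurable fun U : Matrix (Fin b) ι ℝ =>
      IA U * ind (Fintype.card (Fin b) = KK ι ∨ rel U ∨ ¬ nice U) := measurable_IA.mul hB
  refine (TT_mono (W' := fun g => YY (rad φ) (ctr (rad φ : (ι → ℝ) → ℝ) - m) (dual g))
    (fun _ => le_rfl) (Filter.Eventually.of_forall fun g =>
      mul_le_of_le_one_left' (ind_le_one _))).trans ?_
  rw [frame_cond e (measurable_badF (her_nice hn) _ _) (measurable_YY hh.meas hh.nonneg _)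
    (linv_YY _ _)]
  refine (mul_le_of_le_one_left' (cc_le_one e)).trans ?_
  refine (lintegral_mono_ae (g := fun X : Matrix (Fin b) ι ℝ =>
    IA X * ind (Fintype.card (Fin b) = KK ι ∨ rel X ∨ ¬ nice X) *
        ENNReal.ofReal (1.15 * s1 (rad φ) m X ^ 2) +
      ENNReal.ofReal 7.67 * (IA X * S2a (rad φ) X ^ 2) +
      ENNReal.ofReal (1.0001 * Nz (rad φ : (ι → ℝ) → ℝ)) *
        (ENNReal.ofReal ((1 + 0.038 / lb (hd ι)) ^ b) *
          (IA X * ind (Fintype.card (Fin b) = KK ι ∨ rel X ∨ ¬ nice X)) + IA X * XG X)) ?_).trans ?_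
  · filter_upwards [ae_blk e] with X hX
    by_cases hA : ∀ i, X i ∈ AA ι
    · have h5 := pt_bad e hn hb' hX hA hφ m
      simp only [badF, IA_eq_one hA, one_mul, Fintype.card_fin] at h5 ⊢
      refine (mul_le_mul_right h5 _).trans ?_
      have h6 := ind_le_one (b = KK ι ∨ rel X ∨ ¬ nice X)
      generalize ind (b = KK ι ∨ rel X ∨ ¬ nice X) = x at h6
      rw [mul_add, mul_add, mul_left_comm x (ENNReal.ofReal (1.0001 * _)), mul_add x,
        mul_comm x (ENNReal.ofReal (_ ^ b))]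
      exact add_le_add (add_le_add le_rfl (mul_le_of_le_one_left' h6))
        (mul_le_mul_right (add_le_add le_rfl (mul_le_of_le_one_left' h6)) _)
    · simp only [badF, IA_eq_zero hA, zero_mul]
      exact zero_le
  · rw [lintegral_add_left ((hI.fun_mul hs).fun_add (hS.const_mul _)),
      lintegral_add_left (hI.fun_mul hs), lintegral_const_mul _ hS,
      lintegral_const_mul _ ((hI.const_mul _).fun_add hX),
      lintegral_add_left (hI.const_mul _), lintegral_const_mul _ hI]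
    rw [Fintype.card_fin] at h2 h4
    exact add_le_add (add_le_add (h1.trans (by rw [Fintype.card_fin])) (mul_le_mul_right h2 _))
      (mul_le_mul_right (add_le_add (mul_le_mul_right (h3.trans (by rw [Fintype.card_fin])) _)
        h4) _)

theorem dual_bad (m : ℝ) {b : ℕ} (hb : b ≤ KK ι) :
    TT (mu ι) (fun g => g) (WW (rad φ) m) (badF (fun _ U => nice U) (KK ι) b) +
      TI (mu ι) (fun g => g) (WW (rad φ) m) (Fin b) ≤ ENNReal.ofReal (VV (hd ι) ^ b *
      (evD (hd ι) b ZY * Yb (hd ι) m b + evD (hd ι) b ZN * Nz (rad φ : (ι → ℝ) → ℝ) +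
        evD (hd ι) b ZP * vp (hd ι))) := by
  have hv := hd_ge hn
  have hl := lb_ge hv
  have hV : 0 < VV (hd ι) := by unfold VV; linarith
  have hVb := (pow_pos hV b).le
  have hp := (vp_pos hv).le
  have hY : 0 ≤ Yb (hd ι) m b := by unfold Yb; positivity
  have hN : 0 ≤ Nz (rad φ : (ι → ℝ) → ℝ) :=
    mul_nonneg zero_le_two (integral_nonneg fun _ => sq_nonneg _)
  have hT : 0 ≤ (1 + 0.038 / lb (hd ι)) ^ b := by
    have : 0 < lb (hd ι) := by linarith
    positivity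
  have e0 := fun L => evD_nonneg hv b L
  have c1 : ∀ t ∈ BAD, t.c = 0 := by decide +kernel
  have c2 : ∀ t ∈ XGL, t.c = 0 := by decide +kernel
  have c3 : ∀ t ∈ S2L, t.c = 0 := by decide +kernel
  refine (add_le_add (level3a_bad hn hφ m hb) (dual_TI hn hφ m hb)).trans (le_of_eq ?_)
  rw [ZY, ZN, ZP, evD_append, evD_append, evD_append, evD_scD hv b _ _ c1, evD_scD hv b _ _ c1,
    evD_scD hv b _ _ c2, evD_scD hv b _ _ c3, ev_cM, ev_cM, ev_cM]
  have a1 := e0 BAD
  have a2 := e0 XGL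
  have a3 := e0 S2L
  have a4 := e0 [⟨⟨4700, 1, 0, 0, 0, 1.1157⟩, 0, 2, 0⟩]
  have a5 := e0 [⟨mIv.mul ⟨10400, 1, 0, 0, 0, 1.155⟩, 0, 2, 0⟩,
    ⟨⟨28200, 1, 0, 0, 0, 0.746⟩, 0, 6, 0⟩]
  generalize evD (hd ι) b BAD = x1 at a1 ⊢
  generalize evD (hd ι) b XGL = x2 at a2 ⊢
  generalize evD (hd ι) b S2L = x3 at a3 ⊢
  generalize evD (hd ι) b [⟨⟨4700, 1, 0, 0, 0, 1.1157⟩, 0, 2, 0⟩] = x4 at a4 ⊢
  generalize evD (hd ι) b [⟨mIv.mul ⟨10400, 1, 0, 0, 0, 1.155⟩, 0, 2, 0⟩,
    ⟨⟨28200, 1, 0, 0, 0, 0.746⟩, 0, 6, 0⟩] = x5 at a5 ⊢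
  rw [← ENNReal.ofReal_mul hT, ← ENNReal.ofReal_mul (by norm_num),
    ← ENNReal.ofReal_add (by positivity) (by positivity),
    ← ENNReal.ofReal_add (by positivity) (by positivity), ← ENNReal.ofReal_mul (by positivity),
    ← ENNReal.ofReal_add (by positivity) (by positivity),
    ← ENNReal.ofReal_add (by positivity) (by positivity)]
  congr 1
  have n1 : ((|(1 : ℚ)| : ℚ) : ℝ) = 1 := by norm_num
  have n2 : ((|(0 : ℚ)| : ℚ) : ℝ) = 0 := by norm_num
  have n3 : ((|(1.0001 : ℚ)| : ℚ) : ℝ) = 1.0001 := by norm_num [abs_of_pos]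
  have n4 : ((|(0.038 : ℚ)| : ℚ) : ℝ) = 0.038 := by norm_num [abs_of_pos]
  have n5 : ((|(7.67 : ℚ)| : ℚ) : ℝ) = 7.67 := by norm_num [abs_of_pos]
  rw [n1, n2, n3, n4, n5, zero_div, add_zero, one_pow]
  ring

end Pool.Agent.Eps.P
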