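import Pool.Agent.Lib.MP_3bda03_nt.P.Chk

/-!
Kernel evaluation of the checker, second part.
-/

set_option autoImplicit false

namespace Pool.Agent.Eps.P

set_option maxRecDepth 100000 in
theorem chk_eps : chk epsL (2 ^ 50 / 10) = true := by decide +kernel

end Pool.Agent.Eps.P
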