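import Pool.Agent.Lib.MP_3bda03_nt.P.NumA
import Pool.Agent.Lib.MP_3bda03_nt.P.NumB

/-!
The numerical values of the error terms.
-/

set_option autoImplicit false

noncomputable section

open MeasureTheory Matrix
open scoped ENNReal

namespace Pool.Agent.Eps.P

open Pool.Agent.Eps.H

variable {v : ℝ} (hv : 97 / 2 ≤ v)
include hv

theorem num_eta : evL v etaL ≤ 0.009 * dec v := by
  refine (chk_sound chk_eta hv).trans (mul_le_mul_of_nonneg_right ?_ (Real.exp_pos _).le)
  norm_num

theorem num_etaN : evL v etaNL ≤ 0.009 * dec v := by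
  refine (chk_sound chk_etaN hv).trans (mul_le_mul_of_nonneg_right ?_ (Real.exp_pos _).le)
  norm_num

theorem num_eps : evL v epsL ≤ 0.1 * dec v := by
  refine (chk_sound chk_eps hv).trans (mul_le_mul_of_nonneg_right ?_ (Real.exp_pos _).le)
  norm_num

theorem num_short : evL v shortL ≤ 0.001 * dec v := by
  refine (chk_sound chk_short hv).trans (mul_le_mul_of_nonneg_right ?_ (Real.exp_pos _).le)
  norm_num

theorem num_L1u : evL v L1u ≤ 0.001 := by
  have h1 : dec v ≤ 1 := Real.exp_le_one_iff.2 (by linarith)
  refine (chk_sound chk_L1u hv).trans ((mul_le_mul_of_nonneg_left h1 (by positivity)).trans ?_)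
  norm_num

end Pool.Agent.Eps.P
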