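import Pool.Agent.Lib.MP_3bda03_nt.P.Mom1
import Pool.Agent.Lib.MP_3bda03_nt.P.RLp
import Pool.Agent.Lib.MP_3bda03_nt.P.Mom
import Pool.Agent.Lib.MP_3bda03_nt.P.Count
import Pool.Agent.Lib.MP_3bda03_nt.P.Theta
import Pool.Agent.Lib.MP_3bda03_nt.P.EnvBx

-- part Pool.Agent.Lib.MP_3bda03_nt.P.Sieve1x
section

/-!
Counting lemmas for the sieve inequality.
-/

set_option autoImplicit false

noncomputable section

open MeasureTheory Matrix
open scoped ENNReal

namespace Pool.Agent.Eps.P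

open Pool.Agent.Eps.H

variable {ι : Type} [Fintype ι] [DecidableEq ι]

/-- insertion of a row -/
def s1ins {a : ℕ} (i : Fin (a + 1)) (x : ι → ℤ) (Y : Matrix (Fin a) ι ℤ) :
    Matrix (Fin (a + 1)) ι ℤ :=
  Matrix.of (Fin.insertNth (α := fun _ => ι → ℤ) i x fun j => Y j)

omit [Fintype ι] [DecidableEq ι] in
theorem s1ins_same {a : ℕ} (i : Fin (a + 1)) (x : ι → ℤ) (Y : Matrix (Fin a) ι ℤ) :
    s1ins i x Y i = x :=
  Fin.insertNth_apply_same (α := fun _ => ι → ℤ) i x fun j => Y j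

omit [Fintype ι] [DecidableEq ι] in
theorem s1ins_succ {a : ℕ} (i : Fin (a + 1)) (x : ι → ℤ) (Y : Matrix (Fin a) ι ℤ) (j : Fin a) :
    s1ins i x Y (i.succAbove j) = Y j :=
  Fin.insertNth_apply_succAbove (α := fun _ => ι → ℤ) i x (fun j => Y j) j

theorem s1_unit_sq (ε : ℤˣ) : (ε : ℤ) * (ε : ℤ) = 1 := by
  rcases Int.units_eq_one_or ε with rfl | rfl <;> simp

omit [DecidableEq ι] in
theorem s1_mem_smul {g : Matrix ι ι ℝ} {k : ι → ℤ} (ε : ℤˣ) (h : lv k g ∈ AA ι) :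
    lv ((ε : ℤ) • k) g ∈ AA ι := by
  rcases Int.units_eq_one_or ε with rfl | rfl
  · simpa using h
  · have : (((-1 : ℤˣ) : ℤ)) • k = -k := by simp
    rw [this, lv_neg]
    exact neg_mem_AA.2 h

theorem s1_prim_sub {a b : ℕ} {Z : Matrix (Fin a) ι ℤ} {Z' : Matrix (Fin b) ι ℤ}
    {f : Fin b → Fin a} (hf : Function.Injective f) (ε : Fin b → ℤˣ)
    (h : ∀ j, Z' j = (ε j : ℤ) • Z (f j)) (hZ : Prim Z) : Prim Z' := by
  obtain ⟨Q, hQ⟩ := hZ.submatrix hf
  refine ⟨Matrix.of fun i j => Q i j * (ε j : ℤ), ?_⟩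
  ext x y
  have h1 := congrFun (congrFun hQ x) y
  rw [Matrix.mul_apply] at h1 ⊢
  have h2 : ∑ j, Z' x j * (Matrix.of fun i j => Q i j * (ε j : ℤ)) j y =
      (ε x : ℤ) * (ε y : ℤ) * ∑ j, (Z.submatrix f id) x j * Q j y := by
    rw [Finset.mul_sum]
    refine Finset.sum_congr rfl fun j _ => ?_
    rw [h x]
    simp only [Matrix.of_apply, Pi.smul_apply, smul_eq_mul, Matrix.submatrix_apply, id]
    ring
  rw [h2, h1, Matrix.one_apply]
  split_ifs with h3
  · rw [h3, s1_unit_sq, mul_one]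
  · rw [mul_zero]

omit [DecidableEq ι] in
theorem s1_ok_sub {ok : ∀ a : ℕ, Matrix (Fin a) ι ℝ → Prop} (hok : Her ok) (g : Matrix ι ι ℝ)
    {a b : ℕ} {Z : Matrix (Fin a) ι ℤ} {Z' : Matrix (Fin b) ι ℤ}
    {f : Fin b → Fin a} (hf : Function.Injective f) (ε : Fin b → ℤˣ)
    (h : ∀ j, Z' j = (ε j : ℤ) • Z (f j)) (hZ : ok a (cz Z * g)) : ok b (cz Z' * g) := by
  have h1 := hok.sub a b f ε _ hf hZ
  have h2 : cz Z' * g = Matrix.of fun i => (((ε i : ℤˣ) : ℤ) : ℝ) • (cz Z * g) (f i) := by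
    funext i
    rw [cz_mul_row, h i, lv_smul, ← cz_mul_row]
    rfl
  rw [h2]
  exact h1

omit [Fintype ι] [DecidableEq ι] in
theorem s1_move {a : ℕ} (i i' : Fin (a + 1)) (ε ε' : ℤˣ) (p : ι → ℤ) (Y : Matrix (Fin a) ι ℤ) :
    ∃ (f : Fin (a + 1) → Fin (a + 1)) (η : Fin (a + 1) → ℤˣ), Function.Injective f ∧
      ∀ j, s1ins i ((ε : ℤ) • p) Y j = (η j : ℤ) • s1ins i' ((ε' : ℤ) • p) Y (f j) := by
  refine ⟨Fin.insertNth (α := fun _ => Fin (a + 1)) i i' i'.succAbove,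
    Fin.insertNth (α := fun _ => ℤˣ) i (ε * ε') fun _ => 1, ?_, ?_⟩
  · intro x y hxy
    rcases Fin.eq_self_or_eq_succAbove i y with hy | ⟨y, hy⟩ <;>
      rcases Fin.eq_self_or_eq_succAbove i x with hx | ⟨x, hx⟩
    · rw [hx, hy]
    · rw [hx, hy, Fin.insertNth_apply_same, Fin.insertNth_apply_succAbove] at hxy
      exact absurd hxy (Fin.succAbove_ne _ _)
    · rw [hx, hy, Fin.insertNth_apply_same, Fin.insertNth_apply_succAbove] at hxy
      exact absurd hxy.symm (Fin.succAbove_ne _ _)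
    · rw [hx, hy, Fin.insertNth_apply_succAbove, Fin.insertNth_apply_succAbove] at hxy
      rw [hx, hy, Fin.succAbove_right_injective hxy]
  · intro j
    rcases Fin.eq_self_or_eq_succAbove i j with rfl | ⟨j, rfl⟩
    · rw [Fin.insertNth_apply_same, Fin.insertNth_apply_same, s1ins_same, s1ins_same, smul_smul,
        Units.val_mul, mul_assoc, s1_unit_sq, mul_one]
    · rw [Fin.insertNth_apply_succAbove, Fin.insertNth_apply_succAbove, s1ins_succ, s1ins_succ]
      simp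

omit [DecidableEq ι] in
theorem s1_norow {a : ℕ} {p : ι → ℤ} {Y : Matrix (Fin a) ι ℤ} (h : Prim (s1ins 0 p Y))
    (j : Fin a) (ε : ℤˣ) : Y j ≠ (ε : ℤ) • p := by
  intro e
  obtain ⟨Q, hQ⟩ := h
  have h0 := congrFun (congrFun hQ 0) 0
  have h1 := congrFun (congrFun hQ ((0 : Fin (a + 1)).succAbove j)) 0
  rw [Matrix.mul_apply, s1ins_same, Matrix.one_apply_eq] at h0
  rw [Matrix.mul_apply, s1ins_succ, Matrix.one_apply_ne (Fin.succAbove_ne _ _), e] at h1
  have h2 : ∑ k, ((ε : ℤ) • p) k * Q k 0 = (ε : ℤ) * ∑ k, p k * Q k 0 := by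
    rw [Finset.mul_sum]
    refine Finset.sum_congr rfl fun k _ => ?_
    simp only [Pi.smul_apply, smul_eq_mul]
    ring
  rw [h2, h0, mul_one] at h1
  exact ε.ne_zero h1

open Classical in
theorem s1_count {g : Matrix ι ι ℝ} {T : ∀ a : ℕ, Finset (Matrix (Fin a) ι ℤ)}
    (hT : ∀ a Y, Y ∈ T a ↔ Prim Y ∧ ∀ i, lv (Y i) g ∈ AA ι) {p : ι → ℤ} (hp : p ≠ 0) (a : ℕ)
    (P : Matrix (Fin (a + 1)) ι ℤ → Prop)
    (hP : ∀ (i : Fin (a + 1)) (ε : ℤˣ) Y, P (s1ins i ((ε : ℤ) • p) Y) ↔ P (s1ins 0 p Y)) :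
    ((T (a + 1)).filter fun Z => P Z ∧ ¬ ∀ (i : Fin (a + 1)) (ε : ℤˣ), Z i ≠ (ε : ℤ) • p).card =
      2 * (a + 1) *
        ((T a).filter fun Y => s1ins 0 p Y ∈ T (a + 1) ∧ P (s1ins 0 p Y)).card := by
  have hmove : ∀ (i i' : Fin (a + 1)) (ε ε' : ℤˣ) (Y : Matrix (Fin a) ι ℤ),
      s1ins i' ((ε' : ℤ) • p) Y ∈ T (a + 1) → s1ins i ((ε : ℤ) • p) Y ∈ T (a + 1) := by
    intro i i' ε ε' Y h
    obtain ⟨f, η, hf, he⟩ := s1_move i i' ε ε' p Y
    obtain ⟨h1, h2⟩ := (hT _ _).1 h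
    refine (hT _ _).2 ⟨s1_prim_sub hf η he h1, fun j => ?_⟩
    rw [he j]
    exact s1_mem_smul _ (h2 _)
  have hone : (((1 : ℤˣ) : ℤ)) • p = p := by simp
  have hc : ((Finset.univ : Finset (Fin (a + 1))) ×ˢ (Finset.univ : Finset ℤˣ) ×ˢ
      ((T a).filter fun Y => s1ins 0 p Y ∈ T (a + 1) ∧ P (s1ins 0 p Y))).card =
      2 * (a + 1) *
        ((T a).filter fun Y => s1ins 0 p Y ∈ T (a + 1) ∧ P (s1ins 0 p Y)).card := by
    rw [Finset.card_product, Finset.card_product, Finset.card_univ, Finset.card_univ,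
      Fintype.card_fin, Fintype.card_units_int]
    ring
  rw [← hc]
  symm
  refine Finset.card_bij (fun x _ => s1ins x.1 ((x.2.1 : ℤ) • p) x.2.2) ?_ ?_ ?_
  · rintro ⟨i, ε, Y⟩ hx
    simp only [Finset.mem_product, Finset.mem_univ, true_and, Finset.mem_filter] at hx
    refine Finset.mem_filter.2 ⟨hmove i 0 ε 1 Y (by rw [hone]; exact hx.2.1),
      (hP i ε Y).2 hx.2.2, fun h => h i ε (s1ins_same _ _ _)⟩
  · rintro ⟨i, ε, Y⟩ hx ⟨i', ε', Y'⟩ hx' he
    simp only [Finset.mem_product, Finset.mem_univ, true_and, Finset.mem_filter] at hx hx'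
    simp only at he
    have hn := s1_norow ((hT _ _).1 hx'.2.1).1
    have hi : i = i' := by
      rcases Fin.eq_self_or_eq_succAbove i' i with h | ⟨j, h⟩
      · exact h
      · exfalso
        have h1 := congrFun he i
        rw [s1ins_same, h, s1ins_succ] at h1
        exact hn j ε h1.symm
    subst hi
    have h1 := congrFun he i
    rw [s1ins_same, s1ins_same] at h1
    have h2 : ε = ε' := Units.ext (smul_left_injective ℤ hp h1)
    have h3 : Y = Y' := by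
      funext j
      have h4 := congrFun he (i.succAbove j)
      rwa [s1ins_succ, s1ins_succ] at h4
    rw [h2, h3]
  · intro Z hZ
    obtain ⟨h1, h2, h3⟩ := Finset.mem_filter.1 hZ
    push Not at h3
    obtain ⟨i, ε, h3⟩ := h3
    have he : s1ins i ((ε : ℤ) • p) (Matrix.of fun j => Z (i.succAbove j)) = Z := by
      funext j
      rcases Fin.eq_self_or_eq_succAbove i j with rfl | ⟨j, rfl⟩
      · rw [s1ins_same, h3]
      · rw [s1ins_succ]
        rfl
    refine ⟨(i, ε, Matrix.of fun j => Z (i.succAbove j)), ?_, he⟩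
    simp only [Finset.mem_product, Finset.mem_univ, true_and, Finset.mem_filter]
    obtain ⟨h4, h5⟩ := (hT _ _).1 h1
    refine ⟨(hT _ _).2 ⟨h4.submatrix (Fin.succAbove_right_injective (p := i)), fun j => h5 _⟩,
      ?_, (hP i ε _).1 (by rw [he]; exact h2)⟩
    have h6 := hmove 0 i 1 ε _ (by rw [he]; exact h1)
    rwa [hone] at h6

theorem s1_cw_succ (a : ℕ) : cw (a + 1) * (2 * ((a : ℝ) + 1)) = cw a := by
  unfold cw
  rw [Nat.factorial_succ]
  have : (a.factorial : ℝ) ≠ 0 := by exact_mod_cast a.factorial_ne_zero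
  push_cast
  field_simp
  ring

theorem s1_cw_nonneg (a : ℕ) : 0 ≤ cw a := by
  unfold cw
  positivity

theorem s1_tele (G G0 E : ℕ → ℝ) (h0 : G 0 = G0 0)
    (h : ∀ a, G (a + 1) = G0 (a + 1) + 2 * ((a : ℝ) + 1) * E a) (K : ℕ) :
    ∑ a ∈ Finset.range (K + 1), (-1) ^ a * cw a * G a =
      ∑ a ∈ Finset.range K, (-1) ^ a * cw a * (G0 a - E a) + (-1) ^ K * cw K * G0 K := by
  induction K with
  | zero => simp [h0]
  | succ K ih =>
    rw [Finset.sum_range_succ, ih, Finset.sum_range_succ, h K, ← s1_cw_succ K]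
    ring

theorem s1_abs (G G0 E Bo Bn D1 D3 : ℕ → ℝ) (K : ℕ) (h0 : G 0 = G0 0)
    (h : ∀ a, G (a + 1) = G0 (a + 1) + 2 * ((a : ℝ) + 1) * E a)
    (h1 : ∀ a, E a ≤ G0 a) (h2 : ∀ a, G0 a ≤ E a + D1 a + Bo a + D3 a)
    (h3 : ∀ a : ℕ, 2 * ((a : ℝ) + 1) * D1 a ≤ Bn (a + 1)) (h4 : G0 K ≤ Bo K) (h5 : 0 ≤ G0 K)
    (h6 : 0 ≤ D3 K) (h7 : 0 ≤ Bn 0) :
    |∑ a ∈ Finset.range (K + 1), (-1) ^ a * cw a * G a| ≤
      ∑ a ∈ Finset.range (K + 1), cw a * (Bo a + Bn a + D3 a) := by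
  rw [s1_tele G G0 E h0 h K]
  have e1 : ∑ a ∈ Finset.range (K + 1), cw a * (Bo a + Bn a + D3 a) =
      (∑ a ∈ Finset.range K, (cw a * (Bo a + D3 a) + cw (a + 1) * Bn (a + 1))) +
        (cw K * (Bo K + D3 K) + cw 0 * Bn 0) := by
    rw [Finset.sum_add_distrib]
    have a1 := Finset.sum_range_succ (fun a => cw a * (Bo a + D3 a)) K
    have a2 := Finset.sum_range_succ' (fun a => cw a * Bn a) K
    have a3 : ∑ a ∈ Finset.range (K + 1), cw a * (Bo a + Bn a + D3 a) =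
        ∑ a ∈ Finset.range (K + 1), cw a * (Bo a + D3 a) +
          ∑ a ∈ Finset.range (K + 1), cw a * Bn a := by
      rw [← Finset.sum_add_distrib]
      exact Finset.sum_congr rfl fun a _ => by ring
    rw [a3, a1, a2]
    ring
  rw [e1]
  have habs : ∀ (a : ℕ) (x : ℝ), 0 ≤ x → |(-1) ^ a * cw a * x| = cw a * x := by
    intro a x hx
    rw [abs_mul, abs_mul, abs_pow, abs_neg, abs_one, one_pow, one_mul,
      abs_of_nonneg (s1_cw_nonneg a), abs_of_nonneg hx]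
  refine (abs_add_le _ _).trans (add_le_add ((Finset.abs_sum_le_sum_abs _ _).trans
    (Finset.sum_le_sum fun a _ => ?_)) ?_)
  · rw [habs a _ (sub_nonneg.2 (h1 a))]
    have b1 := mul_le_mul_of_nonneg_left (h3 a) (s1_cw_nonneg (a + 1))
    have b2 := mul_le_mul_of_nonneg_left (h2 a) (s1_cw_nonneg a)
    rw [← mul_assoc, s1_cw_succ] at b1
    nlinarith
  · rw [habs K _ h5]
    have b1 := mul_le_mul_of_nonneg_left h4 (s1_cw_nonneg K)
    have b2 := mul_nonneg (s1_cw_nonneg K) h6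
    have b3 := mul_nonneg (s1_cw_nonneg 0) h7
    nlinarith

/-- the four cases for a frame without the fixed vector -/
theorem s1_cases {g : Matrix ι ι ℝ} {p : ι → ℤ} (hp : p ≠ 0) (hpA : lv p g ∈ AA ι) {a : ℕ}
    {Y : Matrix (Fin a) ι ℤ} (hY : Prim Y) (hn : ∀ (i : Fin a) (ε : ℤˣ), Y i ≠ (ε : ℤ) • p) :
    Prim (s1ins 0 p Y) ∨ rel (cz Y * g) ∨
      ∃ (w : ι → ℤ) (q : ℕ) (κ : Fin a → Fin (q + 2)), Prim (snc Y w) ∧
        ((q + 2 : ℕ) : ℤ) • w + zr κ ᵥ* Y = p := by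
  classical
  by_cases h : ∃ κ : Fin a → ℤ, p = κ ᵥ* Y
  · obtain ⟨κ, hκ⟩ := h
    refine Or.inr (Or.inl ⟨κ, ⟨?_, ?_⟩, ?_⟩)
    · rintro rfl
      exact hp (by rw [hκ, Matrix.zero_vecMul])
    · rintro ⟨h1, h2⟩
      obtain ⟨i, hi⟩ := Finset.card_eq_one.1 h2
      have hi1 : κ i ≠ 0 := by
        have : i ∈ Finset.univ.filter fun i => κ i ≠ 0 := by rw [hi]; simp
        exact (Finset.mem_filter.1 this).2
      have hi2 : ∀ j, j ≠ i → κ j = 0 := by
        intro j hj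
        by_contra hc
        have : j ∈ Finset.univ.filter fun i => κ i ≠ 0 := Finset.mem_filter.2 ⟨by simp, hc⟩
        rw [hi] at this
        exact hj (Finset.mem_singleton.1 this)
      have hi3 : (κ i).natAbs ≤ 1 :=
        (Finset.le_sup (f := fun i => (κ i).natAbs) (Finset.mem_univ i)).trans h1
      have hi4 : p = κ i • Y i := by
        rw [hκ]
        funext k
        simp only [Matrix.vecMul, dotProduct, Pi.smul_apply, smul_eq_mul]
        exact Finset.sum_eq_single i (fun j _ hj => by rw [hi2 j hj, zero_mul]) (by simp)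
      have hi5 : κ i = 1 ∨ κ i = -1 := by omega
      rcases hi5 with h5 | h5
      · exact hn i 1 (by rw [hi4, h5]; simp)
      · exact hn i (-1) (by rw [hi4, h5]; simp)
    · rw [← lv_vecMul, ← hκ]
      exact hpA
  · push Not at h
    have hI := (ind_snc_iff hY p).2 h
    have he := expand_prim hY fun k => ind (k = p)
    have hne : ∑' k : {k : ι → ℤ // Ind (snc Y k)}, ind (k.1 = p) ≠ 0 := by
      intro h0
      have h1 := ENNReal.tsum_eq_zero.1 h0 ⟨p, hI⟩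
      rw [ind_pos rfl] at h1
      exact one_ne_zero h1
    rw [he] at hne
    have hex : ∃ (w : {w : ι → ℤ // Prim (snc Y w)}) (r : ℕ) (κ : Fin a → Fin (r + 1)),
        ((r + 1 : ℕ) : ℤ) • w.1 + zr κ ᵥ* Y = p := by
      by_contra hc
      push Not at hc
      refine hne (ENNReal.tsum_eq_zero.2 fun w => ENNReal.tsum_eq_zero.2 fun r =>
        ENNReal.tsum_eq_zero.2 fun κ => ind_neg (hc w r κ))
    obtain ⟨w, r, κ, hw⟩ := hex
    cases r with
    | zero =>
      left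
      have h1 : zr κ = 0 := by
        funext i
        simp [zr]
      have h2 : w.1 = p := by simpa [h1] using hw
      have h3 := w.2
      rw [h2] at h3
      have hf : Function.Injective (Fin.insertNth (α := fun _ => Fin a ⊕ Unit) (0 : Fin (a + 1))
          (Sum.inr ()) Sum.inl) := by
        intro x y hxy
        rcases Fin.eq_self_or_eq_succAbove 0 y with hy | ⟨y, hy⟩ <;>
          rcases Fin.eq_self_or_eq_succAbove 0 x with hx | ⟨x, hx⟩
        · rw [hx, hy]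
        · rw [hx, hy, Fin.insertNth_apply_same, Fin.insertNth_apply_succAbove] at hxy
          exact absurd hxy (by simp)
        · rw [hx, hy, Fin.insertNth_apply_same, Fin.insertNth_apply_succAbove] at hxy
          exact absurd hxy (by simp)
        · rw [hx, hy, Fin.insertNth_apply_succAbove, Fin.insertNth_apply_succAbove] at hxy
          rw [hx, hy, Sum.inl_injective hxy]
      have h4 := h3.submatrix hf
      have h5 : s1ins 0 p Y = (snc Y p).submatrix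
          (Fin.insertNth (α := fun _ => Fin a ⊕ Unit) (0 : Fin (a + 1)) (Sum.inr ()) Sum.inl)
          id := by
        funext j
        rcases Fin.eq_self_or_eq_succAbove 0 j with rfl | ⟨j, rfl⟩
        · rw [s1ins_same]
          funext k
          rw [Matrix.submatrix_apply, Fin.insertNth_apply_same]
          rfl
        · rw [s1ins_succ]
          funext k
          rw [Matrix.submatrix_apply, Fin.insertNth_apply_succAbove]
          rfl
      rw [h5]
      exact h4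
    | succ q => exact Or.inr (Or.inr ⟨w.1, q, κ, w.2, hw⟩)

end Pool.Agent.Eps.P
end
end

-- part Pool.Agent.Lib.MP_3bda03_nt.P.Sieve1
section

/-!
The sieve inequality for one lattice.
-/

set_option autoImplicit false

noncomputable section

open MeasureTheory Matrix
open scoped ENNReal

namespace Pool.Agent.Eps.P

open Pool.Agent.Eps.H

variable {ι : Type} [Fintype ι] [DecidableEq ι]

/-- the sum of `F` over the primitive frames of a lattice -/
def sP {τ : Type} [DecidableEq τ] (F : Matrix τ ι ℝ → ℝ≥0∞) (g : Matrix ι ι ℝ) : ℝ≥0∞ :=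
  ∑' Y : {Y : Matrix τ ι ℤ // Prim Y}, F (cz Y.1 * g)

theorem finite_ann {g : Matrix ι ι ℝ} (hg : g.det ≠ 0) : {k : ι → ℤ | lv k g ∈ AA ι}.Finite := by
  obtain ⟨c, hc, h⟩ := exists_coer hg
  obtain ⟨N, hN⟩ := exists_nat_ge (rr (hd ι) / c + 1)
  refine (Set.Finite.pi' (t := fun _ : ι => Set.Icc (-(N : ℤ)) N)
    (fun _ => Set.finite_Icc _ _)).subset ?_
  intro k hk i
  have h1 : nsq (lv k g) < rr (hd ι) := hk.2
  have h2 := h (cv k)
  have h3 : (k i : ℝ) ^ 2 ≤ nsq (cv k) :=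
    Finset.single_le_sum (f := fun i => cv k i ^ 2) (fun j _ => sq_nonneg _) (Finset.mem_univ i)
  have h4 : nsq (cv k) ≤ rr (hd ι) / c := by
    rw [le_div_iff₀ hc]
    have : lv k g = cv k ᵥ* g := rfl
    rw [this] at h1
    nlinarith
  have h5 : |(k i : ℝ)| ≤ N := by
    have := abs_nonneg (k i : ℝ)
    have h6 : |(k i : ℝ)| ^ 2 = (k i : ℝ) ^ 2 := sq_abs _
    nlinarith [sq_nonneg (|(k i : ℝ)| - 1)]
  have h7 : |k i| ≤ (N : ℤ) := by exact_mod_cast h5
  exact abs_le.1 h7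

theorem s1_exT {g : Matrix ι ι ℝ} (hg : g.det ≠ 0) (a : ℕ) :
    ∃ T : Finset (Matrix (Fin a) ι ℤ), ∀ Y, Y ∈ T ↔ Prim Y ∧ ∀ i, lv (Y i) g ∈ AA ι := by
  have h : {Y : Matrix (Fin a) ι ℤ | Prim Y ∧ ∀ i, lv (Y i) g ∈ AA ι}.Finite :=
    (Set.Finite.pi' (t := fun _ : Fin a => {k : ι → ℤ | lv k g ∈ AA ι})
      (fun _ => finite_ann hg)).subset fun Y hY => hY.2
  exact ⟨h.toFinset, fun Y => by simp⟩

omit [DecidableEq ι] in
theorem s1_card {g : Matrix ι ι ℝ} {a : ℕ} {T : Finset (Matrix (Fin a) ι ℤ)}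
    (hT : ∀ Y, Y ∈ T ↔ Prim Y ∧ ∀ i, lv (Y i) g ∈ AA ι) (p : Matrix (Fin a) ι ℝ → Prop)
    [DecidablePred fun Y : Matrix (Fin a) ι ℤ => p (cz Y * g)] :
    sP (fun U => IA U * ind (p U)) g = ((T.filter fun Y => p (cz Y * g)).card : ℝ≥0∞) := by
  classical
  have h1 := tsum_subtype {Y : Matrix (Fin a) ι ℤ | Prim Y}
    (fun Y => IA (cz Y * g) * ind (p (cz Y * g)))
  refine Eq.trans h1 ?_
  rw [tsum_eq_sum (s := T.filter fun Y => p (cz Y * g)), Finset.card_eq_sum_ones, Nat.cast_sum]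
  · refine Finset.sum_congr rfl fun Y hY => ?_
    obtain ⟨h2, h3⟩ := Finset.mem_filter.1 hY
    obtain ⟨h4, h5⟩ := (hT Y).1 h2
    rw [Set.indicator_of_mem (show Y ∈ {Y : Matrix (Fin a) ι ℤ | Prim Y} from h4), ind_pos h3,
      IA_eq_one fun i => by rw [cz_mul_row]; exact h5 i]
    simp
  · intro Y hY
    by_cases h4 : Prim Y
    · rw [Set.indicator_of_mem (show Y ∈ {Y : Matrix (Fin a) ι ℤ | Prim Y} from h4)]
      by_cases h3 : p (cz Y * g)
      · rw [IA_eq_zero, zero_mul]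
        intro h5
        refine hY (Finset.mem_filter.2 ⟨(hT Y).2 ⟨h4, fun i => ?_⟩, h3⟩)
        rw [← cz_mul_row]
        exact h5 i
      · rw [ind_neg h3, mul_zero]
    · exact Set.indicator_of_notMem (show Y ∉ {Y : Matrix (Fin a) ι ℤ | Prim Y} from h4) _

theorem sP_IA_ne_top {g : Matrix ι ι ℝ} (hg : g.det ≠ 0) (a : ℕ) :
    sP (IA : Matrix (Fin a) ι ℝ → ℝ≥0∞) g ≠ ∞ := by
  classical
  obtain ⟨T, hT⟩ := s1_exT hg a
  have h := s1_card hT (fun _ => True)
  simp only [ind_pos trivial, mul_one] at h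
  rw [show (IA : Matrix (Fin a) ι ℝ → ℝ≥0∞) = fun U => IA U from rfl, h]
  exact ENNReal.natCast_ne_top _

theorem s1_wit {g : Matrix ι ι ℝ} {p : ι → ℤ} (hpA : lv p g ∈ AA ι) {a : ℕ}
    (D : Finset (Matrix (Fin a) ι ℤ))
    (hD : ∀ Y ∈ D, (∀ i, lv (Y i) g ∈ AA ι) ∧
      ∃ (w : ι → ℤ) (q : ℕ) (κ : Fin a → Fin (q + 2)), Prim (snc Y w) ∧
        ((q + 2 : ℕ) : ℤ) • w + zr κ ᵥ* Y = p) :
    (D.card : ℝ≥0∞) ≤ ∑' q : ℕ, ∑' κ : Fin a → Fin (q + 2), sP (Fq q κ) g := by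
  have h1 : ∑' q : ℕ, ∑' κ : Fin a → Fin (q + 2), sP (Fq q κ) g =
      ∑' Z : {Z : Matrix (Fin a ⊕ Unit) ι ℤ // Prim Z}, ∑' q : ℕ,
        ∑' κ : Fin a → Fin (q + 2), Fq q κ (cz Z.1 * g) := by
    rw [ENNReal.tsum_comm]
    refine tsum_congr fun q => ?_
    rw [ENNReal.tsum_comm]
    rfl
  have h2 : ∀ Y : D, ∃ (w : ι → ℤ) (q : ℕ) (κ : Fin a → Fin (q + 2)), Prim (snc Y.1 w) ∧
      ((q + 2 : ℕ) : ℤ) • w + zr κ ᵥ* Y.1 = p := fun Y => (hD Y.1 Y.2).2
  choose w q κ hw he using h2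
  have hinj : Function.Injective fun Y : D =>
      (⟨snc Y.1 (w Y), hw Y⟩ : {Z : Matrix (Fin a ⊕ Unit) ι ℤ // Prim Z}) := by
    intro Y Y' h
    have h3 : snc Y.1 (w Y) = snc Y'.1 (w Y') := congrArg Subtype.val h
    refine Subtype.ext ?_
    funext i
    exact congrFun h3 (Sum.inl i)
  rw [h1]
  refine le_trans ?_ (ENNReal.tsum_comp_le_tsum_of_injective hinj _)
  have h4 : (D.card : ℝ≥0∞) = ∑' _ : D, (1 : ℝ≥0∞) := by
    rw [tsum_fintype]
    simp
  rw [h4]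
  refine ENNReal.tsum_le_tsum fun Y => ?_
  refine le_trans ?_ (ENNReal.le_tsum (q Y))
  refine le_trans ?_ (ENNReal.le_tsum (κ Y))
  have h5 : (snc (cz Y.1 * g) (lv (w Y) g)).toRows₁ = cz Y.1 * g := Matrix.toRows₁_fromRows _ _
  have h6 : snc (cz Y.1 * g) (lv (w Y) g) (Sum.inr ()) = lv (w Y) g := rfl
  have h7 : ((q Y + 2 : ℕ) : ℝ) • lv (w Y) g + lv (zr (κ Y)) (cz Y.1 * g) = lv p g := by
    rw [← he Y, lv_add, lv_smul, lv_vecMul, Int.cast_natCast]
  show 1 ≤ Fq (q Y) (κ Y) (cz (snc Y.1 (w Y)) * g)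
  rw [cz_snc, Fq, h5, h6, h7, IA_eq_one fun i => by rw [cz_mul_row]; exact (hD Y.1 Y.2).1 i,
    iA, Set.indicator_of_mem hpA]
  simp

/-- the pointwise inequality: even terms against odd terms -/
theorem sieve_pt (hn : 97 ≤ Fintype.card ι) {ok : ∀ a : ℕ, Matrix (Fin a) ι ℝ → Prop}
    (hok : Her ok) (K : ℕ) {g : Matrix ι ι ℝ} (hg : g.det ≠ 0) :
    ENNReal.ofReal |(hole g).toReal -
        ∑ a ∈ Finset.range (K + 1), (-1) ^ a * cw a * (sP (goodF ok a) g).toReal| ≤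
      ∑ a ∈ Finset.range (K + 1), ENNReal.ofReal (cw a) * (sP (badF ok K a) g +
        ∑' q : ℕ, ∑' κ : Fin a → Fin (q + 2), sP (Fq q κ) g) := by
  classical
  choose T hT using s1_exT hg
  have hG : ∀ a, (sP (goodF ok a) g).toReal =
      (((T a).filter fun Y => ok a (cz Y * g)).card : ℝ) := by
    intro a
    have := s1_card (hT a) (ok a)
    rw [show goodF ok a = fun U => IA U * ind (ok a U) from rfl, this, ENNReal.toReal_natCast]
  simp only [hG]
  by_cases hS : ∀ k : ι → ℤ, lv k g ∉ AA ι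
  · have h1 : ∑ a ∈ Finset.range (K + 1),
        (-1) ^ a * cw a * (((T a).filter fun Y => ok a (cz Y * g)).card : ℝ) = 1 := by
      rw [Finset.sum_range_succ', Finset.sum_eq_zero]
      · have h2 : ((T 0).filter fun Y => ok 0 (cz Y * g)) = {0} := by
          ext Y
          simp only [Finset.mem_filter, Finset.mem_singleton, hT]
          refine ⟨fun _ => Subsingleton.elim _ _, fun _ =>
            ⟨⟨⟨0, Subsingleton.elim _ _⟩, fun i => i.elim0⟩, hok.zero _⟩⟩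
        rw [h2]
        simp [cw]
      · intro a _
        have h2 : ((T (a + 1)).filter fun Y => ok (a + 1) (cz Y * g)) = ∅ := by
          refine Finset.eq_empty_of_forall_notMem fun Y hY => ?_
          exact hS _ (((hT _ _).1 (Finset.mem_filter.1 hY).1).2 0)
        rw [h2]
        simp
    rw [h1, hole, ind_pos hS]
    simp
  rw [hole, ind_neg hS, ENNReal.toReal_zero, zero_sub, abs_neg]
  push Not at hS
  obtain ⟨p, hpA⟩ := hS
  have hp : p ≠ 0 := by
    rintro rfl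
    rw [lv_zero] at hpA
    exact zero_not_mem_AA hn hpA
  have hone : (((1 : ℤˣ) : ℤ)) • p = p := by simp
  have hP : ∀ (a : ℕ) (i : Fin (a + 1)) (ε : ℤˣ) (Y : Matrix (Fin a) ι ℤ),
      ok (a + 1) (cz (s1ins i ((ε : ℤ) • p) Y) * g) ↔ ok (a + 1) (cz (s1ins 0 p Y) * g) := by
    intro a i ε Y
    constructor
    · intro h
      obtain ⟨f, η, hf, he⟩ := s1_move 0 i 1 ε p Y
      rw [hone] at he
      exact s1_ok_sub hok g hf η he h
    · intro h
      obtain ⟨f, η, hf, he⟩ := s1_move i 0 ε 1 p Y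
      rw [hone] at he
      exact s1_ok_sub hok g hf η he h
  set G0 : ∀ a : ℕ, Finset (Matrix (Fin a) ι ℤ) := fun a => (T a).filter fun Y =>
    ok a (cz Y * g) ∧ ∀ (i : Fin a) (ε : ℤˣ), Y i ≠ (ε : ℤ) • p with hG0
  set E : ∀ a : ℕ, Finset (Matrix (Fin a) ι ℤ) := fun a => (T a).filter fun Y =>
    s1ins 0 p Y ∈ T (a + 1) ∧ ok (a + 1) (cz (s1ins 0 p Y) * g) with hE
  set D1 : ∀ a : ℕ, Finset (Matrix (Fin a) ι ℤ) := fun a => (T a).filter fun Y =>
    s1ins 0 p Y ∈ T (a + 1) ∧ ¬ ok (a + 1) (cz (s1ins 0 p Y) * g) with hD1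
  set D3 : ∀ a : ℕ, Finset (Matrix (Fin a) ι ℤ) := fun a => (T a).filter fun Y =>
    ∃ (w : ι → ℤ) (q : ℕ) (κ : Fin a → Fin (q + 2)), Prim (snc Y w) ∧
      ((q + 2 : ℕ) : ℤ) • w + zr κ ᵥ* Y = p with hD3
  set Bo : ∀ a : ℕ, Finset (Matrix (Fin a) ι ℤ) := fun a => (T a).filter fun Y =>
    (a = K ∨ rel (cz Y * g)) ∧ ok a (cz Y * g) with hBo
  set Bn : ∀ a : ℕ, Finset (Matrix (Fin a) ι ℤ) := fun a => (T a).filter fun Y =>
    ¬ ok a (cz Y * g) with hBn
  have key := s1_abs (fun a => (((T a).filter fun Y => ok a (cz Y * g)).card : ℝ))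
    (fun a => ((G0 a).card : ℝ)) (fun a => ((E a).card : ℝ)) (fun a => ((Bo a).card : ℝ))
    (fun a => ((Bn a).card : ℝ)) (fun a => ((D1 a).card : ℝ)) (fun a => ((D3 a).card : ℝ)) K
    ?_ ?_ ?_ ?_ ?_ ?_ (Nat.cast_nonneg _) (Nat.cast_nonneg _) (Nat.cast_nonneg _)
  · refine (ENNReal.ofReal_le_ofReal key).trans ?_
    rw [ENNReal.ofReal_sum_of_nonneg fun a _ => mul_nonneg (s1_cw_nonneg a) (by positivity)]
    refine Finset.sum_le_sum fun a _ => ?_
    rw [ENNReal.ofReal_mul (s1_cw_nonneg a)]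
    refine mul_le_mul_right ?_ _
    rw [ENNReal.ofReal_add (by positivity) (by positivity), ← Nat.cast_add,
      ENNReal.ofReal_natCast, ENNReal.ofReal_natCast]
    refine add_le_add ?_ (s1_wit hpA _ fun Y hY => ?_)
    · have h1 := s1_card (hT a) fun U => a = K ∨ rel U ∨ ¬ ok a U
      rw [show badF ok K a = fun U => IA U * ind (a = K ∨ rel U ∨ ¬ ok a U) from rfl, h1,
        ← Finset.card_union_of_disjoint]
      · refine Nat.cast_le.2 (Finset.card_le_card fun Y hY => ?_)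
        rcases Finset.mem_union.1 hY with h | h
        · obtain ⟨h2, h3, -⟩ := Finset.mem_filter.1 h
          exact Finset.mem_filter.2 ⟨h2, h3.imp_right Or.inl⟩
        · obtain ⟨h2, h3⟩ := Finset.mem_filter.1 h
          exact Finset.mem_filter.2 ⟨h2, Or.inr (Or.inr h3)⟩
      · exact Finset.disjoint_left.2 fun Y h h' =>
          (Finset.mem_filter.1 h').2 (Finset.mem_filter.1 h).2.2
    · obtain ⟨h2, h3⟩ := Finset.mem_filter.1 hY
      exact ⟨((hT _ _).1 h2).2, h3⟩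
  · refine congrArg _ (congrArg _ (Finset.filter_congr fun Y _ => ?_))
    exact ⟨fun h => ⟨h, fun i => i.elim0⟩, fun h => h.1⟩
  · intro a
    have h1 := s1_count hT hp a (fun Z => ok (a + 1) (cz Z * g)) (hP a)
    have h2 := Finset.card_filter_add_card_filter_not
      (s := (T (a + 1)).filter fun Y => ok (a + 1) (cz Y * g))
      (fun Z => ∀ (i : Fin (a + 1)) (ε : ℤˣ), Z i ≠ (ε : ℤ) • p)
    rw [Finset.filter_filter, Finset.filter_filter] at h2
    have h3 : ((T (a + 1)).filter fun Y => ok (a + 1) (cz Y * g)).card =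
        (G0 (a + 1)).card + 2 * (a + 1) * (E a).card := by
      rw [← h2]
      congr 1
    show (((T (a + 1)).filter fun Y => ok (a + 1) (cz Y * g)).card : ℝ) = _
    rw [h3]
    push_cast
    rfl
  · intro a
    refine Nat.cast_le.2 (Finset.card_le_card fun Y hY => ?_)
    obtain ⟨h1, h2, h3⟩ := Finset.mem_filter.1 hY
    refine Finset.mem_filter.2 ⟨h1, ?_, s1_norow ((hT _ _).1 h2).1⟩
    exact s1_ok_sub hok g (Fin.succAbove_right_injective (p := 0)) (fun _ => 1)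
      (fun j => by rw [s1ins_succ]; simp) h3
  · intro a
    have h1 : G0 a ⊆ E a ∪ D1 a ∪ Bo a ∪ D3 a := by
      intro Y hY
      obtain ⟨h1, h2, h3⟩ := Finset.mem_filter.1 hY
      obtain ⟨h4, h5⟩ := (hT _ _).1 h1
      simp only [Finset.mem_union]
      rcases s1_cases hp hpA h4 h3 with h | h | h
      · have h6 : s1ins 0 p Y ∈ T (a + 1) := by
          refine (hT _ _).2 ⟨h, fun j => ?_⟩
          rcases Fin.eq_self_or_eq_succAbove 0 j with rfl | ⟨j, rfl⟩
          · rw [s1ins_same]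
            exact hpA
          · rw [s1ins_succ]
            exact h5 j
        by_cases h7 : ok (a + 1) (cz (s1ins 0 p Y) * g)
        · exact Or.inl (Or.inl (Or.inl (Finset.mem_filter.2 ⟨h1, h6, h7⟩)))
        · exact Or.inl (Or.inl (Or.inr (Finset.mem_filter.2 ⟨h1, h6, h7⟩)))
      · exact Or.inl (Or.inr (Finset.mem_filter.2 ⟨h1, Or.inr h, h2⟩))
      · exact Or.inr (Finset.mem_filter.2 ⟨h1, h⟩)
    have h2 := Finset.card_le_card h1
    have h3 := Finset.card_union_le (E a ∪ D1 a ∪ Bo a) (D3 a)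
    have h4 := Finset.card_union_le (E a ∪ D1 a) (Bo a)
    have h5 := Finset.card_union_le (E a) (D1 a)
    have h6 : (G0 a).card ≤ (E a).card + (D1 a).card + (Bo a).card + (D3 a).card := by omega
    exact_mod_cast h6
  · intro a
    have h1 := s1_count hT hp a (fun Z => ¬ ok (a + 1) (cz Z * g))
      fun i ε Y => not_congr (hP a i ε Y)
    have h2 : 2 * (a + 1) * (D1 a).card ≤ (Bn (a + 1)).card := by
      refine le_trans (le_of_eq ?_) (h1.symm.le.trans (Finset.card_le_card fun Y hY => ?_))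
      · refine congrArg (fun s => 2 * (a + 1) * Finset.card s) ?_
        ext Y
        simp only [hD1, Finset.mem_filter]
      · simp only [Finset.mem_filter] at hY
        exact Finset.mem_filter.2 ⟨hY.1, hY.2.1⟩
    exact_mod_cast h2
  · refine Nat.cast_le.2 (Finset.card_le_card fun Y hY => ?_)
    obtain ⟨h1, h2, -⟩ := Finset.mem_filter.1 hY
    exact Finset.mem_filter.2 ⟨h1, Or.inl rfl, h2⟩

end Pool.Agent.Eps.P
end
end

-- part Pool.Agent.Lib.MP_3bda03_nt.P.Sieve2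
section

/-!
The sieve inequality in the mean.
-/

set_option autoImplicit false

noncomputable section

open MeasureTheory Matrix
open scoped ENNReal

namespace Pool.Agent.Eps.P

open Pool.Agent.Eps.H

variable {ι : Type} [Fintype ι] [DecidableEq ι] {Ω : Type} [MeasurableSpace Ω]

theorem measurable_goodF {ok : ∀ a : ℕ, Matrix (Fin a) ι ℝ → Prop} (hok : Her ok) (a : ℕ) :
    Measurable (goodF ok a) := by
  exact measurable_IA.mul (measurable_ind (hok.meas a))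

theorem measurable_badF {ok : ∀ a : ℕ, Matrix (Fin a) ι ℝ → Prop} (hok : Her ok) (K a : ℕ) :
    Measurable (badF ok K a) := by
  exact measurable_IA.mul (measurable_ind
    ((MeasurableSet.const _).union (measurableSet_rel.union (hok.meas a).compl)))

theorem measurable_Fq {τ : Type} [Fintype τ] (q : ℕ) (κ : τ → Fin (q + 2)) :
    Measurable (Fq q κ : Matrix (τ ⊕ Unit) ι ℝ → ℝ≥0∞) := by
  have h : Measurable fun U : Matrix (τ ⊕ Unit) ι ℝ => U.toRows₁ :=
    measurable_mx.2 fun a i => measurable_entry (Sum.inl a) i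
  exact (measurable_IA.comp h).mul (measurable_iA.comp
    (((measurable_row (Sum.inr ())).const_smul ((q + 2 : ℕ) : ℝ)).add ((measurable_lv _).comp h)))

theorem her_true : Her (fun (a : ℕ) (_ : Matrix (Fin a) ι ℝ) => True) := by
  exact ⟨fun _ => trivial, fun _ _ _ _ _ _ _ => trivial, fun _ => MeasurableSet.univ⟩

theorem TT_mono {P : Measure Ω} {g : Ω → Matrix ι ι ℝ} {W W' : Ω → ℝ≥0∞} {τ : Type}
    [DecidableEq τ] {F F' : Matrix τ ι ℝ → ℝ≥0∞} (hF : ∀ U, F U ≤ F' U)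
    (hW : ∀ᵐ ω ∂P, W ω ≤ W' ω) : TT P g W F ≤ TT P g W' F' := by
  exact lintegral_mono_ae (hW.mono fun ω h =>
    mul_le_mul' (ENNReal.tsum_le_tsum fun Y => hF _) h)

theorem sieve2_meas {g : Ω → Matrix ι ι ℝ} (hg : Measurable g) {τ : Type} [Fintype τ]
    [DecidableEq τ] {F : Matrix τ ι ℝ → ℝ≥0∞} (hF : Measurable F) :
    Measurable fun ω => sP F (g ω) := by
  have : Countable (Matrix τ ι ℤ) := inferInstanceAs (Countable (τ → ι → ℤ))
  exact Measurable.tsum fun Y => hF.comp (Measurable.mxmul measurable_const hg)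

theorem TT_add {P : Measure Ω} {g : Ω → Matrix ι ι ℝ} (hg : Measurable g) {W W' : Ω → ℝ≥0∞}
    (hW : Measurable W) (c c' : ℝ≥0∞) {τ : Type} [Fintype τ] [DecidableEq τ]
    {F : Matrix τ ι ℝ → ℝ≥0∞} (hF : Measurable F) (hW' : Measurable W') :
    TT P g (fun ω => c * W ω + c' * W' ω) F = c * TT P g W F + c' * TT P g W' F := by
  have h := sieve2_meas hg hF
  change ∫⁻ ω, sP F (g ω) * _ ∂P = c * ∫⁻ ω, sP F (g ω) * _ ∂P + c' * ∫⁻ ω, sP F (g ω) * _ ∂P
  rw [← lintegral_const_mul _ (h.fun_mul hW), ← lintegral_const_mul _ (h.fun_mul hW'),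
    ← lintegral_add_left ((h.fun_mul hW).const_mul c)]
  exact lintegral_congr fun ω => by ring

theorem sieve_int (hn : 97 ≤ Fintype.card ι) {ok : ∀ a : ℕ, Matrix (Fin a) ι ℝ → Prop}
    (hok : Her ok) (K : ℕ) {P : Measure Ω} {g : Ω → Matrix ι ι ℝ} (hg : Measurable g)
    (hdet : ∀ᵐ ω ∂P, (g ω).det ≠ 0) {W : Ω → ℝ≥0∞} (hW : Measurable W)
    (hfin : ∀ a ≤ K, TT P g W (goodF ok a) ≠ ∞) {B : ℕ → ℝ} (hB0 : ∀ a ≤ K, 0 ≤ B a)
    (hB : ∀ a ≤ K, TT P g W (badF ok K a) + TI P g W (Fin a) ≤ ENNReal.ofReal (B a)) :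
    ∫⁻ ω, hole (g ω) * W ω ∂P ≠ ∞ ∧
    |(∫⁻ ω, hole (g ω) * W ω ∂P).toReal -
        ∑ a ∈ Finset.range (K + 1), (-1) ^ a * cw a * (TT P g W (goodF ok a)).toReal| ≤
      ∑ a ∈ Finset.range (K + 1), cw a * B a := by
  have hm : ∀ a, Measurable fun ω => sP (goodF ok a) (g ω) * W ω := fun a =>
    (sieve2_meas hg (measurable_goodF hok a)).mul hW
  have hh : Measurable fun ω => hole (g ω) * W ω := (measurable_hole.comp hg).mul hW
  have h0 : ∫⁻ ω, hole (g ω) * W ω ∂P ≠ ∞ := by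
    refine ne_top_of_le_ne_top (hfin 0 K.zero_le) (lintegral_mono fun ω => mul_le_mul_left ?_ _)
    refine (ind_le_one _).trans (le_trans ?_ (ENNReal.le_tsum ⟨0, 0, Subsingleton.elim _ _⟩))
    rw [goodF, ind_pos (hok.zero _), IA, Finset.univ_eq_empty, Finset.prod_empty, mul_one]
  refine ⟨h0, ?_⟩
  have hf : ∀ a ∈ Finset.range (K + 1), ∫⁻ ω, sP (goodF ok a) (g ω) * W ω ∂P ≠ ∞ := fun a ha =>
    hfin a (Finset.mem_range_succ_iff.1 ha)
  have hi : ∀ a ∈ Finset.range (K + 1), Integrable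
      (fun ω => (-1) ^ a * cw a * (sP (goodF ok a) (g ω) * W ω).toReal) P := fun a ha =>
    (integrable_toReal_of_lintegral_ne_top (hm a).aemeasurable (hf a ha)).const_mul _
  have e1 : (∫⁻ ω, hole (g ω) * W ω ∂P).toReal -
      ∑ a ∈ Finset.range (K + 1), (-1) ^ a * cw a * (TT P g W (goodF ok a)).toReal =
      ∫ ω, ((hole (g ω) * W ω).toReal - ∑ a ∈ Finset.range (K + 1),
        (-1) ^ a * cw a * (sP (goodF ok a) (g ω) * W ω).toReal) ∂P := by
    rw [integral_sub (integrable_toReal_of_lintegral_ne_top hh.aemeasurable h0)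
      (integrable_finsetSum _ hi), integral_finsetSum _ hi,
      integral_toReal hh.aemeasurable (ae_lt_top hh h0)]
    refine congrArg _ (Finset.sum_congr rfl fun a ha => ?_)
    rw [integral_const_mul, integral_toReal (hm a).aemeasurable (ae_lt_top (hm a) (hf a ha))]
    rfl
  have hc : ∀ a ∈ Finset.range (K + 1), 0 ≤ cw a * B a := fun a ha =>
    mul_nonneg (cw_pos a).le (hB0 a (Finset.mem_range_succ_iff.1 ha))
  have hq : ∀ (a q : ℕ) (κ : Fin a → Fin (q + 2)), Measurable fun ω => sP (Fq q κ) (g ω) * W ω :=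
    fun a q κ => (sieve2_meas hg (measurable_Fq q κ)).mul hW
  have hb : ∀ a, Measurable fun ω => sP (badF ok K a) (g ω) * W ω := fun a =>
    (sieve2_meas hg (measurable_badF hok K a)).mul hW
  rw [e1, ← ENNReal.ofReal_le_ofReal_iff (Finset.sum_nonneg hc), ENNReal.ofReal_sum_of_nonneg hc,
    ← Real.enorm_eq_ofReal_abs]
  refine (enorm_integral_le_lintegral_enorm _).trans ((lintegral_mono_ae
    (g := fun ω => ∑ a ∈ Finset.range (K + 1), ENNReal.ofReal (cw a) *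
      (sP (badF ok K a) (g ω) * W ω + ∑' q : ℕ, ∑' κ : Fin a → Fin (q + 2),
        sP (Fq q κ) (g ω) * W ω)) (hdet.mono fun ω hω => ?_)).trans ?_)
  · simp only [ENNReal.toReal_mul, ← mul_assoc, ← Finset.sum_mul, ← sub_mul,
      ENNReal.tsum_mul_right, ← add_mul]
    rw [Real.enorm_eq_ofReal_abs, abs_mul, ENNReal.ofReal_mul (abs_nonneg _),
      abs_of_nonneg (W ω).toReal_nonneg]
    exact mul_le_mul' (sieve_pt hn hok K hω) ENNReal.ofReal_toReal_le
  · have hs : ∀ a, Measurable fun ω => sP (badF ok K a) (g ω) * W ω +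
        ∑' q : ℕ, ∑' κ : Fin a → Fin (q + 2), sP (Fq q κ) (g ω) * W ω := fun a =>
      (hb a).add (Measurable.tsum fun q => Measurable.tsum (hq a q))
    rw [lintegral_finsetSum _ fun a _ => (hs a).const_mul _]
    refine Finset.sum_le_sum fun a ha => ?_
    rw [lintegral_const_mul _ (hs a), ENNReal.ofReal_mul (cw_pos a).le, lintegral_add_left (hb a),
      lintegral_tsum fun q => (Measurable.tsum (hq a q)).aemeasurable,
      tsum_congr fun q => lintegral_tsum fun κ => (hq a q κ).aemeasurable]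
    exact mul_le_mul_right (hB a (Finset.mem_range_succ_iff.1 ha)) _

end Pool.Agent.Eps.P
end
end

-- part Pool.Agent.Lib.MP_3bda03_nt.P.PrimC1
section

/-!
Fractional relations.
-/

set_option autoImplicit false

noncomputable section

open MeasureTheory Matrix
open scoped ENNReal

namespace Pool.Agent.Eps.P

open Pool.Agent.Eps.H

variable {ι : Type} [Fintype ι] [DecidableEq ι] {Ω : Type} [MeasurableSpace Ω]
  {P : Measure Ω} {g : Ω → Matrix ι ι ℝ} {Λ : Measure (ι → ℝ)} {d : ℕ} {ξ : ℝ}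
  {τ : Type} [Fintype τ] [DecidableEq τ] {h : (ι → ℝ) → ℝ}

omit [DecidableEq ι] in
theorem primC1_Gs_sq (t : ℝ) (y : ι → ℝ) : Gs t y ^ 2 = Gs (2 * t) y := by
  unfold Gs gs
  rw [← ENNReal.ofReal_pow (Real.exp_pos _).le, ← Real.exp_nat_mul]
  congr 2
  push_cast
  ring

theorem primC1_sq (x y : ℝ≥0∞) : (1 + (x + y)) ^ 2 ≤ 2 + 4 * x ^ 2 + 4 * y ^ 2 := by
  rcases eq_or_ne x ∞ with rfl | hx
  · simp
  rcases eq_or_ne y ∞ with rfl | hy
  · simp
  lift x to NNReal using hx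
  lift y to NNReal using hy
  have : (1 + (x + y)) ^ 2 ≤ 2 + 4 * x ^ 2 + 4 * y ^ 2 := by
    rw [← NNReal.coe_le_coe]
    push_cast
    nlinarith [sq_nonneg ((x : ℝ) + y - 1), sq_nonneg ((x : ℝ) - y)]
  exact_mod_cast this

theorem primC1_cover : {κ : τ → ℤ | κ ≠ 0} ⊆ CG τ 1 ∪ CN τ 2 := by
  intro κ hκ
  by_cases h : mx κ ≤ 1
  · refine Or.inl ⟨h, ?_⟩
    obtain ⟨i, hi⟩ := Function.ne_iff.mp hκ
    exact Finset.card_pos.mpr ⟨i, Finset.mem_filter.mpr ⟨Finset.mem_univ _, hi⟩⟩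
  · exact Or.inr (show 2 ≤ mx κ by omega)

theorem primC1_mx {κ : τ → ℤ} (h : κ ∈ CG τ 1) : mx κ = 1 := by
  obtain ⟨h1, h2⟩ := h
  obtain ⟨i, hi⟩ := Finset.card_pos.mp h2
  have h3 := (Finset.mem_filter.mp hi).2
  have h4 := le_mx κ i
  have h5 := Int.natAbs_pos.mpr h3
  omega

omit [DecidableEq ι] [DecidableEq τ] in
theorem primC1_lintegral_cs (μ : Measure (Matrix τ ι ℝ)) (S : Set (τ → ℤ))
    (φ : (τ → ℤ) → Matrix τ ι ℝ → ℝ≥0∞) (hφ : ∀ κ, Measurable (φ κ)) :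
    ∫⁻ U, IA U * cs S (fun κ => φ κ U) ∂μ = cs S fun κ => ∫⁻ U, IA U * φ κ U ∂μ := by
  unfold cs
  simp only [← ENNReal.tsum_mul_left]
  exact lintegral_tsum fun κ => (measurable_IA.mul (hφ κ.1)).aemeasurable

omit [DecidableEq ι] in
theorem primC1_pair (t a b : ℝ) (ha : a ≠ 0) (w z z' : ι → ℝ) :
    Gs t (a • w + z) * Gs t (b • w + z') =
      Gs (t * (a ^ 2 + b ^ 2)) (w + (a ^ 2 + b ^ 2)⁻¹ • (a • z + b • z')) *
        Gs (t * a ^ 2 / (a ^ 2 + b ^ 2)) (z' + (-(b / a)) • z) := by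
  have hs : a ^ 2 + b ^ 2 ≠ 0 := by positivity
  have key : nsq (a • w + z) + nsq (b • w + z') =
      (a ^ 2 + b ^ 2) * nsq (w + (a ^ 2 + b ^ 2)⁻¹ • (a • z + b • z')) +
        a ^ 2 / (a ^ 2 + b ^ 2) * nsq (z' + (-(b / a)) • z) := by
    unfold nsq
    rw [Finset.mul_sum, Finset.mul_sum, ← Finset.sum_add_distrib, ← Finset.sum_add_distrib]
    refine Finset.sum_congr rfl fun i _ => ?_
    simp only [Pi.add_apply, Pi.smul_apply, smul_eq_mul]
    field_simp
    ring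
  unfold Gs gs nx
  rw [← ENNReal.ofReal_mul (Real.exp_pos _).le, ← ENNReal.ofReal_mul (Real.exp_pos _).le,
    ← Real.exp_add, ← Real.exp_add]
  congr 2
  linear_combination (-(t * hd ι / rr (hd ι))) * key

omit [DecidableEq ι] [DecidableEq τ] in
theorem primC1_Dterm (hn : 97 ≤ Fintype.card ι) (G : Good Λ ξ) [DecidableEq τ]
    (ha : Fintype.card τ ≤ KK ι + 1) (hh : Hf h) {U : Matrix τ ι ℝ}
    (hU : LinearIndependent ℝ fun i => (U i : ι → ℝ)) {p : ℕ} {q : ℤ}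
    (hx : q ≠ 0 ∧ ¬ (p = 0 ∧ q.natAbs = 1)) :
    Dterm Λ h U p q ≤ ENNReal.ofReal ((5 / (((p + 1 : ℕ) : ℝ) ^ 2 + (q : ℝ) ^ 2)) ^ 31) *
      (ENNReal.ofReal (2.24 * (1 + ξ) * Real.exp (-(1.2736 * hd ι))) * vth (th (hd ι)) U) := by
  have hv := hd_ge hn
  have h5 := primC1_five hx
  have hθ := th_ge hv
  have hθ' := th_le hv
  have hξ := G.nonneg
  have haK : (Fintype.card τ : ℝ) ≤ hd ι / 3 + 1 := by
    have h1 : (Fintype.card τ : ℝ) ≤ (KK ι : ℝ) + 1 := by exact_mod_cast ha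
    linarith [KK_le (ι := ι)]
  set a : ℝ := ((p + 1 : ℕ) : ℝ) with ha'
  set b : ℝ := (q : ℝ) with hb
  set s : ℝ := a ^ 2 + b ^ 2 with hs
  set θ := th (hd ι) with hθd
  have ha0 : 0 < a := by rw [ha']; positivity
  have hs0 : 0 < s := by linarith
  have hθ0 : 0 < θ := by linarith
  set c : ℝ := (1 + ξ) * (s ^ (-hd ι) * (0.3 * s) ^ (hd ι / 6)) with hc
  have hc0 : 0 ≤ c := by positivity
  have h1 : ∀ z z' : ι → ℝ,
      ∫⁻ w, ENNReal.ofReal (h (a • w + z)) * ENNReal.ofReal (h (b • w + z')) ∂Λ ≤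
        ENNReal.ofReal c * Gs (θ * a ^ 2 / s) (z' + (-(b / a)) • z) := by
    intro z z'
    calc _ ≤ ∫⁻ w, Gs (θ * s) (w + s⁻¹ • (a • z + b • z')) *
            Gs (θ * a ^ 2 / s) (z' + (-(b / a)) • z) ∂Λ := by
          refine lintegral_mono fun w => ?_
          rw [← primC1_pair θ a b ha0.ne']
          exact mul_le_mul' (ENNReal.ofReal_le_ofReal (hh.le _))
            (ENNReal.ofReal_le_ofReal (hh.le _))
      _ = (∫⁻ w, Gs (θ * s) (w + s⁻¹ • (a • z + b • z')) ∂Λ) *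
            Gs (θ * a ^ 2 / s) (z' + (-(b / a)) • z) :=
          lintegral_mul_const' _ _ ENNReal.ofReal_ne_top
      _ ≤ _ := by
          refine mul_le_mul' ((G.gauss _ (by positivity) _).trans
            (ENNReal.ofReal_le_ofReal ?_)) le_rfl
          rw [hc, mul_assoc]
          refine mul_le_mul_of_nonneg_left ?_ (by linarith)
          have e1 : (θ / (θ * s)) ^ hd ι = s ^ (-hd ι) := by
            rw [Real.rpow_neg hs0.le, ← Real.inv_rpow hs0.le]
            congr 1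
            field_simp
          rw [← hθd, e1]
          refine mul_le_mul_of_nonneg_left ?_ (by positivity)
          refine Real.rpow_le_rpow (by positivity) (max_le (by linarith) ?_) (by linarith)
          nlinarith
  have hts : θ * a ^ 2 / s ≤ θ := by
    rw [div_le_iff₀ hs0]
    nlinarith [sq_nonneg b]
  have h2 : ∀ z : ι → ℝ, ∑' κ' : τ → ℤ, ∫⁻ w, ENNReal.ofReal (h (a • w + z)) *
      ENNReal.ofReal (h (b • w + lv κ' U)) ∂Λ ≤ ENNReal.ofReal c *
        (ENNReal.ofReal ((s / a ^ 2) ^ ((Fintype.card τ : ℝ) / 2)) * vth θ U) := by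
    intro z
    calc _ ≤ ∑' κ' : τ → ℤ, ENNReal.ofReal c * Gs (θ * a ^ 2 / s) (lv κ' U + (-(b / a)) • z) :=
          ENNReal.tsum_le_tsum fun κ' => h1 z _
      _ ≤ ENNReal.ofReal c * vth (θ * a ^ 2 / s) U := by
          rw [ENNReal.tsum_mul_left]
          exact mul_le_mul' le_rfl (vth_shift hn hU (by positivity) _)
      _ ≤ _ := by
          refine mul_le_mul' le_rfl ((vth_scale hn hU (by positivity) hts).trans (le_of_eq ?_))
          congr 3
          field_simp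
  have h3 : Dterm Λ h U p q ≤ ENNReal.ofReal (a ^ Fintype.card τ) * (ENNReal.ofReal c *
      (ENNReal.ofReal ((s / a ^ 2) ^ ((Fintype.card τ : ℝ) / 2)) * vth θ U)) := by
    unfold Dterm
    refine (ENNReal.tsum_le_tsum fun κ => h2 _).trans (le_of_eq ?_)
    rw [tsum_fintype, Finset.sum_const, Finset.card_univ, Fintype.card_fun, Fintype.card_fin,
      nsmul_eq_mul]
    congr 1
    rw [ha', ← Nat.cast_pow, ENNReal.ofReal_natCast]
  refine h3.trans ?_
  rw [← mul_assoc, ← mul_assoc, ← mul_assoc, ← ENNReal.ofReal_mul (by positivity),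
    ← ENNReal.ofReal_mul (by positivity), ← ENNReal.ofReal_mul (by positivity)]
  refine mul_le_mul' (ENNReal.ofReal_le_ofReal ?_) le_rfl
  have e2 : a ^ Fintype.card τ * (s / a ^ 2) ^ ((Fintype.card τ : ℝ) / 2) =
      s ^ ((Fintype.card τ : ℝ) / 2) := by
    have e3 : (a ^ 2) ^ ((Fintype.card τ : ℝ) / 2) = a ^ Fintype.card τ := by
      rw [← Real.rpow_natCast a 2, ← Real.rpow_mul ha0.le, ← Real.rpow_natCast]
      congr 1
      push_cast
      ring
    rw [Real.div_rpow hs0.le (by positivity), e3]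
    field_simp
  have k := primC1_term hv h5 haK
  calc a ^ Fintype.card τ * c * (s / a ^ 2) ^ ((Fintype.card τ : ℝ) / 2)
      = (1 + ξ) * (s ^ ((Fintype.card τ : ℝ) / 2) * (s ^ (-hd ι) * (0.3 * s) ^ (hd ι / 6))) := by
        rw [← e2, hc]; ring
    _ ≤ (1 + ξ) * (2.24 * Real.exp (-(1.2736 * hd ι)) * (5 / s) ^ 31) :=
        mul_le_mul_of_nonneg_left k (by linarith)
    _ = _ := by ring

variable (hn : 97 ≤ Fintype.card ι) (R : RL P g Λ d) (G : Good Λ ξ) (hd5 : 5 * hd ι / 3 ≤ d)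
include hn R G hd5

theorem vth_sq_le (ha : Fintype.card τ ≤ KK ι + 1) :
    ∫⁻ U, IA U * vth (th (hd ι)) U ^ 2 ∂pw τ Λ ≤
      ENNReal.ofReal (((1 + ξ) * VV (hd ι)) ^ Fintype.card τ *
        (2 + 4 * 9 ^ Fintype.card τ * (2 : ℝ) ^ (-hd ι))) := by
  have := R.sf
  have hv := hd_ge hn
  have hθ := th_ge hv
  have hθ' := th_le hv
  have hξ := G.nonneg
  have hV : 9 / 4 ≤ VV (hd ι) := by unfold VV; linarith [lb_ge hv]
  have haK : (Fintype.card τ : ℝ) ≤ hd ι / 3 + 1 := by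
    have h1 : (Fintype.card τ : ℝ) ≤ (KK ι : ℝ) + 1 := by exact_mod_cast ha
    linarith [KK_le (ι := ι)]
  set θ := th (hd ι) with hθd
  set a := Fintype.card τ with had
  set M : ℝ := ((1 + ξ) * VV (hd ι)) ^ a with hM
  have hM0 : 0 ≤ M := by positivity
  set c : ℝ := M * ((2 : ℝ) ^ (-hd ι) / VV (hd ι)) with hc
  have hc0 : 0 ≤ c := by positivity
  have hmeas : ∀ κ : τ → ℤ, Measurable fun U : Matrix τ ι ℝ => Gs (2 * θ) (lv κ U) :=
    fun κ => (measurable_Gs _).comp (measurable_lv κ)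
  have h1 : ∀ κ : τ → ℤ, (1 : ℝ) ≤ mx κ → ∫⁻ U, IA U * Gs (2 * θ) (lv κ U) ∂pw τ Λ ≤
      ENNReal.ofReal (c * (1 / mx κ) ^ (5 * hd ι / 3)) := by
    intro κ hκ
    refine (G.chain_non hn (t := 2 * θ) (g0 := 1) (by linarith) one_pos (by linarith) hκ).trans
      (le_of_eq ?_)
    have e1 : (θ / (2 * θ * 1 ^ 2)) ^ hd ι = (2 : ℝ) ^ (-hd ι) := by
      rw [Real.rpow_neg (by norm_num), ← Real.inv_rpow (by norm_num)]
      congr 1
      have : θ ≠ 0 := by linarith
      field_simp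
    rw [← hθd, e1]
  set w : (τ → ℤ) → ℝ≥0∞ := fun κ => ENNReal.ofReal ((2 / (mx κ : ℝ)) ^ (5 * hd ι / 6)) with hw
  have hw0 : ∀ κ ∈ CN τ 2, w κ ≠ 0 := by
    intro κ hκ
    have : (2 : ℝ) ≤ mx κ := by exact_mod_cast (show 2 ≤ mx κ from hκ)
    exact (ENNReal.ofReal_pos.mpr (by positivity)).ne'
  have hp : (a : ℝ) + (2 : ℕ) + 1 ≤ 5 * hd ι / 6 := by push_cast; linarith
  have hws : cs (CN τ 2) w ≤ ENNReal.ofReal (2 * 5 ^ a) := by
    refine (cs_CN_le (g := 2) le_rfl (c := 1) zero_le_one hp fun κ _ => ?_).trans (le_of_eq ?_)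
    · simp [hw]
    · norm_num [had]
  set A : Matrix τ ι ℝ → ℝ≥0∞ := fun U => cs (CG τ 1) fun κ => Gs (2 * θ) (lv κ U) with hA
  set B : Matrix τ ι ℝ → ℝ≥0∞ := fun U => cs (CN τ 2) fun κ => Gs (2 * θ) (lv κ U) / w κ with hB
  have hpt : ∀ U : Matrix τ ι ℝ, IA U * vth θ U ^ 2 ≤ 2 * IA U +
      4 * 3 ^ a * (IA U * A U) + 4 * ENNReal.ofReal (2 * 5 ^ a) * (IA U * B U) := by
    intro U
    have k1 : vth θ U ≤ 1 + ((cs (CG τ 1) fun κ => Gs θ (lv κ U)) +
        cs (CN τ 2) fun κ => Gs θ (lv κ U)) := by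
      rw [vth_eq]
      exact add_le_add le_rfl ((cs_mono primC1_cover _).trans (cs_union_le _ _ _))
    have k2 : (cs (CG τ 1) fun κ => Gs θ (lv κ U)) ^ 2 ≤ 3 ^ a * A U := by
      simpa only [primC1_Gs_sq] using cs_CG_sq_le 1 fun κ : τ → ℤ => Gs θ (lv κ U)
    have k3 : (cs (CN τ 2) fun κ => Gs θ (lv κ U)) ^ 2 ≤ ENNReal.ofReal (2 * 5 ^ a) * B U := by
      have := cs_sq_le (CN τ 2) (fun κ : τ → ℤ => Gs θ (lv κ U)) w hw0
        fun _ _ => ENNReal.ofReal_ne_top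
      simp only [primC1_Gs_sq] at this
      exact this.trans (mul_le_mul' hws le_rfl)
    calc IA U * vth θ U ^ 2
        ≤ IA U * (2 + 4 * (3 ^ a * A U) + 4 * (ENNReal.ofReal (2 * 5 ^ a) * B U)) := by
          refine mul_le_mul' le_rfl (((pow_le_pow_left' k1 2).trans (primC1_sq _ _)).trans ?_)
          gcongr
      _ = _ := by ring
  have hAm : Measurable A := Measurable.tsum fun κ => hmeas κ.1
  have iA' : ∫⁻ U, IA U * A U ∂pw τ Λ ≤ ENNReal.ofReal (3 ^ a * c) := by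
    rw [hA, primC1_lintegral_cs _ _ _ hmeas]
    refine cs_CG_le hc0 fun κ hκ => ?_
    have := h1 κ (by rw [primC1_mx hκ]; norm_num)
    rwa [primC1_mx hκ, Nat.cast_one, div_one, Real.one_rpow, mul_one] at this
  have iB' : ∫⁻ U, IA U * B U ∂pw τ Λ ≤
      ENNReal.ofReal (2 * 5 ^ a * (c * (2 : ℝ) ^ (-(5 * hd ι / 3)))) := by
    rw [hB, primC1_lintegral_cs _ _ _ fun κ => (hmeas κ).div_const _]
    refine (cs_CN_le (g := 2) le_rfl (c := c * (2 : ℝ) ^ (-(5 * hd ι / 3))) (by positivity) hp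
      fun κ hκ => ?_).trans (le_of_eq ?_)
    · have h2 : (2 : ℝ) ≤ mx κ := by exact_mod_cast (show 2 ≤ mx κ from hκ)
      have h3 : (0 : ℝ) < (2 / (mx κ : ℝ)) ^ (5 * hd ι / 6) := by positivity
      simp only [div_eq_mul_inv (Gs _ _), ← mul_assoc]
      rw [lintegral_mul_const' _ _ (ENNReal.inv_ne_top.mpr (hw0 κ hκ)), ← div_eq_mul_inv]
      refine (ENNReal.div_le_div_right (h1 κ (by linarith)) _).trans (le_of_eq ?_)
      rw [hw, ← ENNReal.ofReal_div_of_pos h3]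
      congr 1
      have h4 : (1 / (mx κ : ℝ)) ^ (5 * hd ι / 3) = (2 : ℝ) ^ (-(5 * hd ι / 3)) *
          ((2 / (mx κ : ℝ)) ^ (5 * hd ι / 6) * (2 / (mx κ : ℝ)) ^ (5 * hd ι / 6)) := by
        rw [← Real.rpow_add (by positivity), Real.rpow_neg (by norm_num),
          ← Real.inv_rpow (by norm_num),
          show 5 * hd ι / 6 + 5 * hd ι / 6 = 5 * hd ι / 3 by ring,
          ← Real.mul_rpow (by norm_num) (by positivity)]
        congr 1
        field_simp
      rw [div_eq_iff h3.ne', Nat.cast_ofNat, h4]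
      ring
    · norm_num [had]
  have hnum : 4 * 3 ^ a * (3 ^ a * c) +
      4 * (2 * 5 ^ a) * (2 * 5 ^ a * (c * (2 : ℝ) ^ (-(5 * hd ι / 3)))) ≤
        M * (4 * 9 ^ a * (2 : ℝ) ^ (-hd ι)) := by
    have k1 : c ≤ M * (2 : ℝ) ^ (-hd ι) * (4 / 9) := by
      rw [hc, mul_assoc]
      refine mul_le_mul_of_nonneg_left ?_ hM0
      rw [div_le_iff₀ (by linarith)]
      nlinarith [Real.rpow_pos_of_pos (show (0 : ℝ) < 2 by norm_num) (-hd ι)]
    have k2 : (4 : ℝ) ^ a * (2 : ℝ) ^ (-(5 * hd ι / 3)) ≤ 1 / 2 ^ 2 := by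
      rw [show (4 : ℝ) ^ a = (2 : ℝ) ^ (2 * (a : ℝ)) by
        rw [Real.rpow_mul (by norm_num), Real.rpow_natCast]; norm_num,
        ← Real.rpow_add (by norm_num)]
      exact primC1_two_pow (by push_cast; linarith) rfl
    have k3 : (5 : ℝ) ^ a * 5 ^ a ≤ 9 ^ a * 4 ^ a := by
      rw [← mul_pow, ← mul_pow]
      exact pow_le_pow_left₀ (by norm_num) (by norm_num) a
    have k4 : (3 : ℝ) ^ a * 3 ^ a = 9 ^ a := by rw [← mul_pow]; norm_num
    have k5 : (5 : ℝ) ^ a * 5 ^ a * (2 : ℝ) ^ (-(5 * hd ι / 3)) ≤ 9 ^ a * (1 / 2 ^ 2) :=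
      calc _ ≤ 9 ^ a * 4 ^ a * (2 : ℝ) ^ (-(5 * hd ι / 3)) := by gcongr
        _ ≤ _ := by rw [mul_assoc]; gcongr
    calc _ = c * (4 * (3 ^ a * 3 ^ a) + 16 * (5 ^ a * 5 ^ a * (2 : ℝ) ^ (-(5 * hd ι / 3)))) := by
          ring
      _ ≤ M * (2 : ℝ) ^ (-hd ι) * (4 / 9) * (4 * 9 ^ a + 16 * (9 ^ a * (1 / 2 ^ 2))) := by
          rw [k4]; gcongr
      _ = M * (9 ^ a * (2 : ℝ) ^ (-hd ι)) * (32 / 9) := by ring
      _ ≤ M * (9 ^ a * (2 : ℝ) ^ (-hd ι)) * 4 := by gcongr; norm_num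
      _ = _ := by ring
  refine (lintegral_mono hpt).trans ?_
  have m1' : Measurable fun U : Matrix τ ι ℝ => 2 * IA U := measurable_IA.const_mul _
  have m2' : Measurable fun U : Matrix τ ι ℝ => 2 * IA U + 4 * 3 ^ a * (IA U * A U) :=
    m1'.add ((measurable_IA.mul hAm).const_mul _)
  rw [lintegral_add_left m2', lintegral_add_left m1',
    lintegral_const_mul' _ _ (by norm_num),
    lintegral_const_mul' _ _ (ENNReal.mul_ne_top (by norm_num) (ENNReal.pow_ne_top (by norm_num))),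
    lintegral_const_mul' _ _ (ENNReal.mul_ne_top (by norm_num) ENNReal.ofReal_ne_top)]
  calc _ ≤ 2 * ENNReal.ofReal M + 4 * 3 ^ a * ENNReal.ofReal (3 ^ a * c) +
        4 * ENNReal.ofReal (2 * 5 ^ a) *
          ENNReal.ofReal (2 * 5 ^ a * (c * (2 : ℝ) ^ (-(5 * hd ι / 3)))) := by
        gcongr
        exact G.lintegral_IA hn
    _ = ENNReal.ofReal (2 * M + (4 * 3 ^ a * (3 ^ a * c) +
        4 * (2 * 5 ^ a) * (2 * 5 ^ a * (c * (2 : ℝ) ^ (-(5 * hd ι / 3)))))) := by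
        rw [ENNReal.ofReal_add (by positivity) (by positivity),
          ENNReal.ofReal_add (by positivity) (by positivity), add_assoc,
          ENNReal.ofReal_mul (p := 2) (q := M) (by norm_num),
          ENNReal.ofReal_mul (p := 4 * 3 ^ a) (by positivity),
          ENNReal.ofReal_mul (p := 4) (q := 3 ^ a) (by norm_num),
          ENNReal.ofReal_mul (p := 4 * (2 * 5 ^ a)) (by positivity),
          ENNReal.ofReal_mul (p := 4) (q := 2 * 5 ^ a) (by norm_num),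
          ENNReal.ofReal_pow (p := 3) (by norm_num)]
        norm_num
    _ ≤ _ := ENNReal.ofReal_le_ofReal (by linarith)

theorem Efr_le (ha : Fintype.card τ ≤ KK ι + 1) (hh : Hf h) {U : Matrix τ ι ℝ}
    (hU : LinearIndependent ℝ fun i => (U i : ι → ℝ)) :
    Efr Λ h U ≤
      ENNReal.ofReal (11.2 * (1 + ξ) * Real.exp (-(1.2736 * hd ι))) * vth (th (hd ι)) U := by
  unfold Efr
  refine (ENNReal.tsum_le_tsum fun x => primC1_Dterm hn G ha hh hU x.2).trans ?_
  rw [ENNReal.tsum_mul_right]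
  refine (mul_le_mul' primC1_pairs le_rfl).trans (le_of_eq ?_)
  rw [← mul_assoc, show (5 : ℝ≥0∞) = ENNReal.ofReal 5 by norm_num,
    ← ENNReal.ofReal_mul (by norm_num)]
  congr 2
  ring

omit hn R G hd5 [DecidableEq ι] [DecidableEq τ] in
theorem primC1_vth_sq (t : ℝ) (U : Matrix τ ι ℝ) : vth t U ≤ vth t U ^ 2 := by
  rw [sq]
  exact le_mul_of_one_le_right' (one_le_vth t U)

theorem Efr_int (ha : Fintype.card τ ≤ KK ι) (hh : Hf h) :
    ∫⁻ U, IA U * Efr Λ h U ∂pw τ Λ ≤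
      ENNReal.ofReal (((1 + ξ) * VV (hd ι)) ^ Fintype.card τ *
        (evA (hd ι) ξ (Fintype.card τ) Lfr * vp (hd ι))) := by
  have hv := hd_ge hn
  have hξ := G.nonneg
  have hV : 9 / 4 ≤ VV (hd ι) := by unfold VV; linarith [lb_ge hv]
  have haK : (Fintype.card τ : ℝ) ≤ hd ι / 3 := by
    have h1 : (Fintype.card τ : ℝ) ≤ (KK ι : ℝ) := by exact_mod_cast ha
    linarith [KK_le (ι := ι)]
  have hlt : Fintype.card τ < d := by
    have : (Fintype.card τ : ℝ) < d := by linarith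
    exact_mod_cast this
  have he : evA (hd ι) ξ (Fintype.card τ) Lfr = 187 * Real.exp (-(0.4984 * hd ι)) * (1 + ξ) := by
    simp [evA, Lfr, At.ev, Mono.ev, ff_zero]
  calc _ ≤ ∫⁻ U, ENNReal.ofReal (11.2 * (1 + ξ) * Real.exp (-(1.2736 * hd ι))) *
        (IA U * vth (th (hd ι)) U ^ 2) ∂pw τ Λ := by
        refine lintegral_mono_ae ((R.ae_li hlt).mono fun U hU => ?_)
        rw [mul_left_comm]
        exact mul_le_mul' le_rfl ((Efr_le hn R G hd5 (by omega) hh hU).trans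
          (mul_le_mul' le_rfl (primC1_vth_sq _ _)))
    _ ≤ _ := by
        rw [lintegral_const_mul' _ _ ENNReal.ofReal_ne_top]
        refine (mul_le_mul' le_rfl (vth_sq_le hn R G hd5 (by omega))).trans ?_
        rw [← ENNReal.ofReal_mul (by positivity), he, mul_left_comm]
        refine ENNReal.ofReal_le_ofReal (mul_le_mul_of_nonneg_left ?_ (by positivity))
        have k1 := primC1_nine haK
        have k2 : 1 ≤ Real.exp (0.0393 * hd ι) := Real.one_le_exp (by linarith)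
        have k3 := inv_vp hv
        have k4 : Real.exp (-(1.2736 * hd ι)) * Real.exp (0.0393 * hd ι) *
            Real.exp (0.7359 * hd ι) = Real.exp (-(0.4984 * hd ι)) := by
          rw [← Real.exp_add, ← Real.exp_add]; congr 1; ring
        calc _ ≤ 11.2 * (1 + ξ) * Real.exp (-(1.2736 * hd ι)) * (6 * Real.exp (0.0393 * hd ι)) :=
              mul_le_mul_of_nonneg_left (by linarith) (by positivity)
          _ ≤ 11.2 * (1 + ξ) * Real.exp (-(1.2736 * hd ι)) * (6 * Real.exp (0.0393 * hd ι)) *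
              (0.4361 * Real.exp (0.7359 * hd ι) * vp (hd ι)) :=
              le_mul_of_one_le_right (by positivity) k3
          _ = (11.2 * 6 * 0.4361) * (Real.exp (-(0.4984 * hd ι)) * (1 + ξ) * vp (hd ι)) := by
              rw [← k4]; ring
          _ ≤ 187 * (Real.exp (-(0.4984 * hd ι)) * (1 + ξ) * vp (hd ι)) :=
              mul_le_mul_of_nonneg_right (by norm_num) (by have := vp_pos hv; positivity)
          _ = _ := by ring

theorem Dfun_le (ha : Fintype.card τ ≤ KK ι + 1) (hh : Hf h) {U : Matrix τ ι ℝ}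
    (hU : LinearIndependent ℝ fun i => (U i : ι → ℝ)) :
    Dfun Λ h U ≤ NN Λ h + ENNReal.ofReal (1 + ξ) * vth (th (hd ι)) U ^ 2 := by
  have := R.sf
  have hv := hd_ge hn
  have hθ := th_ge hv
  have hξ := G.nonneg
  have haK : (Fintype.card τ : ℝ) ≤ hd ι / 3 + 1 := by
    have h1 : (Fintype.card τ : ℝ) ≤ (KK ι : ℝ) + 1 := by exact_mod_cast ha
    linarith [KK_le (ι := ι)]
  have h1 : Esh {κ | κ ≠ 0} Λ h U ≤ ENNReal.ofReal ((1 + ξ) / 2) * vth (th (hd ι)) U := by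
    have k1 : fs' {κ | κ ≠ 0} (cor Λ h) U ≤
        ENNReal.ofReal ((1 + ξ) * (2 : ℝ) ^ (-hd ι)) * vth (th (hd ι) / 2) U := by
      rw [vth_eq]
      refine le_trans ?_ (mul_le_mul' le_rfl le_add_self)
      unfold fs' cs
      rw [← ENNReal.tsum_mul_left]
      exact ENNReal.tsum_le_tsum fun κ => G.cor_le hn hh _
    have k2 := vth_scale hn hU (s := th (hd ι) / 2) (t := th (hd ι)) (by linarith) (by linarith)
    have k3 : th (hd ι) / (th (hd ι) / 2) = 2 := by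
      have : th (hd ι) ≠ 0 := by linarith
      field_simp
    rw [k3] at k2
    unfold Esh
    refine (mul_le_mul' le_rfl (k1.trans (mul_le_mul' le_rfl k2))).trans ?_
    rw [← mul_assoc, ← mul_assoc, show (2 : ℝ≥0∞) = ENNReal.ofReal 2 by norm_num,
      ← ENNReal.ofReal_mul (by norm_num), ← ENNReal.ofReal_mul (by positivity)]
    refine mul_le_mul' (ENNReal.ofReal_le_ofReal ?_) le_rfl
    have k4 : (2 : ℝ) ^ (-hd ι) * (2 : ℝ) ^ ((Fintype.card τ : ℝ) / 2) ≤ 1 / 2 ^ 2 := by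
      rw [← Real.rpow_add (by norm_num)]
      exact primC1_two_pow (by push_cast; linarith) rfl
    nlinarith
  have h2 : Efr Λ h U ≤ ENNReal.ofReal ((1 + ξ) / 2) * vth (th (hd ι)) U := by
    refine (Efr_le hn R G hd5 ha hh hU).trans (mul_le_mul' (ENNReal.ofReal_le_ofReal ?_) le_rfl)
    have k1 : Real.exp (-(1.2736 * hd ι)) * (1.2736 * hd ι + 1) ≤ 1 := by
      have := Real.add_one_le_exp (1.2736 * hd ι)
      calc _ ≤ Real.exp (-(1.2736 * hd ι)) * Real.exp (1.2736 * hd ι) := by gcongr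
        _ = 1 := by rw [← Real.exp_add]; simp
    have k2 : 11.2 * Real.exp (-(1.2736 * hd ι)) ≤ 1 / 2 := by
      nlinarith [Real.exp_pos (-(1.2736 * hd ι))]
    nlinarith
  rw [Dfun_eq hh.even, add_assoc]
  refine add_le_add le_rfl ((add_le_add h1 h2).trans ?_)
  rw [← add_mul, ← ENNReal.ofReal_add (by positivity) (by positivity), add_halves]
  exact mul_le_mul' le_rfl (primC1_vth_sq _ _)

end Pool.Agent.Eps.P
end
end
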