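import Pool.Agent.Lib.MP_3bda03_nt.P.FreeA
import Pool.Agent.Lib.MP_3bda03_nt.P.Level2
import Pool.Agent.Lib.MP_3bda03_nt.P.Num
import Pool.Agent.Lib.MP_3bda03_nt.P.FreeB


/-!
The error of the conditional moment for one nice frame.
-/

set_option autoImplicit false

noncomputable section

open MeasureTheory Matrix
open scoped ENNReal

namespace Pool.Agent.Eps.P

open Pool.Agent.Eps.H

variable {α β ι : Type} [Fintype α] [DecidableEq α] [Fintype β] [DecidableEq β] [Fintype ι]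
  [DecidableEq ι] (e : α ⊕ β ≃ ι) {φ : ℝ → ℝ}

theorem L_small : (∀ t ∈ L1, t.q ≤ 10 ∧ t.a ≤ 7) ∧ (∀ t ∈ scT (cM 1) 1 L2, t.q ≤ 10 ∧ t.a ≤ 7) ∧
    (∀ t ∈ L3, t.q ≤ 10 ∧ t.a ≤ 7) := by
  refine ⟨?_, ?_, ?_⟩ <;> decide +kernel

variable (hn : 97 ≤ Fintype.card ι) (hb : Fintype.card α ≤ KK ι) (hφ : Tst ι φ)
include hn hb hφ

theorem pt_err {X : Matrix α ι ℝ} (hX : (blk e X).det ≠ 0) (hA : ∀ i, X i ∈ AA ι) (hg : nice X)
    (m : ℝ) {ξ : ℝ} (hξ : ξ = (Gam2 X).toReal + Fintype.card α * g1 (hd ι)) :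
    ∫⁻ ω, hole (gX e X ω) * YY (rad φ) (ctr (rad φ : (ι → ℝ) → ℝ) - m) (gX e X ω) ∂PX α β ≠ ∞ ∧
    |(∫⁻ ω, hole (gX e X ω) * YY (rad φ) (ctr (rad φ : (ι → ℝ) → ℝ) - m) (gX e X ω)
          ∂PX α β).toReal -
        Real.exp (-xV e X) * (sV e (rad φ) m X ^ 2 + NV e (rad φ) X)| ≤
      evT (hd ι) ξ L1 * (1.15 * s1 (rad φ) m X ^ 2) +
        0.00767 * (1 + ((|tilt 3 5| : ℚ) : ℝ) / lb (hd ι)) ^ Fintype.card α *
          (S2a (rad φ) X).toReal ^ 2 +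
        evT (hd ι) ξ (scT (cM 1) 1 L2) * Nz (rad φ : (ι → ℝ) → ℝ) +
        evT (hd ι) ξ L3 * vp (hd ι) := by
  have hv := hd_ge hn
  have hlb := lb_ge hv
  have hx2 : 0 ≤ xi2 (hd ι) := by
    unfold xi2
    apply div_nonneg (by norm_num)
    linarith
  have hg' : Gam2 X ≤ ENNReal.ofReal (xi2 (hd ι)) := hg
  have hfin : Gam2 X ≠ ∞ := ne_top_of_le_ne_top ENNReal.ofReal_ne_top hg'
  have hG0 : 0 ≤ (Gam2 X).toReal := ENNReal.toReal_nonneg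
  have hG1 : (Gam2 X).toReal ≤ xi2 (hd ι) := ENNReal.toReal_le_of_le_ofReal hx2 hg'
  have hg1 : 0 ≤ (Fintype.card α : ℝ) * g1 (hd ι) := by
    unfold g1
    positivity
  have hξ0 : 0 ≤ ξ := by rw [hξ]; linarith
  have hGam : Gam X ≤ ENNReal.ofReal ξ := by
    rw [hξ, ENNReal.ofReal_add hG0 hg1, ENNReal.ofReal_toReal hfin]
    exact Gam_le hn hA
  have hcard := card_beta e
  have : Nonempty β := by
    apply Fintype.card_pos_iff.1
    have hb' : Fintype.card α ≤ Fintype.card ι / 6 := hb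
    omega
  have hd5 : 5 * hd ι / 3 ≤ ((Fintype.card β : ℕ) : ℝ) := by
    rw [hcard]
    exact five_le hb
  have hz : ∀ y ∈ BB ι, rad φ y = 0 := fun y hy => hφ.zero _ hy
  obtain ⟨h1, h2⟩ := level2 hn (rl_cond e hX) (good_cond e hX hn hb hξ0 hGam) hd5 (hφ.hf hn) hz
    (ctr (rad φ : (ι → ℝ) → ℝ) - m) (s := sV e (rad φ) m X) (N := NV e (rad φ) X) rfl rfl
  refine ⟨h1, le_trans h2 ?_⟩
  obtain ⟨-, hS, s2, hs, hs2⟩ := pt_s e hn hb hX hA hφ m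
  obtain ⟨-, hN, -⟩ := pt_N e hn hb hX hA hφ
  have hs2' : |s2| ≤ (S2a (rad φ) X).toReal := (ENNReal.ofReal_le_iff_le_toReal hS).1 hs2
  have hsq : s2 ^ 2 ≤ (S2a (rad φ) X).toReal ^ 2 := by
    rw [← sq_abs s2]
    exact pow_le_pow_left₀ (abs_nonneg _) hs2' 2
  have hsV : sV e (rad φ) m X ^ 2 ≤
      1.15 * s1 (rad φ) m X ^ 2 + 7.67 * (S2a (rad φ) X).toReal ^ 2 := by
    rw [hs]
    nlinarith [sq_nonneg (0.15 * s1 (rad φ) m X - s2), sq_nonneg s2]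
  have hNz : 0 ≤ Nz (rad φ : (ι → ℝ) → ℝ) := by
    unfold Nz
    exact mul_nonneg (by norm_num) (integral_nonneg fun y => sq_nonneg _)
  have hNV : NV e (rad φ) X ≤ Nz (rad φ : (ι → ℝ) → ℝ) * Real.exp ξ := by
    unfold NV
    apply ENNReal.toReal_le_of_le_ofReal (mul_nonneg hNz (Real.exp_pos _).le)
    refine le_trans hN ?_
    rw [ENNReal.ofReal_mul hNz]
    gcongr
    calc 1 + Gam X ≤ 1 + ENNReal.ofReal ξ := by gcongr
      _ = ENNReal.ofReal (ξ + 1) := by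
        rw [ENNReal.ofReal_add hξ0 zero_le_one, ENNReal.ofReal_one, add_comm]
      _ ≤ _ := ENNReal.ofReal_le_ofReal (Real.add_one_le_exp ξ)
  have hT1 := evT_nonneg hv ξ L1
  have hT2 := evT_nonneg hv ξ L2
  have hsc : evT (hd ι) ξ (scT (cM 1) 1 L2) = Real.exp ξ * evT (hd ι) ξ L2 := by
    rw [evT_scT hv, ev_cM]
    norm_num
  have hp0 : 0 ≤ (1 + ((|tilt 3 5| : ℚ) : ℝ) / lb (hd ι)) ^ Fintype.card α := by
    apply pow_nonneg
    have h3 : (0 : ℝ) ≤ ((|tilt 3 5| : ℚ) : ℝ) := by exact_mod_cast abs_nonneg _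
    have h4 : 0 ≤ ((|tilt 3 5| : ℚ) : ℝ) / lb (hd ι) := div_nonneg h3 (by linarith)
    linarith
  have hL1 : evT (hd ι) ξ L1 ≤
      0.001 * (1 + ((|tilt 3 5| : ℚ) : ℝ) / lb (hd ι)) ^ Fintype.card α := by
    rw [hξ]
    exact le_trans (evT_L1_le hv _ hG0 hG1) (mul_le_mul_of_nonneg_right (num_L1u hv) hp0)
  have a1 := mul_le_mul_of_nonneg_left hsV hT1
  have a2 := mul_le_mul_of_nonneg_right hL1 (sq_nonneg (S2a (rad φ) X).toReal)
  have a3 := mul_le_mul_of_nonneg_left hNV hT2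
  rw [hsc]
  nlinarith

end Pool.Agent.Eps.P
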